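import Pool.Agent.TRI.F_N7

/-!
Area F, part 1 (F_R): the partition function `Y` counts satisfying assignments (up to a small error).
-/

namespace Pool.Agent.TRI

open Finset

namespace Inst

theorem F_R_sharpSat_nil (n : ℕ) : sharpSat (n, []) = 2 ^ n := by
  unfold sharpSat
  rw [filter_true_of_mem (fun a _ => by simp)]
  simp

theorem F_R_sharpSat_le (φ : Cnf) : sharpSat φ ≤ 2 ^ φ.1 := by
  unfold sharpSat
  refine (card_filter_le _ _).trans ?_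
  simp

theorem F_R_mainW_pos (n m : ℕ) : 0 < mainW n m := by
  unfold mainW
  positivity

/-- rounding -/
theorem F_R_round {n : ℕ} {M s y y0 E E0 : ℚ} (hM : 0 < M) (hs0 : 0 ≤ s)
    (hs : s ≤ 2 ^ n) (hE : 0 ≤ E) (hE0 : 0 ≤ E0) (h1 : 2 ^ (n + 3) * E ≤ M)
    (h2 : 2 ^ (n + 3) * E0 ≤ M) (hy : y = M * s + E) (hy0 : y0 = M * 2 ^ n + E0) :
    s * (2 * y0) ≤ 2 ^ (n + 1) * y + y0 ∧ 2 ^ (n + 1) * y + y0 < (s + 1) * (2 * y0) := by
  have hp : (1 : ℚ) ≤ 2 ^ n := one_le_pow₀ (by norm_num)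
  have e3 : (2 : ℚ) ^ (n + 3) = 8 * 2 ^ n := by ring
  have e1 : (2 : ℚ) ^ (n + 1) = 2 * 2 ^ n := by ring
  rw [e3] at h1 h2
  rw [e1, hy, hy0]
  set p : ℚ := 2 ^ n with hpdef
  have h3 : s * E0 ≤ p * E0 := mul_le_mul_of_nonneg_right hs hE0
  have h4 : M ≤ M * p := le_mul_of_one_le_right hM.le hp
  have h5 : 0 ≤ s * E0 := mul_nonneg hs0 hE0
  have h6 : 0 ≤ p * E := mul_nonneg (by linarith) hE
  constructor
  · have : 2 * p * (M * s + E) + (M * p + E0) - s * (2 * (M * p + E0)) =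
        2 * (p * E) + M * p + E0 - 2 * (s * E0) := by ring
    linarith
  · have : (s + 1) * (2 * (M * p + E0)) - (2 * p * (M * s + E) + (M * p + E0)) =
        M * p + E0 + 2 * (s * E0) - 2 * (p * E) := by ring
    linarith

/-- [F R] the number of satisfying assignments from the alternating sums.
Proof. `main` (of `StmtE`) with `N = pN n`, `K = pK n m`, `r = pr n m` gives `c > 0` with
`Q n m ψ = c * Y ψ` in `ℚ`, for `ψ = φ` and `ψ = (n, [])`. Put `M = mainW n m`, `s = sharpSat φ ≤ 2 ^ n`,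
`Y φ = M s + E`, `Y0 = M 2 ^ n + E0` (`sharpSat (n, []) = 2 ^ n`), `2 ^ (n + 3) E ≤ M`,
`2 ^ (n + 3) E0 ≤ M` (`Y_bounds`). Then
`2 ^ (n + 1) Y + Y0 - 2 s Y0 = 2 ^ (n + 1) E + M 2 ^ n + E0 - 2 s E0`, which is `≥ 0` and `< 2 Y0`.
Conclude with `Int.ediv_eq_iff...` / `Int.le_ediv_iff_mul_le`, `Int.ediv_lt_iff_lt_mul`. -/
theorem sharpSat_eq (φ : Cnf) :
    (sharpSat φ : ℤ) = (2 ^ (φ.1 + 1) * Q φ.1 φ.2.length φ + Q φ.1 φ.2.length (φ.1, [])) /
      (2 * Q φ.1 φ.2.length (φ.1, [])) := by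
  have hN : 1 ≤ pN φ.1 := by unfold pN; omega
  have hK : 2 ≤ pK φ.1 φ.2.length := by unfold pK; omega
  have hr : 1 ≤ pr φ.1 φ.2.length := by
    unfold pr
    exact Nat.mul_pos (Nat.mul_pos (by norm_num) hN) (by omega)
  obtain ⟨c, hc, hmain⟩ := main hN hK hr
  have hQ : ∀ ψ : Cnf, (Q φ.1 φ.2.length ψ : ℚ) = c * Y (pN φ.1) (pK φ.1 φ.2.length)
      (pr φ.1 φ.2.length) (fw ψ (pN φ.1) (pr φ.1 φ.2.length)) := fun ψ => hmain _
  have hb1 := Y_bounds φ φ rfl le_rfl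
  have hb0 := Y_bounds φ (φ.1, []) rfl (Nat.zero_le _)
  rw [F_R_sharpSat_nil] at hb0
  have q1 := hQ φ
  have q0 := hQ (φ.1, [])
  generalize Y (pN φ.1) (pK φ.1 φ.2.length) (pr φ.1 φ.2.length)
    (fw φ (pN φ.1) (pr φ.1 φ.2.length)) = y at hb1 q1
  generalize Y (pN φ.1) (pK φ.1 φ.2.length) (pr φ.1 φ.2.length)
    (fw (φ.1, []) (pN φ.1) (pr φ.1 φ.2.length)) = y0 at hb0 q0
  have hM := F_R_mainW_pos φ.1 φ.2.length
  generalize mainW φ.1 φ.2.length = M at hb1 hb0 hM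
  have hs := F_R_sharpSat_le φ
  generalize sharpSat φ = s at hb1 hs ⊢
  generalize Q φ.1 φ.2.length φ = Q1 at q1 ⊢
  generalize Q φ.1 φ.2.length (φ.1, []) = Q0 at q0 ⊢
  generalize φ.1 = n at *
  obtain ⟨E, hE⟩ := Nat.exists_eq_add_of_le hb1.1
  obtain ⟨E0, hE0⟩ := Nat.exists_eq_add_of_le hb0.1
  rw [hE, Nat.add_sub_cancel_left] at hb1
  rw [hE0, Nat.add_sub_cancel_left] at hb0
  have hMq : (0 : ℚ) < M := by exact_mod_cast hM
  have key := F_R_round (n := n) (M := (M : ℚ)) (s := (s : ℚ)) (y := (y : ℚ)) (y0 := (y0 : ℚ))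
    (E := (E : ℚ)) (E0 := (E0 : ℚ)) hMq (Nat.cast_nonneg _) (by exact_mod_cast hs)
    (Nat.cast_nonneg _) (Nat.cast_nonneg _) (by exact_mod_cast hb1.2) (by exact_mod_cast hb0.2)
    (by rw [hE]; push_cast; ring) (by rw [hE0]; push_cast; ring)
  have hy0 : (0 : ℚ) < y0 := by
    rw [hE0]
    push_cast
    have : (0 : ℚ) < (M : ℚ) * 2 ^ n := by positivity
    have : (0 : ℚ) ≤ E0 := Nat.cast_nonneg _
    linarith
  have hQ0 : 0 < Q0 := by
    have : (0 : ℚ) < (Q0 : ℚ) := by rw [q0]; exact mul_pos hc hy0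
    exact_mod_cast this
  have hB : 0 < 2 * Q0 := by omega
  apply le_antisymm
  · rw [Int.le_ediv_iff_mul_le hB]
    have : ((s : ℚ)) * (2 * (Q0 : ℚ)) ≤ 2 ^ (n + 1) * (Q1 : ℚ) + (Q0 : ℚ) := by
      rw [q1, q0]
      have := mul_le_mul_of_nonneg_left key.1 hc.le
      linarith
    exact_mod_cast this
  · rw [← Int.lt_add_one_iff, Int.ediv_lt_iff_lt_mul hB]
    have : 2 ^ (n + 1) * (Q1 : ℚ) + (Q0 : ℚ) < ((s : ℚ) + 1) * (2 * (Q0 : ℚ)) := by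
      rw [q1, q0]
      have := mul_lt_mul_of_pos_left key.2 hc
      linarith
    exact_mod_cast this

end Inst

end Pool.Agent.TRI
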