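import Pool.Agent.TRI.StmtE
import Pool.Agent.LibComplexity.Encode

/-!
Area F, definitions: CNF formulas, the functions of the windows, the oracle.
-/

namespace Pool.Agent.TRI

open Finset

/-- a CNF formula: number of variables, list of clauses; a literal is a pair (sign, variable);
literals with variables out of range are false -/
abbrev Cnf := ℕ × List (List (Bool × ℕ))

/-- the clause `c` is satisfied by the assignment `a` -/
def clauseSat {n : ℕ} (a : Fin n → Bool) (c : List (Bool × ℕ)) : Bool :=
  c.any fun l => if h : l.2 < n then a ⟨l.2, h⟩ == l.1 else false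

/-- the number of satisfying assignments -/
def sharpSat (φ : Cnf) : ℕ :=
  (univ.filter fun a : Fin φ.1 → Bool => φ.2.all (clauseSat a) = true).card

namespace Inst

/-- the bit `x` of the state `c` in the stack `k` -/
def xb (k c : ℕ) : Bool := (decide (c = 1 ∨ c = 2)) ^^ (decide (k % 2 = 1))

/-- the bit `s` of the state `c` -/
def sb (c : ℕ) : Bool := decide (2 ≤ c)

/-- does the literal of the variable `v` with value `b` satisfy the clause? -/
def litIn (cl : List (Bool × ℕ)) (v : ℕ) (b : Bool) : Bool := cl.any fun l => l.2 == v && l.1 == b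

/-- outgoing bit of the node `(k, i)`, `2 ≤ i ≤ n + 1`, in state `c` -/
def outb (φ : Cnf) (k i c : ℕ) : Bool :=
  sb c || (decide (i ≤ k) && match φ.2[k - i]? with
    | none => false
    | some cl => litIn cl (i - 2) (xb k c))

/-- function of the left window of the arc `j` of the rainbow `k` -/
def funL (φ : Cnf) (r k j c : ℕ) : Bool :=
  let i := iL r j
  if isH r j then (if 2 ≤ i ∧ i ≤ φ.1 + 1 then xb k c else true)
  else if i = φ.1 + 1 ∧ ¬ (φ.1 + 1 ≤ k ∧ k - (φ.1 + 1) < φ.2.length) then true
  else if i = 1 then false
  else outb φ k i c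

/-- function of the right window of the arc `j` of the rainbow `k` -/
def funR (φ : Cnf) (r k j c : ℕ) : Bool :=
  let i := iR r j
  if isH r j then (if 2 ≤ i ∧ i ≤ φ.1 + 1 then xb (k + 1) c else true)
  else if i ≤ φ.1 + 1 then sb c else true

/-- the functions of the windows -/
def fw (φ : Cnf) (N r w c : ℕ) : Bool :=
  if isLeft N r w then funL φ r (fk N r w) (fj N r w) c else funR φ r (fk N r w) (fj N r w) c

/-- parameters: rows, stacks, parallel arcs -/
def pN (n : ℕ) : ℕ := n + 2
def pK (n m : ℕ) : ℕ := 2 * (m + n + 1)
def pr (n m : ℕ) : ℕ := 400 * pN n * pK n m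

/-- main term -/
def mainW (n m : ℕ) : ℕ :=
  16 ^ (2 * pK n m) * 15 ^ (n * (m + n + 1)) * 2 ^ n *
    113 ^ (pr n m * ((2 * pN n - 1) * (pK n m - 1)))

/-- the alternating sum for the formula `ψ` with the parameters of `φ` -/
noncomputable def Q (n m : ℕ) (ψ : Cnf) : ℤ :=
  ∑ a ∈ range (dI (pN n) (pK n m) (pr n m) + 1), ∑ t ∈ range (eI (pN n) (pK n m) (pr n m) + 1),
    (-1) ^ ((dI (pN n) (pK n m) (pr n m) - a) + (eI (pN n) (pK n m) (pr n m) - t)) *
      ((dI (pN n) (pK n m) (pr n m)).choose a : ℤ) *
        ((eI (pN n) (pK n m) (pr n m)).choose t : ℤ) *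
          (tr (SI (pN n) (pK n m) (pr n m) (fw ψ (pN n) (pr n m)) a t) : ℤ)

end Inst

open LibComplexity

/-- value of a binary word, least significant bit first -/
def binVal : List Bool → ℕ
  | [] => 0
  | b :: w => b.toNat + 2 * binVal w

/-- a rational number in binary: sign (`true` is negative), numerator, denominator -/
abbrev Coord := Bool × List Bool × List Bool

/-- its value -/
noncomputable def coordVal (c : Coord) : ℝ :=
  (if c.1 then -1 else 1) * (binVal c.2.1 : ℝ) / (binVal c.2.2 : ℝ)

open Classical in
/-- the point set given by a list of pairs of rational coordinates -/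
noncomputable def ptSet (l : List (Coord × Coord)) : Finset Pt :=
  (l.map fun p => ((coordVal p.1, coordVal p.2) : Pt)).toFinset

/-- the oracle for `tr`: the queries are a point set and a number `i`, the answer is the bit `i` of
the number of triangulations -/
def trOracle : Set (List Bool) :=
  {w | ∃ (l : List (Coord × Coord)) (i : ℕ), w = word (l, i) ∧ (tr (ptSet l)).testBit i = true}

end Pool.Agent.TRI
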