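import Pool.Agent.TRI.T_Idx
import Pool.Agent.TRI.F_Defs

/-!
The functions of the windows are computable in polynomial time.
-/

namespace Pool.Agent.TRI

namespace Bin

open Pool.Agent.LibComplexity Function

variable {𝒜 : Set Orc} {α β γ τ : Type} [Enc α] [Enc β] [Enc γ] [Enc τ]

theorem PTf_bxor {f g : Orc → α → Bool} (hf : PTf 𝒜 f) (hg : PTf 𝒜 g) :
    PTf 𝒜 (fun A x => (f A x ^^ g A x)) :=
  (hf.ite hg.bnot hg).congr fun A _ x => by cases f A x <;> simp

variable {N K r w k j i n m c v : Orc → α → ℕ} {b : Orc → α → Bool} {ψ : Orc → α → Cnf}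
  {cl : Orc → α → List (Bool × ℕ)}

theorem PTf_xb (hk : PTf 𝒜 k) (hc : PTf 𝒜 c) :
    PTf 𝒜 (fun A x => Inst.xb (k A x) (c A x)) := by
  unfold Inst.xb
  apply PTf_bxor
  · exact (hc.decide_eq (PTf.const 1)).decide_or (hc.decide_eq (PTf.const 2))
  · exact (PTf_mod hk (PTf.const 2)).decide_eq (PTf.const 1)

theorem PTf_sb (hc : PTf 𝒜 c) : PTf 𝒜 (fun A x => Inst.sb (c A x)) :=
  (PTf.const 2).decide_le hc

theorem PTf_litIn (hcl : PTf 𝒜 cl) (hv : PTf 𝒜 v) (hb : PTf 𝒜 b) :
    PTf 𝒜 (fun A x => Inst.litIn (cl A x) (v A x) (b A x)) := by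
  unfold Inst.litIn
  have hv' : PTf 𝒜 (fun A (p : α × (Bool × ℕ)) => v A p.1) := hv.comp PTf.id.fst
  have hb' : PTf 𝒜 (fun A (p : α × (Bool × ℕ)) => b A p.1) := hb.comp PTf.id.fst
  exact PTf.any (p := fun A x (l : Bool × ℕ) => l.2 == v A x && l.1 == b A x) hcl
    ((PTf.id.snd.snd.beq hv').band (PTf.id.snd.fst.beq hb'))

theorem PTf_outb (hψ : PTf 𝒜 ψ) (hk : PTf 𝒜 k) (hi : PTf 𝒜 i) (hc : PTf 𝒜 c) :
    PTf 𝒜 (fun A x => Inst.outb (ψ A x) (k A x) (i A x) (c A x)) := by
  unfold Inst.outb
  have h1 : PTf 𝒜 (fun A x => (ψ A x).2[k A x - i A x]?) :=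
    PTf.getElem? hψ.snd (hk.sub hi)
  have h2 : PTf 𝒜 (fun A (p : α × List (Bool × ℕ)) => Inst.litIn p.2 (i A p.1 - 2)
      (Inst.xb (k A p.1) (c A p.1))) := by
    apply PTf_litIn PTf.id.snd ((hi.comp PTf.id.fst).sub (PTf.const 2))
    exact PTf_xb (hk.comp PTf.id.fst) (hc.comp PTf.id.fst)
  have h3 := PTf_opt h1 (f := fun A x => false) (PTf.const _) h2
  have h4 := (PTf_sb hc).bor ((hi.decide_le hk).band h3)
  refine h4.congr fun A _ x => ?_
  rcases h : (ψ A x).2[k A x - i A x]? with _ | cl <;> rfl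

theorem PTf_funL (hψ : PTf 𝒜 ψ) (hr : PTf 𝒜 r) (hk : PTf 𝒜 k) (hj : PTf 𝒜 j)
    (hc : PTf 𝒜 c) :
    PTf 𝒜 (fun A x => Inst.funL (ψ A x) (r A x) (k A x) (j A x) (c A x)) := by
  have h1 := hψ.fst
  have h2 := PTf.length hψ.snd
  unfold Inst.funL
  dsimp only
  repeat' first
    | with_reducible assumption
    | with_reducible exact PTf.id
    | with_reducible exact PTf.const _
    | with_reducible apply PTf_outb
    | with_reducible apply PTf_litIn
    | with_reducible apply PTf_sb
    | with_reducible apply PTf_xb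
    | with_reducible apply PTf_fj
    | with_reducible apply PTf_fk
    | with_reducible apply PTf_isLeft
    | with_reducible apply PTf_isH
    | with_reducible apply PTf_iR
    | with_reducible apply PTf_iL
    | with_reducible apply PTf_mod
    | with_reducible apply PTf_div
    | with_reducible apply PTf.snd
    | with_reducible apply PTf.fst
    | with_reducible apply PTf.ite
    | with_reducible apply PTf.ifP
    | with_reducible apply PTf.decide_eq_true'
    | with_reducible apply PTf.decide_eq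
    | with_reducible apply PTf.decide_lt
    | with_reducible apply PTf.decide_le
    | with_reducible apply PTf.decide_not
    | with_reducible apply PTf.decide_or
    | with_reducible apply PTf.decide_and
    | with_reducible apply PTf.beq
    | with_reducible apply PTf.bor
    | with_reducible apply PTf.band
    | with_reducible apply PTf.bnot
    | with_reducible apply PTf.add
    | with_reducible apply PTf.sub

theorem PTf_funR (hψ : PTf 𝒜 ψ) (hr : PTf 𝒜 r) (hk : PTf 𝒜 k) (hj : PTf 𝒜 j)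
    (hc : PTf 𝒜 c) :
    PTf 𝒜 (fun A x => Inst.funR (ψ A x) (r A x) (k A x) (j A x) (c A x)) := by
  have h1 := hψ.fst
  unfold Inst.funR
  dsimp only
  repeat' first
    | with_reducible assumption
    | with_reducible exact PTf.id
    | with_reducible exact PTf.const _
    | with_reducible apply PTf_outb
    | with_reducible apply PTf_litIn
    | with_reducible apply PTf_sb
    | with_reducible apply PTf_xb
    | with_reducible apply PTf_fj
    | with_reducible apply PTf_fk
    | with_reducible apply PTf_isLeft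
    | with_reducible apply PTf_isH
    | with_reducible apply PTf_iR
    | with_reducible apply PTf_iL
    | with_reducible apply PTf_mod
    | with_reducible apply PTf_div
    | with_reducible apply PTf.snd
    | with_reducible apply PTf.fst
    | with_reducible apply PTf.ite
    | with_reducible apply PTf.ifP
    | with_reducible apply PTf.decide_eq_true'
    | with_reducible apply PTf.decide_eq
    | with_reducible apply PTf.decide_lt
    | with_reducible apply PTf.decide_le
    | with_reducible apply PTf.decide_not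
    | with_reducible apply PTf.decide_or
    | with_reducible apply PTf.decide_and
    | with_reducible apply PTf.beq
    | with_reducible apply PTf.bor
    | with_reducible apply PTf.band
    | with_reducible apply PTf.bnot
    | with_reducible apply PTf.add

theorem PTf_fw (hψ : PTf 𝒜 ψ) (hN : PTf 𝒜 N) (hr : PTf 𝒜 r) (hw : PTf 𝒜 w)
    (hc : PTf 𝒜 c) :
    PTf 𝒜 (fun A x => Inst.fw (ψ A x) (N A x) (r A x) (w A x) (c A x)) := by
  unfold Inst.fw
  exact (PTf_isLeft hN hr hw).ite
    (PTf_funL hψ hr (PTf_fk hN hr hw) (PTf_fj hN hr hw) hc)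
    (PTf_funR hψ hr (PTf_fk hN hr hw) (PTf_fj hN hr hw) hc)

/-- the form needed in `PLf_SI` -/
theorem PTf_fw3 (hψ : PTf 𝒜 ψ) (hN : PTf 𝒜 N) (hr : PTf 𝒜 r) :
    PTf 𝒜 (fun A (p : α × ℕ × ℕ) => Inst.fw (ψ A p.1) (N A p.1) (r A p.1) p.2.1 p.2.2) :=
  PTf_fw (hψ.comp PTf.id.fst) (hN.comp PTf.id.fst) (hr.comp PTf.id.fst) PTf.id.snd.fst
    PTf.id.snd.snd

theorem PTf_pN (hn : PTf 𝒜 n) : PTf 𝒜 (fun A x => Inst.pN (n A x)) :=
  hn.add (PTf.const 2)

theorem PTf_pK (hn : PTf 𝒜 n) (hm : PTf 𝒜 m) : PTf 𝒜 (fun A x => Inst.pK (n A x) (m A x)) :=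
  (PTf.const 2).mul ((hm.add hn).add (PTf.const 1))

theorem PTf_pr (hn : PTf 𝒜 n) (hm : PTf 𝒜 m) : PTf 𝒜 (fun A x => Inst.pr (n A x) (m A x)) :=
  ((PTf.const 400).mul (PTf_pN hn)).mul (PTf_pK hn hm)

end Bin

end Pool.Agent.TRI
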