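import Pool.Agent.TRI.G_Defs

/-!
The number of triangulations as the number of satisfying assignments of a CNF formula.
-/

namespace Pool.Agent.TRI

namespace Conv

open Finset

/-! ### removing repetitions -/

theorem dedup_cons (p : CP) (l : List CP) : dedup (p :: l) =
    if ∃ q ∈ dedup l, cpt p = cpt q then dedup l else p :: dedup l := by
  classical
  unfold dedup
  rw [List.foldr_cons]
  simp only [List.any_eq_true, decide_eq_true_eq]

theorem mem_map_dedup (l : List CP) (x : Pt) :
    x ∈ (dedup l).map cpt ↔ x ∈ l.map cpt := by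
  classical
  induction l with
  | nil => simp [dedup]
  | cons p l ih =>
    rw [dedup_cons]
    split_ifs with h
    · rw [ih, List.map_cons, List.mem_cons]
      constructor
      · exact Or.inr
      · rintro (rfl | h')
        · obtain ⟨q, hq, he⟩ := h
          rw [← ih, he]
          exact List.mem_map_of_mem hq
        · exact h'
    · rw [List.map_cons, List.mem_cons, List.map_cons, List.mem_cons, ih]

theorem nodup_dedup (l : List CP) : ((dedup l).map cpt).Nodup := by
  classical
  induction l with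
  | nil => simp [dedup]
  | cons p l ih =>
    rw [dedup_cons]
    split_ifs with h
    · exact ih
    · rw [List.map_cons, List.nodup_cons]
      refine ⟨?_, ih⟩
      intro hp
      obtain ⟨q, hq, he⟩ := List.mem_map.1 hp
      exact h ⟨q, hq, he.symm⟩

theorem ptSet_eq (l : List CP) (x : Pt) : x ∈ ptSet l ↔ x ∈ (dedup l).map cpt := by
  classical
  rw [mem_map_dedup]
  unfold ptSet
  rw [List.mem_toFinset]
  rfl

/-! ### points of a list -/

theorem pnt_eq {L : List CP} {i : ℕ} (hi : i < L.length) : pnt L i = cpt L[i] := by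
  unfold pnt
  rw [List.getD_eq_getElem _ _ hi]

theorem mem_map_iff {L : List CP} {x : Pt} : x ∈ L.map cpt ↔ ∃ i < L.length, pnt L i = x := by
  constructor
  · intro h
    obtain ⟨q, hq, rfl⟩ := List.mem_map.1 h
    obtain ⟨i, hi, rfl⟩ := List.getElem_of_mem hq
    exact ⟨i, hi, pnt_eq hi⟩
  · rintro ⟨i, hi, rfl⟩
    rw [pnt_eq hi]
    exact List.mem_map_of_mem (List.getElem_mem hi)

theorem pnt_inj {L : List CP} (hL : (L.map cpt).Nodup) {i j : ℕ} (hi : i < L.length)
    (hj : j < L.length) (h : pnt L i = pnt L j) : i = j := by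
  rw [pnt_eq hi, pnt_eq hj] at h
  have := (List.nodup_iff_injective_getElem.1 hL)
  have h2 := @this ⟨i, by simpa using hi⟩ ⟨j, by simpa using hj⟩ (by simpa using h)
  simpa using h2

/-! ### between -/

theorem Btw_iff {p q x : Pt} (hpq : p ≠ q) : Btw p q x ↔ x ∈ openSegment ℝ p q := by
  have hd : 0 < (q.1 - p.1) ^ 2 + (q.2 - p.2) ^ 2 := by
    by_contra hcon
    push Not at hcon
    apply hpq
    have h1 : (q.1 - p.1) ^ 2 = 0 := by nlinarith [sq_nonneg (q.1 - p.1), sq_nonneg (q.2 - p.2)]
    have h2 : (q.2 - p.2) ^ 2 = 0 := by nlinarith [sq_nonneg (q.1 - p.1), sq_nonneg (q.2 - p.2)]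
    have h3 : q.1 - p.1 = 0 := by simpa using h1
    have h4 : q.2 - p.2 = 0 := by simpa using h2
    ext <;> linarith
  constructor
  · rintro ⟨hdet, hpos⟩
    set N : ℝ := (q.1 - p.1) ^ 2 + (q.2 - p.2) ^ 2 with hN
    set t : ℝ := ((x.1 - p.1) * (q.1 - p.1) + (x.2 - p.2) * (q.2 - p.2)) / N with ht
    have hdet' : (q.1 - p.1) * (x.2 - p.2) = (q.2 - p.2) * (x.1 - p.1) := by
      unfold det at hdet; linarith
    have htN : t * N = (x.1 - p.1) * (q.1 - p.1) + (x.2 - p.2) * (q.2 - p.2) := by
      rw [ht]; field_simp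
    have hx : x.1 - p.1 = t * (q.1 - p.1) := by
      have : (x.1 - p.1 - t * (q.1 - p.1)) * N = 0 := by
        have e : (x.1 - p.1) * N = (q.1 - p.1) * ((x.1 - p.1) * (q.1 - p.1) +
            (x.2 - p.2) * (q.2 - p.2)) := by
          rw [hN]
          linear_combination (-(q.2 - p.2)) * hdet'
        rw [sub_mul, e, ← htN]; ring
      rcases mul_eq_zero.1 this with h | h
      · linarith
      · exact absurd h hd.ne'
    have hy : x.2 - p.2 = t * (q.2 - p.2) := by
      have : (x.2 - p.2 - t * (q.2 - p.2)) * N = 0 := by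
        have e : (x.2 - p.2) * N = (q.2 - p.2) * ((x.1 - p.1) * (q.1 - p.1) +
            (x.2 - p.2) * (q.2 - p.2)) := by
          rw [hN]
          linear_combination (q.1 - p.1) * hdet'
        rw [sub_mul, e, ← htN]; ring
      rcases mul_eq_zero.1 this with h | h
      · linarith
      · exact absurd h hd.ne'
    have hprod : (x.1 - p.1) * (q.1 - x.1) + (x.2 - p.2) * (q.2 - x.2) = t * (1 - t) * N := by
      have e1 : q.1 - x.1 = (1 - t) * (q.1 - p.1) := by linarith
      have e2 : q.2 - x.2 = (1 - t) * (q.2 - p.2) := by linarith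
      rw [hx, hy, e1, e2, hN]; ring
    rw [hprod] at hpos
    have htt : 0 < t * (1 - t) := by
      by_contra hcon
      push Not at hcon
      nlinarith
    have ht0 : 0 < t := by
      by_contra hcon
      push Not at hcon
      nlinarith
    have ht1 : t < 1 := by
      by_contra hcon
      push Not at hcon
      nlinarith
    rw [mem_openSegment_iff]
    exact ⟨t, ht0, ht1, by linarith, by linarith⟩
  · intro h
    refine ⟨det_of_mem h, ?_⟩
    obtain ⟨t, h0, h1, hx, hy⟩ := mem_openSegment_iff.1 h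
    have e : (x.1 - p.1) * (q.1 - x.1) + (x.2 - p.2) * (q.2 - x.2) =
        (t * (1 - t)) * ((q.1 - p.1) ^ 2 + (q.2 - p.2) ^ 2) := by
      rw [hx, hy]; ring
    rw [e]
    exact mul_pos (mul_pos h0 (by linarith)) hd

/-! ### admissible segments -/

theorem mem_adm {L : List CP} {e : ℕ × ℕ} : e ∈ adm L ↔ e.1 < L.length ∧ e.2 < e.1 ∧
    ∀ x ∈ L, ¬ Btw (pnt L e.1) (pnt L e.2) (cpt x) := by
  classical
  unfold adm
  simp only [List.mem_flatMap, List.mem_range, List.all_eq_true, decide_eq_true_eq]
  constructor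
  · rintro ⟨i, hi, j, hj, h⟩
    split_ifs at h with hc
    · rw [List.mem_singleton] at h
      subst h
      exact ⟨hi, hj, hc⟩
    · simp at h
  · rintro ⟨h1, h2, h3⟩
    refine ⟨e.1, h1, e.2, h2, ?_⟩
    rw [if_pos h3]
    simp

theorem nodup_adm (L : List CP) : (adm L).Nodup := by
  classical
  unfold adm
  rw [List.nodup_flatMap]
  refine ⟨?_, ?_⟩
  · intro i _
    rw [List.nodup_flatMap]
    refine ⟨?_, ?_⟩
    · intro j _
      split_ifs
      · simp
      · simp
    · refine List.Pairwise.imp ?_ (List.nodup_range)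
      intro j j' hne
      simp only [Function.onFun]
      intro x hx hx'
      split_ifs at hx hx'
      · rw [List.mem_singleton] at hx hx'
        rw [hx] at hx'
        exact hne (Prod.mk.inj hx').2
      all_goals simp at hx hx'
  · refine List.Pairwise.imp ?_ (List.nodup_range)
    intro i i' hne
    simp only [Function.onFun]
    intro x hx hx'
    rw [List.mem_flatMap] at hx hx'
    obtain ⟨j, _, hx⟩ := hx
    obtain ⟨j', _, hx'⟩ := hx'
    split_ifs at hx hx'
    · rw [List.mem_singleton] at hx hx'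
      rw [hx] at hx'
      exact hne (Prod.mk.inj hx').1
    all_goals simp at hx hx'

/-- the segment number `v` -/
noncomputable def en (L : List CP) (E : List (ℕ × ℕ)) (v : ℕ) : Sym2 Pt :=
  s(pnt L (E.getD v (0, 0)).1, pnt L (E.getD v (0, 0)).2)

theorem getD_mem {L : List CP} {v : ℕ} (hv : v < (adm L).length) :
    (adm L).getD v (0, 0) ∈ adm L := by
  rw [List.getD_eq_getElem _ _ hv]
  exact List.getElem_mem hv

section

variable {L : List CP} (hL : (L.map cpt).Nodup) {S : Finset Pt} (hS : ∀ x, x ∈ S ↔ x ∈ L.map cpt)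

include hL hS

theorem isSeg_pnt {i j : ℕ} (hi : i < L.length) (hj : j < L.length) (hij : i ≠ j) :
    IsSeg S s(pnt L i, pnt L j) ↔ ∀ x ∈ L, ¬ Btw (pnt L i) (pnt L j) (cpt x) := by
  have hne : pnt L i ≠ pnt L j := fun h => hij (pnt_inj hL hi hj h)
  rw [isSeg_mk]
  constructor
  · rintro ⟨_, _, _, h⟩ x hx
    rw [Btw_iff hne]
    exact h _ ((hS _).2 (List.mem_map_of_mem hx))
  · intro h
    refine ⟨hne, (hS _).2 (mem_map_iff.2 ⟨i, hi, rfl⟩), (hS _).2 (mem_map_iff.2 ⟨j, hj, rfl⟩), ?_⟩
    intro x hx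
    obtain ⟨q, hq, rfl⟩ := List.mem_map.1 ((hS _).1 hx)
    rw [← Btw_iff hne]
    exact h q hq

theorem isSeg_en {v : ℕ} (hv : v < (adm L).length) : IsSeg S (en L (adm L) v) := by
  have h := mem_adm.1 (getD_mem hv)
  unfold en
  rw [isSeg_pnt hL hS h.1 (h.2.1.trans h.1) h.2.1.ne']
  exact h.2.2

omit hS in
theorem en_inj {v w : ℕ} (hv : v < (adm L).length) (hw : w < (adm L).length)
    (h : en L (adm L) v = en L (adm L) w) : v = w := by
  have h1 := mem_adm.1 (getD_mem hv)
  have h2 := mem_adm.1 (getD_mem hw)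
  have h3 : (adm L).getD v (0, 0) = (adm L).getD w (0, 0) := by
    unfold en at h
    rcases Sym2.eq_iff.1 h with ⟨ha, hb⟩ | ⟨ha, hb⟩
    · have e1 := pnt_inj hL h1.1 h2.1 ha
      have e2 := pnt_inj hL (h1.2.1.trans h1.1) (h2.2.1.trans h2.1) hb
      exact Prod.ext e1 e2
    · have e1 := pnt_inj hL h1.1 (h2.2.1.trans h2.1) ha
      have e2 := pnt_inj hL (h1.2.1.trans h1.1) h2.1 hb
      have h4 := h1.2.1
      have h5 := h2.2.1
      omega
  rw [List.getD_eq_getElem _ _ hv, List.getD_eq_getElem _ _ hw] at h3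
  have := List.nodup_iff_injective_getElem.1 (nodup_adm L)
  have h6 := @this ⟨v, hv⟩ ⟨w, hw⟩ h3
  simpa using h6

theorem en_surj {e : Sym2 Pt} (he : IsSeg S e) : ∃ v < (adm L).length, en L (adm L) v = e := by
  induction e using Sym2.ind with
  | _ p q =>
  obtain ⟨hne, hp, hq, -⟩ := isSeg_mk.1 he
  obtain ⟨i, hi, rfl⟩ := mem_map_iff.1 ((hS _).1 hp)
  obtain ⟨j, hj, rfl⟩ := mem_map_iff.1 ((hS _).1 hq)
  have hij : i ≠ j := by rintro rfl; exact hne rfl
  rcases lt_or_gt_of_ne hij with hlt | hlt
  · have hm : (j, i) ∈ adm L := by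
      rw [mem_adm]
      refine ⟨hj, hlt, ?_⟩
      rw [Sym2.eq_swap] at he
      exact (isSeg_pnt hL hS hj hi hij.symm).1 he
    obtain ⟨v, hv, hve⟩ := List.getElem_of_mem hm
    refine ⟨v, hv, ?_⟩
    unfold en
    rw [List.getD_eq_getElem _ _ hv, hve]
    exact Sym2.eq_swap
  · have hm : (i, j) ∈ adm L := by
      rw [mem_adm]
      exact ⟨hi, hlt, (isSeg_pnt hL hS hi hj hij).1 he⟩
    obtain ⟨v, hv, hve⟩ := List.getElem_of_mem hm
    refine ⟨v, hv, ?_⟩
    unfold en
    rw [List.getD_eq_getElem _ _ hv, hve]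

theorem crsB_iff {v w : ℕ} (hv : v < (adm L).length) (hw : w < (adm L).length) (hvw : v ≠ w) :
    crsB L (adm L) v w = true ↔
      ¬ Disjoint (seg (en L (adm L) v)) (seg (en L (adm L) w)) := by
  classical
  have hne : en L (adm L) v ≠ en L (adm L) w := fun h => hvw (en_inj hL hv hw h)
  unfold crsB
  rw [decide_eq_true_eq]
  have h1 := isSeg_en hL hS hv
  have h2 := isSeg_en hL hS hw
  unfold en at h1 h2 hne ⊢
  rw [cross_iff h1 h2 hne]
  exact Iff.rfl

end

theorem crsB_self (L : List CP) (E : List (ℕ × ℕ)) (v : ℕ) : crsB L E v v = false := by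
  classical
  unfold crsB
  rw [decide_eq_false_iff_not]
  rintro ⟨h, _⟩
  simp at h

/-! ### satisfaction -/

/-- value of the variable `v` -/
def ex {n : ℕ} (a : Fin n → Bool) (v : ℕ) : Bool := if h : v < n then a ⟨v, h⟩ else false

theorem clauseSat_iff {n : ℕ} (a : Fin n → Bool) (c : List (Bool × ℕ)) :
    clauseSat a c = true ↔ ∃ l ∈ c, l.2 < n ∧ ex a l.2 = l.1 := by
  unfold clauseSat
  rw [List.any_eq_true]
  constructor
  · rintro ⟨l, hl, h⟩
    refine ⟨l, hl, ?_⟩
    by_cases hn : l.2 < n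
    · rw [dif_pos hn] at h
      refine ⟨hn, ?_⟩
      unfold ex
      rw [dif_pos hn]
      simpa using h
    · rw [dif_neg hn] at h
      exact absurd h (by simp)
  · rintro ⟨l, hl, hn, h⟩
    refine ⟨l, hl, ?_⟩
    rw [dif_pos hn]
    unfold ex at h
    rw [dif_pos hn] at h
    simpa using h

theorem all_clauses (L : List CP) (E : List (ℕ × ℕ)) (a : Fin E.length → Bool) :
    (clauses L E).all (clauseSat a) = true ↔
      (∀ v < E.length, ∀ w < v, crsB L E v w = true → ¬ (ex a v = true ∧ ex a w = true)) ∧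
      ∀ v < E.length, ex a v = true ∨ ∃ w < E.length, crsB L E v w = true ∧ ex a w = true := by
  rw [List.all_eq_true]
  unfold clauses
  simp only [List.mem_append, List.mem_flatMap, List.mem_range, List.mem_map]
  constructor
  · intro h
    refine ⟨?_, ?_⟩
    · intro v hv w hw hc hh
      have h1 := h [(false, v), (false, w)] (Or.inl ⟨v, hv, w, hw, by rw [if_pos hc]; simp⟩)
      rw [clauseSat_iff] at h1
      obtain ⟨l, hl, _, he⟩ := h1
      simp only [List.mem_cons, List.not_mem_nil, or_false] at hl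
      rcases hl with rfl | rfl
      · simp only at he; rw [hh.1] at he; exact absurd he (by simp)
      · simp only at he; rw [hh.2] at he; exact absurd he (by simp)
    · intro v hv
      have h1 := h _ (Or.inr ⟨v, hv, rfl⟩)
      rw [clauseSat_iff] at h1
      obtain ⟨l, hl, hn, he⟩ := h1
      rw [List.mem_cons] at hl
      rcases hl with rfl | hl
      · exact Or.inl he
      · obtain ⟨w, hw, rfl⟩ := List.mem_map.1 hl
        rw [List.mem_filter, List.mem_range] at hw
        exact Or.inr ⟨w, hw.1, hw.2, he⟩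
  · rintro ⟨h1, h2⟩ c hc
    rw [clauseSat_iff]
    rcases hc with ⟨v, hv, w, hw, hc⟩ | ⟨v, hv, rfl⟩
    · split_ifs at hc with hcr
      · rw [List.mem_singleton] at hc
        subst hc
        have h3 := h1 v hv w hw hcr
        by_cases ha : ex a v = true
        · refine ⟨(false, w), by simp, hw.trans hv, ?_⟩
          have : ¬ ex a w = true := fun hb => h3 ⟨ha, hb⟩
          simpa using this
        · exact ⟨(false, v), by simp, hv, by simpa using ha⟩
      · simp at hc
    · rcases h2 v hv with h3 | ⟨w, hw, hcw, h3⟩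
      · exact ⟨(true, v), by simp, hv, h3⟩
      · refine ⟨(true, w), ?_, hw, h3⟩
        rw [List.mem_cons]
        refine Or.inr (List.mem_map.2 ⟨w, ?_, rfl⟩)
        rw [List.mem_filter, List.mem_range]
        exact ⟨hw, hcw⟩

open Classical in
/-- the set of segments of an assignment -/
noncomputable def segsOf (L : List CP) (E : List (ℕ × ℕ)) (a : Fin E.length → Bool) :
    Finset (Sym2 Pt) :=
  (univ.filter fun v : Fin E.length => a v = true).image fun v : Fin E.length => en L E (v : ℕ)

theorem mem_segsOf {L : List CP} {E : List (ℕ × ℕ)} {a : Fin E.length → Bool} {e : Sym2 Pt} :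
    e ∈ segsOf L E a ↔ ∃ v < E.length, ex a v = true ∧ en L E v = e := by
  classical
  unfold segsOf
  rw [mem_image]
  constructor
  · rintro ⟨v, hv, rfl⟩
    refine ⟨v, v.2, ?_, rfl⟩
    unfold ex
    rw [dif_pos v.2]
    exact (mem_filter.1 hv).2
  · rintro ⟨v, hv, ha, rfl⟩
    refine ⟨⟨v, hv⟩, ?_, rfl⟩
    rw [mem_filter]
    refine ⟨mem_univ _, ?_⟩
    unfold ex at ha
    rw [dif_pos hv] at ha
    exact ha

theorem sat_iff {L : List CP} (hL : (L.map cpt).Nodup) {S : Finset Pt}
    (hS : ∀ x, x ∈ S ↔ x ∈ L.map cpt) (a : Fin (adm L).length → Bool) :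
    (clauses L (adm L)).all (clauseSat a) = true ↔ IsTri S (segsOf L (adm L) a) := by
  rw [all_clauses, isTri_iff]
  constructor
  · rintro ⟨h1, h2⟩
    refine ⟨⟨?_, ?_⟩, ?_⟩
    · intro e he
      obtain ⟨v, hv, _, rfl⟩ := mem_segsOf.1 he
      exact isSeg_en hL hS hv
    · intro e he f hf hne
      obtain ⟨v, hv, hav, rfl⟩ := mem_segsOf.1 he
      obtain ⟨w, hw, haw, rfl⟩ := mem_segsOf.1 hf
      have hvw : v ≠ w := by rintro rfl; exact hne rfl
      by_contra hd
      rcases lt_or_gt_of_ne hvw with hlt | hlt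
      · rw [disjoint_comm] at hd
        exact h1 w hw v hlt ((crsB_iff hL hS hw hv hvw.symm).2 hd) ⟨haw, hav⟩
      · exact h1 v hv w hlt ((crsB_iff hL hS hv hw hvw).2 hd) ⟨hav, haw⟩
    · intro e he hd
      obtain ⟨v, hv, rfl⟩ := en_surj hL hS he
      rcases h2 v hv with h3 | ⟨w, hw, hc, h3⟩
      · exact mem_segsOf.2 ⟨v, hv, h3, rfl⟩
      · exfalso
        have hvw : v ≠ w := by
          rintro rfl
          rw [crsB_self] at hc
          exact absurd hc (by simp)
        refine (crsB_iff hL hS hv hw hvw).1 hc (hd _ (mem_segsOf.2 ⟨w, hw, h3, rfl⟩) ?_)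
        exact fun h => hvw (en_inj hL hv hw h)
  · rintro ⟨⟨_, h1⟩, h2⟩
    refine ⟨?_, ?_⟩
    · rintro v hv w hw hc ⟨hav, haw⟩
      have hwl := hw.trans hv
      refine (crsB_iff hL hS hv hwl hw.ne').1 hc (h1 _ (mem_segsOf.2 ⟨v, hv, hav, rfl⟩) _
        (mem_segsOf.2 ⟨w, hwl, haw, rfl⟩) ?_)
      exact fun h => hw.ne' (en_inj hL hv hwl h)
    · intro v hv
      by_contra hcon
      push Not at hcon
      obtain ⟨hav, hall⟩ := hcon
      have hm : en L (adm L) v ∈ segsOf L (adm L) a := by
        refine h2 _ (isSeg_en hL hS hv) ?_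
        intro f hf hne
        obtain ⟨w, hw, haw, rfl⟩ := mem_segsOf.1 hf
        have hvw : v ≠ w := by rintro rfl; exact hne rfl
        by_contra hd
        exact hall w hw ((crsB_iff hL hS hv hw hvw).2 hd) haw
      obtain ⟨w, hw, haw, he⟩ := mem_segsOf.1 hm
      have := en_inj hL hw hv he
      rw [this] at haw
      exact hav haw

theorem sharpSat_psi (l : List CP) : sharpSat (psi l) = tr (ptSet l) := by
  classical
  have hL := nodup_dedup l
  have hS : ∀ x, x ∈ ptSet l ↔ x ∈ (dedup l).map cpt := ptSet_eq l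
  unfold sharpSat tr
  refine card_bij (fun (a : Fin (adm (dedup l)).length → Bool) _ =>
    segsOf (dedup l) (adm (dedup l)) a) ?_ ?_ ?_
  · intro a ha
    rw [mem_tris, ← sat_iff hL hS]
    exact (mem_filter.1 ha).2
  · intro a _ b _ h
    have key : ∀ c d : Fin (adm (dedup l)).length → Bool,
        segsOf (dedup l) (adm (dedup l)) c = segsOf (dedup l) (adm (dedup l)) d →
        ∀ v, c v = true → d v = true := by
      intro c d hcd v hv
      have h1 : en (dedup l) (adm (dedup l)) v ∈ segsOf (dedup l) (adm (dedup l)) c := by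
        refine mem_segsOf.2 ⟨v, v.2, ?_, rfl⟩
        unfold ex
        rw [dif_pos v.2]
        exact hv
      rw [hcd] at h1
      obtain ⟨w, hw, hdw, he⟩ := mem_segsOf.1 h1
      have h2 := en_inj hL hw v.2 he
      subst h2
      unfold ex at hdw
      rw [dif_pos v.2] at hdw
      exact hdw
    funext v
    rw [Bool.eq_iff_iff]
    exact ⟨key a b h v, key b a h.symm v⟩
  · intro T hT
    rw [mem_tris] at hT
    have hTe : segsOf (dedup l) (adm (dedup l))
        (fun v => decide (en (dedup l) (adm (dedup l)) v ∈ T)) = T := by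
      ext e
      rw [mem_segsOf]
      constructor
      · rintro ⟨v, hv, hd, rfl⟩
        unfold ex at hd
        rw [dif_pos hv] at hd
        simpa using hd
      · intro he
        obtain ⟨v, hv, rfl⟩ := en_surj hL hS (hT.1.1 e he)
        refine ⟨v, hv, ?_, rfl⟩
        unfold ex
        rw [dif_pos hv]
        simpa using he
    refine ⟨fun v => decide (en (dedup l) (adm (dedup l)) v ∈ T), ?_, hTe⟩
    rw [mem_filter]
    refine ⟨mem_univ _, ?_⟩
    have h3 := (sat_iff hL hS (fun v => decide (en (dedup l) (adm (dedup l)) v ∈ T))).2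
      (by rw [hTe]; exact hT)
    exact h3

end Conv

end Pool.Agent.TRI
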