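import Pool.Agent.TRI.G_PTf
import Pool.Agent.TRI.G_Math
import Pool.Agent.LibComplexity.Decode

/-!
If #SAT is computable in polynomial time (with an oracle), then so is the number of triangulations.
-/

namespace Pool.Agent.TRI

namespace Conv

open Pool.Agent.LibComplexity Function Bin

/-- `tr` of a list of points with rational coordinates is computable in polynomial time with the
oracle `B` -/
def TrInFP (B : Set (List Bool)) : Prop :=
  ∃ f : List Bool → List Bool, InFP B f ∧
    ∀ l : List (Coord × Coord), f (word l) = word (Nat.bits (tr (ptSet l)))

/-- #SAT is computable in polynomial time with the oracle `B` -/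
def SharpSatInFP (B : Set (List Bool)) : Prop :=
  ∃ f : List Bool → List Bool, InFP B f ∧
    ∀ φ : Cnf, f (word φ) = word (Nat.bits (sharpSat φ))

theorem trInFP_of_sharpSatInFP {B : Set (List Bool)} (h : SharpSatInFP B) : TrInFP B := by
  obtain ⟨g, hg, hg'⟩ := h
  refine ⟨fun w => g (word (psi (read (List CP) w))), ?_, fun l => ?_⟩
  · rw [inFP_iff]
    exact PTf.applyFP hg (PTf.word (ptf_psi (PTf.read PTf.id)))
  · have h1 : read (List CP) (word l) = l := by
      have := read_word (α := List CP) l []
      rwa [List.append_nil] at this
    simp only
    rw [h1, hg', sharpSat_psi]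

end Conv

end Pool.Agent.TRI
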