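import Pool.Agent.TRI.T_Pos

/-!
The point sets of the instance are computable in polynomial time.
-/

namespace Pool.Agent.TRI

namespace Bin

open Pool.Agent.LibComplexity Function

variable {𝒜 : Set Orc} {α β γ τ : Type} [Enc α] [Enc β] [Enc γ] [Enc τ]
variable {N K r f k j q e : Orc → α → ℕ} {P : Orc → α → Option (ℕ × ℕ)}

/-- list of the pairs `(k, i)` with `a ≤ k < a + m`, `1 ≤ i ≤ n` -/
def prL (a m n : ℕ) : List (Option (ℕ × ℕ)) :=
  (List.range m).flatMap fun k => (List.range n).map fun i => some (a + k, i + 1)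

theorem mem_prL {a m n : ℕ} {P : Option (ℕ × ℕ)} :
    P ∈ prL a m n ↔ ∃ k i, P = some (k, i) ∧ a ≤ k ∧ k < a + m ∧ 1 ≤ i ∧ i ≤ n := by
  unfold prL
  simp only [List.mem_flatMap, List.mem_range, List.mem_map]
  constructor
  · rintro ⟨k, hk, i, hi, rfl⟩
    exact ⟨a + k, i + 1, rfl, by omega, by omega, by omega, by omega⟩
  · rintro ⟨k, i, rfl, h1, h2, h3, h4⟩
    refine ⟨k - a, by omega, i - 1, by omega, ?_⟩
    have e1 : a + (k - a) = k := by omega
    have e2 : i - 1 + 1 = i := by omega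
    rw [e1, e2]

theorem PTf_prL {a : ℕ} {m n : Orc → α → ℕ} (hm : PTf 𝒜 m) (hn : PTf 𝒜 n) :
    PTf 𝒜 (fun A x => prL a (m A x) (n A x)) := by
  unfold prL
  refine hm.range.flatMap (g := fun A x k => (List.range (n A x)).map fun i =>
    some (a + k, i + 1)) ?_
  refine (hn.comp PTf.id.fst).range.map (g := fun A (p : α × ℕ) i => some (a + p.2, i + 1)) ?_
  exact (((PTf.const a).add PTf.id.fst.snd).pair PTf.id.snd.succ).some

theorem mem_nodesU {N K r : ℕ} {P : Option (ℕ × ℕ)} :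
    P ∈ (Inst.KU N K r).nodes.erase (Inst.KU N K r).rt ↔ P ∈ prL 1 K N := by
  rw [mem_prL]
  unfold Inst.KU
  simp only [Finset.mem_erase, Finset.mem_insert, Finset.mem_image, Finset.mem_product,
    Finset.mem_Icc]
  constructor
  · rintro ⟨h1, h2 | ⟨⟨k, i⟩, h2, rfl⟩⟩
    · exact absurd h2 h1
    · simp only at h2
      exact ⟨k, i, rfl, by omega, by omega, by omega, by omega⟩
  · rintro ⟨k, i, rfl, h1, h2, h3, h4⟩
    exact ⟨by simp, Or.inr ⟨(k, i), by simp only; omega, rfl⟩⟩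

theorem mem_nodesL {N K r : ℕ} {P : Option (ℕ × ℕ)} :
    P ∈ (Inst.KL N K r).nodes.erase (Inst.KL N K r).rt ↔ P ∈ prL 0 (K + 1) (Inst.R N r) := by
  rw [mem_prL]
  unfold Inst.KL
  simp only [Finset.mem_erase, Finset.mem_insert, Finset.mem_image, Finset.mem_product,
    Finset.mem_Icc, Finset.mem_range]
  constructor
  · rintro ⟨h1, h2 | ⟨⟨k, i⟩, h2, rfl⟩⟩
    · exact absurd h2 h1
    · simp only at h2
      exact ⟨k, i, rfl, by omega, by omega, by omega, by omega⟩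
  · rintro ⟨k, i, rfl, h1, h2, h3, h4⟩
    exact ⟨by simp, Or.inr ⟨(k, i), by simp only; omega, rfl⟩⟩

/-- list of the leaf gaps -/
def lfL (N K r : ℕ) : List ℕ :=
  (List.range (Inst.F N K r)).filter fun g =>
    (decide (0 < g) && decide (g < Inst.F N K r - 1)) && !decide (g ∈ Inst.win N K r)

theorem mem_lfL {N K r g : ℕ} : g ∈ lfL N K r ↔ g ∈ lf (Inst.F N K r) (Inst.win N K r) := by
  unfold lfL lf
  simp only [List.mem_filter, List.mem_range, Finset.mem_filter, Finset.mem_Ioo,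
    Bool.and_eq_true, decide_eq_true_eq, Bool.not_eq_true', decide_eq_false_iff_not]
  constructor
  · rintro ⟨h1, ⟨h2, h3⟩, h4⟩
    exact ⟨⟨h2, h3⟩, h4⟩
  · rintro ⟨⟨h2, h3⟩, h4⟩
    exact ⟨by omega, ⟨h2, h3⟩, h4⟩

theorem PTf_lfL (hN : PTf 𝒜 N) (hK : PTf 𝒜 K) (hr : PTf 𝒜 r) :
    PTf 𝒜 (fun A x => lfL (N A x) (K A x) (r A x)) := by
  unfold lfL
  have hF := PTf_F hN hK hr
  refine hF.range.filter (p := fun A x g => (decide (0 < g) &&
    decide (g < Inst.F (N A x) (K A x) (r A x) - 1)) &&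
      !decide (g ∈ Inst.win (N A x) (K A x) (r A x))) ?_
  have hN' : PTf 𝒜 (fun A (p : α × ℕ) => N A p.1) := hN.comp PTf.id.fst
  have hK' : PTf 𝒜 (fun A (p : α × ℕ) => K A p.1) := hK.comp PTf.id.fst
  have hr' : PTf 𝒜 (fun A (p : α × ℕ) => r A p.1) := hr.comp PTf.id.fst
  exact ((((PTf.const 0).decide_lt PTf.id.snd).band
    (PTf.id.snd.decide_lt ((PTf_F hN' hK' hr').sub (PTf.const 1)))).band
      (PTf_isWin hN' hK' hr' PTf.id.snd).bnot)

section side

variable (isU : Bool)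

/-- skeleton of a side -/
def KK (isU : Bool) (N K r : ℕ) : Skel (Option (ℕ × ℕ)) :=
  if isU = true then Inst.KU N K r else Inst.KL N K r

/-- a side -/
noncomputable def DD (isU : Bool) (N K r : ℕ) : Side (Nm (Option (ℕ × ℕ))) :=
  if isU = true then Inst.DU N K r else Inst.DL N K r

/-- list of the nodes different from the root -/
def ndL (isU : Bool) (N K r : ℕ) : List (Option (ℕ × ℕ)) :=
  if isU = true then prL 1 K N else prL 0 (K + 1) (Inst.R N r)

theorem mem_ndL {N K r : ℕ} {P : Option (ℕ × ℕ)} :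
    P ∈ ndL isU N K r ↔ P ∈ (KK isU N K r).nodes.erase (KK isU N K r).rt := by
  cases isU with
  | true => exact mem_nodesU.symm
  | false => exact mem_nodesL.symm

theorem KK_rt {N K r : ℕ} : (KK isU N K r).rt = none := by
  cases isU <;> rfl

theorem KK_rt_mem {N K r : ℕ} : (KK isU N K r).rt ∈ (KK isU N K r).nodes := by
  cases isU with
  | true => exact Finset.mem_insert_self _ _
  | false => exact Finset.mem_insert_self _ _

theorem DD_I {N K r : ℕ} : (DD isU N K r).I =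
    (KK isU N K r).names (Inst.F N K r) (Inst.win N K r) := by
  cases isU <;> rfl

theorem PTf_ndL (hN : PTf 𝒜 N) (hK : PTf 𝒜 K) (hr : PTf 𝒜 r) :
    PTf 𝒜 (fun A x => ndL isU (N A x) (K A x) (r A x)) := by
  cases isU with
  | true => exact PTf_prL hK hN
  | false => exact PTf_prL hK.succ (PTf_R hN hr)

theorem PTf_KKs (hN : PTf 𝒜 N) (hK : PTf 𝒜 K) (hr : PTf 𝒜 r) (hP : PTf 𝒜 P) :
    PTf 𝒜 (fun A x => (KK isU (N A x) (K A x) (r A x)).s (P A x)) := by
  cases isU with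
  | true => exact PTf_KUs hN hK hr hP
  | false => exact PTf_KLs hN hK hr hP

theorem RTf_ptD (hN : PTf 𝒜 N) (hK : PTf 𝒜 K) (hr : PTf 𝒜 r) (hP : PTf 𝒜 P) (hf : PTf 𝒜 f) :
    (RTf 𝒜 (fun A x => ((DD isU (N A x) (K A x) (r A x)).pt (.z (P A x) (f A x))).1) ∧
      RTf 𝒜 (fun A x => ((DD isU (N A x) (K A x) (r A x)).pt (.z (P A x) (f A x))).2)) ∧
    (RTf 𝒜 (fun A x => ((DD isU (N A x) (K A x) (r A x)).pt (.q (f A x))).1) ∧
      RTf 𝒜 (fun A x => ((DD isU (N A x) (K A x) (r A x)).pt (.q (f A x))).2)) ∧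
    (RTf 𝒜 (fun A x => ((DD isU (N A x) (K A x) (r A x)).pt (.cap (P A x))).1) ∧
      RTf 𝒜 (fun A x => ((DD isU (N A x) (K A x) (r A x)).pt (.cap (P A x))).2)) := by
  cases isU with
  | true => exact RTf_ptU hN hK hr hP hf
  | false => exact RTf_ptL hN hK hr hP hf

/-- mirror image of the lower side -/
noncomputable def sg (isU : Bool) (y : ℝ) : ℝ := if isU = true then y else -y

theorem RTf_sg {h : Orc → α → ℝ} (hh : RTf 𝒜 h) : RTf 𝒜 (fun A x => sg isU (h A x)) := by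
  cases isU with
  | true => exact hh.congr fun _ _ _ => rfl
  | false => exact hh.neg.congr fun _ _ _ => rfl

open Classical in
/-- the points of a side -/
theorem PLf_side (hN : PTf 𝒜 N) (hK : PTf 𝒜 K) (hr : PTf 𝒜 r) :
    PLf 𝒜 (fun A x => ((DD isU (N A x) (K A x) (r A x)).I.image fun w =>
      ((((DD isU (N A x) (K A x) (r A x)).pt w).1,
        sg isU ((DD isU (N A x) (K A x) (r A x)).pt w).2) : Pt))) := by
  have hN1 : PTf 𝒜 (fun A (p : α × Option (ℕ × ℕ)) => N A p.1) := hN.comp PTf.id.fst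
  have hK1 : PTf 𝒜 (fun A (p : α × Option (ℕ × ℕ)) => K A p.1) := hK.comp PTf.id.fst
  have hr1 : PTf 𝒜 (fun A (p : α × Option (ℕ × ℕ)) => r A p.1) := hr.comp PTf.id.fst
  have hN2 : PTf 𝒜 (fun A (p : α × Option (ℕ × ℕ) × ℕ) => N A p.1) := hN.comp PTf.id.fst
  have hK2 : PTf 𝒜 (fun A (p : α × Option (ℕ × ℕ) × ℕ) => K A p.1) := hK.comp PTf.id.fst
  have hr2 : PTf 𝒜 (fun A (p : α × Option (ℕ × ℕ) × ℕ) => r A p.1) := hr.comp PTf.id.fst
  have hN3 : PTf 𝒜 (fun A (p : α × ℕ) => N A p.1) := hN.comp PTf.id.fst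
  have hK3 : PTf 𝒜 (fun A (p : α × ℕ) => K A p.1) := hK.comp PTf.id.fst
  have hr3 : PTf 𝒜 (fun A (p : α × ℕ) => r A p.1) := hr.comp PTf.id.fst
  -- the chains
  have hz := (RTf_ptD isU hN2 hK2 hr2 (P := fun _ p => p.2.1) (f := fun _ p => p.2.2)
    PTf.id.snd.fst PTf.id.snd.snd).1
  have s1 : PLf 𝒜 (fun A x => ((((KK isU (N A x) (K A x) (r A x)).nodes.biUnion fun P =>
      (Finset.range ((KK isU (N A x) (K A x) (r A x)).s P + 1)).image (Nm.z P)).image fun w =>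
      ((((DD isU (N A x) (K A x) (r A x)).pt w).1,
        sg isU ((DD isU (N A x) (K A x) (r A x)).pt w).2) : Pt)))) := by
    refine PLf.ofList (l := fun A x => (none :: ndL isU (N A x) (K A x) (r A x)).flatMap fun P =>
        (List.range ((KK isU (N A x) (K A x) (r A x)).s P + 1)).map fun c => (P, c))
      (u := fun A x (y : Option (ℕ × ℕ) × ℕ) =>
        ((DD isU (N A x) (K A x) (r A x)).pt (.z y.1 y.2)).1)
      (v := fun A x (y : Option (ℕ × ℕ) × ℕ) =>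
        sg isU ((DD isU (N A x) (K A x) (r A x)).pt (.z y.1 y.2)).2)
      ?_ hz.1 (RTf_sg isU hz.2) ?_
    · refine ((PTf.const none).cons (PTf_ndL isU hN hK hr)).flatMap
        (g := fun A x P => (List.range ((KK isU (N A x) (K A x) (r A x)).s P + 1)).map
          fun c => (P, c)) ?_
      refine (PTf_KKs isU hN1 hK1 hr1 PTf.id.snd).succ.range.map
        (g := fun A (p : α × Option (ℕ × ℕ)) c => (p.2, c)) ?_
      exact PTf.id.fst.snd.pair PTf.id.snd
    · intro A _ x z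
      simp only [Finset.mem_image, Finset.mem_biUnion, Finset.mem_range, List.mem_flatMap,
        List.mem_cons, List.mem_map, List.mem_range]
      constructor
      · rintro ⟨w, ⟨P, hP, c, hc, rfl⟩, rfl⟩
        refine ⟨(P, c), ⟨P, ?_, c, hc, rfl⟩, rfl⟩
        by_cases h : P = none
        · exact Or.inl h
        · right
          rw [mem_ndL, Finset.mem_erase, KK_rt]
          exact ⟨h, hP⟩
      · rintro ⟨y, ⟨P, hP, c, hc, rfl⟩, rfl⟩
        refine ⟨_, ⟨P, ?_, c, hc, rfl⟩, rfl⟩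
        rcases hP with rfl | hP
        · have := KK_rt_mem isU (N := N A x) (K := K A x) (r := r A x)
          rwa [KK_rt] at this
        · rw [mem_ndL] at hP
          exact Finset.mem_of_mem_erase hP
  -- the leaves
  have hq := (RTf_ptD isU hN3 hK3 hr3 (P := fun _ _ => none) (f := fun _ p => p.2)
    (PTf.const none) PTf.id.snd).2.1
  have s2 : PLf 𝒜 (fun A x => ((((lf (Inst.F (N A x) (K A x) (r A x))
      (Inst.win (N A x) (K A x) (r A x))).image (Nm.q (ν := Option (ℕ × ℕ)))).image fun w =>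
      ((((DD isU (N A x) (K A x) (r A x)).pt w).1,
        sg isU ((DD isU (N A x) (K A x) (r A x)).pt w).2) : Pt)))) := by
    refine PLf.ofList (l := fun A x => lfL (N A x) (K A x) (r A x))
      (u := fun A x (y : ℕ) => ((DD isU (N A x) (K A x) (r A x)).pt (.q y)).1)
      (v := fun A x (y : ℕ) => sg isU ((DD isU (N A x) (K A x) (r A x)).pt (.q y)).2)
      (PTf_lfL hN hK hr) hq.1 (RTf_sg isU hq.2) ?_
    intro A _ x z
    simp only [Finset.mem_image, mem_lfL]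
    constructor
    · rintro ⟨w, ⟨g, hg, rfl⟩, rfl⟩
      exact ⟨g, hg, rfl⟩
    · rintro ⟨g, hg, rfl⟩
      exact ⟨_, ⟨g, hg, rfl⟩, rfl⟩
  -- the caps
  have hc := (RTf_ptD isU hN1 hK1 hr1 (P := fun _ p => p.2) (f := fun _ _ => 0)
    PTf.id.snd (PTf.const 0)).2.2
  have s3 : PLf 𝒜 (fun A x => (((((KK isU (N A x) (K A x) (r A x)).nodes.erase
      (KK isU (N A x) (K A x) (r A x)).rt).image Nm.cap).image fun w =>
      ((((DD isU (N A x) (K A x) (r A x)).pt w).1,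
        sg isU ((DD isU (N A x) (K A x) (r A x)).pt w).2) : Pt)))) := by
    refine PLf.ofList (l := fun A x => ndL isU (N A x) (K A x) (r A x))
      (u := fun A x (y : Option (ℕ × ℕ)) =>
        ((DD isU (N A x) (K A x) (r A x)).pt (.cap y)).1)
      (v := fun A x (y : Option (ℕ × ℕ)) =>
        sg isU ((DD isU (N A x) (K A x) (r A x)).pt (.cap y)).2)
      (PTf_ndL isU hN hK hr) hc.1 (RTf_sg isU hc.2) ?_
    intro A _ x z
    simp only [Finset.mem_image, mem_ndL]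
    constructor
    · rintro ⟨w, ⟨g, hg, rfl⟩, rfl⟩
      exact ⟨g, hg, rfl⟩
    · rintro ⟨g, hg, rfl⟩
      exact ⟨_, ⟨g, hg, rfl⟩, rfl⟩
  refine ((s1.union s2).union s3).congr fun A _ x z => ?_
  rw [← Finset.image_union, ← Finset.image_union, DD_I]
  unfold Skel.names
  simp only [Finset.mem_image, Finset.mem_union, Finset.mem_biUnion, Finset.mem_range]

end side

/-! ### axis points -/

variable {n t : Orc → α → ℕ} {fwf : Orc → α → ℕ → ℕ → Bool}

theorem ex_le (N K r f : ℕ) : Inst.ex N K r f ≤ 2 := by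
  unfold Inst.ex
  split_ifs <;> omega

/-- list of the windows with the blocked pairs of states -/
def blL (N K r : ℕ) (fw : ℕ → ℕ → Bool) : List (ℕ × ℕ × ℕ) :=
  (((List.range (Inst.F N K r)).flatMap fun w => (List.range 4).flatMap fun c =>
    (List.range 2).map fun m => (w, c, m)).filter fun y =>
      decide (y.1 ∈ Inst.win N K r) && (fw y.1 y.2.1 ^^ decide (y.2.2 = 1)))

theorem mem_blL {N K r : ℕ} {fw : ℕ → ℕ → Bool} {w c m : ℕ} :
    (w, c, m) ∈ blL N K r fw ↔ w ∈ Inst.win N K r ∧ c < 4 ∧ m < 2 ∧ Inst.bad fw w c m := by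
  unfold blL Inst.bad
  simp only [List.mem_filter, List.mem_flatMap, List.mem_range, List.mem_map,
    Bool.and_eq_true, decide_eq_true_eq, Prod.mk.injEq]
  constructor
  · rintro ⟨⟨w', h1, c', h2, m', h3, rfl, rfl, rfl⟩, h4, h5⟩
    refine ⟨h4, h2, h3, ?_⟩
    intro h6
    rw [h6] at h5
    simp at h5
  · rintro ⟨h1, h2, h3, h4⟩
    refine ⟨⟨w, ?_, c, h2, m, h3, rfl, rfl, rfl⟩, h1, ?_⟩
    · unfold Inst.win at h1
      rw [Finset.mem_filter, Finset.mem_Ico] at h1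
      exact h1.1.2
    · cases h5 : fw w c <;> cases h6 : decide (m = 1) <;> simp_all

theorem PTf_blL (hN : PTf 𝒜 N) (hK : PTf 𝒜 K) (hr : PTf 𝒜 r)
    (hfw : PTf 𝒜 (fun A (p : α × ℕ × ℕ) => fwf A p.1 p.2.1 p.2.2)) :
    PTf 𝒜 (fun A x => blL (N A x) (K A x) (r A x) (fwf A x)) := by
  unfold blL
  have hN1 : PTf 𝒜 (fun A (p : α × ℕ × ℕ × ℕ) => N A p.1) := hN.comp PTf.id.fst
  have hK1 : PTf 𝒜 (fun A (p : α × ℕ × ℕ × ℕ) => K A p.1) := hK.comp PTf.id.fst
  have hr1 : PTf 𝒜 (fun A (p : α × ℕ × ℕ × ℕ) => r A p.1) := hr.comp PTf.id.fst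
  refine PTf.filter (p := fun A x (y : ℕ × ℕ × ℕ) =>
    decide (y.1 ∈ Inst.win (N A x) (K A x) (r A x)) && (fwf A x y.1 y.2.1 ^^ decide (y.2.2 = 1)))
    ?_ ?_
  · refine (PTf_F hN hK hr).range.flatMap (g := fun _ _ w => (List.range 4).flatMap fun c =>
      (List.range 2).map fun m => (w, c, m)) ?_
    refine (PTf.const 4).range.flatMap (g := fun _ (p : α × ℕ) c => (List.range 2).map fun m =>
      (p.2, c, m)) ?_
    refine (PTf.const 2).range.map (g := fun _ (p : (α × ℕ) × ℕ) m => (p.1.2, p.2, m)) ?_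
    exact PTf.id.fst.fst.snd.pair (PTf.id.fst.snd.pair PTf.id.snd)
  · refine (PTf_isWin hN1 hK1 hr1 PTf.id.snd.fst).band (ptf_xor ?_ ?_)
    · exact hfw.comp (f := fun _ (p : α × ℕ × ℕ × ℕ) => (p.1, p.2.1, p.2.2.1))
        (PTf.id.fst.pair (PTf.id.snd.fst.pair PTf.id.snd.snd.fst))
    · exact PTf.id.snd.snd.snd.decide_eq (PTf.const 1)

open Classical in
/-- the blockers -/
theorem PLf_Bl (hN : PTf 𝒜 N) (hK : PTf 𝒜 K) (hr : PTf 𝒜 r)
    (hfw : PTf 𝒜 (fun A (p : α × ℕ × ℕ) => fwf A p.1 p.2.1 p.2.2)) :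
    PLf 𝒜 (fun A x => (Inst.Bl (N A x) (K A x) (r A x) (fwf A x)).image fpt) := by
  have hN1 : PTf 𝒜 (fun A (p : α × ℕ × ℕ × ℕ) => N A p.1) := hN.comp PTf.id.fst
  have hK1 : PTf 𝒜 (fun A (p : α × ℕ × ℕ × ℕ) => K A p.1) := hK.comp PTf.id.fst
  have hr1 : PTf 𝒜 (fun A (p : α × ℕ × ℕ × ℕ) => r A p.1) := hr.comp PTf.id.fst
  have hU := (RTf_ptU hN1 hK1 hr1 (PTf_KUown hN1 hK1 hr1 (f := fun _ p => p.2.1)
    PTf.id.snd.fst) (f := fun _ p => p.2.2.1) PTf.id.snd.snd.fst).1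
  have hL := (RTf_ptL hN1 hK1 hr1 (PTf_KLown hN1 hK1 hr1 (f := fun _ p => p.2.1)
    PTf.id.snd.fst) (f := fun _ p => p.2.2.2) PTf.id.snd.snd.snd).1
  have hcr := RTf_cr hU.1 hU.2 hL.1 hL.2
  refine PLf.ofList (l := fun A x => blL (N A x) (K A x) (r A x) (fwf A x))
    (u := fun A x (y : ℕ × ℕ × ℕ) => cr ((Inst.DU (N A x) (K A x) (r A x)).pt
      (.z ((Inst.KU (N A x) (K A x) (r A x)).own y.1) y.2.1))
      ((Inst.DL (N A x) (K A x) (r A x)).pt
      (.z ((Inst.KL (N A x) (K A x) (r A x)).own y.1) y.2.2)))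
    (v := fun _ _ _ => 0) (PTf_blL hN hK hr hfw) hcr RTf.zero ?_
  intro A _ x z
  unfold Inst.Bl fpt
  simp only [Finset.mem_image, Finset.mem_biUnion, Finset.mem_filter, Finset.mem_product,
    Finset.mem_range]
  constructor
  · rintro ⟨a, ⟨w, hw, ⟨c, m⟩, ⟨⟨h1, h2⟩, h3⟩, rfl⟩, rfl⟩
    exact ⟨(w, c, m), mem_blL.2 ⟨hw, h1, h2, h3⟩, rfl⟩
  · rintro ⟨⟨w, c, m⟩, h, rfl⟩
    have h' := mem_blL.1 h
    exact ⟨_, ⟨w, h'.1, (c, m), ⟨⟨h'.2.1, h'.2.2.1⟩, h'.2.2.2⟩, rfl⟩, rfl⟩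

theorem PTf_tpow (hN : PTf 𝒜 N) (hK : PTf 𝒜 K) (hr : PTf 𝒜 r) (hf : PTf 𝒜 f) (ht : PTf 𝒜 t) :
    PTf 𝒜 (fun A x => t A x ^ Inst.ex (N A x) (K A x) (r A x) (f A x)) := by
  have he := PTf_ex hN hK hr hf
  have h := (he.decide_eq (PTf.const 0)).ite (PTf.const 1)
    ((he.decide_eq (PTf.const 1)).ite ht (ht.mul ht))
  refine h.congr fun A _ x => ?_
  have h1 := ex_le (N A x) (K A x) (r A x) (f A x)
  generalize Inst.ex (N A x) (K A x) (r A x) (f A x) = m at *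
  have h2 : m = 0 ∨ m = 1 ∨ m = 2 := by omega
  rcases h2 with rfl | rfl | rfl
  · simp
  · simp
  · simp [sq]

open Classical in
/-- the clusters -/
theorem PLf_cluster (hN : PTf 𝒜 N) (hK : PTf 𝒜 K) (hr : PTf 𝒜 r) (hn : PTf 𝒜 n)
    (ht : PTf 𝒜 t) :
    PLf 𝒜 (fun A x => ((Finset.Ioo 0 (Inst.F (N A x) (K A x) (r A x))).biUnion fun f =>
      (Finset.range (t A x ^ Inst.ex (N A x) (K A x) (r A x) f * n A x + 1)).image
        fun i : ℕ => Inst.x (N A x) (K A x) (r A x) f +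
          i * Inst.kap (N A x) (K A x) (r A x)).image fpt) := by
  have hN1 : PTf 𝒜 (fun A (p : α × ℕ) => N A p.1) := hN.comp PTf.id.fst
  have hK1 : PTf 𝒜 (fun A (p : α × ℕ) => K A p.1) := hK.comp PTf.id.fst
  have hr1 : PTf 𝒜 (fun A (p : α × ℕ) => r A p.1) := hr.comp PTf.id.fst
  have hn1 : PTf 𝒜 (fun A (p : α × ℕ) => n A p.1) := hn.comp PTf.id.fst
  have ht1 : PTf 𝒜 (fun A (p : α × ℕ) => t A p.1) := ht.comp PTf.id.fst
  have hN2 : PTf 𝒜 (fun A (p : α × ℕ × ℕ) => N A p.1) := hN.comp PTf.id.fst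
  have hK2 : PTf 𝒜 (fun A (p : α × ℕ × ℕ) => K A p.1) := hK.comp PTf.id.fst
  have hr2 : PTf 𝒜 (fun A (p : α × ℕ × ℕ) => r A p.1) := hr.comp PTf.id.fst
  refine PLf.ofList (l := fun A x => (List.range (Inst.F (N A x) (K A x) (r A x) - 1)).flatMap
      fun f => (List.range (t A x ^ Inst.ex (N A x) (K A x) (r A x) (f + 1) * n A x + 1)).map
        fun i => (f + 1, i))
    (u := fun A x (y : ℕ × ℕ) => Inst.x (N A x) (K A x) (r A x) y.1 +
      y.2 * Inst.kap (N A x) (K A x) (r A x))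
    (v := fun _ _ _ => 0) ?_ ?_ RTf.zero ?_
  · refine ((PTf_F hN hK hr).sub (PTf.const 1)).range.flatMap (g := fun A x f =>
      (List.range (t A x ^ Inst.ex (N A x) (K A x) (r A x) (f + 1) * n A x + 1)).map
        fun i => (f + 1, i)) ?_
    refine (((PTf_tpow hN1 hK1 hr1 PTf.id.snd.succ ht1).mul hn1).succ.range).map
      (g := fun _ (p : α × ℕ) i => (p.2 + 1, i)) ?_
    exact PTf.id.fst.snd.succ.pair PTf.id.snd
  · exact (RTf_x hN2 hK2 hr2 PTf.id.snd.fst).add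
      ((RTf.ofU PTf.id.snd.snd).mul (RTf_kap hN2 hK2 hr2))
  · intro A _ x z
    unfold fpt
    simp only [Finset.mem_image, Finset.mem_biUnion, Finset.mem_Ioo, Finset.mem_range,
      List.mem_flatMap, List.mem_range, List.mem_map]
    constructor
    · rintro ⟨a, ⟨f, hf, i, hi, rfl⟩, rfl⟩
      refine ⟨(f, i), ⟨f - 1, by omega, i, ?_, ?_⟩, rfl⟩
      · have : f - 1 + 1 = f := by omega
        rw [this]; exact hi
      · have : f - 1 + 1 = f := by omega
        rw [this]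
    · rintro ⟨y, ⟨f, hf, i, hi, rfl⟩, rfl⟩
      exact ⟨_, ⟨f + 1, by omega, i, hi, rfl⟩, rfl⟩

open Classical in
/-- the first and the last foot -/
theorem PLf_ends (hN : PTf 𝒜 N) (hK : PTf 𝒜 K) (hr : PTf 𝒜 r) :
    PLf 𝒜 (fun A x => (({Inst.x (N A x) (K A x) (r A x) 0,
      Inst.x (N A x) (K A x) (r A x) (Inst.F (N A x) (K A x) (r A x))} : Finset ℝ)).image
        fpt) := by
  have hN1 : PTf 𝒜 (fun A (p : α × ℕ) => N A p.1) := hN.comp PTf.id.fst
  have hK1 : PTf 𝒜 (fun A (p : α × ℕ) => K A p.1) := hK.comp PTf.id.fst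
  have hr1 : PTf 𝒜 (fun A (p : α × ℕ) => r A p.1) := hr.comp PTf.id.fst
  refine PLf.ofList (l := fun A x => [0, Inst.F (N A x) (K A x) (r A x)])
    (u := fun A x (y : ℕ) => Inst.x (N A x) (K A x) (r A x) y)
    (v := fun _ _ _ => 0) ((PTf.const 0).cons ((PTf_F hN hK hr).cons (PTf.const [])))
    (RTf_x hN1 hK1 hr1 PTf.id.snd) RTf.zero ?_
  intro A _ x z
  unfold fpt
  simp only [Finset.mem_image, Finset.mem_insert, Finset.mem_singleton, List.mem_cons,
    List.not_mem_nil, or_false]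
  constructor
  · rintro ⟨a, rfl | rfl, rfl⟩
    · exact ⟨0, Or.inl rfl, rfl⟩
    · exact ⟨_, Or.inr rfl, rfl⟩
  · rintro ⟨y, rfl | rfl, rfl⟩
    · exact ⟨_, Or.inl rfl, rfl⟩
    · exact ⟨_, Or.inr rfl, rfl⟩

open Classical in
/-- the point sets of the instance -/
theorem PLf_SI (hN : PTf 𝒜 N) (hK : PTf 𝒜 K) (hr : PTf 𝒜 r)
    (hfw : PTf 𝒜 (fun A (p : α × ℕ × ℕ) => fwf A p.1 p.2.1 p.2.2)) (hn : PTf 𝒜 n)
    (ht : PTf 𝒜 t) :
    PLf 𝒜 (fun A x => Inst.SI (N A x) (K A x) (r A x) (fwf A x) (n A x) (t A x)) := by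
  have h1 : PLf 𝒜 (fun A x => (Inst.DU (N A x) (K A x) (r A x)).I.image
      (Inst.DU (N A x) (K A x) (r A x)).pt) :=
    (PLf_side true hN hK hr).congr fun _ _ _ z => Iff.rfl
  have h2 : PLf 𝒜 (fun A x => (Inst.DL (N A x) (K A x) (r A x)).I.image
      (fun w => low ((Inst.DL (N A x) (K A x) (r A x)).pt w))) :=
    (PLf_side false hN hK hr).congr fun _ _ _ z => Iff.rfl
  have h3 := PLf_ends hN hK hr
  have h4 := PLf_Bl hN hK hr hfw
  have h5 := PLf_cluster hN hK hr hn ht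
  refine ((h1.union h2).union ((h3.union h4).union h5)).congr fun A _ x z => ?_
  unfold Inst.SI setWA offPts axNT
  rw [Finset.image_union, Finset.image_union]

end Bin

end Pool.Agent.TRI
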