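import Pool.Agent.TRI.F_Alg
import Pool.Agent.TRI.F_R
import Pool.Agent.TRI.F_W
import Pool.Agent.TRI.T_SI
import Pool.Agent.TRI.G_Conv

/-!
If the number of triangulations is computable in polynomial time (with an oracle), then so is #SAT.
-/

namespace Pool.Agent.TRI

namespace Conv

open Pool.Agent.LibComplexity Function Bin

variable {𝒜 : Set Orc} {α : Type} [Enc α]

/-- the point sets for the formulas -/
theorem ex_SI {n m : Orc → α → ℕ} {ψ : Orc → α → Cnf} (hn : PTf 𝒜 n) (hm : PTf 𝒜 m)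
    (hψ : PTf 𝒜 ψ) :
    ∃ L : Orc → (α × ℕ) × ℕ → List (Coord × Coord), PTf 𝒜 L ∧ ∀ A ∈ 𝒜, ∀ p,
      ptSet (L A p) = Inst.SI (Inst.pN (n A p.1.1)) (Inst.pK (n A p.1.1) (m A p.1.1))
        (Inst.pr (n A p.1.1) (m A p.1.1))
        (Inst.fw (ψ A p.1.1) (Inst.pN (n A p.1.1)) (Inst.pr (n A p.1.1) (m A p.1.1)))
        p.1.2 p.2 := by
  have hn' : PTf 𝒜 (fun A (p : (α × ℕ) × ℕ) => n A p.1.1) := hn.comp PTf.id.fst.fst
  have hm' : PTf 𝒜 (fun A (p : (α × ℕ) × ℕ) => m A p.1.1) := hm.comp PTf.id.fst.fst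
  have hψ' : PTf 𝒜 (fun A (p : (α × ℕ) × ℕ) => ψ A p.1.1) := hψ.comp PTf.id.fst.fst
  have hN := ptf_pN hn'
  have hK := ptf_pK hn' hm'
  have hr := ptf_pr hn' hm'
  have hfw := PTf_fw3 hψ' hN hr
  have h := PLf_SI (α := (α × ℕ) × ℕ)
    (N := fun A p => Inst.pN (n A p.1.1))
    (K := fun A p => Inst.pK (n A p.1.1) (m A p.1.1))
    (r := fun A p => Inst.pr (n A p.1.1) (m A p.1.1))
    (fwf := fun A p => Inst.fw (ψ A p.1.1) (Inst.pN (n A p.1.1))
      (Inst.pr (n A p.1.1) (m A p.1.1)))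
    (n := fun A p => p.1.2) (t := fun A p => p.2)
    hN hK hr hfw PTf.id.fst.snd PTf.id.snd
  obtain ⟨L, hL, hL'⟩ := h
  exact ⟨L, hL, hL'⟩

/-- a function in `FP` with the oracle `B` computing the number of triangulations gives an evaluator -/
theorem trEval_of_inFP {B : Set (List Bool)} {f : List Bool → List Bool} (hf : InFP B f)
    (hf' : ∀ l : List (Coord × Coord), f (word l) = word (Nat.bits (tr (ptSet l)))) :
    TrEval {B} (fun _ l => read (List Bool) (f (word l))) where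
  ptf := PTf.read (PTf.applyFP hf (PTf.word PTf.id))
  val A _ l := by
    have h1 := read_word (α := List Bool) (Nat.bits (tr (ptSet l))) []
    rw [List.append_nil] at h1
    have h2 := congrArg (read (List Bool)) (hf' l)
    exact h2.trans h1

theorem sharpSatInFP_of_trInFP {B : Set (List Bool)} (h : TrInFP B) : SharpSatInFP B := by
  obtain ⟨f, hf, hf'⟩ := h
  have he := trEval_of_inFP hf hf'
  have hr : PTf {B} (fun (_ : Orc) (w : List Bool) => read Cnf w) := PTf.read PTf.id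
  have hb := btf_sharpSat he hr Inst.sharpSat_eq ex_SI
  have hb' : PTf {B} (fun (_ : Orc) (w : List Bool) => Nat.bits (sharpSat (read Cnf w))) := hb
  refine ⟨fun w => word (Nat.bits (sharpSat (read Cnf w))), ?_, fun φ => ?_⟩
  · rw [inFP_iff]
    exact PTf.word hb'
  · have h1 : read Cnf (word φ) = φ := by
      have := read_word (α := Cnf) φ []
      rwa [List.append_nil] at this
    exact congrArg (fun ψ : Cnf => word (Nat.bits (sharpSat ψ))) h1

end Conv

end Pool.Agent.TRI
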