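import Pool.Agent.TRI.A_Q2


namespace Pool.Agent.TRI

open Finset

theorem Qm_zero (W : Finset Pt) (B : Finset ℝ) : Qm W B (fun _ => 0) = tr (setWA W B) := by
  unfold Qm tr
  simp

open Classical in
theorem cluster_aux (W : Finset Pt) (hW : ∀ u ∈ W, u.2 ≠ 0) (hup : ∃ u ∈ W, 0 < u.2)
    (hdn : ∃ u ∈ W, u.2 < 0) (A : Finset ℝ) (n : ℝ → ℕ) (κ : ℝ) (hκ : 0 < κ)
    (hC : ∀ a ∈ A, n a ≠ 0 → Clear W a (a + n a * κ))
    (hsep : ∀ a ∈ A, ∀ b ∈ A, a < b → a + n a * κ < b) (S : Finset ℝ) :
    S ⊆ A → Qm W (A ∪ S.biUnion fun a => (range (n a + 1)).image fun i : ℕ => a + i * κ)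
      (fun b => if b ∈ A ∧ b ∉ S then n b else 0) = Qm W A n := by
  induction S using Finset.induction_on with
  | empty =>
    intro _
    rw [biUnion_empty, union_empty]
    refine Qm_congr W A fun b hb => ?_
    rw [if_pos ⟨hb, notMem_empty b⟩]
  | insert a S haS ih =>
    intro hS
    have haA : a ∈ A := hS (mem_insert_self a S)
    have hSA : S ⊆ A := (subset_insert a S).trans hS
    rw [← ih hSA, biUnion_insert, union_comm (((range (n a + 1)).image fun i : ℕ => a + i * κ)),
      ← union_assoc]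
    rw [Qm_cluster W hW hup hdn κ hκ a (n a)
      (A ∪ S.biUnion fun a => (range (n a + 1)).image fun i : ℕ => a + i * κ)
      (mem_union_left _ haA) ?_ (hC a haA)
      (fun b => if b ∈ A ∧ b ∉ insert a S then n b else 0) ?_]
    · congr 1
      funext b
      by_cases hb : b = a
      · rw [hb, Function.update_self, if_pos ⟨haA, haS⟩]
      · rw [Function.update_of_ne hb]
        simp only [mem_insert, hb, false_or]
    · intro b hb
      rcases mem_union.1 hb with hb | hb
      · rcases le_or_gt b a with h | h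
        · exact Or.inl h
        · exact Or.inr (hsep a haA b hb h)
      · obtain ⟨c, hc, hb⟩ := mem_biUnion.1 hb
        obtain ⟨i, hi, rfl⟩ := mem_image.1 hb
        have hcA := hSA hc
        have h0 : (0 : ℝ) ≤ i * κ := mul_nonneg (Nat.cast_nonneg i) hκ.le
        have h1 : (i : ℝ) * κ ≤ n c * κ := by
          refine mul_le_mul_of_nonneg_right ?_ hκ.le
          have := mem_range.1 hi
          exact_mod_cast (by omega : i ≤ n c)
        rcases lt_trichotomy c a with h | h | h
        · left
          have := hsep c hcA a haA h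
          linarith
        · exact absurd (h ▸ hc) haS
        · right
          have := hsep a haA c hcA h
          linarith
    · intro i hi
      rw [if_neg]
      rintro ⟨h1, h2⟩
      rw [mem_insert, not_or] at h2
      have h3 : a < a + i * κ := by
        have h4 : (0 : ℝ) ≤ i * κ := mul_nonneg (Nat.cast_nonneg i) hκ.le
        rcases h4.lt_or_eq with h5 | h5
        · linarith
        · exact absurd (by rw [← h5, add_zero]) h2.1
      have h6 := hsep a haA _ h1 h3
      have h7 : (i : ℝ) * κ ≤ n a * κ :=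
        mul_le_mul_of_nonneg_right (by exact_mod_cast hi) hκ.le
      linarith

open Classical in
/-- A2: the cluster formula -/
theorem cluster (W : Finset Pt) (hW : ∀ u ∈ W, u.2 ≠ 0) (hup : ∃ u ∈ W, 0 < u.2)
    (hdn : ∃ u ∈ W, u.2 < 0) (A : Finset ℝ) (n : ℝ → ℕ) (κ : ℝ) (hκ : 0 < κ)
    (hC : ∀ a ∈ A, n a ≠ 0 → Clear W a (a + n a * κ))
    (hsep : ∀ a ∈ A, ∀ b ∈ A, a < b → a + n a * κ < b) :
    tr (setWA W (A.biUnion fun a => (range (n a + 1)).image fun i : ℕ => a + i * κ)) =
      ∑ T ∈ tris (setWA W A), ∏ a ∈ A,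
        (up W T a - 1 + n a).choose (n a) * (dn W T a - 1 + n a).choose (n a) := by
  have h := cluster_aux W hW hup hdn A n κ hκ hC hsep A Subset.rfl
  have h1 : (A ∪ A.biUnion fun a => (range (n a + 1)).image fun i : ℕ => a + i * κ) =
      A.biUnion fun a => (range (n a + 1)).image fun i : ℕ => a + i * κ := by
    refine union_eq_right.2 fun a ha => ?_
    refine mem_biUnion.2 ⟨a, ha, mem_image.2 ⟨0, mem_range.2 (Nat.succ_pos _), ?_⟩⟩
    rw [Nat.cast_zero, zero_mul, add_zero]
  have h2 : (fun b => if b ∈ A ∧ b ∉ A then n b else 0) = fun _ => 0 := by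
    funext b
    rw [if_neg (fun h => h.2 h.1)]
  rw [h1, h2, Qm_zero] at h
  exact h

end Pool.Agent.TRI
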