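import Pool.Agent.TRI.A_Facts

/-!
Area A: membership in splits and contractions; contraction of a triangulation is a triangulation;
split of a triangulation is a triangulation; they are inverse to each other.
-/

namespace Pool.Agent.TRI

open Finset

variable {W : Finset Pt} {A : Finset ℝ} {a a' : ℝ}

/-! ### membership -/

theorem TH.A_Con_in (h : TH W A a a') {p q : Pt} (hp : p ∈ setWA W A) (hq : q ∈ setWA W A) :
    s(p, q) ∈ (setWA W A).sym2 := by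
  rw [mk_mem_sym2_iff]
  exact ⟨hp, hq⟩

theorem TH.A_Con_in' (h : TH W A a a') {p q : Pt} (hp : p ∈ setWA W (insert a' A))
    (hq : q ∈ setWA W (insert a' A)) : s(p, q) ∈ (setWA W (insert a' A)).sym2 := by
  rw [mk_mem_sym2_iff]
  exact ⟨hp, hq⟩

theorem TH.mem_con_common (h : TH W A a a') {T' : Finset (Sym2 Pt)} {p q : Pt}
    (hp : p ∈ S0 W A a) (hq : q ∈ S0 W A a) : s(p, q) ∈ con W A a a' T' ↔ s(p, q) ∈ T' := by
  classical
  unfold con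
  rw [mem_filter]
  constructor
  · rintro ⟨-, ⟨p', hp', q', hq', he, ht⟩ | ⟨z, hz, he, ht⟩⟩
    · rw [he]; exact ht
    · exfalso
      rcases Sym2.eq_iff.1 he with ⟨h1, -⟩ | ⟨-, h1⟩
      · exact h.ne_P hp h1
      · exact h.ne_P hq h1
  · intro ht
    exact ⟨h.A_Con_in (h.mem_S.2 (Or.inr hp)) (h.mem_S.2 (Or.inr hq)),
      Or.inl ⟨p, hp, q, hq, rfl, ht⟩⟩

theorem TH.mem_con_P (h : TH W A a a') {T' : Finset (Sym2 Pt)} {z : Pt} (hz : z ∈ S0 W A a) :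
    s(fpt a, z) ∈ con W A a a' T' ↔ s(fpt a, z) ∈ T' ∨ s(fpt a', z) ∈ T' := by
  classical
  unfold con
  rw [mem_filter]
  constructor
  · rintro ⟨-, ⟨p', hp', q', hq', he, ht⟩ | ⟨z', hz', he, ht⟩⟩
    · exfalso
      rcases Sym2.eq_iff.1 he with ⟨h1, -⟩ | ⟨h1, -⟩
      · exact h.ne_P hp' h1.symm
      · exact h.ne_P hq' h1.symm
    · rcases Sym2.eq_iff.1 he with ⟨-, h1⟩ | ⟨-, h1⟩
      · rw [h1]; exact ht
      · exact absurd h1 (h.ne_P hz)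
  · intro ht
    exact ⟨h.A_Con_in (h.mem_S.2 (Or.inl rfl)) (h.mem_S.2 (Or.inr hz)),
      Or.inr ⟨z, hz, rfl, ht⟩⟩

theorem TH.con_cases (h : TH W A a a') {T' : Finset (Sym2 Pt)} {e : Sym2 Pt}
    (he : e ∈ con W A a a' T') :
    (∃ p ∈ S0 W A a, ∃ q ∈ S0 W A a, e = s(p, q)) ∨ ∃ z ∈ S0 W A a, e = s(fpt a, z) := by
  classical
  unfold con at he
  rw [mem_filter] at he
  rcases he.2 with ⟨p, hp, q, hq, he, -⟩ | ⟨z, hz, he, -⟩
  · exact Or.inl ⟨p, hp, q, hq, he⟩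
  · exact Or.inr ⟨z, hz, he⟩

theorem TH.mem_spl_PP' (h : TH W A a a') {T : Finset (Sym2 Pt)} {x y : Pt} :
    s(fpt a, fpt a') ∈ spl W A a a' T x y := by
  classical
  unfold spl
  rw [mem_filter]
  exact ⟨h.A_Con_in' (h.mem_S'.2 (Or.inr (Or.inl rfl))) (h.mem_S'.2 (Or.inl rfl)), Or.inl rfl⟩

theorem TH.mem_spl_common (h : TH W A a a') {T : Finset (Sym2 Pt)} {x y p q : Pt}
    (hp : p ∈ S0 W A a) (hq : q ∈ S0 W A a) : s(p, q) ∈ spl W A a a' T x y ↔ s(p, q) ∈ T := by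
  classical
  unfold spl
  rw [mem_filter]
  constructor
  · rintro ⟨-, he | ⟨p', hp', q', hq', he, ht⟩ | ⟨z, hz, he, ht⟩ | ⟨z, hz, he, ht⟩⟩
    · exfalso
      rcases Sym2.eq_iff.1 he with ⟨h1, -⟩ | ⟨-, h1⟩
      · exact h.ne_P hp h1
      · exact h.ne_P hq h1
    · rw [he]; exact ht
    · exfalso
      rcases Sym2.eq_iff.1 he with ⟨h1, -⟩ | ⟨-, h1⟩
      · exact h.ne_P hp h1
      · exact h.ne_P hq h1
    · exfalso
      rcases Sym2.eq_iff.1 he with ⟨h1, -⟩ | ⟨-, h1⟩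
      · exact h.ne_P' hp h1
      · exact h.ne_P' hq h1
  · intro ht
    exact ⟨h.A_Con_in' (h.mem_S'.2 (Or.inr (Or.inr hp))) (h.mem_S'.2 (Or.inr (Or.inr hq))),
      Or.inr (Or.inl ⟨p, hp, q, hq, rfl, ht⟩)⟩

theorem TH.mem_spl_P (h : TH W A a a') {T : Finset (Sym2 Pt)} {x y z : Pt}
    (hz : z ∈ S0 W A a) :
    s(fpt a, z) ∈ spl W A a a' T x y ↔ s(fpt a, z) ∈ T ∧ Lf a x y z := by
  classical
  unfold spl
  rw [mem_filter]
  constructor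
  · rintro ⟨-, he | ⟨p', hp', q', hq', he, ht⟩ | ⟨z', hz', he, ht⟩ | ⟨z', hz', he, ht⟩⟩
    · exfalso
      rcases Sym2.eq_iff.1 he with ⟨-, h1⟩ | ⟨h1, -⟩
      · exact h.ne_P' hz h1
      · exact h.PP' h1
    · exfalso
      rcases Sym2.eq_iff.1 he with ⟨h1, -⟩ | ⟨h1, -⟩
      · exact h.ne_P hp' h1.symm
      · exact h.ne_P hq' h1.symm
    · rcases Sym2.eq_iff.1 he with ⟨-, h1⟩ | ⟨-, h1⟩
      · rw [h1]; exact ht
      · exact absurd h1 (h.ne_P hz)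
    · exfalso
      rcases Sym2.eq_iff.1 he with ⟨h1, -⟩ | ⟨h1, -⟩
      · exact h.PP' h1
      · exact h.ne_P hz' h1.symm
  · intro ht
    exact ⟨h.A_Con_in' (h.mem_S'.2 (Or.inr (Or.inl rfl))) (h.mem_S'.2 (Or.inr (Or.inr hz))),
      Or.inr (Or.inr (Or.inl ⟨z, hz, rfl, ht⟩))⟩

theorem TH.mem_spl_P' (h : TH W A a a') {T : Finset (Sym2 Pt)} {x y z : Pt}
    (hz : z ∈ S0 W A a) :
    s(fpt a', z) ∈ spl W A a a' T x y ↔ s(fpt a, z) ∈ T ∧ Rg a x y z := by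
  classical
  unfold spl
  rw [mem_filter]
  constructor
  · rintro ⟨-, he | ⟨p', hp', q', hq', he, ht⟩ | ⟨z', hz', he, ht⟩ | ⟨z', hz', he, ht⟩⟩
    · exfalso
      rcases Sym2.eq_iff.1 he with ⟨h1, -⟩ | ⟨-, h1⟩
      · exact h.PP' h1.symm
      · exact h.ne_P hz h1
    · exfalso
      rcases Sym2.eq_iff.1 he with ⟨h1, -⟩ | ⟨h1, -⟩
      · exact h.ne_P' hp' h1.symm
      · exact h.ne_P' hq' h1.symm
    · exfalso
      rcases Sym2.eq_iff.1 he with ⟨h1, -⟩ | ⟨h1, -⟩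
      · exact h.PP' h1.symm
      · exact h.ne_P' hz' h1.symm
    · rcases Sym2.eq_iff.1 he with ⟨-, h1⟩ | ⟨-, h1⟩
      · rw [h1]; exact ht
      · exact absurd h1 (h.ne_P' hz)
  · intro ht
    exact ⟨h.A_Con_in' (h.mem_S'.2 (Or.inl rfl)) (h.mem_S'.2 (Or.inr (Or.inr hz))),
      Or.inr (Or.inr (Or.inr ⟨z, hz, rfl, ht⟩))⟩

theorem TH.spl_cases (h : TH W A a a') {T : Finset (Sym2 Pt)} {x y : Pt}
    {e : Sym2 Pt} (he : e ∈ spl W A a a' T x y) :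
    e = s(fpt a, fpt a') ∨ (∃ p ∈ S0 W A a, ∃ q ∈ S0 W A a, e = s(p, q)) ∨
      (∃ z ∈ S0 W A a, e = s(fpt a, z)) ∨ ∃ z ∈ S0 W A a, e = s(fpt a', z) := by
  classical
  unfold spl at he
  rw [mem_filter] at he
  rcases he.2 with he | ⟨p, hp, q, hq, he, -⟩ | ⟨z, hz, he, -⟩ | ⟨z, hz, he, -⟩
  · exact Or.inl he
  · exact Or.inr (Or.inl ⟨p, hp, q, hq, he⟩)
  · exact Or.inr (Or.inr (Or.inl ⟨z, hz, he⟩))
  · exact Or.inr (Or.inr (Or.inr ⟨z, hz, he⟩))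

end Pool.Agent.TRI
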