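import Pool.Agent.TRI.A_Con

namespace Pool.Agent.TRI

open Finset

variable {W : Finset Pt} {A : Finset ℝ} {a a' : ℝ}

private theorem ct_mem_S0 {z : Pt} (hz : z ∈ W) : z ∈ S0 W A a := mem_S0.2 (Or.inl hz)

private theorem ct_mem_W {z : Pt} (hz : z ∈ S0 W A a) (h2 : z.2 ≠ 0) : z ∈ W := by
  rcases mem_S0.1 hz with h | ⟨b, _, _, h⟩
  · exact h
  · exact absurd (by rw [h]; rfl) h2

private theorem ct_ne_common (h : TH W A a a') {z p q : Pt} (hp : p ∈ S0 W A a)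
    (hq : q ∈ S0 W A a) : s(fpt a', z) ≠ s(p, q) := by
  intro he
  rcases Sym2.eq_iff.1 he with ⟨h1, _⟩ | ⟨h1, _⟩
  · exact h.ne_P' hp h1.symm
  · exact h.ne_P' hq h1.symm

private theorem ct_ne_spokes (h : TH W A a a') {z w : Pt} (hz : z ∈ S0 W A a) :
    s(fpt a, z) ≠ s(fpt a', w) := by
  intro he
  rcases Sym2.eq_iff.1 he with ⟨h1, _⟩ | ⟨_, h1⟩
  · exact h.PP' h1
  · exact h.ne_P' hz h1

/-- an admissible spoke from `fpt a` which is not in the triangulation and crosses no common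
segment of it crosses a spoke from `fpt a'` -/
private theorem ct_left (h : TH W A a a') {T' : Finset (Sym2 Pt)}
    (hT : IsTri (setWA W (insert a' A)) T') {z : Pt} (hz : z ∈ S0 W A a)
    (hs : IsSeg (setWA W (insert a' A)) s(fpt a, z)) (hn : s(fpt a, z) ∉ T')
    (hcom : ∀ p ∈ S0 W A a, ∀ q ∈ S0 W A a, s(p, q) ∈ T' →
      Disjoint (seg s(fpt a, z)) (seg s(p, q))) :
    ∃ w ∈ S0 W A a, s(fpt a', w) ∈ T' ∧ ((0 < z.2 ∧ 0 < w.2) ∨ (z.2 < 0 ∧ w.2 < 0)) ∧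
      thA a w < thA a z := by
  obtain ⟨hNC, hmax⟩ := isTri_iff.1 hT
  by_contra hcon
  refine hn (hmax _ hs fun f hf hne => ?_)
  rcases h.seg_cases' (hNC.1 f hf) with rfl | ⟨p, hp, q, hq, rfl⟩ | ⟨w, hw, rfl⟩ | ⟨w, hw, rfl⟩
  · exact h.disj_PP' hs hne
  · exact hcom p hp q hq hf
  · refine disj_spokes hs (hNC.1 _ hf) ?_
    rintro rfl
    exact hne rfl
  · by_contra hd
    obtain ⟨h1, h2⟩ := (h.cross_spokes hz hw hs (hNC.1 _ hf)).1 hd
    exact hcon ⟨w, hw, hf, h1, h2⟩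

/-- the same for a spoke from `fpt a'` -/
private theorem ct_right (h : TH W A a a') {T' : Finset (Sym2 Pt)}
    (hT : IsTri (setWA W (insert a' A)) T') {z : Pt} (hz : z ∈ S0 W A a)
    (hs : IsSeg (setWA W (insert a' A)) s(fpt a', z)) (hn : s(fpt a', z) ∉ T')
    (hcom : ∀ p ∈ S0 W A a, ∀ q ∈ S0 W A a, s(p, q) ∈ T' →
      Disjoint (seg s(fpt a, z)) (seg s(p, q))) :
    ∃ w ∈ S0 W A a, s(fpt a, w) ∈ T' ∧ ((0 < w.2 ∧ 0 < z.2) ∨ (w.2 < 0 ∧ z.2 < 0)) ∧
      thA a z < thA a w := by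
  obtain ⟨hNC, hmax⟩ := isTri_iff.1 hT
  by_contra hcon
  refine hn (hmax _ hs fun f hf hne => ?_)
  rcases h.seg_cases' (hNC.1 f hf) with rfl | ⟨p, hp, q, hq, rfl⟩ | ⟨w, hw, rfl⟩ | ⟨w, hw, rfl⟩
  · exact h.disj_PP' hs hne
  · exact (h.disj_iff hz hp hq ((h.isSeg_P' hz).1 hs).1 hs
      ((h.isSeg_common hp hq).1 (hNC.1 _ hf))).2 (hcom p hp q hq hf)
  · by_contra hd
    obtain ⟨h1, h2⟩ := (h.cross_spokes hw hz (hNC.1 _ hf) hs).1 (fun h' => hd h'.symm)
    exact hcon ⟨w, hw, hf, h1, h2⟩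
  · refine disj_spokes hs (hNC.1 _ hf) ?_
    rintro rfl
    exact hne rfl

/-- in a triangulation of the point set with the twin, no spoke from `fpt a` crosses a spoke from
`fpt a'` -/
theorem TH.le_th (h : TH W A a a') {T' : Finset (Sym2 Pt)}
    (hT : IsTri (setWA W (insert a' A)) T') {z z' : Pt} (hz : z ∈ W) (hz' : z' ∈ W)
    (hs : (0 < z.2 ∧ 0 < z'.2) ∨ (z.2 < 0 ∧ z'.2 < 0)) (h1 : s(fpt a, z) ∈ T')
    (h2 : s(fpt a', z') ∈ T') : thA a z ≤ thA a z' := by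
  by_contra hlt
  rw [not_le] at hlt
  have hz0 : z ∈ S0 W A a := ct_mem_S0 hz
  have hz0' : z' ∈ S0 W A a := ct_mem_S0 hz'
  exact (h.cross_spokes hz0 hz0' (hT.1.1 _ h1) (hT.1.1 _ h2)).2 ⟨hs, hlt⟩
    (hT.1.2 _ h1 _ h2 (ct_ne_spokes h hz0))

/-- the contraction of a triangulation is a triangulation -/
theorem TH.isTri_con (h : TH W A a a') {T' : Finset (Sym2 Pt)}
    (hT : IsTri (setWA W (insert a' A)) T') : IsTri (setWA W A) (con W A a a' T') := by
  have hT2 := isTri_iff.1 hT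
  obtain ⟨hNC, hmax⟩ := hT2
  -- admissibility
  have hseg : ∀ e ∈ con W A a a' T', IsSeg (setWA W A) e := by
    intro e he
    rcases h.con_cases he with ⟨p, hp, q, hq, rfl⟩ | ⟨z, hz, rfl⟩
    · exact (h.isSeg_common hp hq).1 (hNC.1 _ ((h.mem_con_common hp hq).1 he))
    · rcases (h.mem_con_P hz).1 he with h1 | h1
      · exact ((h.isSeg_P hz).1 (hNC.1 _ h1)).1
      · exact ((h.isSeg_P' hz).1 (hNC.1 _ h1)).1
  -- common segments and spokes
  have hcs : ∀ p ∈ S0 W A a, ∀ q ∈ S0 W A a, ∀ z ∈ S0 W A a, s(p, q) ∈ T' →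
      s(fpt a, z) ∈ con W A a a' T' → Disjoint (seg s(fpt a, z)) (seg s(p, q)) := by
    intro p hp q hq z hz hpq hzC
    rcases (h.mem_con_P hz).1 hzC with h1 | h1
    · refine hNC.2 _ h1 _ hpq ?_
      intro he
      rcases Sym2.eq_iff.1 he with ⟨h1, _⟩ | ⟨h1, _⟩
      · exact h.ne_P hp h1.symm
      · exact h.ne_P hq h1.symm
    · have h2 := hNC.2 _ h1 _ hpq (ct_ne_common h hp hq)
      exact (h.disj_iff hz hp hq ((h.isSeg_P' hz).1 (hNC.1 _ h1)).1 (hNC.1 _ h1)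
        ((h.isSeg_common hp hq).1 (hNC.1 _ hpq))).1 h2
  refine isTri_iff.2 ⟨⟨hseg, ?_⟩, ?_⟩
  · intro e he f hf hne
    rcases h.con_cases he with ⟨p, hp, q, hq, rfl⟩ | ⟨z, hz, rfl⟩
    · rcases h.con_cases hf with ⟨p', hp', q', hq', rfl⟩ | ⟨z', hz', rfl⟩
      · exact hNC.2 _ ((h.mem_con_common hp hq).1 he) _ ((h.mem_con_common hp' hq').1 hf) hne
      · exact (hcs p hp q hq z' hz' ((h.mem_con_common hp hq).1 he) hf).symm
    · rcases h.con_cases hf with ⟨p', hp', q', hq', rfl⟩ | ⟨z', hz', rfl⟩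
      · exact hcs p' hp' q' hq' z hz ((h.mem_con_common hp' hq').1 hf) he
      · refine disj_spokes (hseg _ he) (hseg _ hf) ?_
        rintro rfl
        exact hne rfl
  · intro e he hd
    rcases h.seg_cases he with ⟨p, hp, q, hq, rfl⟩ | ⟨z, hz, rfl⟩
    · rw [h.mem_con_common hp hq]
      refine hmax _ ((h.isSeg_common hp hq).2 he) fun f hf hne => ?_
      rcases h.seg_cases' (hNC.1 f hf) with rfl | ⟨p', hp', q', hq', rfl⟩ | ⟨w, hw, rfl⟩ |
        ⟨w, hw, rfl⟩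
      · exact h.disj_PP' ((h.isSeg_common hp hq).2 he) hne
      · exact hd _ ((h.mem_con_common hp' hq').2 hf) hne
      · exact hd _ ((h.mem_con_P hw).2 (Or.inl hf)) hne
      · have h1 : s(p, q) ≠ s(fpt a, w) := by
          intro he
          rcases Sym2.eq_iff.1 he with ⟨h1, _⟩ | ⟨_, h1⟩
          · exact h.ne_P hp h1
          · exact h.ne_P hq h1
        have h2 := hd _ ((h.mem_con_P hw).2 (Or.inr hf)) h1
        exact ((h.disj_iff hw hp hq ((h.isSeg_P' hw).1 (hNC.1 _ hf)).1 (hNC.1 _ hf) he).2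
          h2.symm).symm
    · by_contra hnC
      have hn : s(fpt a, z) ∉ T' ∧ s(fpt a', z) ∉ T' := by
        rw [h.mem_con_P hz, not_or] at hnC
        exact hnC
      have hcom : ∀ p ∈ S0 W A a, ∀ q ∈ S0 W A a, s(p, q) ∈ T' →
          Disjoint (seg s(fpt a, z)) (seg s(p, q)) := by
        intro p hp q hq hpq
        refine hd _ ((h.mem_con_common hp hq).2 hpq) ?_
        intro he
        rcases Sym2.eq_iff.1 he with ⟨h1, _⟩ | ⟨h1, _⟩
        · exact h.ne_P hp h1.symm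
        · exact h.ne_P hq h1.symm
      by_cases hax : z.2 = 0
      · rcases lt_trichotomy z.1 a with hza | hza | hza
        · have hs : IsSeg (setWA W (insert a' A)) s(fpt a, z) :=
            (h.isSeg_P hz).2 ⟨he, fun h' => absurd h'.2 (not_lt.2 hza.le)⟩
          obtain ⟨w, _, _, h1, _⟩ := ct_left h hT hz hs hn.1 hcom
          rcases h1 with h1 | h1
          · exact absurd h1.1 (by rw [hax]; exact lt_irrefl 0)
          · exact absurd h1.1 (by rw [hax]; exact lt_irrefl 0)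
        · exact h.ne_P hz (Prod.ext hza hax)
        · have hs : IsSeg (setWA W (insert a' A)) s(fpt a', z) :=
            (h.isSeg_P' hz).2 ⟨he, fun h' => absurd h'.2 (not_lt.2 hza.le)⟩
          obtain ⟨w, _, _, h1, _⟩ := ct_right h hT hz hs hn.2 hcom
          rcases h1 with h1 | h1
          · exact absurd h1.2 (by rw [hax]; exact lt_irrefl 0)
          · exact absurd h1.2 (by rw [hax]; exact lt_irrefl 0)
      · have hs : IsSeg (setWA W (insert a' A)) s(fpt a, z) :=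
          (h.isSeg_P hz).2 ⟨he, fun h' => hax h'.1⟩
        have hs' : IsSeg (setWA W (insert a' A)) s(fpt a', z) :=
          (h.isSeg_P' hz).2 ⟨he, fun h' => hax h'.1⟩
        obtain ⟨w, hw, hwT, h1, h2⟩ := ct_left h hT hz hs hn.1 hcom
        obtain ⟨v, hv, hvT, h3, h4⟩ := ct_right h hT hz hs' hn.2 hcom
        have hsame : (0 < v.2 ∧ 0 < w.2) ∨ (v.2 < 0 ∧ w.2 < 0) := by
          rcases h1 with h1 | h1
          · rcases h3 with h3 | h3
            · exact Or.inl ⟨h3.1, h1.2⟩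
            · exact absurd (h1.1.trans h3.2) (lt_irrefl _)
          · rcases h3 with h3 | h3
            · exact absurd (h1.1.trans h3.2) (lt_irrefl _)
            · exact Or.inr ⟨h3.1, h1.2⟩
        exact (h.cross_spokes hv hw (hNC.1 _ hvT) (hNC.1 _ hwT)).2 ⟨hsame, h2.trans h4⟩
          (hNC.2 _ hvT _ hwT (ct_ne_spokes h hv))

/-- the last neighbour of `fpt a` above is also a neighbour of `fpt a'` -/
theorem TH.shared_up (h : TH W A a a') {T' : Finset (Sym2 Pt)}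
    (hT : IsTri (setWA W (insert a' A)) T') {x : Pt} (hx : x ∈ W) (hx2 : 0 < x.2)
    (hxT : s(fpt a, x) ∈ T') (hmax : ∀ z ∈ W, 0 < z.2 → s(fpt a, z) ∈ T' → thA a z ≤ thA a x) :
    s(fpt a', x) ∈ T' := by
  by_contra hn
  have hx0 : x ∈ S0 W A a := ct_mem_S0 hx
  have hs : IsSeg (setWA W (insert a' A)) s(fpt a', x) :=
    (h.isSeg_P' hx0).2 ⟨((h.isSeg_P hx0).1 (hT.1.1 _ hxT)).1, fun h' => hx2.ne' h'.1⟩
  obtain ⟨w, hw, hwT, h1, h2⟩ := ct_right h hT hx0 hs hn (by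
    intro p hp q hq hpq
    refine hT.1.2 _ hxT _ hpq ?_
    intro he
    rcases Sym2.eq_iff.1 he with ⟨h1, _⟩ | ⟨h1, _⟩
    · exact h.ne_P hp h1.symm
    · exact h.ne_P hq h1.symm)
  rcases h1 with h1 | h1
  · exact absurd (hmax w (ct_mem_W hw h1.1.ne') h1.1 hwT) (not_le.2 h2)
  · exact absurd (hx2.trans h1.2) (lt_irrefl _)

/-- the last neighbour of `fpt a` below is also a neighbour of `fpt a'` -/
theorem TH.shared_dn (h : TH W A a a') {T' : Finset (Sym2 Pt)}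
    (hT : IsTri (setWA W (insert a' A)) T') {y : Pt} (hy : y ∈ W) (hy2 : y.2 < 0)
    (hyT : s(fpt a, y) ∈ T') (hmax : ∀ z ∈ W, z.2 < 0 → s(fpt a, z) ∈ T' → thA a z ≤ thA a y) :
    s(fpt a', y) ∈ T' := by
  by_contra hn
  have hy0 : y ∈ S0 W A a := ct_mem_S0 hy
  have hs : IsSeg (setWA W (insert a' A)) s(fpt a', y) :=
    (h.isSeg_P' hy0).2 ⟨((h.isSeg_P hy0).1 (hT.1.1 _ hyT)).1, fun h' => hy2.ne h'.1⟩
  obtain ⟨w, hw, hwT, h1, h2⟩ := ct_right h hT hy0 hs hn (by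
    intro p hp q hq hpq
    refine hT.1.2 _ hyT _ hpq ?_
    intro he
    rcases Sym2.eq_iff.1 he with ⟨h1, _⟩ | ⟨h1, _⟩
    · exact h.ne_P hp h1.symm
    · exact h.ne_P hq h1.symm)
  rcases h1 with h1 | h1
  · exact absurd (hy2.trans h1.2) (lt_irrefl _)
  · exact absurd (hmax w (ct_mem_W hw h1.1.ne) h1.1 hwT) (not_le.2 h2)

end Pool.Agent.TRI
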