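import Pool.Agent.TRI.Basic

/-!
Area A, definitions: the twin situation, splitting and contraction of triangulations.
-/

namespace Pool.Agent.TRI

open Finset

/-- hypotheses of the twin lemma: `a`, `a'` neighbouring abscissas, `a` in `A`, `a'` new -/
structure TH (W : Finset Pt) (A : Finset ℝ) (a a' : ℝ) : Prop where
  hW : ∀ u ∈ W, u.2 ≠ 0
  ha : a ∈ A
  haa : a < a'
  hA : ∀ b ∈ A, b ≤ a ∨ a' < b
  hC : Clear W a a'

/-- the points different from `fpt a` (and `fpt a'`) -/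
noncomputable def S0 (W : Finset Pt) (A : Finset ℝ) (a : ℝ) : Finset Pt := setWA W (A.erase a)

/-- direction of `z` seen from the axis point `a` -/
noncomputable def thA (a : ℝ) (z : Pt) : ℝ := (z.1 - a) / |z.2|

/-- `z` is to the left of `x` (above) or of `y` (below), seen from `a`, or an axis point on the
left -/
def Lf (a : ℝ) (x y z : Pt) : Prop :=
  (0 < z.2 ∧ thA a z ≤ thA a x) ∨ (z.2 < 0 ∧ thA a z ≤ thA a y) ∨ (z.2 = 0 ∧ z.1 < a)

/-- `z` is to the right of `x` (above) or of `y` (below), seen from `a`, or an axis point on the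
right -/
def Rg (a : ℝ) (x y z : Pt) : Prop :=
  (0 < z.2 ∧ thA a x ≤ thA a z) ∨ (z.2 < 0 ∧ thA a y ≤ thA a z) ∨ (z.2 = 0 ∧ a < z.1)

open Classical in
/-- split the point `fpt a` into `fpt a`, `fpt a'`, with the shared neighbours `x`, `y` -/
noncomputable def spl (W : Finset Pt) (A : Finset ℝ) (a a' : ℝ) (T : Finset (Sym2 Pt))
    (x y : Pt) : Finset (Sym2 Pt) :=
  (setWA W (insert a' A)).sym2.filter fun e => e = s(fpt a, fpt a') ∨
    (∃ p ∈ S0 W A a, ∃ q ∈ S0 W A a, e = s(p, q) ∧ s(p, q) ∈ T) ∨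
    (∃ z ∈ S0 W A a, e = s(fpt a, z) ∧ s(fpt a, z) ∈ T ∧ Lf a x y z) ∨
    (∃ z ∈ S0 W A a, e = s(fpt a', z) ∧ s(fpt a, z) ∈ T ∧ Rg a x y z)

open Classical in
/-- contract `fpt a'` to `fpt a` -/
noncomputable def con (W : Finset Pt) (A : Finset ℝ) (a a' : ℝ) (T' : Finset (Sym2 Pt)) :
    Finset (Sym2 Pt) :=
  (setWA W A).sym2.filter fun e =>
    (∃ p ∈ S0 W A a, ∃ q ∈ S0 W A a, e = s(p, q) ∧ s(p, q) ∈ T') ∨
    ∃ z ∈ S0 W A a, e = s(fpt a, z) ∧ (s(fpt a, z) ∈ T' ∨ s(fpt a', z) ∈ T')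

end Pool.Agent.TRI
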