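import Pool.Agent.TRI.A_Con

/-!
Area A: degrees in a split triangulation.
-/

namespace Pool.Agent.TRI

open Finset

variable {W : Finset Pt} {A : Finset ℝ} {a a' : ℝ}

private theorem deg_mem_W {u : Pt} (hu : u ∈ W) : u ∈ S0 W A a := by
  unfold S0 setWA
  exact mem_union_left _ hu

private theorem deg_mem_A {b : ℝ} (hb : b ∈ A) (hba : b ≠ a) : fpt b ∈ S0 W A a := by
  unfold S0 setWA
  exact mem_union_right _ (mem_image_of_mem _ (mem_erase.2 ⟨hba, hb⟩))

private theorem deg_Lf_up {x y z : Pt} (hz : 0 < z.2) : Lf a x y z ↔ thA a z ≤ thA a x := by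
  unfold Lf
  constructor
  · rintro (h | h | h)
    · exact h.2
    · exact absurd h.1 (not_lt.2 hz.le)
    · exact absurd h.1 hz.ne'
  · exact fun h => Or.inl ⟨hz, h⟩

private theorem deg_Lf_dn {x y z : Pt} (hz : z.2 < 0) : Lf a x y z ↔ thA a z ≤ thA a y := by
  unfold Lf
  constructor
  · rintro (h | h | h)
    · exact absurd h.1 (not_lt.2 hz.le)
    · exact h.2
    · exact absurd h.1 hz.ne
  · exact fun h => Or.inr (Or.inl ⟨hz, h⟩)

private theorem deg_Rg_up {x y z : Pt} (hz : 0 < z.2) : Rg a x y z ↔ thA a x ≤ thA a z := by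
  unfold Rg
  constructor
  · rintro (h | h | h)
    · exact h.2
    · exact absurd h.1 (not_lt.2 hz.le)
    · exact absurd h.1 hz.ne'
  · exact fun h => Or.inl ⟨hz, h⟩

private theorem deg_Rg_dn {x y z : Pt} (hz : z.2 < 0) : Rg a x y z ↔ thA a y ≤ thA a z := by
  unfold Rg
  constructor
  · rintro (h | h | h)
    · exact absurd h.1 (not_lt.2 hz.le)
    · exact h.2
    · exact absurd h.1 hz.ne
  · exact fun h => Or.inr (Or.inl ⟨hz, h⟩)

theorem TH.up_spl (h : TH W A a a') {T : Finset (Sym2 Pt)} {x y : Pt} {b : ℝ} (hb : b ∈ A)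
    (hba : b ≠ a) : up W (spl W A a a' T x y) b = up W T b := by
  unfold up
  congr 1
  refine filter_congr fun u hu => ?_
  rw [h.mem_spl_common (deg_mem_A hb hba) (deg_mem_W hu)]

theorem TH.dn_spl (h : TH W A a a') {T : Finset (Sym2 Pt)} {x y : Pt} {b : ℝ} (hb : b ∈ A)
    (hba : b ≠ a) : dn W (spl W A a a' T x y) b = dn W T b := by
  unfold dn
  congr 1
  refine filter_congr fun u hu => ?_
  rw [h.mem_spl_common (deg_mem_A hb hba) (deg_mem_W hu)]

open Classical in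
theorem TH.up_spl_a (h : TH W A a a') {T : Finset (Sym2 Pt)} {x y : Pt} :
    up W (spl W A a a' T x y) a =
      ((W.filter fun u => 0 < u.2 ∧ s(fpt a, u) ∈ T).filter fun z => thA a z ≤ thA a x).card := by
  unfold up
  rw [filter_filter]
  congr 1
  refine filter_congr fun u hu => ?_
  rw [h.mem_spl_P (deg_mem_W hu)]
  constructor
  · rintro ⟨h1, h2, h3⟩
    exact ⟨⟨h1, h2⟩, (deg_Lf_up h1).1 h3⟩
  · rintro ⟨⟨h1, h2⟩, h3⟩
    exact ⟨h1, h2, (deg_Lf_up h1).2 h3⟩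

open Classical in
theorem TH.dn_spl_a (h : TH W A a a') {T : Finset (Sym2 Pt)} {x y : Pt} :
    dn W (spl W A a a' T x y) a =
      ((W.filter fun u => u.2 < 0 ∧ s(fpt a, u) ∈ T).filter fun z => thA a z ≤ thA a y).card := by
  unfold dn
  rw [filter_filter]
  congr 1
  refine filter_congr fun u hu => ?_
  rw [h.mem_spl_P (deg_mem_W hu)]
  constructor
  · rintro ⟨h1, h2, h3⟩
    exact ⟨⟨h1, h2⟩, (deg_Lf_dn h1).1 h3⟩
  · rintro ⟨⟨h1, h2⟩, h3⟩
    exact ⟨h1, h2, (deg_Lf_dn h1).2 h3⟩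

open Classical in
theorem TH.up_spl_a' (h : TH W A a a') {T : Finset (Sym2 Pt)} {x y : Pt} :
    up W (spl W A a a' T x y) a' =
      ((W.filter fun u => 0 < u.2 ∧ s(fpt a, u) ∈ T).filter fun z => thA a x ≤ thA a z).card := by
  unfold up
  rw [filter_filter]
  congr 1
  refine filter_congr fun u hu => ?_
  rw [h.mem_spl_P' (deg_mem_W hu)]
  constructor
  · rintro ⟨h1, h2, h3⟩
    exact ⟨⟨h1, h2⟩, (deg_Rg_up h1).1 h3⟩
  · rintro ⟨⟨h1, h2⟩, h3⟩
    exact ⟨h1, h2, (deg_Rg_up h1).2 h3⟩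

open Classical in
theorem TH.dn_spl_a' (h : TH W A a a') {T : Finset (Sym2 Pt)} {x y : Pt} :
    dn W (spl W A a a' T x y) a' =
      ((W.filter fun u => u.2 < 0 ∧ s(fpt a, u) ∈ T).filter fun z => thA a y ≤ thA a z).card := by
  unfold dn
  rw [filter_filter]
  congr 1
  refine filter_congr fun u hu => ?_
  rw [h.mem_spl_P' (deg_mem_W hu)]
  constructor
  · rintro ⟨h1, h2, h3⟩
    exact ⟨⟨h1, h2⟩, (deg_Rg_dn h1).1 h3⟩
  · rintro ⟨⟨h1, h2⟩, h3⟩
    exact ⟨h1, h2, (deg_Rg_dn h1).2 h3⟩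

end Pool.Agent.TRI
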