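import Mathlib

namespace Pool.Agent.TRI

/-- a segment from a point inside the triangle `s, t >= 0`, `s + t <= 1` to a point outside, on
the side of the first basis vector of the line through `0` and the starting point, leaves the
triangle through the side `t = 0` or through the side `s + t = 1` -/
theorem exit_param {s0 t0 sg tg sw tw : ℝ} (ht0 : 0 < t0) (hst0 : s0 + t0 < 1)
    (htw : 0 < tw) (hsw : 0 ≤ sw) (hφ0 : s0 * tw = t0 * sw) (hφ : tg * sw < sg * tw)
    (hout : tg < 0 ∨ 1 < sg + tg) :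
    ∃ μ : ℝ, 0 < μ ∧ μ < 1 ∧
      ((t0 + μ * (tg - t0) = 0 ∧ 0 < s0 + μ * (sg - s0) ∧ s0 + μ * (sg - s0) ≤ 1) ∨
        ((s0 + μ * (sg - s0)) + (t0 + μ * (tg - t0)) = 1 ∧ 0 < s0 + μ * (sg - s0) ∧
          0 < t0 + μ * (tg - t0))) := by
  -- positivity of the first coordinate as long as the second one is nonnegative
  have hs : ∀ μ : ℝ, 0 < μ → 0 ≤ t0 + μ * (tg - t0) → 0 < s0 + μ * (sg - s0) := by
    intro μ hμ ht
    have h1 : (s0 + μ * (sg - s0)) * tw =
        (t0 + μ * (tg - t0)) * sw + μ * (sg * tw - tg * sw) := by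
      linear_combination (1 - μ) * hφ0
    have h2 : 0 < (s0 + μ * (sg - s0)) * tw := by
      rw [h1]
      have h3 : 0 < μ * (sg * tw - tg * sw) := mul_pos hμ (by linarith)
      have h4 : 0 ≤ (t0 + μ * (tg - t0)) * sw := mul_nonneg ht hsw
      linarith
    exact (mul_pos_iff_of_pos_right htw).mp h2
  -- the exit through the side `s + t = 1`
  have hsum : ∀ ν : ℝ, 0 < ν → ν ≤ 1 → 0 ≤ t0 + ν * (tg - t0) →
      1 < (s0 + ν * (sg - s0)) + (t0 + ν * (tg - t0)) →
      ∃ μ : ℝ, 0 < μ ∧ μ < 1 ∧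
        ((s0 + μ * (sg - s0)) + (t0 + μ * (tg - t0)) = 1 ∧ 0 < s0 + μ * (sg - s0) ∧
          0 < t0 + μ * (tg - t0)) := by
    intro ν hν hν1 htν hσ
    have h1 : 1 - (s0 + t0) < ν * ((sg + tg) - (s0 + t0)) := by linarith
    have h2 : 0 < (sg + tg) - (s0 + t0) := by
      by_contra hc
      push Not at hc
      have := mul_nonpos_of_nonneg_of_nonpos hν.le hc
      linarith
    have h3 : (1 - (s0 + t0)) / ((sg + tg) - (s0 + t0)) < ν := by
      rw [div_lt_iff₀ h2]
      exact h1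
    have h4 : 0 < (1 - (s0 + t0)) / ((sg + tg) - (s0 + t0)) := div_pos (by linarith) h2
    set μ := (1 - (s0 + t0)) / ((sg + tg) - (s0 + t0)) with hμ
    have h5 : μ * ((sg + tg) - (s0 + t0)) = 1 - (s0 + t0) := by
      rw [hμ]
      field_simp
    have h6 : 0 < t0 + μ * (tg - t0) := by
      -- convex combination of `t0 > 0` and the value at `ν`
      have h7 : ν * (t0 + μ * (tg - t0)) = (ν - μ) * t0 + μ * (t0 + ν * (tg - t0)) := by ring
      have h8 : 0 < ν * (t0 + μ * (tg - t0)) := by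
        rw [h7]
        have := mul_pos (sub_pos.mpr h3) ht0
        have := mul_nonneg h4.le htν
        linarith
      exact (mul_pos_iff_of_pos_left hν).mp h8
    refine ⟨μ, h4, lt_of_lt_of_le h3 hν1, ?_, hs μ h4 h6.le, h6⟩
    linarith
  rcases lt_or_ge tg 0 with htg | htg
  · have hd : 0 < t0 - tg := by linarith
    have hμ0 : 0 < t0 / (t0 - tg) := div_pos ht0 hd
    have hμ1 : t0 / (t0 - tg) < 1 := by
      rw [div_lt_one hd]
      linarith
    have hz : t0 + t0 / (t0 - tg) * (tg - t0) = 0 := by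
      field_simp
      ring
    have hs1 := hs _ hμ0 hz.ge
    rcases le_or_gt (s0 + t0 / (t0 - tg) * (sg - s0)) 1 with h | h
    · exact ⟨t0 / (t0 - tg), hμ0, hμ1, Or.inl ⟨hz, hs1, h⟩⟩
    · obtain ⟨μ, h1, h2, h3⟩ := hsum (t0 / (t0 - tg)) hμ0 hμ1.le hz.ge (by
        rw [hz]
        linarith)
      exact ⟨μ, h1, h2, Or.inr h3⟩
  · have h1 : 1 < sg + tg := by
      rcases hout with h | h
      · linarith
      · exact h
    obtain ⟨μ, h1, h2, h3⟩ := hsum 1 one_pos le_rfl (by linarith) (by linarith)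
    exact ⟨μ, h1, h2, Or.inr h3⟩

end Pool.Agent.TRI
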