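import Pool.Agent.TRI.A_Defs

/-!
Area A: points and classification of segments in the twin situation.
-/

namespace Pool.Agent.TRI

open Finset

variable {W : Finset Pt} {A : Finset ℝ} {a a' : ℝ}

private theorem fpt_inj {b c : ℝ} (h : fpt b = fpt c) : b = c := congrArg Prod.fst h

theorem mem_setWA {z : Pt} : z ∈ setWA W A ↔ z ∈ W ∨ ∃ b ∈ A, z = fpt b := by
  classical
  unfold setWA
  rw [mem_union, mem_image]
  constructor
  · rintro (h | ⟨b, hb, h⟩)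
    · exact Or.inl h
    · exact Or.inr ⟨b, hb, h.symm⟩
  · rintro (h | ⟨b, hb, h⟩)
    · exact Or.inl h
    · exact Or.inr ⟨b, hb, h.symm⟩

theorem mem_S0 {z : Pt} : z ∈ S0 W A a ↔ z ∈ W ∨ ∃ b ∈ A, b ≠ a ∧ z = fpt b := by
  unfold S0
  rw [mem_setWA]
  constructor
  · rintro (h | ⟨b, hb, h⟩)
    · exact Or.inl h
    · rw [mem_erase] at hb
      exact Or.inr ⟨b, hb.2, hb.1, h⟩
  · rintro (h | ⟨b, hb, hba, h⟩)
    · exact Or.inl h
    · exact Or.inr ⟨b, mem_erase.2 ⟨hba, hb⟩, h⟩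

theorem TH.notMem (h : TH W A a a') : a' ∉ A := by
  intro hm
  have h1 := h.haa
  rcases h.hA a' hm with h2 | h2 <;> linarith

theorem TH.mem_S (h : TH W A a a') {z : Pt} :
    z ∈ setWA W A ↔ z = fpt a ∨ z ∈ S0 W A a := by
  rw [mem_setWA, mem_S0]
  constructor
  · rintro (hz | ⟨b, hb, hz⟩)
    · exact Or.inr (Or.inl hz)
    · by_cases hba : b = a
      · rw [hba] at hz; exact Or.inl hz
      · exact Or.inr (Or.inr ⟨b, hb, hba, hz⟩)
  · rintro (hz | hz | ⟨b, hb, _, hz⟩)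
    · exact Or.inr ⟨a, h.ha, hz⟩
    · exact Or.inl hz
    · exact Or.inr ⟨b, hb, hz⟩

theorem TH.mem_S' (h : TH W A a a') {z : Pt} :
    z ∈ setWA W (insert a' A) ↔ z = fpt a' ∨ z = fpt a ∨ z ∈ S0 W A a := by
  rw [← h.mem_S, mem_setWA, mem_setWA]
  constructor
  · rintro (hz | ⟨b, hb, hz⟩)
    · exact Or.inr (Or.inl hz)
    · rcases mem_insert.1 hb with hb' | hb'
      · rw [hb'] at hz; exact Or.inl hz
      · exact Or.inr (Or.inr ⟨b, hb', hz⟩)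
  · rintro (hz | hz | ⟨b, hb, hz⟩)
    · exact Or.inr ⟨a', mem_insert_self _ _, hz⟩
    · exact Or.inl hz
    · exact Or.inr ⟨b, mem_insert_of_mem hb, hz⟩

theorem TH.ne_P (h : TH W A a a') {z : Pt} (hz : z ∈ S0 W A a) : z ≠ fpt a := by
  rintro rfl
  rcases mem_S0.1 hz with hz | ⟨b, _, hba, hz⟩
  · exact h.hW _ hz rfl
  · exact hba (fpt_inj hz).symm

theorem TH.ne_P' (h : TH W A a a') {z : Pt} (hz : z ∈ S0 W A a) : z ≠ fpt a' := by
  rintro rfl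
  rcases mem_S0.1 hz with hz | ⟨b, hb, _, hz⟩
  · exact h.hW _ hz rfl
  · rw [← fpt_inj hz] at hb
    exact h.notMem hb

theorem TH.PP' (h : TH W A a a') : fpt a ≠ fpt a' := by
  intro he
  exact h.haa.ne (fpt_inj he)

theorem TH.seg_cases (h : TH W A a a') {e : Sym2 Pt} (he : IsSeg (setWA W A) e) :
    (∃ p ∈ S0 W A a, ∃ q ∈ S0 W A a, e = s(p, q)) ∨ ∃ z ∈ S0 W A a, e = s(fpt a, z) := by
  induction e using Sym2.ind with
  | _ p q =>
    obtain ⟨hne, hp, hq, _⟩ := isSeg_mk.1 he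
    rcases h.mem_S.1 hp with hp | hp <;> rcases h.mem_S.1 hq with hq | hq
    · exact absurd (hp.trans hq.symm) hne
    · exact Or.inr ⟨q, hq, by rw [hp]⟩
    · exact Or.inr ⟨p, hp, by rw [hq, Sym2.eq_swap]⟩
    · exact Or.inl ⟨p, hp, q, hq, rfl⟩

theorem TH.seg_cases' (h : TH W A a a') {e : Sym2 Pt} (he : IsSeg (setWA W (insert a' A)) e) :
    e = s(fpt a, fpt a') ∨ (∃ p ∈ S0 W A a, ∃ q ∈ S0 W A a, e = s(p, q)) ∨
      (∃ z ∈ S0 W A a, e = s(fpt a, z)) ∨ ∃ z ∈ S0 W A a, e = s(fpt a', z) := by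
  induction e using Sym2.ind with
  | _ p q =>
    obtain ⟨hne, hp, hq, _⟩ := isSeg_mk.1 he
    rcases h.mem_S'.1 hp with hp | hp | hp <;> rcases h.mem_S'.1 hq with hq | hq | hq
    · exact absurd (hp.trans hq.symm) hne
    · exact Or.inl (by rw [hp, hq, Sym2.eq_swap])
    · exact Or.inr (Or.inr (Or.inr ⟨q, hq, by rw [hp]⟩))
    · exact Or.inl (by rw [hp, hq])
    · exact absurd (hp.trans hq.symm) hne
    · exact Or.inr (Or.inr (Or.inl ⟨q, hq, by rw [hp]⟩))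
    · exact Or.inr (Or.inr (Or.inr ⟨p, hp, by rw [hq, Sym2.eq_swap]⟩))
    · exact Or.inr (Or.inr (Or.inl ⟨p, hp, by rw [hq, Sym2.eq_swap]⟩))
    · exact Or.inr (Or.inl ⟨p, hp, q, hq, rfl⟩)

end Pool.Agent.TRI
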