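import Pool.Agent.TRI.A_F1

/-!
Area A: the sign lemma.
-/

namespace Pool.Agent.TRI

open Finset

variable {W : Finset Pt} {A : Finset ℝ} {a a' : ℝ}

theorem A_F2_det_fpt_left (b c : ℝ) (q : Pt) : det (fpt b) q (fpt c) = -q.2 * (c - b) := by
  unfold det fpt; ring

theorem A_F2_det_fpt_right (b c : ℝ) (p : Pt) : det p (fpt b) (fpt c) = p.2 * (c - b) := by
  unfold det fpt; ring

theorem A_F2_affine (p q : Pt) (c : ℝ) :
    det p q (fpt c) = (-(q.1 - p.1) * p.2 + (q.2 - p.2) * p.1) + -(q.2 - p.2) * c := by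
  unfold det fpt; ring

theorem A_F2_sign_affine {α β a a' : ℝ} (haa : a < a')
    (h : ∀ c, a ≤ c → c ≤ a' → α + β * c ≠ 0) :
    SignType.sign (α + β * a) = SignType.sign (α + β * a') := by
  have h1 := h a le_rfl haa.le
  have h2 := h a' haa.le le_rfl
  rcases lt_or_gt_of_ne h1 with n1 | p1 <;> rcases lt_or_gt_of_ne h2 with n2 | p2
  · rw [sign_neg n1, sign_neg n2]
  · exfalso
    have hb : 0 < β := by
      by_contra hb
      nlinarith [not_lt.1 hb]
    refine h (-α / β) ?_ ?_ ?_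
    · rw [le_div_iff₀ hb]; nlinarith
    · rw [div_le_iff₀ hb]; nlinarith
    · field_simp; ring
  · exfalso
    have hb : β < 0 := by
      by_contra hb
      nlinarith [not_lt.1 hb]
    refine h (-α / β) ?_ ?_ ?_
    · rw [le_div_iff_of_neg hb]; nlinarith
    · rw [div_le_iff_of_neg hb]; nlinarith
    · have := hb.ne
      field_simp; ring
  · rw [sign_pos p1, sign_pos p2]

theorem A_F2_sign_sub (h : TH W A a a') {b : ℝ} (hb : b ∈ A) (hba : b ≠ a) :
    SignType.sign (a - b) = SignType.sign (a' - b) ∧ a - b ≠ 0 ∧ a' - b ≠ 0 := by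
  have haa := h.haa
  rcases h.hA b hb with h1 | h1
  · have h2 : b < a := lt_of_le_of_ne h1 hba
    refine ⟨?_, by linarith |> fun h : a - b > 0 => h.ne', by linarith |> fun h : a' - b > 0 => h.ne'⟩
    rw [sign_pos (by linarith), sign_pos (by linarith)]
  · refine ⟨?_, by linarith |> fun h : a - b < 0 => h.ne, by linarith |> fun h : a' - b < 0 => h.ne⟩
    rw [sign_neg (by linarith), sign_neg (by linarith)]

/-- F0: the sign lemma -/
theorem TH.sgn (h : TH W A a a') {p q : Pt} (hp : p ∈ S0 W A a) (hq : q ∈ S0 W A a) :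
    SignType.sign (det p q (fpt a)) = SignType.sign (det p q (fpt a')) := by
  rcases mem_S0.1 hp with hp | ⟨b, hb, hba, rfl⟩
  · rcases mem_S0.1 hq with hq | ⟨b, hb, hba, rfl⟩
    · by_cases hne : p = q
      · rw [hne, det_self_left, det_self_left]
      · rw [A_F2_affine, A_F2_affine]
        refine A_F2_sign_affine h.haa fun c h1 h2 => ?_
        rw [← A_F2_affine]
        exact h.hC p hp q hq hne c h1 h2
    · rw [A_F2_det_fpt_right, A_F2_det_fpt_right, sign_mul, sign_mul,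
        (A_F2_sign_sub h hb hba).1]
  · rw [A_F2_det_fpt_left, A_F2_det_fpt_left, sign_mul, sign_mul, (A_F2_sign_sub h hb hba).1]

/-- only axis points are collinear with `fpt a` -/
theorem TH.det_ne (h : TH W A a a') {p q : Pt} (hp : p ∈ S0 W A a) (hq : q ∈ S0 W A a)
    (hne : p ≠ q) (hax : ¬ (p.2 = 0 ∧ q.2 = 0)) :
    det p q (fpt a) ≠ 0 ∧ det p q (fpt a') ≠ 0 := by
  rcases mem_S0.1 hp with hp | ⟨b, hb, hba, rfl⟩
  · rcases mem_S0.1 hq with hq | ⟨b, hb, hba, rfl⟩
    · exact ⟨h.hC p hp q hq hne a le_rfl h.haa.le, h.hC p hp q hq hne a' h.haa.le le_rfl⟩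
    · rw [A_F2_det_fpt_right, A_F2_det_fpt_right]
      have hs := A_F2_sign_sub h hb hba
      exact ⟨mul_ne_zero (h.hW p hp) hs.2.1, mul_ne_zero (h.hW p hp) hs.2.2⟩
  · rw [A_F2_det_fpt_left, A_F2_det_fpt_left]
    have hs := A_F2_sign_sub h hb hba
    have hq2 : q.2 ≠ 0 := fun h0 => hax ⟨rfl, h0⟩
    exact ⟨mul_ne_zero (neg_ne_zero.2 hq2) hs.2.1, mul_ne_zero (neg_ne_zero.2 hq2) hs.2.2⟩

/-- F9 -/
theorem TH.th_inj (h : TH W A a a') {x y : Pt} (hx : x ∈ W) (hy : y ∈ W)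
    (hs : (0 < x.2 ∧ 0 < y.2) ∨ (x.2 < 0 ∧ y.2 < 0)) (he : thA a x = thA a y) : x = y := by
  by_contra hne
  have h1 := h.hC x hx y hy hne a le_rfl h.haa.le
  apply h1
  unfold thA at he
  unfold det fpt
  rcases hs with ⟨h2, h3⟩ | ⟨h2, h3⟩
  · rw [abs_of_pos h2, abs_of_pos h3, div_eq_div_iff h2.ne' h3.ne'] at he
    simp only
    linear_combination he
  · rw [abs_of_neg h2, abs_of_neg h3, div_eq_div_iff (neg_pos.2 h2).ne' (neg_pos.2 h3).ne'] at he
    simp only
    linear_combination -he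

end Pool.Agent.TRI
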