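import Pool.Agent.TRI.A_F2

/-!
Area A: admissible segments.
-/

namespace Pool.Agent.TRI

open Finset

variable {W : Finset Pt} {A : Finset ℝ} {a a' : ℝ}

private theorem ax_mem {b c d : ℝ} (h1 : b < c) (h2 : c < d) :
    fpt c ∈ openSegment ℝ (fpt b) (fpt d) := by
  have hbd : 0 < d - b := by linarith
  rw [mem_openSegment_iff]
  refine ⟨(c - b) / (d - b), div_pos (by linarith) hbd, ?_, ?_, ?_⟩
  · rw [div_lt_one hbd]; linarith
  · simp only [fpt]
    field_simp
    ring
  · simp [fpt]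

private theorem ax_mem' {b c d : ℝ} (h1 : b < c) (h2 : c < d) :
    fpt c ∈ openSegment ℝ (fpt d) (fpt b) := by
  rw [openSegment_symm]; exact ax_mem h1 h2

private theorem ax_of_mem {b c d : ℝ} (h : fpt c ∈ openSegment ℝ (fpt b) (fpt d)) (hbd : b < d) :
    b < c ∧ c < d := by
  obtain ⟨t, h0, h1, hx, _⟩ := mem_openSegment_iff.1 h
  simp only [fpt] at hx
  constructor
  · nlinarith
  · nlinarith

private theorem ax_of_S0 (h : TH W A a a') {z : Pt} (hz : z ∈ S0 W A a) (h0 : z.2 = 0) :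
    ∃ b ∈ A, b ≠ a ∧ z = fpt b := by
  rcases mem_S0.1 hz with hz | hz
  · exact absurd h0 (h.hW z hz)
  · exact hz

/-- F1 -/
theorem TH.isSeg_common (h : TH W A a a') {p q : Pt} (hp : p ∈ S0 W A a) (hq : q ∈ S0 W A a) :
    IsSeg (setWA W (insert a' A)) s(p, q) ↔ IsSeg (setWA W A) s(p, q) := by
  rw [isSeg_mk, isSeg_mk]
  constructor
  · rintro ⟨h1, _, _, h4⟩
    refine ⟨h1, h.mem_S.2 (Or.inr hp), h.mem_S.2 (Or.inr hq), fun x hx => h4 x ?_⟩
    exact h.mem_S'.2 (Or.inr (h.mem_S.1 hx))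
  · rintro ⟨h1, _, _, h4⟩
    refine ⟨h1, h.mem_S'.2 (Or.inr (Or.inr hp)), h.mem_S'.2 (Or.inr (Or.inr hq)),
      fun x hx => ?_⟩
    rcases h.mem_S'.1 hx with rfl | hx
    · intro hm
      by_cases hax : p.2 = 0 ∧ q.2 = 0
      · obtain ⟨b, hb, hba, rfl⟩ := ax_of_S0 h hp hax.1
        obtain ⟨c, hc, hca, rfl⟩ := ax_of_S0 h hq hax.2
        have hbc : b ≠ c := fun e => h1 (by rw [e])
        have hPS : fpt a ∈ setWA W A := h.mem_S.2 (Or.inl rfl)
        have haa := h.haa
        rcases lt_or_gt_of_ne hbc with hlt | hlt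
        · obtain ⟨h5, h6⟩ := ax_of_mem hm hlt
          have h7 : b < a := by
            rcases h.hA b hb with h7 | h7
            · exact lt_of_le_of_ne h7 hba
            · linarith
          exact h4 _ hPS (ax_mem h7 (by linarith))
        · rw [openSegment_symm] at hm
          obtain ⟨h5, h6⟩ := ax_of_mem hm hlt
          have h7 : c < a := by
            rcases h.hA c hc with h7 | h7
            · exact lt_of_le_of_ne h7 hca
            · linarith
          exact h4 _ hPS (ax_mem' h7 (by linarith))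
      · exact (h.det_ne hp hq h1 hax).2 (det_of_mem hm)
    · exact h4 x (h.mem_S.2 hx)

/-- F2 -/
theorem TH.isSeg_P (h : TH W A a a') {z : Pt} (hz : z ∈ S0 W A a) :
    IsSeg (setWA W (insert a' A)) s(fpt a, z) ↔
      IsSeg (setWA W A) s(fpt a, z) ∧ ¬ (z.2 = 0 ∧ a < z.1) := by
  rw [isSeg_mk, isSeg_mk]
  constructor
  · rintro ⟨h1, _, _, h4⟩
    refine ⟨⟨h1, h.mem_S.2 (Or.inl rfl), h.mem_S.2 (Or.inr hz), fun x hx => h4 x ?_⟩, ?_⟩
    · exact h.mem_S'.2 (Or.inr (h.mem_S.1 hx))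
    · rintro ⟨h5, h6⟩
      obtain ⟨b, hb, hba, rfl⟩ := ax_of_S0 h hz h5
      have h6' : a < b := h6
      have h7 : a' < b := by
        rcases h.hA b hb with h7 | h7
        · linarith
        · exact h7
      exact h4 (fpt a') (h.mem_S'.2 (Or.inl rfl)) (ax_mem h.haa h7)
  · rintro ⟨⟨h1, _, _, h4⟩, h5⟩
    refine ⟨h1, h.mem_S'.2 (Or.inr (Or.inl rfl)), h.mem_S'.2 (Or.inr (Or.inr hz)),
      fun x hx => ?_⟩
    rcases h.mem_S'.1 hx with rfl | hx
    · intro hm
      obtain ⟨t, h0, _, hx1, hx2⟩ := mem_openSegment_iff.1 hm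
      simp only [fpt, mul_zero, zero_add] at hx1 hx2
      have h6 : z.2 = 0 := by
        rcases mul_eq_zero.1 hx2.symm with h6 | h6
        · exact absurd h6 h0.ne'
        · exact h6
      refine h5 ⟨h6, ?_⟩
      have haa := h.haa
      by_contra hcon
      have h7 : t * (z.1 - a) ≤ 0 :=
        mul_nonpos_of_nonneg_of_nonpos h0.le (by linarith [not_lt.1 hcon])
      nlinarith
    · exact h4 x (h.mem_S.2 hx)

/-- F3 -/
theorem TH.isSeg_P' (h : TH W A a a') {z : Pt} (hz : z ∈ S0 W A a) :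
    IsSeg (setWA W (insert a' A)) s(fpt a', z) ↔
      IsSeg (setWA W A) s(fpt a, z) ∧ ¬ (z.2 = 0 ∧ z.1 < a) := by
  rw [isSeg_mk, isSeg_mk]
  have haa := h.haa
  constructor
  · rintro ⟨h1, _, _, h4⟩
    have h5 : ¬ (z.2 = 0 ∧ z.1 < a) := by
      rintro ⟨h5, h6⟩
      obtain ⟨b, hb, hba, rfl⟩ := ax_of_S0 h hz h5
      have h6' : b < a := h6
      exact h4 (fpt a) (h.mem_S'.2 (Or.inr (Or.inl rfl))) (ax_mem' h6' haa)
    refine ⟨⟨(h.ne_P hz).symm, h.mem_S.2 (Or.inl rfl), h.mem_S.2 (Or.inr hz), fun x hx => ?_⟩, h5⟩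
    rcases h.mem_S.1 hx with rfl | hx
    · intro hm
      exact h.ne_P hz (left_mem_openSegment_iff.1 hm).symm
    · intro hm
      have hzx : z ≠ x := by
        rintro rfl
        exact h.ne_P hz (right_mem_openSegment_iff.1 hm).symm
      have hd : det z x (fpt a) = 0 := by rw [← det_rot]; exact det_of_mem hm
      by_cases hax : z.2 = 0 ∧ x.2 = 0
      · obtain ⟨b, hb, hba, rfl⟩ := ax_of_S0 h hz hax.1
        obtain ⟨c, hc, hca, rfl⟩ := ax_of_S0 h hx hax.2
        have hab : a < b := by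
          rcases lt_or_gt_of_ne hba with h6 | h6
          · exact absurd ⟨rfl, h6⟩ h5
          · exact h6
        obtain ⟨h6, h7⟩ := ax_of_mem hm hab
        have h8 : a' < c := by
          rcases h.hA c hc with h8 | h8
          · linarith
          · exact h8
        exact h4 _ (h.mem_S'.2 (Or.inr (Or.inr hx))) (ax_mem h8 h7)
      · exact (h.det_ne hz hx hzx hax).1 hd
  · rintro ⟨⟨h1, _, _, h4⟩, h5⟩
    refine ⟨(h.ne_P' hz).symm, h.mem_S'.2 (Or.inl rfl), h.mem_S'.2 (Or.inr (Or.inr hz)),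
      fun x hx => ?_⟩
    rcases h.mem_S'.1 hx with rfl | rfl | hx
    · intro hm
      exact h.ne_P' hz (left_mem_openSegment_iff.1 hm).symm
    · intro hm
      obtain ⟨t, h0, ht1, hx1, hx2⟩ := mem_openSegment_iff.1 hm
      simp only [fpt, mul_zero, zero_add] at hx1 hx2
      have h6 : z.2 = 0 := by
        rcases mul_eq_zero.1 hx2.symm with h6 | h6
        · exact absurd h6 h0.ne'
        · exact h6
      refine h5 ⟨h6, ?_⟩
      by_contra hcon
      have h7 : 0 ≤ t * (z.1 - a) := mul_nonneg h0.le (by linarith [not_lt.1 hcon])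
      have h8 : 0 < (1 - t) * (a' - a) := mul_pos (by linarith) (by linarith)
      nlinarith
    · intro hm
      have hzx : z ≠ x := by
        rintro rfl
        exact h.ne_P' hz (right_mem_openSegment_iff.1 hm).symm
      have hd : det z x (fpt a') = 0 := by rw [← det_rot]; exact det_of_mem hm
      by_cases hax : z.2 = 0 ∧ x.2 = 0
      · obtain ⟨b, hb, hba, rfl⟩ := ax_of_S0 h hz hax.1
        obtain ⟨c, hc, hca, rfl⟩ := ax_of_S0 h hx hax.2
        have hab : a < b := by
          rcases lt_or_gt_of_ne hba with h6 | h6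
          · exact absurd ⟨rfl, h6⟩ h5
          · exact h6
        have hab' : a' < b := by
          rcases h.hA b hb with h6 | h6
          · linarith
          · exact h6
        obtain ⟨h6, h7⟩ := ax_of_mem hm hab'
        exact h4 _ (h.mem_S.2 (Or.inr hx)) (ax_mem (by linarith) h7)
      · exact (h.det_ne hz hx hzx hax).2 hd

/-- F4 -/
theorem TH.isSeg_PP' (h : TH W A a a') :
    IsSeg (setWA W (insert a' A)) s(fpt a, fpt a') := by
  rw [isSeg_mk]
  refine ⟨h.PP', h.mem_S'.2 (Or.inr (Or.inl rfl)), h.mem_S'.2 (Or.inl rfl), fun x hx => ?_⟩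
  rcases h.mem_S'.1 hx with rfl | rfl | hx
  · intro hm
    exact h.PP' (right_mem_openSegment_iff.1 hm)
  · intro hm
    exact h.PP' (left_mem_openSegment_iff.1 hm)
  · intro hm
    have hx2 : x.2 = 0 := by
      obtain ⟨t, _, _, _, hx2⟩ := mem_openSegment_iff.1 hm
      simpa [fpt] using hx2
    obtain ⟨c, hc, hca, rfl⟩ := ax_of_S0 h hx hx2
    obtain ⟨h6, h7⟩ := ax_of_mem hm h.haa
    rcases h.hA c hc with h8 | h8 <;> linarith

end Pool.Agent.TRI
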