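import Pool.Agent.TRI.A_F3

/-!
Area A: crossings.
-/

namespace Pool.Agent.TRI

open Finset

variable {W : Finset Pt} {A : Finset ℝ} {a a' : ℝ}

theorem A_F4_mul_neg_iff {x y : ℝ} :
    x * y < 0 ↔ SignType.sign x * SignType.sign y = -1 := by
  rw [← sign_mul, sign_eq_neg_one_iff]

theorem A_F4_sign_mul_nonneg {x y : ℝ} (h : SignType.sign x = SignType.sign y) :
    ¬ (x * y < 0) := by
  intro h1
  rcases mul_neg_iff.1 h1 with ⟨h2, h3⟩ | ⟨h2, h3⟩
  · rw [sign_pos h2, sign_neg h3] at h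
    exact absurd h (by decide)
  · rw [sign_neg h2, sign_pos h3] at h
    exact absurd h (by decide)

theorem A_F4_neg_congr {x x' y y' : ℝ} (hx : SignType.sign x = SignType.sign x')
    (hy : SignType.sign y = SignType.sign y') : x * y < 0 ↔ x' * y' < 0 := by
  rw [A_F4_mul_neg_iff, A_F4_mul_neg_iff, hx, hy]

/-- F5 -/
theorem TH.disj_PP' (h : TH W A a a') {e : Sym2 Pt} (he : IsSeg (setWA W (insert a' A)) e)
    (hne : e ≠ s(fpt a, fpt a')) : Disjoint (seg e) (seg s(fpt a, fpt a')) := by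
  by_contra hd
  rcases h.seg_cases' he with h1 | ⟨p, hp, q, hq, rfl⟩ | ⟨z, hz, rfl⟩ | ⟨z, hz, rfl⟩
  · exact hne h1
  · have h2 := (cross_iff he h.isSeg_PP' hne).1 hd
    exact A_F4_sign_mul_nonneg (h.sgn hp hq) h2.1
  · have h2 := (cross_iff he h.isSeg_PP' hne).1 hd
    rw [det_self_mid, zero_mul] at h2
    exact lt_irrefl _ h2.1
  · have h2 := (cross_iff he h.isSeg_PP' hne).1 hd
    rw [det_self_mid, mul_zero] at h2
    exact lt_irrefl _ h2.1

/-- F6 -/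
theorem disj_spokes {S : Finset Pt} {P z z' : Pt} (h1 : IsSeg S s(P, z)) (h2 : IsSeg S s(P, z'))
    (hne : z ≠ z') : Disjoint (seg s(P, z)) (seg s(P, z')) := by
  by_contra hd
  have h3 : s(P, z) ≠ s(P, z') := by
    intro h
    rcases Sym2.eq_iff.1 h with ⟨_, h4⟩ | ⟨h4, h5⟩
    · exact hne h4
    · exact hne (h5.trans h4)
  have h4 := (cross_iff h1 h2 h3).1 hd
  rw [det_self_mid, zero_mul] at h4
  exact lt_irrefl _ h4.1

theorem A_F4_spoke_ne {P z p q : Pt} (h1 : P ≠ p) (h2 : P ≠ q) : s(P, z) ≠ s(p, q) := by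
  intro h
  rcases Sym2.eq_iff.1 h with ⟨h3, _⟩ | ⟨h3, _⟩
  · exact h1 h3
  · exact h2 h3

/-- F7 -/
theorem TH.disj_iff (h : TH W A a a') {z p q : Pt} (hz : z ∈ S0 W A a) (hp : p ∈ S0 W A a)
    (hq : q ∈ S0 W A a) (h1 : IsSeg (setWA W A) s(fpt a, z))
    (h2 : IsSeg (setWA W (insert a' A)) s(fpt a', z)) (h3 : IsSeg (setWA W A) s(p, q)) :
    Disjoint (seg s(fpt a', z)) (seg s(p, q)) ↔ Disjoint (seg s(fpt a, z)) (seg s(p, q)) := by
  have h4 := (h.isSeg_common hp hq).2 h3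
  rw [← not_iff_not, cross_iff h2 h4 (A_F4_spoke_ne (h.ne_P' hp).symm (h.ne_P' hq).symm),
    cross_iff h1 h3 (A_F4_spoke_ne (h.ne_P hp).symm (h.ne_P hq).symm)]
  rw [det_rot (fpt a') z p, det_rot (fpt a') z q, det_rot (fpt a) z p, det_rot (fpt a) z q]
  rw [A_F4_neg_congr (h.sgn hz hp).symm (h.sgn hz hq).symm,
    A_F4_neg_congr (h.sgn hp hq).symm (rfl : SignType.sign (det p q z) = _)]

theorem A_F4_th_lt (a : ℝ) {x y : Pt} (hx : x.2 ≠ 0) (hy : y.2 ≠ 0) :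
    thA a y < thA a x ↔ (y.1 - a) * |x.2| < (x.1 - a) * |y.2| := by
  unfold thA
  rw [div_lt_div_iff₀ (abs_pos.2 hy) (abs_pos.2 hx)]

theorem A_F4_alg (a : ℝ) {x y : Pt} :
    (0 < x.2 * det (fpt a) x y ∧ 0 < y.2 * det (fpt a) x y) ↔
      ((0 < x.2 ∧ 0 < y.2) ∨ (x.2 < 0 ∧ y.2 < 0)) ∧ thA a y < thA a x := by
  have e : det (fpt a) x y = (x.1 - a) * y.2 - x.2 * (y.1 - a) := by
    unfold det fpt; ring
  constructor
  · rintro ⟨h1, h2⟩
    rcases mul_pos_iff.1 h1 with ⟨h3, h4⟩ | ⟨h3, h4⟩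
    · have h5 : 0 < y.2 := by
        rcases mul_pos_iff.1 h2 with ⟨h5, _⟩ | ⟨_, h5⟩
        · exact h5
        · exact absurd h5 (not_lt.2 h4.le)
      refine ⟨Or.inl ⟨h3, h5⟩, ?_⟩
      rw [A_F4_th_lt a h3.ne' h5.ne', abs_of_pos h3, abs_of_pos h5]
      rw [e] at h4
      linarith
    · have h5 : y.2 < 0 := by
        rcases mul_pos_iff.1 h2 with ⟨_, h5⟩ | ⟨h5, _⟩
        · exact absurd h4 (not_lt.2 h5.le)
        · exact h5
      refine ⟨Or.inr ⟨h3, h5⟩, ?_⟩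
      rw [A_F4_th_lt a h3.ne h5.ne, abs_of_neg h3, abs_of_neg h5]
      rw [e] at h4
      linarith
  · rintro ⟨⟨h3, h5⟩ | ⟨h3, h5⟩, h6⟩
    · rw [A_F4_th_lt a h3.ne' h5.ne', abs_of_pos h3, abs_of_pos h5] at h6
      have h7 : 0 < det (fpt a) x y := by rw [e]; linarith
      exact ⟨mul_pos h3 h7, mul_pos h5 h7⟩
    · rw [A_F4_th_lt a h3.ne h5.ne, abs_of_neg h3, abs_of_neg h5] at h6
      have h7 : det (fpt a) x y < 0 := by rw [e]; linarith
      exact ⟨mul_pos_of_neg_of_neg h3 h7, mul_pos_of_neg_of_neg h5 h7⟩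

/-- F8 -/
theorem TH.cross_spokes (h : TH W A a a') {x y : Pt} (hx : x ∈ S0 W A a) (hy : y ∈ S0 W A a)
    (h1 : IsSeg (setWA W (insert a' A)) s(fpt a, x))
    (h2 : IsSeg (setWA W (insert a' A)) s(fpt a', y)) :
    ¬ Disjoint (seg s(fpt a, x)) (seg s(fpt a', y)) ↔
      ((0 < x.2 ∧ 0 < y.2) ∨ (x.2 < 0 ∧ y.2 < 0)) ∧ thA a y < thA a x := by
  rw [cross_iff h1 h2 (A_F4_spoke_ne h.PP' (h.ne_P hy).symm), ← A_F4_alg]
  have haa := sub_pos.2 h.haa
  have e1 : det (fpt a) x (fpt a') * det (fpt a) x y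
      = -((a' - a) * (x.2 * det (fpt a) x y)) := by
    unfold det fpt; ring
  have e2 : det (fpt a') y (fpt a) = (a' - a) * y.2 := by
    unfold det fpt; ring
  have e3 : det (fpt a') y x = det y x (fpt a') := det_rot _ _ _
  have e4 : SignType.sign (det (fpt a') y x) = SignType.sign (-det (fpt a) x y) := by
    rw [e3, ← h.sgn hy hx]
    congr 1
    unfold det fpt; ring
  refine and_congr ?_ ?_
  · rw [e1, neg_lt_zero, mul_pos_iff_of_pos_left haa]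
  · rw [A_F4_neg_congr (x := det (fpt a') y (fpt a)) (x' := det (fpt a') y (fpt a)) rfl e4, e2]
    have e5 : (a' - a) * y.2 * -det (fpt a) x y = -((a' - a) * (y.2 * det (fpt a) x y)) := by
      ring
    rw [e5, neg_lt_zero, mul_pos_iff_of_pos_left haa]

end Pool.Agent.TRI
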