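import Pool.Agent.TRI.A_F4

/-!
Area A, facts F0 - F9 about segments and crossings in the twin situation.
-/
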