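import Pool.Agent.TRI.A_Nbr
import Pool.Agent.TRI.A_Clus

/-!
Area A is complete: `one_le_up`, `one_le_dn` (A_Nbr), `twin` (A_Twin), `cluster` (A_Clus).
-/
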