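import Pool.Agent.TRI.A_Con

namespace Pool.Agent.TRI

open Finset

variable {W : Finset Pt} {A : Finset ℝ} {a a' : ℝ}

private theorem st_mem_S0 {z : Pt} (hz : z ∈ W) : z ∈ S0 W A a := mem_S0.2 (Or.inl hz)

private theorem st_ne_P (h : TH W A a a') {z p q : Pt} (hp : p ∈ S0 W A a)
    (hq : q ∈ S0 W A a) : s(fpt a, z) ≠ s(p, q) := by
  intro he
  rcases Sym2.eq_iff.1 he with ⟨h1, _⟩ | ⟨h1, _⟩
  · exact h.ne_P hp h1.symm
  · exact h.ne_P hq h1.symm

private theorem st_ne_P' (h : TH W A a a') {z p q : Pt} (hp : p ∈ S0 W A a)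
    (hq : q ∈ S0 W A a) : s(fpt a', z) ≠ s(p, q) := by
  intro he
  rcases Sym2.eq_iff.1 he with ⟨h1, _⟩ | ⟨h1, _⟩
  · exact h.ne_P' hp h1.symm
  · exact h.ne_P' hq h1.symm

private theorem st_ne_spokes (h : TH W A a a') {z w : Pt} (hz : z ∈ S0 W A a) :
    s(fpt a, z) ≠ s(fpt a', w) := by
  intro he
  rcases Sym2.eq_iff.1 he with ⟨h1, _⟩ | ⟨_, h1⟩
  · exact h.PP' h1
  · exact h.ne_P' hz h1

private theorem st_not_right {x y z : Pt} (hl : Lf a x y z) : ¬ (z.2 = 0 ∧ a < z.1) := by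
  rintro ⟨h1, h2⟩
  rcases hl with ⟨h3, _⟩ | ⟨h3, _⟩ | ⟨_, h3⟩
  · exact absurd h1 h3.ne'
  · exact absurd h1 h3.ne
  · exact lt_asymm h2 h3

private theorem st_not_left {x y z : Pt} (hr : Rg a x y z) : ¬ (z.2 = 0 ∧ z.1 < a) := by
  rintro ⟨h1, h2⟩
  rcases hr with ⟨h3, _⟩ | ⟨h3, _⟩ | ⟨_, h3⟩
  · exact absurd h1 h3.ne'
  · exact absurd h1 h3.ne
  · exact lt_asymm h2 h3

private theorem st_total (h : TH W A a a') {x y z : Pt} (hz : z ∈ S0 W A a) :
    Lf a x y z ∨ Rg a x y z := by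
  rcases lt_trichotomy z.2 0 with h1 | h1 | h1
  · rcases le_total (thA a z) (thA a y) with h2 | h2
    · exact Or.inl (Or.inr (Or.inl ⟨h1, h2⟩))
    · exact Or.inr (Or.inr (Or.inl ⟨h1, h2⟩))
  · rcases lt_trichotomy z.1 a with h2 | h2 | h2
    · exact Or.inl (Or.inr (Or.inr ⟨h1, h2⟩))
    · exact absurd (Prod.ext h2 h1) (h.ne_P hz)
    · exact Or.inr (Or.inr (Or.inr ⟨h1, h2⟩))
  · rcases le_total (thA a z) (thA a x) with h2 | h2
    · exact Or.inl (Or.inl ⟨h1, h2⟩)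
    · exact Or.inr (Or.inl ⟨h1, h2⟩)

/-- the split of a triangulation is a triangulation -/
theorem TH.isTri_spl (h : TH W A a a') {T : Finset (Sym2 Pt)} (hT : IsTri (setWA W A) T)
    {x y : Pt} (hx : x ∈ W) (hx2 : 0 < x.2) (hxT : s(fpt a, x) ∈ T)
    (hy : y ∈ W) (hy2 : y.2 < 0) (hyT : s(fpt a, y) ∈ T) :
    IsTri (setWA W (insert a' A)) (spl W A a a' T x y) := by
  obtain ⟨hNC, hmax⟩ := isTri_iff.1 hT
  have hx0 : x ∈ S0 W A a := st_mem_S0 hx
  have hy0 : y ∈ S0 W A a := st_mem_S0 hy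
  have hxP : s(fpt a, x) ∈ spl W A a a' T x y :=
    (h.mem_spl_P hx0).2 ⟨hxT, Or.inl ⟨hx2, le_rfl⟩⟩
  have hxP' : s(fpt a', x) ∈ spl W A a a' T x y :=
    (h.mem_spl_P' hx0).2 ⟨hxT, Or.inl ⟨hx2, le_rfl⟩⟩
  have hyP : s(fpt a, y) ∈ spl W A a a' T x y :=
    (h.mem_spl_P hy0).2 ⟨hyT, Or.inr (Or.inl ⟨hy2, le_rfl⟩)⟩
  have hyP' : s(fpt a', y) ∈ spl W A a a' T x y :=
    (h.mem_spl_P' hy0).2 ⟨hyT, Or.inr (Or.inl ⟨hy2, le_rfl⟩)⟩
  -- admissibility
  have hseg : ∀ e ∈ spl W A a a' T x y, IsSeg (setWA W (insert a' A)) e := by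
    intro e he
    rcases h.spl_cases he with rfl | ⟨p, hp, q, hq, rfl⟩ | ⟨z, hz, rfl⟩ | ⟨z, hz, rfl⟩
    · exact h.isSeg_PP'
    · exact (h.isSeg_common hp hq).2 (hNC.1 _ ((h.mem_spl_common hp hq).1 he))
    · obtain ⟨h1, h2⟩ := (h.mem_spl_P hz).1 he
      exact (h.isSeg_P hz).2 ⟨hNC.1 _ h1, st_not_right h2⟩
    · obtain ⟨h1, h2⟩ := (h.mem_spl_P' hz).1 he
      exact (h.isSeg_P' hz).2 ⟨hNC.1 _ h1, st_not_left h2⟩
  -- a common segment and a spoke from `fpt a'`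
  have hcP' : ∀ p ∈ S0 W A a, ∀ q ∈ S0 W A a, ∀ z ∈ S0 W A a, s(p, q) ∈ T →
      s(fpt a', z) ∈ spl W A a a' T x y → Disjoint (seg s(fpt a', z)) (seg s(p, q)) := by
    intro p hp q hq z hz hpq hzs
    have h1 := ((h.mem_spl_P' hz).1 hzs).1
    exact (h.disj_iff hz hp hq (hNC.1 _ h1) (hseg _ hzs) (hNC.1 _ hpq)).2
      (hNC.2 _ h1 _ hpq (st_ne_P h hp hq))
  have hcP : ∀ p ∈ S0 W A a, ∀ q ∈ S0 W A a, ∀ z ∈ S0 W A a, s(p, q) ∈ T →
      s(fpt a, z) ∈ spl W A a a' T x y → Disjoint (seg s(fpt a, z)) (seg s(p, q)) := by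
    intro p hp q hq z hz hpq hzs
    exact hNC.2 _ ((h.mem_spl_P hz).1 hzs).1 _ hpq (st_ne_P h hp hq)
  have hPP : ∀ z ∈ S0 W A a, ∀ w ∈ S0 W A a, s(fpt a, z) ∈ spl W A a a' T x y →
      s(fpt a', w) ∈ spl W A a a' T x y →
      Disjoint (seg s(fpt a, z)) (seg s(fpt a', w)) := by
    intro z hz w hw h1 h2
    by_contra hd
    obtain ⟨hs, hlt⟩ := (h.cross_spokes hz hw (hseg _ h1) (hseg _ h2)).1 hd
    have h3 := ((h.mem_spl_P hz).1 h1).2
    have h4 := ((h.mem_spl_P' hw).1 h2).2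
    rcases hs with hs | hs
    · have h5 : thA a z ≤ thA a x := by
        rcases h3 with h3 | h3 | h3
        · exact h3.2
        · exact absurd (h3.1.trans hs.1) (lt_irrefl _)
        · exact absurd h3.1 hs.1.ne'
      have h6 : thA a x ≤ thA a w := by
        rcases h4 with h4 | h4 | h4
        · exact h4.2
        · exact absurd (h4.1.trans hs.2) (lt_irrefl _)
        · exact absurd h4.1 hs.2.ne'
      exact absurd (h5.trans h6) (not_le.2 hlt)
    · have h5 : thA a z ≤ thA a y := by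
        rcases h3 with h3 | h3 | h3
        · exact absurd (h3.1.trans hs.1) (lt_irrefl _)
        · exact h3.2
        · exact absurd h3.1 hs.1.ne
      have h6 : thA a y ≤ thA a w := by
        rcases h4 with h4 | h4 | h4
        · exact absurd (h4.1.trans hs.2) (lt_irrefl _)
        · exact h4.2
        · exact absurd h4.1 hs.2.ne
      exact absurd (h5.trans h6) (not_le.2 hlt)
  refine isTri_iff.2 ⟨⟨hseg, ?_⟩, ?_⟩
  · intro e he f hf hne
    rcases h.spl_cases he with rfl | ⟨p, hp, q, hq, rfl⟩ | ⟨z, hz, rfl⟩ | ⟨z, hz, rfl⟩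
    · exact (h.disj_PP' (hseg _ hf) hne.symm).symm
    · rcases h.spl_cases hf with rfl | ⟨p', hp', q', hq', rfl⟩ | ⟨w, hw, rfl⟩ | ⟨w, hw, rfl⟩
      · exact h.disj_PP' (hseg _ he) hne
      · exact hNC.2 _ ((h.mem_spl_common hp hq).1 he) _ ((h.mem_spl_common hp' hq').1 hf) hne
      · exact (hcP p hp q hq w hw ((h.mem_spl_common hp hq).1 he) hf).symm
      · exact (hcP' p hp q hq w hw ((h.mem_spl_common hp hq).1 he) hf).symm
    · rcases h.spl_cases hf with rfl | ⟨p', hp', q', hq', rfl⟩ | ⟨w, hw, rfl⟩ | ⟨w, hw, rfl⟩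
      · exact h.disj_PP' (hseg _ he) hne
      · exact hcP p' hp' q' hq' z hz ((h.mem_spl_common hp' hq').1 hf) he
      · refine disj_spokes (hseg _ he) (hseg _ hf) ?_
        rintro rfl
        exact hne rfl
      · exact hPP z hz w hw he hf
    · rcases h.spl_cases hf with rfl | ⟨p', hp', q', hq', rfl⟩ | ⟨w, hw, rfl⟩ | ⟨w, hw, rfl⟩
      · exact h.disj_PP' (hseg _ he) hne
      · exact hcP' p' hp' q' hq' z hz ((h.mem_spl_common hp' hq').1 hf) he
      · exact (hPP w hw z hz hf he).symm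
      · refine disj_spokes (hseg _ he) (hseg _ hf) ?_
        rintro rfl
        exact hne rfl
  · intro e he hd
    rcases h.seg_cases' he with rfl | ⟨p, hp, q, hq, rfl⟩ | ⟨z, hz, rfl⟩ | ⟨z, hz, rfl⟩
    · exact h.mem_spl_PP'
    · rw [h.mem_spl_common hp hq]
      have hpqS := (h.isSeg_common hp hq).1 he
      refine hmax _ hpqS fun f hf hne => ?_
      rcases h.seg_cases (hNC.1 f hf) with ⟨p', hp', q', hq', rfl⟩ | ⟨w, hw, rfl⟩
      · exact hd _ ((h.mem_spl_common hp' hq').2 hf) hne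
      · rcases st_total (x := x) (y := y) h hw with hl | hr
        · exact hd _ ((h.mem_spl_P hw).2 ⟨hf, hl⟩) hne
        · have h1 : s(fpt a', w) ∈ spl W A a a' T x y := (h.mem_spl_P' hw).2 ⟨hf, hr⟩
          exact ((h.disj_iff hw hp hq (hNC.1 _ hf) (hseg _ h1) hpqS).1
            (hd _ h1 (st_ne_P' h hp hq).symm).symm).symm
    · obtain ⟨hS, hnr⟩ := (h.isSeg_P hz).1 he
      have hzT : s(fpt a, z) ∈ T := by
        refine hmax _ hS fun f hf hne => ?_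
        rcases h.seg_cases (hNC.1 f hf) with ⟨p', hp', q', hq', rfl⟩ | ⟨w, hw, rfl⟩
        · exact hd _ ((h.mem_spl_common hp' hq').2 hf) hne
        · refine disj_spokes hS (hNC.1 _ hf) ?_
          rintro rfl
          exact hne rfl
      refine (h.mem_spl_P hz).2 ⟨hzT, ?_⟩
      rcases lt_trichotomy z.2 0 with h1 | h1 | h1
      · refine Or.inr (Or.inl ⟨h1, ?_⟩)
        by_contra hlt
        rw [not_le] at hlt
        exact (h.cross_spokes hz hy0 he (hseg _ hyP')).2 ⟨Or.inr ⟨h1, hy2⟩, hlt⟩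
          (hd _ hyP' (st_ne_spokes h hz))
      · rcases lt_trichotomy z.1 a with h2 | h2 | h2
        · exact Or.inr (Or.inr ⟨h1, h2⟩)
        · exact absurd (Prod.ext h2 h1) (h.ne_P hz)
        · exact absurd ⟨h1, h2⟩ hnr
      · refine Or.inl ⟨h1, ?_⟩
        by_contra hlt
        rw [not_le] at hlt
        exact (h.cross_spokes hz hx0 he (hseg _ hxP')).2 ⟨Or.inl ⟨h1, hx2⟩, hlt⟩
          (hd _ hxP' (st_ne_spokes h hz))
    · obtain ⟨hS, hnl⟩ := (h.isSeg_P' hz).1 he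
      have hzT : s(fpt a, z) ∈ T := by
        refine hmax _ hS fun f hf hne => ?_
        rcases h.seg_cases (hNC.1 f hf) with ⟨p', hp', q', hq', rfl⟩ | ⟨w, hw, rfl⟩
        · exact (h.disj_iff hz hp' hq' hS he (hNC.1 _ hf)).1
            (hd _ ((h.mem_spl_common hp' hq').2 hf) (st_ne_P' h hp' hq'))
        · refine disj_spokes hS (hNC.1 _ hf) ?_
          rintro rfl
          exact hne rfl
      refine (h.mem_spl_P' hz).2 ⟨hzT, ?_⟩
      rcases lt_trichotomy z.2 0 with h1 | h1 | h1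
      · refine Or.inr (Or.inl ⟨h1, ?_⟩)
        by_contra hlt
        rw [not_le] at hlt
        exact (h.cross_spokes hy0 hz (hseg _ hyP) he).2 ⟨Or.inr ⟨hy2, h1⟩, hlt⟩
          (hd _ hyP (st_ne_spokes h hy0).symm).symm
      · rcases lt_trichotomy z.1 a with h2 | h2 | h2
        · exact absurd ⟨h1, h2⟩ hnl
        · exact absurd (Prod.ext h2 h1) (h.ne_P hz)
        · exact Or.inr (Or.inr ⟨h1, h2⟩)
      · refine Or.inl ⟨h1, ?_⟩
        by_contra hlt
        rw [not_le] at hlt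
        exact (h.cross_spokes hx0 hz (hseg _ hxP) he).2 ⟨Or.inl ⟨hx2, h1⟩, hlt⟩
          (hd _ hxP (st_ne_spokes h hx0).symm).symm

end Pool.Agent.TRI
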