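import Pool.Agent.TRI.A_ConTri
import Pool.Agent.TRI.A_SplTri

namespace Pool.Agent.TRI

open Finset

variable {W : Finset Pt} {A : Finset ℝ} {a a' : ℝ}

theorem A_Inv_W {z : Pt} (hz : z ∈ S0 W A a) (h2 : z.2 ≠ 0) : z ∈ W := by
  rcases mem_S0.1 hz with h | ⟨b, _, _, rfl⟩
  · exact h
  · exact absurd rfl h2

theorem A_Inv_S0 {z : Pt} (hz : z ∈ W) : z ∈ S0 W A a := mem_S0.2 (Or.inl hz)

theorem TH.A_Inv_ax (h : TH W A a a') {z : Pt} (hz : z ∈ S0 W A a) (h2 : z.2 = 0) :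
    z.1 < a ∨ a < z.1 := by
  rcases lt_trichotomy z.1 a with h1 | h1 | h1
  · exact Or.inl h1
  · exact absurd (Prod.ext h1 h2) (h.ne_P hz)
  · exact Or.inr h1

theorem TH.con_spl (h : TH W A a a') {T : Finset (Sym2 Pt)} (hT : IsTri (setWA W A) T)
    {x y : Pt} (hx : x ∈ W) (hx2 : 0 < x.2) (hxT : s(fpt a, x) ∈ T)
    (hy : y ∈ W) (hy2 : y.2 < 0) (hyT : s(fpt a, y) ∈ T) :
    con W A a a' (spl W A a a' T x y) = T := by
  ext e
  constructor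
  · intro he
    rcases h.con_cases he with ⟨p, hp, q, hq, rfl⟩ | ⟨z, hz, rfl⟩
    · exact (h.mem_spl_common hp hq).1 ((h.mem_con_common hp hq).1 he)
    · rcases (h.mem_con_P hz).1 he with h1 | h1
      · exact ((h.mem_spl_P hz).1 h1).1
      · exact ((h.mem_spl_P' hz).1 h1).1
  · intro he
    rcases h.seg_cases (hT.1.1 e he) with ⟨p, hp, q, hq, rfl⟩ | ⟨z, hz, rfl⟩
    · exact (h.mem_con_common hp hq).2 ((h.mem_spl_common hp hq).2 he)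
    · rw [h.mem_con_P hz, h.mem_spl_P hz, h.mem_spl_P' hz]
      have hLR : Lf a x y z ∨ Rg a x y z := by
        rcases lt_trichotomy z.2 0 with h1 | h1 | h1
        · rcases le_total (thA a z) (thA a y) with h2 | h2
          · exact Or.inl (Or.inr (Or.inl ⟨h1, h2⟩))
          · exact Or.inr (Or.inr (Or.inl ⟨h1, h2⟩))
        · rcases h.A_Inv_ax hz h1 with h2 | h2
          · exact Or.inl (Or.inr (Or.inr ⟨h1, h2⟩))
          · exact Or.inr (Or.inr (Or.inr ⟨h1, h2⟩))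
        · rcases le_total (thA a z) (thA a x) with h2 | h2
          · exact Or.inl (Or.inl ⟨h1, h2⟩)
          · exact Or.inr (Or.inl ⟨h1, h2⟩)
      rcases hLR with h1 | h1
      · exact Or.inl ⟨he, h1⟩
      · exact Or.inr ⟨he, h1⟩

theorem TH.spl_con (h : TH W A a a') {T' : Finset (Sym2 Pt)}
    (hT : IsTri (setWA W (insert a' A)) T') {x y : Pt}
    (hx : x ∈ W) (hx2 : 0 < x.2) (hx1 : s(fpt a, x) ∈ T') (hx3 : s(fpt a', x) ∈ T')
    (hy : y ∈ W) (hy2 : y.2 < 0) (hy1 : s(fpt a, y) ∈ T') (hy3 : s(fpt a', y) ∈ T') :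
    spl W A a a' (con W A a a' T') x y = T' := by
  ext e
  constructor
  · intro he
    rcases h.spl_cases he with rfl | ⟨p, hp, q, hq, rfl⟩ | ⟨z, hz, rfl⟩ | ⟨z, hz, rfl⟩
    · refine (isTri_iff.1 hT).2 _ h.isSeg_PP' fun f hf hne => ?_
      exact (h.disj_PP' (hT.1.1 f hf) hne.symm).symm
    · exact (h.mem_con_common hp hq).1 ((h.mem_spl_common hp hq).1 he)
    · obtain ⟨h1, h2⟩ := (h.mem_spl_P hz).1 he
      rcases (h.mem_con_P hz).1 h1 with h3 | h3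
      · exact h3
      · rcases h2 with ⟨h4, h5⟩ | ⟨h4, h5⟩ | ⟨h4, h5⟩
        · have hzW := A_Inv_W hz h4.ne'
          have h6 := h.le_th hT hx hzW (Or.inl ⟨hx2, h4⟩) hx1 h3
          have h7 := h.th_inj hzW hx (Or.inl ⟨h4, hx2⟩) (le_antisymm h5 h6)
          rw [h7]; exact hx1
        · have hzW := A_Inv_W hz h4.ne
          have h6 := h.le_th hT hy hzW (Or.inr ⟨hy2, h4⟩) hy1 h3
          have h7 := h.th_inj hzW hy (Or.inr ⟨h4, hy2⟩) (le_antisymm h5 h6)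
          rw [h7]; exact hy1
        · exact absurd ⟨h4, h5⟩ ((h.isSeg_P' hz).1 (hT.1.1 _ h3)).2
    · obtain ⟨h1, h2⟩ := (h.mem_spl_P' hz).1 he
      rcases (h.mem_con_P hz).1 h1 with h3 | h3
      · rcases h2 with ⟨h4, h5⟩ | ⟨h4, h5⟩ | ⟨h4, h5⟩
        · have hzW := A_Inv_W hz h4.ne'
          have h6 := h.le_th hT hzW hx (Or.inl ⟨h4, hx2⟩) h3 hx3
          have h7 := h.th_inj hzW hx (Or.inl ⟨h4, hx2⟩) (le_antisymm h6 h5)
          rw [h7]; exact hx3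
        · have hzW := A_Inv_W hz h4.ne
          have h6 := h.le_th hT hzW hy (Or.inr ⟨h4, hy2⟩) h3 hy3
          have h7 := h.th_inj hzW hy (Or.inr ⟨h4, hy2⟩) (le_antisymm h6 h5)
          rw [h7]; exact hy3
        · exact absurd ⟨h4, h5⟩ ((h.isSeg_P hz).1 (hT.1.1 _ h3)).2
      · exact h3
  · intro he
    rcases h.seg_cases' (hT.1.1 e he) with rfl | ⟨p, hp, q, hq, rfl⟩ | ⟨z, hz, rfl⟩ | ⟨z, hz, rfl⟩
    · exact h.mem_spl_PP'
    · exact (h.mem_spl_common hp hq).2 ((h.mem_con_common hp hq).2 he)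
    · rw [h.mem_spl_P hz]
      refine ⟨(h.mem_con_P hz).2 (Or.inl he), ?_⟩
      rcases lt_trichotomy z.2 0 with h1 | h1 | h1
      · exact Or.inr (Or.inl ⟨h1, h.le_th hT (A_Inv_W hz h1.ne) hy (Or.inr ⟨h1, hy2⟩) he hy3⟩)
      · rcases h.A_Inv_ax hz h1 with h2 | h2
        · exact Or.inr (Or.inr ⟨h1, h2⟩)
        · exact absurd ⟨h1, h2⟩ ((h.isSeg_P hz).1 (hT.1.1 _ he)).2
      · exact Or.inl ⟨h1, h.le_th hT (A_Inv_W hz h1.ne') hx (Or.inl ⟨h1, hx2⟩) he hx3⟩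
    · rw [h.mem_spl_P' hz]
      refine ⟨(h.mem_con_P hz).2 (Or.inr he), ?_⟩
      rcases lt_trichotomy z.2 0 with h1 | h1 | h1
      · exact Or.inr (Or.inl ⟨h1, h.le_th hT hy (A_Inv_W hz h1.ne) (Or.inr ⟨hy2, h1⟩) hy1 he⟩)
      · rcases h.A_Inv_ax hz h1 with h2 | h2
        · exact absurd ⟨h1, h2⟩ ((h.isSeg_P' hz).1 (hT.1.1 _ he)).2
        · exact Or.inr (Or.inr ⟨h1, h2⟩)
      · exact Or.inl ⟨h1, h.le_th hT hx (A_Inv_W hz h1.ne') (Or.inl ⟨hx2, h1⟩) hx1 he⟩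

theorem TH.A_Inv_le_x (h : TH W A a a') {T : Finset (Sym2 Pt)} {x y x' y' : Pt}
    (hx : x ∈ W) (hx2 : 0 < x.2) (hxT : s(fpt a, x) ∈ T)
    (he : spl W A a a' T x y = spl W A a a' T x' y') : thA a x ≤ thA a x' := by
  have h1 : s(fpt a, x) ∈ spl W A a a' T x y :=
    (h.mem_spl_P (A_Inv_S0 hx)).2 ⟨hxT, Or.inl ⟨hx2, le_rfl⟩⟩
  rw [he] at h1
  rcases ((h.mem_spl_P (A_Inv_S0 hx)).1 h1).2 with ⟨_, h2⟩ | ⟨h2, _⟩ | ⟨h2, _⟩
  · exact h2
  · linarith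
  · linarith

theorem TH.A_Inv_le_y (h : TH W A a a') {T : Finset (Sym2 Pt)} {x y x' y' : Pt}
    (hy : y ∈ W) (hy2 : y.2 < 0) (hyT : s(fpt a, y) ∈ T)
    (he : spl W A a a' T x y = spl W A a a' T x' y') : thA a y ≤ thA a y' := by
  have h1 : s(fpt a, y) ∈ spl W A a a' T x y :=
    (h.mem_spl_P (A_Inv_S0 hy)).2 ⟨hyT, Or.inr (Or.inl ⟨hy2, le_rfl⟩)⟩
  rw [he] at h1
  rcases ((h.mem_spl_P (A_Inv_S0 hy)).1 h1).2 with ⟨h2, _⟩ | ⟨_, h2⟩ | ⟨h2, _⟩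
  · linarith
  · exact h2
  · linarith

/-- the split determines the shared neighbour above -/
theorem TH.spl_inj_x (h : TH W A a a') {T : Finset (Sym2 Pt)} {x y x' y' : Pt}
    (hx : x ∈ W) (hx2 : 0 < x.2) (hxT : s(fpt a, x) ∈ T)
    (hx' : x' ∈ W) (hx2' : 0 < x'.2) (hxT' : s(fpt a, x') ∈ T)
    (he : spl W A a a' T x y = spl W A a a' T x' y') : x = x' :=
  h.th_inj hx hx' (Or.inl ⟨hx2, hx2'⟩)
    (le_antisymm (h.A_Inv_le_x hx hx2 hxT he) (h.A_Inv_le_x hx' hx2' hxT' he.symm))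

/-- the split determines the shared neighbour below -/
theorem TH.spl_inj_y (h : TH W A a a') {T : Finset (Sym2 Pt)} {x y x' y' : Pt}
    (hy : y ∈ W) (hy2 : y.2 < 0) (hyT : s(fpt a, y) ∈ T)
    (hy' : y' ∈ W) (hy2' : y'.2 < 0) (hyT' : s(fpt a, y') ∈ T)
    (he : spl W A a a' T x y = spl W A a a' T x' y') : y = y' :=
  h.th_inj hy hy' (Or.inr ⟨hy2, hy2'⟩)
    (le_antisymm (h.A_Inv_le_y hy hy2 hyT he) (h.A_Inv_le_y hy' hy2' hyT' he.symm))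

end Pool.Agent.TRI
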