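import Pool.Agent.TRI.Basic
import Pool.Agent.TRI.A_Exit


namespace Pool.Agent.TRI

open Finset

private theorem comb_s (P v : Pt) (D : ℝ) (x y z : Pt) (μ : ℝ) (h1 : z.1 = (1 - μ) * x.1 + μ * y.1)
    (h2 : z.2 = (1 - μ) * x.2 + μ * y.2) :
    det P z v / D = (1 - μ) * (det P x v / D) + μ * (det P y v / D) := by
  unfold det; rw [h1, h2]; ring

private theorem comb_t (P c : Pt) (D : ℝ) (x y z : Pt) (μ : ℝ) (h1 : z.1 = (1 - μ) * x.1 + μ * y.1)
    (h2 : z.2 = (1 - μ) * x.2 + μ * y.2) :
    det P c z / D = (1 - μ) * (det P c x / D) + μ * (det P c y / D) := by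
  unfold det; rw [h1, h2]; ring

private theorem rec1 (P c v : Pt) (hD : det P c v ≠ 0) (z : Pt) :
    z.1 = P.1 + det P z v / det P c v * (c.1 - P.1) + det P c z / det P c v * (v.1 - P.1) := by
  have : (z.1 - P.1) * det P c v =
      det P z v * (c.1 - P.1) + det P c z * (v.1 - P.1) := by unfold det; ring
  field_simp
  linarith

private theorem rec2 (P c v : Pt) (hD : det P c v ≠ 0) (z : Pt) :
    z.2 = P.2 + det P z v / det P c v * (c.2 - P.2) + det P c z / det P c v * (v.2 - P.2) := by
  have : (z.2 - P.2) * det P c v =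
      det P z v * (c.2 - P.2) + det P c z * (v.2 - P.2) := by unfold det; ring
  field_simp
  linarith

private theorem det_phi (P c v z w : Pt) (hD : det P c v ≠ 0) :
    det P z w = (det P z v / det P c v * (det P c w / det P c v) -
      det P c z / det P c v * (det P w v / det P c v)) * det P c v := by
  have : det P z w * det P c v = det P z v * det P c w - det P c z * det P w v := by
    unfold det; ring
  field_simp
  linarith

/-- the core of the step, with the end point `v` of `e` chosen in the half plane -/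
private theorem nbr_core {S : Finset Pt} {T : Finset (Sym2 Pt)} (hT : IsTri S T) {P : Pt}
    (hP : P ∈ S) (hP2 : P.2 = 0) (ε : ℝ) {u : Pt} (hu : 0 < ε * u.2) (hPu : IsSeg S s(P, u))
    {v v' : Pt} (he : s(v, v') ∈ T) (hv : 0 < ε * v.2) {τ : ℝ} (h0 : 0 < τ) (h1 : τ < 1)
    (hc : P + τ • (u - P) ∈ openSegment ℝ v v')
    (hmin : ∀ f ∈ T, ∀ σ : ℝ, 0 < σ → σ < 1 → P + σ • (u - P) ∈ seg f → τ ≤ σ)
    (hn : s(P, u) ∉ T) : ∃ w ∈ S, 0 < ε * w.2 ∧ s(P, w) ∈ T := by
  classical
  have heS : IsSeg S s(v, v') := hT.1.1 _ he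
  obtain ⟨hvv, hvS, hvS', hnoe⟩ := isSeg_mk.1 heS
  obtain ⟨hPune, -, huS, hnou⟩ := isSeg_mk.1 hPu
  have hne : s(P, u) ≠ s(v, v') := fun h => hn (h ▸ he)
  set c : Pt := P + τ • (u - P) with hcdef
  have hc1 : c.1 = P.1 + τ * (u.1 - P.1) := by simp [hcdef]
  have hc2 : c.2 = P.2 + τ * (u.2 - P.2) := by simp [hcdef]
  have hcu : c ∈ openSegment ℝ P u := by
    rw [mem_openSegment_iff]
    exact ⟨τ, h0, h1, by rw [hc1]; ring, by rw [hc2]; ring⟩
  have hcr : ¬ Disjoint (seg s(P, u)) (seg s(v, v')) := by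
    rw [seg_mk, seg_mk]
    exact fun hd => Set.disjoint_left.1 hd hcu hc
  have hdet := ((cross_iff hPu heS hne).1 hcr).1
  have hDu : det P u v ≠ 0 := by
    intro h; rw [h] at hdet; simp at hdet
  have hD : det P c v ≠ 0 := by
    have : det P c v = τ * det P u v := by unfold det; rw [hc1, hc2]; ring
    rw [this]; exact mul_ne_zero h0.ne' hDu
  set sC : Pt → ℝ := fun z => det P z v / det P c v with hsC
  set tC : Pt → ℝ := fun z => det P c z / det P c v with htC
  have hcs : ∀ (x y z : Pt) (μ : ℝ), z.1 = (1 - μ) * x.1 + μ * y.1 →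
      z.2 = (1 - μ) * x.2 + μ * y.2 → sC z = (1 - μ) * sC x + μ * sC y :=
    fun x y z μ => comb_s P v _ x y z μ
  have hct : ∀ (x y z : Pt) (μ : ℝ), z.1 = (1 - μ) * x.1 + μ * y.1 →
      z.2 = (1 - μ) * x.2 + μ * y.2 → tC z = (1 - μ) * tC x + μ * tC y :=
    fun x y z μ => comb_t P c _ x y z μ
  have hr1 : ∀ z, z.1 = P.1 + sC z * (c.1 - P.1) + tC z * (v.1 - P.1) := rec1 P c v hD
  have hr2 : ∀ z, z.2 = P.2 + sC z * (c.2 - P.2) + tC z * (v.2 - P.2) := rec2 P c v hD
  have hφ : ∀ z w, det P z w = (sC z * tC w - tC z * sC w) * det P c v :=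
    fun z w => det_phi P c v z w hD
  have hsP : sC P = 0 := by simp [hsC]
  have htP : tC P = 0 := by simp [htC]
  have hsc : sC c = 1 := by simp only [hsC]; exact div_self hD
  have htc : tC c = 0 := by simp [htC]
  have hsv : sC v = 0 := by simp [hsC]
  have htv : tC v = 1 := by simp only [htC]; exact div_self hD
  have hεc : 0 < ε * c.2 := by
    rw [hc2, hP2]; have := mul_pos h0 hu; nlinarith
  have hεz : ∀ z, ε * z.2 = sC z * (ε * c.2) + tC z * (ε * v.2) := by
    intro z; have := hr2 z; rw [hP2] at this; rw [this]; ring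
  -- the line of `e` is `s + t = 1`
  have hline : sC v' + tC v' = 1 := by
    obtain ⟨r, hr0, _, hx, hy⟩ := mem_openSegment_iff.1 hc
    have e1 := hcs v v' c r hx hy
    have e2 := hct v v' c r hx hy
    rw [hsc, hsv] at e1; rw [htc, htv] at e2
    have : r * (sC v' + tC v' - 1) = 0 := by nlinarith
    rcases mul_eq_zero.1 this with h | h
    · exact absurd h hr0.ne'
    · linarith
  -- the candidates
  set K : Finset Pt := S.filter fun z => z ≠ P ∧ 0 ≤ sC z ∧ 0 ≤ tC z ∧ sC z + tC z ≤ 1 with hK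
  have hvK : v ∈ K := by
    rw [hK, mem_filter]
    refine ⟨hvS, ?_, by rw [hsv], by rw [htv]; norm_num, by rw [hsv, htv]; norm_num⟩
    rintro rfl; rw [hP2] at hv; simp at hv
  have hKt : ∀ z ∈ K, 0 < tC z := by
    intro z hz
    rw [hK, mem_filter] at hz
    obtain ⟨hzS, hzP, hs, ht, hst⟩ := hz
    rcases ht.lt_or_eq with h | h
    · exact h
    exfalso
    have hs0 : 0 < sC z := by
      rcases hs.lt_or_eq with h' | h'
      · exact h'
      exfalso; apply hzP
      ext
      · rw [hr1 z, ← h, ← h']; ring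
      · rw [hr2 z, ← h, ← h']; ring
    have hs1 : sC z ≤ 1 := by linarith
    apply hnou z hzS
    rw [mem_openSegment_iff]
    refine ⟨sC z * τ, mul_pos hs0 h0, ?_, ?_, ?_⟩
    · nlinarith
    · have := hr1 z; rw [← h, hc1] at this; rw [this]; ring
    · have := hr2 z; rw [← h, hc2] at this; rw [this]; ring
  obtain ⟨w0, hw0K, hw0⟩ := K.exists_max_image (fun z => sC z / tC z) ⟨v, hvK⟩
  set K' : Finset Pt := K.filter fun z => sC z / tC z = sC w0 / tC w0 with hK'
  obtain ⟨w, hwK', hw⟩ := K'.exists_min_image (fun z => sC z + tC z)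
    ⟨w0, by rw [hK', mem_filter]; exact ⟨hw0K, rfl⟩⟩
  have hwK : w ∈ K := (mem_filter.1 hwK').1
  have hwr : sC w / tC w = sC w0 / tC w0 := (mem_filter.1 hwK').2
  have htw : 0 < tC w := hKt w hwK
  obtain ⟨hwS, hwP, hsw, -, hstw⟩ := mem_filter.1 hwK
  have hmax : ∀ z ∈ K, sC z * tC w ≤ tC z * sC w := by
    intro z hz
    have h := hw0 z hz
    rw [← hwr, div_le_div_iff₀ (hKt z hz) htw] at h
    linarith
  have hεw : 0 < ε * w.2 := by
    rw [hεz]
    have := mul_nonneg hsw hεc.le
    have := mul_pos htw hv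
    linarith
  refine ⟨w, hwS, hεw, ?_⟩
  have hseg : IsSeg S s(P, w) := by
    rw [isSeg_mk]
    refine ⟨Ne.symm hwP, hP, hwS, ?_⟩
    intro x hxS hx
    obtain ⟨μ, hμ0, hμ1, hx1, hx2⟩ := mem_openSegment_iff.1 hx
    have e1 := hcs P w x μ hx1 hx2
    have e2 := hct P w x μ hx1 hx2
    rw [hsP] at e1; rw [htP] at e2
    have hxK : x ∈ K := by
      rw [hK, mem_filter]
      refine ⟨hxS, ?_, ?_, ?_, ?_⟩
      · rintro rfl
        rw [htP] at e2
        have := mul_pos hμ0 htw
        linarith
      · rw [e1]; have := mul_nonneg hμ0.le hsw; linarith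
      · rw [e2]; have := mul_pos hμ0 htw; linarith
      · rw [e1, e2]; nlinarith
    have hxK' : x ∈ K' := by
      rw [hK', mem_filter]
      refine ⟨hxK, ?_⟩
      rw [← hwr, e1, e2, mul_zero, zero_add, zero_add,
        mul_div_mul_left _ _ hμ0.ne']
    have := hw x hxK'
    rw [e1, e2] at this
    nlinarith
  refine (isTri_iff.1 hT).2 _ hseg ?_
  intro f hf hfne
  by_contra hcross
  induction f using Sym2.ind with
  | _ g h =>
  -- a symmetric form of the rest
  have key : ∀ g h : Pt, s(g, h) ∈ T → s(P, w) ≠ s(g, h) →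
      ¬ Disjoint (seg s(P, w)) (seg s(g, h)) → 0 < sC g * tC w - tC g * sC w → False := by
    intro g h hf hfne hcross hφg
    obtain ⟨hghne, hgS, hhS, _⟩ := isSeg_mk.1 (hT.1.1 _ hf)
    rw [seg_mk, seg_mk, Set.not_disjoint_iff] at hcross
    obtain ⟨c', hc'1, hc'2⟩ := hcross
    obtain ⟨ρ, hρ0, hρ1, hx, hy⟩ := mem_openSegment_iff.1 hc'1
    have es := hcs P w c' ρ hx hy
    have et := hct P w c' ρ hx hy
    rw [hsP] at es; rw [htP] at et
    have es' : sC c' = ρ * sC w := by linarith
    have et' : tC c' = ρ * tC w := by linarith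
    have hfe : s(v, v') ≠ s(g, h) := by
      intro hh
      have hc3 : c' ∈ openSegment ℝ v v' := by
        have : c' ∈ seg s(v, v') := by rw [hh, seg_mk]; exact hc'2
        rwa [seg_mk] at this
      obtain ⟨r, _, _, hx', hy'⟩ := mem_openSegment_iff.1 hc3
      have e1 := hcs v v' c' r hx' hy'
      have e2 := hct v v' c' r hx' hy'
      rw [hsv] at e1; rw [htv] at e2
      have : sC c' + tC c' = 1 := by
        rw [e1, e2]; nlinarith
      rw [es', et'] at this
      nlinarith
    by_cases hin : 0 ≤ sC g ∧ 0 ≤ tC g ∧ sC g + tC g ≤ 1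
    · have hgK : g ∈ K := by
        rw [hK, mem_filter]
        refine ⟨hgS, ?_, hin.1, hin.2.1, hin.2.2⟩
        rintro rfl
        rw [hsP, htP] at hφg; simp at hφg
      have := hmax g hgK
      linarith
    · have hout : tC g < 0 ∨ 1 < sC g + tC g := by
        by_contra hcon
        push Not at hcon
        apply hin
        refine ⟨?_, hcon.1, hcon.2⟩
        have h1 : 0 < sC g * tC w := by
          have := mul_nonneg hcon.1 hsw
          linarith
        exact (pos_of_mul_pos_left h1 htw.le).le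
      obtain ⟨μ, hμ0, hμ1, hμ⟩ := exit_param (s0 := sC c') (t0 := tC c') (sg := sC g) (tg := tC g)
        (sw := sC w) (tw := tC w) (by rw [et']; exact mul_pos hρ0 htw)
        (by rw [es', et']; nlinarith) htw hsw (by rw [es', et']; ring) (by linarith) hout
      -- the exit point
      set z : Pt := ((1 - μ) * c'.1 + μ * g.1, (1 - μ) * c'.2 + μ * g.2) with hz
      have ez1 := hcs c' g z μ rfl rfl
      have ez2 := hct c' g z μ rfl rfl
      have hzf : z ∈ seg s(g, h) := by
        rw [seg_mk, mem_openSegment_iff]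
        obtain ⟨t, ht0, ht1, hx', hy'⟩ := mem_openSegment_iff.1 hc'2
        refine ⟨(1 - μ) * t, mul_pos (by linarith) ht0, ?_, ?_, ?_⟩
        · nlinarith
        · simp only [hz]; rw [hx']; ring
        · simp only [hz]; rw [hy']; ring
      have hnd : z ∉ seg s(v, v') := fun hz' =>
        Set.disjoint_left.1 (hT.1.2 _ he _ hf hfe) hz' hzf
      rcases hμ with ⟨ht, hs0, hs1⟩ | ⟨hst, hs0, ht0⟩
      · have hs : sC z = sC c' + μ * (sC g - sC c') := by rw [ez1]; ring
        have ht' : tC z = 0 := by rw [ez2]; linarith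
        rw [← hs] at hs0 hs1
        have hz1 : z = P + (sC z * τ) • (u - P) := by
          ext
          · have := hr1 z; rw [ht', hc1] at this
            simp only [Prod.fst_add, Prod.smul_fst, smul_eq_mul, Prod.fst_sub]
            rw [this]; ring
          · have := hr2 z; rw [ht', hc2] at this
            simp only [Prod.snd_add, Prod.smul_snd, smul_eq_mul, Prod.snd_sub]
            rw [this]; ring
        have hle := hmin _ hf (sC z * τ) (mul_pos hs0 h0) (by nlinarith) (by rw [← hz1]; exact hzf)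
        have hs1' : sC z = 1 := by
          have : 1 ≤ sC z := by
            by_contra hlt
            push Not at hlt
            nlinarith
          linarith
        apply hnd
        rw [hz1, hs1', one_mul, seg_mk]
        exact hc
      · have hs : sC z = sC c' + μ * (sC g - sC c') := by rw [ez1]; ring
        have ht : tC z = tC c' + μ * (tC g - tC c') := by rw [ez2]; ring
        rw [← hs] at hs0 hst
        rw [← ht] at ht0 hst
        apply hnd
        rw [seg_mk]
        obtain ⟨r, hr0, hr1', hx', hy'⟩ := mem_openSegment_iff.1 hc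
        rw [mem_openSegment_iff]
        refine ⟨sC z * r, mul_pos hs0 hr0, ?_, ?_, ?_⟩
        · nlinarith
        · have h3 := hr1 z
          have h4 : tC z = 1 - sC z := by linarith
          rw [h4, hx'] at h3
          linarith
        · have h3 := hr2 z
          have h4 : tC z = 1 - sC z := by linarith
          rw [h4, hy'] at h3
          linarith
  have hcr2 := ((cross_iff hseg (hT.1.1 _ hf) hfne).1 hcross).1
  rw [det_swap P w g, det_swap P w h] at hcr2
  have e1 : det w P g = - det P w g := det_swap w P g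
  have hg' := hφ g w
  have hh' := hφ h w
  have e3 : det P w g = - det P g w := by unfold det; ring
  have e4 : det P w h = - det P h w := by unfold det; ring
  have hprod : (sC g * tC w - tC g * sC w) * (sC h * tC w - tC h * sC w) < 0 := by
    have h5 : det P w g * det P w h < 0 := by
      have := ((cross_iff hseg (hT.1.1 _ hf) hfne).1 hcross).1
      exact this
    rw [e3, e4, hg', hh'] at h5
    have hDD : 0 < det P c v * det P c v := mul_self_pos.2 hD
    by_contra hcon
    push Not at hcon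
    have := mul_nonneg hcon hDD.le
    nlinarith
  rcases mul_neg_iff.1 hprod with ⟨h6, _⟩ | ⟨_, h6⟩
  · exact key g h hf hfne hcross h6
  · have hsw' : s(g, h) = s(h, g) := Sym2.eq_swap
    rw [hsw'] at hf hfne hcross
    exact key h g hf hfne hcross h6

/-- the main step: a crossed admissible segment gives a neighbour -/
theorem nbr_step {S : Finset Pt} {T : Finset (Sym2 Pt)} (hT : IsTri S T) {P : Pt} (hP : P ∈ S)
    (hP2 : P.2 = 0) (ε : ℝ) {u : Pt} (hu : 0 < ε * u.2) (hPu : IsSeg S s(P, u)) {e : Sym2 Pt}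
    (he : e ∈ T) {τ : ℝ} (h0 : 0 < τ) (h1 : τ < 1) (hc : P + τ • (u - P) ∈ seg e)
    (hmin : ∀ f ∈ T, ∀ σ : ℝ, 0 < σ → σ < 1 → P + σ • (u - P) ∈ seg f → τ ≤ σ)
    (hn : s(P, u) ∉ T) : ∃ w ∈ S, 0 < ε * w.2 ∧ s(P, w) ∈ T := by
  induction e using Sym2.ind with
  | _ v v' =>
  rw [seg_mk] at hc
  by_cases hv : 0 < ε * v.2
  · exact nbr_core hT hP hP2 ε hu hPu he hv h0 h1 hc hmin hn
  · by_cases hv' : 0 < ε * v'.2
    · rw [Sym2.eq_swap] at he
      rw [openSegment_symm] at hc
      exact nbr_core hT hP hP2 ε hu hPu he hv' h0 h1 hc hmin hn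
    · exfalso
      obtain ⟨t, ht0, ht1, hx, hy⟩ := mem_openSegment_iff.1 hc
      simp only [Prod.snd_add, Prod.smul_snd, smul_eq_mul, Prod.snd_sub, hP2] at hy
      push Not at hv hv'
      have h2 : 0 < τ * (ε * u.2) := mul_pos h0 hu
      have h3 : τ * (ε * u.2) = (1 - t) * (ε * v.2) + t * (ε * v'.2) := by
        have : τ * u.2 = (1 - t) * v.2 + t * v'.2 := by linarith
        calc τ * (ε * u.2) = ε * (τ * u.2) := by ring
          _ = _ := by rw [this]; ring
      have h4 : (1 - t) * (ε * v.2) ≤ 0 := mul_nonpos_of_nonneg_of_nonpos (by linarith) hv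
      have h5 : t * (ε * v'.2) ≤ 0 := mul_nonpos_of_nonneg_of_nonpos ht0.le hv'
      linarith

end Pool.Agent.TRI
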