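import Pool.Agent.TRI.A_Near
import Pool.Agent.TRI.A_Step

/-!
Area A: a point P of a triangulated set on the boundary line of an open half plane containing
points of the set has a neighbour in this half plane.
-/

namespace Pool.Agent.TRI

open Finset

theorem exists_nbr {S : Finset Pt} {T : Finset (Sym2 Pt)} (hT : IsTri S T) {P : Pt} (hP : P ∈ S)
    (hP2 : P.2 = 0) (ε : ℝ) (hu : ∃ u ∈ S, 0 < ε * u.2) :
    ∃ w ∈ S, 0 < ε * w.2 ∧ s(P, w) ∈ T := by
  obtain ⟨u, hu, hu2, hseg⟩ := exists_adm hP hP2 ε hu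
  by_cases hn : s(P, u) ∈ T
  · exact ⟨u, hu, hu2, hn⟩
  · have h1 : ∃ f ∈ T, ¬ Disjoint (seg s(P, u)) (seg f) := by
      by_contra hcon
      push Not at hcon
      exact hn ((isTri_iff.1 hT).2 _ hseg fun f hf _ => hcon f hf)
    obtain ⟨e, he, τ, h0, h1, hc, hmin⟩ := nearest hT.1 hseg hn h1
    exact nbr_step hT hP hP2 ε hu2 hseg he h0 h1 hc hmin hn

theorem one_le_up (W : Finset Pt) (hW : ∀ u ∈ W, u.2 ≠ 0) (hup : ∃ u ∈ W, 0 < u.2)
    (A : Finset ℝ) {T : Finset (Sym2 Pt)} (hT : T ∈ tris (setWA W A)) {a : ℝ} (ha : a ∈ A) :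
    1 ≤ up W T a := by
  classical
  have hP : fpt a ∈ setWA W A := by
    unfold setWA; exact mem_union_right _ (mem_image_of_mem _ ha)
  obtain ⟨u, hu, hu2⟩ := hup
  obtain ⟨w, hw, hw2, hwT⟩ := exists_nbr (mem_tris.1 hT) hP rfl 1
    ⟨u, by unfold setWA; exact mem_union_left _ hu, by simpa using hu2⟩
  rw [one_mul] at hw2
  have hwW : w ∈ W := by
    unfold setWA at hw
    rcases mem_union.1 hw with hw | hw
    · exact hw
    · obtain ⟨b, _, rfl⟩ := mem_image.1 hw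
      exact absurd hw2 (by simp [fpt])
  unfold up
  exact card_pos.2 ⟨w, mem_filter.2 ⟨hwW, hw2, hwT⟩⟩

theorem one_le_dn (W : Finset Pt) (hW : ∀ u ∈ W, u.2 ≠ 0) (hdn : ∃ u ∈ W, u.2 < 0)
    (A : Finset ℝ) {T : Finset (Sym2 Pt)} (hT : T ∈ tris (setWA W A)) {a : ℝ} (ha : a ∈ A) :
    1 ≤ dn W T a := by
  classical
  have hP : fpt a ∈ setWA W A := by
    unfold setWA; exact mem_union_right _ (mem_image_of_mem _ ha)
  obtain ⟨u, hu, hu2⟩ := hdn
  obtain ⟨w, hw, hw2, hwT⟩ := exists_nbr (mem_tris.1 hT) hP rfl (-1)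
    ⟨u, by unfold setWA; exact mem_union_left _ hu, by linarith⟩
  have hwW : w ∈ W := by
    unfold setWA at hw
    rcases mem_union.1 hw with hw | hw
    · exact hw
    · obtain ⟨b, _, rfl⟩ := mem_image.1 hw
      exact absurd hw2 (by simp [fpt])
  unfold dn
  exact card_pos.2 ⟨w, mem_filter.2 ⟨hwW, by linarith, hwT⟩⟩

end Pool.Agent.TRI
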