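import Pool.Agent.TRI.Basic


namespace Pool.Agent.TRI

open Finset

theorem near_mem {P u : Pt} {τ : ℝ} (h0 : 0 < τ) (h1 : τ < 1) :
    P + τ • (u - P) ∈ seg s(P, u) := by
  rw [seg_mk, mem_openSegment_iff]
  refine ⟨τ, h0, h1, ?_, ?_⟩
  · simp only [Prod.fst_add, Prod.smul_fst, Prod.fst_sub, smul_eq_mul]; ring
  · simp only [Prod.snd_add, Prod.smul_snd, Prod.snd_sub, smul_eq_mul]; ring

theorem near_of_mem {P u z : Pt} (h : z ∈ seg s(P, u)) :
    ∃ τ : ℝ, 0 < τ ∧ τ < 1 ∧ z = P + τ • (u - P) := by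
  rw [seg_mk, mem_openSegment_iff] at h
  obtain ⟨t, h0, h1, hx, hy⟩ := h
  refine ⟨t, h0, h1, ?_⟩
  ext
  · simp only [Prod.fst_add, Prod.smul_fst, Prod.fst_sub, smul_eq_mul]; rw [hx]; ring
  · simp only [Prod.snd_add, Prod.smul_snd, Prod.snd_sub, smul_eq_mul]; rw [hy]; ring

/-- the crossing parameter is unique -/
theorem near_unique {S : Finset Pt} {P u : Pt} (hPu : IsSeg S s(P, u)) {f : Sym2 Pt}
    (hf : IsSeg S f) (hne : s(P, u) ≠ f) {σ τ : ℝ} (hσ0 : 0 < σ) (hσ1 : σ < 1)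
    (hσ : P + σ • (u - P) ∈ seg f) (hτ : P + τ • (u - P) ∈ seg f) : σ = τ := by
  induction f using Sym2.ind with
  | _ g h =>
  have hnd : ¬ Disjoint (seg s(P, u)) (seg s(g, h)) := by
    rw [Set.not_disjoint_iff]
    exact ⟨_, near_mem hσ0 hσ1, hσ⟩
  have hc := ((cross_iff hPu hf hne).1 hnd).2
  rw [seg_mk] at hσ hτ
  have e1 := det_of_mem hσ
  have e2 := det_of_mem hτ
  by_contra hst
  unfold det at e1 e2 hc
  simp only [Prod.fst_add, Prod.smul_fst, Prod.fst_sub, smul_eq_mul, Prod.snd_add,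
    Prod.smul_snd, Prod.snd_sub] at e1 e2
  set a := (h.1 - g.1) * (P.2 - g.2) - (h.2 - g.2) * (P.1 - g.1) with ha
  set b := (h.1 - g.1) * (u.2 - g.2) - (h.2 - g.2) * (u.1 - g.1) with hb
  have f1 : a + σ * (b - a) = 0 := by rw [ha, hb]; linarith
  have f2 : a + τ * (b - a) = 0 := by rw [ha, hb]; linarith
  have f3 : (σ - τ) * (b - a) = 0 := by linarith
  rcases mul_eq_zero.1 f3 with f3 | f3
  · exact hst (by linarith)
  · rw [f3] at f1
    have : a = 0 := by linarith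
    rw [this] at hc
    linarith

/-- among the segments of `T` crossing `P u` there is one whose crossing point is nearest to `P` -/
theorem nearest {S : Finset Pt} {T : Finset (Sym2 Pt)} (hT : IsNC S T) {P u : Pt}
    (hPu : IsSeg S s(P, u)) (hn : s(P, u) ∉ T)
    (hc : ∃ f ∈ T, ¬ Disjoint (seg s(P, u)) (seg f)) :
    ∃ e ∈ T, ∃ τ : ℝ, 0 < τ ∧ τ < 1 ∧ P + τ • (u - P) ∈ seg e ∧
      ∀ f ∈ T, ∀ σ : ℝ, 0 < σ → σ < 1 → P + σ • (u - P) ∈ seg f → τ ≤ σ := by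
  classical
  have hch : ∀ f : Sym2 Pt, ∃ τ : ℝ, ¬ Disjoint (seg s(P, u)) (seg f) →
      0 < τ ∧ τ < 1 ∧ P + τ • (u - P) ∈ seg f := by
    intro f
    by_cases hd : Disjoint (seg s(P, u)) (seg f)
    · exact ⟨0, fun h => absurd hd h⟩
    · rw [Set.not_disjoint_iff] at hd
      obtain ⟨z, hz1, hz2⟩ := hd
      obtain ⟨τ, h0, h1, rfl⟩ := near_of_mem hz1
      exact ⟨τ, fun _ => ⟨h0, h1, hz2⟩⟩
  choose par hpar using hch
  obtain ⟨f0, hf0, hd0⟩ := hc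
  have hne : (T.filter fun f => ¬ Disjoint (seg s(P, u)) (seg f)).Nonempty :=
    ⟨f0, mem_filter.2 ⟨hf0, hd0⟩⟩
  obtain ⟨e, he, hmin⟩ := exists_min_image _ par hne
  rw [mem_filter] at he
  obtain ⟨h0, h1, h2⟩ := hpar e he.2
  refine ⟨e, he.1, par e, h0, h1, h2, ?_⟩
  intro f hf σ hσ0 hσ1 hσ
  have hnd : ¬ Disjoint (seg s(P, u)) (seg f) := by
    rw [Set.not_disjoint_iff]
    exact ⟨_, near_mem hσ0 hσ1, hσ⟩
  have hle := hmin f (mem_filter.2 ⟨hf, hnd⟩)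
  have hne' : s(P, u) ≠ f := fun h => hn (h ▸ hf)
  have := near_unique hPu (hT.1 f hf) hne' hσ0 hσ1 hσ (hpar f hnd).2.2
  rw [this]; exact hle

/-- there is an admissible segment from `P` into the half plane -/
theorem exists_adm {S : Finset Pt} {P : Pt} (hP : P ∈ S) (hP2 : P.2 = 0) (ε : ℝ)
    (hu : ∃ u ∈ S, 0 < ε * u.2) : ∃ u ∈ S, 0 < ε * u.2 ∧ IsSeg S s(P, u) := by
  classical
  obtain ⟨u0, hu0, hpos0⟩ := hu
  have hne : (S.filter fun u => 0 < ε * u.2).Nonempty := ⟨u0, mem_filter.2 ⟨hu0, hpos0⟩⟩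
  obtain ⟨u, hu, hmin⟩ := exists_min_image _ (fun u : Pt => ε * u.2) hne
  rw [mem_filter] at hu
  refine ⟨u, hu.1, hu.2, ?_⟩
  rw [isSeg_mk]
  refine ⟨?_, hP, hu.1, ?_⟩
  · intro h
    have := hu.2
    rw [← h, hP2] at this
    simp at this
  · intro x hx hmem
    rw [mem_openSegment_iff] at hmem
    obtain ⟨t, h0, h1, _, hy⟩ := hmem
    rw [hP2] at hy
    have hx2 : ε * x.2 = t * (ε * u.2) := by rw [hy]; ring
    have hpos : 0 < ε * x.2 := by rw [hx2]; exact mul_pos h0 hu.2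
    have := hmin x (mem_filter.2 ⟨hx, hpos⟩)
    rw [hx2] at this
    nlinarith [hu.2]

end Pool.Agent.TRI
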