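import Pool.Agent.TRI.A_Twin


namespace Pool.Agent.TRI

open Finset

/-- hockey stick -/
theorem hockey (D m : ℕ) : ∑ i ∈ range D, ((D - i) - 1 + m).choose m = (D + m).choose (m + 1) := by
  have h1 : ∑ i ∈ range D, ((D - i) - 1 + m).choose m = ∑ i ∈ range D, (i + m).choose m := by
    rw [← sum_range_reflect (fun i => (i + m).choose m) D]
    apply sum_congr rfl
    intro i _
    have : D - i - 1 = D - 1 - i := by omega
    rw [this]
  rw [h1]
  induction D with
  | zero => simp
  | succ D ih =>
    have ih' := ih (by
      rw [← sum_range_reflect (fun i => (i + m).choose m) D]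
      apply sum_congr rfl
      intro i _
      have : D - i - 1 = D - 1 - i := by omega
      rw [this])
    rw [sum_range_succ, ih']
    have : D + 1 + m = (D + m) + 1 := by ring
    rw [this, Nat.choose_succ_succ, add_comm]

/-- weighted number of triangulations: the mark `m b` at the axis point `b` -/
noncomputable def Qm (W : Finset Pt) (B : Finset ℝ) (m : ℝ → ℕ) : ℕ :=
  ∑ T ∈ tris (setWA W B), ∏ b ∈ B,
    (up W T b - 1 + m b).choose (m b) * (dn W T b - 1 + m b).choose (m b)

/-- one twin step: the new point `a'` (mark `m a'`) next to `a` (mark `0`) is removed, the mark of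
`a` becomes `m a' + 1` -/
theorem Qm_step (W : Finset Pt) (hW : ∀ u ∈ W, u.2 ≠ 0) (hup : ∃ u ∈ W, 0 < u.2)
    (hdn : ∃ u ∈ W, u.2 < 0) (B : Finset ℝ) (a a' : ℝ) (ha : a ∈ B) (haa : a < a')
    (hB : ∀ b ∈ B, b ≤ a ∨ a' < b) (hC : Clear W a a') (m : ℝ → ℕ) (hm : m a = 0) :
    Qm W (insert a' B) m = Qm W B (Function.update m a (m a' + 1)) := by
  classical
  have ht := twin W hW hup hdn B a a' ha haa hB hC
    (fun b k l => (k - 1 + m b).choose (m b) * (l - 1 + m b).choose (m b))
  unfold Qm
  refine Eq.trans ?_ (ht.trans ?_)
  · congr!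
  · apply sum_congr rfl
    intro T hT
    have hu := one_le_up W hW hup B hT ha
    have hd := one_le_dn W hW hdn B hT ha
    have e1 : ∏ b ∈ B, ((up W T b - 1 + Function.update m a (m a' + 1) b).choose
          (Function.update m a (m a' + 1) b) *
        (dn W T b - 1 + Function.update m a (m a' + 1) b).choose
          (Function.update m a (m a' + 1) b)) =
        ((up W T a + m a').choose (m a' + 1) * (dn W T a + m a').choose (m a' + 1)) *
        ∏ b ∈ B.erase a, ((up W T b - 1 + m b).choose (m b) *
          (dn W T b - 1 + m b).choose (m b)) := by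
      rw [← mul_prod_erase B _ ha]
      congr 1
      · rw [Function.update_self]
        have h1 : up W T a - 1 + (m a' + 1) = up W T a + m a' := by omega
        have h2 : dn W T a - 1 + (m a' + 1) = dn W T a + m a' := by omega
        rw [h1, h2]
      · apply prod_congr rfl
        intro b hb
        rw [Function.update_of_ne (ne_of_mem_erase hb)]
    rw [e1, mul_comm (((up W T a + m a').choose (m a' + 1) * _))]
    congr 1
    rw [← hockey (up W T a) (m a'), ← hockey (dn W T a) (m a'), sum_mul_sum]
    apply sum_congr rfl
    intro i _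
    apply sum_congr rfl
    intro j _
    simp [hm]

end Pool.Agent.TRI
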