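import Pool.Agent.TRI.A_Q1


namespace Pool.Agent.TRI

open Finset

/-- `Qm` only depends on the marks of the axis points -/
theorem Qm_congr (W : Finset Pt) (B : Finset ℝ) {m m' : ℝ → ℕ} (h : ∀ b ∈ B, m b = m' b) :
    Qm W B m = Qm W B m' := by
  unfold Qm
  refine sum_congr rfl fun T _ => prod_congr rfl fun b hb => ?_
  rw [h b hb]

open Classical in
theorem Qm_cluster_aux (W : Finset Pt) (hW : ∀ u ∈ W, u.2 ≠ 0) (hup : ∃ u ∈ W, 0 < u.2)
    (hdn : ∃ u ∈ W, u.2 < 0) (κ : ℝ) (hκ : 0 < κ) (a : ℝ) (B : Finset ℝ) (ha : a ∈ B) (n : ℕ) :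
    ∀ (m : ℝ → ℕ) (k : ℕ), (∀ b ∈ B, b ≤ a ∨ a + n * κ < b) →
      (n ≠ 0 → Clear W a (a + n * κ)) → (∀ i : ℕ, i < n → m (a + i * κ) = 0) →
      m (a + n * κ) = k →
      Qm W (B ∪ (range (n + 1)).image fun i : ℕ => a + i * κ) m =
        Qm W B (Function.update m a (n + k)) := by
  induction n with
  | zero =>
    intro m k _ _ _ hk
    have h1 : (B ∪ (range (0 + 1)).image fun i : ℕ => a + i * κ) = B := by
      rw [zero_add, range_one, image_singleton, Nat.cast_zero, zero_mul, add_zero]
      exact union_eq_left.2 (singleton_subset_iff.2 ha)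
    rw [h1]
    refine Qm_congr W B fun b _ => ?_
    by_cases hb : b = a
    · rw [hb, Function.update_self, zero_add, ← hk, Nat.cast_zero, zero_mul, add_zero]
    · rw [Function.update_of_ne hb]
  | succ n ih =>
    intro m k hB hC hm hk
    have hC' := hC (Nat.succ_ne_zero n)
    push_cast at hB hC' hk
    have hnk : (0 : ℝ) ≤ n * κ := mul_nonneg (Nat.cast_nonneg n) hκ.le
    have hset : (B ∪ (range (n + 1 + 1)).image fun i : ℕ => a + i * κ) =
        insert (a + (n + 1) * κ) (B ∪ (range (n + 1)).image fun i : ℕ => a + i * κ) := by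
      rw [range_add_one, image_insert, union_insert]
      push_cast
      rfl
    rw [hset]
    have hstep := Qm_step W hW hup hdn (B ∪ (range (n + 1)).image fun i : ℕ => a + i * κ)
      (a + n * κ) (a + (n + 1) * κ)
      (mem_union_right _ (mem_image.2 ⟨n, mem_range.2 (Nat.lt_succ_self n), rfl⟩))
      (by nlinarith) ?_ ?_ m (hm n (Nat.lt_succ_self n))
    · rw [hstep, hk]
      rw [ih (Function.update m (a + n * κ) (k + 1)) (k + 1) ?_ ?_ ?_ ?_]
      · refine Qm_congr W B fun b hb => ?_
        by_cases hba : b = a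
        · rw [hba, Function.update_self, Function.update_self]
          omega
        · rw [Function.update_of_ne hba, Function.update_of_ne hba, Function.update_of_ne]
          rintro rfl
          rcases hB _ hb with h1 | h1
          · have h2 : (n : ℝ) * κ = 0 := by linarith
            exact hba (by rw [h2, add_zero])
          · nlinarith
      · intro b hb
        rcases hB b hb with h1 | h1
        · exact Or.inl h1
        · right
          nlinarith
      · intro _ u hu v hv huv c hc1 hc2
        exact hC' u hu v hv huv c hc1 (by nlinarith)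
      · intro i hi
        rw [Function.update_of_ne]
        · exact hm i (by omega)
        · intro h
          have h1 : (i : ℝ) * κ = n * κ := by linarith
          have h2 := mul_right_cancel₀ hκ.ne' h1
          have h3 : i = n := by exact_mod_cast h2
          omega
      · rw [Function.update_self]
    · intro b hb
      rcases mem_union.1 hb with hb | hb
      · rcases hB b hb with h1 | h1
        · left; linarith
        · right; exact h1
      · left
        obtain ⟨i, hi, rfl⟩ := mem_image.1 hb
        have h1 : (i : ℝ) ≤ n := by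
          have := mem_range.1 hi
          exact_mod_cast (by omega : i ≤ n)
        have h2 := mul_le_mul_of_nonneg_right h1 hκ.le
        linarith
    · intro u hu v hv huv c hc1 hc2
      exact hC' u hu v hv huv c (by linarith) hc2

open Classical in
/-- one cluster -/
theorem Qm_cluster (W : Finset Pt) (hW : ∀ u ∈ W, u.2 ≠ 0) (hup : ∃ u ∈ W, 0 < u.2)
    (hdn : ∃ u ∈ W, u.2 < 0) (κ : ℝ) (hκ : 0 < κ) (a : ℝ) (n : ℕ) (B : Finset ℝ) (ha : a ∈ B)
    (hB : ∀ b ∈ B, b ≤ a ∨ a + n * κ < b) (hC : n ≠ 0 → Clear W a (a + n * κ)) (m : ℝ → ℕ)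
    (hm : ∀ i : ℕ, i ≤ n → m (a + i * κ) = 0) :
    Qm W (B ∪ (range (n + 1)).image fun i : ℕ => a + i * κ) m =
      Qm W B (Function.update m a n) := by
  have h := Qm_cluster_aux W hW hup hdn κ hκ a B ha n m 0 hB hC (fun i hi => hm i hi.le)
    (hm n le_rfl)
  rw [add_zero] at h
  exact h

end Pool.Agent.TRI
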