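import Mathlib

namespace Pool.Agent.TRI

open Finset

open Classical in
/-- sum over a finite set ordered by an injective key, in terms of the ranks -/
theorem sum_rank {α : Type*} (N : Finset α) (k : α → ℝ) (hk : Set.InjOn k N) (G : ℕ → ℕ → ℕ) :
    ∑ x ∈ N, G (N.filter fun z => k z ≤ k x).card (N.filter fun z => k x ≤ k z).card =
      ∑ i ∈ range N.card, G (i + 1) (N.card - i) := by
  have hlt : ∀ x ∈ N, ∀ y ∈ N, k x < k y →
      (N.filter fun z => k z ≤ k x).card < (N.filter fun z => k z ≤ k y).card := by
    intro x hx y hy hxy
    apply Finset.card_lt_card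
    rw [Finset.ssubset_iff_of_subset]
    · refine ⟨y, ?_, ?_⟩
      · simp [hy]
      · simp only [mem_filter, not_and, not_le]
        intro _
        exact hxy
    · intro z hz
      simp only [mem_filter] at hz ⊢
      exact ⟨hz.1, hz.2.trans hxy.le⟩
  have hpos : ∀ x ∈ N, 1 ≤ (N.filter fun z => k z ≤ k x).card := by
    intro x hx
    rw [Nat.one_le_iff_ne_zero, Ne, Finset.card_eq_zero]
    intro h
    have : x ∈ N.filter fun z => k z ≤ k x := by simp [hx]
    rw [h] at this
    simp at this
  have hle : ∀ x, (N.filter fun z => k z ≤ k x).card ≤ N.card := fun x =>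
    Finset.card_filter_le _ _
  have hco : ∀ x ∈ N, (N.filter fun z => k x ≤ k z).card =
      N.card - ((N.filter fun z => k z ≤ k x).card - 1) := by
    intro x hx
    have h1 : (N.filter fun z => k z < k x) = (N.filter fun z => k z ≤ k x).erase x := by
      ext z
      simp only [mem_filter, mem_erase]
      constructor
      · rintro ⟨hz, h⟩
        exact ⟨fun e => by rw [e] at h; exact lt_irrefl _ h, hz, h.le⟩
      · rintro ⟨hne, hz, h⟩
        refine ⟨hz, lt_of_le_of_ne h fun e => hne (hk hz hx e)⟩
    have h2 : (N.filter fun z => k z < k x).card = (N.filter fun z => k z ≤ k x).card - 1 := by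
      rw [h1, Finset.card_erase_of_mem (by simp [hx])]
    have h3 : (N.filter fun z => k z < k x).card + (N.filter fun z => ¬ (k z < k x)).card =
        N.card := Finset.card_filter_add_card_filter_not _
    have h4 : (N.filter fun z => ¬ (k z < k x)) = N.filter fun z => k x ≤ k z := by
      apply Finset.filter_congr
      intro z _
      exact not_lt
    rw [h4, h2] at h3
    omega
  have hinj : Set.InjOn (fun x => (N.filter fun z => k z ≤ k x).card - 1) (N : Set α) := by
    intro x hx y hy hxy
    have hx' : x ∈ N := hx
    have hy' : y ∈ N := hy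
    have h1 := hpos x hx'
    have h2 := hpos y hy'
    have hxy' : (N.filter fun z => k z ≤ k x).card - 1 =
      (N.filter fun z => k z ≤ k y).card - 1 := hxy
    rcases lt_trichotomy (k x) (k y) with h | h | h
    · have := hlt x hx' y hy' h
      omega
    · exact hk hx' hy' h
    · have := hlt y hy' x hx' h
      omega
  have himg : N.image (fun x => (N.filter fun z => k z ≤ k x).card - 1) = range N.card := by
    apply Finset.eq_of_subset_of_card_le
    · intro j hj
      obtain ⟨x, hx, rfl⟩ := Finset.mem_image.mp hj
      have h1 := hpos x hx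
      have h2 := hle x
      rw [mem_range]
      omega
    · rw [Finset.card_image_of_injOn hinj, card_range]
  rw [← himg, Finset.sum_image hinj]
  apply Finset.sum_congr rfl
  intro x hx
  rw [hco x hx, Nat.sub_add_cancel (hpos x hx)]

end Pool.Agent.TRI
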