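import Pool.Agent.TRI.A_Inv
import Pool.Agent.TRI.A_Deg
import Pool.Agent.TRI.A_Rank
import Pool.Agent.TRI.A_Nbr

namespace Pool.Agent.TRI

open Finset

open Classical in
/-- the neighbours of `fpt a` above -/
noncomputable def twNu (W : Finset Pt) (a : ℝ) (T : Finset (Sym2 Pt)) : Finset Pt :=
  W.filter fun u => 0 < u.2 ∧ s(fpt a, u) ∈ T

open Classical in
/-- the neighbours of `fpt a` below -/
noncomputable def twNd (W : Finset Pt) (a : ℝ) (T : Finset (Sym2 Pt)) : Finset Pt :=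
  W.filter fun u => u.2 < 0 ∧ s(fpt a, u) ∈ T

theorem tw_mem_Nu {W : Finset Pt} {a : ℝ} {T : Finset (Sym2 Pt)} {u : Pt} :
    u ∈ twNu W a T ↔ u ∈ W ∧ 0 < u.2 ∧ s(fpt a, u) ∈ T := by
  unfold twNu; rw [mem_filter]

theorem tw_mem_Nd {W : Finset Pt} {a : ℝ} {T : Finset (Sym2 Pt)} {u : Pt} :
    u ∈ twNd W a T ↔ u ∈ W ∧ u.2 < 0 ∧ s(fpt a, u) ∈ T := by
  unfold twNd; rw [mem_filter]

theorem tw_card_Nu (W : Finset Pt) (a : ℝ) (T : Finset (Sym2 Pt)) :
    (twNu W a T).card = up W T a := rfl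

theorem tw_card_Nd (W : Finset Pt) (a : ℝ) (T : Finset (Sym2 Pt)) :
    (twNd W a T).card = dn W T a := rfl

open Classical in
/-- the double sum over the shared neighbours in terms of the ranks -/
theorem tw_rank {W : Finset Pt} {A : Finset ℝ} {a a' : ℝ} (h : TH W A a a')
    (T : Finset (Sym2 Pt)) (H : ℕ → ℕ → ℕ → ℕ → ℕ) :
    ∑ x ∈ twNu W a T, ∑ y ∈ twNd W a T,
      H ((twNu W a T).filter fun z => thA a z ≤ thA a x).card
        ((twNd W a T).filter fun z => thA a z ≤ thA a y).card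
        ((twNu W a T).filter fun z => thA a x ≤ thA a z).card
        ((twNd W a T).filter fun z => thA a y ≤ thA a z).card =
      ∑ i ∈ range (up W T a), ∑ j ∈ range (dn W T a),
        H (i + 1) (j + 1) (up W T a - i) (dn W T a - j) := by
  have iu : Set.InjOn (thA a) (twNu W a T : Set Pt) := by
    intro x hx y hy he
    have hx' := tw_mem_Nu.1 (mem_coe.1 hx)
    have hy' := tw_mem_Nu.1 (mem_coe.1 hy)
    exact h.th_inj hx'.1 hy'.1 (Or.inl ⟨hx'.2.1, hy'.2.1⟩) he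
  have id' : Set.InjOn (thA a) (twNd W a T : Set Pt) := by
    intro x hx y hy he
    have hx' := tw_mem_Nd.1 (mem_coe.1 hx)
    have hy' := tw_mem_Nd.1 (mem_coe.1 hy)
    exact h.th_inj hx'.1 hy'.1 (Or.inr ⟨hx'.2.1, hy'.2.1⟩) he
  have h1 := sum_rank (twNu W a T) (thA a) iu fun p q => ∑ y ∈ twNd W a T,
      H p ((twNd W a T).filter fun z => thA a z ≤ thA a y).card q
        ((twNd W a T).filter fun z => thA a y ≤ thA a z).card
  rw [h1, tw_card_Nu]
  refine sum_congr rfl fun i _ => ?_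
  have h2 := sum_rank (twNd W a T) (thA a) id' fun p q => H (i + 1) p (up W T a - i) q
  rw [h2, tw_card_Nd]

/-- the triangulations of the set with the twin are the splits -/
theorem tw_surj {W : Finset Pt} {A : Finset ℝ} {a a' : ℝ} (h : TH W A a a')
    (hup : ∃ u ∈ W, 0 < u.2) (hdn : ∃ u ∈ W, u.2 < 0) {T' : Finset (Sym2 Pt)}
    (hT : T' ∈ tris (setWA W (insert a' A))) :
    ∃ T ∈ tris (setWA W A), ∃ x ∈ twNu W a T, ∃ y ∈ twNd W a T,
      spl W A a a' T x y = T' := by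
  classical
  have hT' := mem_tris.1 hT
  have hain : a ∈ insert a' A := mem_insert_of_mem h.ha
  have h1 : 0 < (twNu W a T').card := one_le_up W h.hW hup _ hT hain
  have h2 : 0 < (twNd W a T').card := one_le_dn W h.hW hdn _ hT hain
  obtain ⟨x, hx, hxm⟩ := exists_max_image (twNu W a T') (thA a) (card_pos.1 h1)
  obtain ⟨y, hy, hym⟩ := exists_max_image (twNd W a T') (thA a) (card_pos.1 h2)
  have hx' := tw_mem_Nu.1 hx
  have hy' := tw_mem_Nd.1 hy
  have hx3 := h.shared_up hT' hx'.1 hx'.2.1 hx'.2.2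
    fun z hz hz2 hzT => hxm z (tw_mem_Nu.2 ⟨hz, hz2, hzT⟩)
  have hy3 := h.shared_dn hT' hy'.1 hy'.2.1 hy'.2.2
    fun z hz hz2 hzT => hym z (tw_mem_Nd.2 ⟨hz, hz2, hzT⟩)
  refine ⟨con W A a a' T', mem_tris.2 (h.isTri_con hT'), x, ?_, y, ?_,
    h.spl_con hT' hx'.1 hx'.2.1 hx'.2.2 hx3 hy'.1 hy'.2.1 hy'.2.2 hy3⟩
  · exact tw_mem_Nu.2 ⟨hx'.1, hx'.2.1, (h.mem_con_P (mem_S0.2 (Or.inl hx'.1))).2
      (Or.inl hx'.2.2)⟩
  · exact tw_mem_Nd.2 ⟨hy'.1, hy'.2.1, (h.mem_con_P (mem_S0.2 (Or.inl hy'.1))).2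
      (Or.inl hy'.2.2)⟩

/-- A1: splitting an axis point into two neighbouring ones, with weights -/
theorem twin (W : Finset Pt) (hW : ∀ u ∈ W, u.2 ≠ 0) (hup : ∃ u ∈ W, 0 < u.2)
    (hdn : ∃ u ∈ W, u.2 < 0) (A : Finset ℝ) (a a' : ℝ) (ha : a ∈ A) (haa : a < a')
    (hA : ∀ b ∈ A, b ≤ a ∨ a' < b) (hC : Clear W a a') (g : ℝ → ℕ → ℕ → ℕ) :
    ∑ T ∈ tris (setWA W (insert a' A)), ∏ b ∈ insert a' A, g b (up W T b) (dn W T b) =
      ∑ T ∈ tris (setWA W A), (∏ b ∈ A.erase a, g b (up W T b) (dn W T b)) *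
        ∑ i ∈ range (up W T a), ∑ j ∈ range (dn W T a),
          g a (i + 1) (j + 1) * g a' (up W T a - i) (dn W T a - j) := by
  classical
  have h : TH W A a a' := ⟨hW, ha, haa, hA, hC⟩
  -- the value of the product for a split
  have hval : ∀ T ∈ tris (setWA W A), ∀ x ∈ twNu W a T, ∀ y ∈ twNd W a T,
      ∏ b ∈ insert a' A, g b (up W (spl W A a a' T x y) b) (dn W (spl W A a a' T x y) b) =
      (∏ b ∈ A.erase a, g b (up W T b) (dn W T b)) *
        (g a ((twNu W a T).filter fun z => thA a z ≤ thA a x).card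
          ((twNd W a T).filter fun z => thA a z ≤ thA a y).card *
        g a' ((twNu W a T).filter fun z => thA a x ≤ thA a z).card
          ((twNd W a T).filter fun z => thA a y ≤ thA a z).card) := by
    intro T hT x hx y hy
    rw [prod_insert h.notMem, ← mul_prod_erase A _ ha, h.up_spl_a, h.dn_spl_a, h.up_spl_a',
      h.dn_spl_a', prod_congr rfl (g := fun b => g b (up W T b) (dn W T b)) fun b hb => by
        rw [h.up_spl (mem_of_mem_erase hb) (ne_of_mem_erase hb),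
          h.dn_spl (mem_of_mem_erase hb) (ne_of_mem_erase hb)]]
    unfold twNu twNd
    ring
  -- reindexing
  have hre : ∑ p ∈ (tris (setWA W A)).sigma fun T => twNu W a T ×ˢ twNd W a T,
      (∏ b ∈ insert a' A, g b (up W (spl W A a a' p.1 p.2.1 p.2.2) b)
        (dn W (spl W A a a' p.1 p.2.1 p.2.2) b)) =
      ∑ T ∈ tris (setWA W (insert a' A)), ∏ b ∈ insert a' A, g b (up W T b) (dn W T b) := by
    refine sum_nbij (fun p => spl W A a a' p.1 p.2.1 p.2.2) ?_ ?_ ?_ (fun _ _ => rfl)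
    · rintro ⟨T, x, y⟩ hp
      rw [mem_sigma, mem_product] at hp
      have hx := tw_mem_Nu.1 hp.2.1
      have hy := tw_mem_Nd.1 hp.2.2
      exact mem_tris.2 (h.isTri_spl (mem_tris.1 hp.1) hx.1 hx.2.1 hx.2.2 hy.1 hy.2.1 hy.2.2)
    · rintro ⟨T, x, y⟩ hp ⟨T2, x2, y2⟩ hp2 he
      rw [mem_coe, mem_sigma, mem_product] at hp hp2
      have hx := tw_mem_Nu.1 hp.2.1
      have hy := tw_mem_Nd.1 hp.2.2
      have hx2 := tw_mem_Nu.1 hp2.2.1
      have hy2 := tw_mem_Nd.1 hp2.2.2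
      simp only at he hx hy hx2 hy2
      have c1 := h.con_spl (mem_tris.1 hp.1) hx.1 hx.2.1 hx.2.2 hy.1 hy.2.1 hy.2.2
      have c2 := h.con_spl (mem_tris.1 hp2.1) hx2.1 hx2.2.1 hx2.2.2 hy2.1 hy2.2.1 hy2.2.2
      simp only at c1 c2
      rw [he, c2] at c1
      subst c1
      have e1 := h.spl_inj_x hx.1 hx.2.1 hx.2.2 hx2.1 hx2.2.1 hx2.2.2 he
      have e2 := h.spl_inj_y hy.1 hy.2.1 hy.2.2 hy2.1 hy2.2.1 hy2.2.2 he
      rw [e1, e2]
    · intro T' hT'
      obtain ⟨T, hT, x, hx, y, hy, he⟩ := tw_surj h hup hdn (mem_coe.1 hT')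
      exact ⟨⟨T, x, y⟩, by
        rw [mem_coe, mem_sigma, mem_product]
        exact ⟨hT, hx, hy⟩, he⟩
  rw [← hre, sum_sigma]
  refine sum_congr rfl fun T hT => ?_
  rw [sum_product, sum_congr rfl fun x hx => sum_congr rfl fun y hy => hval T hT x hx y hy]
  rw [← tw_rank h T fun p q p' q' => g a p q * g a' p' q']
  rw [mul_sum]
  refine sum_congr rfl fun x _ => ?_
  rw [mul_sum]

end Pool.Agent.TRI
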