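import Pool.Agent.TRI.B_Def

/-!
Area B: the counting bound for noncrossing sets of pairs.
-/

namespace Pool.Agent.TRI

open Finset

variable {α : Type} {D : Side α} {A : Finset ℝ} {E : Finset (α × ℝ)}

/-- `a` is an inner neighbour of `v` -/
def Inn (E : Finset (α × ℝ)) (v : α) (a : ℝ) : Prop :=
  (v, a) ∈ E ∧ (∃ b, (v, b) ∈ E ∧ b < a) ∧ ∃ c, (v, c) ∈ E ∧ a < c

/-- hint: different heights: use the first (second) clause of `ncp` with the pairs `(v, a)` and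
`(w, b)`, `(w, c)`, `v` the higher point; same height: `pt` is injective, hence the abscissas
differ, say `v` left of `w`; use `(v, c)` and `(w, a)` -/
theorem inn_unique (hinj : Set.InjOn D.pt D.I) (hE : E ⊆ D.I ×ˢ A) (h : NCR D E) {v w : α}
    {a : ℝ} (hv : Inn E v a) (hw : Inn E w a) : v = w := by
  by_contra hne
  obtain ⟨hva, ⟨b, hvb, hba⟩, c, hvc, hac⟩ := hv
  obtain ⟨hwa, ⟨b', hwb, hba'⟩, c', hwc, hac'⟩ := hw
  have hvI : v ∈ D.I := (mem_product.1 (hE hva)).1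
  have hwI : w ∈ D.I := (mem_product.1 (hE hwa)).1
  rcases lt_trichotomy (D.pt w).2 (D.pt v).2 with hlt | heq | hlt
  · have h1 := (h v a hva w b' hwb hne).1 hlt
    have h2 := (h v a hva w c' hwc hne).1 hlt
    rcases h1 with h1 | h1
    · rcases h2 with h2 | h2
      · linarith [h2.2]
      · linarith [h2.1, h1.1]
    · linarith [h1.2]
  · have hx : (D.pt v).1 ≠ (D.pt w).1 := fun hx =>
      hne (hinj (by exact_mod_cast hvI) (by exact_mod_cast hwI) (Prod.ext hx heq.symm))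
    rcases lt_or_gt_of_ne hx with hx | hx
    · have h1 := (h v c hvc w a hwa hne).2.2.1 heq.symm hx
      linarith
    · have h1 := (h v b hvb w a hwa hne).2.2.2 heq.symm hx
      linarith
  · have h1 := (h v b hvb w a hwa hne).2.1 hlt
    have h2 := (h v c hvc w a hwa hne).2.1 hlt
    rcases h1 with h1 | h1
    · rcases h2 with h2 | h2
      · linarith [h2.2]
      · linarith [h2.1, h1.1]
    · linarith [h1.2]

open Classical in
theorem ncr_card_fib (v : α) :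
    ((E.filter fun p => ¬ Inn E p.1 p.2).filter fun p => p.1 = v).card ≤ 2 := by
  by_contra hcon
  rw [not_le, Finset.two_lt_card] at hcon
  obtain ⟨p, hp, q, hq, r, hr, hpq, hpr, hqr⟩ := hcon
  simp only [mem_filter] at hp hq hr
  obtain ⟨⟨hpE, hpI⟩, hp1⟩ := hp
  obtain ⟨⟨hqE, hqI⟩, hq1⟩ := hq
  obtain ⟨⟨hrE, hrI⟩, hr1⟩ := hr
  obtain ⟨p1, p2⟩ := p
  obtain ⟨q1, q2⟩ := q
  obtain ⟨r1, r2⟩ := r
  simp only at hp1 hq1 hr1 hpE hqE hrE hpI hqI hrI
  subst hp1; subst hq1; subst hr1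
  have e1 : p2 ≠ q2 := fun e => hpq (by rw [e])
  have e2 : p2 ≠ r2 := fun e => hpr (by rw [e])
  have e3 : q2 ≠ r2 := fun e => hqr (by rw [e])
  rcases lt_or_gt_of_ne e1 with h1 | h1 <;> rcases lt_or_gt_of_ne e2 with h2 | h2 <;>
    rcases lt_or_gt_of_ne e3 with h3 | h3
  · exact hqI ⟨hqE, ⟨_, hpE, h1⟩, _, hrE, h3⟩
  · exact hrI ⟨hrE, ⟨_, hpE, h2⟩, _, hqE, h3⟩
  · linarith
  · exact hpI ⟨hpE, ⟨_, hrE, h2⟩, _, hqE, h1⟩
  · exact hpI ⟨hpE, ⟨_, hqE, h1⟩, _, hrE, h2⟩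
  · linarith
  · exact hrI ⟨hrE, ⟨_, hqE, h3⟩, _, hpE, h2⟩
  · exact hqI ⟨hqE, ⟨_, hrE, h3⟩, _, hpE, h1⟩

open Classical in
theorem ncr_card_inn (hinj : Set.InjOn D.pt D.I) (hE : E ⊆ D.I ×ˢ A) (h : NCR D E) {a₀ a₁ : ℝ}
    (hmin : ∀ a ∈ A, a₀ ≤ a) (hmax : ∀ a ∈ A, a ≤ a₁) :
    (E.filter fun p => Inn E p.1 p.2).image Prod.snd ⊆ (A.erase a₀).erase a₁ ∧
      ((E.filter fun p => Inn E p.1 p.2).image Prod.snd).card =
        (E.filter fun p => Inn E p.1 p.2).card := by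
  constructor
  · intro a ha
    rw [mem_image] at ha
    obtain ⟨p, hp, rfl⟩ := ha
    rw [mem_filter] at hp
    obtain ⟨hpE, _, ⟨b, hb, hba⟩, c, hc, hac⟩ := hp
    have hpA := (mem_product.1 (hE hpE)).2
    have hbA := (mem_product.1 (hE hb)).2
    have hcA := (mem_product.1 (hE hc)).2
    rw [mem_erase, mem_erase]
    refine ⟨?_, ?_, hpA⟩
    · have := hmax c hcA; intro he; linarith
    · have := hmin b hbA; intro he; linarith
  · apply card_image_of_injOn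
    intro p hp q hq hpq
    simp only [coe_filter, Set.mem_ofPred_eq] at hp hq
    obtain ⟨p1, p2⟩ := p
    obtain ⟨q1, q2⟩ := q
    simp only at hpq hp hq
    subst hpq
    have := inn_unique hinj hE h hp.2 hq.2
    rw [this]

open Classical in
theorem ncr_card_split (hE : E ⊆ D.I ×ˢ A) :
    E.card = (E.filter fun p => Inn E p.1 p.2).card +
      ∑ v ∈ D.I, ((E.filter fun p => ¬ Inn E p.1 p.2).filter fun p => p.1 = v).card := by
  rw [← card_filter_add_card_filter_not (s := E) (fun p => Inn E p.1 p.2)]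
  congr 1
  apply card_eq_sum_card_fiberwise
  intro p hp
  simp only [coe_filter, Set.mem_ofPred_eq] at hp
  exact_mod_cast (mem_product.1 (hE hp.1)).1

theorem ncr_card_A {a₀ a₁ : ℝ} (h0 : a₀ ∈ A) (h1 : a₁ ∈ A) (hlt : a₀ < a₁) :
    ((A.erase a₀).erase a₁).card + 2 = A.card := by
  have e1 : a₁ ∈ A.erase a₀ := mem_erase.2 ⟨hlt.ne', h1⟩
  have e2 := card_erase_add_one e1
  have e3 := card_erase_add_one h0
  omega

/-- hint: the number of `a` with `(v, a) ∈ E` is at most 2 plus the number of inner ones; by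
`inn_unique` the inner ones are different elements of `A` minus its two extreme elements -/
theorem ncr_card_le (hinj : Set.InjOn D.pt D.I) (hE : E ⊆ D.I ×ˢ A) (h : NCR D E) {a₀ a₁ : ℝ}
    (h0 : a₀ ∈ A) (h1 : a₁ ∈ A) (hlt : a₀ < a₁) (hmin : ∀ a ∈ A, a₀ ≤ a)
    (hmax : ∀ a ∈ A, a ≤ a₁) : E.card + 2 ≤ 2 * D.I.card + A.card := by
  classical
  have hs := ncr_card_split hE
  obtain ⟨hi1, hi2⟩ := ncr_card_inn hinj hE h hmin hmax
  have hi3 := card_le_card hi1
  have hA := ncr_card_A h0 h1 hlt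
  have hsum : ∑ v ∈ D.I, ((E.filter fun p => ¬ Inn E p.1 p.2).filter fun p => p.1 = v).card
      ≤ D.I.card * 2 := by
    rw [← smul_eq_mul]
    exact sum_le_card_nsmul _ _ _ fun v _ => ncr_card_fib v
  omega

/-- the case of equality -/
theorem ncr_card_eq (hinj : Set.InjOn D.pt D.I) (hE : E ⊆ D.I ×ˢ A) (h : NCR D E) {a₀ a₁ : ℝ}
    (h0 : a₀ ∈ A) (h1 : a₁ ∈ A) (hlt : a₀ < a₁) (hmin : ∀ a ∈ A, a₀ ≤ a)
    (hmax : ∀ a ∈ A, a ≤ a₁) (heq : E.card + 2 = 2 * D.I.card + A.card) :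
    (∀ v ∈ D.I, ∃ a b, (v, a) ∈ E ∧ (v, b) ∈ E ∧ a < b) ∧
      ∀ a ∈ A, a ≠ a₀ → a ≠ a₁ → ∃ v ∈ D.I, Inn E v a := by
  classical
  have hs := ncr_card_split hE
  obtain ⟨hi1, hi2⟩ := ncr_card_inn hinj hE h hmin hmax
  have hi3 := card_le_card hi1
  have hA := ncr_card_A h0 h1 hlt
  have hsum : ∑ v ∈ D.I, ((E.filter fun p => ¬ Inn E p.1 p.2).filter fun p => p.1 = v).card
      ≤ D.I.card * 2 := by
    rw [← smul_eq_mul]
    exact sum_le_card_nsmul _ _ _ fun v _ => ncr_card_fib v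
  constructor
  · intro v hv
    have hge : ∑ v ∈ D.I, ((E.filter fun p => ¬ Inn E p.1 p.2).filter fun p => p.1 = v).card
        = ∑ v ∈ D.I, 2 := by
      rw [sum_const, smul_eq_mul]; omega
    have hall := (sum_eq_sum_iff_of_le (fun v _ => ncr_card_fib (E := E) v)).1 hge v hv
    obtain ⟨p, q, hpq, hset⟩ := card_eq_two.1 hall
    have hp : p ∈ ((E.filter fun p => ¬ Inn E p.1 p.2).filter fun p => p.1 = v) := by
      rw [hset]; simp
    have hq : q ∈ ((E.filter fun p => ¬ Inn E p.1 p.2).filter fun p => p.1 = v) := by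
      rw [hset]; simp
    simp only [mem_filter] at hp hq
    obtain ⟨p1, p2⟩ := p
    obtain ⟨q1, q2⟩ := q
    obtain ⟨⟨hpE, _⟩, hp1⟩ := hp
    obtain ⟨⟨hqE, _⟩, hq1⟩ := hq
    simp only at hp1 hq1 hpE hqE
    subst hp1; subst hq1
    have hne : p2 ≠ q2 := fun e => hpq (by rw [e])
    rcases lt_or_gt_of_ne hne with hl | hl
    · exact ⟨p2, q2, hpE, hqE, hl⟩
    · exact ⟨q2, p2, hqE, hpE, hl⟩
  · intro a ha ha0 ha1
    have hcard : ((A.erase a₀).erase a₁).card ≤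
        ((E.filter fun p => Inn E p.1 p.2).image Prod.snd).card := by omega
    have hset := eq_of_subset_of_card_le hi1 hcard
    have hmem : a ∈ (E.filter fun p => Inn E p.1 p.2).image Prod.snd := by
      rw [hset, mem_erase, mem_erase]; exact ⟨ha1, ha0, ha⟩
    rw [mem_image] at hmem
    obtain ⟨p, hp, rfl⟩ := hmem
    rw [mem_filter] at hp
    exact ⟨p.1, (mem_product.1 (hE hp.1)).1, hp.2⟩

end Pool.Agent.TRI

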