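import Pool.Agent.TRI.B2_Count

/-!
Area B: full noncrossing sets come from tent systems. Notes: B.3 to B.5.
-/

namespace Pool.Agent.TRI

open Finset

variable {α : Type} {D : Side α} {F : ℕ} {x : ℕ → ℝ} {Bl : Finset ℝ} {E : Finset (α × ℝ)}
  {R : α → ℕ × ℕ}

/-- `R` gives the extreme neighbours -/
structure Ends (D : Side α) (F : ℕ) (x : ℕ → ℝ) (E : Finset (α × ℝ)) (R : α → ℕ × ℕ) : Prop where
  rt : R D.top = (0, F)
  out : ∀ w, w ∉ D.I → R w = (0, 0)
  bd : ∀ w ∈ D.I, w ≠ D.top → 0 < (R w).1 ∧ (R w).1 < (R w).2 ∧ (R w).2 < F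
  mem : ∀ w ∈ D.I, (w, x (R w).1) ∈ E ∧ (w, x (R w).2) ∈ E
  ext : ∀ w ∈ D.I, ∀ a, (w, a) ∈ E → x (R w).1 ≤ a ∧ a ≤ x (R w).2

theorem exists_ends_aux (hF : GoodFeet F x Bl) (hD : D.Good F x) (h : Full D F x Bl E) {w : α}
    (hw : w ∈ D.I) : ∃ i j, i < j ∧ j ≤ F ∧ (w, x i) ∈ E ∧ (w, x j) ∈ E ∧
      ∀ a, (w, a) ∈ E → x i ≤ a ∧ a ≤ x j := by
  classical
  have hF0 : 0 < F := by have := hF.two; omega
  have h0 : x 0 ∈ axPts F x Bl := by
    unfold axPts; exact mem_union_left _ (mem_image.2 ⟨0, by simp, rfl⟩)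
  have h1 : x F ∈ axPts F x Bl := by
    unfold axPts; exact mem_union_left _ (mem_image.2 ⟨F, by simp, rfl⟩)
  have hlt : x 0 < x F := hF.mono 0 F hF0 le_rfl
  have hax : ∀ a ∈ axPts F x Bl, (∃ i ≤ F, a = x i) ∨ a ∈ Bl := by
    intro a ha
    unfold axPts at ha
    rcases mem_union.1 ha with h2 | h2
    · left
      obtain ⟨i, hi, rfl⟩ := mem_image.1 h2
      exact ⟨i, by simpa [Nat.lt_succ_iff] using hi, rfl⟩
    · right; exact h2
  have hmin : ∀ a ∈ axPts F x Bl, x 0 ≤ a := by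
    intro a ha
    rcases hax a ha with ⟨i, hi, rfl⟩ | h2
    · rcases Nat.eq_zero_or_pos i with rfl | h3
      · exact le_rfl
      · exact (hF.mono 0 i h3 hi).le
    · exact (hF.bl a h2).1.le
  have hmax : ∀ a ∈ axPts F x Bl, a ≤ x F := by
    intro a ha
    rcases hax a ha with ⟨i, hi, rfl⟩ | h2
    · rcases Nat.lt_or_ge i F with h3 | h3
      · exact (hF.mono i F h3 le_rfl).le
      · have : i = F := by omega
        rw [this]
    · exact (hF.bl a h2).2.1.le
  obtain ⟨e1, e2⟩ := ncr_card_eq hD.inj h.sub h.nc h0 h1 hlt hmin hmax h.card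
  obtain ⟨a, b, hwa, hwb, hab⟩ := e1 w hw
  obtain ⟨N, hN⟩ : ∃ N : Finset ℝ, N = (axPts F x Bl).filter fun c => (w, c) ∈ E := ⟨_, rfl⟩
  have memN : ∀ c, c ∈ N ↔ (w, c) ∈ E := by
    intro c
    rw [hN, mem_filter]
    exact ⟨fun h2 => h2.2, fun h2 => ⟨(mem_product.1 (h.sub h2)).2, h2⟩⟩
  have hne : N.Nonempty := ⟨a, (memN a).2 hwa⟩
  have hm1 : (w, N.min' hne) ∈ E := (memN _).1 (N.min'_mem hne)
  have hm2 : (w, N.max' hne) ∈ E := (memN _).1 (N.max'_mem hne)
  have hlt2 : N.min' hne < N.max' hne :=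
    lt_of_le_of_lt (N.min'_le a ((memN a).2 hwa))
      (lt_of_lt_of_le hab (N.le_max' b ((memN b).2 hwb)))
  have nb : ∀ c, (w, c) ∈ E → c ∈ Bl → Inn E w c := by
    intro c hc hcb
    obtain ⟨v, hv, hv2⟩ := e2 c (mem_product.1 (h.sub hc)).2
      (fun h3 => by have := (hF.bl c hcb).1; linarith)
      (fun h3 => by have := (hF.bl c hcb).2.1; linarith)
    have := h.blk c hcb v w hv2.1 hc
    rw [← this]; exact hv2
  have g1 : ∃ i ≤ F, N.min' hne = x i := by
    rcases hax _ (mem_product.1 (h.sub hm1)).2 with h2 | h2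
    · exact h2
    · obtain ⟨_, ⟨c, hc, hc2⟩, _⟩ := nb _ hm1 h2
      exact absurd (N.min'_le c ((memN c).2 hc)) (not_le.2 hc2)
  have g2 : ∃ j ≤ F, N.max' hne = x j := by
    rcases hax _ (mem_product.1 (h.sub hm2)).2 with h2 | h2
    · exact h2
    · obtain ⟨_, _, ⟨c, hc, hc2⟩⟩ := nb _ hm2 h2
      exact absurd (N.le_max' c ((memN c).2 hc)) (not_le.2 hc2)
  obtain ⟨i, hi, hi2⟩ := g1
  obtain ⟨j, hj, hj2⟩ := g2
  refine ⟨i, j, ?_, hj, hi2 ▸ hm1, hj2 ▸ hm2, ?_⟩
  · by_contra hc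
    push Not at hc
    rw [hi2, hj2] at hlt2
    rcases Nat.lt_or_ge j i with h3 | h3
    · have := hF.mono j i h3 hi; linarith
    · have : i = j := by omega
      rw [this] at hlt2; exact lt_irrefl _ hlt2
  · intro c hc
    rw [← hi2, ← hj2]
    exact ⟨N.min'_le c ((memN c).2 hc), N.le_max' c ((memN c).2 hc)⟩

/-- hint: `ncr_card_eq` with `a₀ = x 0`, `a₁ = x F`; the smallest and the largest neighbour of `w`
are no blockers: a blocker has an inner owner by `ncr_card_eq`, and by `blk` this owner is its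
only neighbour; they are not `x 0`, `x F` for `w ≠ top` by `t0`, `tF` -/
theorem exists_ends (hF : GoodFeet F x Bl) (hD : D.Good F x) (h : Full D F x Bl E) :
    ∃ R, Ends D F x E R := by
  classical
  have key : ∀ w, ∃ r : ℕ × ℕ, w ∈ D.I → r.1 < r.2 ∧ r.2 ≤ F ∧ (w, x r.1) ∈ E ∧ (w, x r.2) ∈ E ∧
      ∀ a, (w, a) ∈ E → x r.1 ≤ a ∧ a ≤ x r.2 := by
    intro w
    by_cases hw : w ∈ D.I
    · obtain ⟨i, j, h1⟩ := exists_ends_aux hF hD h hw
      exact ⟨(i, j), fun _ => h1⟩
    · exact ⟨(0, 0), fun h1 => absurd h1 hw⟩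
  choose r hr using key
  have inj0 : ∀ i, i ≤ F → x i ≤ x 0 → i = 0 := by
    intro i hi h1
    rcases Nat.eq_zero_or_pos i with h2 | h2
    · exact h2
    · have := hF.mono 0 i h2 hi; linarith
  have injF : ∀ i, i ≤ F → x F ≤ x i → i = F := by
    intro i hi h1
    rcases Nat.lt_or_ge i F with h2 | h2
    · have := hF.mono i F h2 le_rfl; linarith
    · omega
  refine ⟨fun w => if w ∈ D.I then r w else (0, 0), ?_, ?_, ?_, ?_, ?_⟩
  · simp only [hD.top_mem, if_true]
    obtain ⟨h1, h2, _, _, h5⟩ := hr _ hD.top_mem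
    have t0 := h5 _ ((h.t0 D.top).2 rfl)
    have tF := h5 _ ((h.tF D.top).2 rfl)
    exact Prod.ext (inj0 _ (by omega) t0.1) (injF _ h2 tF.2)
  · intro w hw
    simp only [hw, if_false]
  · intro w hw hne
    simp only [hw, if_true]
    obtain ⟨h1, h2, h3, h4, _⟩ := hr w hw
    refine ⟨?_, h1, ?_⟩
    · rcases Nat.eq_zero_or_pos (r w).1 with h6 | h6
      · rw [h6] at h3
        exact absurd ((h.t0 w).1 h3) hne
      · exact h6
    · rcases Nat.lt_or_ge (r w).2 F with h6 | h6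
      · exact h6
      · have h7 : (r w).2 = F := by omega
        rw [h7] at h4
        exact absurd ((h.tF w).1 h4) hne
  · intro w hw
    simp only [hw, if_true]
    obtain ⟨_, _, h3, h4, _⟩ := hr w hw
    exact ⟨h3, h4⟩
  · intro w hw
    simp only [hw, if_true]
    exact (hr w hw).2.2.2.2

theorem ends_lam_idx (hF : GoodFeet F x Bl) {i j : ℕ} (hi : i ≤ F) (h : x i ≤ x j) : i ≤ j := by
  by_contra hc
  push Not at hc
  have := hF.mono j i hc hi
  linarith

theorem ends_lam_bd (hF : GoodFeet F x Bl) (hR : Ends D F x E R) {w : α} (hw : w ∈ D.I) :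
    (R w).1 < (R w).2 ∧ (R w).2 ≤ F := by
  by_cases h : w = D.top
  · rw [h, hR.rt]
    have := hF.two
    exact ⟨by simp only; omega, le_rfl⟩
  · have := hR.bd w hw h
    exact ⟨this.2.1, this.2.2.le⟩

/-- hint: `ncp` for `v`, `w` with `a = x (R v).1` and with `a = x (R v).2` against both ends of
`w` -/
theorem ends_lam (hF : GoodFeet F x Bl) (hD : D.Good F x) (h : Full D F x Bl E)
    (hR : Ends D F x E R) {v w : α} (hv : v ∈ D.I) (hw : w ∈ D.I)
    (hlt : (D.pt w).2 < (D.pt v).2) :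
    ((R v).1 ≤ (R w).1 ∧ (R w).2 ≤ (R v).2) ∨ (R w).2 ≤ (R v).1 ∨ (R v).2 ≤ (R w).1 := by
  have hne : v ≠ w := by
    rintro rfl; exact lt_irrefl _ hlt
  obtain ⟨v1, v2⟩ := ends_lam_bd hF hR hv
  obtain ⟨w1, w2⟩ := ends_lam_bd hF hR hw
  obtain ⟨m1, m2⟩ := hR.mem v hv
  obtain ⟨n1, n2⟩ := hR.mem w hw
  have c11 := (h.nc v _ m1 w _ n1 hne).1 hlt
  have c12 := (h.nc v _ m1 w _ n2 hne).1 hlt
  have c21 := (h.nc v _ m2 w _ n1 hne).1 hlt
  have c22 := (h.nc v _ m2 w _ n2 hne).1 hlt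
  rcases c12 with c12 | c12
  · right; left
    exact ends_lam_idx hF w2 c12.2
  · rcases c21 with c21 | c21
    · left
      constructor
      · refine ends_lam_idx hF (by omega) ?_
        rcases c11 with c11 | c11
        · exact absurd c11.1 (not_lt.2 c12.1.le)
        · exact c11.2
      · refine ends_lam_idx hF w2 ?_
        rcases c22 with c22 | c22
        · exact c22.2
        · exact absurd c22.1 (not_lt.2 c21.1.le)
    · right; right
      exact ends_lam_idx hF v2 c21.2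

theorem ends_same (hF : GoodFeet F x Bl) (hD : D.Good F x) (h : Full D F x Bl E)
    (hR : Ends D F x E R) {v w : α} (hv : v ∈ D.I) (hw : w ∈ D.I) (hne : v ≠ w)
    (heq : (D.pt v).2 = (D.pt w).2) : (R w).2 ≤ (R v).1 ∨ (R v).2 ≤ (R w).1 := by
  have hx : (D.pt v).1 ≠ (D.pt w).1 := fun h1 => hne (hD.inj hv hw (Prod.ext h1 heq))
  obtain ⟨v1, v2⟩ := ends_lam_bd hF hR hv
  obtain ⟨w1, w2⟩ := ends_lam_bd hF hR hw
  obtain ⟨m1, m2⟩ := hR.mem v hv
  obtain ⟨n1, n2⟩ := hR.mem w hw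
  rcases lt_or_gt_of_ne hx with h1 | h1
  · right
    exact ends_lam_idx hF v2 ((h.nc v _ m2 w _ n1 hne).2.2.1 heq h1)
  · left
    exact ends_lam_idx hF w2 ((h.nc v _ m1 w _ n2 hne).2.2.2 heq h1)

/-- every axis point strictly inside the interval of `o` and adjacent to `o` is not strictly
inside the interval of a lower point -/
theorem inner_lowest (hF : GoodFeet F x Bl) (hD : D.Good F x) (h : Full D F x Bl E)
    (hR : Ends D F x E R) {v w : α} (hv : v ∈ D.I) (hw : w ∈ D.I) {a : ℝ} (hva : (v, a) ∈ E)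
    (h1 : x (R w).1 < a) (h2 : a < x (R w).2) : (D.pt v).2 ≤ (D.pt w).2 := by
  by_contra hc
  push Not at hc
  have hne : v ≠ w := by
    rintro rfl; exact lt_irrefl _ hc
  obtain ⟨n1, n2⟩ := hR.mem w hw
  rcases (h.nc v _ hva w _ n1 hne).1 hc with c1 | c1
  · rcases (h.nc v _ hva w _ n2 hne).1 hc with c2 | c2
    · exact absurd c2.2 (not_le.2 h2)
    · exact absurd c2.1 (not_lt.2 c1.1.le)
  · exact absurd c1.2 (not_le.2 h1)

theorem ends_par_mono (hF : GoodFeet F x Bl) {i j : ℕ} (hi : i ≤ F) (h : x i < x j) :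
    i < j := by
  by_contra hcon
  rcases Nat.lt_or_ge j i with h1 | h1
  · have := hF.mono j i h1 hi
    linarith
  · have : i = j := by omega
    rw [this] at h
    exact lt_irrefl _ h

theorem ends_par_le (hF : GoodFeet F x Bl) {i j : ℕ} (hij : i ≤ j) (hj : j ≤ F) :
    x i ≤ x j := by
  rcases Nat.lt_or_ge i j with h | h
  · exact (hF.mono i j h hj).le
  · have : i = j := by omega
    rw [this]

theorem ends_par_bd (hF : GoodFeet F x Bl) (hR : Ends D F x E R) {w : α} (hw : w ∈ D.I) :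
    (R w).1 < (R w).2 ∧ (R w).2 ≤ F := by
  by_cases ht : w = D.top
  · rw [ht, hR.rt]
    have := hF.two
    exact ⟨by simp only; omega, le_refl _⟩
  · have := hR.bd w hw ht
    omega

/-- the parent owns the ends of `w` which are strictly inside its interval -/
theorem ends_par_own (hF : GoodFeet F x Bl) (hD : D.Good F x) (h : Full D F x Bl E)
    (hR : Ends D F x E R) {v w : α} (hw : w ∈ D.I) (hp : IsPar D R v w) (hwt : w ≠ D.top)
    {f : ℕ} (hf : f = (R w).1 ∨ f = (R w).2) (h1 : x (R v).1 < x f) (h2 : x f < x (R v).2) :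
    (v, x f) ∈ E := by
  classical
  obtain ⟨hv, hlt, hi1, hi2, hmin⟩ := hp
  have bw := hR.bd w hw hwt
  have bv := ends_par_bd hF hR hv
  have hfF : 0 < f ∧ f < F := by rcases hf with rfl | rfl <;> omega
  have hwf : (w, x f) ∈ E := by
    rcases hf with rfl | rfl
    · exact (hR.mem w hw).1
    · exact (hR.mem w hw).2
  have hA : ∀ i ≤ F, x i ∈ axPts F x Bl := fun i hi =>
    mem_union_left _ (mem_image.2 ⟨i, mem_range.2 (by omega), rfl⟩)
  have h0F : x 0 < x F := hF.mono 0 F (by omega) le_rfl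
  have hmin' : ∀ a ∈ axPts F x Bl, x 0 ≤ a := by
    intro a ha
    rcases mem_union.1 ha with ha | ha
    · obtain ⟨i, hi, rfl⟩ := mem_image.1 ha
      exact ends_par_le hF (Nat.zero_le _) (by have := mem_range.1 hi; omega)
    · exact (hF.bl a ha).1.le
  have hmax' : ∀ a ∈ axPts F x Bl, a ≤ x F := by
    intro a ha
    rcases mem_union.1 ha with ha | ha
    · obtain ⟨i, hi, rfl⟩ := mem_image.1 ha
      exact ends_par_le hF (by have := mem_range.1 hi; omega) le_rfl
    · exact (hF.bl a ha).2.1.le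
  obtain ⟨-, hown⟩ := ncr_card_eq hD.inj h.sub h.nc (hA 0 (Nat.zero_le _)) (hA F le_rfl) h0F
    hmin' hmax' h.card
  obtain ⟨o, ho, hof, ⟨b, hb, hbf⟩, ⟨c, hc, hcf⟩⟩ := hown (x f) (hA f hfF.2.le)
    (ne_of_gt (hF.mono 0 f hfF.1 hfF.2.le)) (ne_of_lt (hF.mono f F hfF.2 le_rfl))
  have o1 : x (R o).1 < x f := lt_of_le_of_lt (hR.ext o ho b hb).1 hbf
  have o2 : x f < x (R o).2 := lt_of_lt_of_le hcf (hR.ext o ho c hc).2
  have bo := ends_par_bd hF hR ho
  have no1 : (R o).1 < f := ends_par_mono hF (by omega) o1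
  have no2 : f < (R o).2 := ends_par_mono hF (by omega) o2
  have nv1 : (R v).1 < f := ends_par_mono hF (by omega) h1
  have nv2 : f < (R v).2 := ends_par_mono hF (by omega) h2
  by_cases hov : o = v
  · rw [← hov]
    exact hof
  exfalso
  have how : o ≠ w := by
    rintro rfl
    rcases hf with rfl | rfl <;> omega
  have h3 := inner_lowest hF hD h hR hw ho hwf o1 o2
  have h4 : (D.pt w).2 < (D.pt o).2 := by
    rcases h3.lt_or_eq with h4 | h4
    · exact h4
    · exfalso
      have h5 := ends_same hF hD h hR hw ho how.symm h4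
      rcases hf with rfl | rfl <;> omega
  have h5 : (R o).1 ≤ (R w).1 ∧ (R w).2 ≤ (R o).2 := by
    have h5 := ends_lam hF hD h hR ho hw h4
    rcases hf with rfl | rfl <;> omega
  have h6 := hmin o ho h4 h5.1 h5.2
  have h7 : (D.pt v).2 < (D.pt o).2 := by
    rcases h6.lt_or_eq with h7 | h7
    · exact h7
    · exfalso
      have h8 := ends_same hF hD h hR hv ho (Ne.symm hov) h7
      omega
  have h8 := inner_lowest hF hD h hR ho hv hof h1 h2
  linarith

/-- hint: notes, B.4: let `v` be the parent of `w`, `t = sl v w`, suppose `x (R w).2 ≤ t`; then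
`t < x (R v).2`; let `o` be the inner owner of `x (R w).2` (`ncr_card_eq`); the three cases
`o = w`, `o = v`, else are contradictory; symmetric for `t ≤ x (R w).1` -/
theorem ends_par (hF : GoodFeet F x Bl) (hD : D.Good F x) (h : Full D F x Bl E)
    (hR : Ends D F x E R) {v w : α} (hw : w ∈ D.I) (hp : IsPar D R v w) :
    x (R w).1 < sl (D.pt v) (D.pt w) ∧ sl (D.pt v) (D.pt w) < x (R w).2 := by
  have hp' := hp
  obtain ⟨hv, hlt, hi1, hi2, hmin⟩ := hp
  have hwt : w ≠ D.top := by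
    rintro rfl
    have hvt : v ≠ D.top := by
      rintro rfl
      exact lt_irrefl _ hlt
    have := (hD.inside v hv hvt).1
    linarith
  have bw := hR.bd w hw hwt
  have bv := ends_par_bd hF hR hv
  have hvw : v ≠ w := by
    rintro rfl
    exact lt_irrefl _ hlt
  have hww : x (R w).1 < x (R w).2 := hF.mono _ _ bw.2.1 (by omega)
  have hvl : x (R v).1 ≤ x (R w).1 := ends_par_le hF hi1 (by omega)
  have hvr : x (R w).2 ≤ x (R v).2 := ends_par_le hF hi2 bv.2
  have key : ∀ a, (v, a) ∈ E → ∀ b, (w, b) ∈ E →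
      (sl (D.pt v) (D.pt w) < a ∧ b ≤ a) ∨ (a < sl (D.pt v) (D.pt w) ∧ a ≤ b) :=
    fun a ha b hb => (h.nc v a ha w b hb hvw).1 hlt
  constructor
  · by_contra hcon
    push Not at hcon
    have h1 : x (R v).1 < sl (D.pt v) (D.pt w) := by
      rcases key _ (hR.mem v hv).1 _ (hR.mem w hw).2 with h1 | h1
      · linarith [h1.2]
      · exact h1.1
    have h2 := ends_par_own hF hD h hR hw hp' hwt (Or.inl rfl) (lt_of_lt_of_le h1 hcon)
      (by linarith)
    rcases key _ h2 _ (hR.mem w hw).2 with h3 | h3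
    · linarith [h3.2]
    · linarith [h3.1]
  · by_contra hcon
    push Not at hcon
    have h1 : sl (D.pt v) (D.pt w) < x (R v).2 := by
      rcases key _ (hR.mem v hv).2 _ (hR.mem w hw).1 with h1 | h1
      · exact h1.1
      · linarith [h1.2]
    have h2 := ends_par_own hF hD h hR hw hp' hwt (Or.inr rfl) (by linarith)
      (lt_of_le_of_lt hcon h1)
    rcases key _ h2 _ (hR.mem w hw).1 with h3 | h3
    · linarith [h3.1]
    · linarith [h3.2]

/-- the inner owner of an axis point -/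
theorem ends_ER_own (hF : GoodFeet F x Bl) (hD : D.Good F x) (h : Full D F x Bl E)
    (hR : Ends D F x E R) {a : ℝ} (ha : a ∈ axPts F x Bl) (h0 : x 0 < a) (h1 : a < x F) :
    ∃ o ∈ D.I, (o, a) ∈ E ∧ x (R o).1 < a ∧ a < x (R o).2 := by
  classical
  have hle : ∀ i j : ℕ, i ≤ j → j ≤ F → x i ≤ x j := by
    intro i j hij hj
    rcases Nat.lt_or_ge i j with h | h
    · exact (hF.mono i j h hj).le
    · have : i = j := by omega
      rw [this]
  have hA : ∀ i ≤ F, x i ∈ axPts F x Bl := fun i hi =>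
    mem_union_left _ (mem_image.2 ⟨i, mem_range.2 (by omega), rfl⟩)
  have hmin' : ∀ a ∈ axPts F x Bl, x 0 ≤ a := by
    intro a ha
    rcases mem_union.1 ha with ha | ha
    · obtain ⟨i, hi, rfl⟩ := mem_image.1 ha
      exact hle _ _ (Nat.zero_le _) (by have := mem_range.1 hi; omega)
    · exact (hF.bl a ha).1.le
  have hmax' : ∀ a ∈ axPts F x Bl, a ≤ x F := by
    intro a ha
    rcases mem_union.1 ha with ha | ha
    · obtain ⟨i, hi, rfl⟩ := mem_image.1 ha
      exact hle _ _ (by have := mem_range.1 hi; omega) le_rfl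
    · exact (hF.bl a ha).2.1.le
  obtain ⟨-, hown⟩ := ncr_card_eq hD.inj h.sub h.nc (hA 0 (Nat.zero_le _)) (hA F le_rfl)
    (h0.trans h1) hmin' hmax' h.card
  obtain ⟨o, ho, hof, ⟨b, hb, hbf⟩, ⟨c, hc, hcf⟩⟩ := hown a ha (ne_of_gt h0) (ne_of_lt h1)
  exact ⟨o, ho, hof, lt_of_le_of_lt (hR.ext o ho b hb).1 hbf,
    lt_of_lt_of_le hcf (hR.ext o ho c hc).2⟩

/-- hint: notes, B.5 -/
theorem ends_ER (hF : GoodFeet F x Bl) (hD : D.Good F x) (h : Full D F x Bl E)
    (hR : Ends D F x E R) : E = ER D F x Bl R := by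
  classical
  have hle : ∀ i j : ℕ, i ≤ j → j ≤ F → x i ≤ x j := by
    intro i j hij hj
    rcases Nat.lt_or_ge i j with h | h
    · exact (hF.mono i j h hj).le
    · have : i = j := by omega
      rw [this]
  have hbd : ∀ w ∈ D.I, (R w).1 < (R w).2 ∧ (R w).2 ≤ F := by
    intro w hw
    by_cases ht : w = D.top
    · rw [ht, hR.rt]
      have := hF.two
      exact ⟨by simp only; omega, le_refl _⟩
    · have := hR.bd w hw ht
      omega
  ext ⟨v, a⟩
  unfold ER
  rw [mem_filter]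
  constructor
  · intro hva
    have hm := h.sub hva
    refine ⟨hm, ?_⟩
    have hv := (mem_product.1 hm).1
    have he := hR.ext v hv a hva
    simp only at hv ⊢
    rcases he.1.lt_or_eq with h1 | h1
    · rcases he.2.lt_or_eq with h2 | h2
      · right; right
        exact ⟨h1, h2, fun w hw h3 h4 => inner_lowest hF hD h hR hv hw hva h3 h4⟩
      · right; left
        exact h2
    · left
      exact h1.symm
  · rintro ⟨hm, h1⟩
    have hv := (mem_product.1 hm).1
    have ha := (mem_product.1 hm).2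
    simp only at hv ha h1
    rcases h1 with h1 | h1 | ⟨h1, h2, h3⟩
    · rw [h1]
      exact (hR.mem v hv).1
    · rw [h1]
      exact (hR.mem v hv).2
    · have bv := hbd v hv
      obtain ⟨o, ho, hoa, o1, o2⟩ := ends_ER_own hF hD h hR ha
        (lt_of_le_of_lt (hle _ _ (Nat.zero_le _) (by omega)) h1)
        (lt_of_lt_of_le h2 (hle _ _ bv.2 le_rfl))
      have bo := hbd o ho
      have h4 := h3 o ho o1 o2
      have h5 := inner_lowest hF hD h hR ho hv hoa h1 h2
      by_cases hov : o = v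
      · rw [← hov]
        exact hoa
      · exfalso
        rcases ends_same hF hD h hR ho hv hov (le_antisymm h5 h4) with h6 | h6
        · have := hle _ _ h6 (by omega)
          linarith
        · have := hle _ _ h6 (by omega)
          linarith

theorem full_exists_TS (hF : GoodFeet F x Bl) (hD : D.Good F x) (h : Full D F x Bl E) :
    ∃ R, IsTS D F x R ∧ E = ER D F x Bl R := by
  obtain ⟨R, hR⟩ := exists_ends hF hD h
  exact ⟨R, ⟨hR.rt, hR.bd, fun v hv w hw => ends_lam hF hD h hR hv hw,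
    fun v hv w hw => ends_same hF hD h hR hv hw, fun w hw v => ends_par hF hD h hR hw,
    hR.out⟩, ends_ER hF hD h hR⟩

end Pool.Agent.TRI

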