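import Pool.Agent.TRI.B2_Count

/-!
Area B: the noncrossing set of a tent system. Notes: B.6 (with the simplified proofs described in
the hints).
-/

namespace Pool.Agent.TRI

open Finset

variable {α : Type} {D : Side α} {F : ℕ} {x : ℕ → ℝ} {Bl : Finset ℝ} {R R' : α → ℕ × ℕ}

theorem ts_lt (hR : IsTS D F x R) (hF : GoodFeet F x Bl) {w : α} (hw : w ∈ D.I) :
    (R w).1 < (R w).2 ∧ (R w).2 ≤ F := by
  by_cases h : w = D.top
  · rw [h, hR.rt]
    have := hF.two
    exact ⟨by simp only; omega, le_rfl⟩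
  · have := hR.bd w hw h
    exact ⟨this.2.1, this.2.2.le⟩

theorem ts_over_le (hR : IsTS D F x R) {w : α} (hw : w ∈ D.I) : (R w).1 ≤ (R w).2 := by
  by_cases h : w = D.top
  · rw [h, hR.rt]
    exact Nat.zero_le _
  · exact (hR.bd w hw h).2.1.le

/-- a point whose interval strictly contains a foot of the interval of `w` (or covers a gap of it
and is not inside) is higher than `w` and its interval contains the one of `w`: first form -/
theorem ts_over (hR : IsTS D F x R) (hD : D.Good F x) {u w : α} (hu : u ∈ D.I) (hw : w ∈ D.I)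
    {f : ℕ} (h1 : (R u).1 < f) (h2 : f < (R u).2) (h3 : f = (R w).1 ∨ f = (R w).2) :
    (D.pt w).2 < (D.pt u).2 ∧ (R u).1 ≤ (R w).1 ∧ (R w).2 ≤ (R u).2 := by
  have hne : u ≠ w := by
    rintro rfl
    omega
  have hle := ts_over_le hR hw
  rcases lt_trichotomy (D.pt w).2 (D.pt u).2 with h | h | h
  · rcases hR.lam u hu w hw h with h4 | h4 | h4
    · exact ⟨h, h4.1, h4.2⟩
    · omega
    · omega
  · rcases hR.same u hu w hw hne h.symm with h4 | h4
    · omega
    · omega
  · rcases hR.lam w hw u hu h with h4 | h4 | h4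
    · omega
    · omega
    · omega

/-- second form: both cover the gap `g` and `u ≠ w`: one of them contains the other and is
higher -/
theorem ts_gap (hR : IsTS D F x R) (hD : D.Good F x) {u w : α} (hu : u ∈ D.I) (hw : w ∈ D.I)
    (hne : u ≠ w) {g : ℕ} (h1 : (R u).1 ≤ g) (h2 : g < (R u).2) (h3 : (R w).1 ≤ g)
    (h4 : g < (R w).2) :
    ((D.pt w).2 < (D.pt u).2 ∧ (R u).1 ≤ (R w).1 ∧ (R w).2 ≤ (R u).2) ∨
      ((D.pt u).2 < (D.pt w).2 ∧ (R w).1 ≤ (R u).1 ∧ (R u).2 ≤ (R w).2) := by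
  rcases lt_trichotomy (D.pt w).2 (D.pt u).2 with h | h | h
  · rcases hR.lam u hu w hw h with h5 | h5 | h5
    · exact Or.inl ⟨h, h5.1, h5.2⟩
    · omega
    · omega
  · rcases hR.same u hu w hw hne h.symm with h5 | h5
    · omega
    · omega
  · rcases hR.lam w hw u hu h with h5 | h5 | h5
    · exact Or.inr ⟨h, h5.1, h5.2⟩
    · omega
    · omega

/-- parents exist -/
theorem exists_par (hR : IsTS D F x R) (hD : D.Good F x) {w : α} (hw : w ∈ D.I)
    (ht : w ≠ D.top) : ∃ v, IsPar D R v w := by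
  classical
  set S := D.I.filter (fun u => (D.pt w).2 < (D.pt u).2 ∧ (R u).1 ≤ (R w).1 ∧ (R w).2 ≤ (R u).2)
    with hS
  have htop : D.top ∈ S := by
    rw [hS, mem_filter]
    refine ⟨hD.top_mem, (hD.inside w hw ht).1, ?_, ?_⟩
    · rw [hR.rt]; exact Nat.zero_le _
    · rw [hR.rt]; exact (hR.bd w hw ht).2.2.le
  obtain ⟨v, hv, hmin⟩ := S.exists_min_image (fun u => (D.pt u).2) ⟨_, htop⟩
  have hv' := (mem_filter.1 (hS ▸ hv))
  refine ⟨v, hv'.1, hv'.2.1, hv'.2.2.1, hv'.2.2.2, fun u hu h1 h2 h3 => ?_⟩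
  exact hmin u (by rw [hS, mem_filter]; exact ⟨hu, h1, h2, h3⟩)

/-- every axis point between `x 0` and `x F` has exactly one owner -/
theorem exists_owner (hR : IsTS D F x R) (hF : GoodFeet F x Bl) (hD : D.Good F x) {a : ℝ}
    (ha : a ∈ axPts F x Bl) (h0 : x 0 < a) (h1 : a < x F) :
    ∃ v ∈ D.I, (x (R v).1 < a ∧ a < x (R v).2 ∧
      (∀ w ∈ D.I, x (R w).1 < a → a < x (R w).2 → (D.pt v).2 ≤ (D.pt w).2)) ∧
      ∀ v' ∈ D.I, x (R v').1 < a → a < x (R v').2 →
        (∀ w ∈ D.I, x (R w).1 < a → a < x (R w).2 → (D.pt v').2 ≤ (D.pt w).2) → v' = v := by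
  classical
  have hxle : ∀ i j, i ≤ j → j ≤ F → x i ≤ x j := by
    intro i j hij hj
    rcases Nat.lt_or_ge i j with h | h
    · exact (hF.mono i j h hj).le
    · have : i = j := by omega
      rw [this]
  set S := D.I.filter (fun u => x (R u).1 < a ∧ a < x (R u).2) with hS
  have htop : D.top ∈ S := by
    rw [hS, mem_filter, hR.rt]
    exact ⟨hD.top_mem, h0, h1⟩
  obtain ⟨v, hv, hmin⟩ := S.exists_min_image (fun u => (D.pt u).2) ⟨_, htop⟩
  have hv' := (mem_filter.1 (hS ▸ hv))
  have hlow : ∀ w ∈ D.I, x (R w).1 < a → a < x (R w).2 → (D.pt v).2 ≤ (D.pt w).2 :=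
    fun w hw h2 h3 => hmin w (by rw [hS, mem_filter]; exact ⟨hw, h2, h3⟩)
  refine ⟨v, hv'.1, ⟨hv'.2.1, hv'.2.2, hlow⟩, fun v' hv2 h2 h3 h4 => ?_⟩
  by_contra hne
  have he : (D.pt v').2 = (D.pt v).2 :=
    le_antisymm (h4 v hv'.1 hv'.2.1 hv'.2.2) (hlow v' hv2 h2 h3)
  have b1 := ts_lt hR hF hv'.1
  have b2 := ts_lt hR hF hv2
  rcases hR.same v' hv2 v hv'.1 hne he with h5 | h5
  · have := hxle _ _ h5 (by omega)
    linarith [hv'.2.2]
  · have := hxle _ _ h5 (by omega)
    linarith [hv'.2.1]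

/-- hint: induction on the number of points of `D.I` with height between `w` and `v` (or on the
finset of lower points), with the parent `u` of `w`: if `u = v`: the axiom `par` and: `a` is not
strictly inside the interval of `w` (third clause of `ER`); otherwise `u` is lower than `v` and
inside, apply the induction hypothesis to `u` and `sl_avg` for `v`, `u`, `w` with `par` for
`u`, `w` -/
theorem anc_ncp (hR : IsTS D F x R) (hF : GoodFeet F x Bl) (hD : D.Good F x) {v w : α} {a : ℝ}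
    (hva : (v, a) ∈ ER D F x Bl R) (hw : w ∈ D.I) (hlt : (D.pt w).2 < (D.pt v).2)
    (h1 : (R v).1 ≤ (R w).1) (h2 : (R w).2 ≤ (R v).2) :
    (sl (D.pt v) (D.pt w) < a ∧ x (R w).2 ≤ a) ∨ (a < sl (D.pt v) (D.pt w) ∧ a ≤ x (R w).1) := by
  classical
  have hxle : ∀ i j, i ≤ j → j ≤ F → x i ≤ x j := by
    intro i j hij hj
    rcases Nat.lt_or_ge i j with h | h
    · exact (hF.mono i j h hj).le
    · have : i = j := by omega
      rw [this]
  have hv : v ∈ D.I := by
    unfold ER at hva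
    rw [mem_filter, mem_product] at hva
    exact hva.1.1
  have key : ∀ n : ℕ, ∀ w ∈ D.I, (D.I.filter fun u => (D.pt w).2 < (D.pt u).2).card ≤ n →
      (D.pt w).2 < (D.pt v).2 → (R v).1 ≤ (R w).1 → (R w).2 ≤ (R v).2 →
      (sl (D.pt v) (D.pt w) < a ∧ x (R w).2 ≤ a) ∨
        (a < sl (D.pt v) (D.pt w) ∧ a ≤ x (R w).1) := by
    intro n
    induction n with
    | zero =>
      intro w _ hn hlt _ _
      exfalso
      have hm : v ∈ D.I.filter fun u => (D.pt w).2 < (D.pt u).2 := mem_filter.2 ⟨hv, hlt⟩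
      have := Finset.card_pos.2 ⟨_, hm⟩
      omega
    | succ n ih =>
      intro w hw hn hlt h1 h2
      have hwt : w ≠ D.top := by
        rintro rfl
        by_cases hvt : v = D.top
        · rw [hvt] at hlt
          exact lt_irrefl _ hlt
        · have := (hD.inside v hv hvt).1
          linarith
      obtain ⟨u, hu⟩ := exists_par hR hD hw hwt
      have hpar := hR.par w hw u hu
      have hbw := ts_lt hR hF hw
      have hbv := ts_lt hR hF hv
      have hbu := ts_lt hR hF hu.1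
      have huv := hu.2.2.2.2 v hv hlt h1 h2
      by_cases he : u = v
      · subst he
        unfold ER at hva
        rw [mem_filter] at hva
        rcases hva.2 with h3 | h3 | ⟨_, _, h3⟩
        · simp only at h3
          right
          have h4 := hxle _ _ h1 (by omega)
          rw [h3]
          exact ⟨by linarith [hpar.1], h4⟩
        · simp only at h3
          left
          have h4 := hxle _ _ h2 hbv.2
          rw [h3]
          exact ⟨by linarith [hpar.2], h4⟩
        · by_cases h5 : x (R w).2 ≤ a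
          · left
            exact ⟨by linarith [hpar.2], h5⟩
          · right
            have h6 : a ≤ x (R w).1 := by
              by_contra hcon
              have := h3 w hw (not_le.1 hcon) (not_le.1 h5)
              simp only at this
              linarith
            exact ⟨by linarith [hpar.1], h6⟩
      · have hne : (D.pt u).2 ≠ (D.pt v).2 := by
          intro h3
          rcases hR.same u hu.1 v hv he h3 with h4 | h4
          · have := hu.2.2.1; have := hu.2.2.2.1; omega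
          · have := hu.2.2.1; have := hu.2.2.2.1; omega
        have hlt' : (D.pt u).2 < (D.pt v).2 := lt_of_le_of_ne huv hne
        have hsub : (R v).1 ≤ (R u).1 ∧ (R u).2 ≤ (R v).2 := by
          rcases hR.lam v hv u hu.1 hlt' with h4 | h4 | h4
          · exact h4
          · have := hu.2.2.1; have := hu.2.2.2.1; omega
          · have := hu.2.2.1; have := hu.2.2.2.1; omega
        have hcard : (D.I.filter fun t => (D.pt u).2 < (D.pt t).2).card ≤ n := by
          have hlt2 : (D.I.filter fun t => (D.pt u).2 < (D.pt t).2).card <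
              (D.I.filter fun t => (D.pt w).2 < (D.pt t).2).card := by
            apply Finset.card_lt_card
            rw [Finset.ssubset_iff_of_subset]
            · refine ⟨u, mem_filter.2 ⟨hu.1, hu.2.1⟩, ?_⟩
              rw [mem_filter]
              exact fun h => lt_irrefl _ h.2
            · intro t ht
              rw [mem_filter] at ht ⊢
              exact ⟨ht.1, hu.2.1.trans ht.2⟩
          omega
        obtain ⟨t, ht0, ht1, hts⟩ := sl_avg hu.2.1 hlt' (hD.pos w hw)
        have e1 := hxle _ _ hu.2.2.1 (by omega)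
        have e2 := hxle _ _ hu.2.2.2.1 hbu.2
        rcases ih u hu.1 hcard hlt' hsub.1 hsub.2 with ⟨h4, h5⟩ | ⟨h4, h5⟩
        · left
          have h6 : sl (D.pt u) (D.pt w) < a := by linarith [hpar.2]
          refine ⟨?_, by linarith⟩
          rw [hts]
          nlinarith [mul_pos (sub_pos.2 ht1) (sub_pos.2 h4), mul_pos ht0 (sub_pos.2 h6)]
        · right
          have h6 : a < sl (D.pt u) (D.pt w) := by linarith [hpar.1]
          refine ⟨?_, by linarith⟩
          rw [hts]
          nlinarith [mul_pos (sub_pos.2 ht1) (sub_pos.2 h4), mul_pos ht0 (sub_pos.2 h6)]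
  exact key _ w hw le_rfl hlt h1 h2

/-- hint: `c` = lowest common container of `v`, `w` (higher than both; `top` is one), `a = x f`
with `f` the maximum of `(R u).2` over the `u ∈ D.I` with height below `c`, interval containing
the one of `v` and `(R u).2 ≤ (R w).1`. A strict container `w'` of `f` lower than `c` contains
the interval of the maximizer `u` (`ts_over`), hence of `v`; it is not left of `w` by
maximality, hence it contains the interval of `w` and is higher than `v`, `w` (`ts_gap`,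
`ts_over`): contradiction to the choice of `c` -/
theorem sep_exists (hR : IsTS D F x R) (hF : GoodFeet F x Bl) (hD : D.Good F x) {v w : α}
    (hv : v ∈ D.I) (hw : w ∈ D.I) (h : (R v).2 ≤ (R w).1) :
    ∃ c a, (c, a) ∈ ER D F x Bl R ∧ (D.pt v).2 < (D.pt c).2 ∧ (D.pt w).2 < (D.pt c).2 ∧
      (R c).1 ≤ (R v).1 ∧ (R w).2 ≤ (R c).2 ∧ x (R v).2 ≤ a ∧ a ≤ x (R w).1 := by
  classical
  obtain ⟨hv12, hv2F⟩ := ts_lt hR hF hv
  obtain ⟨hw12, hw2F⟩ := ts_lt hR hF hw
  have hvt : v ≠ D.top := by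
    rintro rfl
    rw [hR.rt] at h
    simp only at h
    omega
  have hwt : w ≠ D.top := by
    rintro rfl
    rw [hR.rt] at h
    simp only at h
    omega
  -- lowest common container
  have hC : ((D.I.filter fun c => (D.pt v).2 < (D.pt c).2 ∧ (D.pt w).2 < (D.pt c).2 ∧
      (R c).1 ≤ (R v).1 ∧ (R w).2 ≤ (R c).2)).Nonempty := by
    refine ⟨D.top, mem_filter.2 ⟨hD.top_mem, (hD.inside v hv hvt).1, (hD.inside w hw hwt).1,
      ?_, ?_⟩⟩
    · rw [hR.rt]; exact Nat.zero_le _
    · rw [hR.rt]; exact hw2F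
  obtain ⟨c, hc, hcmin⟩ := exists_min_image _ (fun c => (D.pt c).2) hC
  obtain ⟨hcI, hcv, hcw, hc1, hc2⟩ := mem_filter.1 hc
  -- the separating foot
  have hU : ((D.I.filter fun u => (D.pt u).2 < (D.pt c).2 ∧ (R u).1 ≤ (R v).1 ∧
      (R v).2 ≤ (R u).2 ∧ (R u).2 ≤ (R w).1)).Nonempty :=
    ⟨v, mem_filter.2 ⟨hv, hcv, le_rfl, le_rfl, h⟩⟩
  obtain ⟨u, hu, humax⟩ := exists_max_image _ (fun u => (R u).2) hU
  obtain ⟨huI, huc, hu1, hu2, hu3⟩ := mem_filter.1 hu
  have hfF : (R u).2 ≤ F := by omega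
  have hle : ∀ i j, i ≤ j → j ≤ F → x i ≤ x j := by
    intro i j hij hj
    rcases Nat.lt_or_eq_of_le hij with h1 | h1
    · exact (hF.mono i j h1 hj).le
    · rw [h1]
  have hlt' : ∀ i j, i ≤ F → x i < x j → i < j := by
    intro i j hi h1
    by_contra h2
    exact absurd (hle j i (by omega) hi) (not_le.2 h1)
  obtain ⟨hcc1, hcc2⟩ := ts_lt hR hF hcI
  have hmemA : x (R u).2 ∈ axPts F x Bl := by
    unfold axPts
    exact mem_union_left _ (mem_image_of_mem _ (mem_range.2 (by omega)))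
  refine ⟨c, x (R u).2, ?_, hcv, hcw, hc1, hc2, hle _ _ hu2 hfF, hle _ _ hu3 (by omega)⟩
  unfold ER
  rw [mem_filter, mem_product]
  refine ⟨⟨hcI, hmemA⟩, Or.inr (Or.inr ⟨?_, ?_, ?_⟩)⟩
  · exact hF.mono (R c).1 (R u).2 (by omega) hfF
  · exact hF.mono (R u).2 (R c).2 (by omega) hcc2
  · intro w' hw' h1 h2
    obtain ⟨hw'12, hw'2F⟩ := ts_lt hR hF hw'
    have h1' : (R w').1 < (R u).2 := hlt' _ _ (by omega) h1
    have h2' : (R u).2 < (R w').2 := hlt' _ _ hfF h2
    by_contra hlow
    have hlow' : (D.pt w').2 < (D.pt c).2 := not_le.1 hlow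
    obtain ⟨ha, hb, hc'⟩ := ts_over hR hD hw' huI h1' h2' (Or.inr rfl)
    have hnot : ¬ (R w').2 ≤ (R w).1 := by
      intro h3
      have h4 := humax w' (mem_filter.2 ⟨hw', hlow', by omega, by omega, h3⟩)
      omega
    obtain ⟨ha2, hb2, hc2'⟩ := ts_over hR hD hw' hw (f := (R w).1) (by omega) (by omega)
      (Or.inl rfl)
    obtain ⟨ha3, -, -⟩ := ts_over hR hD hw' hv (f := (R v).2) (by omega) (by omega)
      (Or.inr rfl)
    have h5 := hcmin w' (mem_filter.2 ⟨hw', ha3, ha2, by omega, hc2'⟩)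
    exact absurd h5 (not_le.2 hlow')

theorem ncr_ER_range (hR : IsTS D F x R) (hF : GoodFeet F x Bl) {v : α} {a : ℝ}
    (h : (v, a) ∈ ER D F x Bl R) :
    v ∈ D.I ∧ x (R v).1 < x (R v).2 ∧ x (R v).1 ≤ a ∧ a ≤ x (R v).2 := by
  classical
  unfold ER at h
  simp only [mem_filter, mem_product] at h
  obtain ⟨⟨hv, -⟩, h⟩ := h
  have h1 := ts_lt hR hF hv
  have h2 := hF.mono _ _ h1.1 h1.2
  refine ⟨hv, h2, ?_⟩
  rcases h with h | h | ⟨h, h', -⟩
  · rw [h]; exact ⟨le_rfl, h2.le⟩
  · rw [h]; exact ⟨h2.le, le_rfl⟩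
  · exact ⟨h.le, h'.le⟩

theorem ncr_ER_nest (hR : IsTS D F x R) (hF : GoodFeet F x Bl) (hD : D.Good F x) {v w : α}
    {a b : ℝ} (hva : (v, a) ∈ ER D F x Bl R) (hwb : (w, b) ∈ ER D F x Bl R)
    (hlt : (D.pt w).2 < (D.pt v).2) (h1 : (R v).1 ≤ (R w).1) (h2 : (R w).2 ≤ (R v).2) :
    (sl (D.pt v) (D.pt w) < a ∧ b ≤ a) ∨ (a < sl (D.pt v) (D.pt w) ∧ a ≤ b) := by
  have hw := ncr_ER_range hR hF hwb
  rcases anc_ncp hR hF hD hva hw.1 hlt h1 h2 with h | h
  · exact Or.inl ⟨h.1, hw.2.2.2.trans h.2⟩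
  · exact Or.inr ⟨h.1, h.2.trans hw.2.2.1⟩

theorem ncr_ER_disj (hR : IsTS D F x R) (hF : GoodFeet F x Bl) (hD : D.Good F x) {v w : α}
    {a b : ℝ} (hva : (v, a) ∈ ER D F x Bl R) (hwb : (w, b) ∈ ER D F x Bl R)
    (h : (R v).2 ≤ (R w).1) : a ≤ b ∧
      ((D.pt w).2 < (D.pt v).2 → a < sl (D.pt v) (D.pt w)) ∧
      ((D.pt v).2 < (D.pt w).2 → sl (D.pt w) (D.pt v) < b) ∧
      ((D.pt v).2 = (D.pt w).2 → (D.pt v).1 < (D.pt w).1) := by
  obtain ⟨hv, hvv, hva1, hva2⟩ := ncr_ER_range hR hF hva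
  obtain ⟨hw, hww, hwb1, hwb2⟩ := ncr_ER_range hR hF hwb
  obtain ⟨c, a', hca, hcv, hcw, hc1, hc2, ha1, ha2⟩ := sep_exists hR hF hD hv hw h
  have hpv := hD.pos v hv
  have hpw := hD.pos w hw
  have hlv := ts_lt hR hF hv
  have hlw := ts_lt hR hF hw
  have e1 : sl (D.pt c) (D.pt v) < a' := by
    rcases anc_ncp hR hF hD hca hv hcv hc1 (by omega) with h | h
    · exact h.1
    · exact absurd h.2 (by linarith)
  have e2 : a' < sl (D.pt c) (D.pt w) := by
    rcases anc_ncp hR hF hD hca hw hcw (by omega) hc2 with h | h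
    · exact absurd h.2 (by linarith)
    · exact h.1
  have e3 : th a' (D.pt v) < th a' (D.pt w) :=
    ((th_lt_iff hcv hpv a').2 e1).trans ((th_lt_iff' hcw hpw a').2 e2)
  refine ⟨by linarith, fun hlt => ?_, fun hlt => ?_, fun heq => ?_⟩
  · have := (th_lt_iff' hlt hpw a').1 e3
    linarith
  · have := (th_lt_iff hlt hpv a').1 e3
    linarith
  · unfold th at e3
    rw [heq, div_lt_div_iff_of_pos_right hpw] at e3
    linarith

/-- hint: for `v ≠ w`: nested intervals with different heights: `anc_ncp`; interior-disjoint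
intervals, `(R v).2 ≤ (R w).1`: with `c`, `a'` from `sep_exists`, `anc_ncp` gives
`sl c v < a'` and `a' < sl c w`, hence `th a' v < th a' c < th a' w` by `th_lt_iff`,
`th_lt_iff'`; then again `th_lt_iff` (different heights; `a ≤ a' ≤ b`), or the same height:
the abscissa of `v` is smaller -/
theorem ncr_ER (hR : IsTS D F x R) (hF : GoodFeet F x Bl) (hD : D.Good F x) :
    NCR D (ER D F x Bl R) := by
  intro v a hva w b hwb hne
  have hv := (ncr_ER_range hR hF hva).1
  have hw := (ncr_ER_range hR hF hwb).1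
  have key : (R w).2 ≤ (R v).1 ∨ (R v).2 ≤ (R w).1 → ncp (D.pt v) (D.pt w) a b := by
    rintro (h | h)
    · obtain ⟨h1, h2, h3, h4⟩ := ncr_ER_disj hR hF hD hwb hva h
      refine ⟨fun hlt => Or.inl ⟨h3 hlt, h1⟩, fun hlt => Or.inr ⟨h2 hlt, h1⟩,
        fun heq hlt => ?_, fun _ _ => h1⟩
      exact absurd hlt (lt_asymm (h4 heq.symm))
    · obtain ⟨h1, h2, h3, h4⟩ := ncr_ER_disj hR hF hD hva hwb h
      refine ⟨fun hlt => Or.inr ⟨h2 hlt, h1⟩, fun hlt => Or.inl ⟨h3 hlt, h1⟩,
        fun _ _ => h1, fun heq hlt => ?_⟩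
      exact absurd hlt (lt_asymm (h4 heq))
  rcases lt_trichotomy (D.pt v).2 (D.pt w).2 with hlt | heq | hlt
  · rcases hR.lam w hw v hv hlt with h | h | h
    · refine ⟨fun h' => absurd h' (lt_asymm hlt), fun _ => ?_, fun h' => absurd h' hlt.ne,
        fun h' => absurd h' hlt.ne⟩
      exact ncr_ER_nest hR hF hD hwb hva hlt h.1 h.2
    · exact key (Or.inr h)
    · exact key (Or.inl h)
  · exact key (hR.same v hv w hw hne heq)
  · rcases hR.lam v hv w hw hlt with h | h | h
    · refine ⟨fun _ => ?_, fun h' => absurd h' (lt_asymm hlt), fun h' => absurd h'.symm hlt.ne,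
        fun h' => absurd h'.symm hlt.ne⟩
      exact ncr_ER_nest hR hF hD hva hwb hlt h.1 h.2
    · exact key (Or.inl h)
    · exact key (Or.inr h)

theorem card_ER_xle (hF : GoodFeet F x Bl) {i j : ℕ} (hij : i ≤ j) (hj : j ≤ F) : x i ≤ x j := by
  rcases Nat.lt_or_ge i j with h | h
  · exact (hF.mono i j h hj).le
  · have : i = j := by omega
    rw [this]

theorem card_ER_xinj (hF : GoodFeet F x Bl) {i j : ℕ} (hi : i ≤ F) (hj : j ≤ F)
    (h : x i = x j) : i = j := by
  rcases lt_trichotomy i j with h1 | h1 | h1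
  · have := hF.mono i j h1 hj
    linarith
  · exact h1
  · have := hF.mono j i h1 hi
    linarith

theorem card_ER_mem (v : α) (a : ℝ) : (v, a) ∈ ER D F x Bl R ↔
    (v ∈ D.I ∧ a ∈ axPts F x Bl) ∧ (a = x (R v).1 ∨ a = x (R v).2 ∨
      (x (R v).1 < a ∧ a < x (R v).2 ∧
        ∀ w ∈ D.I, x (R w).1 < a → a < x (R w).2 → (D.pt v).2 ≤ (D.pt w).2)) := by
  classical
  unfold ER
  rw [mem_filter, mem_product]

theorem card_ER_foot {i : ℕ} (hi : i ≤ F) : x i ∈ axPts F x Bl := by
  classical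
  unfold axPts
  rw [mem_union, mem_image]
  exact Or.inl ⟨i, mem_range.2 (by omega), rfl⟩

theorem card_ER_range (hF : GoodFeet F x Bl) {a : ℝ} (ha : a ∈ axPts F x Bl) :
    x 0 ≤ a ∧ a ≤ x F := by
  classical
  unfold axPts at ha
  rw [mem_union, mem_image] at ha
  rcases ha with ⟨i, hi, rfl⟩ | h
  · rw [mem_range] at hi
    exact ⟨card_ER_xle hF (Nat.zero_le _) (by omega), card_ER_xle hF (by omega) le_rfl⟩
  · have := hF.bl a h
    exact ⟨this.1.le, this.2.1.le⟩

/-- the set of axis points strictly between the extreme feet -/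
theorem card_ER_inner (hF : GoodFeet F x Bl) :
    ((axPts F x Bl).filter fun a => x 0 < a ∧ a < x F).card + 2 = (axPts F x Bl).card := by
  classical
  have h0F : x 0 < x F := hF.mono 0 F (by have := hF.two; omega) le_rfl
  have he : (axPts F x Bl).filter (fun a => x 0 < a ∧ a < x F) =
      ((axPts F x Bl).erase (x 0)).erase (x F) := by
    ext a
    rw [mem_filter, mem_erase, mem_erase]
    constructor
    · rintro ⟨h1, h2, h3⟩
      exact ⟨ne_of_lt h3, ne_of_gt h2, h1⟩
    · rintro ⟨h1, h2, h3⟩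
      have h4 := card_ER_range hF h3
      exact ⟨h3, lt_of_le_of_ne h4.1 (Ne.symm h2), lt_of_le_of_ne h4.2 h1⟩
  have m1 : x 0 ∈ axPts F x Bl := card_ER_foot (Nat.zero_le _)
  have m2 : x F ∈ (axPts F x Bl).erase (x 0) :=
    mem_erase.2 ⟨ne_of_gt h0F, card_ER_foot le_rfl⟩
  have c1 := card_erase_add_one m1
  have c2 := card_erase_add_one m2
  rw [he]
  omega

/-- hint: `|ER| = ∑ over v of the two ends + ∑ over a of the owners` -/
theorem card_ER (hR : IsTS D F x R) (hF : GoodFeet F x Bl) (hD : D.Good F x) :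
    (ER D F x Bl R).card + 2 = 2 * D.I.card + (axPts F x Bl).card := by
  classical
  set A' := (axPts F x Bl).filter (fun a => x 0 < a ∧ a < x F) with hA'
  have how : ∀ a ∈ A', ∃ v ∈ D.I, (x (R v).1 < a ∧ a < x (R v).2 ∧
      (∀ w ∈ D.I, x (R w).1 < a → a < x (R w).2 → (D.pt v).2 ≤ (D.pt w).2)) ∧
      ∀ v' ∈ D.I, x (R v').1 < a → a < x (R v').2 →
        (∀ w ∈ D.I, x (R w).1 < a → a < x (R w).2 → (D.pt v').2 ≤ (D.pt w).2) → v' = v := by
    intro a ha
    rw [hA', mem_filter] at ha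
    exact exists_owner hR hF hD ha.1 ha.2.1 ha.2.2
  haveI : Inhabited α := ⟨D.top⟩
  choose! ow how1 how2 how3 using how
  set E1 := D.I.image (fun v => (v, x (R v).1)) with hE1
  set E2 := D.I.image (fun v => (v, x (R v).2)) with hE2
  set E3 := A'.image (fun a => (ow a, a)) with hE3
  have hxlt : ∀ v ∈ D.I, x (R v).1 < x (R v).2 := fun v hv =>
    hF.mono _ _ (ts_lt hR hF hv).1 (ts_lt hR hF hv).2
  have hER : ER D F x Bl R = (E1 ∪ E2) ∪ E3 := by
    ext ⟨v, a⟩
    rw [card_ER_mem, mem_union, mem_union, hE1, hE2, hE3, mem_image, mem_image, mem_image]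
    constructor
    · rintro ⟨⟨hv, ha⟩, h | h | h⟩
      · exact Or.inl (Or.inl ⟨v, hv, by rw [h]⟩)
      · exact Or.inl (Or.inr ⟨v, hv, by rw [h]⟩)
      · right
        have hb := ts_lt hR hF hv
        have haA : a ∈ A' := by
          rw [hA', mem_filter]
          refine ⟨ha, ?_, ?_⟩
          · have := card_ER_xle hF (Nat.zero_le (R v).1) (by omega)
            linarith [h.1]
          · have := card_ER_xle hF hb.2 le_rfl
            linarith [h.2.1]
        exact ⟨a, haA, by rw [how3 a haA v hv h.1 h.2.1 h.2.2]⟩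
    · rintro ((⟨u, hu, he⟩ | ⟨u, hu, he⟩) | ⟨b, hb, he⟩)
      · injection he with e1 e2
        subst e1
        have hbd := ts_lt hR hF hu
        exact ⟨⟨hu, by rw [← e2]; exact card_ER_foot (by omega)⟩, Or.inl e2.symm⟩
      · injection he with e1 e2
        subst e1
        have hbd := ts_lt hR hF hu
        exact ⟨⟨hu, by rw [← e2]; exact card_ER_foot hbd.2⟩, Or.inr (Or.inl e2.symm)⟩
      · injection he with e1 e2
        subst e2
        have hb' := hb
        rw [hA', mem_filter] at hb'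
        rw [← e1]
        exact ⟨⟨how1 b hb, hb'.1⟩, Or.inr (Or.inr (how2 b hb))⟩
  have d12 : Disjoint E1 E2 := by
    rw [Finset.disjoint_left]
    rintro ⟨v, a⟩ h1 h2
    rw [hE1, mem_image] at h1
    rw [hE2, mem_image] at h2
    obtain ⟨u, hu, e⟩ := h1
    obtain ⟨u', hu', e'⟩ := h2
    injection e with e1 e2
    injection e' with e3 e4
    subst e1
    subst e3
    have := hxlt _ hu
    linarith
  have d3 : Disjoint (E1 ∪ E2) E3 := by
    rw [Finset.disjoint_left]
    rintro ⟨v, a⟩ h1 h2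
    rw [hE3, mem_image] at h2
    obtain ⟨b, hb, e⟩ := h2
    injection e with e1 e2
    subst e2
    have h3 := how2 b hb
    rw [mem_union, hE1, hE2, mem_image, mem_image] at h1
    rcases h1 with ⟨u, hu, e'⟩ | ⟨u, hu, e'⟩
    · injection e' with e3 e4
      subst e3
      rw [e1] at h3
      linarith [h3.1]
    · injection e' with e3 e4
      subst e3
      rw [e1] at h3
      linarith [h3.2.1]
  have c1 : E1.card = D.I.card :=
    card_image_of_injective _ (fun u v h => (Prod.mk.inj h).1)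
  have c2 : E2.card = D.I.card :=
    card_image_of_injective _ (fun u v h => (Prod.mk.inj h).1)
  have c3 : E3.card = A'.card :=
    card_image_of_injective _ (fun u v h => (Prod.mk.inj h).2)
  have c4 : A'.card + 2 = (axPts F x Bl).card := card_ER_inner hF
  rw [hER, card_union_of_disjoint d3, card_union_of_disjoint d12, c1, c2, c3]
  omega

theorem full_ER (hR : IsTS D F x R) (hF : GoodFeet F x Bl) (hD : D.Good F x) :
    Full D F x Bl (ER D F x Bl R) := by
  classical
  have h2 := hF.two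
  refine ⟨?_, ncr_ER hR hF hD, card_ER hR hF hD, fun v => ?_, fun v => ?_, ?_⟩
  · unfold ER
    exact filter_subset _ _
  · rw [card_ER_mem]
    constructor
    · rintro ⟨⟨hv, _⟩, h⟩
      by_contra hne
      have hb := hR.bd v hv hne
      rcases h with h | h | h
      · have := card_ER_xinj hF (Nat.zero_le _) (by omega) h
        omega
      · have := card_ER_xinj hF (Nat.zero_le _) (by omega) h
        omega
      · have := card_ER_xle hF (Nat.zero_le (R v).1) (by omega)
        linarith [h.1]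
    · rintro rfl
      exact ⟨⟨hD.top_mem, card_ER_foot (Nat.zero_le _)⟩, Or.inl (by rw [hR.rt])⟩
  · rw [card_ER_mem]
    constructor
    · rintro ⟨⟨hv, _⟩, h⟩
      by_contra hne
      have hb := hR.bd v hv hne
      rcases h with h | h | h
      · have := card_ER_xinj hF le_rfl (by omega) h
        omega
      · have := card_ER_xinj hF le_rfl (by omega) h
        omega
      · have := card_ER_xle hF (i := (R v).2) (by omega) le_rfl
        linarith [h.2.1]
    · rintro rfl
      exact ⟨⟨hD.top_mem, card_ER_foot le_rfl⟩, Or.inr (Or.inl (by rw [hR.rt]))⟩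
  · intro b hb v w hv hw
    rw [card_ER_mem] at hv hw
    have hbl := hF.bl b hb
    have bv := ts_lt hR hF hv.1.1
    have bw := ts_lt hR hF hw.1.1
    obtain ⟨o, ho, _, ho2⟩ := exists_owner hR hF hD hv.1.2 hbl.1 hbl.2.1
    have key : ∀ u ∈ D.I, (b = x (R u).1 ∨ b = x (R u).2 ∨
      (x (R u).1 < b ∧ b < x (R u).2 ∧
        ∀ w ∈ D.I, x (R w).1 < b → b < x (R w).2 → (D.pt u).2 ≤ (D.pt w).2)) → u = o := by
      intro u hu h
      have bu := ts_lt hR hF hu
      rcases h with h | h | h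
      · exact absurd h (hbl.2.2 _ (by omega))
      · exact absurd h (hbl.2.2 _ bu.2)
      · exact ho2 u hu h.1 h.2.1 h.2.2
    rw [key v hv.1.1 hv.2, key w hw.1.1 hw.2]

theorem ER_inj_aux (hR : IsTS D F x R) (hR' : IsTS D F x R') (hF : GoodFeet F x Bl)
    (h : ER D F x Bl R = ER D F x Bl R') {v : α} (hv : v ∈ D.I) :
    x (R' v).1 ≤ x (R v).1 ∧ x (R v).2 ≤ x (R' v).2 := by
  have b := ts_lt hR hF hv
  have b' := ts_lt hR' hF hv
  have m1 : (v, x (R v).1) ∈ ER D F x Bl R :=
    (card_ER_mem _ _).2 ⟨⟨hv, card_ER_foot (by omega)⟩, Or.inl rfl⟩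
  have m2 : (v, x (R v).2) ∈ ER D F x Bl R :=
    (card_ER_mem _ _).2 ⟨⟨hv, card_ER_foot b.2⟩, Or.inr (Or.inl rfl)⟩
  rw [h, card_ER_mem] at m1 m2
  have hx := hF.mono _ _ b'.1 b'.2
  constructor
  · rcases m1.2 with h1 | h1 | h1
    · exact h1.ge
    · rw [h1]; exact hx.le
    · exact h1.1.le
  · rcases m2.2 with h1 | h1 | h1
    · rw [h1]; exact hx.le
    · exact h1.le
    · exact h1.2.1.le

theorem ER_inj (hR : IsTS D F x R) (hR' : IsTS D F x R') (hF : GoodFeet F x Bl)
    (hD : D.Good F x) (h : ER D F x Bl R = ER D F x Bl R') : R = R' := by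
  classical
  funext v
  by_cases hv : v ∈ D.I
  · have b := ts_lt hR hF hv
    have b' := ts_lt hR' hF hv
    have h1 := ER_inj_aux hR hR' hF h hv
    have h2 := ER_inj_aux hR' hR hF h.symm hv
    exact Prod.ext (card_ER_xinj hF (by omega) (by omega) (le_antisymm h2.1 h1.1))
      (card_ER_xinj hF b.2 b'.2 (le_antisymm h1.2 h2.2))
  · rw [hR.out v hv, hR'.out v hv]

open Classical in
theorem deg_ER_own (hR : IsTS D F x R) (hF : GoodFeet F x Bl) (hD : D.Good F x) {f : ℕ}
    (hf : f ∈ Ioo 0 F) :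
    (D.I.filter fun v => x (R v).1 < x f ∧ x f < x (R v).2 ∧
      ∀ w ∈ D.I, x (R w).1 < x f → x f < x (R w).2 → (D.pt v).2 ≤ (D.pt w).2).card = 1 := by
  rw [mem_Ioo] at hf
  have ha : x f ∈ axPts F x Bl := by
    unfold axPts
    rw [mem_union]
    left
    exact mem_image_of_mem x (mem_range.2 (by omega))
  obtain ⟨v, hv, ⟨h1, h2, h3⟩, hu⟩ := exists_owner hR hF hD ha (hF.mono _ _ hf.1 (by omega))
    (hF.mono _ _ hf.2 le_rfl)
  rw [card_eq_one]
  refine ⟨v, ?_⟩
  ext w
  simp only [mem_filter, mem_singleton]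
  constructor
  · rintro ⟨hw, k1, k2, k3⟩
    exact hu w hw k1 k2 k3
  · rintro rfl
    exact ⟨hv, h1, h2, h3⟩

open Classical in
/-- degrees at the inner feet -/
theorem deg_ER (hR : IsTS D F x R) (hF : GoodFeet F x Bl) (hD : D.Good F x) {f : ℕ}
    (hf : f ∈ Ioo 0 F) :
    (D.I.filter fun v => (v, x f) ∈ ER D F x Bl R).card = kk D R f + 1 := by
  have hf' := mem_Ioo.1 hf
  have ha : x f ∈ axPts F x Bl := by
    unfold axPts
    rw [mem_union]
    left
    exact mem_image_of_mem x (mem_range.2 (by omega))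
  have hinj : ∀ i j, i ≤ F → j ≤ F → x i = x j → i = j := by
    intro i j hi hj h
    rcases lt_trichotomy i j with hij | hij | hij
    · exact absurd h (hF.mono _ _ hij hj).ne
    · exact hij
    · exact absurd h (hF.mono _ _ hij hi).ne'
  have e : (D.I.filter fun v => (v, x f) ∈ ER D F x Bl R) =
      ((D.I.filter fun w => w ≠ D.top ∧ (R w).1 = f) ∪
        (D.I.filter fun w => w ≠ D.top ∧ (R w).2 = f)) ∪
      (D.I.filter fun v => x (R v).1 < x f ∧ x f < x (R v).2 ∧
        ∀ w ∈ D.I, x (R w).1 < x f → x f < x (R w).2 → (D.pt v).2 ≤ (D.pt w).2) := by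
    ext v
    unfold ER
    simp only [mem_filter, mem_product, mem_union]
    constructor
    · rintro ⟨hv, -, h⟩
      have hlt := ts_lt hR hF hv
      rcases h with h | h | h
      · left; left
        refine ⟨hv, ?_, (hinj _ _ (by omega) (by omega) h).symm⟩
        rintro rfl
        have := hinj _ _ (by omega) (by omega) h
        rw [hR.rt] at this
        simp at this
        omega
      · left; right
        refine ⟨hv, ?_, (hinj _ _ (by omega) (by omega) h).symm⟩
        rintro rfl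
        have := hinj _ _ (by omega) (by omega) h
        rw [hR.rt] at this
        simp at this
        omega
      · right
        exact ⟨hv, h⟩
    · rintro ((⟨hv, -, h⟩ | ⟨hv, -, h⟩) | ⟨hv, h⟩)
      · exact ⟨hv, ⟨hv, ha⟩, Or.inl (by rw [h])⟩
      · exact ⟨hv, ⟨hv, ha⟩, Or.inr (Or.inl (by rw [h]))⟩
      · exact ⟨hv, ⟨hv, ha⟩, Or.inr (Or.inr h)⟩
  rw [e, card_union_of_disjoint, card_union_of_disjoint, deg_ER_own hR hF hD hf]
  · unfold kk
    congr!
  · rw [disjoint_filter]
    rintro w hw ⟨-, h⟩ ⟨-, h'⟩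
    have := (ts_lt hR hF hw).1
    omega
  · rw [disjoint_union_left, disjoint_filter, disjoint_filter]
    constructor
    · rintro w hw ⟨-, h⟩ ⟨h1, -⟩
      rw [h] at h1
      exact lt_irrefl _ h1
    · rintro w hw ⟨-, h⟩ ⟨-, h1, -⟩
      rw [h] at h1
      exact lt_irrefl _ h1

end Pool.Agent.TRI

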