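import Pool.Agent.TRI.B4_ER

/-!
Area B: one-sided geometry of the segments which do not cross the set `ER` of a tent system.
Notes: B.7; the main tool is the lemma `wedge`.
-/

namespace Pool.Agent.TRI

open Finset

variable {α : Type} {D : Side α} {F : ℕ} {x : ℕ → ℝ} {Bl : Finset ℝ} {R : α → ℕ × ℕ}

/-- the open segment from `y` to `z` is free: it contains no point of the side and does not
meet the segments of `ER` -/
def Free (D : Side α) (E : Finset (α × ℝ)) (y z : Pt) : Prop :=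
  (∀ w ∈ D.I, D.pt w ∉ openSegment ℝ y z) ∧
    ∀ w b, (w, b) ∈ E → Disjoint (openSegment ℝ (fpt b) (D.pt w)) (openSegment ℝ y z)

theorem in_tri_ends (hR : IsTS D F x R) (hF : GoodFeet F x Bl) {w : α} (hw : w ∈ D.I) :
    (w, x (R w).1) ∈ ER D F x Bl R ∧ (w, x (R w).2) ∈ ER D F x Bl R := by
  classical
  obtain ⟨h1, h2⟩ := ts_lt hR hF hw
  have hax : ∀ i, i ≤ F → x i ∈ axPts F x Bl := by
    intro i hi
    unfold axPts
    exact mem_union_left _ (mem_image_of_mem x (mem_range.2 (by omega)))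
  unfold ER
  constructor
  · rw [mem_filter, mem_product]
    exact ⟨⟨hw, hax _ (by omega)⟩, Or.inl rfl⟩
  · rw [mem_filter, mem_product]
    exact ⟨⟨hw, hax _ h2⟩, Or.inr (Or.inl rfl)⟩

/-- hint: `ncr_ER`, first clause of `ncp` for `(v, a)` and for `(v, b)` against both ends of `w` -/
theorem in_tri (hR : IsTS D F x R) (hF : GoodFeet F x Bl) (hD : D.Good F x) {v w : α} {a b : ℝ}
    (hva : (v, a) ∈ ER D F x Bl R) (hvb : (v, b) ∈ ER D F x Bl R) (hw : w ∈ D.I)
    (hlt : (D.pt w).2 < (D.pt v).2) (h1 : a ≤ sl (D.pt v) (D.pt w))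
    (h2 : sl (D.pt v) (D.pt w) ≤ b) : a ≤ x (R w).1 ∧ x (R w).2 ≤ b := by
  have hne : v ≠ w := by
    rintro rfl
    exact lt_irrefl _ hlt
  obtain ⟨e1, e2⟩ := in_tri_ends (Bl := Bl) hR hF hw
  have hN := ncr_ER hR hF hD
  constructor
  · rcases (hN v a hva w _ e1 hne).1 hlt with ⟨h3, _⟩ | ⟨_, h4⟩
    · exact absurd h3 (not_lt.2 h1)
    · exact h4
  · rcases (hN v b hvb w _ e2 hne).1 hlt with ⟨_, h4⟩ | ⟨h3, _⟩
    · exact h4
    · exact absurd h3 (not_lt.2 h2)

/-- hint: the other strict containers of `x (R q).1` are higher than `q` and contain the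
interval of `q` (`ts_over`) -/
theorem par_ends (hR : IsTS D F x R) (hF : GoodFeet F x Bl) (hD : D.Good F x) {v q : α}
    (hq : q ∈ D.I) (hp : IsPar D R v q) :
    (v, x (R q).1) ∈ ER D F x Bl R ∧ (v, x (R q).2) ∈ ER D F x Bl R := by
  classical
  obtain ⟨hv, hlt, hl, hr, hmin⟩ := hp
  obtain ⟨q1, q2⟩ := ts_lt hR hF hq
  obtain ⟨v1, v2⟩ := ts_lt hR hF hv
  have hax : ∀ i, i ≤ F → x i ∈ axPts F x Bl := by
    intro i hi
    unfold axPts
    exact mem_union_left _ (mem_image_of_mem x (mem_range.2 (by omega)))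
  have hlt' : ∀ i j, i ≤ F → x i < x j → i < j := by
    intro i j hi hij
    by_contra hc
    rcases Nat.lt_or_ge j i with h | h
    · exact absurd hij (not_lt.2 (hF.mono j i h hi).le)
    · have : i = j := by omega
      rw [this] at hij
      exact lt_irrefl _ hij
  have key : ∀ f, f ≤ F → (R v).1 < f → f < (R v).2 → (f = (R q).1 ∨ f = (R q).2) →
      (x (R v).1 < x f ∧ x f < x (R v).2 ∧
      ∀ w ∈ D.I, x (R w).1 < x f → x f < x (R w).2 → (D.pt v).2 ≤ (D.pt w).2) := by
    intro f hf hf1 hf2 hfq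
    refine ⟨hF.mono _ _ hf1 hf, hF.mono _ _ hf2 v2, fun w hw h1 h2 => ?_⟩
    obtain ⟨w1, w2⟩ := ts_lt hR hF hw
    obtain ⟨g1, g2, g3⟩ := ts_over hR hD hw hq (hlt' _ _ (by omega) h1) (hlt' _ _ hf h2) hfq
    exact hmin w hw g1 g2 g3
  unfold ER
  constructor
  · rw [mem_filter, mem_product]
    refine ⟨⟨hv, hax _ (by omega)⟩, ?_⟩
    show x (R q).1 = x (R v).1 ∨ x (R q).1 = x (R v).2 ∨ _
    rcases Nat.lt_or_ge (R v).1 (R q).1 with h | h
    · exact Or.inr (Or.inr (key _ (by omega) h (by omega) (Or.inl rfl)))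
    · left
      congr 1
      omega
  · rw [mem_filter, mem_product]
    refine ⟨⟨hv, hax _ q2⟩, ?_⟩
    show x (R q).2 = x (R v).1 ∨ x (R q).2 = x (R v).2 ∨ _
    rcases Nat.lt_or_ge (R q).2 (R v).2 with h | h
    · exact Or.inr (Or.inr (key _ q2 (by omega) h (Or.inr rfl)))
    · right
      left
      congr 1
      omega

/-- a point in the triangle of the parent `v` of `q` and the feet of `q` is `q` or lower than `q`.
Hint: `in_tri`, then `lam`/`same` and the minimality of the parent -/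
theorem par_tri (hR : IsTS D F x R) (hF : GoodFeet F x Bl) (hD : D.Good F x) {v q w : α}
    (hq : q ∈ D.I) (hp : IsPar D R v q) (hw : w ∈ D.I) (hlt : (D.pt w).2 < (D.pt v).2)
    (h1 : x (R q).1 ≤ sl (D.pt v) (D.pt w)) (h2 : sl (D.pt v) (D.pt w) ≤ x (R q).2) :
    w = q ∨ (D.pt w).2 < (D.pt q).2 := by
  obtain ⟨e1, e2⟩ := par_ends (Bl := Bl) hR hF hD hq hp
  obtain ⟨g1, g2⟩ := in_tri hR hF hD e1 e2 hw hlt h1 h2
  obtain ⟨q1, q2⟩ := ts_lt hR hF hq
  obtain ⟨w1, w2⟩ := ts_lt hR hF hw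
  have hle' : ∀ i j, i ≤ F → j ≤ F → x i ≤ x j → i ≤ j := by
    intro i j hi hj hij
    by_contra hc
    exact absurd hij (not_le.2 (hF.mono j i (by omega) hi))
  have k1 := hle' _ _ (by omega) (by omega) g1
  have k2 := hle' _ _ w2 q2 g2
  by_contra hc
  rw [not_or, not_lt] at hc
  obtain ⟨hne, hle⟩ := hc
  rcases hle.lt_or_eq with h | h
  · rcases hR.lam w hw q hq h with ⟨h3, h4⟩ | h3 | h3
    · exact absurd (hp.2.2.2.2 w hw h h3 h4) (not_le.2 hlt)
    · omega
    · omega
  · rcases hR.same w hw q hq hne h.symm with h3 | h3 <;> omega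

/-- classification of the segments between two points of the side. Hint: let `v` be the parent of
`q`; `wedge` with `z = pt q`, `a = x (R q).1`, `b = x (R q).2`; then `par_tri` -/
theorem uu_class (hR : IsTS D F x R) (hF : GoodFeet F x Bl) (hD : D.Good F x) {p q : α}
    (hp : p ∈ D.I) (hq : q ∈ D.I) (hne : p ≠ q) (hh : (D.pt q).2 ≤ (D.pt p).2)
    (hf : Free D (ER D F x Bl R) (D.pt p) (D.pt q)) : IsPar D R p q := by
  have hqt : q ≠ D.top := by
    rintro rfl
    exact absurd (hD.inside p hp hne).1 (not_lt.2 hh)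
  obtain ⟨v, hv⟩ := exists_par hR hD hq hqt
  obtain ⟨e1, e2⟩ := par_ends (Bl := Bl) hR hF hD hq hv
  obtain ⟨s1, s2⟩ := hR.par q hq v hv
  rcases wedge (v := D.pt v) (z := D.pt q) (p := D.pt p) (a := x (R q).1) (b := x (R q).2)
    (hD.pos q hq).le hv.2.1 s1 s2 (hD.pos p hp)
    (by rw [openSegment_symm]; exact hf.1 v hv.1)
    (by rw [openSegment_symm ℝ (D.pt q)]; exact hf.2 v _ e1)
    (by rw [openSegment_symm ℝ (D.pt q)]; exact hf.2 v _ e2) with h | ⟨h1, h2, h3⟩
  · have : p = v := hD.inj hp hv.1 h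
    rw [this]
    exact hv
  · rcases par_tri hR hF hD hq hv hp h1 h2 h3 with h4 | h4
    · exact absurd h4 hne
    · exact absurd hh (not_le.2 h4)

theorem par_free_seg {p r z : Pt} (hz : z ∈ openSegment ℝ p r) {y : Pt}
    (hy : y ∈ openSegment ℝ z p) : y ∈ openSegment ℝ p r := by
  obtain ⟨s, s0, s1, e1, e2⟩ := mem_openSegment_iff.1 hz
  obtain ⟨t, t0, t1, e3, e4⟩ := mem_openSegment_iff.1 hy
  refine mem_openSegment_iff.2 ⟨(1 - t) * s, mul_pos (by linarith) s0, ?_, ?_, ?_⟩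
  · have h1 : 0 < t * s := mul_pos t0 s0
    linarith
  · rw [e3, e1]; ring
  · rw [e4, e2]; ring

theorem par_free (hR : IsTS D F x R) (hF : GoodFeet F x Bl) (hD : D.Good F x) {v q : α}
    (hq : q ∈ D.I) (hp : IsPar D R v q) : Free D (ER D F x Bl R) (D.pt v) (D.pt q) := by
  obtain ⟨e1, e2⟩ := par_ends (Bl := Bl) hR hF hD hq hp
  obtain ⟨s1, s2⟩ := hR.par q hq v hp
  refine ⟨?_, ?_⟩
  · intro w hw hmem
    obtain ⟨h1, h2, h3⟩ := sl_of_mem hmem hp.2.1 (hD.pos q hq).le
    rcases par_tri hR hF hD hq hp hw h2 (by rw [h3]; exact s1.le) (by rw [h3]; exact s2.le)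
      with h4 | h4
    · rw [h4] at h1; exact lt_irrefl _ h1
    · linarith
  · intro w b hwb
    rw [Set.disjoint_left]
    intro z hz1 hz2
    have hwI : w ∈ D.I := by
      unfold ER at hwb
      exact (mem_product.1 (mem_filter.1 hwb).1).1
    obtain ⟨h1, h2, h3⟩ := sl_of_mem hz2 hp.2.1 (hD.pos q hq).le
    have hwpos := hD.pos w hwI
    have hzw : z.2 < (D.pt w).2 := by
      obtain ⟨t, t0, t1, _, k2⟩ := mem_openSegment_iff.1 hz1
      rw [k2]
      simp only [fpt]
      nlinarith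
    by_cases hwv : w = v
    · have hd := det_of_mem hz1
      rw [hwv] at hd hwb
      have hs : sl (D.pt v) z = b := by
        unfold sl
        rw [div_eq_iff (by linarith)]
        unfold det fpt at hd
        simp only at hd
        linarith
      have := anc_ncp hR hF hD hwb hq hp.2.1 hp.2.2.1 hp.2.2.2.1
      rw [← h3, hs] at this
      rcases this with h4 | h4
      · exact lt_irrefl _ h4.1
      · exact lt_irrefl _ h4.1
    · have hne : D.pt w ≠ D.pt v := fun h => hwv (hD.inj hwI hp.1 h)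
      have n1 := (ncp_iff hwpos (hD.pos v hp.1) hne _ _).1 (ncr_ER hR hF hD w b hwb v _ e1 hwv)
      have n2 := (ncp_iff hwpos (hD.pos v hp.1) hne _ _).1 (ncr_ER hR hF hD w b hwb v _ e2 hwv)
      have hsub : ∀ y ∈ openSegment ℝ z (D.pt w), y ∈ openSegment ℝ (fpt b) (D.pt w) := by
        intro y hy
        rw [openSegment_symm]
        exact par_free_seg (by rw [openSegment_symm]; exact hz1) hy
      rcases wedge (v := D.pt v) (z := z) (p := D.pt w) (a := x (R q).1) (b := x (R q).2)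
        (by have := hD.pos q hq; linarith) h2 (by rw [h3]; exact s1) (by rw [h3]; exact s2)
        hwpos (fun h => n1.1 (hsub _ h))
        (by
          rw [Set.disjoint_left]
          intro y hy1 hy2
          exact Set.disjoint_left.1 n1.2.2 (hsub y hy2) hy1)
        (by
          rw [Set.disjoint_left]
          intro y hy1 hy2
          exact Set.disjoint_left.1 n2.2.2 (hsub y hy2) hy1) with h4 | ⟨h4, h5, h6⟩
      · exact hne h4
      · rcases par_tri hR hF hD hq hp hwI h4 h5 h6 with h7 | h7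
        · rw [h7] at hzw; linarith
        · linarith

theorem par_par_seg {p r z : Pt} (hz : z ∈ openSegment ℝ p r) {y : Pt}
    (hy : y ∈ openSegment ℝ z p) : y ∈ openSegment ℝ p r := by
  obtain ⟨s, s0, s1, e1, e2⟩ := mem_openSegment_iff.1 hz
  obtain ⟨t, t0, t1, e3, e4⟩ := mem_openSegment_iff.1 hy
  refine mem_openSegment_iff.2 ⟨(1 - t) * s, mul_pos (by linarith) s0, ?_, ?_, ?_⟩
  · have h1 : 0 < t * s := mul_pos t0 s0
    linarith
  · rw [e3, e1]; ring
  · rw [e4, e2]; ring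

/-- the ends of a segment from a parent meeting the segment from `v` to `q` -/
theorem par_par_aux (hR : IsTS D F x R) (hF : GoodFeet F x Bl) (hD : D.Good F x) {v q v' q' : α}
    (hq : q ∈ D.I) (hp : IsPar D R v q) (hq' : q' ∈ D.I) (hp' : IsPar D R v' q') {z : Pt}
    (hz : z ∈ openSegment ℝ (D.pt v) (D.pt q)) (hz' : z ∈ openSegment ℝ (D.pt v') (D.pt q'))
    {p : α} (hpm : p = v' ∨ p = q') :
    p = v ∨ p = q ∨ (D.pt p).2 < (D.pt q).2 := by
  have hpI : p ∈ D.I := by
    rcases hpm with rfl | rfl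
    · exact hp'.1
    · exact hq'
  have hsub : ∀ y, y ∈ openSegment ℝ z (D.pt p) → y ∈ openSegment ℝ (D.pt v') (D.pt q') := by
    intro y hy
    rcases hpm with rfl | rfl
    · exact par_par_seg hz' hy
    · rw [openSegment_symm] at hz' ⊢
      exact par_par_seg hz' hy
  have hsub' : openSegment ℝ z (D.pt p) ⊆ openSegment ℝ (D.pt v') (D.pt q') := hsub
  obtain ⟨z1, z2, z3⟩ := sl_of_mem hz hp.2.1 (hD.pos q hq).le
  have hpar := hR.par q hq v hp
  rw [← z3] at hpar
  have hfree := par_free hR hF hD hq' hp'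
  have hends := par_ends hR hF hD hq hp
  have hq0 := hD.pos q hq
  rcases wedge (by linarith) z2 hpar.1 hpar.2 (hD.pos p hpI)
    (fun h => hfree.1 v hp.1 (hsub _ h))
    ((hfree.2 v _ hends.1).mono_right hsub') ((hfree.2 v _ hends.2).mono_right hsub') with h | h
  · left
    exact hD.inj hpI hp.1 h
  · right
    exact par_tri hR hF hD hq hp hpI h.1 h.2.1 h.2.2

/-- segments from parents do not cross. Hint: suppose they meet in `z`; `wedge` for the triangle
of `v`, `q` with `p = pt v'` and with `p = pt q'` (hypotheses by `par_free`), `par_tri`; so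
`v' = v` (else both ends are not higher than `q`), and similarly the other way round; then
`pt v`, `pt q`, `pt q'` are collinear and one of `q`, `q'` is on the other segment -/
theorem par_par (hR : IsTS D F x R) (hF : GoodFeet F x Bl) (hD : D.Good F x) {v q v' q' : α}
    (hq : q ∈ D.I) (hp : IsPar D R v q) (hq' : q' ∈ D.I) (hp' : IsPar D R v' q')
    (hne : q ≠ q') :
    Disjoint (openSegment ℝ (D.pt v) (D.pt q)) (openSegment ℝ (D.pt v') (D.pt q')) := by
  rw [Set.disjoint_left]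
  intro z hz hz'
  obtain ⟨z1, z2, -⟩ := sl_of_mem hz hp.2.1 (hD.pos q hq).le
  obtain ⟨z1', z2', -⟩ := sl_of_mem hz' hp'.2.1 (hD.pos q' hq').le
  have hv : v' = v := by
    rcases par_par_aux hR hF hD hq hp hq' hp' hz hz' (Or.inl rfl) with h | h | h
    · exact h
    · rw [h] at z2'
      linarith
    · linarith
  subst hv
  have h1 : (D.pt q').2 < (D.pt q).2 := by
    rcases par_par_aux hR hF hD hq hp hq' hp' hz hz' (Or.inr rfl) with h | h | h
    · rw [h] at z1'
      linarith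
    · exact absurd h.symm hne
    · exact h
  rcases par_par_aux hR hF hD hq' hp' hq hp hz' hz (Or.inr rfl) with h | h | h
  · rw [h] at z1
    linarith
  · exact hne h
  · linarith

/-! ### labels of the gaps -/

theorem lab_spec_ex (hR : IsTS D F x R) (hD : D.Good F x) {g : ℕ} (hg : g < F) :
    ∃ v, IsLab D R g v := by
  classical
  have htop : D.top ∈ D.I.filter fun v => (R v).1 ≤ g ∧ g < (R v).2 := by
    rw [mem_filter]
    refine ⟨hD.top_mem, ?_, ?_⟩
    · rw [hR.rt]; exact Nat.zero_le g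
    · rw [hR.rt]; exact hg
  obtain ⟨v, hv, hmin⟩ := Finset.exists_min_image
    (D.I.filter fun v => (R v).1 ≤ g ∧ g < (R v).2) (fun v => (D.pt v).2) ⟨D.top, htop⟩
  rw [mem_filter] at hv
  refine ⟨v, hv.1, hv.2.1, hv.2.2, ?_⟩
  intro u hu h1 h2
  exact hmin u (by rw [mem_filter]; exact ⟨hu, h1, h2⟩)

theorem lab_spec (hR : IsTS D F x R) (hD : D.Good F x) {g : ℕ} (hg : g < F) :
    IsLab D R g (lab D R g) := by
  classical
  have h := lab_spec_ex hR hD hg
  unfold lab
  rw [dif_pos h]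
  exact h.choose_spec

theorem lab_unique (hR : IsTS D F x R) (hD : D.Good F x) {g : ℕ} (hg : g < F) {v : α}
    (h : IsLab D R g v) : v = lab D R g := by
  have h' := lab_spec hR hD hg
  by_contra hne
  obtain ⟨a1, a2, a3, a4⟩ := h
  obtain ⟨b1, b2, b3, b4⟩ := h'
  have c1 := a4 _ b1 b2 b3
  have c2 := b4 _ a1 a2 a3
  rcases ts_gap hR hD a1 b1 hne a2 a3 b2 b3 with h0 | h0
  · exact absurd c1 (not_le.mpr h0.1)
  · exact absurd c2 (not_le.mpr h0.1)

/-- hint: a strict container of `a` covers the gap -/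
theorem lab_ends (hR : IsTS D F x R) (hF : GoodFeet F x Bl) (hD : D.Good F x) {g : ℕ}
    (hg : g < F) {a : ℝ} (ha : a ∈ axPts F x Bl) (h1 : x g ≤ a) (h2 : a ≤ x (g + 1)) :
    (lab D R g, a) ∈ ER D F x Bl R := by
  classical
  have hmon : ∀ i j, i ≤ j → j ≤ F → x i ≤ x j := by
    intro i j hij hj
    rcases hij.lt_or_eq with h | h
    · exact (hF.mono i j h hj).le
    · rw [h]
  obtain ⟨b1, b2, b3, b4⟩ := lab_spec hR hD hg
  have hlt := ts_lt hR hF b1
  have e1 : x (R (lab D R g)).1 ≤ a := (hmon _ _ b2 hg.le).trans h1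
  have e2 : a ≤ x (R (lab D R g)).2 := h2.trans (hmon _ _ b3 hlt.2)
  unfold ER
  rw [mem_filter, mem_product]
  refine ⟨⟨b1, ha⟩, ?_⟩
  show a = x (R (lab D R g)).1 ∨ a = x (R (lab D R g)).2 ∨
    (x (R (lab D R g)).1 < a ∧ a < x (R (lab D R g)).2 ∧
      ∀ w ∈ D.I, x (R w).1 < a → a < x (R w).2 → (D.pt (lab D R g)).2 ≤ (D.pt w).2)
  by_cases c1 : a = x (R (lab D R g)).1
  · exact Or.inl c1
  by_cases c2 : a = x (R (lab D R g)).2
  · exact Or.inr (Or.inl c2)
  refine Or.inr (Or.inr ⟨lt_of_le_of_ne e1 (Ne.symm c1), lt_of_le_of_ne e2 c2, ?_⟩)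
  intro w hw k1 k2
  have hwlt := ts_lt hR hF hw
  refine b4 w hw ?_ ?_
  · by_contra hcon
    have : x (g + 1) ≤ x (R w).1 := hmon _ _ (by omega) (by omega)
    linarith
  · by_contra hcon
    have : x (R w).2 ≤ x g := hmon _ _ (by omega) (by omega)
    linarith

/-- a point in the triangle of the label and two neighbouring axis points of the gap does not
exist. Hint: `in_tri`: its interval would be the gap -/
theorem lab_tri (hR : IsTS D F x R) (hF : GoodFeet F x Bl) (hD : D.Good F x) {g : ℕ}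
    (hg : g < F) {a a' : ℝ} (ha : Adj (axPts F x Bl) a a') (h1 : x g ≤ a) (h2 : a' ≤ x (g + 1))
    {w : α} (hw : w ∈ D.I) (hlt : (D.pt w).2 < (D.pt (lab D R g)).2)
    (h3 : a ≤ sl (D.pt (lab D R g)) (D.pt w)) (h4 : sl (D.pt (lab D R g)) (D.pt w) ≤ a') :
    False := by
  classical
  obtain ⟨ha1, ha2, ha3, ha4⟩ := ha
  have hmon : ∀ i j, i ≤ j → j ≤ F → x i ≤ x j := by
    intro i j hij hj
    rcases hij.lt_or_eq with h | h
    · exact (hF.mono i j h hj).le
    · rw [h]
  obtain ⟨b1, b2, b3, b4⟩ := lab_spec hR hD hg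
  have hE1 := lab_ends hR hF hD hg ha1 h1 (ha3.le.trans h2)
  have hE2 := lab_ends hR hF hD hg ha2 (h1.trans ha3.le) h2
  obtain ⟨c1, c2⟩ := in_tri hR hF hD hE1 hE2 hw hlt h3 h4
  have hwlt := ts_lt hR hF hw
  have hx := hF.mono _ _ hwlt.1 hwlt.2
  have d1 : x (R w).1 ∈ axPts F x Bl := by
    unfold axPts
    rw [mem_union, mem_image]
    exact Or.inl ⟨(R w).1, by rw [mem_range]; omega, rfl⟩
  have d2 : x (R w).2 ∈ axPts F x Bl := by
    unfold axPts
    rw [mem_union, mem_image]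
    exact Or.inl ⟨(R w).2, by rw [mem_range]; omega, rfl⟩
  have k1 : (R w).1 ≤ g := by
    by_contra hcon
    have h5 : x (g + 1) ≤ x (R w).1 := hmon _ _ (by omega) (by omega)
    linarith
  have k2 : g < (R w).2 := by
    by_contra hcon
    have h5 : x (R w).2 ≤ x g := hmon _ _ (by omega) (by omega)
    linarith
  exact absurd (b4 w hw k1 k2) (not_le.mpr hlt)

theorem lab_class_sl {v : Pt} (hv : 0 < v.2) (c : ℝ) : sl v (fpt c) = c := by
  unfold sl fpt
  have h : v.2 ≠ 0 := hv.ne'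
  simp only [mul_zero, sub_zero]
  field_simp

/-- classification of the upper ends of the segments crossing the axis. Hint: `wedge` with
`z = fpt c`, then `lab_tri` -/
theorem lab_class (hR : IsTS D F x R) (hF : GoodFeet F x Bl) (hD : D.Good F x) {g : ℕ}
    (hg : g < F) {a a' c : ℝ} (ha : Adj (axPts F x Bl) a a') (h1 : x g ≤ a)
    (h2 : a' ≤ x (g + 1)) (h3 : a < c) (h4 : c < a') {p : α} (hp : p ∈ D.I)
    (hf : Free D (ER D F x Bl R) (fpt c) (D.pt p)) : p = lab D R g := by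
  classical
  have hlab := lab_spec hR hD hg
  have hvp : 0 < (D.pt (lab D R g)).2 := hD.pos _ hlab.1
  have hE1 := lab_ends hR hF hD hg ha.1 h1 (ha.2.2.1.le.trans h2)
  have hE2 := lab_ends hR hF hD hg ha.2.1 (h1.trans ha.2.2.1.le) h2
  have hsl := lab_class_sl hvp c
  have hw := wedge (v := D.pt (lab D R g)) (z := fpt c) (p := D.pt p) (a := a) (b := a')
    (le_refl (0 : ℝ)) hvp (by rw [hsl]; exact h3) (by rw [hsl]; exact h4) (hD.pos _ hp)
    (hf.1 _ hlab.1) (hf.2 _ _ hE1) (hf.2 _ _ hE2)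
  rcases hw with h | ⟨k1, k2, k3⟩
  · exact hD.inj hp hlab.1 h
  · exact (lab_tri hR hF hD hg ha h1 h2 hp k1 k2 k3).elim

theorem lab_free_sub {y z p : Pt} (hz : z ∈ openSegment ℝ y p) :
    openSegment ℝ z p ⊆ openSegment ℝ y p := by
  intro w hw
  obtain ⟨s, t, hs, ht, hst, rfl⟩ := hz
  obtain ⟨s', t', hs', ht', hst', rfl⟩ := hw
  refine ⟨s' * s, s' * t + t', by positivity, by positivity, ?_, ?_⟩
  · calc s' * s + (s' * t + t') = s' * (s + t) + t' := by ring
      _ = 1 := by rw [hst, mul_one, hst']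
  · ext
    · simp only [Prod.fst_add, Prod.smul_fst, smul_eq_mul]; ring
    · simp only [Prod.snd_add, Prod.smul_snd, smul_eq_mul]; ring

theorem lab_free_ax {F : ℕ} {x : ℕ → ℝ} {Bl : Finset ℝ} {D : Side α} {R : α → ℕ × ℕ}
    {w : α} {b : ℝ} (h : (w, b) ∈ ER D F x Bl R) : w ∈ D.I ∧ b ∈ axPts F x Bl := by
  classical
  unfold ER at h
  rw [mem_filter, mem_product] at h
  exact h.1

/-- hint: a point in the open segment: `sl_of_mem`, `lab_tri`; a segment `(w, b)` of `ER` meeting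
it in `z`: `wedge` with this `z`, `lab_tri`, hence `w` is the label: common end point -/
theorem lab_free (hR : IsTS D F x R) (hF : GoodFeet F x Bl) (hD : D.Good F x) {g : ℕ}
    (hg : g < F) {a a' c : ℝ} (ha : Adj (axPts F x Bl) a a') (h1 : x g ≤ a)
    (h2 : a' ≤ x (g + 1)) (h3 : a < c) (h4 : c < a') :
    Free D (ER D F x Bl R) (fpt c) (D.pt (lab D R g)) := by
  classical
  have hlab := lab_spec hR hD hg
  have hvp : 0 < (D.pt (lab D R g)).2 := hD.pos _ hlab.1
  have hE1 := lab_ends hR hF hD hg ha.1 h1 (ha.2.2.1.le.trans h2)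
  have hE2 := lab_ends hR hF hD hg ha.2.1 (h1.trans ha.2.2.1.le) h2
  have hsl := lab_class_sl hvp c
  have hseg : ∀ z : Pt, z ∈ openSegment ℝ (fpt c) (D.pt (lab D R g)) →
      0 < z.2 ∧ z.2 < (D.pt (lab D R g)).2 ∧ sl (D.pt (lab D R g)) z = c := by
    intro z hz
    rw [openSegment_symm] at hz
    have h5 := sl_of_mem hz (show (fpt c).2 < _ from hvp) (le_refl (0 : ℝ))
    exact ⟨h5.1, h5.2.1, h5.2.2.trans hsl⟩
  constructor
  · intro w hw hmem
    obtain ⟨k1, k2, k3⟩ := hseg _ hmem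
    exact lab_tri hR hF hD hg ha h1 h2 hw k2 (by rw [k3]; exact h3.le) (by rw [k3]; exact h4.le)
  · intro w b hwb
    obtain ⟨hwI, hbA⟩ := lab_free_ax hwb
    rw [Set.disjoint_left]
    intro z hz1 hz2
    obtain ⟨k1, k2, k3⟩ := hseg z hz2
    by_cases hwv : w = lab D R g
    · subst hwv
      have hz3 := hz1
      rw [openSegment_symm] at hz3
      have h5 := sl_of_mem hz3 (show (fpt b).2 < _ from hvp) (le_refl (0 : ℝ))
      have h6 : b = c := by
        have := h5.2.2.symm.trans k3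
        rw [lab_class_sl hvp b] at this
        exact this
      rcases ha.2.2.2 b hbA with h7 | h7
      · linarith
      · linarith
    · have hne : D.pt (lab D R g) ≠ D.pt w := by
        intro h
        exact hwv (hD.inj hlab.1 hwI h).symm
      have hwp := hD.pos _ hwI
      have hn := ncr_ER (Bl := Bl) hR hF hD
      have n1 := (ncp_iff hvp hwp hne a b).mp (hn _ _ hE1 _ _ hwb (Ne.symm hwv))
      have n2 := (ncp_iff hvp hwp hne a' b).mp (hn _ _ hE2 _ _ hwb (Ne.symm hwv))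
      have hsub := lab_free_sub hz1
      have hwd := wedge (v := D.pt (lab D R g)) (z := z) (p := D.pt w) (a := a) (b := a')
        k1.le k2 (by rw [k3]; exact h3) (by rw [k3]; exact h4) hwp
        (fun h => n1.2.1 (hsub h)) (n1.2.2.mono_right hsub) (n2.2.2.mono_right hsub)
      rcases hwd with h | ⟨j1, j2, j3⟩
      · exact hne h.symm
      · exact lab_tri hR hF hD hg ha h1 h2 hwI j1 j2 j3

theorem lab_par_sub {y y' z : Pt} (h : z ∈ openSegment ℝ y y') :
    openSegment ℝ z y' ⊆ openSegment ℝ y y' := by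
  intro w hw
  obtain ⟨t, t0, t1, e1, e2⟩ := mem_openSegment_iff.1 h
  obtain ⟨s, s0, s1, e3, e4⟩ := mem_openSegment_iff.1 hw
  refine mem_openSegment_iff.2 ⟨t + s - s * t, ?_, ?_, ?_, ?_⟩
  · nlinarith
  · nlinarith [mul_pos (sub_pos.2 s1) (sub_pos.2 t1)]
  · rw [e3, e1]; ring
  · rw [e4, e2]; ring

/-- a point of the side whose segment to a point `z` of the segment `c`, label is free is the
label -/
theorem lab_par_aux (hR : IsTS D F x R) (hF : GoodFeet F x Bl) (hD : D.Good F x) {g : ℕ}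
    (hg : g < F) {a a' c : ℝ} (ha : Adj (axPts F x Bl) a a') (h1 : x g ≤ a)
    (h2 : a' ≤ x (g + 1)) (h3 : a < c) (h4 : c < a') {z : Pt}
    (hz : z ∈ openSegment ℝ (fpt c) (D.pt (lab D R g))) {w : α} (hw : w ∈ D.I) {y : Pt}
    (hzy : z ∈ openSegment ℝ y (D.pt w))
    (hf1 : ∀ u ∈ D.I, D.pt u ∉ openSegment ℝ y (D.pt w))
    (hf2 : ∀ u b, (u, b) ∈ ER D F x Bl R →
      Disjoint (openSegment ℝ (fpt b) (D.pt u)) (openSegment ℝ y (D.pt w))) :
    w = lab D R g := by
  have hl : lab D R g ∈ D.I := (lab_spec hR hD hg).1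
  have hl0 := hD.pos _ hl
  have hz' : z ∈ openSegment ℝ (D.pt (lab D R g)) (fpt c) := by
    rw [openSegment_symm]
    exact hz
  obtain ⟨z0, z1, z2⟩ := sl_of_mem hz' (by simpa [fpt] using hl0) (by simp [fpt])
  have hsl : sl (D.pt (lab D R g)) (fpt c) = c := by
    have hne : (D.pt (lab D R g)).2 ≠ 0 := hl0.ne'
    unfold sl fpt
    simp only [mul_zero, sub_zero]
    exact mul_div_cancel_right₀ c hne
  rw [hsl] at z2
  have hsub := lab_par_sub hzy
  have ha1 : (lab D R g, a) ∈ ER D F x Bl R :=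
    lab_ends hR hF hD hg ha.1 h1 (by linarith)
  have ha2 : (lab D R g, a') ∈ ER D F x Bl R :=
    lab_ends hR hF hD hg ha.2.1 (by linarith) h2
  have hz00 : (0 : ℝ) ≤ z.2 := by
    have : (fpt c).2 = 0 := rfl
    rw [this] at z0
    exact z0.le
  rcases wedge hz00 z1 (by rw [z2]; exact h3) (by rw [z2]; exact h4) (hD.pos w hw)
      (fun hh => hf1 _ hl (hsub hh)) ((hf2 _ _ ha1).mono_right hsub)
      ((hf2 _ _ ha2).mono_right hsub) with h | ⟨h5, h6, h7⟩
  · exact hD.inj hw hl h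
  · exact (lab_tri hR hF hD hg ha h1 h2 hw h5 h6 h7).elim

/-- hint: both ends of the segment from the parent would be the label (`wedge`, `lab_tri`) -/
theorem lab_par (hR : IsTS D F x R) (hF : GoodFeet F x Bl) (hD : D.Good F x) {g : ℕ}
    (hg : g < F) {a a' c : ℝ} (ha : Adj (axPts F x Bl) a a') (h1 : x g ≤ a)
    (h2 : a' ≤ x (g + 1)) (h3 : a < c) (h4 : c < a') {v q : α} (hq : q ∈ D.I)
    (hp : IsPar D R v q) :
    Disjoint (openSegment ℝ (fpt c) (D.pt (lab D R g)))
      (openSegment ℝ (D.pt v) (D.pt q)) := by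
  have hfree := par_free hR hF hD hq hp
  rw [Set.disjoint_left]
  intro z hz hz'
  have e1 : q = lab D R g :=
    lab_par_aux hR hF hD hg ha h1 h2 h3 h4 hz hq hz' hfree.1 hfree.2
  have e2 : v = lab D R g := by
    refine lab_par_aux hR hF hD hg ha h1 h2 h3 h4 hz hp.1 (y := D.pt q) ?_ ?_ ?_
    · rw [openSegment_symm]
      exact hz'
    · intro u hu
      rw [openSegment_symm]
      exact hfree.1 u hu
    · intro u b hub
      rw [openSegment_symm ℝ (D.pt q)]
      exact hfree.2 u b hub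
  have h5 := hp.2.1
  rw [e1, e2] at h5
  exact lt_irrefl _ h5

theorem lab_lab_aux {c d : ℝ} {p z : Pt} (hp : 0 < p.2)
    (hc : z ∈ openSegment ℝ (fpt c) p) (hd : z ∈ openSegment ℝ (fpt d) p) : c = d := by
  obtain ⟨t, t0, t1, e1, e2⟩ := mem_openSegment_iff.1 hc
  obtain ⟨s, s0, s1, e3, e4⟩ := mem_openSegment_iff.1 hd
  simp only [fpt, mul_zero, zero_add] at e1 e2 e3 e4
  have h : t = s := by
    have : t * p.2 = s * p.2 := by rw [← e2, ← e4]
    exact mul_right_cancel₀ hp.ne' this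
  subst h
  have h2 : (1 - t) * c = (1 - t) * d := by linarith
  exact mul_left_cancel₀ (by linarith) h2

/-- hint: if they meet in `z`, the upper end of the second one is the label of the first gap
(`wedge`, `lab_tri`), so they have a common end point -/
theorem lab_lab (hR : IsTS D F x R) (hF : GoodFeet F x Bl) (hD : D.Good F x) {g g' : ℕ}
    (hg : g < F) (hg' : g' < F) {a a' c b b' d : ℝ} (ha : Adj (axPts F x Bl) a a')
    (h1 : x g ≤ a) (h2 : a' ≤ x (g + 1)) (h3 : a < c) (h4 : c < a')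
    (hb : Adj (axPts F x Bl) b b') (h5 : x g' ≤ b) (h6 : b' ≤ x (g' + 1)) (h7 : b < d)
    (h8 : d < b') (hcd : c ≠ d) :
    Disjoint (openSegment ℝ (fpt c) (D.pt (lab D R g)))
      (openSegment ℝ (fpt d) (D.pt (lab D R g'))) := by
  have hfree := lab_free hR hF hD hg' hb h5 h6 h7 h8
  have hl' : lab D R g' ∈ D.I := (lab_spec hR hD hg').1
  rw [Set.disjoint_left]
  intro z hz hz'
  have e1 : lab D R g' = lab D R g :=
    lab_par_aux hR hF hD hg ha h1 h2 h3 h4 hz hl' hz' hfree.1 hfree.2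
  rw [e1] at hz'
  exact hcd (lab_lab_aux (hD.pos _ (lab_spec hR hD hg).1) hz hz')

theorem au_class_foot (hF : GoodFeet F x Bl) {i : ℕ} (hi : i ≤ F) : x i ∈ axPts F x Bl := by
  classical
  unfold axPts
  rw [mem_union, mem_image]
  exact Or.inl ⟨i, by rw [mem_range]; omega, rfl⟩

theorem au_class_bds (hF : GoodFeet F x Bl) {a : ℝ} (ha : a ∈ axPts F x Bl) :
    x 0 ≤ a ∧ a ≤ x F := by
  classical
  have hmon : ∀ i j, i ≤ j → j ≤ F → x i ≤ x j := by
    intro i j hij hj
    rcases hij.lt_or_eq with h | h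
    · exact (hF.mono i j h hj).le
    · rw [h]
  unfold axPts at ha
  rw [mem_union, mem_image] at ha
  rcases ha with ⟨i, hi, rfl⟩ | hb
  · rw [mem_range] at hi
    exact ⟨hmon _ _ (Nat.zero_le i) (by omega), hmon _ _ (by omega) le_rfl⟩
  · have := hF.bl a hb
    exact ⟨this.1.le, this.2.1.le⟩

theorem au_class_end (hR : IsTS D F x R) (hF : GoodFeet F x Bl) {v : α}
    (hv : v ∈ D.I) : (v, x (R v).1) ∈ ER D F x Bl R := by
  classical
  have h := ts_lt hR hF hv
  unfold ER
  rw [mem_filter, mem_product]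
  exact ⟨⟨hv, au_class_foot hF (by omega)⟩, Or.inl rfl⟩

/-- classification of the segments between a point of the side and an axis point. Hint: otherwise
`insert (v, a)` of `ER` satisfies `NCR` (`ncp_iff`), contradiction to `ncr_card_le`,
`card_ER` -/
theorem au_class (hR : IsTS D F x R) (hF : GoodFeet F x Bl) (hD : D.Good F x) {v : α} {a : ℝ}
    (hv : v ∈ D.I) (ha : a ∈ axPts F x Bl)
    (h1 : ∀ w ∈ D.I, D.pt w ∉ openSegment ℝ (fpt a) (D.pt v))
    (h2 : ∀ w b, (w, b) ∈ ER D F x Bl R → (w, b) ≠ (v, a) →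
      Disjoint (openSegment ℝ (fpt b) (D.pt w)) (openSegment ℝ (fpt a) (D.pt v))) :
    (v, a) ∈ ER D F x Bl R := by
  classical
  by_contra hn
  have hncr := ncr_ER (Bl := Bl) hR hF hD
  have hsub0 : ER D F x Bl R ⊆ D.I ×ˢ axPts F x Bl := by
    unfold ER
    exact filter_subset _ _
  have hkey : ∀ w b, (w, b) ∈ ER D F x Bl R → v ≠ w → ncp (D.pt v) (D.pt w) a b := by
    intro w b hwb hvw
    have hwI : w ∈ D.I := (mem_product.mp (hsub0 hwb)).1
    have hne : D.pt v ≠ D.pt w := fun h => hvw (hD.inj hv hwI h)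
    rw [ncp_iff (hD.pos _ hv) (hD.pos _ hwI) hne]
    have h3 := (ncp_iff (hD.pos _ hv) (hD.pos _ hwI) hne _ _).mp
      (hncr _ _ (au_class_end hR hF hv) _ _ hwb hvw)
    refine ⟨h1 w hwI, h3.2.1, ?_⟩
    refine (h2 w b hwb ?_).symm
    intro h
    exact hvw (Prod.mk.inj h).1.symm
  have hE : NCR D (insert (v, a) (ER D F x Bl R)) := by
    intro v1 a1 hv1 w1 b1 hw1 hne
    rw [mem_insert] at hv1 hw1
    rcases hv1 with hv1 | hv1
    · obtain ⟨rfl, rfl⟩ := Prod.mk.inj hv1
      rcases hw1 with hw1 | hw1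
      · exact absurd (Prod.mk.inj hw1).1.symm hne
      · exact hkey _ _ hw1 hne
    · rcases hw1 with hw1 | hw1
      · obtain ⟨rfl, rfl⟩ := Prod.mk.inj hw1
        exact ncp_symm (hkey _ _ hv1 (Ne.symm hne))
      · exact hncr _ _ hv1 _ _ hw1 hne
  have hsub : insert (v, a) (ER D F x Bl R) ⊆ D.I ×ˢ axPts F x Bl := by
    intro y hy
    rw [mem_insert] at hy
    rcases hy with rfl | hy
    · exact mem_product.mpr ⟨hv, ha⟩
    · exact hsub0 hy
  have hle := ncr_card_le hD.inj hsub hE (au_class_foot (Bl := Bl) hF (Nat.zero_le F))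
    (au_class_foot (Bl := Bl) hF le_rfl) (hF.mono 0 F (by have := hF.two; omega) le_rfl)
    (fun b hb => (au_class_bds hF hb).1) (fun b hb => (au_class_bds hF hb).2)
  rw [card_insert_of_notMem hn] at hle
  have hc := card_ER (Bl := Bl) hR hF hD
  omega

end Pool.Agent.TRI

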