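import Pool.Agent.TRI.B3_Full
import Pool.Agent.TRI.B5_One

/-!
Area B: the segments of the point set which cross nothing in `ER` (both sides).
-/

namespace Pool.Agent.TRI

open Finset

variable {α β : Type} {F : ℕ} {x : ℕ → ℝ} {Bl : Finset ℝ} {U : Side α} {L : Side β}
  {R : α → ℕ × ℕ} {R' : β → ℕ × ℕ}

/-- the point set -/
noncomputable def SS (U : Side α) (L : Side β) (F : ℕ) (x : ℕ → ℝ) (Bl : Finset ℝ) :
    Finset Pt := setWA (offPts U L) (axPts F x Bl)

open Classical in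
/-- the segments of a set of pairs -/
noncomputable def segE (D : Side α) (s : Bool) (E : Finset (α × ℝ)) : Finset (Sym2 Pt) :=
  E.image fun va => s(fpt va.2, mir s (D.pt va.1))

open Classical in
/-- the segments from the parents -/
noncomputable def segP (D : Side α) (s : Bool) (R : α → ℕ × ℕ) : Finset (Sym2 Pt) :=
  ((D.I ×ˢ D.I).filter fun vw => IsPar D R vw.1 vw.2).image
    fun vw => s(mir s (D.pt vw.1), mir s (D.pt vw.2))

open Classical in
/-- the segments between neighbours on the axis -/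
noncomputable def segA (A : Finset ℝ) : Finset (Sym2 Pt) :=
  ((A ×ˢ A).filter fun ab => Adj A ab.1 ab.2).image fun ab => s(fpt ab.1, fpt ab.2)

/-- the crossing point of the gap `g` -/
noncomputable def crg (U : Side α) (L : Side β) (R : α → ℕ × ℕ) (R' : β → ℕ × ℕ) (g : ℕ) : ℝ :=
  cr (U.pt (lab U R g)) (L.pt (lab L R' g))

/-- the cross edge of the gap `g` -/
noncomputable def segC (U : Side α) (L : Side β) (R : α → ℕ × ℕ) (R' : β → ℕ × ℕ) (g : ℕ) :
    Sym2 Pt := s(U.pt (lab U R g), low (L.pt (lab L R' g)))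

open Classical in
/-- the gaps with an available cross edge -/
noncomputable def avail (U : Side α) (L : Side β) (F : ℕ) (x : ℕ → ℝ) (Bl : Finset ℝ)
    (R : α → ℕ × ℕ) (R' : β → ℕ × ℕ) : Finset ℕ :=
  (range F).filter fun g => x g < crg U L R R' g ∧ crg U L R R' g < x (g + 1) ∧
    crg U L R R' g ∉ Bl

open Classical in
/-- all forced segments off the axis -/
noncomputable def segF (U : Side α) (L : Side β) (F : ℕ) (x : ℕ → ℝ) (Bl : Finset ℝ)
    (R : α → ℕ × ℕ) (R' : β → ℕ × ℕ) : Finset (Sym2 Pt) :=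
  segE U false (ER U F x Bl R) ∪ segE L true (ER L F x Bl R') ∪ segP U false R ∪ segP L true R'

/-! ### sets of pairs of noncrossing sets -/

theorem ncr_EU_low_fpt (a : ℝ) : low (fpt a) = fpt a := by simp [low, fpt]

theorem ncr_EU_low_mem {p q z : Pt} :
    low z ∈ openSegment ℝ (low p) (low q) ↔ z ∈ openSegment ℝ p q := by
  rw [mem_openSegment_iff, mem_openSegment_iff]
  constructor
  · rintro ⟨t, h0, h1, h2, h3⟩
    refine ⟨t, h0, h1, h2, ?_⟩
    simp only [low] at h3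
    linarith
  · rintro ⟨t, h0, h1, h2, h3⟩
    refine ⟨t, h0, h1, h2, ?_⟩
    simp only [low]
    linarith

theorem ncr_EU_mem {D : Side α} {s : Bool} {A : Finset ℝ} {T : Finset (Sym2 Pt)} {v : α} {a : ℝ} :
    (v, a) ∈ EU D s A T ↔ (v ∈ D.I ∧ a ∈ A) ∧ s(fpt a, mir s (D.pt v)) ∈ T := by
  unfold EU
  rw [mem_filter, mem_product]

theorem ncr_EU_low_inj {p q : Pt} (h : low p = low q) : p = q := by
  rw [← low_low p, h, low_low]

open Classical in
theorem ncr_EU_mem_offU {v : α} (hv : v ∈ U.I) : U.pt v ∈ SS U L F x Bl := by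
  unfold SS setWA offPts
  exact mem_union_left _ (mem_union_left _ (mem_image_of_mem _ hv))

open Classical in
theorem ncr_EU_mem_offL {v : β} (hv : v ∈ L.I) : low (L.pt v) ∈ SS U L F x Bl := by
  unfold SS setWA offPts
  exact mem_union_left _ (mem_union_right _ (mem_image.2 ⟨v, hv, rfl⟩))

/-- hint: `ncp_iff`, mirrored for `s = true` -/
theorem ncr_EU (hU : U.Good F x) (hL : L.Good F x) {T : Finset (Sym2 Pt)}
    (hT : IsNC (SS U L F x Bl) T) : NCR U (EU U false (axPts F x Bl) T) ∧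
      NCR L (EU L true (axPts F x Bl) T) := by
  constructor
  · intro v a hv w b hw hne
    rw [ncr_EU_mem] at hv hw
    obtain ⟨⟨hvI, ha⟩, hv⟩ := hv
    obtain ⟨⟨hwI, hb⟩, hw⟩ := hw
    have e1 : mir false (U.pt v) = U.pt v := rfl
    have e2 : mir false (U.pt w) = U.pt w := rfl
    rw [e1] at hv
    rw [e2] at hw
    have hpv := hU.pos v hvI
    have hpw := hU.pos w hwI
    have hptne : U.pt v ≠ U.pt w := fun h => hne (hU.inj hvI hwI h)
    rw [ncp_iff hpv hpw hptne]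
    have hs1 := isSeg_mk.1 (hT.1 _ hv)
    have hs2 := isSeg_mk.1 (hT.1 _ hw)
    refine ⟨hs1.2.2.2 _ (ncr_EU_mem_offU hwI), hs2.2.2.2 _ (ncr_EU_mem_offU hvI), ?_⟩
    have hd := hT.2 _ hv _ hw (by
      intro h
      rcases Sym2.eq_iff.1 h with ⟨_, h2⟩ | ⟨_, h2⟩
      · exact hptne h2
      · rw [h2] at hpv
        simp [fpt] at hpv)
    rw [seg_mk, seg_mk] at hd
    exact hd
  · intro v a hv w b hw hne
    rw [ncr_EU_mem] at hv hw
    obtain ⟨⟨hvI, ha⟩, hv⟩ := hv
    obtain ⟨⟨hwI, hb⟩, hw⟩ := hw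
    have e1 : mir true (L.pt v) = low (L.pt v) := rfl
    have e2 : mir true (L.pt w) = low (L.pt w) := rfl
    rw [e1] at hv
    rw [e2] at hw
    have hpv := hL.pos v hvI
    have hpw := hL.pos w hwI
    have hptne : L.pt v ≠ L.pt w := fun h => hne (hL.inj hvI hwI h)
    rw [ncp_iff hpv hpw hptne]
    have hs1 := isSeg_mk.1 (hT.1 _ hv)
    have hs2 := isSeg_mk.1 (hT.1 _ hw)
    have m1 := hs1.2.2.2 _ (ncr_EU_mem_offL hwI)
    have m2 := hs2.2.2.2 _ (ncr_EU_mem_offL hvI)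
    rw [← ncr_EU_low_fpt, ncr_EU_low_mem] at m1 m2
    refine ⟨m1, m2, ?_⟩
    have hd := hT.2 _ hv _ hw (by
      intro h
      rcases Sym2.eq_iff.1 h with ⟨_, h2⟩ | ⟨_, h2⟩
      · exact hptne (ncr_EU_low_inj h2)
      · have h3 : (low (L.pt v)).2 = 0 := by rw [h2]; rfl
        simp only [low] at h3
        linarith)
    rw [seg_mk, seg_mk, Set.disjoint_left] at hd
    rw [Set.disjoint_left]
    intro z hz1 hz2
    apply hd (a := low z)
    · rw [← ncr_EU_low_fpt, ncr_EU_low_mem]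
      exact hz1
    · rw [← ncr_EU_low_fpt, ncr_EU_low_mem]
      exact hz2

open Classical in
theorem up_eq (hU : U.Good F x) (hL : L.Good F x) {T : Finset (Sym2 Pt)} {a : ℝ}
    (ha : a ∈ axPts F x Bl) : up (offPts U L) T a =
      (U.I.filter fun v => (v, a) ∈ EU U false (axPts F x Bl) T).card := by
  have h : ((offPts U L).filter fun u => 0 < u.2 ∧ s(fpt a, u) ∈ T) =
      (U.I.filter fun v => (v, a) ∈ EU U false (axPts F x Bl) T).image U.pt := by
    ext u
    rw [mem_filter, mem_image]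
    constructor
    · rintro ⟨h1, h2, h3⟩
      unfold offPts at h1
      rw [mem_union, mem_image, mem_image] at h1
      rcases h1 with ⟨v, hv, rfl⟩ | ⟨v, hv, rfl⟩
      · refine ⟨v, ?_, rfl⟩
        rw [mem_filter, ncr_EU_mem]
        exact ⟨hv, ⟨hv, ha⟩, h3⟩
      · have := hL.pos v hv
        simp only [low] at h2
        linarith
    · rintro ⟨v, hv, rfl⟩
      rw [mem_filter, ncr_EU_mem] at hv
      refine ⟨?_, hU.pos v hv.1, hv.2.2⟩
      unfold offPts
      exact mem_union_left _ (mem_image_of_mem _ hv.1)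
  unfold up
  rw [h, card_image_of_injOn]
  intro v hv w hw h
  exact hU.inj (mem_filter.1 hv).1 (mem_filter.1 hw).1 h

open Classical in
theorem dn_eq (hU : U.Good F x) (hL : L.Good F x) {T : Finset (Sym2 Pt)} {a : ℝ}
    (ha : a ∈ axPts F x Bl) : dn (offPts U L) T a =
      (L.I.filter fun v => (v, a) ∈ EU L true (axPts F x Bl) T).card := by
  have h : ((offPts U L).filter fun u => u.2 < 0 ∧ s(fpt a, u) ∈ T) =
      (L.I.filter fun v => (v, a) ∈ EU L true (axPts F x Bl) T).image fun w => low (L.pt w) := by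
    ext u
    rw [mem_filter, mem_image]
    constructor
    · rintro ⟨h1, h2, h3⟩
      unfold offPts at h1
      rw [mem_union, mem_image, mem_image] at h1
      rcases h1 with ⟨v, hv, rfl⟩ | ⟨v, hv, rfl⟩
      · have := hU.pos v hv
        linarith
      · refine ⟨v, ?_, rfl⟩
        rw [mem_filter, ncr_EU_mem]
        exact ⟨hv, ⟨hv, ha⟩, h3⟩
    · rintro ⟨v, hv, rfl⟩
      rw [mem_filter, ncr_EU_mem] at hv
      have := hL.pos v hv.1
      refine ⟨?_, ?_, hv.2.2⟩
      · unfold offPts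
        exact mem_union_right _ (mem_image.2 ⟨v, hv.1, rfl⟩)
      · simp only [low]
        linarith
  unfold dn
  rw [h, card_image_of_injOn]
  intro v hv w hw h
  exact hL.inj (mem_filter.1 hv).1 (mem_filter.1 hw).1 (ncr_EU_low_inj h)

theorem hull_mem_low_fpt (a : ℝ) : low (fpt a) = fpt a := by simp [low, fpt]

theorem hull_mem_low_mem {p q z : Pt} :
    low z ∈ openSegment ℝ (low p) (low q) ↔ z ∈ openSegment ℝ p q := by
  rw [mem_openSegment_iff, mem_openSegment_iff]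
  constructor
  · rintro ⟨t, h0, h1, h2, h3⟩
    refine ⟨t, h0, h1, h2, ?_⟩
    simp only [low] at h3
    linarith
  · rintro ⟨t, h0, h1, h2, h3⟩
    refine ⟨t, h0, h1, h2, ?_⟩
    simp only [low]
    linarith

/-- all points of the set on one side of a line -/
theorem hull_mem_aux {S : Finset Pt} {T : Finset (Sym2 Pt)} {p q : Pt} (hT : IsTri S T)
    (hp : p ∈ S) (hq : q ∈ S) (hne : p ≠ q) (hno : ∀ r ∈ S, r ∉ openSegment ℝ p q)
    (hs : ∀ r ∈ S, ∀ s ∈ S, 0 ≤ det p q r * det p q s) : s(p, q) ∈ T := by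
  have hseg : IsSeg S s(p, q) := isSeg_mk.2 ⟨hne, hp, hq, hno⟩
  refine (isTri_iff.1 hT).2 _ hseg ?_
  intro f hf hef
  induction f using Sym2.ind with
  | _ r s =>
    by_contra hd
    have hseg2 := hT.1.1 _ hf
    have h1 := (cross_iff hseg hseg2 hef).1 hd
    have h2 := isSeg_mk.1 hseg2
    have h3 := hs r h2.2.1 s h2.2.2.1
    linarith [h1.1]

/-- a point of the side, or a point below the axis -/
theorem hull_mem_side {γ : Type} {D : Side γ} (hx : x 0 < x F) (hD : D.Good F x) {r : Pt}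
    (hr : (∃ v ∈ D.I, r = D.pt v) ∨ (r.2 ≤ 0 ∧ x 0 ≤ r.1 ∧ r.1 ≤ x F)) :
    det (fpt (x 0)) (D.pt D.top) r ≤ 0 ∧ 0 ≤ det (fpt (x F)) (D.pt D.top) r ∧
      r ∉ openSegment ℝ (fpt (x 0)) (D.pt D.top) ∧ r ∉ openSegment ℝ (fpt (x F)) (D.pt D.top) := by
  have ht := hD.pos _ hD.top_mem
  have hf := hD.topfoot
  rcases hr with ⟨v, hv, rfl⟩ | ⟨h1, h2, h3⟩
  · by_cases hvt : v = D.top
    · subst hvt
      refine ⟨by rw [det_self_right], by rw [det_self_right], ?_, ?_⟩
      · intro h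
        obtain ⟨t, h0, h1, _, h3⟩ := mem_openSegment_iff.1 h
        simp only [fpt] at h3
        nlinarith
      · intro h
        obtain ⟨t, h0, h1, _, h3⟩ := mem_openSegment_iff.1 h
        simp only [fpt] at h3
        nlinarith
    · obtain ⟨h1, h2, h3⟩ := hD.inside v hv hvt
      have hd : 0 < (D.pt D.top).2 - (D.pt v).2 := by linarith
      unfold sl at h2 h3
      rw [lt_div_iff₀ hd] at h2
      rw [div_lt_iff₀ hd] at h3
      have e0 : det (fpt (x 0)) (D.pt D.top) (D.pt v) < 0 := by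
        unfold det fpt
        simp only
        nlinarith
      have eF : 0 < det (fpt (x F)) (D.pt D.top) (D.pt v) := by
        unfold det fpt
        simp only
        nlinarith
      refine ⟨e0.le, eF.le, ?_, ?_⟩
      · intro h
        rw [det_of_mem h] at e0
        exact lt_irrefl _ e0
      · intro h
        rw [det_of_mem h] at eF
        exact lt_irrefl _ eF
  · refine ⟨?_, ?_, ?_, ?_⟩
    · unfold det fpt
      simp only
      nlinarith
    · unfold det fpt
      simp only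
      nlinarith
    · intro h
      obtain ⟨t, h0, _, _, h5⟩ := mem_openSegment_iff.1 h
      simp only [fpt] at h5
      nlinarith
    · intro h
      obtain ⟨t, h0, _, _, h5⟩ := mem_openSegment_iff.1 h
      simp only [fpt] at h5
      nlinarith

/-- abscissas of the points of a side -/
theorem hull_mem_abs {γ : Type} {D : Side γ} (hD : D.Good F x) {v : γ} (hv : v ∈ D.I) :
    x 0 ≤ (D.pt v).1 ∧ (D.pt v).1 ≤ x F := by
  have hf := hD.topfoot
  by_cases hvt : v = D.top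
  · subst hvt
    exact ⟨hf.1.le, hf.2.le⟩
  · have ht := hD.pos _ hD.top_mem
    have hp := hD.pos v hv
    obtain ⟨h1, h2, h3⟩ := hD.inside v hv hvt
    have hd : 0 < (D.pt D.top).2 - (D.pt v).2 := by linarith
    unfold sl at h2 h3
    rw [lt_div_iff₀ hd] at h2
    rw [div_lt_iff₀ hd] at h3
    have h4 := mul_lt_mul_of_pos_right hf.1 hp
    have h5 := mul_lt_mul_of_pos_right hf.2 hp
    constructor
    · by_contra hc
      push Not at hc
      have := mul_lt_mul_of_pos_right hc ht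
      nlinarith
    · by_contra hc
      push Not at hc
      have := mul_lt_mul_of_pos_right hc ht
      nlinarith

theorem hull_mem_feet (hF : GoodFeet F x Bl) : x 0 < x F :=
  hF.mono 0 F (by have := hF.two; omega) le_rfl

open Classical in
theorem hull_mem_ax (hF : GoodFeet F x Bl) {a : ℝ} (ha : a ∈ axPts F x Bl) :
    x 0 ≤ a ∧ a ≤ x F := by
  unfold axPts at ha
  rw [mem_union, mem_image] at ha
  rcases ha with ⟨i, hi, rfl⟩ | hb
  · rw [mem_range] at hi
    constructor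
    · rcases Nat.eq_zero_or_pos i with rfl | h
      · exact le_rfl
      · exact (hF.mono 0 i h (by omega)).le
    · rcases Nat.lt_or_ge i F with h | h
      · exact (hF.mono i F h le_rfl).le
      · have : i = F := by omega
        rw [this]
  · have := hF.bl a hb
    exact ⟨this.1.le, this.2.1.le⟩

open Classical in
theorem hull_mem_cases (hF : GoodFeet F x Bl) (hU : U.Good F x) (hL : L.Good F x) {r : Pt}
    (hr : r ∈ SS U L F x Bl) :
    ((∃ v ∈ U.I, r = U.pt v) ∨ (r.2 ≤ 0 ∧ x 0 ≤ r.1 ∧ r.1 ≤ x F)) ∧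
      ((∃ v ∈ L.I, low r = L.pt v) ∨ ((low r).2 ≤ 0 ∧ x 0 ≤ (low r).1 ∧ (low r).1 ≤ x F)) := by
  unfold SS setWA offPts at hr
  rw [mem_union, mem_union, mem_image, mem_image, mem_image] at hr
  rcases hr with (⟨v, hv, rfl⟩ | ⟨v, hv, rfl⟩) | ⟨a, ha, rfl⟩
  · have hp := hU.pos v hv
    have h := hull_mem_abs hU hv
    refine ⟨Or.inl ⟨v, hv, rfl⟩, Or.inr ⟨?_, h.1, h.2⟩⟩
    simp only [low]
    linarith
  · have hp := hL.pos v hv
    have h := hull_mem_abs hL hv
    refine ⟨Or.inr ⟨?_, h.1, h.2⟩, Or.inl ⟨v, hv, low_low _⟩⟩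
    simp only [low]
    linarith
  · have h := hull_mem_ax hF ha
    refine ⟨Or.inr ⟨le_rfl, h.1, h.2⟩, Or.inr ⟨?_, h.1, h.2⟩⟩
    simp [low, fpt]

open Classical in
theorem hull_mem_x0 : fpt (x 0) ∈ SS U L F x Bl := by
  unfold SS setWA axPts
  refine mem_union_right _ (mem_image_of_mem _ (mem_union_left _ (mem_image.2 ⟨0, ?_, rfl⟩)))
  rw [mem_range]
  omega

open Classical in
theorem hull_mem_xF : fpt (x F) ∈ SS U L F x Bl := by
  unfold SS setWA axPts
  refine mem_union_right _ (mem_image_of_mem _ (mem_union_left _ (mem_image.2 ⟨F, ?_, rfl⟩)))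
  rw [mem_range]
  omega

open Classical in
theorem hull_mem_U (hU : U.Good F x) : U.pt U.top ∈ SS U L F x Bl := by
  unfold SS setWA offPts
  exact mem_union_left _ (mem_union_left _ (mem_image_of_mem _ hU.top_mem))

open Classical in
theorem hull_mem_L (hL : L.Good F x) : low (L.pt L.top) ∈ SS U L F x Bl := by
  unfold SS setWA offPts
  exact mem_union_left _ (mem_union_right _ (mem_image.2 ⟨L.top, hL.top_mem, rfl⟩))

/-- the four segments of the hull belong to every triangulation. Hint: all points of the set are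
on one side of each of the four lines, and only the two end points are on the line; use
`isTri_iff`, `cross_iff` -/
theorem hull_mem (hF : GoodFeet F x Bl) (hU : U.Good F x) (hL : L.Good F x)
    {T : Finset (Sym2 Pt)} (hT : IsTri (SS U L F x Bl) T) :
    (s(fpt (x 0), U.pt U.top) ∈ T ∧ s(fpt (x F), U.pt U.top) ∈ T) ∧
      s(fpt (x 0), low (L.pt L.top)) ∈ T ∧ s(fpt (x F), low (L.pt L.top)) ∈ T := by
  have hx := hull_mem_feet hF
  have hsU : ∀ r ∈ SS U L F x Bl, _ := fun r hr =>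
    hull_mem_side hx hU (hull_mem_cases hF hU hL hr).1
  have hsL : ∀ r ∈ SS U L F x Bl, _ := fun r hr =>
    hull_mem_side hx hL (hull_mem_cases hF hU hL hr).2
  have hdl : ∀ a r, det (fpt a) (low (L.pt L.top)) r = -det (fpt a) (L.pt L.top) (low r) := by
    intro a r
    rw [← det_low, hull_mem_low_fpt, low_low]
  have hml : ∀ a r, r ∈ openSegment ℝ (fpt a) (low (L.pt L.top)) →
      low r ∈ openSegment ℝ (fpt a) (L.pt L.top) := by
    intro a r hr
    rw [← hull_mem_low_mem, hull_mem_low_fpt, low_low]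
    exact hr
  have hneU : ∀ a, fpt a ≠ U.pt U.top := by
    intro a h
    have := hU.pos _ hU.top_mem
    rw [← h] at this
    simp [fpt] at this
  have hneL : ∀ a, fpt a ≠ low (L.pt L.top) := by
    intro a h
    have h1 := hL.pos _ hL.top_mem
    have h2 : (low (L.pt L.top)).2 = 0 := by rw [← h]; rfl
    simp only [low] at h2
    linarith
  refine ⟨⟨?_, ?_⟩, ?_, ?_⟩
  · refine hull_mem_aux hT hull_mem_x0 (hull_mem_U hU) (hneU _) (fun r hr => (hsU r hr).2.2.1) ?_
    intro r hr s hs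
    exact mul_nonneg_of_nonpos_of_nonpos (hsU r hr).1 (hsU s hs).1
  · refine hull_mem_aux hT hull_mem_xF (hull_mem_U hU) (hneU _) (fun r hr => (hsU r hr).2.2.2) ?_
    intro r hr s hs
    exact mul_nonneg (hsU r hr).2.1 (hsU s hs).2.1
  · refine hull_mem_aux hT hull_mem_x0 (hull_mem_L hL) (hneL _)
      (fun r hr h => (hsL r hr).2.2.1 (hml _ _ h)) ?_
    intro r hr s hs
    rw [hdl, hdl, neg_mul_neg]
    exact mul_nonneg_of_nonpos_of_nonpos (hsL r hr).1 (hsL s hs).1
  · refine hull_mem_aux hT hull_mem_xF (hull_mem_L hL) (hneL _)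
      (fun r hr h => (hsL r hr).2.2.2 (hml _ _ h)) ?_
    intro r hr s hs
    rw [hdl, hdl, neg_mul_neg]
    exact mul_nonneg (hsL r hr).2.1 (hsL s hs).2.1

/-! ### geometry of the candidates -/

theorem cls_au_low_fpt (a : ℝ) : low (fpt a) = fpt a := by simp [low, fpt]

theorem cls_au_os_low {p q z : Pt} :
    z ∈ openSegment ℝ (low p) (low q) ↔ low z ∈ openSegment ℝ p q := by
  rw [mem_openSegment_iff, mem_openSegment_iff]
  simp only [low]
  constructor
  · rintro ⟨t, h0, h1, hx, hy⟩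
    exact ⟨t, h0, h1, hx, by rw [hy]; ring⟩
  · rintro ⟨t, h0, h1, hx, hy⟩
    exact ⟨t, h0, h1, hx, by linarith⟩

theorem cls_au_os_low' {a : ℝ} {q z : Pt} :
    z ∈ openSegment ℝ (fpt a) (low q) ↔ low z ∈ openSegment ℝ (fpt a) q := by
  have h := cls_au_os_low (p := fpt a) (q := q) (z := z)
  rwa [cls_au_low_fpt] at h

theorem cls_au_dis_low {p q r s : Pt}
    (h : Disjoint (openSegment ℝ (low p) (low q)) (openSegment ℝ (low r) (low s))) :
    Disjoint (openSegment ℝ p q) (openSegment ℝ r s) := by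
  rw [Set.disjoint_left] at h ⊢
  intro z hz hz'
  refine h (a := low z) ?_ ?_
  · rw [cls_au_os_low, low_low]; exact hz
  · rw [cls_au_os_low, low_low]; exact hz'

theorem cls_au_dis_low' {p q r s : Pt}
    (h : Disjoint (openSegment ℝ p q) (openSegment ℝ r s)) :
    Disjoint (openSegment ℝ (low p) (low q)) (openSegment ℝ (low r) (low s)) := by
  rw [Set.disjoint_left] at h ⊢
  intro z hz hz'
  exact h (cls_au_os_low.1 hz) (cls_au_os_low.1 hz')

theorem cls_au_os_pos {p q z : Pt} (hp : 0 ≤ p.2) (hq : 0 < q.2)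
    (h : z ∈ openSegment ℝ p q) : 0 < z.2 := by
  obtain ⟨t, h0, h1, hx, hy⟩ := mem_openSegment_iff.1 h
  have h2 : 0 ≤ (1 - t) * p.2 := mul_nonneg (by linarith) hp
  have h3 : 0 < t * q.2 := mul_pos h0 hq
  rw [hy]; linarith

theorem cls_au_os_neg {p q z : Pt} (hp : p.2 ≤ 0) (hq : q.2 < 0)
    (h : z ∈ openSegment ℝ p q) : z.2 < 0 := by
  obtain ⟨t, h0, h1, hx, hy⟩ := mem_openSegment_iff.1 h
  have h2 : (1 - t) * p.2 ≤ 0 := mul_nonpos_of_nonneg_of_nonpos (by linarith) hp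
  have h3 : t * q.2 < 0 := mul_neg_of_pos_of_neg h0 hq
  rw [hy]; linarith

theorem cls_au_os_axis {a b : ℝ} {z : Pt} (h : z ∈ openSegment ℝ (fpt a) (fpt b)) :
    z.2 = 0 := by
  obtain ⟨t, h0, h1, hx, hy⟩ := mem_openSegment_iff.1 h
  rw [hy]; simp [fpt]

theorem cls_au_os_axis_iff {a b c : ℝ} (hab : a < b) :
    fpt c ∈ openSegment ℝ (fpt a) (fpt b) ↔ a < c ∧ c < b := by
  rw [mem_openSegment_iff]
  simp only [fpt, mul_zero, add_zero, and_true]
  constructor
  · rintro ⟨t, h0, h1, hx⟩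
    rw [hx]
    constructor <;> nlinarith
  · rintro ⟨h1, h2⟩
    have hba : 0 < b - a := by linarith
    refine ⟨(c - a) / (b - a), div_pos (by linarith) hba, ?_, ?_⟩
    · rw [div_lt_one hba]; linarith
    · field_simp
      ring

theorem cls_au_mem_SS {z : Pt} : z ∈ SS U L F x Bl ↔ (∃ v ∈ U.I, U.pt v = z) ∨
    (∃ v ∈ L.I, low (L.pt v) = z) ∨ ∃ a ∈ axPts F x Bl, fpt a = z := by
  classical
  unfold SS setWA offPts
  simp only [mem_union, mem_image]
  rw [or_assoc]

theorem cls_au_fpt_inj {a b : ℝ} (h : fpt a = fpt b) : a = b := by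
  simpa [fpt] using h

theorem cls_au_fst_inj {a b : ℝ} {p q : Pt} (hp : p.2 ≠ 0) (h : s(fpt a, p) = s(fpt b, q)) :
    a = b ∧ p = q := by
  rcases Sym2.eq_iff.1 h with ⟨h1, h2⟩ | ⟨h1, h2⟩
  · exact ⟨cls_au_fpt_inj h1, h2⟩
  · exfalso; apply hp; rw [h2]; simp [fpt]

theorem cls_au_ne_fst {a : ℝ} {p q r : Pt} (hp : p.2 ≠ 0) (hq : q.2 ≠ 0) :
    s(p, q) ≠ s(fpt a, r) := by
  intro h
  rcases Sym2.eq_iff.1 h with ⟨h1, h2⟩ | ⟨h1, h2⟩
  · apply hp; rw [h1]; simp [fpt]
  · apply hq; rw [h2]; simp [fpt]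

theorem cls_au_mem_ER {D : Side α} {v : α} {a : ℝ} (h : (v, a) ∈ ER D F x Bl R) :
    v ∈ D.I ∧ a ∈ axPts F x Bl := by
  classical
  unfold ER at h
  have h1 := (mem_filter.1 h).1
  exact ⟨(mem_product.1 h1).1, (mem_product.1 h1).2⟩

theorem cls_au_mem_segE {D : Side α} {s : Bool} {E : Finset (α × ℝ)} {e : Sym2 Pt} :
    e ∈ segE D s E ↔ ∃ v a, (v, a) ∈ E ∧ s(fpt a, mir s (D.pt v)) = e := by
  classical
  unfold segE
  rw [mem_image]
  constructor
  · rintro ⟨⟨v, a⟩, h1, h2⟩; exact ⟨v, a, h1, h2⟩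
  · rintro ⟨v, a, h1, h2⟩; exact ⟨(v, a), h1, h2⟩

theorem cls_au_mem_segP {D : Side α} {s : Bool} {R : α → ℕ × ℕ} {e : Sym2 Pt} :
    e ∈ segP D s R ↔ ∃ v w, v ∈ D.I ∧ w ∈ D.I ∧ IsPar D R v w ∧
      s(mir s (D.pt v), mir s (D.pt w)) = e := by
  classical
  unfold segP
  rw [mem_image]
  constructor
  · rintro ⟨⟨v, w⟩, h1, h2⟩
    obtain ⟨h3, h4⟩ := mem_filter.1 h1
    exact ⟨v, w, (mem_product.1 h3).1, (mem_product.1 h3).2, h4, h2⟩
  · rintro ⟨v, w, h1, h2, h3, h4⟩
    exact ⟨(v, w), mem_filter.2 ⟨mem_product.2 ⟨h1, h2⟩, h3⟩, h4⟩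

theorem cls_au_mem_segA {A : Finset ℝ} {e : Sym2 Pt} :
    e ∈ segA A ↔ ∃ a b, Adj A a b ∧ s(fpt a, fpt b) = e := by
  classical
  unfold segA
  rw [mem_image]
  constructor
  · rintro ⟨⟨v, w⟩, h1, h2⟩
    exact ⟨v, w, (mem_filter.1 h1).2, h2⟩
  · rintro ⟨v, w, h1, h2⟩
    exact ⟨(v, w), mem_filter.2 ⟨mem_product.2 ⟨h1.1, h1.2.1⟩, h1⟩, h2⟩

theorem cls_au_low_snd (p : Pt) : (low p).2 = -p.2 := rfl

theorem cls_au_low_inj {p q : Pt} (h : low p = low q) : p = q := by
  rw [← low_low p, ← low_low q, h]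

/-- both forms of the free segment on one side -/
theorem cls_au_free {D : Side α} {R : α → ℕ × ℕ} {p q : α}
    (h1 : ∀ w ∈ D.I, D.pt w ∉ openSegment ℝ (D.pt p) (D.pt q))
    (h2 : ∀ w b, (w, b) ∈ ER D F x Bl R →
      Disjoint (openSegment ℝ (fpt b) (D.pt w)) (openSegment ℝ (D.pt p) (D.pt q))) :
    Free D (ER D F x Bl R) (D.pt p) (D.pt q) ∧ Free D (ER D F x Bl R) (D.pt q) (D.pt p) := by
  refine ⟨⟨h1, h2⟩, ?_, ?_⟩
  · intro w hw; rw [openSegment_symm]; exact h1 w hw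
  · intro w b hwb; rw [openSegment_symm ℝ (D.pt q)]; exact h2 w b hwb

/-- hint: `au_class`; (`s(fpt a, pt v)` admissible and disjoint to all other segments of `segE U`) -/
theorem cls_au (hF : GoodFeet F x Bl) (hU : U.Good F x) (hL : L.Good F x) (hR : IsTS U F x R)
    {v : α} {a : ℝ} (hv : v ∈ U.I) (ha : a ∈ axPts F x Bl)
    (hs : IsSeg (SS U L F x Bl) s(fpt a, U.pt v))
    (hd : ∀ f ∈ segE U false (ER U F x Bl R), s(fpt a, U.pt v) ≠ f →
      Disjoint (seg s(fpt a, U.pt v)) (seg f)) : (v, a) ∈ ER U F x Bl R := by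
  obtain ⟨-, -, -, h4⟩ := isSeg_mk.1 hs
  refine au_class hR hF hU hv ha ?_ ?_
  · intro w hw
    exact h4 _ (cls_au_mem_SS.2 (Or.inl ⟨w, hw, rfl⟩))
  · intro w b hwb hne
    have h5 : s(fpt b, U.pt w) ∈ segE U false (ER U F x Bl R) :=
      cls_au_mem_segE.2 ⟨w, b, hwb, by simp [mir]⟩
    have h6 := hd _ h5 (fun h => hne ?_)
    · rw [seg_mk, seg_mk] at h6; exact h6.symm
    · obtain ⟨h7, h8⟩ := cls_au_fst_inj (hU.pos v hv).ne' h
      rw [h7, hU.inj hv (cls_au_mem_ER hwb).1 h8]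

/-- mirror image of `cls_au` -/
theorem cls_al (hF : GoodFeet F x Bl) (hU : U.Good F x) (hL : L.Good F x) (hR' : IsTS L F x R')
    {v : β} {a : ℝ} (hv : v ∈ L.I) (ha : a ∈ axPts F x Bl)
    (hs : IsSeg (SS U L F x Bl) s(fpt a, low (L.pt v)))
    (hd : ∀ f ∈ segE L true (ER L F x Bl R'), s(fpt a, low (L.pt v)) ≠ f →
      Disjoint (seg s(fpt a, low (L.pt v))) (seg f)) : (v, a) ∈ ER L F x Bl R' := by
  obtain ⟨-, -, -, h4⟩ := isSeg_mk.1 hs
  refine au_class hR' hF hL hv ha ?_ ?_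
  · intro w hw hc
    refine h4 _ (cls_au_mem_SS.2 (Or.inr (Or.inl ⟨w, hw, rfl⟩))) ?_
    rw [cls_au_os_low', low_low]; exact hc
  · intro w b hwb hne
    have h5 : s(fpt b, low (L.pt w)) ∈ segE L true (ER L F x Bl R') :=
      cls_au_mem_segE.2 ⟨w, b, hwb, by simp [mir]⟩
    have hneg : (low (L.pt v)).2 ≠ 0 := by
      rw [cls_au_low_snd]; exact neg_ne_zero.2 (hL.pos v hv).ne'
    have h6 := hd _ h5 (fun h => hne ?_)
    · rw [seg_mk, seg_mk, ← cls_au_low_fpt a, ← cls_au_low_fpt b] at h6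
      exact (cls_au_dis_low h6).symm
    · obtain ⟨h7, h8⟩ := cls_au_fst_inj hneg h
      rw [h7, hL.inj hv (cls_au_mem_ER hwb).1 (cls_au_low_inj h8)]

/-- hint: `uu_class` -/
theorem cls_uu (hF : GoodFeet F x Bl) (hU : U.Good F x) (hL : L.Good F x) (hR : IsTS U F x R)
    {p q : α} (hp : p ∈ U.I) (hq : q ∈ U.I)
    (hs : IsSeg (SS U L F x Bl) s(U.pt p, U.pt q))
    (hd : ∀ f ∈ segE U false (ER U F x Bl R), s(U.pt p, U.pt q) ≠ f →
      Disjoint (seg s(U.pt p, U.pt q)) (seg f)) : s(U.pt p, U.pt q) ∈ segP U false R := by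
  obtain ⟨hne, -, -, h4⟩ := isSeg_mk.1 hs
  have hpq : p ≠ q := fun h => hne (by rw [h])
  have h1 : ∀ w ∈ U.I, U.pt w ∉ openSegment ℝ (U.pt p) (U.pt q) := fun w hw =>
    h4 _ (cls_au_mem_SS.2 (Or.inl ⟨w, hw, rfl⟩))
  have h2 : ∀ w b, (w, b) ∈ ER U F x Bl R →
      Disjoint (openSegment ℝ (fpt b) (U.pt w)) (openSegment ℝ (U.pt p) (U.pt q)) := by
    intro w b hwb
    have h5 : s(fpt b, U.pt w) ∈ segE U false (ER U F x Bl R) :=
      cls_au_mem_segE.2 ⟨w, b, hwb, by simp [mir]⟩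
    have h6 := hd _ h5 (cls_au_ne_fst (hU.pos p hp).ne' (hU.pos q hq).ne')
    rw [seg_mk, seg_mk] at h6; exact h6.symm
  obtain ⟨h7, h8⟩ := cls_au_free h1 h2
  rcases le_total (U.pt q).2 (U.pt p).2 with hh | hh
  · exact cls_au_mem_segP.2 ⟨p, q, hp, hq, uu_class hR hF hU hp hq hpq hh h7, by simp [mir]⟩
  · rw [Sym2.eq_swap]
    exact cls_au_mem_segP.2
      ⟨q, p, hq, hp, uu_class hR hF hU hq hp hpq.symm hh h8, by simp [mir]⟩

/-- mirror image of `cls_uu` -/
theorem cls_ll (hF : GoodFeet F x Bl) (hU : U.Good F x) (hL : L.Good F x) (hR' : IsTS L F x R')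
    {p q : β} (hp : p ∈ L.I) (hq : q ∈ L.I)
    (hs : IsSeg (SS U L F x Bl) s(low (L.pt p), low (L.pt q)))
    (hd : ∀ f ∈ segE L true (ER L F x Bl R'), s(low (L.pt p), low (L.pt q)) ≠ f →
      Disjoint (seg s(low (L.pt p), low (L.pt q))) (seg f)) :
    s(low (L.pt p), low (L.pt q)) ∈ segP L true R' := by
  obtain ⟨hne, -, -, h4⟩ := isSeg_mk.1 hs
  have hpq : p ≠ q := fun h => hne (by rw [h])
  have hneg : ∀ v ∈ L.I, (low (L.pt v)).2 ≠ 0 := fun v hv => by
    rw [cls_au_low_snd]; exact neg_ne_zero.2 (hL.pos v hv).ne'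
  have h1 : ∀ w ∈ L.I, L.pt w ∉ openSegment ℝ (L.pt p) (L.pt q) := by
    intro w hw hc
    refine h4 _ (cls_au_mem_SS.2 (Or.inr (Or.inl ⟨w, hw, rfl⟩))) ?_
    rw [cls_au_os_low, low_low]; exact hc
  have h2 : ∀ w b, (w, b) ∈ ER L F x Bl R' →
      Disjoint (openSegment ℝ (fpt b) (L.pt w)) (openSegment ℝ (L.pt p) (L.pt q)) := by
    intro w b hwb
    have h5 : s(fpt b, low (L.pt w)) ∈ segE L true (ER L F x Bl R') :=
      cls_au_mem_segE.2 ⟨w, b, hwb, by simp [mir]⟩
    have h6 := hd _ h5 (cls_au_ne_fst (hneg p hp) (hneg q hq))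
    rw [seg_mk, seg_mk, ← cls_au_low_fpt b] at h6
    exact (cls_au_dis_low h6).symm
  obtain ⟨h7, h8⟩ := cls_au_free h1 h2
  rcases le_total (L.pt q).2 (L.pt p).2 with hh | hh
  · exact cls_au_mem_segP.2 ⟨p, q, hp, hq, uu_class hR' hF hL hp hq hpq hh h7, by simp [mir]⟩
  · rw [Sym2.eq_swap]
    exact cls_au_mem_segP.2
      ⟨q, p, hq, hp, uu_class hR' hF hL hq hp hpq.symm hh h8, by simp [mir]⟩

theorem cr_range_one {γ : Type} {D : Side γ} (hD : D.Good F x) {p : γ} (hp : p ∈ D.I) :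
    x 0 < (D.pt p).1 ∧ (D.pt p).1 < x F := by
  by_cases hpt : p = D.top
  · rw [hpt]
    exact hD.topfoot
  · obtain ⟨h1, h2, h3⟩ := hD.inside p hp hpt
    obtain ⟨h4, h5⟩ := hD.topfoot
    have hpos := hD.pos p hp
    have ht : 0 < (D.pt D.top).2 := hpos.trans h1
    have hd : 0 < (D.pt D.top).2 - (D.pt p).2 := by linarith
    unfold sl at h2 h3
    rw [lt_div_iff₀ hd] at h2
    rw [div_lt_iff₀ hd] at h3
    constructor
    · by_contra hc
      have hc' : (D.pt p).1 ≤ x 0 := not_lt.1 hc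
      nlinarith [mul_le_mul_of_nonneg_right hc' ht.le, mul_lt_mul_of_pos_right h4 hpos]
    · by_contra hc
      have hc' : x F ≤ (D.pt p).1 := not_lt.1 hc
      nlinarith [mul_le_mul_of_nonneg_right hc' ht.le, mul_lt_mul_of_pos_right h5 hpos]

/-- the crossing point of a segment from the upper to the lower side is inside `(x 0, x F)`.
Hint: all points of the side are in the triangle -/
theorem cr_range (hU : U.Good F x) (hL : L.Good F x) {p : α} {q : β} (hp : p ∈ U.I)
    (hq : q ∈ L.I) : x 0 < cr (U.pt p) (L.pt q) ∧ cr (U.pt p) (L.pt q) < x F := by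
  obtain ⟨h1, h2⟩ := cr_range_one hU hp
  obtain ⟨h3, h4⟩ := cr_range_one hL hq
  have hp0 := hU.pos p hp
  have hq0 := hL.pos q hq
  have hs : 0 < (U.pt p).2 + (L.pt q).2 := by linarith
  unfold cr
  rw [lt_div_iff₀ hs, div_lt_iff₀ hs]
  constructor
  · nlinarith [mul_lt_mul_of_pos_right h1 hq0, mul_lt_mul_of_pos_right h3 hp0]
  · nlinarith [mul_lt_mul_of_pos_right h2 hq0, mul_lt_mul_of_pos_right h4 hp0]

theorem cls_ul_adj (hF : GoodFeet F x Bl) {c : ℝ} (h1 : x 0 < c) (h2 : c < x F)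
    (h3 : c ∉ axPts F x Bl) : ∃ g, g < F ∧ x g < c ∧ c < x (g + 1) ∧
      ∃ a a', Adj (axPts F x Bl) a a' ∧ x g ≤ a ∧ a' ≤ x (g + 1) ∧ a < c ∧ c < a' := by
  classical
  have hmem : ∀ i ≤ F, x i ∈ axPts F x Bl := by
    intro i hi
    unfold axPts
    exact mem_union_left _ (mem_image.2 ⟨i, mem_range.2 (by omega), rfl⟩)
  have hne : ∀ b ∈ axPts F x Bl, b ≠ c := by
    rintro b hb rfl
    exact h3 hb
  have hex : ∃ i, c < x i := ⟨F, h2⟩
  have hm := Nat.find_spec hex
  have hmin := fun i (hi : i < Nat.find hex) => Nat.find_min hex hi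
  have hle : Nat.find hex ≤ F := Nat.find_min' hex h2
  have h0 : Nat.find hex ≠ 0 := by
    intro h0
    rw [h0] at hm
    linarith
  obtain ⟨g, hg⟩ := Nat.exists_eq_succ_of_ne_zero h0
  have hg' : Nat.find hex = g + 1 := hg
  rw [hg'] at hm hle
  have hgF : g < F := by omega
  have hgc : x g < c := by
    have h4 := not_lt.1 (hmin g (by omega))
    exact lt_of_le_of_ne h4 (hne _ (hmem g hgF.le))
  refine ⟨g, hgF, hgc, hm, ?_⟩
  have hl : ((axPts F x Bl).filter fun b => b < c).Nonempty :=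
    ⟨x g, mem_filter.2 ⟨hmem g hgF.le, hgc⟩⟩
  have hr : ((axPts F x Bl).filter fun b => c < b).Nonempty :=
    ⟨x (g + 1), mem_filter.2 ⟨hmem (g + 1) hgF, hm⟩⟩
  have ml := max'_mem _ hl
  have mr := min'_mem _ hr
  refine ⟨_, _, ⟨(mem_filter.1 ml).1, (mem_filter.1 mr).1,
    (mem_filter.1 ml).2.trans (mem_filter.1 mr).2, ?_⟩, ?_, ?_, (mem_filter.1 ml).2,
    (mem_filter.1 mr).2⟩
  · intro b hb
    rcases lt_or_gt_of_ne (hne b hb) with h | h
    · exact Or.inl (le_max' _ _ (mem_filter.2 ⟨hb, h⟩))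
    · exact Or.inr (min'_le _ _ (mem_filter.2 ⟨hb, h⟩))
  · exact le_max' _ _ (mem_filter.2 ⟨hmem g hgF.le, hgc⟩)
  · exact min'_le _ _ (mem_filter.2 ⟨hmem (g + 1) hgF, hm⟩)

theorem cls_ul_low {p q z : Pt} (h : z ∈ openSegment ℝ p q) :
    low z ∈ openSegment ℝ (low p) (low q) := by
  obtain ⟨t, h0, h1, h2, h3⟩ := mem_openSegment_iff.1 h
  rw [mem_openSegment_iff]
  refine ⟨t, h0, h1, h2, ?_⟩
  simp only [low]
  rw [h3]
  ring

/-- hint: `cr_split`, `cr_range`: the crossing point `c` is strictly between two neighbouring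
axis points in a gap `g`; `lab_class` above and (mirrored) below -/
theorem cls_ul (hF : GoodFeet F x Bl) (hU : U.Good F x) (hL : L.Good F x) (hR : IsTS U F x R)
    (hR' : IsTS L F x R') {p : α} {q : β} (hp : p ∈ U.I) (hq : q ∈ L.I)
    (hs : IsSeg (SS U L F x Bl) s(U.pt p, low (L.pt q)))
    (hd : ∀ f ∈ segE U false (ER U F x Bl R) ∪ segE L true (ER L F x Bl R'),
      s(U.pt p, low (L.pt q)) ≠ f → Disjoint (seg s(U.pt p, low (L.pt q))) (seg f)) :
    ∃ g ∈ avail U L F x Bl R R', s(U.pt p, low (L.pt q)) = segC U L R R' g := by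
  classical
  obtain ⟨c1, c2⟩ := cr_range hU hL hp hq
  set c := cr (U.pt p) (L.pt q) with hc
  have hp0 := hU.pos p hp
  have hq0 := hL.pos q hq
  have hsp := cr_split hp0 hq0
  rw [← hc] at hsp
  rw [isSeg_mk] at hs
  obtain ⟨-, -, -, hs4⟩ := hs
  have hup : ∀ z ∈ openSegment ℝ (fpt c) (U.pt p), z ∈ openSegment ℝ (U.pt p) (low (L.pt q)) := by
    intro z hz
    rw [hsp]
    exact Or.inl (Or.inl hz)
  have hdn : ∀ z ∈ openSegment ℝ (fpt c) (low (L.pt q)),
      z ∈ openSegment ℝ (U.pt p) (low (L.pt q)) := by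
    intro z hz
    rw [hsp]
    exact Or.inr hz
  have hmid : fpt c ∈ openSegment ℝ (U.pt p) (low (L.pt q)) := by
    rw [hsp]
    exact Or.inl (Or.inr rfl)
  have hSA : ∀ a ∈ axPts F x Bl, fpt a ∈ SS U L F x Bl := by
    intro a ha
    unfold SS setWA
    exact mem_union_right _ (mem_image_of_mem _ ha)
  have hSU : ∀ w ∈ U.I, U.pt w ∈ SS U L F x Bl := by
    intro w hw
    unfold SS setWA offPts
    exact mem_union_left _ (mem_union_left _ (mem_image_of_mem _ hw))
  have hSL : ∀ w ∈ L.I, low (L.pt w) ∈ SS U L F x Bl := by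
    intro w hw
    unfold SS setWA offPts
    exact mem_union_left _ (mem_union_right _
      (mem_image_of_mem (fun w => low (L.pt w)) hw))
  have hcA : c ∉ axPts F x Bl := fun h => hs4 _ (hSA c h) hmid
  obtain ⟨g, hgF, hg1, hg2, a, a', hadj, h1, h2, h3, h4⟩ := cls_ul_adj hF c1 c2 hcA
  have e1 : p = lab U R g := by
    refine lab_class hR hF hU hgF hadj h1 h2 h3 h4 hp ⟨?_, ?_⟩
    · intro w hw hz
      exact hs4 _ (hSU w hw) (hup _ hz)
    · intro w b hwb
      have hwI : w ∈ U.I := by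
        unfold ER at hwb
        exact (mem_product.1 (mem_filter.1 hwb).1).1
      have hf : s(fpt b, U.pt w) ∈ segE U false (ER U F x Bl R) := by
        unfold segE
        exact mem_image.2 ⟨(w, b), hwb, by simp [mir]⟩
      have hne : s(U.pt p, low (L.pt q)) ≠ s(fpt b, U.pt w) := by
        intro he
        have hw0 := hU.pos w hwI
        rcases Sym2.eq_iff.1 he with ⟨e1, e2⟩ | ⟨e1, e2⟩
        · have := congrArg Prod.snd e1
          simp only [fpt] at this
          linarith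
        · have := congrArg Prod.snd e2
          simp only [fpt, low] at this
          linarith
      have hdis := hd _ (mem_union_left _ hf) hne
      rw [seg_mk, seg_mk] at hdis
      rw [Set.disjoint_left]
      intro z hz1 hz2
      exact Set.disjoint_left.1 hdis (hup z hz2) hz1
  have e2 : q = lab L R' g := by
    refine lab_class hR' hF hL hgF hadj h1 h2 h3 h4 hq ⟨?_, ?_⟩
    · intro w hw hz
      have h5 := cls_ul_low hz
      have h6 : low (fpt c) = fpt c := by simp [low, fpt]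
      rw [h6] at h5
      exact hs4 _ (hSL w hw) (hdn _ h5)
    · intro w b hwb
      have hwI : w ∈ L.I := by
        unfold ER at hwb
        exact (mem_product.1 (mem_filter.1 hwb).1).1
      have hf : s(fpt b, low (L.pt w)) ∈ segE L true (ER L F x Bl R') := by
        unfold segE
        exact mem_image.2 ⟨(w, b), hwb, by simp [mir]⟩
      have hne : s(U.pt p, low (L.pt q)) ≠ s(fpt b, low (L.pt w)) := by
        intro he
        have hw0 := hL.pos w hwI
        rcases Sym2.eq_iff.1 he with ⟨e1, e2⟩ | ⟨e1, e2⟩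
        · have := congrArg Prod.snd e1
          simp only [fpt] at this
          linarith
        · have := congrArg Prod.snd e1
          simp only [low] at this
          linarith
      have hdis := hd _ (mem_union_right _ hf) hne
      rw [seg_mk, seg_mk] at hdis
      rw [Set.disjoint_left]
      intro z hz1 hz2
      have h5 := cls_ul_low hz1
      have h6 := cls_ul_low hz2
      have h7 : ∀ t : ℝ, low (fpt t) = fpt t := fun t => by simp [low, fpt]
      rw [h7] at h5 h6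
      exact Set.disjoint_left.1 hdis (hdn _ h6) h5
  refine ⟨g, ?_, ?_⟩
  · unfold avail crg
    have e3 : cr (U.pt (lab U R g)) (L.pt (lab L R' g)) = c := by rw [← e1, ← e2]
    rw [mem_filter, e3]
    refine ⟨mem_range.2 hgF, hg1, hg2, fun h => hcA ?_⟩
    unfold axPts
    exact mem_union_right _ h
  · unfold segC
    rw [← e1, ← e2]

theorem cls_aa_mem {W : Finset Pt} {A : Finset ℝ} {z : Pt} :
    z ∈ setWA W A ↔ z ∈ W ∨ ∃ a ∈ A, fpt a = z := by
  classical
  unfold setWA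
  simp only [mem_union, mem_image]

theorem cls_aa_lt {W : Finset Pt} {A : Finset ℝ} {a b : ℝ} (hlt : a < b) (ha : a ∈ A)
    (hb : b ∈ A) (h : ∀ z ∈ setWA W A, z ∉ openSegment ℝ (fpt a) (fpt b)) :
    Adj A a b := by
  refine ⟨ha, hb, hlt, fun c hc => ?_⟩
  by_contra hcon
  push Not at hcon
  exact h (fpt c) (cls_aa_mem.2 (Or.inr ⟨c, hc, rfl⟩)) ((cls_au_os_axis_iff hlt).2 hcon)

theorem cls_aa {W : Finset Pt} {A : Finset ℝ} {a b : ℝ}
    (hs : IsSeg (setWA W A) s(fpt a, fpt b)) (hW : ∀ u ∈ W, u.2 ≠ 0) :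
    s(fpt a, fpt b) ∈ segA A := by
  obtain ⟨hne, ha, hb, h4⟩ := isSeg_mk.1 hs
  have hmem : ∀ c, fpt c ∈ setWA W A → c ∈ A := by
    intro c hc
    rcases cls_aa_mem.1 hc with h | ⟨c', hc', h⟩
    · exact absurd rfl (hW _ h)
    · rw [← cls_au_fpt_inj h]; exact hc'
  have ha' := hmem a ha
  have hb' := hmem b hb
  rcases lt_trichotomy a b with h | h | h
  · exact cls_au_mem_segA.2 ⟨a, b, cls_aa_lt h ha' hb' h4, rfl⟩
  · exact absurd (by rw [h]) hne
  · refine cls_au_mem_segA.2 ⟨b, a, cls_aa_lt (W := W) h hb' ha' ?_, Sym2.eq_swap⟩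
    intro z hz; rw [openSegment_symm]; exact h4 z hz

/-- all admissible segments which cross nothing in `ER` -/
theorem cls (hF : GoodFeet F x Bl) (hU : U.Good F x) (hL : L.Good F x) (hR : IsTS U F x R)
    (hR' : IsTS L F x R') {e : Sym2 Pt} (hs : IsSeg (SS U L F x Bl) e)
    (hd : ∀ f ∈ segE U false (ER U F x Bl R) ∪ segE L true (ER L F x Bl R'), e ≠ f →
      Disjoint (seg e) (seg f)) :
    e ∈ segF U L F x Bl R R' ∨ e ∈ segA (axPts F x Bl) ∨
      ∃ g ∈ avail U L F x Bl R R', e = segC U L R R' g := by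
  classical
  have hdU : ∀ f ∈ segE U false (ER U F x Bl R), e ≠ f → Disjoint (seg e) (seg f) :=
    fun f hf => hd f (mem_union_left _ hf)
  have hdL : ∀ f ∈ segE L true (ER L F x Bl R'), e ≠ f → Disjoint (seg e) (seg f) :=
    fun f hf => hd f (mem_union_right _ hf)
  have hpos := hU.pos
  have hneg : ∀ v ∈ L.I, (low (L.pt v)).2 < 0 := fun v hv => by
    rw [cls_au_low_snd]; linarith [hL.pos v hv]
  have hW : ∀ u ∈ offPts U L, u.2 ≠ 0 := by
    intro u hu
    unfold offPts at hu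
    rcases mem_union.1 hu with h | h
    · obtain ⟨v, hv, rfl⟩ := mem_image.1 h
      exact (hpos v hv).ne'
    · obtain ⟨v, hv, rfl⟩ := mem_image.1 h
      exact (hneg v hv).ne
  have hau : ∀ v a, v ∈ U.I → a ∈ axPts F x Bl → e = s(fpt a, U.pt v) →
      e ∈ segF U L F x Bl R R' := by
    intro v a hv ha he
    subst he
    have h1 := cls_au hF hU hL hR hv ha hs hdU
    unfold segF
    refine mem_union_left _ (mem_union_left _ (mem_union_left _ ?_))
    exact cls_au_mem_segE.2 ⟨v, a, h1, by simp [mir]⟩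
  have hal : ∀ v a, v ∈ L.I → a ∈ axPts F x Bl → e = s(fpt a, low (L.pt v)) →
      e ∈ segF U L F x Bl R R' := by
    intro v a hv ha he
    subst he
    have h1 := cls_al hF hU hL hR' hv ha hs hdL
    unfold segF
    refine mem_union_left _ (mem_union_left _ (mem_union_right _ ?_))
    exact cls_au_mem_segE.2 ⟨v, a, h1, by simp [mir]⟩
  have hul : ∀ p q, p ∈ U.I → q ∈ L.I → e = s(U.pt p, low (L.pt q)) →
      ∃ g ∈ avail U L F x Bl R R', e = segC U L R R' g := by
    intro p q hp hq he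
    subst he
    exact cls_ul hF hU hL hR hR' hp hq hs hd
  revert hs hd hdU hdL hau hal hul
  induction e using Sym2.ind with
  | _ p q =>
    intro hs hd hdU hdL hau hal hul
    obtain ⟨hne, hp, hq, h4⟩ := isSeg_mk.1 hs
    rcases cls_au_mem_SS.1 hp with ⟨v, hv, rfl⟩ | ⟨v, hv, rfl⟩ | ⟨a, ha, rfl⟩ <;>
      rcases cls_au_mem_SS.1 hq with ⟨w, hw, rfl⟩ | ⟨w, hw, rfl⟩ | ⟨b, hb, rfl⟩
    · left
      unfold segF
      exact mem_union_left _ (mem_union_right _ (cls_uu hF hU hL hR hv hw hs hdU))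
    · exact Or.inr (Or.inr (hul v w hv hw rfl))
    · exact Or.inl (hau v b hv hb Sym2.eq_swap)
    · exact Or.inr (Or.inr (hul w v hw hv Sym2.eq_swap))
    · left
      unfold segF
      exact mem_union_right _ (cls_ll hF hU hL hR' hv hw hs hdL)
    · exact Or.inl (hal v b hv hb Sym2.eq_swap)
    · exact Or.inl (hau w a hw ha rfl)
    · exact Or.inl (hal w a hw ha rfl)
    · exact Or.inr (Or.inl (cls_aa hs hW))

theorem adm_E_foot {D : Side α} {R : α → ℕ × ℕ} (hR : IsTS D F x R) (hF : GoodFeet F x Bl)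
    {w : α} (hw : w ∈ D.I) : (w, x (R w).1) ∈ ER D F x Bl R := by
  classical
  unfold ER
  refine mem_filter.2 ⟨mem_product.2 ⟨hw, ?_⟩, Or.inl rfl⟩
  unfold axPts
  refine mem_union_left _ (mem_image.2 ⟨(R w).1, ?_, rfl⟩)
  have := ts_lt hR hF hw
  rw [mem_range]; omega

theorem adm_E_side {D : Side α} {R : α → ℕ × ℕ} (hF : GoodFeet F x Bl) (hD : D.Good F x)
    (hR : IsTS D F x R) {v w : α} {a : ℝ} (hva : (v, a) ∈ ER D F x Bl R) (hw : w ∈ D.I) :
    D.pt w ∉ openSegment ℝ (fpt a) (D.pt v) := by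
  have hv := (cls_au_mem_ER hva).1
  by_cases h : v = w
  · subst h
    rw [right_mem_openSegment_iff]
    intro h
    have := hD.pos v hv
    rw [← h] at this
    simp [fpt] at this
  · have h1 := ncr_ER hR hF hD v a hva w (x (R w).1) (adm_E_foot hR hF hw) h
    have h2 : D.pt v ≠ D.pt w := fun h' => h (hD.inj hv hw h')
    exact ((ncp_iff (hD.pos v hv) (hD.pos w hw) h2 _ _).1 h1).1

/-- hint: `ncr_ER` and `ncp_iff` (nonempty set of neighbours of every point) -/
theorem adm_E (hF : GoodFeet F x Bl) (hU : U.Good F x) (hL : L.Good F x) (hR : IsTS U F x R)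
    (hR' : IsTS L F x R') : (∀ e ∈ segE U false (ER U F x Bl R), IsSeg (SS U L F x Bl) e) ∧
      ∀ e ∈ segE L true (ER L F x Bl R'), IsSeg (SS U L F x Bl) e := by
  have hneg : ∀ v ∈ L.I, (low (L.pt v)).2 < 0 := fun v hv => by
    rw [cls_au_low_snd]; linarith [hL.pos v hv]
  have h0 : ∀ a : ℝ, (fpt a).2 = 0 := fun a => rfl
  constructor
  · intro e he
    obtain ⟨v, a, hva, rfl⟩ := cls_au_mem_segE.1 he
    obtain ⟨hv, ha⟩ := cls_au_mem_ER hva
    simp only [mir]
    rw [if_neg (by simp), isSeg_mk]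
    refine ⟨fun h => ?_, cls_au_mem_SS.2 (Or.inr (Or.inr ⟨a, ha, rfl⟩)),
      cls_au_mem_SS.2 (Or.inl ⟨v, hv, rfl⟩), ?_⟩
    · have := hU.pos v hv
      rw [← h, h0] at this; exact lt_irrefl _ this
    · intro z hz hmem
      have hzpos := cls_au_os_pos (h0 a).ge (hU.pos v hv) hmem
      rcases cls_au_mem_SS.1 hz with ⟨w, hw, rfl⟩ | ⟨w, hw, rfl⟩ | ⟨b, hb, rfl⟩
      · exact adm_E_side hF hU hR hva hw hmem
      · linarith [hneg w hw]
      · rw [h0] at hzpos; exact lt_irrefl _ hzpos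
  · intro e he
    obtain ⟨v, a, hva, rfl⟩ := cls_au_mem_segE.1 he
    obtain ⟨hv, ha⟩ := cls_au_mem_ER hva
    simp only [mir]
    rw [if_pos trivial, isSeg_mk]
    refine ⟨fun h => ?_, cls_au_mem_SS.2 (Or.inr (Or.inr ⟨a, ha, rfl⟩)),
      cls_au_mem_SS.2 (Or.inr (Or.inl ⟨v, hv, rfl⟩)), ?_⟩
    · have := hneg v hv
      rw [← h, h0] at this; exact lt_irrefl _ this
    · intro z hz hmem
      have hzneg := cls_au_os_neg (h0 a).le (hneg v hv) hmem
      rcases cls_au_mem_SS.1 hz with ⟨w, hw, rfl⟩ | ⟨w, hw, rfl⟩ | ⟨b, hb, rfl⟩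
      · linarith [hU.pos w hw]
      · rw [cls_au_os_low', low_low] at hmem
        exact adm_E_side hF hL hR' hva hw hmem
      · rw [h0] at hzneg; exact lt_irrefl _ hzneg

/-- hint: `par_free` -/
theorem adm_P (hF : GoodFeet F x Bl) (hU : U.Good F x) (hL : L.Good F x) (hR : IsTS U F x R)
    (hR' : IsTS L F x R') : (∀ e ∈ segP U false R, IsSeg (SS U L F x Bl) e) ∧
      ∀ e ∈ segP L true R', IsSeg (SS U L F x Bl) e := by
  have hneg : ∀ v ∈ L.I, (low (L.pt v)).2 < 0 := fun v hv => by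
    rw [cls_au_low_snd]; linarith [hL.pos v hv]
  have h0 : ∀ a : ℝ, (fpt a).2 = 0 := fun a => rfl
  constructor
  · intro e he
    obtain ⟨v, w, hv, hw, hp, rfl⟩ := cls_au_mem_segP.1 he
    simp only [mir]
    rw [if_neg (by simp), if_neg (by simp), isSeg_mk]
    refine ⟨fun h => ?_, cls_au_mem_SS.2 (Or.inl ⟨v, hv, rfl⟩),
      cls_au_mem_SS.2 (Or.inl ⟨w, hw, rfl⟩), ?_⟩
    · have := hp.2.1
      rw [h] at this; exact lt_irrefl _ this
    · intro z hz hmem
      have hzpos := cls_au_os_pos (hU.pos v hv).le (hU.pos w hw) hmem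
      rcases cls_au_mem_SS.1 hz with ⟨u, hu, rfl⟩ | ⟨u, hu, rfl⟩ | ⟨b, hb, rfl⟩
      · exact (par_free hR hF hU hw hp).1 u hu hmem
      · linarith [hneg u hu]
      · rw [h0] at hzpos; exact lt_irrefl _ hzpos
  · intro e he
    obtain ⟨v, w, hv, hw, hp, rfl⟩ := cls_au_mem_segP.1 he
    simp only [mir]
    rw [if_pos trivial, if_pos trivial, isSeg_mk]
    refine ⟨fun h => ?_, cls_au_mem_SS.2 (Or.inr (Or.inl ⟨v, hv, rfl⟩)),
      cls_au_mem_SS.2 (Or.inr (Or.inl ⟨w, hw, rfl⟩)), ?_⟩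
    · have := hp.2.1
      rw [cls_au_low_inj h] at this; exact lt_irrefl _ this
    · intro z hz hmem
      have hzneg := cls_au_os_neg (hneg v hv).le (hneg w hw) hmem
      rcases cls_au_mem_SS.1 hz with ⟨u, hu, rfl⟩ | ⟨u, hu, rfl⟩ | ⟨b, hb, rfl⟩
      · linarith [hU.pos u hu]
      · rw [cls_au_os_low, low_low] at hmem
        exact (par_free hR' hF hL hw hp).1 u hu hmem
      · rw [h0] at hzneg; exact lt_irrefl _ hzneg

theorem adm_A {W : Finset Pt} {A : Finset ℝ} (hW : ∀ u ∈ W, u.2 ≠ 0) :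
    ∀ e ∈ segA A, IsSeg (setWA W A) e := by
  intro e he
  obtain ⟨a, b, ⟨ha, hb, hlt, hadj⟩, rfl⟩ := cls_au_mem_segA.1 he
  rw [isSeg_mk]
  refine ⟨fun h => hlt.ne (cls_au_fpt_inj h), cls_aa_mem.2 (Or.inr ⟨a, ha, rfl⟩),
    cls_aa_mem.2 (Or.inr ⟨b, hb, rfl⟩), ?_⟩
  intro z hz hmem
  rcases cls_aa_mem.1 hz with h | ⟨c, hc, rfl⟩
  · exact hW z h (cls_au_os_axis hmem)
  · obtain ⟨h1, h2⟩ := (cls_au_os_axis_iff hlt).1 hmem
    rcases hadj c hc with h | h <;> linarith

/-- a point strictly inside a gap which is no axis point is between two neighbours of the gap -/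
theorem adm_C_adj (hF : GoodFeet F x Bl) {g : ℕ} (hg : g < F) {c : ℝ} (h1 : x g < c)
    (h2 : c < x (g + 1)) (h3 : c ∉ Bl) :
    c ∉ axPts F x Bl ∧ ∃ a a', Adj (axPts F x Bl) a a' ∧ x g ≤ a ∧ a' ≤ x (g + 1) ∧ a < c ∧
      c < a' := by
  classical
  have hc : c ∉ axPts F x Bl := by
    unfold axPts
    intro hc
    rcases mem_union.1 hc with h | h
    · obtain ⟨i, hi, rfl⟩ := mem_image.1 h
      rw [mem_range] at hi
      rcases Nat.lt_or_ge g i with hgi | hgi
      · rcases Nat.lt_or_ge (g + 1) i with h5 | h5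
        · have := hF.mono (g + 1) i h5 (by omega)
          linarith
        · have : i = g + 1 := by omega
          rw [this] at h2; exact lt_irrefl _ h2
      · rcases Nat.lt_or_ge i g with h5 | h5
        · have := hF.mono i g h5 (by omega)
          linarith
        · have : i = g := by omega
          rw [this] at h1; exact lt_irrefl _ h1
    · exact h3 h
  refine ⟨hc, ?_⟩
  have hxg : x g ∈ axPts F x Bl := by
    unfold axPts
    exact mem_union_left _ (mem_image.2 ⟨g, mem_range.2 (by omega), rfl⟩)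
  have hxg1 : x (g + 1) ∈ axPts F x Bl := by
    unfold axPts
    exact mem_union_left _ (mem_image.2 ⟨g + 1, mem_range.2 (by omega), rfl⟩)
  have hne1 : ((axPts F x Bl).filter fun b => b < c).Nonempty :=
    ⟨x g, mem_filter.2 ⟨hxg, h1⟩⟩
  have hne2 : ((axPts F x Bl).filter fun b => c < b).Nonempty :=
    ⟨x (g + 1), mem_filter.2 ⟨hxg1, h2⟩⟩
  have hm1 := mem_filter.1 (max'_mem _ hne1)
  have hm2 := mem_filter.1 (min'_mem _ hne2)
  refine ⟨_, _, ⟨hm1.1, hm2.1, hm1.2.trans hm2.2, fun b hb => ?_⟩, ?_, ?_, hm1.2, hm2.2⟩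
  · rcases lt_trichotomy b c with h | h | h
    · exact Or.inl (le_max' _ b (mem_filter.2 ⟨hb, h⟩))
    · exact absurd (h ▸ hb) hc
    · exact Or.inr (min'_le _ b (mem_filter.2 ⟨hb, h⟩))
  · exact le_max' _ _ (mem_filter.2 ⟨hxg, h1⟩)
  · exact min'_le _ _ (mem_filter.2 ⟨hxg1, h2⟩)

theorem adm_C_avail {g : ℕ} (hg : g ∈ avail U L F x Bl R R') : g < F ∧
    x g < crg U L R R' g ∧ crg U L R R' g < x (g + 1) ∧ crg U L R R' g ∉ Bl := by
  classical
  unfold avail at hg
  obtain ⟨h1, h2⟩ := mem_filter.1 hg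
  exact ⟨mem_range.1 h1, h2⟩

/-- the three parts of the cross edge -/
theorem adm_C_split (hU : U.Good F x) (hL : L.Good F x) (hR : IsTS U F x R)
    (hR' : IsTS L F x R') {g : ℕ} (hg : g < F) {z : Pt} (hz : z ∈ seg (segC U L R R' g)) :
    (0 < z.2 ∧ z ∈ openSegment ℝ (fpt (crg U L R R' g)) (U.pt (lab U R g))) ∨
      (z.2 = 0 ∧ z = fpt (crg U L R R' g)) ∨
      (z.2 < 0 ∧ low z ∈ openSegment ℝ (fpt (crg U L R R' g)) (L.pt (lab L R' g))) := by
  have hu := (lab_spec hR hU hg).1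
  have hl := (lab_spec hR' hL hg).1
  have hup := hU.pos _ hu
  have hlp := hL.pos _ hl
  unfold segC at hz
  rw [seg_mk, cr_split hup hlp] at hz
  have h0 : ∀ a : ℝ, (fpt a).2 = 0 := fun a => rfl
  rcases hz with (hz | hz) | hz
  · exact Or.inl ⟨cls_au_os_pos (h0 _).ge hup hz, hz⟩
  · refine Or.inr (Or.inl ⟨?_, hz⟩)
    rw [Set.mem_singleton_iff.1 hz]; rfl
  · refine Or.inr (Or.inr ⟨?_, cls_au_os_low'.1 hz⟩)
    refine cls_au_os_neg (h0 _).le ?_ hz
    rw [cls_au_low_snd]; linarith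

/-- hint: `cr_split`, `lab_free`; the crossing point is no axis point -/
theorem adm_C (hF : GoodFeet F x Bl) (hU : U.Good F x) (hL : L.Good F x) (hR : IsTS U F x R)
    (hR' : IsTS L F x R') {g : ℕ} (hg : g ∈ avail U L F x Bl R R') :
    IsSeg (SS U L F x Bl) (segC U L R R' g) := by
  obtain ⟨hgF, h1, h2, h3⟩ := adm_C_avail hg
  obtain ⟨hc, a, a', hadj, h4, h5, h6, h7⟩ := adm_C_adj hF hgF h1 h2 h3
  have hu := (lab_spec hR hU hgF).1
  have hl := (lab_spec hR' hL hgF).1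
  have hup := hU.pos _ hu
  have hlp := hL.pos _ hl
  have hneg : ∀ v ∈ L.I, (low (L.pt v)).2 < 0 := fun v hv => by
    rw [cls_au_low_snd]; linarith [hL.pos v hv]
  have h0 : ∀ a : ℝ, (fpt a).2 = 0 := fun a => rfl
  have hf := lab_free hR hF hU hgF hadj h4 h5 h6 h7
  have hf' := lab_free hR' hF hL hgF hadj h4 h5 h6 h7
  unfold segC
  rw [isSeg_mk]
  refine ⟨fun h => ?_, cls_au_mem_SS.2 (Or.inl ⟨_, hu, rfl⟩),
    cls_au_mem_SS.2 (Or.inr (Or.inl ⟨_, hl, rfl⟩)), ?_⟩
  · have := hneg _ hl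
    rw [← h] at this; linarith
  · intro z hz hmem
    have hmem' : z ∈ seg (segC U L R R' g) := by unfold segC; rw [seg_mk]; exact hmem
    rcases adm_C_split hU hL hR hR' hgF hmem' with ⟨hz0, hm⟩ | ⟨hz0, hm⟩ | ⟨hz0, hm⟩
    · rcases cls_au_mem_SS.1 hz with ⟨u, hu', rfl⟩ | ⟨u, hu', rfl⟩ | ⟨b, hb, rfl⟩
      · exact hf.1 u hu' hm
      · linarith [hneg u hu']
      · rw [h0] at hz0; exact lt_irrefl _ hz0
    · rcases cls_au_mem_SS.1 hz with ⟨u, hu', rfl⟩ | ⟨u, hu', rfl⟩ | ⟨b, hb, rfl⟩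
      · linarith [hU.pos u hu']
      · linarith [hneg u hu']
      · exact hc (cls_au_fpt_inj hm ▸ hb)
    · rcases cls_au_mem_SS.1 hz with ⟨u, hu', rfl⟩ | ⟨u, hu', rfl⟩ | ⟨b, hb, rfl⟩
      · linarith [hU.pos u hu']
      · rw [low_low] at hm; exact hf'.1 u hu' hm
      · rw [h0] at hz0; exact lt_irrefl _ hz0

theorem dis_FF_apex {c d : ℝ} {p z : Pt} (hp : 0 < p.2)
    (hc : z ∈ openSegment ℝ (fpt c) p) (hd : z ∈ openSegment ℝ (fpt d) p) : c = d := by
  obtain ⟨t, t0, t1, e1, e2⟩ := mem_openSegment_iff.1 hc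
  obtain ⟨s, s0, s1, e3, e4⟩ := mem_openSegment_iff.1 hd
  simp only [fpt, mul_zero, zero_add] at e1 e2 e3 e4
  have h : t = s := by
    have : t * p.2 = s * p.2 := by rw [← e2, ← e4]
    exact mul_right_cancel₀ hp.ne' this
  subst h
  have h2 : (1 - t) * c = (1 - t) * d := by linarith
  exact mul_left_cancel₀ (by linarith) h2

/-- the parent is unique -/
theorem dis_FF_par {D : Side α} (hR : IsTS D F x R) (hF : GoodFeet F x Bl) {v v' q : α}
    (hq : q ∈ D.I) (hp : IsPar D R v q) (hp' : IsPar D R v' q) : v = v' := by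
  by_contra hne
  have h1 := hp.2.2.2.2 v' hp'.1 hp'.2.1 hp'.2.2.1 hp'.2.2.2.1
  have h2 := hp'.2.2.2.2 v hp.1 hp.2.1 hp.2.2.1 hp.2.2.2.1
  have h3 := hR.same v hp.1 v' hp'.1 hne (le_antisymm h1 h2)
  have h4 := ts_lt hR hF hq
  have h5 := hp.2.2.1
  have h6 := hp.2.2.2.1
  have h7 := hp'.2.2.1
  have h8 := hp'.2.2.2.1
  omega

/-- the forced segments of one side, unmirrored -/
theorem dis_FF_one {D : Side α} (hF : GoodFeet F x Bl) (hD : D.Good F x) (hR : IsTS D F x R)
    {e f : Sym2 Pt} (he : e ∈ segE D false (ER D F x Bl R) ∨ e ∈ segP D false R)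
    (hf : f ∈ segE D false (ER D F x Bl R) ∨ f ∈ segP D false R) (hne : e ≠ f) :
    Disjoint (seg e) (seg f) := by
  classical
  have key : ∀ {e f : Sym2 Pt}, e ∈ segE D false (ER D F x Bl R) → f ∈ segP D false R →
      Disjoint (seg e) (seg f) := by
    intro e f he hf
    obtain ⟨⟨v, a⟩, hva, rfl⟩ := mem_image.1 he
    obtain ⟨⟨u, q⟩, huq, rfl⟩ := mem_image.1 hf
    obtain ⟨h1, h2⟩ := mem_filter.1 huq
    simp only [mir, Bool.false_eq_true, if_false]
    rw [seg_mk, seg_mk]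
    exact (par_free hR hF hD (mem_product.1 h1).2 h2).2 v a hva
  rcases he with he | he
  · rcases hf with hf | hf
    · obtain ⟨⟨v, a⟩, hva, rfl⟩ := mem_image.1 he
      obtain ⟨⟨w, b⟩, hwb, rfl⟩ := mem_image.1 hf
      simp only [mir, Bool.false_eq_true, if_false] at hne ⊢
      rw [seg_mk, seg_mk]
      have hv : v ∈ D.I := (mem_product.1 (mem_filter.1 hva).1).1
      have hw : w ∈ D.I := (mem_product.1 (mem_filter.1 hwb).1).1
      by_cases hvw : v = w
      · subst hvw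
        rw [Set.disjoint_left]
        intro z hz hz'
        have := dis_FF_apex (hD.pos v hv) hz hz'
        exact hne (by rw [this])
      · have h1 := ncr_ER hR hF hD v a hva w b hwb hvw
        exact ((ncp_iff (hD.pos v hv) (hD.pos w hw) (fun h => hvw (hD.inj hv hw h)) a b).1 h1).2.2
    · exact key he hf
  · rcases hf with hf | hf
    · exact (key hf he).symm
    · obtain ⟨⟨v, q⟩, hvq, rfl⟩ := mem_image.1 he
      obtain ⟨⟨v', q'⟩, hvq', rfl⟩ := mem_image.1 hf
      obtain ⟨h1, h2⟩ := mem_filter.1 hvq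
      obtain ⟨h3, h4⟩ := mem_filter.1 hvq'
      simp only [mir, Bool.false_eq_true, if_false] at hne ⊢
      simp only at h2 h4
      rw [seg_mk, seg_mk]
      by_cases hqq : q = q'
      · subst hqq
        have := dis_FF_par hR hF (mem_product.1 h1).2 h2 h4
        exact absurd (by rw [this]) hne
      · exact par_par hR hF hD (mem_product.1 h1).2 h2 (mem_product.1 h3).2 h4 hqq

/-- the forced segments of one side are above the axis -/
theorem dis_FF_pos {D : Side α} (hD : D.Good F x) {e : Sym2 Pt}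
    (he : e ∈ segE D false (ER D F x Bl R) ∨ e ∈ segP D false R) {z : Pt} (hz : z ∈ seg e) :
    0 < z.2 := by
  classical
  rcases he with he | he
  · obtain ⟨⟨v, a⟩, hva, rfl⟩ := mem_image.1 he
    have hv : v ∈ D.I := (mem_product.1 (mem_filter.1 hva).1).1
    simp only [mir, Bool.false_eq_true, if_false] at hz
    rw [seg_mk] at hz
    obtain ⟨t, t0, t1, _, e2⟩ := mem_openSegment_iff.1 hz
    rw [e2]
    simp only [fpt, mul_zero, zero_add]
    exact mul_pos t0 (hD.pos v hv)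
  · obtain ⟨⟨v, q⟩, hvq, rfl⟩ := mem_image.1 he
    obtain ⟨h1, h2⟩ := mem_filter.1 hvq
    have hv := (mem_product.1 h1).1
    have hq := (mem_product.1 h1).2
    simp only [mir, Bool.false_eq_true, if_false] at hz
    rw [seg_mk] at hz
    obtain ⟨t, t0, t1, _, e2⟩ := mem_openSegment_iff.1 hz
    rw [e2]
    have h3 := mul_pos (sub_pos.2 t1) (hD.pos _ hv)
    have h4 := mul_pos t0 (hD.pos _ hq)
    exact add_pos h3 h4

/-- mirrored segments -/
theorem dis_FF_low {D : Side α} {e : Sym2 Pt}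
    (he : e ∈ segE D true (ER D F x Bl R) ∨ e ∈ segP D true R) :
    ∃ e', (e' ∈ segE D false (ER D F x Bl R) ∨ e' ∈ segP D false R) ∧ e = e'.map low := by
  classical
  rcases he with he | he
  · obtain ⟨⟨v, a⟩, hva, rfl⟩ := mem_image.1 he
    refine ⟨s(fpt a, D.pt v), Or.inl (mem_image.2 ⟨(v, a), hva, by simp [mir]⟩), ?_⟩
    rw [Sym2.map_mk]
    simp [mir, low, fpt]
  · obtain ⟨⟨v, q⟩, hvq, rfl⟩ := mem_image.1 he
    refine ⟨s(D.pt v, D.pt q), Or.inr (mem_image.2 ⟨(v, q), hvq, by simp [mir]⟩), ?_⟩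
    rw [Sym2.map_mk]
    simp [mir]

theorem dis_FF_map {e f : Sym2 Pt} (h : Disjoint (seg e) (seg f)) :
    Disjoint (seg (e.map low)) (seg (f.map low)) := by
  rw [Set.disjoint_left] at h ⊢
  intro z hz hz'
  rw [← low_low z, seg_map_low] at hz hz'
  exact h hz hz'

theorem dis_FF_neg {D : Side α} (hD : D.Good F x) {e : Sym2 Pt}
    (he : e ∈ segE D false (ER D F x Bl R) ∨ e ∈ segP D false R) {z : Pt}
    (hz : z ∈ seg (e.map low)) : z.2 < 0 := by
  rw [← low_low z, seg_map_low] at hz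
  have h := dis_FF_pos hD he hz
  simp only [low] at h
  linarith

/-- the two sides -/
theorem dis_FF_cases {e : Sym2 Pt} (he : e ∈ segF U L F x Bl R R') :
    (e ∈ segE U false (ER U F x Bl R) ∨ e ∈ segP U false R) ∨
      ∃ e', (e' ∈ segE L false (ER L F x Bl R') ∨ e' ∈ segP L false R') ∧ e = e'.map low := by
  classical
  unfold segF at he
  rcases mem_union.1 he with he | he
  · rcases mem_union.1 he with he | he
    · rcases mem_union.1 he with he | he
      · exact Or.inl (Or.inl he)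
      · exact Or.inr (dis_FF_low (Or.inl he))
    · exact Or.inl (Or.inr he)
  · exact Or.inr (dis_FF_low (Or.inr he))

/-- forced segments off the axis do not cross each other. Hint: `ncr_ER`, `par_free`, `par_par`;
different sides: trivial -/
theorem dis_FF (hF : GoodFeet F x Bl) (hU : U.Good F x) (hL : L.Good F x) (hR : IsTS U F x R)
    (hR' : IsTS L F x R') {e f : Sym2 Pt} (he : e ∈ segF U L F x Bl R R')
    (hf : f ∈ segF U L F x Bl R R') (hne : e ≠ f) : Disjoint (seg e) (seg f) := by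
  rcases dis_FF_cases he with he1 | ⟨e', he1, rfl⟩
  · rcases dis_FF_cases hf with hf1 | ⟨f', hf1, rfl⟩
    · exact dis_FF_one hF hU hR he1 hf1 hne
    · rw [Set.disjoint_left]
      intro z hz hz'
      have h1 := dis_FF_pos hU he1 hz
      have h2 := dis_FF_neg hL hf1 hz'
      linarith
  · rcases dis_FF_cases hf with hf1 | ⟨f', hf1, rfl⟩
    · rw [Set.disjoint_left]
      intro z hz hz'
      have h1 := dis_FF_neg hL he1 hz
      have h2 := dis_FF_pos hU hf1 hz'
      linarith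
    · exact dis_FF_map (dis_FF_one hF hL hR' he1 hf1 (fun h => hne (by rw [h])))

theorem dis_FA (hU : U.Good F x) (hL : L.Good F x) {e f : Sym2 Pt}
    (he : e ∈ segF U L F x Bl R R') (hf : f ∈ segA (axPts F x Bl)) :
    Disjoint (seg e) (seg f) := by
  classical
  obtain ⟨⟨a, b⟩, _, rfl⟩ := mem_image.1 hf
  rw [Set.disjoint_left]
  intro z hz hz'
  have h0 : z.2 = 0 := by
    rw [seg_mk] at hz'
    obtain ⟨t, _, _, _, e2⟩ := mem_openSegment_iff.1 hz'
    rw [e2]
    simp [fpt]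
  rcases dis_FF_cases he with he1 | ⟨e', he1, rfl⟩
  · have h1 := dis_FF_pos hU he1 hz
    linarith
  · have h1 := dis_FF_neg hL he1 hz
    linarith

/-- hint: `cr_split`, `lab_free`, `lab_par` -/
theorem dis_FC (hF : GoodFeet F x Bl) (hU : U.Good F x) (hL : L.Good F x) (hR : IsTS U F x R)
    (hR' : IsTS L F x R') {e : Sym2 Pt} {g : ℕ} (he : e ∈ segF U L F x Bl R R')
    (hg : g ∈ avail U L F x Bl R R') : Disjoint (seg e) (seg (segC U L R R' g)) := by
  obtain ⟨hgF, h1, h2, h3⟩ := adm_C_avail hg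
  obtain ⟨hc, a, a', hadj, h4, h5, h6, h7⟩ := adm_C_adj hF hgF h1 h2 h3
  have hneg : ∀ v ∈ L.I, (low (L.pt v)).2 < 0 := fun v hv => by
    rw [cls_au_low_snd]; linarith [hL.pos v hv]
  have h0 : ∀ a : ℝ, (fpt a).2 = 0 := fun a => rfl
  have hf := lab_free hR hF hU hgF hadj h4 h5 h6 h7
  have hf' := lab_free hR' hF hL hgF hadj h4 h5 h6 h7
  rw [Set.disjoint_left]
  intro z hz hz'
  have hsp := adm_C_split hU hL hR hR' hgF hz'
  unfold segF at he
  rcases mem_union.1 he with he | he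
  · rcases mem_union.1 he with he | he
    · rcases mem_union.1 he with he | he
      · obtain ⟨v, b, hvb, rfl⟩ := cls_au_mem_segE.1 he
        simp only [mir] at hz
        rw [if_neg (by simp), seg_mk] at hz
        have hzpos := cls_au_os_pos (h0 b).ge (hU.pos v (cls_au_mem_ER hvb).1) hz
        rcases hsp with ⟨hz0, hm⟩ | ⟨hz0, hm⟩ | ⟨hz0, hm⟩
        · exact Set.disjoint_left.1 (hf.2 v b hvb) hz hm
        · linarith
        · linarith
      · obtain ⟨v, b, hvb, rfl⟩ := cls_au_mem_segE.1 he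
        simp only [mir] at hz
        rw [if_pos trivial, seg_mk] at hz
        have hzneg := cls_au_os_neg (h0 b).le (hneg v (cls_au_mem_ER hvb).1) hz
        rcases hsp with ⟨hz0, hm⟩ | ⟨hz0, hm⟩ | ⟨hz0, hm⟩
        · linarith
        · linarith
        · exact Set.disjoint_left.1 (hf'.2 v b hvb) (cls_au_os_low'.1 hz) hm
    · obtain ⟨v, w, hv, hw, hp, rfl⟩ := cls_au_mem_segP.1 he
      simp only [mir] at hz
      rw [if_neg (by simp), if_neg (by simp), seg_mk] at hz
      have hzpos := cls_au_os_pos (hU.pos v hv).le (hU.pos w hw) hz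
      rcases hsp with ⟨hz0, hm⟩ | ⟨hz0, hm⟩ | ⟨hz0, hm⟩
      · exact Set.disjoint_left.1 (lab_par hR hF hU hgF hadj h4 h5 h6 h7 hw hp) hm hz
      · linarith
      · linarith
  · obtain ⟨v, w, hv, hw, hp, rfl⟩ := cls_au_mem_segP.1 he
    simp only [mir] at hz
    rw [if_pos trivial, if_pos trivial, seg_mk] at hz
    have hzneg := cls_au_os_neg (hneg v hv).le (hneg w hw) hz
    rcases hsp with ⟨hz0, hm⟩ | ⟨hz0, hm⟩ | ⟨hz0, hm⟩
    · linarith
    · linarith
    · exact Set.disjoint_left.1 (lab_par hR' hF hL hgF hadj h4 h5 h6 h7 hw hp) hm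
        (cls_au_os_low.1 hz)

theorem dis_AA_mem {a b : ℝ} (hab : a < b) {z : Pt} :
    z ∈ openSegment ℝ (fpt a) (fpt b) ↔ z.2 = 0 ∧ a < z.1 ∧ z.1 < b := by
  rw [mem_openSegment_iff]
  simp only [fpt]
  constructor
  · rintro ⟨t, h0, h1, h2, h3⟩
    refine ⟨by rw [h3]; ring, ?_, ?_⟩
    · rw [h2]; nlinarith
    · rw [h2]; nlinarith
  · rintro ⟨h1, h2, h3⟩
    have hb : (0 : ℝ) < b - a := by linarith
    refine ⟨(z.1 - a) / (b - a), div_pos (by linarith) hb, ?_, ?_, ?_⟩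
    · rw [div_lt_one hb]; linarith
    · field_simp; ring
    · rw [h1]; ring

theorem dis_AA_uniq {A : Finset ℝ} {a a' b b' c : ℝ} (ha : Adj A a a') (hb : Adj A b b')
    (h1 : a < c) (h2 : c < a') (h3 : b < c) (h4 : c < b') : a = b ∧ a' = b' := by
  obtain ⟨ha1, ha2, ha3, ha4⟩ := ha
  obtain ⟨hb1, hb2, hb3, hb4⟩ := hb
  refine ⟨le_antisymm ?_ ?_, le_antisymm ?_ ?_⟩
  · rcases hb4 a ha1 with h | h
    · exact h
    · linarith
  · rcases ha4 b hb1 with h | h
    · exact h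
    · linarith
  · rcases ha4 b' hb2 with h | h
    · linarith
    · exact h
  · rcases hb4 a' ha2 with h | h
    · linarith
    · exact h

theorem dis_AA {A : Finset ℝ} {e f : Sym2 Pt} (he : e ∈ segA A) (hf : f ∈ segA A)
    (hne : e ≠ f) : Disjoint (seg e) (seg f) := by
  classical
  unfold segA at he hf
  obtain ⟨⟨a, a'⟩, ha, rfl⟩ := mem_image.1 he
  obtain ⟨⟨b, b'⟩, hb, rfl⟩ := mem_image.1 hf
  have ha' : Adj A a a' := (mem_filter.1 ha).2
  have hb' : Adj A b b' := (mem_filter.1 hb).2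
  rw [Set.disjoint_left]
  intro z hz hz'
  simp only [seg_mk] at hz hz'
  rw [dis_AA_mem ha'.2.2.1] at hz
  rw [dis_AA_mem hb'.2.2.1] at hz'
  obtain ⟨e1, e2⟩ := dis_AA_uniq ha' hb' hz.2.1 hz.2.2 hz'.2.1 hz'.2.2
  exact hne (by simp only [e1, e2])

theorem dis_CC_lt (hF : GoodFeet F x Bl) (hU : U.Good F x) (hL : L.Good F x)
    (hR : IsTS U F x R) (hR' : IsTS L F x R') {g g' : ℕ} (hg : g ∈ avail U L F x Bl R R')
    (hg' : g' ∈ avail U L F x Bl R R') (hlt : g < g') :
    Disjoint (seg (segC U L R R' g)) (seg (segC U L R R' g')) := by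
  obtain ⟨hgF, h1, h2, h3⟩ := adm_C_avail hg
  obtain ⟨hc, a, a', hadj, h4, h5, h6, h7⟩ := adm_C_adj hF hgF h1 h2 h3
  obtain ⟨hgF', i1, i2, i3⟩ := adm_C_avail hg'
  obtain ⟨ic, b, b', iadj, i4, i5, i6, i7⟩ := adm_C_adj hF hgF' i1 i2 i3
  have hle : x (g + 1) ≤ x g' := by
    rcases Nat.lt_or_ge (g + 1) g' with h | h
    · exact (hF.mono (g + 1) g' h hgF'.le).le
    · have : g' = g + 1 := by omega
      rw [this]
  have hcd : crg U L R R' g < crg U L R R' g' := by linarith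
  rw [Set.disjoint_left]
  intro z hz hz'
  rcases adm_C_split hU hL hR hR' hgF hz with ⟨hz0, hm⟩ | ⟨hz0, hm⟩ | ⟨hz0, hm⟩ <;>
    rcases adm_C_split hU hL hR hR' hgF' hz' with ⟨iz0, im⟩ | ⟨iz0, im⟩ | ⟨iz0, im⟩
  · exact Set.disjoint_left.1 (lab_lab hR hF hU hgF hgF' hadj h4 h5 h6 h7 iadj i4 i5 i6 i7
      hcd.ne) hm im
  · linarith
  · linarith
  · linarith
  · rw [hm] at im
    exact hcd.ne (cls_au_fpt_inj im)
  · linarith
  · linarith
  · linarith
  · exact Set.disjoint_left.1 (lab_lab hR' hF hL hgF hgF' hadj h4 h5 h6 h7 iadj i4 i5 i6 i7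
      hcd.ne) hm im

/-- hint: `cr_split`, `lab_lab` -/
theorem dis_CC (hF : GoodFeet F x Bl) (hU : U.Good F x) (hL : L.Good F x) (hR : IsTS U F x R)
    (hR' : IsTS L F x R') {g g' : ℕ} (hg : g ∈ avail U L F x Bl R R')
    (hg' : g' ∈ avail U L F x Bl R R') (hne : g ≠ g') :
    Disjoint (seg (segC U L R R' g)) (seg (segC U L R R' g')) := by
  rcases Nat.lt_or_gt_of_ne hne with h | h
  · exact dis_CC_lt hF hU hL hR hR' hg hg' h
  · exact (dis_CC_lt hF hU hL hR hR' hg' hg h).symm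

theorem dis_AC_adj (hF : GoodFeet F x Bl) {g : ℕ} (hg : g < F) {c : ℝ} (h1 : x g < c)
    (h2 : c < x (g + 1)) (h3 : c ∉ Bl) :
    ∃ a a', Adj (axPts F x Bl) a a' ∧ x g ≤ a ∧ a' ≤ x (g + 1) ∧ a < c ∧ c < a' := by
  classical
  have hmem : ∀ i ≤ F, x i ∈ axPts F x Bl := by
    intro i hi
    unfold axPts
    exact mem_union_left _ (mem_image.2 ⟨i, mem_range.2 (by omega), rfl⟩)
  have hne : ∀ b ∈ axPts F x Bl, b ≠ c := by
    intro b hb hbc
    unfold axPts at hb
    rcases mem_union.1 hb with h | h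
    · obtain ⟨i, hi, he⟩ := mem_image.1 h
      have hi' := mem_range.1 hi
      have he' : x i = c := he.trans hbc
      rcases Nat.lt_or_ge g i with h4 | h4
      · rcases (show g + 1 ≤ i from h4).lt_or_eq with h5 | h5
        · have := hF.mono (g + 1) i h5 (by omega)
          linarith
        · rw [h5] at h2
          linarith
      · rcases h4.lt_or_eq with h5 | h5
        · have := hF.mono i g h5 hg.le
          linarith
        · rw [h5] at he'
          linarith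
    · rw [hbc] at h
      exact h3 h
  have hl : ((axPts F x Bl).filter fun b => b < c).Nonempty :=
    ⟨x g, mem_filter.2 ⟨hmem g hg.le, h1⟩⟩
  have hr : ((axPts F x Bl).filter fun b => c < b).Nonempty :=
    ⟨x (g + 1), mem_filter.2 ⟨hmem (g + 1) hg, h2⟩⟩
  have ml := max'_mem _ hl
  have mr := min'_mem _ hr
  refine ⟨_, _, ⟨(mem_filter.1 ml).1, (mem_filter.1 mr).1,
    (mem_filter.1 ml).2.trans (mem_filter.1 mr).2, ?_⟩, ?_, ?_, (mem_filter.1 ml).2,
    (mem_filter.1 mr).2⟩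
  · intro b hb
    rcases lt_or_gt_of_ne (hne b hb) with h | h
    · exact Or.inl (le_max' _ _ (mem_filter.2 ⟨hb, h⟩))
    · exact Or.inr (min'_le _ _ (mem_filter.2 ⟨hb, h⟩))
  · exact le_max' _ _ (mem_filter.2 ⟨hmem g hg.le, h1⟩)
  · exact min'_le _ _ (mem_filter.2 ⟨hmem (g + 1) hg, h2⟩)

/-- the only axis point of a segment from above to below -/
theorem dis_AC_axis {p q : Pt} (hp : 0 < p.2) (hq : 0 < q.2) {z : Pt} (hz : z.2 = 0) :
    z ∈ openSegment ℝ p (low q) ↔ z = fpt (cr p q) := by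
  rw [cr_split hp hq]
  constructor
  · rintro ((h | h) | h)
    · exfalso
      obtain ⟨t, h0, h1, _, h3⟩ := mem_openSegment_iff.1 h
      rw [hz] at h3
      simp only [fpt] at h3
      nlinarith
    · exact h
    · exfalso
      obtain ⟨t, h0, h1, _, h3⟩ := mem_openSegment_iff.1 h
      rw [hz] at h3
      simp only [fpt, low] at h3
      nlinarith
  · intro h
    exact Or.inl (Or.inr h)

/-- the axis segment over which the cross edge of the gap `g` runs -/
theorem dis_AC (hF : GoodFeet F x Bl) (hU : U.Good F x) (hL : L.Good F x) {g : ℕ}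
    (hg : g ∈ avail U L F x Bl R R') (hR : IsTS U F x R) (hR' : IsTS L F x R') :
    ∃ a a', Adj (axPts F x Bl) a a' ∧ x g ≤ a ∧ a' ≤ x (g + 1) ∧ a < crg U L R R' g ∧
      crg U L R R' g < a' ∧ ∀ f ∈ segA (axPts F x Bl),
        (¬ Disjoint (seg (segC U L R R' g)) (seg f) ↔ f = s(fpt a, fpt a')) := by
  classical
  unfold avail at hg
  obtain ⟨hg1, hg2, hg3, hg4⟩ := mem_filter.1 hg
  have hgF := mem_range.1 hg1
  obtain ⟨a, a', h1, h2, h3, h4, h5⟩ := dis_AC_adj hF hgF hg2 hg3 hg4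
  refine ⟨a, a', h1, h2, h3, h4, h5, ?_⟩
  intro f hf
  unfold segA at hf
  obtain ⟨⟨b, b'⟩, hb, rfl⟩ := mem_image.1 hf
  have hb' : Adj (axPts F x Bl) b b' := (mem_filter.1 hb).2
  have hp := hU.pos _ (lab_spec hR hU hgF).1
  have hq := hL.pos _ (lab_spec hR' hL hgF).1
  unfold segC
  simp only [seg_mk]
  rw [Set.not_disjoint_iff]
  constructor
  · rintro ⟨z, hz1, hz2⟩
    rw [dis_AA_mem hb'.2.2.1] at hz2
    rw [dis_AC_axis hp hq hz2.1] at hz1
    have hz3 : z.1 = crg U L R R' g := congrArg Prod.fst hz1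
    rw [hz3] at hz2
    obtain ⟨e1, e2⟩ := dis_AA_uniq h1 hb' h4 h5 hz2.2.1 hz2.2.2
    rw [e1, e2]
  · intro he
    have e1 : b = a ∧ b' = a' := by
      rcases Sym2.eq_iff.1 he with ⟨e1, e2⟩ | ⟨e1, e2⟩
      · exact ⟨congrArg Prod.fst e1, congrArg Prod.fst e2⟩
      · have e3 : b = a' := congrArg Prod.fst e1
        have e4 : b' = a := congrArg Prod.fst e2
        have := hb'.2.2.1
        exfalso
        linarith
    refine ⟨fpt (crg U L R R' g), ?_, ?_⟩
    · rw [dis_AC_axis hp hq (by simp only [fpt])]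
      rfl
    · rw [dis_AA_mem hb'.2.2.1]
      refine ⟨by simp only [fpt], ?_, ?_⟩
      · simp only [fpt]
        rw [e1.1]
        exact h4
      · simp only [fpt]
        rw [e1.2]
        exact h5

end Pool.Agent.TRI

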