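import Pool.Agent.TRI.B6_Two

/-!
Area B: the number of triangulations with given sets of pairs.
-/

namespace Pool.Agent.TRI

open Finset

theorem fib_abs_nonempty (e : Sym2 Pt) : (seg e).Nonempty := by
  induction e with
  | _ p q =>
    rw [seg_mk]
    exact ⟨AffineMap.lineMap p q (1 / 2 : ℝ),
      ⟨1 / 2, 1 / 2, by norm_num, by norm_num, by norm_num, by
        rw [AffineMap.lineMap_apply_module]; norm_num⟩⟩

theorem fib_abs_ne {e f : Sym2 Pt} (h : Disjoint (seg e) (seg f)) : e ≠ f := by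
  rintro rfl
  exact (fib_abs_nonempty e).ne_empty (disjoint_self.1 h)

open Classical in
/-- abstract counting: all segments crossing nothing in `E0` are: a set `B` of uncrossed ones,
a set `AA` of pairwise noncrossing ones and the `c g`, `g ∈ G`, where `c g` crosses exactly one
element `ax g` of `AA`. The maximal sets are `B`, `AA` minus `ax g` for `g ∈ G'`, plus `c g` for
`g ∈ G'`, with `G' ⊆ G` arbitrary. Hint: `isTri_iff`; an admissible segment is not disjoint to
itself -/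
theorem fib_abs {S : Finset Pt} {E0 B AA : Finset (Sym2 Pt)} {G : Finset ℕ}
    {c ax : ℕ → Sym2 Pt} (hE0 : E0 ⊆ B)
    (hcls : ∀ e, IsSeg S e → (∀ f ∈ E0, e ≠ f → Disjoint (seg e) (seg f)) →
      e ∈ B ∨ e ∈ AA ∨ ∃ g ∈ G, e = c g)
    (admB : ∀ e ∈ B, IsSeg S e) (admA : ∀ e ∈ AA, IsSeg S e) (admC : ∀ g ∈ G, IsSeg S (c g))
    (hBB : ∀ e ∈ B, ∀ f ∈ B, e ≠ f → Disjoint (seg e) (seg f))
    (hBA : ∀ e ∈ B, ∀ f ∈ AA, Disjoint (seg e) (seg f))
    (hBC : ∀ e ∈ B, ∀ g ∈ G, Disjoint (seg e) (seg (c g)))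
    (hAA : ∀ e ∈ AA, ∀ f ∈ AA, e ≠ f → Disjoint (seg e) (seg f))
    (hCC : ∀ g ∈ G, ∀ g' ∈ G, g ≠ g' → Disjoint (seg (c g)) (seg (c g')))
    (hAC : ∀ g ∈ G, ax g ∈ AA ∧ ∀ f ∈ AA, (¬ Disjoint (seg (c g)) (seg f) ↔ f = ax g))
    (hax : Set.InjOn ax G) (hne : ∀ g ∈ G, c g ≠ ax g) :
    ((tris S).filter fun T => E0 ⊆ T).card = 2 ^ G.card := by
  have hcinj : ∀ g ∈ G, ∀ g' ∈ G, c g = c g' → g = g' := by
    intro g hg g' hg' h
    by_contra hn
    exact fib_abs_ne (hCC g hg g' hg' hn) h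
  have hcB : ∀ g ∈ G, c g ∉ B := fun g hg hB => fib_abs_ne (hBC _ hB g hg) rfl
  have hcA : ∀ g ∈ G, c g ∉ AA := by
    intro g hg hA
    refine hne g hg (((hAC g hg).2 (c g) hA).1 fun hd => fib_abs_ne hd rfl)
  have hdis : ∀ g ∈ G, ∀ f ∈ AA, f ≠ ax g → Disjoint (seg (c g)) (seg f) := by
    intro g hg f hf hn
    by_contra hd
    exact hn (((hAC g hg).2 f hf).1 hd)
  have hcross : ∀ g ∈ G, ¬ Disjoint (seg (c g)) (seg (ax g)) := fun g hg =>
    ((hAC g hg).2 (ax g) (hAC g hg).1).2 rfl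
  obtain ⟨φ, hφ⟩ : ∃ φ : Finset ℕ → Finset (Sym2 Pt), ∀ G', φ G' =
      B ∪ (AA \ G'.image ax) ∪ G'.image c := ⟨_, fun _ => rfl⟩
  have hmem : ∀ G' e, e ∈ φ G' ↔ e ∈ B ∨ (e ∈ AA ∧ ∀ g ∈ G', ax g ≠ e) ∨ ∃ g ∈ G', c g = e := by
    intro G' e
    rw [hφ]
    simp only [mem_union, mem_sdiff, mem_image, not_exists, not_and, or_assoc]
  rw [← card_powerset]
  refine (card_bij (fun G' _ => φ G') ?_ ?_ ?_).symm
  · intro G' hG'
    rw [mem_powerset] at hG'
    rw [mem_filter, mem_tris, isTri_iff]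
    have hadm : ∀ e ∈ φ G', IsSeg S e := by
      intro e he
      rcases (hmem G' e).1 he with h | h | ⟨g, hg, rfl⟩
      · exact admB e h
      · exact admA e h.1
      · exact admC g (hG' hg)
    have hnc : ∀ e ∈ φ G', ∀ f ∈ φ G', e ≠ f → Disjoint (seg e) (seg f) := by
      intro e he f hf hef
      rcases (hmem G' e).1 he with h | h | ⟨g, hg, rfl⟩
      · rcases (hmem G' f).1 hf with h' | h' | ⟨g', hg', rfl⟩
        · exact hBB e h f h' hef
        · exact hBA e h f h'.1
        · exact hBC e h g' (hG' hg')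
      · rcases (hmem G' f).1 hf with h' | h' | ⟨g', hg', rfl⟩
        · exact (hBA f h' e h.1).symm
        · exact hAA e h.1 f h'.1 hef
        · exact (hdis g' (hG' hg') e h.1 (h.2 g' hg').symm).symm
      · rcases (hmem G' f).1 hf with h' | h' | ⟨g', hg', rfl⟩
        · exact (hBC f h' g (hG' hg)).symm
        · exact hdis g (hG' hg) f h'.1 (h'.2 g hg).symm
        · exact hCC g (hG' hg) g' (hG' hg') fun h => hef (by rw [h])
    have hBsub : B ⊆ φ G' := fun e he => (hmem G' e).2 (Or.inl he)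
    refine ⟨⟨⟨hadm, hnc⟩, ?_⟩, hE0.trans hBsub⟩
    intro e hs hd
    have hd0 : ∀ f ∈ E0, e ≠ f → Disjoint (seg e) (seg f) := fun f hf hn =>
      hd f (hBsub (hE0 hf)) hn
    rcases hcls e hs hd0 with h | h | ⟨g, hg, rfl⟩
    · exact hBsub h
    · refine (hmem G' e).2 (Or.inr (Or.inl ⟨h, ?_⟩))
      intro g hg hge
      have h1 : e ≠ c g := by
        intro h2; exact hcA g (hG' hg) (h2 ▸ h)
      have h2 := hd (c g) ((hmem G' _).2 (Or.inr (Or.inr ⟨g, hg, rfl⟩))) h1
      rw [← hge] at h2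
      exact hcross g (hG' hg) h2.symm
    · by_cases hgG : g ∈ G'
      · exact (hmem G' _).2 (Or.inr (Or.inr ⟨g, hgG, rfl⟩))
      · exfalso
        have h1 : ax g ∈ φ G' := by
          refine (hmem G' _).2 (Or.inr (Or.inl ⟨(hAC g hg).1, ?_⟩))
          intro g' hg' h2
          exact hgG (hax (hG' hg') hg h2 ▸ hg')
        exact hcross g hg (hd _ h1 (hne g hg))
  · intro G1 h1 G2 h2 h
    rw [mem_powerset] at h1 h2
    have key : ∀ G' ⊆ G, ∀ g ∈ G, (c g ∈ φ G' ↔ g ∈ G') := by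
      intro G' hG' g hg
      constructor
      · intro hh
        rcases (hmem G' _).1 hh with h3 | h3 | ⟨g', hg', h3⟩
        · exact absurd h3 (hcB g hg)
        · exact absurd h3.1 (hcA g hg)
        · exact hcinj g' (hG' hg') g hg h3 ▸ hg'
      · exact fun hh => (hmem G' _).2 (Or.inr (Or.inr ⟨g, hh, rfl⟩))
    ext g
    constructor
    · intro hg
      exact (key G2 h2 g (h1 hg)).1 (h ▸ (key G1 h1 g (h1 hg)).2 hg)
    · intro hg
      exact (key G1 h1 g (h2 hg)).1 (h ▸ (key G2 h2 g (h2 hg)).2 hg)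
  · intro T hT
    rw [mem_filter, mem_tris, isTri_iff] at hT
    obtain ⟨⟨⟨hadm, hnc⟩, hmax⟩, hsub⟩ := hT
    have hclsT : ∀ e ∈ T, e ∈ B ∨ e ∈ AA ∨ ∃ g ∈ G, e = c g := fun e he =>
      hcls e (hadm e he) fun f hf hn => hnc e he f (hsub hf) hn
    refine ⟨G.filter fun g => c g ∈ T, mem_powerset.2 (filter_subset _ _), ?_⟩
    ext e
    rw [hmem]
    constructor
    · rintro (h | ⟨h, h'⟩ | ⟨g, hg, rfl⟩)
      · refine hmax e (admB e h) fun f hf hn => ?_
        rcases hclsT f hf with h1 | h1 | ⟨g, hg, rfl⟩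
        · exact hBB e h f h1 hn
        · exact hBA e h f h1
        · exact hBC e h g hg
      · refine hmax e (admA e h) fun f hf hn => ?_
        rcases hclsT f hf with h1 | h1 | ⟨g, hg, rfl⟩
        · exact (hBA f h1 e h).symm
        · exact hAA e h f h1 hn
        · exact (hdis g hg e h (h' g (mem_filter.2 ⟨hg, hf⟩)).symm).symm
      · exact (mem_filter.1 hg).2
    · intro he
      rcases hclsT e he with h | h | ⟨g, hg, rfl⟩
      · exact Or.inl h
      · refine Or.inr (Or.inl ⟨h, ?_⟩)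
        intro g hg hge
        obtain ⟨hg1, hg2⟩ := mem_filter.1 hg
        have h1 : c g ≠ e := fun h2 => hcA g hg1 (h2 ▸ h)
        have h2 := hnc _ hg2 _ he h1
        rw [← hge] at h2
        exact hcross g hg1 h2
      · exact Or.inr (Or.inr ⟨g, mem_filter.2 ⟨hg, he⟩, rfl⟩)

variable {α β : Type} {F : ℕ} {x : ℕ → ℝ} {Bl : Finset ℝ} {U : Side α} {L : Side β}
  {R : α → ℕ × ℕ} {R' : β → ℕ × ℕ}

theorem fib_sub_ne (hU : U.Good F x) (hL : L.Good F x) : ∀ u ∈ offPts U L, u.2 ≠ 0 := by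
  classical
  intro u hu
  unfold offPts at hu
  rcases mem_union.1 hu with h | h
  · obtain ⟨v, hv, rfl⟩ := mem_image.1 h
    exact (hU.pos v hv).ne'
  · obtain ⟨v, hv, rfl⟩ := mem_image.1 h
    have := hL.pos v hv
    simp only [low]
    linarith

theorem fib_sub_lt (hF : GoodFeet F x Bl) {g g' : ℕ} (hg : g < F) (h : x g < x (g' + 1)) :
    g ≤ g' := by
  by_contra hc
  have h1 : g' + 1 ≤ g := by omega
  rcases h1.lt_or_eq with h2 | h2
  · have := hF.mono _ _ h2 hg.le
    linarith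
  · rw [h2] at h
    exact lt_irrefl _ h

open Classical in
theorem fib_sub (hF : GoodFeet F x Bl) (hU : U.Good F x) (hL : L.Good F x) (hR : IsTS U F x R)
    (hR' : IsTS L F x R') :
    ((tris (SS U L F x Bl)).filter fun T =>
      segE U false (ER U F x Bl R) ∪ segE L true (ER L F x Bl R') ⊆ T).card =
      2 ^ (avail U L F x Bl R R').card := by
  choose a a' h using fun g hg => dis_AC (g := g) hF hU hL hg hR hR'
  set ax : ℕ → Sym2 Pt := fun g =>
    if hg : g ∈ avail U L F x Bl R R' then s(fpt (a g hg), fpt (a' g hg)) else s(fpt 0, fpt 0)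
    with hax
  have hax1 : ∀ g (hg : g ∈ avail U L F x Bl R R'), ax g = s(fpt (a g hg), fpt (a' g hg)) := by
    intro g hg
    simp only [hax, hg, dite_true]
  have hW := fib_sub_ne hU hL
  refine fib_abs (B := segF U L F x Bl R R') (AA := segA (axPts F x Bl)) (c := segC U L R R')
    (ax := ax) ?_ ?_ ?_ ?_ ?_ ?_ ?_ ?_ ?_ ?_ ?_ ?_ ?_
  · unfold segF
    exact subset_union_left.trans subset_union_left
  · intro e he hd
    exact cls hF hU hL hR hR' he hd
  · intro e he
    unfold segF at he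
    rcases mem_union.1 he with he | he
    · rcases mem_union.1 he with he | he
      · rcases mem_union.1 he with he | he
        · exact (adm_E hF hU hL hR hR').1 e he
        · exact (adm_E hF hU hL hR hR').2 e he
      · exact (adm_P hF hU hL hR hR').1 e he
    · exact (adm_P hF hU hL hR hR').2 e he
  · exact adm_A hW
  · intro g hg
    exact adm_C hF hU hL hR hR' hg
  · intro e he f hf hne
    exact dis_FF hF hU hL hR hR' he hf hne
  · intro e he f hf
    exact dis_FA hU hL he hf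
  · intro e he g hg
    exact dis_FC hF hU hL hR hR' he hg
  · intro e he f hf hne
    exact dis_AA he hf hne
  · intro g hg g' hg' hne
    exact dis_CC hF hU hL hR hR' hg hg' hne
  · intro g hg
    obtain ⟨h1, _, _, _, _, h6⟩ := h g hg
    rw [hax1 g hg]
    refine ⟨?_, h6⟩
    unfold segA
    exact mem_image.2 ⟨(a g hg, a' g hg), mem_filter.2 ⟨mem_product.2 ⟨h1.1, h1.2.1⟩, h1⟩, rfl⟩
  · intro g hg g' hg' he
    have hg0 : g ∈ avail U L F x Bl R R' := hg
    have hg0' : g' ∈ avail U L F x Bl R R' := hg'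
    rw [hax1 g hg0, hax1 g' hg0'] at he
    obtain ⟨h1, h2, h3, h4, h5, _⟩ := h g hg0
    obtain ⟨k1, k2, k3, k4, k5, _⟩ := h g' hg0'
    have hgF : g < F := mem_range.1 (mem_filter.1 hg0).1
    have hgF' : g' < F := mem_range.1 (mem_filter.1 hg0').1
    have e1 : a g hg0 = a g' hg0' ∧ a' g hg0 = a' g' hg0' := by
      rcases Sym2.eq_iff.1 he with ⟨e1, e2⟩ | ⟨e1, e2⟩
      · exact ⟨congrArg Prod.fst e1, congrArg Prod.fst e2⟩
      · have e3 : a g hg0 = a' g' hg0' := congrArg Prod.fst e1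
        have e4 : a' g hg0 = a g' hg0' := congrArg Prod.fst e2
        exfalso
        linarith
    have e2 := fib_sub_lt hF hgF (show x g < x (g' + 1) by linarith [e1.1, e1.2])
    have e3 := fib_sub_lt hF hgF' (show x g' < x (g + 1) by linarith [e1.1, e1.2])
    omega
  · intro g hg he
    have hgF : g < F := mem_range.1 (mem_filter.1 hg).1
    have hp := hU.pos _ (lab_spec hR hU hgF).1
    rw [hax1 g hg] at he
    rcases Sym2.eq_iff.1 he with ⟨e1, _⟩ | ⟨e1, _⟩
    · rw [e1] at hp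
      exact lt_irrefl _ hp
    · rw [e1] at hp
      exact lt_irrefl _ hp

theorem eu_eq_iff_x0 : x 0 ∈ axPts F x Bl := by
  classical
  unfold axPts
  exact mem_union_left _ (mem_image.2 ⟨0, mem_range.2 (Nat.succ_pos F), rfl⟩)

theorem eu_eq_iff_xF : x F ∈ axPts F x Bl := by
  classical
  unfold axPts
  exact mem_union_left _ (mem_image.2 ⟨F, mem_range.2 (Nat.lt_succ_self F), rfl⟩)

theorem eu_eq_iff_lt (hF : GoodFeet F x Bl) : x 0 < x F :=
  hF.mono 0 F (by have := hF.two; omega) le_rfl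

theorem eu_eq_iff_bd (hF : GoodFeet F x Bl) {a : ℝ} (ha : a ∈ axPts F x Bl) :
    x 0 ≤ a ∧ a ≤ x F := by
  classical
  unfold axPts at ha
  rcases mem_union.1 ha with h | h
  · obtain ⟨i, hi, rfl⟩ := mem_image.1 h
    have hi' : i ≤ F := by have := mem_range.1 hi; omega
    constructor
    · rcases Nat.eq_zero_or_pos i with h0 | h0
      · rw [h0]
      · exact (hF.mono 0 i h0 hi').le
    · rcases hi'.lt_or_eq with h1 | h1
      · exact (hF.mono i F h1 le_rfl).le
      · rw [h1]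
  · obtain ⟨h1, h2, _⟩ := hF.bl a h
    exact ⟨h1.le, h2.le⟩

/-- one side -/
theorem eu_eq_iff_side {γ : Type} {D : Side γ} {Q : γ → ℕ × ℕ} {s : Bool}
    (hF : GoodFeet F x Bl) (hD : D.Good F x) (hQ : IsTS D F x Q) {T : Finset (Sym2 Pt)}
    (hnc : NCR D (EU D s (axPts F x Bl) T)) :
    EU D s (axPts F x Bl) T = ER D F x Bl Q ↔ segE D s (ER D F x Bl Q) ⊆ T := by
  classical
  constructor
  · intro h e he
    unfold segE at he
    obtain ⟨va, hva, rfl⟩ := mem_image.1 he
    rw [← h] at hva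
    unfold EU at hva
    exact (mem_filter.1 hva).2
  · intro h
    have hsub : ER D F x Bl Q ⊆ EU D s (axPts F x Bl) T := by
      intro va hva
      unfold EU
      refine mem_filter.2 ⟨?_, ?_⟩
      · unfold ER at hva
        exact (mem_filter.1 hva).1
      · exact h (mem_image.2 ⟨va, hva, rfl⟩)
    have h1 := card_ER hQ hF hD
    have hE : EU D s (axPts F x Bl) T ⊆ D.I ×ˢ axPts F x Bl := by
      unfold EU
      exact filter_subset _ _
    have h2 := ncr_card_le hD.inj hE hnc (a₀ := x 0) (a₁ := x F)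
      eu_eq_iff_x0 eu_eq_iff_xF (eu_eq_iff_lt hF) (fun a ha => (eu_eq_iff_bd hF ha).1)
      (fun a ha => (eu_eq_iff_bd hF ha).2)
    exact (eq_of_subset_of_card_le hsub (by omega)).symm

/-- hint: a triangulation containing the segments of `ER` has exactly these pairs, by
`ncr_EU`, `ncr_card_le`, `card_ER` -/
theorem eu_eq_iff (hF : GoodFeet F x Bl) (hU : U.Good F x) (hL : L.Good F x)
    (hR : IsTS U F x R) (hR' : IsTS L F x R') {T : Finset (Sym2 Pt)}
    (hT : T ∈ tris (SS U L F x Bl)) :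
    (EU U false (axPts F x Bl) T = ER U F x Bl R ∧ EU L true (axPts F x Bl) T = ER L F x Bl R') ↔
      segE U false (ER U F x Bl R) ∪ segE L true (ER L F x Bl R') ⊆ T := by
  classical
  have hnc := ncr_EU hU hL (Bl := Bl) (mem_tris.1 hT).1
  rw [eu_eq_iff_side hF hU hR hnc.1, eu_eq_iff_side hF hL hR' hnc.2]
  have e : (segE U false (ER U F x Bl R) ∪ segE L true (ER L F x Bl R') ⊆ T) ↔
      segE U false (ER U F x Bl R) ⊆ T ∧ segE L true (ER L F x Bl R') ⊆ T := union_subset_iff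
  exact e.symm

open Classical in
theorem fib_card (hF : GoodFeet F x Bl) (hU : U.Good F x) (hL : L.Good F x)
    (hR : IsTS U F x R) (hR' : IsTS L F x R') :
    ((tris (SS U L F x Bl)).filter fun T => EU U false (axPts F x Bl) T = ER U F x Bl R ∧
      EU L true (axPts F x Bl) T = ER L F x Bl R').card =
      ∏ g ∈ range F, Mg x Bl g (U.pt (lab U R g)) (L.pt (lab L R' g)) := by
  have h1 : ((tris (SS U L F x Bl)).filter fun T =>
      EU U false (axPts F x Bl) T = ER U F x Bl R ∧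
      EU L true (axPts F x Bl) T = ER L F x Bl R') =
      (tris (SS U L F x Bl)).filter fun T =>
      segE U false (ER U F x Bl R) ∪ segE L true (ER L F x Bl R') ⊆ T :=
    filter_congr fun T hT => eu_eq_iff hF hU hL hR hR' hT
  rw [h1, fib_sub hF hU hL hR hR']
  unfold avail Mg crg
  rw [prod_ite, prod_const, prod_const_one, mul_one]

end Pool.Agent.TRI

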