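import Pool.Agent.TRI.B_Deg
import Pool.Agent.TRI.A_Nbr
import Pool.Agent.TRI.B7_Fib

/-!
Area B: `lead_bound`, `lead_sum` (with names `lead_bound`, `lead_sum`; `StmtAB` is imported only
for the definitions `ldeg`, `dmax` and for `one_le_up`, `one_le_dn`).
-/

namespace Pool.Agent.TRI

open Finset

variable {α β : Type} {F : ℕ} {x : ℕ → ℝ} {Bl : Finset ℝ} {U : Side α} {L : Side β}

theorem sum_up_mem0 (hF : GoodFeet F x Bl) : x 0 ∈ axPts F x Bl := by
  classical
  unfold axPts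
  exact mem_union_left _ (mem_image.2 ⟨0, mem_range.2 (by omega), rfl⟩)

theorem sum_up_memF (hF : GoodFeet F x Bl) : x F ∈ axPts F x Bl := by
  classical
  unfold axPts
  exact mem_union_left _ (mem_image.2 ⟨F, mem_range.2 (by omega), rfl⟩)

theorem sum_up_memf {f : ℕ} (hf : f ≤ F) : x f ∈ axPts F x Bl := by
  classical
  unfold axPts
  exact mem_union_left _ (mem_image.2 ⟨f, mem_range.2 (by omega), rfl⟩)

theorem sum_up_min (hF : GoodFeet F x Bl) : ∀ a ∈ axPts F x Bl, x 0 ≤ a := by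
  classical
  intro a ha
  unfold axPts at ha
  rcases mem_union.1 ha with h | h
  · obtain ⟨i, hi, rfl⟩ := mem_image.1 h
    rcases Nat.eq_zero_or_pos i with rfl | hi0
    · exact le_rfl
    · exact (hF.mono 0 i hi0 (by have := mem_range.1 hi; omega)).le
  · exact (hF.bl a h).1.le

theorem sum_up_max (hF : GoodFeet F x Bl) : ∀ a ∈ axPts F x Bl, a ≤ x F := by
  classical
  intro a ha
  unfold axPts at ha
  rcases mem_union.1 ha with h | h
  · obtain ⟨i, hi, rfl⟩ := mem_image.1 h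
    have hi' : i ≤ F := by have := mem_range.1 hi; omega
    rcases Nat.lt_or_ge i F with h1 | h1
    · exact (hF.mono i F h1 le_rfl).le
    · rw [le_antisymm hi' h1]
  · exact (hF.bl a h).2.1.le

theorem sum_up_off (hU : U.Good F x) (hL : L.Good F x) : ∀ u ∈ offPts U L, u.2 ≠ 0 := by
  classical
  intro u hu
  unfold offPts at hu
  rcases mem_union.1 hu with h | h
  · obtain ⟨v, hv, rfl⟩ := mem_image.1 h
    exact (hU.pos v hv).ne'
  · obtain ⟨v, hv, rfl⟩ := mem_image.1 h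
    have := hL.pos v hv
    simp only [low, ne_eq, neg_eq_zero]
    exact this.ne'

theorem sum_up_hup (hU : U.Good F x) : ∃ u ∈ offPts U L, 0 < u.2 := by
  classical
  refine ⟨U.pt U.top, ?_, hU.pos _ hU.top_mem⟩
  unfold offPts
  exact mem_union_left _ (mem_image_of_mem _ hU.top_mem)

theorem sum_up_hdn (hL : L.Good F x) : ∃ u ∈ offPts U L, u.2 < 0 := by
  classical
  refine ⟨low (L.pt L.top), ?_, ?_⟩
  · unfold offPts
    exact mem_union_right _ (mem_image.2 ⟨L.top, hL.top_mem, rfl⟩)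
  · have := hL.pos _ hL.top_mem
    simp only [low, Left.neg_neg_iff]
    exact this

open Classical in
theorem sum_up_double {γ : Type} (D : Side γ) (A : Finset ℝ) (E : Finset (γ × ℝ))
    (hE : E ⊆ D.I ×ˢ A) : ∑ a ∈ A, (D.I.filter fun v => (v, a) ∈ E).card = E.card := by
  rw [card_eq_sum_card_fiberwise (f := Prod.snd) (s := E) (t := A)
    (fun p hp => (mem_product.1 (hE hp)).2)]
  refine sum_congr rfl fun a _ => ?_
  refine card_bij' (fun v _ => (v, a)) (fun p _ => p.1) ?_ ?_ ?_ ?_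
  · intro v hv
    exact mem_filter.2 ⟨(mem_filter.1 hv).2, rfl⟩
  · rintro ⟨v, b⟩ hp
    obtain ⟨h1, h2⟩ := mem_filter.1 hp
    simp only at h2
    subst h2
    exact mem_filter.2 ⟨(mem_product.1 (hE h1)).1, h1⟩
  · intro v _; rfl
  · rintro ⟨v, b⟩ hp
    obtain ⟨h1, h2⟩ := mem_filter.1 hp
    simp only at h2
    subst h2; rfl

/-- hint: `one_le_up`, `up_eq`, double counting of `EU` -/
theorem sum_up (hF : GoodFeet F x Bl) (hU : U.Good F x) (hL : L.Good F x)
    {T : Finset (Sym2 Pt)} (hT : T ∈ tris (SS U L F x Bl)) :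
    (∀ a ∈ axPts F x Bl, 1 ≤ up (offPts U L) T a ∧ 1 ≤ dn (offPts U L) T a) ∧
      (∑ a ∈ axPts F x Bl, (up (offPts U L) T a - 1)) + (axPts F x Bl).card =
        (EU U false (axPts F x Bl) T).card ∧
      (∑ a ∈ axPts F x Bl, (dn (offPts U L) T a - 1)) + (axPts F x Bl).card =
        (EU L true (axPts F x Bl) T).card := by
  classical
  have h1 : ∀ a ∈ axPts F x Bl, 1 ≤ up (offPts U L) T a ∧ 1 ≤ dn (offPts U L) T a := by
    intro a ha
    exact ⟨one_le_up _ (sum_up_off hU hL) (sum_up_hup hU) _ hT ha,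
      one_le_dn _ (sum_up_off hU hL) (sum_up_hdn hL) _ hT ha⟩
  refine ⟨h1, ?_, ?_⟩
  · rw [card_eq_sum_ones, ← sum_add_distrib, ← sum_up_double U (axPts F x Bl)
      (EU U false (axPts F x Bl) T) (by unfold EU; exact filter_subset _ _)]
    refine sum_congr rfl fun a ha => ?_
    have h2 := up_eq (Bl := Bl) hU hL (T := T) ha
    have h3 := (h1 a ha).1
    have h4 : (U.I.filter fun v => (v, a) ∈ EU U false (axPts F x Bl) T).card =
        up (offPts U L) T a := by
      rw [h2]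
    omega
  · rw [card_eq_sum_ones, ← sum_add_distrib, ← sum_up_double L (axPts F x Bl)
      (EU L true (axPts F x Bl) T) (by unfold EU; exact filter_subset _ _)]
    refine sum_congr rfl fun a ha => ?_
    have h2 := dn_eq (Bl := Bl) hU hL (T := T) ha
    have h3 := (h1 a ha).2
    have h4 : (L.I.filter fun v => (v, a) ∈ EU L true (axPts F x Bl) T).card =
        dn (offPts U L) T a := by
      rw [h2]
    omega

theorem lead_bound_foot (hF : GoodFeet F x Bl) (g : ℝ → ℕ) :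
    ∑ f ∈ Ioo 0 F, g (x f) ≤ ∑ a ∈ axPts F x Bl, g a := by
  classical
  have hinj : Set.InjOn x (Ioo 0 F : Finset ℕ) := by
    intro i hi j hj hij
    simp only [coe_Ioo, Set.mem_Ioo] at hi hj
    rcases lt_trichotomy i j with h | h | h
    · exact absurd hij (hF.mono i j h (by omega)).ne
    · exact h
    · exact absurd hij (hF.mono j i h (by omega)).ne'
  rw [← sum_image (f := g) hinj]
  refine sum_le_sum_of_subset ?_
  intro a ha
  obtain ⟨f, hf, rfl⟩ := mem_image.1 ha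
  exact sum_up_memf (by have := mem_Ioo.1 hf; omega)

/-- hint: `sum_up`, `ncr_EU`, `ncr_card_le` (`x 0` and `x F` are the extreme elements of `axPts`);
the sum in `ldeg` is a part of the sums of `sum_up` -/
theorem lead_bound (hF : GoodFeet F x Bl) (hU : U.Good F x) (hL : L.Good F x)
    {T : Finset (Sym2 Pt)} (hT : T ∈ tris (setWA (offPts U L) (axPts F x Bl))) :
    ldeg (offPts U L) F x T ≤ dmax U L := by
  classical
  obtain ⟨_, h2, h3⟩ := sum_up hF hU hL (T := T) hT
  obtain ⟨n1, n2⟩ := ncr_EU (Bl := Bl) hU hL (mem_tris.1 hT).1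
  have hlt : x 0 < x F := hF.mono 0 F (by have := hF.two; omega) le_rfl
  have c1 := ncr_card_le hU.inj (by unfold EU; exact filter_subset _ _) n1 (sum_up_mem0 hF)
    (sum_up_memF hF) hlt (sum_up_min hF) (sum_up_max hF)
  have c2 := ncr_card_le hL.inj (by unfold EU; exact filter_subset _ _) n2 (sum_up_mem0 hF)
    (sum_up_memF hF) hlt (sum_up_min hF) (sum_up_max hF)
  have e1 := lead_bound_foot hF (fun a => up (offPts U L) T a - 1)
  have e2 := lead_bound_foot hF (fun a => dn (offPts U L) T a - 1)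
  have p1 : 0 < U.I.card := card_pos.2 ⟨_, hU.top_mem⟩
  have p2 : 0 < L.I.card := card_pos.2 ⟨_, hL.top_mem⟩
  unfold ldeg dmax
  rw [sum_add_distrib]
  omega

/-- sums over the axis points -/
theorem lead_iff_split (hF : GoodFeet F x Bl) (h : ℝ → ℕ) :
    ∑ a ∈ axPts F x Bl, h a =
      (∑ f ∈ Ioo 0 F, h (x f)) + h (x 0) + h (x F) + ∑ b ∈ Bl, h b := by
  classical
  have hinj : ∀ i ∈ range (F + 1), ∀ j ∈ range (F + 1), x i = x j → i = j := by
    intro i hi j hj he
    have hi' := mem_range.1 hi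
    have hj' := mem_range.1 hj
    rcases lt_trichotomy i j with h1 | h1 | h1
    · have := hF.mono i j h1 (by omega)
      linarith
    · exact h1
    · have := hF.mono j i h1 (by omega)
      linarith
  have hdis : Disjoint ((range (F + 1)).image x) Bl := by
    rw [disjoint_left]
    intro a ha hb
    obtain ⟨i, hi, rfl⟩ := mem_image.1 ha
    exact (hF.bl _ hb).2.2 i (by have := mem_range.1 hi; omega) rfl
  have h2 := hF.two
  have hr : range (F + 1) = insert 0 (insert F (Ioo 0 F)) := by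
    ext i
    simp only [mem_range, mem_insert, mem_Ioo]
    omega
  unfold axPts
  rw [sum_union hdis, sum_image hinj, hr, sum_insert, sum_insert]
  · ring
  · simp
  · simp only [mem_insert, mem_Ioo]
    omega

open Classical in
/-- one side of `lead_iff` -/
theorem lead_iff_side {γ : Type} {D : Side γ} {E : Finset (γ × ℝ)} {d : ℝ → ℕ}
    (hF : GoodFeet F x Bl) (hD : D.Good F x) (hE : E ⊆ D.I ×ˢ axPts F x Bl) (hnc : NCR D E)
    (hd : ∀ a ∈ axPts F x Bl, d a = (D.I.filter fun v => (v, a) ∈ E).card)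
    (hd1 : ∀ a ∈ axPts F x Bl, 1 ≤ d a)
    (hs : (∑ a ∈ axPts F x Bl, (d a - 1)) + (axPts F x Bl).card = E.card)
    (ht0 : (D.top, x 0) ∈ E) (htF : (D.top, x F) ∈ E) :
    ∑ f ∈ Ioo 0 F, (d (x f) - 1) ≤ 2 * (D.I.card - 1) ∧
      (∑ f ∈ Ioo 0 F, (d (x f) - 1) = 2 * (D.I.card - 1) ↔ Full D F x Bl E) := by
  have hI : 1 ≤ D.I.card := card_pos.2 ⟨D.top, hD.top_mem⟩
  have hc := ncr_card_le hD.inj hE hnc (a₀ := x 0) (a₁ := x F)
    eu_eq_iff_x0 eu_eq_iff_xF (eu_eq_iff_lt hF) (fun a ha => (eu_eq_iff_bd hF ha).1)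
    (fun a ha => (eu_eq_iff_bd hF ha).2)
  have hsp := lead_iff_split hF (fun a => d a - 1)
  simp only at hsp
  have hBl : ∀ b ∈ Bl, b ∈ axPts F x Bl := by
    intro b hb
    unfold axPts
    exact mem_union_right _ hb
  have huniq : ∀ a ∈ axPts F x Bl, d a ≤ 1 → ∀ v w, (v, a) ∈ E → (w, a) ∈ E → v = w := by
    intro a ha h1 v w hv hw
    rw [hd a ha] at h1
    have hv1 := (mem_product.1 (hE hv)).1
    have hw1 := (mem_product.1 (hE hw)).1
    exact card_le_one.1 h1 v (mem_filter.2 ⟨hv1, hv⟩) w (mem_filter.2 ⟨hw1, hw⟩)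
  have huniq' : ∀ a ∈ axPts F x Bl, (∀ v w, (v, a) ∈ E → (w, a) ∈ E → v = w) → d a ≤ 1 := by
    intro a ha h1
    rw [hd a ha]
    exact card_le_one.2 fun v hv w hw => h1 v w (mem_filter.1 hv).2 (mem_filter.1 hw).2
  refine ⟨by omega, ?_, ?_⟩
  · intro heq
    have hx0 : d (x 0) ≤ 1 := by omega
    have hxF : d (x F) ≤ 1 := by omega
    have hb0 : ∑ b ∈ Bl, (d b - 1) = 0 := by omega
    refine ⟨hE, hnc, by omega, ?_, ?_, ?_⟩
    · intro v
      constructor
      · intro hv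
        exact huniq _ eu_eq_iff_x0 hx0 v D.top hv ht0
      · rintro rfl
        exact ht0
    · intro v
      constructor
      · intro hv
        exact huniq _ eu_eq_iff_xF hxF v D.top hv htF
      · rintro rfl
        exact htF
    · intro b hb v w hv hw
      have h1 : d b - 1 = 0 := (sum_eq_zero_iff.1 hb0) b hb
      exact huniq b (hBl b hb) (by omega) v w hv hw
  · intro hful
    have hx0 : d (x 0) ≤ 1 := huniq' _ eu_eq_iff_x0 fun v w hv hw =>
      ((hful.t0 v).1 hv).trans ((hful.t0 w).1 hw).symm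
    have hxF : d (x F) ≤ 1 := huniq' _ eu_eq_iff_xF fun v w hv hw =>
      ((hful.tF v).1 hv).trans ((hful.tF w).1 hw).symm
    have hb0 : ∑ b ∈ Bl, (d b - 1) = 0 := by
      refine sum_eq_zero fun b hb => ?_
      have := huniq' b (hBl b hb) (hful.blk b hb)
      omega
    have h3 := hful.card
    omega

/-- hint: equality in `lead_bound` iff both sets of pairs have maximal size and the degrees of
`x 0`, `x F` and the blockers are 1 (`hull_mem` gives the neighbour `top` of `x 0`, `x F`) -/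
theorem lead_iff (hF : GoodFeet F x Bl) (hU : U.Good F x) (hL : L.Good F x)
    {T : Finset (Sym2 Pt)} (hT : T ∈ tris (SS U L F x Bl)) :
    ldeg (offPts U L) F x T = dmax U L ↔
      Full U F x Bl (EU U false (axPts F x Bl) T) ∧ Full L F x Bl (EU L true (axPts F x Bl) T) := by
  classical
  have hnc := ncr_EU hU hL (Bl := Bl) (mem_tris.1 hT).1
  obtain ⟨h1, h2, h3⟩ := sum_up hF hU hL hT
  obtain ⟨⟨k1, k2⟩, k3, k4⟩ := hull_mem hF hU hL (mem_tris.1 hT)
  have hEU : EU U false (axPts F x Bl) T ⊆ U.I ×ˢ axPts F x Bl := by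
    unfold EU
    exact filter_subset _ _
  have hEL : EU L true (axPts F x Bl) T ⊆ L.I ×ˢ axPts F x Bl := by
    unfold EU
    exact filter_subset _ _
  have m1 : (U.top, x 0) ∈ EU U false (axPts F x Bl) T := by
    unfold EU
    exact mem_filter.2 ⟨mem_product.2 ⟨hU.top_mem, eu_eq_iff_x0⟩, k1⟩
  have m2 : (U.top, x F) ∈ EU U false (axPts F x Bl) T := by
    unfold EU
    exact mem_filter.2 ⟨mem_product.2 ⟨hU.top_mem, eu_eq_iff_xF⟩, k2⟩
  have m3 : (L.top, x 0) ∈ EU L true (axPts F x Bl) T := by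
    unfold EU
    exact mem_filter.2 ⟨mem_product.2 ⟨hL.top_mem, eu_eq_iff_x0⟩, k3⟩
  have m4 : (L.top, x F) ∈ EU L true (axPts F x Bl) T := by
    unfold EU
    exact mem_filter.2 ⟨mem_product.2 ⟨hL.top_mem, eu_eq_iff_xF⟩, k4⟩
  obtain ⟨a1, a2⟩ := lead_iff_side (d := up (offPts U L) T) hF hU hEU hnc.1
    (fun a ha => up_eq hU hL ha) (fun a ha => (h1 a ha).1) h2 m1 m2
  obtain ⟨b1, b2⟩ := lead_iff_side (d := dn (offPts U L) T) hF hL hEL hnc.2
    (fun a ha => dn_eq hU hL ha) (fun a ha => (h1 a ha).2) h3 m3 m4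
  rw [← a2, ← b2]
  unfold ldeg dmax
  rw [sum_add_distrib]
  constructor
  · intro h
    omega
  · rintro ⟨c1, c2⟩
    omega

theorem lead_sum_mem (hF : GoodFeet F x Bl) (hU : U.Good F x) (hL : L.Good F x)
    {T : Finset (Sym2 Pt)} :
    (T ∈ tris (SS U L F x Bl) ∧ ldeg (offPts U L) F x T = dmax U L) ↔
      ∃ R R', IsTS U F x R ∧ IsTS L F x R' ∧ T ∈ tris (SS U L F x Bl) ∧
        EU U false (axPts F x Bl) T = ER U F x Bl R ∧
        EU L true (axPts F x Bl) T = ER L F x Bl R' := by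
  constructor
  · rintro ⟨hT, h⟩
    obtain ⟨f1, f2⟩ := (lead_iff hF hU hL hT).1 h
    obtain ⟨R, hR, e1⟩ := full_exists_TS hF hU f1
    obtain ⟨R', hR', e2⟩ := full_exists_TS hF hL f2
    exact ⟨R, R', hR, hR', hT, e1, e2⟩
  · rintro ⟨R, R', hR, hR', hT, e1, e2⟩
    refine ⟨hT, (lead_iff hF hU hL hT).2 ⟨?_, ?_⟩⟩
    · rw [e1]; exact full_ER hR hF hU
    · rw [e2]; exact full_ER hR' hF hL

open Classical in
theorem lead_sum_fib (hF : GoodFeet F x Bl) (hU : U.Good F x) (hL : L.Good F x)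
    (φ : ℕ → ℕ → ℕ → ℚ) {R : α → ℕ × ℕ} {R' : β → ℕ × ℕ} (hR : IsTS U F x R)
    (hR' : IsTS L F x R') :
    ∑ T ∈ (tris (SS U L F x Bl)).filter (fun T =>
        EU U false (axPts F x Bl) T = ER U F x Bl R ∧
        EU L true (axPts F x Bl) T = ER L F x Bl R'),
      ∏ f ∈ Ioo 0 F, φ f (up (offPts U L) T (x f) - 1) (dn (offPts U L) T (x f) - 1) =
    (∏ f ∈ Ioo 0 F, φ f (kk U R f) (kk L R' f)) *
      ∏ g ∈ range F, (Mg x Bl g (U.pt (lab U R g)) (L.pt (lab L R' g)) : ℚ) := by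
  have h1 : ∀ T ∈ (tris (SS U L F x Bl)).filter (fun T =>
        EU U false (axPts F x Bl) T = ER U F x Bl R ∧
        EU L true (axPts F x Bl) T = ER L F x Bl R'),
      ∏ f ∈ Ioo 0 F, φ f (up (offPts U L) T (x f) - 1) (dn (offPts U L) T (x f) - 1) =
      ∏ f ∈ Ioo 0 F, φ f (kk U R f) (kk L R' f) := by
    intro T hT
    obtain ⟨_, e1, e2⟩ := mem_filter.1 hT
    refine prod_congr rfl fun f hf => ?_
    have hfF : f ≤ F := (mem_Ioo.1 hf).2.le
    have u1 := up_eq (Bl := Bl) hU hL (T := T) (sum_up_memf (F := F) (x := x) (Bl := Bl) hfF)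
    have u2 := dn_eq (Bl := Bl) hU hL (T := T) (sum_up_memf (F := F) (x := x) (Bl := Bl) hfF)
    rw [e1] at u1
    rw [e2] at u2
    have d1 := deg_ER hR hF hU hf
    have d2 := deg_ER hR' hF hL hf
    rw [u1, u2]
    have k1 : (U.I.filter fun v => (v, x f) ∈ ER U F x Bl R).card - 1 = kk U R f := by
      rw [d1]; rfl
    have k2 : (L.I.filter fun v => (v, x f) ∈ ER L F x Bl R').card - 1 = kk L R' f := by
      rw [d2]; rfl
    congr 1
  rw [sum_congr rfl h1, sum_const, nsmul_eq_mul, fib_card hF hU hL hR hR', mul_comm]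
  push_cast
  rfl

open Classical in
/-- hint: by `lead_iff`, `full_exists_TS`, `full_ER` the left hand side is the sum over the fibers
of `fib_card`; the degrees by `up_eq`, `dn_eq`, `deg_ER`; fibers are disjoint by `ER_inj` -/
theorem lead_sum (hF : GoodFeet F x Bl) (hU : U.Good F x) (hL : L.Good F x)
    (φ : ℕ → ℕ → ℕ → ℚ) :
    ∑ T ∈ (tris (setWA (offPts U L) (axPts F x Bl))).filter
        (fun T => ldeg (offPts U L) F x T = dmax U L),
      ∏ f ∈ Ioo 0 F, φ f (up (offPts U L) T (x f) - 1) (dn (offPts U L) T (x f) - 1) =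
    ∑ R ∈ TS U F x, ∑ R' ∈ TS L F x, (∏ f ∈ Ioo 0 F, φ f (kk U R f) (kk L R' f)) *
      ∏ g ∈ range F, (Mg x Bl g (U.pt (lab U R g)) (L.pt (lab L R' g)) : ℚ) := by
  have h1 : (tris (setWA (offPts U L) (axPts F x Bl))).filter
        (fun T => ldeg (offPts U L) F x T = dmax U L) =
      (TS U F x ×ˢ TS L F x).biUnion fun p =>
        (tris (SS U L F x Bl)).filter (fun T =>
          EU U false (axPts F x Bl) T = ER U F x Bl p.1 ∧
          EU L true (axPts F x Bl) T = ER L F x Bl p.2) := by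
    ext T
    rw [mem_filter, mem_biUnion]
    constructor
    · intro h
      obtain ⟨R, R', hR, hR', hT, e1, e2⟩ := (lead_sum_mem hF hU hL).1 h
      exact ⟨(R, R'), mem_product.2 ⟨mem_TS.2 hR, mem_TS.2 hR'⟩, mem_filter.2 ⟨hT, e1, e2⟩⟩
    · rintro ⟨⟨R, R'⟩, hp, hT⟩
      obtain ⟨h1, h2⟩ := mem_product.1 hp
      obtain ⟨h3, e1, e2⟩ := mem_filter.1 hT
      exact (lead_sum_mem hF hU hL).2 ⟨R, R', mem_TS.1 h1, mem_TS.1 h2, h3, e1, e2⟩
  rw [h1, sum_biUnion, ← sum_product']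
  · refine sum_congr rfl fun p hp => ?_
    obtain ⟨h2, h3⟩ := mem_product.1 hp
    exact lead_sum_fib hF hU hL φ (mem_TS.1 h2) (mem_TS.1 h3)
  · intro p hp q hq hpq
    rw [Function.onFun, disjoint_left]
    intro T hTp hTq
    apply hpq
    obtain ⟨_, a1, a2⟩ := mem_filter.1 hTp
    obtain ⟨_, b1, b2⟩ := mem_filter.1 hTq
    obtain ⟨p1, p2⟩ := mem_product.1 (mem_coe.1 hp)
    obtain ⟨q1, q2⟩ := mem_product.1 (mem_coe.1 hq)
    exact Prod.ext (ER_inj (mem_TS.1 p1) (mem_TS.1 q1) hF hU (a1.symm.trans b1))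
      (ER_inj (mem_TS.1 p2) (mem_TS.1 q2) hF hL (a2.symm.trans b2))

end Pool.Agent.TRI

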