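import Pool.Agent.TRI.Basic

/-!
Area B, definitions.
-/

namespace Pool.Agent.TRI

open Finset

variable {α β : Type}

/-- mirror image if `s` is `true` -/
def mir (s : Bool) (p : Pt) : Pt := if s then low p else p

/-- direction of `p` seen from the axis point `a` -/
noncomputable def th (a : ℝ) (p : Pt) : ℝ := (p.1 - a) / p.2

/-- the segments from `p` to the axis point `a` and from `q` to the axis point `b` do not cross
and do not run over `q`, `p` (see `ncp_iff`) -/
def ncp (p q : Pt) (a b : ℝ) : Prop :=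
  (q.2 < p.2 → (sl p q < a ∧ b ≤ a) ∨ (a < sl p q ∧ a ≤ b)) ∧
    (p.2 < q.2 → (sl q p < b ∧ a ≤ b) ∨ (b < sl q p ∧ b ≤ a)) ∧
    (p.2 = q.2 → p.1 < q.1 → a ≤ b) ∧ (p.2 = q.2 → q.1 < p.1 → b ≤ a)

/-- a noncrossing set of pairs (point of the side, axis point) -/
def NCR (D : Side α) (E : Finset (α × ℝ)) : Prop :=
  ∀ v a, (v, a) ∈ E → ∀ w b, (w, b) ∈ E → v ≠ w → ncp (D.pt v) (D.pt w) a b

open Classical in
/-- the pairs (point of the side, axis point) joined by a segment of `T`; `s = true` for the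
lower side -/
noncomputable def EU (D : Side α) (s : Bool) (A : Finset ℝ) (T : Finset (Sym2 Pt)) :
    Finset (α × ℝ) :=
  (D.I ×ˢ A).filter fun va => s(fpt va.2, mir s (D.pt va.1)) ∈ T

open Classical in
/-- the pairs (point, axis point) belonging to the tent system `R` -/
noncomputable def ER (D : Side α) (F : ℕ) (x : ℕ → ℝ) (Bl : Finset ℝ) (R : α → ℕ × ℕ) :
    Finset (α × ℝ) :=
  (D.I ×ˢ axPts F x Bl).filter fun va => va.2 = x (R va.1).1 ∨ va.2 = x (R va.1).2 ∨
    (x (R va.1).1 < va.2 ∧ va.2 < x (R va.1).2 ∧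
      ∀ w ∈ D.I, x (R w).1 < va.2 → va.2 < x (R w).2 → (D.pt va.1).2 ≤ (D.pt w).2)

/-- `E` is a noncrossing set of pairs of maximal size with the shape of a leading triangulation -/
structure Full (D : Side α) (F : ℕ) (x : ℕ → ℝ) (Bl : Finset ℝ) (E : Finset (α × ℝ)) : Prop where
  sub : E ⊆ D.I ×ˢ axPts F x Bl
  nc : NCR D E
  card : E.card + 2 = 2 * D.I.card + (axPts F x Bl).card
  t0 : ∀ v, (v, x 0) ∈ E ↔ v = D.top
  tF : ∀ v, (v, x F) ∈ E ↔ v = D.top
  blk : ∀ b ∈ Bl, ∀ v w, (v, b) ∈ E → (w, b) ∈ E → v = w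

/-- `a < a'` are neighbours in `A` -/
def Adj (A : Finset ℝ) (a a' : ℝ) : Prop :=
  a ∈ A ∧ a' ∈ A ∧ a < a' ∧ ∀ b ∈ A, b ≤ a ∨ a' ≤ b

/-! ### elementary facts -/

theorem ncp_iff_aux1 {p q : Pt} (hp : 0 < p.2) (hq : 0 < q.2) (hqp : q.2 ≤ p.2) (a b : ℝ)
    (hM : a * (p.2 - q.2) + p.1 * q.2 - q.1 * p.2 ≠ 0) :
    Disjoint (openSegment ℝ (fpt a) p) (openSegment ℝ (fpt b) q) ↔
      (0 < a * (p.2 - q.2) + p.1 * q.2 - q.1 * p.2 ∧ b ≤ a) ∨
        (a * (p.2 - q.2) + p.1 * q.2 - q.1 * p.2 < 0 ∧ a ≤ b) := by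
  obtain ⟨M, hMd⟩ : ∃ M, M = a * (p.2 - q.2) + p.1 * q.2 - q.1 * p.2 := ⟨_, rfl⟩
  rw [← hMd] at hM ⊢
  have key : ∀ τ : ℝ, 0 < τ → τ < 1 → (1 - τ) * p.2 * (a - b) + τ * M = 0 →
      ¬ Disjoint (openSegment ℝ (fpt a) p) (openSegment ℝ (fpt b) q) := by
    intro τ h0 h1 he
    rw [Set.not_disjoint_iff]
    refine ⟨((1 - τ) * b + τ * q.1, τ * q.2), ?_, ?_⟩
    · rw [mem_openSegment_iff]
      refine ⟨τ * q.2 / p.2, by positivity, ?_, ?_, ?_⟩
      · rw [div_lt_one hp]; nlinarith
      · simp only [fpt]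
        have hp' := hp.ne'
        field_simp
        rw [hMd] at he
        linarith
      · simp only [fpt]
        have hp' := hp.ne'
        field_simp
        ring
    · rw [mem_openSegment_iff]
      refine ⟨τ, h0, h1, ?_, ?_⟩
      · simp only [fpt]
      · simp only [fpt]; ring
  constructor
  · intro hd
    rcases lt_or_gt_of_ne hM with hM1 | hM1
    · right
      refine ⟨hM1, ?_⟩
      by_contra hc
      push Not at hc
      have hden : 0 < (a - b) * p.2 - M := by nlinarith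
      refine key ((a - b) * p.2 / ((a - b) * p.2 - M)) ?_ ?_ ?_ hd
      · apply div_pos _ hden
        exact mul_pos (by linarith) hp
      · rw [div_lt_one hden]; linarith
      · field_simp; ring
    · left
      refine ⟨hM1, ?_⟩
      by_contra hc
      push Not at hc
      have hden : 0 < (b - a) * p.2 + M := by nlinarith
      refine key ((b - a) * p.2 / ((b - a) * p.2 + M)) ?_ ?_ ?_ hd
      · apply div_pos _ hden
        exact mul_pos (by linarith) hp
      · rw [div_lt_one hden]; linarith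
      · field_simp; ring
  · intro h
    rw [Set.disjoint_left]
    intro z hz1 hz2
    obtain ⟨t, ht0, ht1, hx1, hy1⟩ := mem_openSegment_iff.1 hz1
    obtain ⟨s, hs0, hs1, hx2, hy2⟩ := mem_openSegment_iff.1 hz2
    simp only [fpt] at hx1 hy1 hx2 hy2
    have e1 : t * p.2 = s * q.2 := by linarith
    have e2 : (1 - s) * p.2 * (a - b) + s * M = 0 := by
      have : p.2 * ((1 - t) * a + t * p.1) = p.2 * ((1 - s) * b + s * q.1) := by
        rw [← hx1, ← hx2]
      rw [hMd]
      linear_combination this - (p.1 - a) * e1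
    rcases h with ⟨h1, h2⟩ | ⟨h1, h2⟩
    · have : 0 ≤ (1 - s) * p.2 * (a - b) :=
        mul_nonneg (mul_nonneg (by linarith) hp.le) (by linarith)
      have h3 : 0 < s * M := mul_pos hs0 h1
      linarith
    · have : 0 ≤ (1 - s) * p.2 * (b - a) :=
        mul_nonneg (mul_nonneg (by linarith) hp.le) (by linarith)
      have h3 : 0 < s * (-M) := mul_pos hs0 (by linarith)
      linarith

/-- membership of a lower point in the segment to an axis point -/
theorem ncp_iff_aux2 {p q : Pt} (hp : 0 < p.2) (hq : 0 < q.2) (a : ℝ) :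
    q ∈ openSegment ℝ (fpt a) p ↔
      q.2 < p.2 ∧ a * (p.2 - q.2) + p.1 * q.2 - q.1 * p.2 = 0 := by
  rw [mem_openSegment_iff]
  simp only [fpt]
  constructor
  · rintro ⟨t, h0, h1, hx, hy⟩
    refine ⟨by nlinarith, ?_⟩
    rw [hx, hy]; ring
  · rintro ⟨h1, h2⟩
    refine ⟨q.2 / p.2, by positivity, by rwa [div_lt_one hp], ?_, ?_⟩
    · field_simp; linarith
    · field_simp; ring

theorem ncp_iff_aux3 {p q : Pt} (h : q.2 < p.2) (a : ℝ) :
    a * (p.2 - q.2) + p.1 * q.2 - q.1 * p.2 = (p.2 - q.2) * (a - sl p q) := by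
  have : p.2 - q.2 ≠ 0 := by linarith
  unfold sl
  field_simp
  ring

theorem ncp_iff_aux4 {p q : Pt} (hp : 0 < p.2) (hq : 0 < q.2) (h : q.2 < p.2) (a b : ℝ) :
    (sl p q < a ∧ b ≤ a) ∨ (a < sl p q ∧ a ≤ b) ↔ (q ∉ openSegment ℝ (fpt a) p ∧
      Disjoint (openSegment ℝ (fpt a) p) (openSegment ℝ (fpt b) q)) := by
  have h0 : 0 < p.2 - q.2 := by linarith
  rw [ncp_iff_aux2 hp hq]
  constructor
  · intro h1
    have hne : a * (p.2 - q.2) + p.1 * q.2 - q.1 * p.2 ≠ 0 := by
      rw [ncp_iff_aux3 h]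
      apply mul_ne_zero h0.ne'
      rcases h1 with h1 | h1
      · exact (sub_pos.2 h1.1).ne'
      · exact (sub_neg.2 h1.1).ne
    refine ⟨fun h2 => hne h2.2, ?_⟩
    rw [ncp_iff_aux1 hp hq h.le a b hne, ncp_iff_aux3 h]
    rcases h1 with h1 | h1
    · left; exact ⟨mul_pos h0 (by linarith), h1.2⟩
    · right; exact ⟨mul_neg_of_pos_of_neg h0 (by linarith), h1.2⟩
  · rintro ⟨h1, h2⟩
    have hne : a * (p.2 - q.2) + p.1 * q.2 - q.1 * p.2 ≠ 0 := fun h3 => h1 ⟨h, h3⟩
    rw [ncp_iff_aux1 hp hq h.le a b hne, ncp_iff_aux3 h] at h2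
    rcases h2 with h2 | h2
    · left; exact ⟨by nlinarith [h2.1], h2.2⟩
    · right; exact ⟨by nlinarith [h2.1], h2.2⟩

/-- meaning of `ncp` -/
theorem ncp_iff {p q : Pt} (hp : 0 < p.2) (hq : 0 < q.2) (hne : p ≠ q) (a b : ℝ) :
    ncp p q a b ↔ (q ∉ openSegment ℝ (fpt a) p ∧ p ∉ openSegment ℝ (fpt b) q ∧
      Disjoint (openSegment ℝ (fpt a) p) (openSegment ℝ (fpt b) q)) := by
  unfold ncp
  rcases lt_trichotomy q.2 p.2 with h | h | h
  · have e1 : p ∉ openSegment ℝ (fpt b) q := by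
      rw [ncp_iff_aux2 hq hp]; intro h2; linarith [h2.1]
    have e2 := ncp_iff_aux4 hp hq h a b
    constructor
    · rintro ⟨h1, _, _, _⟩
      obtain ⟨h3, h4⟩ := e2.1 (h1 h)
      exact ⟨h3, e1, h4⟩
    · rintro ⟨h1, _, h3⟩
      refine ⟨fun _ => e2.2 ⟨h1, h3⟩, fun h4 => absurd h4 (by linarith),
        fun h4 => absurd h4 (by linarith), fun h4 => absurd h4 (by linarith)⟩
  · have hne1 : p.1 ≠ q.1 := fun h1 => hne (Prod.ext h1 h.symm)
    have e1 : p ∉ openSegment ℝ (fpt b) q := by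
      rw [ncp_iff_aux2 hq hp]; intro h2; linarith [h2.1]
    have e2 : q ∉ openSegment ℝ (fpt a) p := by
      rw [ncp_iff_aux2 hp hq]; intro h2; linarith [h2.1]
    have e3 : a * (p.2 - q.2) + p.1 * q.2 - q.1 * p.2 = p.2 * (p.1 - q.1) := by
      rw [h]; ring
    have hM : a * (p.2 - q.2) + p.1 * q.2 - q.1 * p.2 ≠ 0 := by
      rw [e3]; exact mul_ne_zero hp.ne' (sub_ne_zero.2 hne1)
    rw [ncp_iff_aux1 hp hq h.le a b hM, e3]
    constructor
    · rintro ⟨_, _, h3, h4⟩
      refine ⟨e2, e1, ?_⟩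
      rcases lt_or_gt_of_ne hne1 with h5 | h5
      · right; exact ⟨mul_neg_of_pos_of_neg hp (by linarith), h3 h.symm h5⟩
      · left; exact ⟨mul_pos hp (by linarith), h4 h.symm h5⟩
    · rintro ⟨_, _, h3⟩
      refine ⟨fun h4 => absurd h4 (by linarith), fun h4 => absurd h4 (by linarith), ?_, ?_⟩
      · intro _ h5
        rcases h3 with h3 | h3
        · exfalso; nlinarith [h3.1]
        · exact h3.2
      · intro _ h5
        rcases h3 with h3 | h3
        · exact h3.2
        · exfalso; nlinarith [h3.1]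
  · have e1 : q ∉ openSegment ℝ (fpt a) p := by
      rw [ncp_iff_aux2 hp hq]; intro h2; linarith [h2.1]
    have e2 := ncp_iff_aux4 hq hp h b a
    constructor
    · rintro ⟨_, h1, _, _⟩
      obtain ⟨h3, h4⟩ := e2.1 (h1 h)
      exact ⟨e1, h3, h4.symm⟩
    · rintro ⟨_, h1, h3⟩
      refine ⟨fun h4 => absurd h4 (by linarith), fun _ => e2.2 ⟨h1, h3.symm⟩,
        fun h4 => absurd h4 (by linarith), fun h4 => absurd h4 (by linarith)⟩

theorem ncp_symm {p q : Pt} {a b : ℝ} (h : ncp p q a b) : ncp q p b a := by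
  obtain ⟨h1, h2, h3, h4⟩ := h
  exact ⟨h2, h1, fun h5 h6 => h4 h5.symm h6, fun h5 h6 => h3 h5.symm h6⟩

theorem wedge_aux {v z p : Pt} {a b c : ℝ} (hz0 : 0 ≤ z.2) (hv : 0 < v.2)
    (hp : 0 < p.2) (hpv : v ∉ openSegment ℝ z p)
    (h1 : Disjoint (openSegment ℝ (fpt c) v) (openSegment ℝ z p)) (hab : a < b)
    {t : ℝ} (ht0 : 0 < t) (ht1 : t < 1)
    (hc : (v.1 - c) * ((1 - t) * z.2 + t * p.2) - v.2 * (((1 - t) * z.1 + t * p.1) - c) = 0)
    (hle : (b - a) * (((1 - t) * z.2 + t * p.2) - v.2) ≤ 0) : False := by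
  set y1 := (1 - t) * z.1 + t * p.1 with hy1
  set y2 := (1 - t) * z.2 + t * p.2 with hy2
  have hy : (y1, y2) ∈ openSegment ℝ z p := mem_openSegment_iff.2 ⟨t, ht0, ht1, rfl, rfl⟩
  have hpos : 0 < y2 := by
    have : 0 < t * p.2 := mul_pos ht0 hp
    have : 0 ≤ (1 - t) * z.2 := mul_nonneg (by linarith) hz0
    rw [hy2]; linarith
  have hle' : y2 ≤ v.2 := by
    by_contra hcon
    push Not at hcon
    have : 0 < (b - a) * (y2 - v.2) := mul_pos (by linarith) (by linarith)
    linarith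
  rcases hle'.lt_or_eq with h | h
  · refine Set.disjoint_left.1 h1 ?_ hy
    rw [mem_openSegment_iff]
    refine ⟨y2 / v.2, div_pos hpos hv, (div_lt_one hv).2 h, ?_, ?_⟩
    · simp only [fpt]
      field_simp
      linarith
    · simp only [fpt]
      field_simp
      ring
  · apply hpv
    have h2 : v.2 * (v.1 - y1) = 0 := by
      rw [h] at hc
      linarith
    rcases mul_eq_zero.1 h2 with h3 | h3
    · linarith
    · have : v = (y1, y2) := by
        ext
        · simp only; linarith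
        · simp only; linarith
      rw [this]
      exact hy

/-- the wedge lemma: `z` is in the triangle `v, a, b` (or in the open base), the segment from `z`
to `p` does not meet the sides `v a`, `v b`; then `p` is `v` or in the triangle -/
theorem wedge {v z p : Pt} {a b : ℝ} (hz0 : 0 ≤ z.2) (hzv : z.2 < v.2) (ha : a < sl v z)
    (hb : sl v z < b) (hp : 0 < p.2) (hpv : v ∉ openSegment ℝ z p)
    (h1 : Disjoint (openSegment ℝ (fpt a) v) (openSegment ℝ z p))
    (h2 : Disjoint (openSegment ℝ (fpt b) v) (openSegment ℝ z p)) :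
    p = v ∨ (p.2 < v.2 ∧ a ≤ sl v p ∧ sl v p ≤ b) := by
  have hv : 0 < v.2 := lt_of_le_of_lt hz0 hzv
  have hab : a < b := ha.trans hb
  have hd : 0 < v.2 - z.2 := by linarith
  unfold sl at ha hb
  rw [lt_div_iff₀ hd] at ha
  rw [div_lt_iff₀ hd] at hb
  -- signs at z
  set az := (v.1 - a) * z.2 - v.2 * (z.1 - a) with haz
  set bz := (v.1 - b) * z.2 - v.2 * (z.1 - b) with hbz
  set ap := (v.1 - a) * p.2 - v.2 * (p.1 - a) with hap
  set bp := (v.1 - b) * p.2 - v.2 * (p.1 - b) with hbp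
  have haz' : az < 0 := by rw [haz]; linarith
  have hbz' : 0 < bz := by rw [hbz]; linarith
  have ka : ∀ t : ℝ, (v.1 - a) * ((1 - t) * z.2 + t * p.2) -
      v.2 * (((1 - t) * z.1 + t * p.1) - a) = (1 - t) * az + t * ap := by
    intro t; rw [haz, hap]; ring
  have kb : ∀ t : ℝ, (v.1 - b) * ((1 - t) * z.2 + t * p.2) -
      v.2 * (((1 - t) * z.1 + t * p.1) - b) = (1 - t) * bz + t * bp := by
    intro t; rw [hbz, hbp]; ring
  have kd : ∀ t : ℝ, (b - a) * (((1 - t) * z.2 + t * p.2) - v.2) =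
      ((1 - t) * az + t * ap) - ((1 - t) * bz + t * bp) := by
    intro t; rw [haz, hap, hbz, hbp]; ring
  have keyA : ∀ t : ℝ, 0 < t → t < 1 → (1 - t) * az + t * ap = 0 →
      0 ≤ (1 - t) * bz + t * bp → False := by
    intro t ht0 ht1 h3 h4
    refine wedge_aux hz0 hv hp hpv h1 hab ht0 ht1 (by rw [ka, h3]) ?_
    rw [kd, h3]; linarith
  have keyB : ∀ t : ℝ, 0 < t → t < 1 → (1 - t) * bz + t * bp = 0 →
      (1 - t) * az + t * ap ≤ 0 → False := by
    intro t ht0 ht1 h3 h4
    refine wedge_aux hz0 hv hp hpv h2 hab ht0 ht1 (by rw [kb, h3]) ?_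
    rw [kd, h3]; linarith
  -- no sign change
  have hap' : ap ≤ 0 := by
    by_contra hcon
    push Not at hcon
    set t := -az / (ap - az) with ht
    have hda : 0 < ap - az := by linarith
    have ht0 : 0 < t := div_pos (by linarith) hda
    have ht1 : t < 1 := by rw [ht, div_lt_one hda]; linarith
    have hta : (1 - t) * az + t * ap = 0 := by
      have : t * (ap - az) = -az := by rw [ht]; field_simp
      linarith
    by_cases hb0 : 0 ≤ (1 - t) * bz + t * bp
    · exact keyA t ht0 ht1 hta hb0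
    · push Not at hb0
      have hdb : 0 < bz - bp := by
        by_contra hcon2
        push Not at hcon2
        have : 0 ≤ t * (bp - bz) := mul_nonneg ht0.le (by linarith)
        linarith
      set s := bz / (bz - bp) with hs
      have hs0 : 0 < s := div_pos hbz' hdb
      have hst : s < t := by
        rw [hs, div_lt_iff₀ hdb]
        linarith
      have hsb : (1 - s) * bz + s * bp = 0 := by
        have : s * (bz - bp) = bz := by rw [hs]; field_simp
        linarith
      refine keyB s hs0 (hst.trans ht1) hsb ?_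
      have : 0 ≤ (t - s) * (ap - az) := mul_nonneg (by linarith) hda.le
      linarith
  have hbp' : 0 ≤ bp := by
    by_contra hcon
    push Not at hcon
    have hdb : 0 < bz - bp := by linarith
    set s := bz / (bz - bp) with hs
    have hs0 : 0 < s := div_pos hbz' hdb
    have hs1 : s < 1 := by rw [hs, div_lt_one hdb]; linarith
    have hsb : (1 - s) * bz + s * bp = 0 := by
      have : s * (bz - bp) = bz := by rw [hs]; field_simp
      linarith
    refine keyB s hs0 hs1 hsb ?_
    have h3 : (1 - s) * az ≤ 0 := mul_nonpos_of_nonneg_of_nonpos (by linarith) haz'.le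
    have h4 : s * ap ≤ 0 := mul_nonpos_of_nonneg_of_nonpos hs0.le hap'
    linarith
  have hle : p.2 ≤ v.2 := by
    by_contra hcon
    push Not at hcon
    have h3 : 0 < (b - a) * (p.2 - v.2) := mul_pos (by linarith) (by linarith)
    have h4 : (b - a) * (p.2 - v.2) = ap - bp := by rw [hap, hbp]; ring
    linarith
  rcases hle.lt_or_eq with h | h
  · right
    have hd' : 0 < v.2 - p.2 := by linarith
    refine ⟨h, ?_, ?_⟩
    · unfold sl
      rw [le_div_iff₀ hd']
      rw [hap] at hap'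
      linarith
    · unfold sl
      rw [div_le_iff₀ hd']
      rw [hbp] at hbp'
      linarith
  · left
    have h3 : v.2 * (v.1 - p.1) = ap := by rw [hap, h]; ring
    have h4 : v.2 * (v.1 - p.1) = bp := by rw [hbp, h]; ring
    have h5 : v.2 * (v.1 - p.1) = 0 := by linarith
    rcases mul_eq_zero.1 h5 with h6 | h6
    · linarith
    · ext
      · linarith
      · exact h

/-- `sl p r` is between `sl p q` and `sl q r` -/
theorem sl_avg {p q r : Pt} (h1 : r.2 < q.2) (h2 : q.2 < p.2) (h3 : 0 < r.2) :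
    ∃ t : ℝ, 0 < t ∧ t < 1 ∧ sl p r = (1 - t) * sl p q + t * sl q r := by
  have hq : 0 < q.2 := by linarith
  have hp : 0 < p.2 := by linarith
  have a1 : 0 < p.2 - q.2 := by linarith
  have a2 : 0 < q.2 - r.2 := by linarith
  have a3 : 0 < p.2 - r.2 := by linarith
  refine ⟨p.2 * (q.2 - r.2) / (q.2 * (p.2 - r.2)), by positivity, ?_, ?_⟩
  · rw [div_lt_one (by positivity)]
    nlinarith
  · unfold sl
    field_simp
    ring

theorem th_lt_iff {p q : Pt} (h1 : q.2 < p.2) (h2 : 0 < q.2) (a : ℝ) :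
    th a q < th a p ↔ sl p q < a := by
  have hp : 0 < p.2 := by linarith
  have a1 : 0 < p.2 - q.2 := by linarith
  unfold th sl
  rw [div_lt_div_iff₀ h2 hp, div_lt_iff₀ a1]
  constructor <;> intro h <;> linarith

theorem th_lt_iff' {p q : Pt} (h1 : q.2 < p.2) (h2 : 0 < q.2) (a : ℝ) :
    th a p < th a q ↔ a < sl p q := by
  have hp : 0 < p.2 := by linarith
  have a1 : 0 < p.2 - q.2 := by linarith
  unfold th sl
  rw [div_lt_div_iff₀ hp h2, lt_div_iff₀ a1]
  constructor <;> intro h <;> linarith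

/-- the points of the segment from `p` to an interior point of a segment `p q`: all points of
`openSegment p q` between two higher points -/
theorem sl_of_mem {v q z : Pt} (h : z ∈ openSegment ℝ v q) (h1 : q.2 < v.2) (h2 : 0 ≤ q.2) :
    q.2 < z.2 ∧ z.2 < v.2 ∧ sl v z = sl v q := by
  obtain ⟨t, h0, ht1, hx, hy⟩ := mem_openSegment_iff.1 h
  have a1 : 0 < v.2 - q.2 := by linarith
  refine ⟨by nlinarith, by nlinarith, ?_⟩
  have e1 : v.2 - z.2 = t * (v.2 - q.2) := by rw [hy]; ring
  unfold sl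
  rw [e1, hx, hy]
  field_simp
  ring

/-- where the segment from `p` to `low q` meets the axis -/
theorem cr_split {p q : Pt} (hp : 0 < p.2) (hq : 0 < q.2) :
    openSegment ℝ p (low q) = openSegment ℝ (fpt (cr p q)) p ∪ {fpt (cr p q)} ∪
      openSegment ℝ (fpt (cr p q)) (low q) := by
  have hs : 0 < p.2 + q.2 := by linarith
  -- the parameter of the axis point
  obtain ⟨τ, hτ⟩ : ∃ τ, τ = p.2 / (p.2 + q.2) := ⟨_, rfl⟩
  have hτ0 : 0 < τ := by rw [hτ]; positivity
  have hτ1 : τ < 1 := by rw [hτ, div_lt_one hs]; linarith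
  have hτe : τ * (p.2 + q.2) = p.2 := by rw [hτ]; field_simp
  have hcr : cr p q = (1 - τ) * p.1 + τ * q.1 := by
    unfold cr; rw [hτ]; field_simp; ring
  ext z
  simp only [Set.mem_union, Set.mem_singleton_iff]
  constructor
  · intro hz
    obtain ⟨t, h0, h1, hx, hy⟩ := mem_openSegment_iff.1 hz
    simp only [low] at hx hy
    rcases lt_trichotomy t τ with h | h | h
    · left; left
      rw [mem_openSegment_iff]
      refine ⟨(τ - t) / τ, by apply div_pos _ hτ0; linarith, ?_, ?_, ?_⟩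
      · rw [div_lt_one hτ0]; linarith
      · simp only [fpt]; rw [hx, hcr]; field_simp; ring
      · simp only [fpt]; rw [hy]
        field_simp
        linear_combination -t * hτe
    · left; right
      refine Prod.ext ?_ ?_
      · simp only [fpt]; rw [hx, hcr, h]
      · simp only [fpt]; rw [hy, h]; linarith
    · right
      have hτ2 : 0 < 1 - τ := by linarith
      rw [mem_openSegment_iff]
      refine ⟨(t - τ) / (1 - τ), by apply div_pos _ hτ2; linarith, ?_, ?_, ?_⟩
      · rw [div_lt_one hτ2]; linarith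
      · simp only [fpt, low]; rw [hx, hcr]; field_simp; ring
      · simp only [fpt, low]; rw [hy]
        field_simp
        linear_combination (-(1 - t)) * hτe
  · rintro ((hz | hz) | hz)
    · obtain ⟨t, h0, h1, hx, hy⟩ := mem_openSegment_iff.1 hz
      simp only [fpt] at hx hy
      rw [mem_openSegment_iff]
      refine ⟨τ * (1 - t), by apply mul_pos hτ0; linarith, by nlinarith, ?_, ?_⟩
      · simp only [low]; rw [hx, hcr]; ring
      · simp only [low]; rw [hy]; linear_combination (1 - t) * hτe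
    · rw [mem_openSegment_iff]
      refine ⟨τ, hτ0, hτ1, ?_, ?_⟩
      · rw [hz]; simp only [fpt, low]; exact hcr
      · rw [hz]; simp only [fpt, low]; linarith
    · obtain ⟨t, h0, h1, hx, hy⟩ := mem_openSegment_iff.1 hz
      simp only [fpt, low] at hx hy
      rw [mem_openSegment_iff]
      refine ⟨τ + (1 - τ) * t, by nlinarith, by nlinarith, ?_, ?_⟩
      · simp only [low]; rw [hx, hcr]; ring
      · simp only [low]; rw [hy]; linear_combination (1 - t) * hτe

end Pool.Agent.TRI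

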