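import Pool.Agent.TRI.Defs

/-!
Area B: the total degree at the inner feet.
-/

namespace Pool.Agent.TRI

open Finset

variable {α β : Type}

/-- total degree of a triangulation at the inner feet -/
noncomputable def ldeg (W : Finset Pt) (F : ℕ) (x : ℕ → ℝ) (T : Finset (Sym2 Pt)) : ℕ :=
  ∑ f ∈ Ioo 0 F, ((up W T (x f) - 1) + (dn W T (x f) - 1))

/-- the maximal total degree -/
def dmax (U : Side α) (L : Side β) : ℕ := 2 * (U.I.card - 1) + 2 * (L.I.card - 1)

end Pool.Agent.TRI
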