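import Pool.Agent.TRI.Defs

/-!
Basic lemmas: segments, maximality, determinants.
-/

namespace Pool.Agent.TRI

open Finset

theorem seg_mk (p q : Pt) : seg s(p, q) = openSegment ℝ p q := by
  ext x
  simp only [seg, Set.mem_ofPred_eq]
  constructor
  · rintro ⟨p', q', h, hx⟩
    rcases Sym2.eq_iff.1 h with ⟨rfl, rfl⟩ | ⟨rfl, rfl⟩
    · exact hx
    · rw [openSegment_symm]; exact hx
  · intro hx; exact ⟨p, q, rfl, hx⟩

theorem isSeg_mk {S : Finset Pt} {p q : Pt} :
    IsSeg S s(p, q) ↔ p ≠ q ∧ p ∈ S ∧ q ∈ S ∧ ∀ x ∈ S, x ∉ openSegment ℝ p q := by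
  unfold IsSeg
  rw [Sym2.mk_isDiag_iff, seg_mk]
  constructor
  · rintro ⟨h1, h2, h3⟩
    exact ⟨h1, h2 p (by simp), h2 q (by simp), h3⟩
  · rintro ⟨h1, h2, h3, h4⟩
    refine ⟨h1, ?_, h4⟩
    intro z hz
    rcases Sym2.mem_iff.1 hz with rfl | rfl <;> assumption

theorem mem_tris {S : Finset Pt} {T : Finset (Sym2 Pt)} : T ∈ tris S ↔ IsTri S T := by
  classical
  unfold tris
  rw [mem_filter, mem_powerset]
  constructor
  · exact fun h => h.2
  · intro h
    refine ⟨fun e he => ?_, h⟩
    rw [mem_sym2_iff]
    exact (h.1.1 e he).2.1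

/-- maximality with one segment -/
theorem isTri_iff {S : Finset Pt} {T : Finset (Sym2 Pt)} :
    IsTri S T ↔ IsNC S T ∧ ∀ e, IsSeg S e → (∀ f ∈ T, e ≠ f → Disjoint (seg e) (seg f)) →
      e ∈ T := by
  classical
  constructor
  · rintro ⟨h1, h2⟩
    refine ⟨h1, fun e he hd => ?_⟩
    have h3 : IsNC S (insert e T) := by
      refine ⟨?_, ?_⟩
      · intro f hf
        rcases mem_insert.1 hf with rfl | hf
        · exact he
        · exact h1.1 f hf
      · intro f hf g hg hne
        rcases mem_insert.1 hf with hf1 | hf1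
        · rcases mem_insert.1 hg with hg1 | hg1
          · exact absurd (hf1.trans hg1.symm) hne
          · rw [hf1] at hne ⊢; exact hd g hg1 hne
        · rcases mem_insert.1 hg with hg1 | hg1
          · rw [hg1] at hne ⊢; exact (hd f hf1 hne.symm).symm
          · exact h1.2 f hf1 g hg1 hne
    have h4 := h2 _ h3 (subset_insert e T)
    rw [← h4]; exact mem_insert_self e T
  · rintro ⟨h1, h2⟩
    refine ⟨h1, fun T' hT' hs => ?_⟩
    refine Subset.antisymm (fun e he => ?_) hs
    exact h2 e (hT'.1 e he) fun f hf hne => hT'.2 e he f (hs hf) hne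

/-! ### determinants -/

theorem det_rot (p q r : Pt) : det p q r = det q r p := by unfold det; ring

theorem det_swap (p q r : Pt) : det p q r = -det q p r := by unfold det; ring

theorem det_low (p q r : Pt) : det (low p) (low q) (low r) = -det p q r := by
  unfold det low; ring

@[simp] theorem det_self_left (p r : Pt) : det p p r = 0 := by unfold det; ring

@[simp] theorem det_self_right (p q : Pt) : det p q q = 0 := by unfold det; ring

@[simp] theorem det_self_mid (p q : Pt) : det p q p = 0 := by unfold det; ring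

/-- coordinates of the points of an open segment -/
theorem mem_openSegment_iff {p q z : Pt} : z ∈ openSegment ℝ p q ↔
    ∃ t : ℝ, 0 < t ∧ t < 1 ∧ z.1 = (1 - t) * p.1 + t * q.1 ∧ z.2 = (1 - t) * p.2 + t * q.2 := by
  constructor
  · rintro ⟨a, b, ha, hb, hab, rfl⟩
    refine ⟨b, hb, by linarith, ?_, ?_⟩
    · simp only [Prod.fst_add, Prod.smul_fst, smul_eq_mul]; rw [← hab]; ring
    · simp only [Prod.snd_add, Prod.smul_snd, smul_eq_mul]; rw [← hab]; ring
  · rintro ⟨t, h0, h1, hx, hy⟩
    refine ⟨1 - t, t, by linarith, h0, by ring, ?_⟩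
    ext
    · simp [hx]
    · simp [hy]

theorem det_of_mem {p q z : Pt} (h : z ∈ openSegment ℝ p q) : det p q z = 0 := by
  obtain ⟨t, _, _, hx, hy⟩ := mem_openSegment_iff.1 h
  unfold det; rw [hx, hy]; ring

/-- a point of the line through two different points -/
theorem cx_param {p q r : Pt} (hne : p ≠ q) (h : det p q r = 0) :
    ∃ a : ℝ, r.1 = (1 - a) * p.1 + a * q.1 ∧ r.2 = (1 - a) * p.2 + a * q.2 := by
  unfold det at h
  by_cases h1 : q.1 - p.1 = 0
  · have h2 : q.2 - p.2 ≠ 0 := by
      intro h2
      exact hne (Prod.ext (by linarith) (by linarith))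
    refine ⟨(r.2 - p.2) / (q.2 - p.2), ?_, ?_⟩
    · rw [h1] at h
      have h3 : r.1 - p.1 = 0 := by
        have : (q.2 - p.2) * (r.1 - p.1) = 0 := by linarith
        rcases mul_eq_zero.1 this with h4 | h4
        · exact absurd h4 h2
        · exact h4
      have h4 : q.1 = p.1 := by linarith
      rw [h4]; linarith
    · field_simp; ring
  · refine ⟨(r.1 - p.1) / (q.1 - p.1), ?_, ?_⟩
    · field_simp; ring
    · field_simp
      linarith

theorem cx_mem_of_param {r s p : Pt} {a b c x y u v : ℝ}
    (hr : r.1 = (1 - a) * x + a * u ∧ r.2 = (1 - a) * y + a * v)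
    (hs : s.1 = (1 - b) * x + b * u ∧ s.2 = (1 - b) * y + b * v)
    (hp : p.1 = (1 - c) * x + c * u ∧ p.2 = (1 - c) * y + c * v)
    (h : (a < c ∧ c < b) ∨ (b < c ∧ c < a)) : p ∈ openSegment ℝ r s := by
  rw [mem_openSegment_iff]
  have hab : b - a ≠ 0 := by
    rcases h with h | h
    · intro h0; linarith [h.1, h.2]
    · intro h0; linarith [h.1, h.2]
  refine ⟨(c - a) / (b - a), ?_, ?_, ?_, ?_⟩
  · rcases h with h | h
    · exact div_pos (by linarith [h.1]) (by linarith [h.1, h.2])
    · exact div_pos_of_neg_of_neg (by linarith [h.2]) (by linarith [h.1, h.2])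
  · rcases h with h | h
    · rw [div_lt_one (by linarith [h.1, h.2])]; linarith [h.2]
    · rw [div_lt_one_of_neg (by linarith [h.1, h.2])]; linarith [h.1]
  · rw [hp.1, hr.1, hs.1]; field_simp; ring
  · rw [hp.2, hr.2, hs.2]; field_simp; ring

/-- two admissible segments on the same line with a common interior point are equal -/
theorem cx_collinear {p q r s z : Pt} (hpq : p ≠ q)
    (h1 : r ∉ openSegment ℝ p q) (h2 : s ∉ openSegment ℝ p q)
    (h3 : p ∉ openSegment ℝ r s) (h4 : q ∉ openSegment ℝ r s)
    (hz1 : z ∈ openSegment ℝ p q) (hz2 : z ∈ openSegment ℝ r s)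
    (hr : det p q r = 0) (hs : det p q s = 0) : s(p, q) = s(r, s) := by
  obtain ⟨a, ha⟩ := cx_param hpq hr
  obtain ⟨b, hb⟩ := cx_param hpq hs
  have hp : p.1 = (1 - 0) * p.1 + 0 * q.1 ∧ p.2 = (1 - 0) * p.2 + 0 * q.2 := by
    constructor <;> ring
  have hq : q.1 = (1 - 1) * p.1 + 1 * q.1 ∧ q.2 = (1 - 1) * p.2 + 1 * q.2 := by
    constructor <;> ring
  have ha' : a ≤ 0 ∨ 1 ≤ a := by
    by_contra hc
    push Not at hc
    exact h1 (cx_mem_of_param hp hq ha (Or.inl ⟨hc.1, hc.2⟩))
  have hb' : b ≤ 0 ∨ 1 ≤ b := by
    by_contra hc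
    push Not at hc
    exact h2 (cx_mem_of_param hp hq hb (Or.inl ⟨hc.1, hc.2⟩))
  have h3' : ¬((a < 0 ∧ 0 < b) ∨ (b < 0 ∧ 0 < a)) := fun hc => h3 (cx_mem_of_param ha hb hp hc)
  have h4' : ¬((a < 1 ∧ 1 < b) ∨ (b < 1 ∧ 1 < a)) := fun hc => h4 (cx_mem_of_param ha hb hq hc)
  obtain ⟨t, ht0, ht1, htx, hty⟩ := mem_openSegment_iff.1 hz1
  obtain ⟨u, hu0, hu1, hux, huy⟩ := mem_openSegment_iff.1 hz2
  have key : t = (1 - u) * a + u * b := by
    have e1 : (t - ((1 - u) * a + u * b)) * (q.1 - p.1) = 0 := by
      rw [ha.1, hb.1] at hux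
      linear_combination hux - htx
    have e2 : (t - ((1 - u) * a + u * b)) * (q.2 - p.2) = 0 := by
      rw [ha.2, hb.2] at huy
      linear_combination huy - hty
    rcases mul_eq_zero.1 e1 with h | h
    · linarith
    · rcases mul_eq_zero.1 e2 with h' | h'
      · linarith
      · exact absurd (Prod.ext (by linarith) (by linarith)) hpq
  have hcase : (a = 0 ∧ b = 1) ∨ (a = 1 ∧ b = 0) := by
    rcases ha' with ha0 | ha1
    · rcases hb' with hb0 | hb1
      · exfalso
        have : t ≤ 0 := by
          rw [key]
          have := mul_nonneg (by linarith : (0:ℝ) ≤ 1 - u) (by linarith : (0:ℝ) ≤ -a)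
          have := mul_nonneg hu0.le (by linarith : (0:ℝ) ≤ -b)
          linarith
        linarith
      · left
        push Not at h3' h4'
        have e1 : a = 0 := by
          by_contra hne
          have : a < 0 := lt_of_le_of_ne ha0 hne
          linarith [h3'.1 this]
        have e2 : b = 1 := by
          by_contra hne
          have : 1 < b := lt_of_le_of_ne hb1 (Ne.symm hne)
          linarith [h4'.1 (by linarith)]
        exact ⟨e1, e2⟩
    · rcases hb' with hb0 | hb1
      · right
        push Not at h3' h4'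
        have e1 : b = 0 := by
          by_contra hne
          have : b < 0 := lt_of_le_of_ne hb0 hne
          linarith [h3'.2 this]
        have e2 : a = 1 := by
          by_contra hne
          have : 1 < a := lt_of_le_of_ne ha1 (Ne.symm hne)
          linarith [h4'.2 (by linarith)]
        exact ⟨e2, e1⟩
      · exfalso
        have : 1 ≤ t := by
          rw [key]
          have := mul_nonneg (by linarith : (0:ℝ) ≤ 1 - u) (by linarith : (0:ℝ) ≤ a - 1)
          have := mul_nonneg hu0.le (by linarith : (0:ℝ) ≤ b - 1)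
          linarith
        linarith
  rcases hcase with ⟨ea, eb⟩ | ⟨ea, eb⟩
  · have e1 : r = p := by
      rw [ea] at ha
      exact Prod.ext (by rw [ha.1]; ring) (by rw [ha.2]; ring)
    have e2 : s = q := by
      rw [eb] at hb
      exact Prod.ext (by rw [hb.1]; ring) (by rw [hb.2]; ring)
    rw [e1, e2]
  · have e1 : r = q := by
      rw [ea] at ha
      exact Prod.ext (by rw [ha.1]; ring) (by rw [ha.2]; ring)
    have e2 : s = p := by
      rw [eb] at hb
      exact Prod.ext (by rw [hb.1]; ring) (by rw [hb.2]; ring)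
    rw [e1, e2]; exact Sym2.eq_swap

/-- the determinant is affine in its last argument -/
theorem cx_det_affine {p q r s z : Pt} {u : ℝ} (hx : z.1 = (1 - u) * r.1 + u * s.1)
    (hy : z.2 = (1 - u) * r.2 + u * s.2) :
    det p q z = (1 - u) * det p q r + u * det p q s := by
  unfold det; rw [hx, hy]; ring

theorem cx_neg {A B u : ℝ} (hu0 : 0 < u) (hu1 : u < 1) (h : (1 - u) * A + u * B = 0)
    (hA : A ≠ 0) : A * B < 0 := by
  have h1 : u * (A * B) = -((1 - u) * (A * A)) := by linear_combination A * h
  have h2 : 0 < A * A := mul_self_pos.2 hA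
  have h3 : 0 < (1 - u) * (A * A) := mul_pos (by linarith) h2
  by_contra hc
  push Not at hc
  have := mul_nonneg hu0.le hc
  linarith

/-- two different admissible segments cross iff the determinants have opposite signs -/
theorem cross_iff {S : Finset Pt} {p q r s : Pt} (hpq : IsSeg S s(p, q)) (hrs : IsSeg S s(r, s))
    (hne : s(p, q) ≠ s(r, s)) : ¬ Disjoint (seg s(p, q)) (seg s(r, s)) ↔
      det p q r * det p q s < 0 ∧ det r s p * det r s q < 0 := by
  rw [seg_mk, seg_mk, Set.not_disjoint_iff]
  obtain ⟨hpq', hp, hq, hS1⟩ := isSeg_mk.1 hpq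
  obtain ⟨hrs', hr, hs, hS2⟩ := isSeg_mk.1 hrs
  constructor
  · rintro ⟨z, hz1, hz2⟩
    obtain ⟨t, ht0, ht1, htx, hty⟩ := mem_openSegment_iff.1 hz1
    obtain ⟨u, hu0, hu1, hux, huy⟩ := mem_openSegment_iff.1 hz2
    have e1 : (1 - u) * det p q r + u * det p q s = 0 := by
      rw [← cx_det_affine hux huy]; exact det_of_mem hz1
    have e2 : (1 - t) * det r s p + t * det r s q = 0 := by
      rw [← cx_det_affine htx hty]; exact det_of_mem hz2
    have n1 : det p q r ≠ 0 := by
      intro h0
      have h0' : det p q s = 0 := by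
        rw [h0] at e1
        have : u * det p q s = 0 := by linarith
        rcases mul_eq_zero.1 this with h | h
        · linarith
        · exact h
      exact hne (cx_collinear hpq' (hS1 r hr) (hS1 s hs) (hS2 p hp) (hS2 q hq) hz1 hz2 h0 h0')
    have n2 : det r s p ≠ 0 := by
      intro h0
      have h0' : det r s q = 0 := by
        rw [h0] at e2
        have : t * det r s q = 0 := by linarith
        rcases mul_eq_zero.1 this with h | h
        · linarith
        · exact h
      exact hne (cx_collinear hrs' (hS2 p hp) (hS2 q hq) (hS1 r hr) (hS1 s hs) hz2 hz1 h0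
        h0').symm
    exact ⟨cx_neg hu0 hu1 e1 n1, cx_neg ht0 ht1 e2 n2⟩
  · rintro ⟨h1, h2⟩
    have key : ∀ {A B : ℝ}, A * B < 0 → A - B ≠ 0 ∧ 0 < A / (A - B) ∧ A / (A - B) < 1 := by
      intro A B h
      rcases lt_trichotomy A 0 with hA | hA | hA
      · have hB : 0 < B := by
          by_contra hc
          push Not at hc
          have := mul_nonneg (by linarith : (0:ℝ) ≤ -A) (by linarith : (0:ℝ) ≤ -B)
          linarith
        refine ⟨by intro h0; linarith, div_pos_of_neg_of_neg hA (by linarith), ?_⟩
        rw [div_lt_one_of_neg (by linarith)]; linarith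
      · rw [hA] at h; simp at h
      · have hB : B < 0 := by
          by_contra hc
          push Not at hc
          have := mul_nonneg hA.le hc
          linarith
        refine ⟨by intro h0; linarith, div_pos hA (by linarith), ?_⟩
        rw [div_lt_one (by linarith)]; linarith
    obtain ⟨n1, a1, b1⟩ := key h1
    obtain ⟨n2, a2, b2⟩ := key h2
    set u := det p q r / (det p q r - det p q s) with hu
    set t := det r s p / (det r s p - det r s q) with ht
    refine ⟨((1 - u) * r.1 + u * s.1, (1 - u) * r.2 + u * s.2), ?_, ?_⟩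
    · rw [mem_openSegment_iff]
      have hD : det r s p - det r s q = -(det p q r - det p q s) := by unfold det; ring
      have hu' : u * (det p q r - det p q s) = det p q r := by rw [hu]; field_simp
      have ht' : t * (det p q r - det p q s) = -det r s p := by
        rw [ht, hD]; field_simp
      refine ⟨t, a2, b2, ?_, ?_⟩
      · have : (det p q r - det p q s) * (((1 - u) * r.1 + u * s.1) -
            ((1 - t) * p.1 + t * q.1)) = 0 := by
          have : (det p q r - det p q s) * (((1 - u) * r.1 + u * s.1) -
            ((1 - t) * p.1 + t * q.1)) = (det p q r - det p q s) * (r.1 - p.1) +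
            (u * (det p q r - det p q s)) * (s.1 - r.1) -
            (t * (det p q r - det p q s)) * (q.1 - p.1) := by ring
          rw [this, hu', ht']; unfold det; ring
        rcases mul_eq_zero.1 this with h | h
        · exact absurd h n1
        · simp only; linarith
      · have : (det p q r - det p q s) * (((1 - u) * r.2 + u * s.2) -
            ((1 - t) * p.2 + t * q.2)) = 0 := by
          have : (det p q r - det p q s) * (((1 - u) * r.2 + u * s.2) -
            ((1 - t) * p.2 + t * q.2)) = (det p q r - det p q s) * (r.2 - p.2) +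
            (u * (det p q r - det p q s)) * (s.2 - r.2) -
            (t * (det p q r - det p q s)) * (q.2 - p.2) := by ring
          rw [this, hu', ht']; unfold det; ring
        rcases mul_eq_zero.1 this with h | h
        · exact absurd h n1
        · simp only; linarith
    · rw [mem_openSegment_iff]
      exact ⟨u, a1, b1, rfl, rfl⟩

/-! ### mirror image -/

theorem low_low (p : Pt) : low (low p) = p := by simp [low]

open Classical in
theorem setWA_low (W : Finset Pt) (A : Finset ℝ) :
    (setWA W A).image low = setWA (W.image low) A := by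
  unfold setWA
  rw [image_union, image_image]
  congr 1
  apply image_congr
  intro a _
  simp [low, fpt]

theorem mirror_openSegment (p q z : Pt) : low z ∈ openSegment ℝ (low p) (low q) ↔
    z ∈ openSegment ℝ p q := by
  rw [mem_openSegment_iff, mem_openSegment_iff]
  simp only [low]
  constructor
  · rintro ⟨t, h0, h1, h2, h3⟩
    exact ⟨t, h0, h1, h2, by linarith⟩
  · rintro ⟨t, h0, h1, h2, h3⟩
    exact ⟨t, h0, h1, h2, by linarith⟩

theorem seg_map_low (e : Sym2 Pt) (z : Pt) : low z ∈ seg (e.map low) ↔ z ∈ seg e := by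
  induction e using Sym2.ind with
  | _ p q =>
    rw [Sym2.map_mk, seg_mk]
    exact (mirror_openSegment p q z).trans (by rw [seg_mk])

theorem mirror_injective : Function.Injective low :=
  Function.LeftInverse.injective low_low

theorem mirror_map_map (e : Sym2 Pt) : (e.map low).map low = e := by
  rw [Sym2.map_map]
  have h : low ∘ low = id := funext low_low
  rw [h, Sym2.map_id, id]

open Classical in
theorem mirror_image_image (S : Finset Pt) : (S.image low).image low = S := by
  rw [image_image]
  have h : low ∘ low = id := funext low_low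
  rw [h, image_id]

open Classical in
theorem mirror_image_image_sym (T : Finset (Sym2 Pt)) :
    (T.image (Sym2.map low)).image (Sym2.map low) = T := by
  rw [image_image]
  have h : Sym2.map low ∘ Sym2.map low = id := funext mirror_map_map
  rw [h, image_id]

open Classical in
theorem mirror_isSeg {S : Finset Pt} {e : Sym2 Pt} (h : IsSeg S e) :
    IsSeg (S.image low) (e.map low) := by
  obtain ⟨h1, h2, h3⟩ := h
  refine ⟨?_, ?_, ?_⟩
  · intro hd
    apply h1
    induction e using Sym2.ind with
    | _ p q =>
      rw [Sym2.map_mk, Sym2.mk_isDiag_iff] at hd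
      rw [Sym2.mk_isDiag_iff]
      exact mirror_injective hd
  · intro p hp
    obtain ⟨q, hq, rfl⟩ := Sym2.mem_map.1 hp
    exact mem_image_of_mem _ (h2 q hq)
  · intro x hx
    obtain ⟨y, hy, rfl⟩ := mem_image.1 hx
    rw [seg_map_low]
    exact h3 y hy

theorem mirror_disjoint {e f : Sym2 Pt} (h : Disjoint (seg e) (seg f)) :
    Disjoint (seg (e.map low)) (seg (f.map low)) := by
  rw [Set.disjoint_left] at h ⊢
  intro z hz hz'
  rw [← low_low z, seg_map_low] at hz hz'
  exact h hz hz'

open Classical in
theorem mirror_isNC {S : Finset Pt} {T : Finset (Sym2 Pt)} (h : IsNC S T) :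
    IsNC (S.image low) (T.image (Sym2.map low)) := by
  refine ⟨?_, ?_⟩
  · intro e he
    obtain ⟨e', he', rfl⟩ := mem_image.1 he
    exact mirror_isSeg (h.1 e' he')
  · intro e he f hf hne
    obtain ⟨e', he', rfl⟩ := mem_image.1 he
    obtain ⟨f', hf', rfl⟩ := mem_image.1 hf
    exact mirror_disjoint (h.2 e' he' f' hf' (fun hh => hne (by rw [hh])))

open Classical in
theorem mirror_isTri {S : Finset Pt} {T : Finset (Sym2 Pt)} (h : IsTri S T) :
    IsTri (S.image low) (T.image (Sym2.map low)) := by
  refine ⟨mirror_isNC h.1, ?_⟩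
  intro T' hT' hsub
  have h1 := mirror_isNC hT'
  rw [mirror_image_image] at h1
  have h2 : T ⊆ T'.image (Sym2.map low) := by
    rw [← mirror_image_image_sym T]
    exact image_subset_image hsub
  rw [← mirror_image_image_sym T', h.2 _ h1 h2]

open Classical in
theorem isTri_low {S : Finset Pt} {T : Finset (Sym2 Pt)} :
    IsTri (S.image low) (T.image (Sym2.map low)) ↔ IsTri S T := by
  constructor
  · intro h
    have h1 := mirror_isTri h
    rwa [mirror_image_image, mirror_image_image_sym] at h1
  · exact mirror_isTri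

end Pool.Agent.TRI
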