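import Pool.Agent.LibComplexity.Encode

/-!
Binary arithmetic in the calculus of polynomial-time functions, part 1: addition, subtraction,
comparison of natural numbers in binary.

`BTf 𝒜 f`: the function `f : Orc → α → ℕ` is computable in polynomial time, values in binary.
-/

namespace Pool.Agent.TRI

namespace Bin

open Pool.Agent.LibComplexity Function

variable {𝒜 : Set Orc} {α β γ τ : Type} [Enc α] [Enc β] [Enc γ] [Enc τ]

/-- value of a binary word, least significant bit first -/
def bv : List Bool → ℕ
  | [] => 0
  | b :: w => b.toNat + 2 * bv w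

theorem bv_lt (w : List Bool) : bv w < 2 ^ w.length := by
  induction w with
  | nil => simp [bv]
  | cons b w ih =>
    rw [bv, List.length_cons, pow_succ]
    have := Bool.toNat_le b
    omega

theorem bv_append (u v : List Bool) : bv (u ++ v) = bv u + 2 ^ u.length * bv v := by
  induction u with
  | nil => simp [bv]
  | cons b u ih =>
    rw [List.cons_append, bv, bv, ih, List.length_cons, pow_succ]
    ring

theorem bv_replicate (n : ℕ) : bv (List.replicate n false) = 0 := by
  induction n with
  | zero => rfl
  | succ n ih => rw [List.replicate_succ, bv, ih]; rfl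

theorem bits_cons (b : Bool) (n : ℕ) (h : n = 0 → b = true) :
    Nat.bits (b.toNat + 2 * n) = b :: Nat.bits n := by
  have h1 := Nat.bits_append_bit n b h
  rw [← h1, Nat.bit_val, Nat.add_comm]

theorem bits_double (b : Bool) (n : ℕ) :
    Nat.bits (b.toNat + 2 * n) =
      if (Nat.bits n).isEmpty && !b then [] else b :: Nat.bits n := by
  by_cases hn : n = 0
  · subst hn
    cases b
    · simp
    · rw [bits_cons true 0 (fun _ => rfl)]
      simp
  · rw [bits_cons b n (fun h => absurd h hn)]
    have h2 : Nat.bits n ≠ [] := by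
      intro h
      apply hn
      have := congrArg List.length h
      rw [Nat.size_eq_bits_len] at this
      exact Nat.size_eq_zero.1 (by simpa using this)
    have h3 : (Nat.bits n).isEmpty = false := by
      rw [← Bool.not_eq_true, List.isEmpty_iff]
      exact h2
    rw [h3]
    simp

theorem bv_bits (n : ℕ) : bv (Nat.bits n) = n := by
  induction n using Nat.strong_induction_on with
  | _ n ih =>
    by_cases hn : n = 0
    · subst hn; simp [bv]
    · have h1 : n = (n.testBit 0).toNat + 2 * (n / 2) := by
        rw [Nat.testBit_zero]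
        rcases Nat.mod_two_eq_zero_or_one n with h | h
        · simp [h]; omega
        · simp [h]; omega
      have h2 : n / 2 = 0 → n.testBit 0 = true := by
        intro h
        rw [Nat.testBit_zero]
        have : n = 1 := by omega
        simp [this]
      have h3 := bits_cons (n.testBit 0) (n / 2) h2
      rw [← h1] at h3
      rw [h3, bv, ih (n / 2) (by omega), ← h1]

/-- removing the zeros at the end -/
def nrm (w : List Bool) : List Bool :=
  w.foldr (fun b out => if out.isEmpty && !b then [] else b :: out) []

theorem nrm_eq (w : List Bool) : nrm w = Nat.bits (bv w) := by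
  induction w with
  | nil => simp [nrm, bv]
  | cons b w ih =>
    have h : nrm (b :: w) = if (nrm w).isEmpty && !b then [] else b :: nrm w := rfl
    rw [h, ih, bv, bits_double]

theorem size_bits_le {m n : ℕ} (h : m ≤ n) : (Nat.bits m).length ≤ (Nat.bits n).length := by
  rw [Nat.size_eq_bits_len, Nat.size_eq_bits_len]
  exact Nat.size_le_size h

theorem len_bits_bv (w : List Bool) : (Nat.bits (bv w)).length ≤ w.length := by
  rw [Nat.size_eq_bits_len, Nat.size_le]
  exact bv_lt w

theorem len_bits_pow {n k : ℕ} (h : n < 2 ^ k) : (Nat.bits n).length ≤ k := by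
  rw [Nat.size_eq_bits_len, Nat.size_le]
  exact h

theorem lt_two_pow_bits (n : ℕ) : n < 2 ^ (Nat.bits n).length := by
  rw [Nat.size_eq_bits_len]
  exact Nat.lt_size_self n

theorem sz_word_le (w : List Bool) : sz w ≤ 4 * w.length + 1 := by
  have := sz_list_le (l := w) (B := 3) (fun y _ => sz_bool y)
  omega

/-! ### logical operations -/

theorem ptf_xor {p q : Orc → α → Bool} (hp : PTf 𝒜 p) (hq : PTf 𝒜 q) :
    PTf 𝒜 (fun A x => p A x ^^ q A x) :=
  (hp.ite hq.bnot hq).congr fun A _ x => by cases p A x <;> simp

/-! ### normal form -/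

theorem ptf_nrm {f : Orc → α → List Bool} (hf : PTf 𝒜 f) :
    PTf 𝒜 (fun A x => Nat.bits (bv (f A x))) := by
  have := PTf.foldl_grow (l := fun A x => (f A x).reverse) (h := fun _ (_ : α) => ([] : List Bool))
    (g := fun _ _ (out : List Bool) (b : Bool) => if out.isEmpty && !b then [] else b :: out)
    hf.reverse (PTf.const [])
    (by
      refine (PTf.ite (p := fun _ (p : α × List Bool × Bool) => p.2.1.isEmpty && !p.2.2)
        (PTf.id.snd.fst.isEmpty.band PTf.id.snd.snd.bnot) (PTf.const [])
        (PTf.id.snd.snd.cons PTf.id.snd.fst)).congr fun A _ x => ?_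
      rfl)
    (d := fun _ _ => 4) (PB.const 4) (by
      intro A _ x s y _
      split_ifs
      · rw [sz_nil]; omega
      · rw [sz_cons]
        have := sz_bool y
        omega)
  refine this.congr fun A _ x => ?_
  rw [← nrm_eq, nrm, List.foldl_reverse]

/-- computable in polynomial time, values in binary -/
def BTf (𝒜 : Set Orc) (f : Orc → α → ℕ) : Prop := PTf 𝒜 (fun A x => Nat.bits (f A x))

theorem BTf.congr {f g : Orc → α → ℕ} (hf : BTf 𝒜 f) (h : ∀ A ∈ 𝒜, ∀ x, f A x = g A x) :
    BTf 𝒜 g :=
  PTf.congr hf fun A hA x => by rw [h A hA x]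

theorem BTf.ofBits {f : Orc → α → List Bool} (hf : PTf 𝒜 f) : BTf 𝒜 (fun A x => bv (f A x)) :=
  ptf_nrm hf

theorem BTf.comp {g : Orc → β → ℕ} {f : Orc → α → β} (hg : BTf 𝒜 g) (hf : PTf 𝒜 f) :
    BTf 𝒜 (fun A x => g A (f A x)) :=
  PTf.comp (g := fun A x => Nat.bits (g A x)) hg hf

theorem BTf.const (n : ℕ) : BTf 𝒜 (fun _ (_ : α) => n) := PTf.const (Nat.bits n)

theorem BTf.ite {p : Orc → α → Bool} {f g : Orc → α → ℕ} (hp : PTf 𝒜 p) (hf : BTf 𝒜 f)
    (hg : BTf 𝒜 g) : BTf 𝒜 (fun A x => if p A x = true then f A x else g A x) :=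
  (PTf.ite hp hf hg).congr fun A _ x => by
    simp only
    split_ifs <;> rfl

theorem BTf.ifP {p : Orc → α → Prop} [∀ A x, Decidable (p A x)] {f g : Orc → α → ℕ}
    (hp : PTf 𝒜 (fun A x => decide (p A x))) (hf : BTf 𝒜 f)
    (hg : BTf 𝒜 g) : BTf 𝒜 (fun A x => if p A x then f A x else g A x) :=
  (BTf.ite hp hf hg).congr fun A _ x => by simp only [decide_eq_true_eq]

/-- the number of digits is polynomially bounded -/
theorem BTf.pb {f : Orc → α → ℕ} (hf : BTf 𝒜 f) : PB 𝒜 (fun A x => (Nat.bits (f A x)).length) :=
  (PB.sz hf).mono fun A _ x => length_le_sz _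

/-! ### doubling -/

/-- `2 n + b` -/
theorem BTf.bit {f : Orc → α → ℕ} {b : Orc → α → Bool} (hf : BTf 𝒜 f) (hb : PTf 𝒜 b) :
    BTf 𝒜 (fun A x => (b A x).toNat + 2 * f A x) := by
  have h := ptf_nrm (hb.cons hf)
  refine PTf.congr h fun A _ x => ?_
  rw [bv, bv_bits]

/-! ### addition -/

/-- one step of the addition; state: carry, rest of the second number, output reversed -/
def addS (s : Bool × List Bool × List Bool) (a : Bool) : Bool × List Bool × List Bool :=
  ((a && s.2.1.headD false) || (s.1 && (a || s.2.1.headD false)), s.2.1.tail,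
    ((a ^^ s.2.1.headD false) ^^ s.1) :: s.2.2)

theorem bv_head_tail (v : List Bool) : bv v = (v.headD false).toNat + 2 * bv v.tail := by
  cases v <;> simp [bv]

theorem addS_inv (U : List Bool) : ∀ (c : Bool) (v out : List Bool),
    let s := U.foldl addS (c, v, out)
    bv s.2.2.reverse + 2 ^ s.2.2.length * (s.1.toNat + bv s.2.1) =
        bv out.reverse + 2 ^ out.length * (c.toNat + bv U + bv v) ∧
      s.2.2.length = out.length + U.length ∧ s.2.1 = v.drop U.length := by
  induction U with
  | nil => intro c v out; simp [bv]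
  | cons a U ih =>
    intro c v out
    rw [List.foldl_cons]
    have h := ih ((a && v.headD false) || (c && (a || v.headD false))) v.tail
      (((a ^^ v.headD false) ^^ c) :: out)
    simp only at h ⊢
    have e1 : addS (c, v, out) a = ((a && v.headD false) || (c && (a || v.headD false)), v.tail,
      ((a ^^ v.headD false) ^^ c) :: out) := rfl
    rw [e1]
    refine ⟨?_, ?_, ?_⟩
    · rw [h.1, List.reverse_cons, bv_append, List.length_reverse, List.length_cons, pow_succ,
        bv_head_tail v]
      have h2 : (c.toNat + bv (a :: U) + ((v.headD false).toNat + 2 * bv v.tail)) =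
          bv [((a ^^ v.headD false) ^^ c)] +
          2 * (((a && v.headD false) || (c && (a || v.headD false))).toNat + bv U + bv v.tail) := by
        rw [bv, bv, bv]
        cases a <;> cases c <;> cases (v.headD false) <;> simp <;> omega
      rw [h2]
      ring
    · rw [h.2.1, List.length_cons, List.length_cons]; omega
    · rw [h.2.2, List.length_cons, List.drop_tail]

/-- addition of binary words -/
def badd (u v : List Bool) : List Bool :=
  let s := (u ++ List.replicate v.length false).foldl addS (false, v, [])
  s.2.2.reverse ++ [s.1]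

theorem bv_badd (u v : List Bool) : bv (badd u v) = bv u + bv v := by
  have h := addS_inv (u ++ List.replicate v.length false) false v []
  simp only at h
  unfold badd
  simp only
  rw [bv_append, List.length_reverse]
  have h3 : ((u ++ List.replicate v.length false).foldl addS (false, v, [])).2.1 = [] := by
    rw [h.2.2]
    apply List.drop_eq_nil_of_le
    simp
  rw [h3] at h
  have h4 := h.1
  rw [bv_append, bv_replicate] at h4
  simp only [bv, Nat.add_zero, Nat.mul_zero, List.reverse_nil, List.length_nil, pow_zero,
    Nat.one_mul, Bool.toNat_false, Nat.zero_add] at h4 ⊢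
  exact h4

theorem ptf_addS : PTf 𝒜 (fun _ (p : α × (Bool × List Bool × List Bool) × Bool) =>
    addS p.2.1 p.2.2) := by
  have ha : PTf 𝒜 (fun _ (p : α × (Bool × List Bool × List Bool) × Bool) => p.2.2) :=
    PTf.id.snd.snd
  have hb : PTf 𝒜 (fun _ (p : α × (Bool × List Bool × List Bool) × Bool) =>
      p.2.1.2.1.headD false) := PTf.id.snd.fst.snd.fst.headD (PTf.const false)
  have hc : PTf 𝒜 (fun _ (p : α × (Bool × List Bool × List Bool) × Bool) => p.2.1.1) :=
    PTf.id.snd.fst.fst
  exact ((ha.band hb).bor (hc.band (ha.bor hb))).pair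
    (PTf.id.snd.fst.snd.fst.tail.pair ((ptf_xor (ptf_xor ha hb) hc).cons
      PTf.id.snd.fst.snd.snd))

theorem sz_tail (v : List Bool) : sz v.tail ≤ sz v := by
  cases v with
  | nil => exact le_rfl
  | cons b v => rw [sz_cons]; simp only [List.tail_cons]; omega

theorem ptf_badd {f g : Orc → α → List Bool} (hf : PTf 𝒜 f) (hg : PTf 𝒜 g) :
    PTf 𝒜 (fun A x => badd (f A x) (g A x)) := by
  have h := PTf.foldl_grow (l := fun A x => f A x ++ List.replicate (g A x).length false)
    (h := fun A x => (false, g A x, ([] : List Bool)))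
    (g := fun _ (_ : α) s a => addS s a)
    (hf.append (hg.length.replicate (PTf.const false)))
    ((PTf.const false).pair (hg.pair (PTf.const [])))
    ptf_addS (d := fun _ _ => 8) (PB.const 8) (by
      intro A _ x s y _
      unfold addS
      rw [sz_pair, sz_pair, sz_cons]
      have e1 : sz s = sz s.1 + (sz s.2.1 + sz s.2.2 + 1) + 1 := rfl
      rw [e1]
      have h1 := sz_bool ((y && s.2.1.headD false) || (s.1 && (y || s.2.1.headD false)))
      have h2 := sz_bool ((y ^^ s.2.1.headD false) ^^ s.1)
      have h3 := sz_tail s.2.1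
      have h4 := sz_pos s.1
      omega)
  exact h.snd.snd.reverse.append (h.fst.cons (PTf.const []))

theorem BTf.add {f g : Orc → α → ℕ} (hf : BTf 𝒜 f) (hg : BTf 𝒜 g) :
    BTf 𝒜 (fun A x => f A x + g A x) := by
  refine BTf.congr (BTf.ofBits (ptf_badd hf hg)) fun A _ x => ?_
  rw [bv_badd, bv_bits, bv_bits]

/-! ### subtraction -/

/-- one step of the subtraction; state: borrow, rest of the second number, output reversed -/
def subS (s : Bool × List Bool × List Bool) (a : Bool) : Bool × List Bool × List Bool :=
  ((!a && (s.2.1.headD false || s.1)) || (s.2.1.headD false && s.1), s.2.1.tail,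
    ((a ^^ s.2.1.headD false) ^^ s.1) :: s.2.2)

theorem subS_inv (U : List Bool) : ∀ (c : Bool) (v out : List Bool),
    let s := U.foldl subS (c, v, out)
    bv s.2.2.reverse + 2 ^ out.length * (c.toNat + bv v) =
        bv out.reverse + 2 ^ out.length * bv U + 2 ^ s.2.2.length * (s.1.toNat + bv s.2.1) ∧
      s.2.2.length = out.length + U.length ∧ s.2.1 = v.drop U.length := by
  induction U with
  | nil => intro c v out; simp [bv]
  | cons a U ih =>
    intro c v out
    rw [List.foldl_cons]
    have h := ih ((!a && (v.headD false || c)) || (v.headD false && c)) v.tail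
      (((a ^^ v.headD false) ^^ c) :: out)
    simp only at h ⊢
    have e1 : subS (c, v, out) a = ((!a && (v.headD false || c)) || (v.headD false && c), v.tail,
      ((a ^^ v.headD false) ^^ c) :: out) := rfl
    rw [e1]
    refine ⟨?_, ?_, ?_⟩
    · have h1 := h.1
      rw [List.reverse_cons, bv_append, List.length_reverse, List.length_cons, pow_succ] at h1
      rw [bv_head_tail v]
      have h2 : bv (a :: U) + 2 * (((!a && (v.headD false || c)) || (v.headD false && c)).toNat +
          bv v.tail) = bv [((a ^^ v.headD false) ^^ c)] + 2 * bv U +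
          (c.toNat + ((v.headD false).toNat + 2 * bv v.tail)) := by
        rw [bv, bv, bv]
        cases a <;> cases c <;> cases (v.headD false) <;> simp <;> omega
      have h3 : 2 ^ out.length * (bv (a :: U) +
          2 * (((!a && (v.headD false || c)) || (v.headD false && c)).toNat + bv v.tail)) =
          2 ^ out.length * (bv [((a ^^ v.headD false) ^^ c)] + 2 * bv U +
          (c.toNat + ((v.headD false).toNat + 2 * bv v.tail))) := by rw [h2]
      simp only [Nat.mul_add] at h1 h3 ⊢
      have e2 : 2 ^ out.length * 2 *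
          ((!a && (v.headD false || c)) || (v.headD false && c)).toNat =
          2 ^ out.length * (2 *
          ((!a && (v.headD false || c)) || (v.headD false && c)).toNat) := by ring
      have e3 : 2 ^ out.length * 2 * bv v.tail = 2 ^ out.length * (2 * bv v.tail) := by ring
      have e4 : 2 ^ out.length * 2 * bv U = 2 ^ out.length * (2 * bv U) := by ring
      rw [e2, e3, e4] at h1
      omega
    · rw [h.2.1, List.length_cons, List.length_cons]; omega
    · rw [h.2.2, List.length_cons, List.drop_tail]

/-- subtraction of binary words: borrow and difference modulo a power of two -/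
def bsubS (u v : List Bool) : Bool × List Bool × List Bool :=
  (u ++ List.replicate v.length false).foldl subS (false, v, [])

theorem bsubS_spec (u v : List Bool) :
    bv (bsubS u v).2.2.reverse + bv v =
      bv u + 2 ^ (u.length + v.length) * (bsubS u v).1.toNat ∧
    bv (bsubS u v).2.2.reverse < 2 ^ (u.length + v.length) := by
  have h := subS_inv (u ++ List.replicate v.length false) false v []
  simp only at h
  have h3 : ((u ++ List.replicate v.length false).foldl subS (false, v, [])).2.1 = [] := by
    rw [h.2.2]
    apply List.drop_eq_nil_of_le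
    simp
  have h4 := h.1
  have h5 := h.2.1
  rw [h3, bv_append, bv_replicate] at h4
  have e : (bsubS u v) = (u ++ List.replicate v.length false).foldl subS (false, v, []) := rfl
  rw [← e] at h4 h5
  rw [List.length_append, List.length_replicate, List.length_nil, Nat.zero_add] at h5
  rw [h5] at h4
  simp only [bv, Nat.add_zero, Nat.mul_zero, List.reverse_nil, List.length_nil, pow_zero,
    Nat.one_mul, Bool.toNat_false, Nat.zero_add] at h4
  refine ⟨h4, ?_⟩
  have := bv_lt (bsubS u v).2.2.reverse
  rwa [List.length_reverse, h5] at this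

theorem bsubS_lt (u v : List Bool) : (bsubS u v).1 = decide (bv u < bv v) := by
  have h := bsubS_spec u v
  have hu : bv u < 2 ^ (u.length + v.length) :=
    lt_of_lt_of_le (bv_lt u) (Nat.pow_le_pow_right (by norm_num) (by omega))
  have hv : bv v < 2 ^ (u.length + v.length) :=
    lt_of_lt_of_le (bv_lt v) (Nat.pow_le_pow_right (by norm_num) (by omega))
  cases hb : (bsubS u v).1 with
  | false =>
    rw [hb] at h
    symm
    apply decide_eq_false
    simp only [Bool.toNat_false, Nat.mul_zero] at h
    omega
  | true =>
    rw [hb] at h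
    symm
    apply decide_eq_true
    simp only [Bool.toNat_true, Nat.mul_one] at h
    omega

theorem ptf_subS : PTf 𝒜 (fun _ (p : α × (Bool × List Bool × List Bool) × Bool) =>
    subS p.2.1 p.2.2) := by
  have ha : PTf 𝒜 (fun _ (p : α × (Bool × List Bool × List Bool) × Bool) => p.2.2) :=
    PTf.id.snd.snd
  have hb : PTf 𝒜 (fun _ (p : α × (Bool × List Bool × List Bool) × Bool) =>
      p.2.1.2.1.headD false) := PTf.id.snd.fst.snd.fst.headD (PTf.const false)
  have hc : PTf 𝒜 (fun _ (p : α × (Bool × List Bool × List Bool) × Bool) => p.2.1.1) :=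
    PTf.id.snd.fst.fst
  exact ((ha.bnot.band (hb.bor hc)).bor (hb.band hc)).pair
    (PTf.id.snd.fst.snd.fst.tail.pair ((ptf_xor (ptf_xor ha hb) hc).cons
      PTf.id.snd.fst.snd.snd))

theorem ptf_bsubS {f g : Orc → α → List Bool} (hf : PTf 𝒜 f) (hg : PTf 𝒜 g) :
    PTf 𝒜 (fun A x => bsubS (f A x) (g A x)) := by
  exact PTf.foldl_grow (l := fun A x => f A x ++ List.replicate (g A x).length false)
    (h := fun A x => (false, g A x, ([] : List Bool)))
    (g := fun _ (_ : α) s a => subS s a)
    (hf.append (hg.length.replicate (PTf.const false)))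
    ((PTf.const false).pair (hg.pair (PTf.const [])))
    ptf_subS (d := fun _ _ => 8) (PB.const 8) (by
      intro A _ x s y _
      unfold subS
      rw [sz_pair, sz_pair, sz_cons]
      have e1 : sz s = sz s.1 + (sz s.2.1 + sz s.2.2 + 1) + 1 := rfl
      rw [e1]
      have h1 := sz_bool ((!y && (s.2.1.headD false || s.1)) || (s.2.1.headD false && s.1))
      have h2 := sz_bool ((y ^^ s.2.1.headD false) ^^ s.1)
      have h3 := sz_tail s.2.1
      have h4 := sz_pos s.1
      omega)

/-- comparison in binary -/
theorem BTf.lt {f g : Orc → α → ℕ} (hf : BTf 𝒜 f) (hg : BTf 𝒜 g) :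
    PTf 𝒜 (fun A x => decide (f A x < g A x)) :=
  (ptf_bsubS hf hg).fst.congr fun A _ x => by rw [bsubS_lt, bv_bits, bv_bits]

theorem BTf.le {f g : Orc → α → ℕ} (hf : BTf 𝒜 f) (hg : BTf 𝒜 g) :
    PTf 𝒜 (fun A x => decide (f A x ≤ g A x)) :=
  (BTf.lt hg hf).bnot.congr fun A _ x => by
    by_cases h : f A x ≤ g A x
    · simp [h]
    · simp [h]; omega

theorem BTf.eq {f g : Orc → α → ℕ} (hf : BTf 𝒜 f) (hg : BTf 𝒜 g) :
    PTf 𝒜 (fun A x => decide (f A x = g A x)) :=
  ((BTf.le hf hg).band (BTf.le hg hf)).congr fun A _ x => by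
    by_cases h : f A x = g A x
    · simp [h]
    · simp only [h, decide_false, Bool.and_eq_false_iff, decide_eq_false_iff_not]
      omega

/-- truncated subtraction -/
theorem BTf.sub {f g : Orc → α → ℕ} (hf : BTf 𝒜 f) (hg : BTf 𝒜 g) :
    BTf 𝒜 (fun A x => f A x - g A x) := by
  have h := ptf_bsubS hf hg
  refine BTf.congr (BTf.ite (BTf.lt hf hg) (BTf.const 0) (BTf.ofBits h.snd.snd.reverse))
    fun A _ x => ?_
  have hs := bsubS_spec (Nat.bits (f A x)) (Nat.bits (g A x))
  have hl := bsubS_lt (Nat.bits (f A x)) (Nat.bits (g A x))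
  rw [bv_bits, bv_bits] at hs hl
  by_cases hlt : f A x < g A x
  · simp only [hlt, decide_true, if_true]
    omega
  · simp only [hlt, decide_false, Bool.false_eq_true, if_false]
    rw [hl] at hs
    simp only [hlt, decide_false, Bool.toNat_false, Nat.mul_zero] at hs
    omega

end Bin

end Pool.Agent.TRI
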