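import Pool.Agent.TRI.Bin1

/-!
Binary arithmetic in the calculus of polynomial-time functions, part 2: iteration, multiplication,
division, sums, powers, binomial coefficients, digits.
-/

namespace Pool.Agent.TRI

namespace Bin

open Pool.Agent.LibComplexity Function

variable {𝒜 : Set Orc} {α β γ τ : Type} [Enc α] [Enc β] [Enc γ] [Enc τ]

/-- iteration over a list, for a state of type `σ` represented by objects of type `τ` -/
theorem foldl_rep {σ : Type} (rep : σ → τ) (abs : τ → σ) (hra : ∀ s, abs (rep s) = s)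
    {l : Orc → α → List β} {h : Orc → α → σ} {g : Orc → α → σ → β → σ} (hl : PTf 𝒜 l)
    (hh : PTf 𝒜 (fun A x => rep (h A x)))
    (hg : PTf 𝒜 (fun A (p : α × τ × β) => rep (g A p.1 (abs p.2.1) p.2.2)))
    {b : Orc → α → ℕ} (hb : PB 𝒜 b)
    (hb' : ∀ A ∈ 𝒜, ∀ x, ∀ k, sz (rep (((l A x).take k).foldl (g A x) (h A x))) ≤ b A x) :
    PTf 𝒜 (fun A x => rep ((l A x).foldl (g A x) (h A x))) := by
  have key : ∀ A x (L : List β) (s : σ),
      L.foldl (fun t y => rep (g A x (abs t) y)) (rep s) = rep (L.foldl (g A x) s) := by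
    intro A x L
    induction L with
    | nil => intro s; rfl
    | cons y L ih => intro s; rw [List.foldl_cons, List.foldl_cons, hra, ih]
  have := PTf.foldl (g := fun A x t y => rep (g A x (abs t) y)) hl hh hg hb
    (fun A hA x k => by rw [key]; exact hb' A hA x k)
  exact this.congr fun A _ x => key _ _ _ _

/-- the size of a number in binary -/
theorem sz_bits_le {n k : ℕ} (h : n < 2 ^ k) : sz (Nat.bits n) ≤ 4 * k + 1 := by
  have h1 := sz_word_le (Nat.bits n)
  have h2 := len_bits_pow h
  omega

/-- iteration over a list, for numbers in binary -/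
theorem BTf.foldl {l : Orc → α → List β} {h : Orc → α → ℕ} {g : Orc → α → ℕ → β → ℕ}
    (hl : PTf 𝒜 l) (hh : BTf 𝒜 h)
    (hg : BTf 𝒜 (fun A (p : α × List Bool × β) => g A p.1 (bv p.2.1) p.2.2))
    {b : Orc → α → ℕ} (hb : PB 𝒜 b)
    (hb' : ∀ A ∈ 𝒜, ∀ x, ∀ k, ((l A x).take k).foldl (g A x) (h A x) < 2 ^ b A x) :
    BTf 𝒜 (fun A x => (l A x).foldl (g A x) (h A x)) :=
  foldl_rep Nat.bits bv bv_bits hl hh hg (b := fun A x => 4 * b A x + 1)
    (((PB.const 4).mul hb).add (PB.const 1)) (fun A hA x k => sz_bits_le (hb' A hA x k))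

/-- iteration, for numbers in binary; the number of rounds in unary -/
theorem BTf.iter {n : Orc → α → ℕ} {h : Orc → α → ℕ} {g : Orc → α → ℕ → ℕ → ℕ}
    (hn : PTf 𝒜 n) (hh : BTf 𝒜 h)
    (hg : BTf 𝒜 (fun A (p : α × List Bool × ℕ) => g A p.1 (bv p.2.1) p.2.2))
    {b : Orc → α → ℕ} (hb : PB 𝒜 b)
    (hb' : ∀ A ∈ 𝒜, ∀ x, ∀ k ≤ n A x, (List.range k).foldl (g A x) (h A x) < 2 ^ b A x) :
    BTf 𝒜 (fun A x => (List.range (n A x)).foldl (g A x) (h A x)) :=
  BTf.foldl hn.range hh hg hb (fun A hA x k => by
    rw [List.take_range]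
    exact hb' A hA x _ (min_le_right _ _))

/-! ### numbers in unary -/

/-- conversion from unary to binary -/
theorem BTf.ofNat {f : Orc → α → ℕ} (hf : PTf 𝒜 f) : BTf 𝒜 f := by
  have key : ∀ n, (List.range n).foldl (fun s (_ : ℕ) => s + 1) 0 = n := by
    intro n
    induction n with
    | zero => rfl
    | succ n ih => rw [List.range_succ, List.foldl_append, ih]; rfl
  have := BTf.iter (g := fun _ (_ : α) s _ => s + 1) hf (BTf.const 0)
    (BTf.add (BTf.ofBits PTf.id.snd.fst) (BTf.const 1)) (PB.nat hf) (by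
      intro A _ x k hk
      rw [key]
      exact lt_of_lt_of_le Nat.lt_two_pow_self (Nat.pow_le_pow_right (by norm_num) hk))
  exact this.congr fun A _ x => key _

/-- powers of two, exponent in unary -/
theorem BTf.two_pow {f : Orc → α → ℕ} (hf : PTf 𝒜 f) : BTf 𝒜 (fun A x => 2 ^ f A x) := by
  have h : PTf 𝒜 (fun A x => List.replicate (f A x) false ++ [true]) :=
    (hf.replicate (PTf.const false)).append (PTf.const [true])
  refine (BTf.ofBits h).congr fun A _ x => ?_
  rw [bv_append, bv_replicate, List.length_replicate]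
  simp [bv]

/-- conversion from binary to unary, with a bound in unary -/
theorem toUnary {f : Orc → α → ℕ} {u : Orc → α → ℕ} (hf : BTf 𝒜 f) (hu : PTf 𝒜 u) :
    PTf 𝒜 (fun A x => min (f A x) (u A x)) := by
  have key : ∀ (F n : ℕ), (List.range n).foldl (fun s (_ : ℕ) => if s < F then s + 1 else s) 0 =
      min F n := by
    intro F n
    induction n with
    | zero => simp
    | succ n ih =>
      rw [List.range_succ, List.foldl_append, ih, List.foldl_cons, List.foldl_nil]
      split_ifs <;> omega
  have := PTf.foldl (l := fun A x => List.range (u A x)) (h := fun _ (_ : α) => 0)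
    (g := fun A x s (_ : ℕ) => if s < f A x then s + 1 else s)
    hu.range (PTf.const 0)
    (PTf.ifP (p := fun A (p : α × ℕ × ℕ) => p.2.1 < f A p.1)
      (BTf.lt (BTf.ofNat PTf.id.snd.fst) (hf.comp PTf.id.fst)) PTf.id.snd.fst.succ PTf.id.snd.fst)
    (b := fun A x => 2 * u A x + 1) (((PB.const 2).mul (PB.nat hu)).add (PB.const 1)) (by
      intro A _ x k
      rw [List.take_range, key, sz_nat]
      have := min_le_right (f A x) (min k (u A x))
      have := min_le_right k (u A x)
      omega)
  exact this.congr fun A _ x => key _ _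

/-! ### multiplication -/

theorem foldl_mul (v : ℕ) (w : List Bool) :
    w.reverse.foldl (fun s b => (if b = true then v else 0) + 2 * s) 0 = bv w * v := by
  rw [List.foldl_reverse]
  induction w with
  | nil => simp [bv]
  | cons b w ih =>
    rw [List.foldr_cons, ih, bv]
    cases b
    · simp; ring
    · simp; ring

theorem take_reverse (w : List Bool) (k : ℕ) :
    w.reverse.take k = (w.drop (w.length - k)).reverse := by
  rw [List.take_reverse]

theorem bv_drop_le (w : List Bool) (k : ℕ) : bv (w.drop k) ≤ bv w := by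
  have h := bv_append (w.take k) (w.drop k)
  rw [List.take_append_drop] at h
  rw [h]
  have : 1 ≤ 2 ^ (w.take k).length := Nat.one_le_two_pow
  nlinarith

theorem BTf.mul {f g : Orc → α → ℕ} (hf : BTf 𝒜 f) (hg : BTf 𝒜 g) :
    BTf 𝒜 (fun A x => f A x * g A x) := by
  have h := BTf.foldl (l := fun A x => (Nat.bits (f A x)).reverse) (h := fun _ (_ : α) => 0)
    (g := fun A x s (b : Bool) => (if b = true then g A x else 0) + 2 * s)
    (PTf.reverse hf) (BTf.const 0)
    (BTf.add (BTf.ite (p := fun _ (p : α × List Bool × Bool) => p.2.2) PTf.id.snd.snd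
        (hg.comp PTf.id.fst) (BTf.const 0))
      ((BTf.bit (BTf.ofBits (𝒜 := 𝒜) (f := fun _ (p : α × List Bool × Bool) => p.2.1)
        PTf.id.snd.fst) (PTf.const false)).congr fun A _ x => by simp))
    (b := fun A x => (Nat.bits (f A x)).length + (Nat.bits (g A x)).length)
    (hf.pb.add hg.pb) (by
      intro A _ x k
      rw [take_reverse, foldl_mul]
      have h1 : bv ((Nat.bits (f A x)).drop ((Nat.bits (f A x)).length - k)) ≤ f A x := by
        have := bv_drop_le (Nat.bits (f A x)) ((Nat.bits (f A x)).length - k)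
        rwa [bv_bits] at this
      have h2 := lt_two_pow_bits (f A x)
      have h3 := lt_two_pow_bits (g A x)
      rw [pow_add]
      exact Nat.mul_lt_mul_of_lt_of_le (lt_of_le_of_lt h1 h2) h3.le (by positivity))
  exact h.congr fun A _ x => by rw [foldl_mul, bv_bits]

/-- powers, exponent in unary -/
theorem BTf.pow {f n : Orc → α → ℕ} (hf : BTf 𝒜 f) (hn : PTf 𝒜 n) :
    BTf 𝒜 (fun A x => f A x ^ n A x) := by
  have key : ∀ (v n : ℕ), (List.range n).foldl (fun s (_ : ℕ) => s * v) 1 = v ^ n := by
    intro v n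
    induction n with
    | zero => rfl
    | succ n ih =>
      rw [List.range_succ, List.foldl_append, ih, List.foldl_cons, List.foldl_nil, pow_succ]
  have := BTf.iter (g := fun A x s _ => s * f A x) hn (BTf.const 1)
    (BTf.mul (BTf.ofBits PTf.id.snd.fst) (hf.comp PTf.id.fst))
    (b := fun A x => ((Nat.bits (f A x)).length + 1) * n A x + 1)
    (((hf.pb.add (PB.const 1)).mul (PB.nat hn)).add (PB.const 1)) (by
      intro A _ x k hk
      rw [key]
      have h1 : f A x < 2 ^ ((Nat.bits (f A x)).length + 1) :=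
        lt_of_lt_of_le (lt_two_pow_bits _) (Nat.pow_le_pow_right (by norm_num) (by omega))
      calc f A x ^ k ≤ (2 ^ ((Nat.bits (f A x)).length + 1)) ^ k := Nat.pow_le_pow_left h1.le _
        _ = 2 ^ (((Nat.bits (f A x)).length + 1) * k) := by rw [← pow_mul]
        _ ≤ 2 ^ (((Nat.bits (f A x)).length + 1) * n A x) :=
          Nat.pow_le_pow_right (by norm_num) (Nat.mul_le_mul_left _ hk)
        _ < 2 ^ (((Nat.bits (f A x)).length + 1) * n A x + 1) :=
          Nat.pow_lt_pow_right (by norm_num) (by omega))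
  exact this.congr fun A _ x => key _ _

/-! ### division -/

/-- one step of the division by `v`; state: quotient, remainder -/
def divS (v : ℕ) (s : ℕ × ℕ) (b : Bool) : ℕ × ℕ :=
  if v ≤ b.toNat + 2 * s.2 then (1 + 2 * s.1, b.toNat + 2 * s.2 - v)
  else (2 * s.1, b.toNat + 2 * s.2)

theorem divS_inv (v : ℕ) (hv : 0 < v) (w : List Bool) :
    (w.reverse.foldl (divS v) (0, 0)).1 = bv w / v ∧
      (w.reverse.foldl (divS v) (0, 0)).2 = bv w % v := by
  have key : (w.reverse.foldl (divS v) (0, 0)).2 < v ∧
      v * (w.reverse.foldl (divS v) (0, 0)).1 + (w.reverse.foldl (divS v) (0, 0)).2 = bv w := by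
    rw [List.foldl_reverse]
    induction w with
    | nil => simp [bv, hv]
    | cons b w ih =>
      rw [List.foldr_cons]
      generalize List.foldr (fun x y => divS v y x) (0, 0) w = s at ih
      obtain ⟨q, t⟩ := s
      simp only at ih
      have hb := Bool.toNat_le b
      rw [bv, ← ih.2]
      unfold divS
      simp only
      split_ifs with h
      · simp only
        refine ⟨by omega, ?_⟩
        have : v * (1 + 2 * q) = v + 2 * (v * q) := by ring
        omega
      · simp only
        refine ⟨by omega, ?_⟩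
        have : v * (2 * q) = 2 * (v * q) := by ring
        omega
  generalize w.reverse.foldl (divS v) (0, 0) = s at key
  have h1 : bv w / v = s.1 := by
    rw [← key.2, Nat.mul_add_div hv, Nat.div_eq_of_lt key.1, Nat.add_zero]
  have h2 : bv w % v = s.2 := by
    rw [← key.2, Nat.mul_add_mod, Nat.mod_eq_of_lt key.1]
  exact ⟨h1.symm, h2.symm⟩

theorem ptf_divmod {f g : Orc → α → ℕ} (hf : BTf 𝒜 f) (hg : BTf 𝒜 g) :
    PTf 𝒜 (fun A x => (Nat.bits ((Nat.bits (f A x)).reverse.foldl
      (divS (max 1 (g A x))) (0, 0)).1, Nat.bits ((Nat.bits (f A x)).reverse.foldl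
      (divS (max 1 (g A x))) (0, 0)).2)) := by
  have hg1 : BTf 𝒜 (fun A x => max 1 (g A x)) := by
    refine (BTf.ifP (BTf.le (BTf.const 1) hg) hg (BTf.const 1)).congr fun A _ x => ?_
    split_ifs with h
    · exact (max_eq_right h).symm
    · exact (max_eq_left (by omega)).symm
  refine foldl_rep (τ := List Bool × List Bool) (fun s : ℕ × ℕ => (Nat.bits s.1, Nat.bits s.2))
    (fun t => (bv t.1, bv t.2)) (fun s => by simp [bv_bits])
    (l := fun A x => (Nat.bits (f A x)).reverse) (h := fun _ _ => (0, 0))
    (g := fun A x => divS (max 1 (g A x))) (PTf.reverse hf) (PTf.const _) ?_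
    (b := fun A x => (4 * (Nat.bits (f A x)).length + 1) +
      (4 * ((Nat.bits (f A x)).length) + 1) + 1)
    (((((PB.const 4).mul hf.pb).add (PB.const 1)).add (((PB.const 4).mul hf.pb).add
      (PB.const 1))).add (PB.const 1)) ?_
  · have hr : BTf 𝒜 (fun A (p : α × (List Bool × List Bool) × Bool) =>
        p.2.2.toNat + 2 * bv p.2.1.2) :=
      BTf.bit (BTf.ofBits PTf.id.snd.fst.snd) PTf.id.snd.snd
    have hv : BTf 𝒜 (fun A (p : α × (List Bool × List Bool) × Bool) => max 1 (g A p.1)) :=
      hg1.comp PTf.id.fst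
    have hq0 : BTf 𝒜 (fun A (p : α × (List Bool × List Bool) × Bool) => 2 * bv p.2.1.1) :=
      (BTf.bit (BTf.ofBits PTf.id.snd.fst.fst) (PTf.const false)).congr fun A _ x => by simp
    have hq1 : BTf 𝒜 (fun A (p : α × (List Bool × List Bool) × Bool) => 1 + 2 * bv p.2.1.1) :=
      (BTf.bit (BTf.ofBits PTf.id.snd.fst.fst) (PTf.const true)).congr fun A _ x => by simp
    refine (PTf.ifP (p := fun A (p : α × (List Bool × List Bool) × Bool) =>
      max 1 (g A p.1) ≤ p.2.2.toNat + 2 * bv p.2.1.2) (BTf.le hv hr)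
      (PTf.pair hq1 (BTf.sub hr hv)) (PTf.pair hq0 hr)).congr fun A _ x => ?_
    unfold divS
    simp only
    split_ifs <;> rfl
  · intro A _ x k
    rw [take_reverse]
    have h := divS_inv (max 1 (g A x)) (by omega)
      ((Nat.bits (f A x)).drop ((Nat.bits (f A x)).length - k))
    rw [sz_pair, h.1, h.2]
    have h1 : bv ((Nat.bits (f A x)).drop ((Nat.bits (f A x)).length - k)) ≤ f A x := by
      have := bv_drop_le (Nat.bits (f A x)) ((Nat.bits (f A x)).length - k)
      rwa [bv_bits] at this
    have h2 := lt_two_pow_bits (f A x)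
    have h3 := sz_bits_le (k := (Nat.bits (f A x)).length)
      (lt_of_le_of_lt ((Nat.div_le_self _ (max 1 (g A x))).trans h1) h2)
    have h4 := sz_bits_le (k := (Nat.bits (f A x)).length)
      (lt_of_le_of_lt ((Nat.mod_le _ (max 1 (g A x))).trans h1) h2)
    omega

/-- division in binary -/
theorem BTf.div {f g : Orc → α → ℕ} (hf : BTf 𝒜 f) (hg : BTf 𝒜 g) :
    BTf 𝒜 (fun A x => f A x / g A x) := by
  have h : BTf 𝒜 _ := (ptf_divmod hf hg).fst
  refine (BTf.ifP (BTf.le (BTf.const 1) hg) h (BTf.const 0)).congr fun A _ x => ?_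
  split_ifs with h1
  · rw [(divS_inv _ (by omega) _).1, bv_bits, max_eq_right h1]
  · have : g A x = 0 := by omega
    rw [this, Nat.div_zero]

/-- remainder in binary -/
theorem BTf.mod {f g : Orc → α → ℕ} (hf : BTf 𝒜 f) (hg : BTf 𝒜 g) :
    BTf 𝒜 (fun A x => f A x % g A x) := by
  refine (BTf.sub hf (BTf.mul hg (BTf.div hf hg))).congr fun A _ x => ?_
  have := Nat.div_add_mod (f A x) (g A x)
  omega

/-! ### sums, digits, binomial coefficients -/

/-- the sum of a list of numbers in binary -/
theorem BTf.sum {l : Orc → α → List (List Bool)} (hl : PTf 𝒜 l) :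
    BTf 𝒜 (fun A x => ((l A x).map bv).sum) := by
  have key : ∀ (L : List (List Bool)) (s : ℕ), L.foldl (fun s w => s + bv w) s =
      s + (L.map bv).sum := by
    intro L
    induction L with
    | nil => intro s; simp
    | cons w L ih => intro s; rw [List.foldl_cons, ih, List.map_cons, List.sum_cons]; ring
  have hsum : ∀ L : List (List Bool), (L.map bv).sum < 2 ^ sz L := by
    intro L
    induction L with
    | nil => simp
    | cons w L ih =>
      rw [List.map_cons, List.sum_cons, sz_cons]
      have h1 := bv_lt w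
      have h2 := length_le_sz w
      have h3 : 2 ^ w.length ≤ 2 ^ (sz w + sz L) := Nat.pow_le_pow_right (by norm_num) (by omega)
      have h4 : 2 ^ sz L ≤ 2 ^ (sz w + sz L) := Nat.pow_le_pow_right (by norm_num) (by omega)
      rw [pow_succ]
      omega
  have hsz : ∀ (L : List (List Bool)) k, sz (L.take k) ≤ sz L := by
    intro L k
    have h := sz_append (L.take k) (L.drop k)
    rw [List.take_append_drop] at h
    have := sz_pos (L.drop k)
    omega
  have := BTf.foldl (g := fun _ (_ : α) s (w : List Bool) => s + bv w) hl (BTf.const 0)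
    (BTf.add (BTf.ofBits PTf.id.snd.fst) (BTf.ofBits PTf.id.snd.snd)) (PB.sz hl) (by
      intro A _ x k
      rw [key, Nat.zero_add]
      exact lt_of_lt_of_le (hsum _) (Nat.pow_le_pow_right (by norm_num) (hsz _ _)))
  exact this.congr fun A _ x => by rw [key, Nat.zero_add]

/-- the sum of a list of numbers in binary -/
theorem BTf.sum' {l : Orc → α → List β} {g : Orc → α → β → ℕ} (hl : PTf 𝒜 l)
    (hg : BTf 𝒜 (fun A (p : α × β) => g A p.1 p.2)) :
    BTf 𝒜 (fun A x => ((l A x).map (g A x)).sum) := by
  refine (BTf.sum (hl.map (g := fun A x y => Nat.bits (g A x y)) hg)).congr fun A _ x => ?_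
  rw [List.map_map]
  congr 1
  apply List.map_congr_left
  intro y _
  exact bv_bits _

theorem testBit_bv (w : List Bool) (i : ℕ) : (bv w).testBit i = w.getD i false := by
  induction w generalizing i with
  | nil => simp [bv]
  | cons b w ih =>
    rw [bv]
    cases i with
    | zero =>
      rw [Nat.testBit_zero, List.getD_cons_zero]
      cases b
      · simp
      · simp [Nat.add_mod]
    | succ i =>
      rw [Nat.testBit_succ, List.getD_cons_succ, ← ih]
      congr 1
      have := Bool.toNat_le b
      omega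

theorem testBit_bits (n i : ℕ) : n.testBit i = (Nat.bits n).getD i false := by
  rw [← testBit_bv, bv_bits]

/-- digits of a number in binary, the index in unary -/
theorem BTf.testBit {f i : Orc → α → ℕ} (hf : BTf 𝒜 f) (hi : PTf 𝒜 i) :
    PTf 𝒜 (fun A x => (f A x).testBit (i A x)) :=
  (PTf.listGetD hf hi (PTf.const false)).congr fun A _ x => by rw [testBit_bits]

/-- binomial coefficients, the arguments in unary -/
theorem BTf.choose {n k : Orc → α → ℕ} (hn : PTf 𝒜 n) (hk : PTf 𝒜 k) :
    BTf 𝒜 (fun A x => (n A x).choose (k A x)) := by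
  have key : ∀ (n k : ℕ), (List.range k).foldl (fun s i => s * (n - i) / (i + 1)) 1 =
      n.choose k := by
    intro n k
    induction k with
    | zero => simp
    | succ k ih =>
      rw [List.range_succ, List.foldl_append, ih, List.foldl_cons, List.foldl_nil,
        ← Nat.choose_succ_right_eq, Nat.mul_div_cancel _ (by omega)]
  have := BTf.iter (g := fun A x s i => s * (n A x - i) / (i + 1)) hk (BTf.const 1)
    (BTf.div (BTf.mul (BTf.ofBits PTf.id.snd.fst)
      (BTf.ofNat ((hn.comp PTf.id.fst).sub PTf.id.snd.snd))) (BTf.ofNat PTf.id.snd.snd.succ))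
    (b := fun A x => n A x + 1) ((PB.nat hn).add (PB.const 1)) (by
      intro A _ x j _
      rw [key]
      refine lt_of_le_of_lt (Nat.choose_le_two_pow _ _) ?_
      exact Nat.pow_lt_pow_right (by norm_num) (by omega))
  exact this.congr fun A _ x => key _ _

/-- factorials, the argument in unary -/
theorem BTf.factorial {n : Orc → α → ℕ} (hn : PTf 𝒜 n) :
    BTf 𝒜 (fun A x => Nat.factorial (n A x)) := by
  have key : ∀ (n : ℕ), (List.range n).foldl (fun s i => s * (i + 1)) 1 = Nat.factorial n := by
    intro n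
    induction n with
    | zero => simp
    | succ n ih =>
      rw [List.range_succ, List.foldl_append, ih, List.foldl_cons, List.foldl_nil,
        Nat.factorial_succ, mul_comm]
  have := BTf.iter (g := fun A (_ : α) s i => s * (i + 1)) hn (BTf.const 1)
    (BTf.mul (BTf.ofBits PTf.id.snd.fst) (BTf.ofNat PTf.id.snd.snd.succ))
    (b := fun A x => n A x * n A x + 1) (((PB.nat hn).mul (PB.nat hn)).add (PB.const 1)) (by
      intro A _ x j hj
      rw [key]
      calc Nat.factorial j ≤ j ^ j := Nat.factorial_le_pow j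
        _ ≤ (2 ^ n A x) ^ j := Nat.pow_le_pow_left (hj.trans Nat.lt_two_pow_self.le) _
        _ ≤ (2 ^ n A x) ^ n A x := Nat.pow_le_pow_right (Nat.two_pow_pos _) hj
        _ = 2 ^ (n A x * n A x) := by rw [← pow_mul]
        _ < 2 ^ (n A x * n A x + 1) := Nat.pow_lt_pow_right (by norm_num) (by omega))
  exact this.congr fun A _ x => key _

end Bin

end Pool.Agent.TRI
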