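import Pool.Agent.TRI.Bin2

/-!
Binary arithmetic in the calculus of polynomial-time functions, part 3: integers.
-/

namespace Pool.Agent.TRI

namespace Bin

open Pool.Agent.LibComplexity Function

variable {𝒜 : Set Orc} {α β γ τ : Type} [Enc α] [Enc β] [Enc γ] [Enc τ]

/-- representation of integers: sign (`true` for negative numbers) and absolute value in binary -/
def zrep (z : ℤ) : Bool × List Bool := (decide (z < 0), Nat.bits z.natAbs)

/-- the integer represented by a pair -/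
def zval (p : Bool × List Bool) : ℤ := if p.1 then -(bv p.2 : ℤ) else bv p.2

theorem zval_zrep (z : ℤ) : zval (zrep z) = z := by
  unfold zval zrep
  simp only [bv_bits, decide_eq_true_eq]
  split_ifs with h <;> omega

/-- computable in polynomial time, integer values in binary -/
def ZTf (𝒜 : Set Orc) (f : Orc → α → ℤ) : Prop := PTf 𝒜 (fun A x => zrep (f A x))

theorem ZTf.congr {f g : Orc → α → ℤ} (hf : ZTf 𝒜 f) (h : ∀ A ∈ 𝒜, ∀ x, f A x = g A x) :
    ZTf 𝒜 g :=
  PTf.congr hf fun A hA x => by rw [h A hA x]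

theorem ZTf.comp {g : Orc → β → ℤ} {f : Orc → α → β} (hg : ZTf 𝒜 g) (hf : PTf 𝒜 f) :
    ZTf 𝒜 (fun A x => g A (f A x)) :=
  PTf.comp (g := fun A x => zrep (g A x)) hg hf

theorem ZTf.const (z : ℤ) : ZTf 𝒜 (fun _ (_ : α) => z) := PTf.const (zrep z)

/-- sign and absolute value give an integer -/
theorem ZTf.mk {p : Orc → α → Bool} {m : Orc → α → ℕ} (hp : PTf 𝒜 p) (hm : BTf 𝒜 m) :
    ZTf 𝒜 (fun A x => if p A x = true then -(m A x : ℤ) else m A x) := by
  have h : PTf 𝒜 (fun A x => (p A x && decide (0 < m A x), Nat.bits (m A x))) :=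
    (hp.band (BTf.lt (BTf.const 0) hm)).pair hm
  refine PTf.congr h fun A _ x => ?_
  unfold zrep
  have e1 : (if p A x = true then -(m A x : ℤ) else m A x).natAbs = m A x := by
    split_ifs <;> omega
  rw [e1]
  congr 1
  change (p A x && decide (0 < m A x)) =
    decide ((if p A x = true then -(m A x : ℤ) else m A x) < 0)
  by_cases hpx : p A x = true
  · rw [if_pos hpx, hpx]
    by_cases h : 0 < m A x
    · simp [h]
    · simp [h]
  · rw [if_neg hpx, (Bool.not_eq_true _).mp hpx]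
    simp

theorem ZTf.ofNat {f : Orc → α → ℕ} (hf : BTf 𝒜 f) : ZTf 𝒜 (fun A x => (f A x : ℤ)) :=
  (ZTf.mk (PTf.const false) hf).congr fun A _ x => by simp

/-- the integer represented by a word -/
theorem ZTf.zval {f : Orc → α → Bool × List Bool} (hf : PTf 𝒜 f) :
    ZTf 𝒜 (fun A x => Bin.zval (f A x)) :=
  (ZTf.mk hf.fst (BTf.ofBits hf.snd)).congr fun A _ x => by rfl

theorem ZTf.natAbs {f : Orc → α → ℤ} (hf : ZTf 𝒜 f) : BTf 𝒜 (fun A x => (f A x).natAbs) :=
  PTf.snd hf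

theorem ZTf.neg? {f : Orc → α → ℤ} (hf : ZTf 𝒜 f) : PTf 𝒜 (fun A x => decide (f A x < 0)) :=
  PTf.fst hf

theorem ZTf.toNat {f : Orc → α → ℤ} (hf : ZTf 𝒜 f) : BTf 𝒜 (fun A x => (f A x).toNat) :=
  (BTf.ifP hf.neg? (BTf.const 0) hf.natAbs).congr fun A _ x => by
    split_ifs with h <;> omega

theorem ZTf.ite {p : Orc → α → Bool} {f g : Orc → α → ℤ} (hp : PTf 𝒜 p) (hf : ZTf 𝒜 f)
    (hg : ZTf 𝒜 g) : ZTf 𝒜 (fun A x => if p A x = true then f A x else g A x) :=
  (PTf.ite hp hf hg).congr fun A _ x => by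
    simp only
    split_ifs <;> rfl

theorem ZTf.ifP {p : Orc → α → Prop} [∀ A x, Decidable (p A x)] {f g : Orc → α → ℤ}
    (hp : PTf 𝒜 (fun A x => decide (p A x))) (hf : ZTf 𝒜 f)
    (hg : ZTf 𝒜 g) : ZTf 𝒜 (fun A x => if p A x then f A x else g A x) :=
  (ZTf.ite hp hf hg).congr fun A _ x => by simp only [decide_eq_true_eq]

theorem ZTf.neg {f : Orc → α → ℤ} (hf : ZTf 𝒜 f) : ZTf 𝒜 (fun A x => -f A x) :=
  (ZTf.mk hf.neg?.bnot hf.natAbs).congr fun A _ x => by
    by_cases h : f A x < 0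
    · simp [h]; omega
    · simp [h]; omega

/-- difference of two natural numbers -/
theorem ZTf.natSub {f g : Orc → α → ℕ} (hf : BTf 𝒜 f) (hg : BTf 𝒜 g) :
    ZTf 𝒜 (fun A x => (f A x : ℤ) - g A x) :=
  (ZTf.mk (BTf.lt hf hg) (BTf.add (BTf.sub hf hg) (BTf.sub hg hf))).congr fun A _ x => by
    simp only [decide_eq_true_eq]
    split_ifs with h <;> omega

theorem ZTf.add {f g : Orc → α → ℤ} (hf : ZTf 𝒜 f) (hg : ZTf 𝒜 g) :
    ZTf 𝒜 (fun A x => f A x + g A x) := by
  have h1 := ZTf.natSub (BTf.add hf.toNat hg.toNat) (BTf.add hf.neg.toNat hg.neg.toNat)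
  refine h1.congr fun A _ x => ?_
  push_cast
  omega

theorem ZTf.sub {f g : Orc → α → ℤ} (hf : ZTf 𝒜 f) (hg : ZTf 𝒜 g) :
    ZTf 𝒜 (fun A x => f A x - g A x) :=
  (hf.add hg.neg).congr fun A _ x => by ring

theorem ZTf.mul {f g : Orc → α → ℤ} (hf : ZTf 𝒜 f) (hg : ZTf 𝒜 g) :
    ZTf 𝒜 (fun A x => f A x * g A x) := by
  refine (ZTf.mk (ptf_xor hf.neg? hg.neg?) (BTf.mul hf.natAbs hg.natAbs)).congr fun A _ x => ?_
  push_cast
  by_cases h1 : f A x < 0
  · by_cases h2 : g A x < 0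
    · simp only [h1, h2, decide_true, Bool.xor_self, Bool.false_eq_true, if_false]
      rw [abs_of_neg h1, abs_of_neg h2]; ring
    · simp only [h1, h2, decide_true, decide_false, Bool.xor_false, if_true]
      rw [abs_of_neg h1, abs_of_nonneg (by omega)]; ring
  · by_cases h2 : g A x < 0
    · simp only [h1, h2, decide_true, decide_false, Bool.false_xor, if_true]
      rw [abs_of_neg h2, abs_of_nonneg (show 0 ≤ f A x by omega)]; ring
    · simp only [h1, h2, decide_false, Bool.xor_self, Bool.false_eq_true, if_false]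
      rw [abs_of_nonneg (show 0 ≤ f A x by omega), abs_of_nonneg (show 0 ≤ g A x by omega)]

theorem ZTf.lt {f g : Orc → α → ℤ} (hf : ZTf 𝒜 f) (hg : ZTf 𝒜 g) :
    PTf 𝒜 (fun A x => decide (f A x < g A x)) :=
  (hf.sub hg).neg?.congr fun A _ x => by
    apply decide_eq_decide.2
    omega

theorem ZTf.le {f g : Orc → α → ℤ} (hf : ZTf 𝒜 f) (hg : ZTf 𝒜 g) :
    PTf 𝒜 (fun A x => decide (f A x ≤ g A x)) :=
  (ZTf.lt hg hf).bnot.congr fun A _ x => by
    by_cases h : f A x ≤ g A x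
    · simp [h]
    · simp [h]; omega

theorem ZTf.eq {f g : Orc → α → ℤ} (hf : ZTf 𝒜 f) (hg : ZTf 𝒜 g) :
    PTf 𝒜 (fun A x => decide (f A x = g A x)) :=
  ((ZTf.le hf hg).band (ZTf.le hg hf)).congr fun A _ x => by
    by_cases h : f A x = g A x
    · simp [h]
    · simp only [h, decide_false, Bool.and_eq_false_iff, decide_eq_false_iff_not]
      omega

/-- integer division of a nonnegative number by a natural number -/
theorem ZTf.div {f : Orc → α → ℤ} {g : Orc → α → ℤ} (hf : ZTf 𝒜 f) (hg : ZTf 𝒜 g)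
    (h0 : ∀ A ∈ 𝒜, ∀ x, 0 ≤ f A x) (h1 : ∀ A ∈ 𝒜, ∀ x, 0 ≤ g A x) :
    ZTf 𝒜 (fun A x => f A x / g A x) :=
  (ZTf.ofNat (BTf.div hf.natAbs hg.natAbs)).congr fun A hA x => by
    push_cast
    rw [abs_of_nonneg (h0 A hA x), abs_of_nonneg (h1 A hA x)]

/-- the sum of a list of integers -/
theorem ZTf.sum' {l : Orc → α → List β} {g : Orc → α → β → ℤ} (hl : PTf 𝒜 l)
    (hg : ZTf 𝒜 (fun A (p : α × β) => g A p.1 p.2)) :
    ZTf 𝒜 (fun A x => ((l A x).map (g A x)).sum) := by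
  have h1 := BTf.sum' (g := fun A x y => (g A x y).toNat) hl hg.toNat
  have h2 := BTf.sum' (g := fun A x y => (-g A x y).toNat) hl hg.neg.toNat
  refine (ZTf.natSub h1 h2).congr fun A _ x => ?_
  generalize l A x = L
  induction L with
  | nil => simp
  | cons y L ih =>
    simp only [List.map_cons, List.sum_cons]
    rw [← ih]
    push_cast
    omega

/-- powers of `-1` -/
theorem ZTf.neg_one_pow {n : Orc → α → ℕ} (hn : PTf 𝒜 n) :
    ZTf 𝒜 (fun A x => (-1) ^ n A x) := by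
  have h : PTf 𝒜 (fun A x => (n A x).testBit 0) := BTf.testBit (BTf.ofNat hn) (PTf.const 0)
  refine (ZTf.ite h (ZTf.const (-1)) (ZTf.const 1)).congr fun A _ x => ?_
  rw [Nat.testBit_zero]
  simp only [decide_eq_true_eq]
  split_ifs with h
  · exact (Odd.neg_one_pow (Nat.odd_iff.2 h)).symm
  · exact (Even.neg_one_pow (Nat.even_iff.2 (by omega))).symm

/-- powers, exponent in unary -/
theorem ZTf.pow {f : Orc → α → ℤ} {n : Orc → α → ℕ} (hf : ZTf 𝒜 f) (hn : PTf 𝒜 n) :
    ZTf 𝒜 (fun A x => f A x ^ n A x) := by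
  have h : PTf 𝒜 (fun A x => (n A x).testBit 0) := BTf.testBit (BTf.ofNat hn) (PTf.const 0)
  refine (ZTf.mk (h.band hf.neg?) (BTf.pow hf.natAbs hn)).congr fun A _ x => ?_
  push_cast
  rw [Nat.testBit_zero]
  by_cases h0 : f A x < 0
  · rw [abs_of_neg h0]
    by_cases h1 : n A x % 2 = 1
    · simp only [h0, h1, decide_true, Bool.and_self, if_true]
      rw [Odd.neg_pow (Nat.odd_iff.2 h1)]
      ring
    · simp only [h0, h1, decide_true, decide_false, Bool.false_and, Bool.false_eq_true, if_false]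
      rw [Even.neg_pow (Nat.even_iff.2 (by omega))]
  · rw [abs_of_nonneg (by omega)]
    simp [h0]

end Bin

end Pool.Agent.TRI
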