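import Pool.Agent.TRI.Bin3

/-!
Binary arithmetic in the calculus of polynomial-time functions, part 4: rational numbers. `RTf 𝒜 h`:
the real number `h A x` is rational, numerator and denominator can be computed in binary in
polynomial time.
-/

namespace Pool.Agent.TRI

namespace Bin

open Pool.Agent.LibComplexity Function

variable {𝒜 : Set Orc} {α β γ τ : Type} [Enc α] [Enc β] [Enc γ] [Enc τ]

/-- computable in polynomial time, rational values in binary -/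
def RTf (𝒜 : Set Orc) (h : Orc → α → ℝ) : Prop :=
  ∃ (z : Orc → α → ℤ) (d : Orc → α → ℕ), ZTf 𝒜 z ∧ BTf 𝒜 d ∧
    ∀ A ∈ 𝒜, ∀ x, 0 < d A x ∧ h A x = (z A x : ℝ) / (d A x : ℝ)

theorem natAbs_neg {z : ℤ} (h : z < 0) : ((z.natAbs : ℕ) : ℝ) = -(z : ℝ) := by
  have h1 : ((z.natAbs : ℕ) : ℤ) = -z := by omega
  rw [← Int.cast_natCast, h1, Int.cast_neg]

theorem natAbs_nonneg {z : ℤ} (h : ¬ z < 0) : ((z.natAbs : ℕ) : ℝ) = (z : ℝ) := by
  have h1 : ((z.natAbs : ℕ) : ℤ) = z := by omega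
  rw [← Int.cast_natCast, h1]

namespace RTf

theorem congr {f g : Orc → α → ℝ} (hf : RTf 𝒜 f) (h : ∀ A ∈ 𝒜, ∀ x, f A x = g A x) :
    RTf 𝒜 g := by
  obtain ⟨z, d, hz, hd, hh⟩ := hf
  exact ⟨z, d, hz, hd, fun A hA x => ⟨(hh A hA x).1, (h A hA x) ▸ (hh A hA x).2⟩⟩

theorem comp {g : Orc → β → ℝ} {f : Orc → α → β} (hg : RTf 𝒜 g) (hf : PTf 𝒜 f) :
    RTf 𝒜 (fun A x => g A (f A x)) := by
  obtain ⟨z, d, hz, hd, hh⟩ := hg
  exact ⟨_, _, hz.comp hf, hd.comp hf, fun A hA x => hh A hA (f A x)⟩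

theorem ofZ {f : Orc → α → ℤ} (hf : ZTf 𝒜 f) : RTf 𝒜 (fun A x => (f A x : ℝ)) :=
  ⟨f, fun _ _ => 1, hf, BTf.const 1, fun A _ x => ⟨Nat.one_pos, by simp⟩⟩

theorem ofB {f : Orc → α → ℕ} (hf : BTf 𝒜 f) : RTf 𝒜 (fun A x => (f A x : ℝ)) :=
  (ofZ (ZTf.ofNat hf)).congr fun A _ x => by simp

/-- numbers in unary -/
theorem ofU {f : Orc → α → ℕ} (hf : PTf 𝒜 f) : RTf 𝒜 (fun A x => (f A x : ℝ)) :=
  ofB (BTf.ofNat hf)

theorem int (z : ℤ) : RTf 𝒜 (fun _ (_ : α) => (z : ℝ)) := ofZ (ZTf.const z)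

theorem nat (n : ℕ) : RTf 𝒜 (fun _ (_ : α) => (n : ℝ)) := ofU (PTf.const n)

theorem one : RTf 𝒜 (fun _ (_ : α) => (1 : ℝ)) := (nat 1).congr fun _ _ _ => by simp

theorem zero : RTf 𝒜 (fun _ (_ : α) => (0 : ℝ)) := (nat 0).congr fun _ _ _ => by simp

theorem ofNat (n : ℕ) [n.AtLeastTwo] : RTf 𝒜 (fun _ (_ : α) => (OfNat.ofNat n : ℝ)) :=
  (nat n).congr fun _ _ _ => rfl

theorem neg {f : Orc → α → ℝ} (hf : RTf 𝒜 f) : RTf 𝒜 (fun A x => -f A x) := by
  obtain ⟨z, d, hz, hd, hh⟩ := hf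
  refine ⟨fun A x => -z A x, d, hz.neg, hd, fun A hA x => ⟨(hh A hA x).1, ?_⟩⟩
  beta_reduce
  rw [(hh A hA x).2]
  push_cast
  ring

theorem add {f g : Orc → α → ℝ} (hf : RTf 𝒜 f) (hg : RTf 𝒜 g) :
    RTf 𝒜 (fun A x => f A x + g A x) := by
  obtain ⟨z, d, hz, hd, hh⟩ := hf
  obtain ⟨z', d', hz', hd', hh'⟩ := hg
  refine ⟨fun A x => z A x * (d' A x : ℤ) + z' A x * (d A x : ℤ), fun A x => d A x * d' A x,
    (hz.mul (ZTf.ofNat hd')).add (hz'.mul (ZTf.ofNat hd)), hd.mul hd', fun A hA x => ?_⟩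
  have h1 := hh A hA x
  have h2 := hh' A hA x
  refine ⟨Nat.mul_pos h1.1 h2.1, ?_⟩
  have e1 : (d A x : ℝ) ≠ 0 := by exact_mod_cast h1.1.ne'
  have e2 : (d' A x : ℝ) ≠ 0 := by exact_mod_cast h2.1.ne'
  beta_reduce
  rw [h1.2, h2.2]
  push_cast
  field_simp

theorem sub {f g : Orc → α → ℝ} (hf : RTf 𝒜 f) (hg : RTf 𝒜 g) :
    RTf 𝒜 (fun A x => f A x - g A x) :=
  (hf.add hg.neg).congr fun A _ x => by ring

theorem mul {f g : Orc → α → ℝ} (hf : RTf 𝒜 f) (hg : RTf 𝒜 g) :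
    RTf 𝒜 (fun A x => f A x * g A x) := by
  obtain ⟨z, d, hz, hd, hh⟩ := hf
  obtain ⟨z', d', hz', hd', hh'⟩ := hg
  refine ⟨fun A x => z A x * z' A x, fun A x => d A x * d' A x, hz.mul hz', hd.mul hd',
    fun A hA x => ?_⟩
  have h1 := hh A hA x
  have h2 := hh' A hA x
  refine ⟨Nat.mul_pos h1.1 h2.1, ?_⟩
  beta_reduce
  rw [h1.2, h2.2]
  push_cast
  rw [div_mul_div_comm]

theorem ite {p : Orc → α → Bool} {f g : Orc → α → ℝ} (hp : PTf 𝒜 p) (hf : RTf 𝒜 f)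
    (hg : RTf 𝒜 g) : RTf 𝒜 (fun A x => if p A x = true then f A x else g A x) := by
  obtain ⟨z, d, hz, hd, hh⟩ := hf
  obtain ⟨z', d', hz', hd', hh'⟩ := hg
  refine ⟨_, _, ZTf.ite hp hz hz', BTf.ite hp hd hd', fun A hA x => ?_⟩
  have h1 := hh A hA x
  have h2 := hh' A hA x
  by_cases h : p A x = true
  · simp only [h, if_true]
    exact h1
  · simp only [h]
    exact h2

theorem ifP {p : Orc → α → Prop} [∀ A x, Decidable (p A x)] {f g : Orc → α → ℝ}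
    (hp : PTf 𝒜 (fun A x => decide (p A x))) (hf : RTf 𝒜 f)
    (hg : RTf 𝒜 g) : RTf 𝒜 (fun A x => if p A x then f A x else g A x) :=
  (ite hp hf hg).congr fun A _ x => by simp only [decide_eq_true_eq]

theorem inv {f : Orc → α → ℝ} (hf : RTf 𝒜 f) : RTf 𝒜 (fun A x => (f A x)⁻¹) := by
  obtain ⟨z, d, hz, hd, hh⟩ := hf
  refine ⟨fun A x => if z A x < 0 then -(d A x : ℤ) else if z A x = 0 then 0 else (d A x : ℤ),
    fun A x => if z A x = 0 then 1 else (z A x).natAbs,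
    ZTf.ifP (hz.lt (ZTf.const 0)) (ZTf.ofNat hd).neg
      (ZTf.ifP (hz.eq (ZTf.const 0)) (ZTf.const 0) (ZTf.ofNat hd)),
    BTf.ifP (hz.eq (ZTf.const 0)) (BTf.const 1) hz.natAbs, fun A hA x => ?_⟩
  have h1 := hh A hA x
  beta_reduce
  rw [h1.2]
  by_cases h0 : z A x = 0
  · simp [h0]
  · refine ⟨by simp only [h0, if_false]; exact Int.natAbs_pos.2 h0, ?_⟩
    by_cases h2 : z A x < 0
    · simp only [h2, h0, if_true, if_false]
      rw [natAbs_neg h2]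
      push_cast
      rw [inv_div, neg_div_neg_eq]
    · simp only [h2, h0, if_false]
      rw [natAbs_nonneg h2]
      push_cast
      rw [inv_div]

theorem div {f g : Orc → α → ℝ} (hf : RTf 𝒜 f) (hg : RTf 𝒜 g) :
    RTf 𝒜 (fun A x => f A x / g A x) :=
  (hf.mul hg.inv).congr fun A _ x => by rw [div_eq_mul_inv]

/-- powers, exponent in unary -/
theorem pow {f : Orc → α → ℝ} {n : Orc → α → ℕ} (hf : RTf 𝒜 f) (hn : PTf 𝒜 n) :
    RTf 𝒜 (fun A x => f A x ^ n A x) := by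
  obtain ⟨z, d, hz, hd, hh⟩ := hf
  refine ⟨fun A x => z A x ^ n A x, fun A x => d A x ^ n A x, hz.pow hn, hd.pow hn,
    fun A hA x => ?_⟩
  have h1 := hh A hA x
  refine ⟨pow_pos h1.1 _, ?_⟩
  beta_reduce
  rw [h1.2, div_pow]
  push_cast
  rfl

/-- comparison -/
theorem decide_lt {f g : Orc → α → ℝ} [∀ A x, Decidable (f A x < g A x)] (hf : RTf 𝒜 f)
    (hg : RTf 𝒜 g) : PTf 𝒜 (fun A x => decide (f A x < g A x)) := by
  obtain ⟨z, d, hz, hd, hh⟩ := hf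
  obtain ⟨z', d', hz', hd', hh'⟩ := hg
  have h := (hz.mul (ZTf.ofNat hd')).lt (hz'.mul (ZTf.ofNat hd))
  refine h.congr fun A hA x => decide_eq_decide.2 ?_
  have h1 := hh A hA x
  have h2 := hh' A hA x
  have e1 : (0 : ℝ) < d A x := by exact_mod_cast h1.1
  have e2 : (0 : ℝ) < d' A x := by exact_mod_cast h2.1
  rw [h1.2, h2.2, div_lt_div_iff₀ e1 e2]
  exact_mod_cast Iff.rfl

theorem decide_le {f g : Orc → α → ℝ} [∀ A x, Decidable (f A x ≤ g A x)] (hf : RTf 𝒜 f)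
    (hg : RTf 𝒜 g) : PTf 𝒜 (fun A x => decide (f A x ≤ g A x)) := by
  classical
  refine (hg.decide_lt hf).bnot.congr fun A _ x => ?_
  by_cases h : f A x ≤ g A x
  · have h' : ¬ g A x < f A x := not_lt.2 h
    simp [h]
  · have h' : g A x < f A x := not_le.1 h
    simp only [h, decide_false, Bool.not_eq_false', decide_eq_true_eq]
    exact h'

theorem decide_eq {f g : Orc → α → ℝ} [∀ A x, Decidable (f A x = g A x)] (hf : RTf 𝒜 f)
    (hg : RTf 𝒜 g) : PTf 𝒜 (fun A x => decide (f A x = g A x)) := by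
  classical
  refine ((hf.decide_le hg).band (hg.decide_le hf)).congr fun A _ x => ?_
  by_cases h : f A x = g A x
  · simp [h]
  · simp only [h, decide_false, Bool.and_eq_false_iff, decide_eq_false_iff_not]
    by_contra hcon
    push Not at hcon
    exact h (le_antisymm hcon.1 hcon.2)

/-- the value of a triple: sign, numerator, denominator -/
theorem ofCoord {c : Orc → α → Bool × List Bool × List Bool} (hc : PTf 𝒜 c) :
    RTf 𝒜 (fun A x => (if (c A x).1 then -1 else 1) * (bv (c A x).2.1 : ℝ) /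
      (bv (c A x).2.2 : ℝ)) :=
  ((ite hc.fst (int (-1)) (int 1)).mul (ofB (BTf.ofBits hc.snd.fst))).div
    (ofB (BTf.ofBits hc.snd.snd)) |>.congr fun A _ x => by
      cases (c A x).1 <;> simp

/-- sign, numerator and denominator of a rational value -/
theorem toCoord {h : Orc → α → ℝ} (hh : RTf 𝒜 h) :
    ∃ c : Orc → α → Bool × List Bool × List Bool, PTf 𝒜 c ∧ ∀ A ∈ 𝒜, ∀ x,
      (if (c A x).1 then -1 else 1) * (bv (c A x).2.1 : ℝ) / (bv (c A x).2.2 : ℝ) = h A x := by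
  obtain ⟨z, d, hz, hd, hh⟩ := hh
  refine ⟨fun A x => (decide (z A x < 0), Nat.bits (z A x).natAbs, Nat.bits (d A x)),
    hz.neg?.pair (PTf.pair hz.natAbs hd), fun A hA x => ?_⟩
  rw [(hh A hA x).2, bv_bits, bv_bits]
  congr 1
  by_cases h : z A x < 0
  · simp only [h, decide_true, if_true]
    rw [natAbs_neg h]; ring
  · simp only [h, decide_false, Bool.false_eq_true, if_false]
    rw [natAbs_nonneg h]; ring

end RTf

end Bin

end Pool.Agent.TRI
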