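import Pool.Agent.TRI.Skel

/-!
Area C, combinatorial lemmas about skeletons.
-/

set_option linter.unusedSectionVars false

namespace Pool.Agent.TRI

namespace Skel

open Finset

variable {ν : Type} [DecidableEq ν] {K : Skel ν} {F : ℕ} {win : Finset ℕ} {ex : ℕ → ℕ}

/-- the gap `g` is covered by the interval `I` -/
def Cov (I : ℕ × ℕ) (g : ℕ) : Prop := I.1 ≤ g ∧ g < I.2

theorem mem_lf {g : ℕ} : g ∈ lf F win ↔ 0 < g ∧ g < F - 1 ∧ g ∉ win := by
  unfold lf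
  rw [mem_filter, mem_Ioo, and_assoc]

theorem mem_z {P : ν} {c : ℕ} : Nm.z P c ∈ K.names F win ↔ P ∈ K.nodes ∧ c ≤ K.s P := by
  unfold names
  simp only [mem_union, mem_biUnion, mem_image, mem_range, mem_erase, reduceCtorEq, and_false,
    exists_false, or_false, Nm.z.injEq]
  constructor
  · rintro ⟨Q, hQ, c', hc', rfl, rfl⟩
    exact ⟨hQ, by omega⟩
  · rintro ⟨h1, h2⟩
    exact ⟨P, h1, c, by omega, rfl, rfl⟩

theorem mem_q {g : ℕ} : (Nm.q g : Nm ν) ∈ K.names F win ↔ g ∈ lf F win := by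
  unfold names
  simp only [mem_union, mem_biUnion, mem_image, mem_range, mem_erase, reduceCtorEq, and_false,
    exists_false, false_or, or_false, Nm.q.injEq, exists_eq_right]

theorem mem_cap {Q : ν} : Nm.cap Q ∈ K.names F win ↔ Q ∈ K.nodes ∧ Q ≠ K.rt := by
  unfold names
  simp only [mem_union, mem_biUnion, mem_image, mem_range, mem_erase, reduceCtorEq, and_false,
    exists_false, false_or, Nm.cap.injEq, exists_eq_right]
  tauto

theorem Comb.b_le (hC : K.Comb F win ex) {P : ν} (hP : P ∈ K.nodes) : K.b P ≤ F := by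
  by_cases h : P = K.rt
  · rw [h, hC.b_rt]
  · exact (hC.ends P hP h).2.2.1.le

theorem Comb.a_lt_b (hC : K.Comb F win ex) {P : ν} (hP : P ∈ K.nodes) : K.a P < K.b P := by
  by_cases h : P = K.rt
  · rw [h, hC.b_rt, hC.a_rt]
    have := hC.three
    omega
  · have := (hC.ends P hP h).2.1
    omega

theorem Comb.asymm (hC : K.Comb F win ex) {P Q : ν} (h : K.Anc P Q) : ¬ K.Anc Q P := by
  intro h'
  have h1 := hC.dep_lt P Q h
  have h2 := hC.dep_lt Q P h'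
  omega

theorem Anc.trans (hC : K.Comb F win ex) {P Q S : ν} (h1 : K.Anc P Q) (h2 : K.Anc Q S) :
    K.Anc P S := by
  refine ⟨h1.1, h2.2.1, ?_, h1.2.2.2.1.trans h2.2.2.2.1, h2.2.2.2.2.trans h1.2.2.2.2⟩
  rintro rfl
  exact hC.asymm h1 h2

theorem Comb.not_anc_rt (hC : K.Comb F win ex) {P : ν} : ¬ K.Anc P K.rt := by
  intro h
  have h1 := hC.ends P h.1 h.2.2.1
  have h2 := h.2.2.2.1
  rw [hC.a_rt] at h2
  omega

theorem Comb.anc_rt (hC : K.Comb F win ex) {P : ν} (hP : P ∈ K.nodes) (hne : P ≠ K.rt) :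
    K.Anc K.rt P := by
  refine ⟨hC.rt_mem, hP, hne.symm, ?_, ?_⟩
  · rw [hC.a_rt]; exact Nat.zero_le _
  · rw [hC.b_rt]; exact hC.b_le hP

theorem Comb.par_mem (hC : K.Comb F win ex) {Q : ν} (hQ : Q ∈ K.nodes) (hne : Q ≠ K.rt) :
    K.par Q ∈ K.nodes := (hC.par_anc Q hQ hne).1.1

theorem Comb.anc_par (hC : K.Comb F win ex) {Q : ν} (hQ : Q ∈ K.nodes) (hne : Q ≠ K.rt) :
    K.Anc (K.par Q) Q := (hC.par_anc Q hQ hne).1

theorem Anc.ne_rt (hC : K.Comb F win ex) {P Q : ν} (h : K.Anc P Q) : Q ≠ K.rt := by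
  rintro rfl
  exact hC.not_anc_rt h

/-- a node covering the gap `g` is the owner of `g` or an ancestor of the owner -/
theorem Comb.own_or_anc (hC : K.Comb F win ex) {P : ν} (hP : P ∈ K.nodes) {g : ℕ}
    (h1 : K.a P ≤ g) (h2 : g < K.b P) : P = K.own g ∨ K.Anc P (K.own g) :=
  (hC.own_mem g (lt_of_lt_of_le h2 (hC.b_le hP))).2.2.2 P hP h1 h2

/-- a gap owned by `P` is not covered by a descendant of `P` -/
theorem Comb.own_not_cov (hC : K.Comb F win ex) {P Q : ν} (h : K.Anc P Q) {g : ℕ}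
    (ho : K.own g = P) : g < K.a Q ∨ K.b Q ≤ g := by
  by_contra hcon
  rw [not_or, not_lt, not_le] at hcon
  rcases hC.own_or_anc h.2.1 hcon.1 hcon.2 with h1 | h1
  · rw [ho] at h1
    exact h.2.2.1 h1.symm
  · rw [ho] at h1
    exact hC.asymm h h1

theorem Comb.own_zero (hC : K.Comb F win ex) : K.own 0 = K.rt := by
  have h3 := hC.three
  obtain ⟨h1, h2, _, _⟩ := hC.own_mem 0 (by omega)
  by_contra hne
  have := hC.ends _ h1 hne
  omega

theorem Comb.own_last (hC : K.Comb F win ex) : K.own (F - 1) = K.rt := by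
  have h3 := hC.three
  obtain ⟨h1, _, h2, _⟩ := hC.own_mem (F - 1) (by omega)
  by_contra hne
  have := hC.ends _ h1 hne
  omega

theorem Comb.cl_mem (hC : K.Comb F win ex) {w : Nm ν} (hw : w ∈ K.names F win) :
    K.cl w ∈ K.nodes := by
  cases w with
  | z P c => exact (mem_z.1 hw).1
  | q g =>
    have h := mem_lf.1 (mem_q.1 hw)
    exact (hC.own_mem g (by omega)).1
  | cap Q =>
    have h := mem_cap.1 hw
    exact hC.par_mem h.1 h.2

theorem Comb.lf_bd (hC : K.Comb F win ex) {g : ℕ} (hg : g ∈ lf F win) :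
    K.own g ∈ K.nodes ∧ K.a (K.own g) ≤ g ∧ g < K.b (K.own g) := by
  have h := mem_lf.1 hg
  have h2 := hC.own_mem g (by omega)
  exact ⟨h2.1, h2.2.1, h2.2.2.1⟩

/-- the facts about a window -/
theorem Comb.win_facts (hC : K.Comb F win ex) {w : ℕ} (hw : w ∈ win) :
    K.own w ∈ K.nodes ∧ K.own w ≠ K.rt ∧ K.own (w - 1) = K.own w ∧ K.own (w + 1) = K.own w ∧
      w - 1 ∈ lf F win ∧ w + 1 ∈ lf F win ∧ K.a (K.own w) + 2 ≤ w ∧ w + 3 ≤ K.b (K.own w) ∧
      w + 3 < F ∧ 3 ≤ w := by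
  have h0 := hC.win_lt w hw
  obtain ⟨h1, h2, h3, h4, h5, h6, h7, h8⟩ := hC.wins w hw
  have ho := (hC.own_mem w h0).1
  have hb := (hC.ends _ ho h1).2.2.1
  have ha := (hC.ends _ ho h1).1
  refine ⟨ho, h1, h2, h3, ?_, ?_, h6, h7, by omega, by omega⟩
  · rw [mem_lf]
    exact ⟨by omega, by omega, h4⟩
  · rw [mem_lf]
    exact ⟨by omega, by omega, h5⟩

/-- the leaves at the ends of a node -/
theorem Comb.a_lf (hC : K.Comb F win ex) {P : ν} (hP : P ∈ K.nodes) (hne : P ≠ K.rt) :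
    K.a P ∈ lf F win ∧ K.own (K.a P) = P ∧ K.b P - 1 ∈ lf F win ∧ K.own (K.b P - 1) = P := by
  obtain ⟨h1, h2, h3, h4, h5, h6, h7⟩ := hC.ends P hP hne
  refine ⟨mem_lf.2 ⟨h1, by omega, h5⟩, h4, mem_lf.2 ⟨by omega, by omega, h7⟩, h6⟩

/-- the gap on the left of a leaf gap -/
theorem Comb.left_gap (hC : K.Comb F win ex) {g : ℕ} (hg : g ∈ lf F win) :
    g - 1 ∈ win ∨ g = 1 ∨ (2 ≤ g ∧ g - 1 ∈ lf F win ∧ K.own (g - 1) = K.own g) ∨
      (K.own g ≠ K.rt ∧ K.a (K.own g) = g) ∨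
      ∃ Q ∈ K.nodes, Q ≠ K.rt ∧ K.par Q = K.own g ∧ K.b Q = g := by
  classical
  by_cases h1 : g - 1 ∈ win
  · exact Or.inl h1
  by_cases h2 : g = 1
  · exact Or.inr (Or.inl h2)
  have hl := mem_lf.1 hg
  obtain ⟨ho, ha, hb⟩ := hC.lf_bd hg
  obtain ⟨ho', ha', hb', -⟩ := hC.own_mem (g - 1) (by omega)
  by_cases h3 : K.own (g - 1) = K.own g
  · exact Or.inr (Or.inr (Or.inl ⟨by omega, mem_lf.2 ⟨by omega, by omega, h1⟩, h3⟩))
  by_cases h4 : K.own g ≠ K.rt ∧ K.a (K.own g) = g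
  · exact Or.inr (Or.inr (Or.inr (Or.inl h4)))
  have ha0 : K.a (K.own g) ≠ g := by
    intro h
    apply h4
    refine ⟨?_, h⟩
    intro h5
    rw [h5, hC.a_rt] at h
    omega
  -- the owner of `g - 1` is a child ending at `g`
  have hcov : K.a (K.own g) ≤ g - 1 ∧ g - 1 < K.b (K.own g) := by omega
  rcases hC.own_or_anc ho hcov.1 hcov.2 with h5 | h5
  · exact absurd h5.symm h3
  · have hne : K.own (g - 1) ≠ K.rt := h5.ne_rt hC
    have h6 := hC.own_not_cov h5 (g := g) rfl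
    have hbg : K.b (K.own (g - 1)) = g := by omega
    have h7 := (hC.outer _ ho' hne).2.2.1
    rw [hbg] at h7
    exact Or.inr (Or.inr (Or.inr (Or.inr ⟨K.own (g - 1), ho', hne, h7.symm, hbg⟩)))

/-- the gap on the right of a leaf gap -/
theorem Comb.right_gap (hC : K.Comb F win ex) {g : ℕ} (hg : g ∈ lf F win) :
    g + 1 ∈ win ∨ g + 1 = F - 1 ∨ (g + 1 ∈ lf F win ∧ K.own (g + 1) = K.own g) ∨
      (K.own g ≠ K.rt ∧ K.b (K.own g) = g + 1) ∨
      ∃ Q ∈ K.nodes, Q ≠ K.rt ∧ K.par Q = K.own g ∧ K.a Q = g + 1 := by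
  classical
  by_cases h1 : g + 1 ∈ win
  · exact Or.inl h1
  by_cases h2 : g + 1 = F - 1
  · exact Or.inr (Or.inl h2)
  have hl := mem_lf.1 hg
  obtain ⟨ho, ha, hb⟩ := hC.lf_bd hg
  obtain ⟨ho', ha', hb', -⟩ := hC.own_mem (g + 1) (by omega)
  by_cases h3 : K.own (g + 1) = K.own g
  · exact Or.inr (Or.inr (Or.inl ⟨mem_lf.2 ⟨by omega, by omega, h1⟩, h3⟩))
  by_cases h4 : K.own g ≠ K.rt ∧ K.b (K.own g) = g + 1
  · exact Or.inr (Or.inr (Or.inr (Or.inl h4)))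
  have ha0 : K.b (K.own g) ≠ g + 1 := by
    intro h
    apply h4
    refine ⟨?_, h⟩
    intro h5
    rw [h5, hC.b_rt] at h
    omega
  have hcov : K.a (K.own g) ≤ g + 1 ∧ g + 1 < K.b (K.own g) := by omega
  rcases hC.own_or_anc ho hcov.1 hcov.2 with h5 | h5
  · exact absurd h5.symm h3
  · have hne : K.own (g + 1) ≠ K.rt := h5.ne_rt hC
    have h6 := hC.own_not_cov h5 (g := g) rfl
    have hbg : K.a (K.own (g + 1)) = g + 1 := by omega
    have h7 := (hC.outer _ ho' hne).1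
    rw [hbg, Nat.add_sub_cancel] at h7
    exact Or.inr (Or.inr (Or.inr (Or.inr ⟨K.own (g + 1), ho', hne, h7.symm, hbg⟩)))

/-- the position of two different nodes: if `Q` is not an ancestor of `P`, then `P` is an
ancestor or they are disjoint -/
theorem Comb.children_disj (hC : K.Comb F win ex) {Q Q' : ν} (hQ : Q ∈ K.nodes)
    (hQ' : Q' ∈ K.nodes) (hne : Q ≠ K.rt) (hne' : Q' ≠ K.rt) (hQQ : Q ≠ Q')
    (hp : K.par Q = K.par Q') : K.b Q ≤ K.a Q' ∨ K.b Q' ≤ K.a Q := by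
  rcases hC.tree Q hQ Q' hQ' hQQ with h | h | h | h
  · exfalso
    rcases (hC.par_anc Q' hQ' hne').2 Q h with h1 | h1
    · have h2 := hC.anc_par hQ hne
      rw [hp, ← h1] at h2
      exact h2.2.2.1 rfl
    · have h2 := hC.anc_par hQ hne
      rw [hp] at h2
      exact hC.asymm h1 h2
  · exfalso
    rcases (hC.par_anc Q hQ hne).2 Q' h with h1 | h1
    · have h2 := hC.anc_par hQ' hne'
      rw [← hp, ← h1] at h2
      exact h2.2.2.1 rfl
    · have h2 := hC.anc_par hQ' hne'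
      rw [← hp] at h2
      exact hC.asymm h1 h2
  · exact Or.inl h
  · exact Or.inr h

end Skel

end Pool.Agent.TRI
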