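import Pool.Agent.TRI.C_TS

/-!
Area C, confinement. (helper45)
-/

set_option linter.unusedSectionVars false

namespace Pool.Agent.TRI

namespace Skel

open Finset

variable {ν : Type} [DecidableEq ν] {K : Skel ν} {F : ℕ} {win : Finset ℕ} {ex : ℕ → ℕ}
  {x : ℕ → ℝ} {D : Side (Nm ν)} {R : Nm ν → ℕ × ℕ}

theorem cap_sub (hC : K.Comb F win ex) (hG : K.Geo F win x D) (hR : IsTS D F x R)
    {P : ν} (hP : P ∈ K.nodes) (hne : P ≠ K.rt)
    (hconf : ∀ Q ∈ K.nodes, K.dep Q < K.dep P → K.Conf F win R Q) :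
    Cov (R (.cap P)) (K.a P) ∧ K.a P ≤ (R (.cap P)).1 ∧ (R (.cap P)).2 ≤ K.b P := by
  have hF : 0 < F := by have := hC.three; omega
  have hanc := hC.anc_par hP hne
  have hpm := hC.par_mem hP hne
  have hconf' : ∀ Q ∈ K.nodes, K.dep Q < K.dep (K.par P) → K.Conf F win R Q :=
    fun Q hQ h => hconf Q hQ (h.trans (hC.dep_lt _ _ hanc))
  have hcov := cov_cap hC hG hR hpm hconf' hP hne rfl
  have hcap : (Nm.cap P : Nm ν) ∈ K.names F win := mem_cap.2 ⟨hP, hne⟩
  have hcapI := hG.mem_I.2 hcap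
  have hbd := hR.bd _ hcapI (by rw [hG.top_eq]; simp)
  obtain ⟨e1, e2, e3, -⟩ := hC.ends P hP hne
  obtain ⟨o1, o2, o3, o4⟩ := hC.outer P hP hne
  refine ⟨hcov, ?_, ?_⟩
  · by_cases h1 : K.a P = 1
    · omega
    · have hg : K.a P - 1 ∈ lf F win := mem_lf.2 ⟨by omega, by omega, o2⟩
      have hc2 := cov_q hC hG hR hpm hconf' hg o1
      have hq : (Nm.q (K.a P - 1) : Nm ν) ∈ D.I := hG.mem_I.2 (mem_q.2 hg)
      have hs := hG.same_qc _ hg P hP hne o1
      rcases hR.same _ hq _ hcapI (by simp) hs with h | h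
      · have := hcov.2; have := hc2.1; omega
      · have := hc2.2; omega
  · by_cases h1 : K.b P = F - 1
    · omega
    · have hg : K.b P ∈ lf F win := mem_lf.2 ⟨by omega, by omega, o4⟩
      have hc2 := cov_q hC hG hR hpm hconf' hg o3
      have hq : (Nm.q (K.b P) : Nm ν) ∈ D.I := hG.mem_I.2 (mem_q.2 hg)
      have hs := hG.same_qc _ hg P hP hne o3
      rcases hR.same _ hq _ hcapI (by simp) hs with h | h
      · have := hc2.1; omega
      · have := hcov.1; have := hc2.2; omega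

theorem conf_step (hC : K.Comb F win ex) (hG : K.Geo F win x D) (hR : IsTS D F x R)
    {P : ν} (hP : P ∈ K.nodes) (hne : P ≠ K.rt)
    (hconf : ∀ Q ∈ K.nodes, K.dep Q < K.dep P → K.Conf F win R Q) :
    K.Conf F win R P ∧ R (.z P 0) = (K.a P, K.b P) ∧ R (.cap P) = (K.a P, K.b P) := by
  have hF : 0 < F := by have := hC.three; omega
  obtain ⟨c1, c2, c3⟩ := cap_sub hC hG hR hP hne hconf
  have hz : Nm.z P 0 ∈ K.names F win := mem_z.2 ⟨hP, Nat.zero_le _⟩
  have hzI := hG.mem_I.2 hz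
  have hcap : (Nm.cap P : Nm ν) ∈ K.names F win := mem_cap.2 ⟨hP, hne⟩
  have hcapI := hG.mem_I.2 hcap
  obtain ⟨l1, l2, l3, l4⟩ := hC.a_lf hP hne
  have q1 := cov_q hC hG hR hP hconf l1 l2
  have q2 := cov_q hC hG hR hP hconf l3 l4
  -- all points of the cluster are below `z P 0`
  have hsub : ∀ n : ℕ, ∀ w ∈ K.names F win, K.cl w = P →
      (D.I.filter fun u => (D.pt w).2 < (D.pt u).2).card ≤ n →
      (R (.z P 0)).1 ≤ (R w).1 ∧ (R w).2 ≤ (R (.z P 0)).2 := by
    intro n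
    induction n with
    | zero =>
      intro w hw hcl hn
      by_cases h : w = .z P 0
      · rw [h]
        exact ⟨le_rfl, le_rfl⟩
      · exfalso
        have hlt := hG.z0_high hC hw (by rw [hcl]; exact h)
        rw [hcl] at hlt
        have : Nm.z P 0 ∈ D.I.filter fun u => (D.pt w).2 < (D.pt u).2 :=
          mem_filter.2 ⟨hzI, hlt⟩
        have := Finset.card_pos.2 ⟨_, this⟩
        omega
    | succ n ih =>
      intro w hw hcl hn
      by_cases h : w = .z P 0
      · rw [h]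
        exact ⟨le_rfl, le_rfl⟩
      · obtain ⟨c, hc, hp⟩ := parent_chain hC hG hR hP hconf hw hcl h
        have h1 := ih (.z P c) (mem_z.2 ⟨hP, hc⟩) rfl (by
          have hlt : (D.I.filter fun u => (D.pt (.z P c)).2 < (D.pt u).2).card <
              (D.I.filter fun u => (D.pt w).2 < (D.pt u).2).card := by
            apply Finset.card_lt_card
            rw [Finset.ssubset_iff_of_subset]
            · refine ⟨.z P c, mem_filter.2 ⟨hp.1, hp.2.1⟩, ?_⟩
              rw [mem_filter]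
              exact fun h => lt_irrefl _ h.2
            · intro u hu
              rw [mem_filter] at hu ⊢
              exact ⟨hu.1, hp.2.1.trans hu.2⟩
          omega)
        exact ⟨h1.1.trans hp.2.2.1, hp.2.2.2.1.trans h1.2⟩
  have hs : ∀ w ∈ K.names F win, K.cl w = P →
      (R (.z P 0)).1 ≤ (R w).1 ∧ (R w).2 ≤ (R (.z P 0)).2 :=
    fun w hw hcl => hsub _ w hw hcl le_rfl
  have s1 := hs _ (mem_q.2 l1) l2
  have s2 := hs _ (mem_q.2 l3) l4
  have e := hC.ends P hP hne
  have hz1 : (R (.z P 0)).1 ≤ K.a P := s1.1.trans q1.1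
  have hz2 : K.b P ≤ (R (.z P 0)).2 := by
    have := q2.2; have := s2.2; omega
  have hhome := (hG.home (.cap P) hcap (.z P 0) hz (hC.anc_par hP hne)).1
  have hzc := hR.sub_of_cov hcapI hzI hhome c1 (g := K.a P) ⟨hz1, by omega⟩
  have ez1 : (R (.z P 0)).1 = K.a P := by omega
  have ez2 : (R (.z P 0)).2 = K.b P := by omega
  have ec1 : (R (.cap P)).1 = K.a P := by omega
  have ec2 : (R (.cap P)).2 = K.b P := by omega
  refine ⟨fun w hw hcl => ?_, Prod.ext ez1 ez2, Prod.ext ec1 ec2⟩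
  have := hs w hw hcl
  rw [ez1, ez2] at this
  exact this

theorem conf_all (hC : K.Comb F win ex) (hG : K.Geo F win x D) (hR : IsTS D F x R) :
    ∀ P ∈ K.nodes, K.Conf F win R P := by
  have hF : 0 < F := by have := hC.three; omega
  have key : ∀ n : ℕ, ∀ P ∈ K.nodes, K.dep P < n → K.Conf F win R P := by
    intro n
    induction n with
    | zero => intro P _ h; omega
    | succ n ih =>
      intro P hP hn
      by_cases hne : P = K.rt
      · intro w hw _
        rw [hne, hC.a_rt, hC.b_rt]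
        exact ⟨Nat.zero_le _, (hR.lt hF (hG.mem_I.2 hw)).2⟩
      · exact (conf_step hC hG hR hP hne (fun Q hQ h => ih Q hQ (by omega))).1
  exact fun P hP => key (K.dep P + 1) P hP (by omega)

/-- the interval of a point lies in the interval of its node -/
theorem R_conf (hC : K.Comb F win ex) (hG : K.Geo F win x D) (hR : IsTS D F x R) {w : Nm ν}
    (hw : w ∈ K.names F win) : K.a (K.cl w) ≤ (R w).1 ∧ (R w).2 ≤ K.b (K.cl w) :=
  conf_all hC hG hR _ (hC.cl_mem hw) w hw rfl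

theorem R_z0 (hC : K.Comb F win ex) (hG : K.Geo F win x D) (hR : IsTS D F x R) {P : ν}
    (hP : P ∈ K.nodes) : R (.z P 0) = (K.a P, K.b P) := by
  by_cases hne : P = K.rt
  · rw [hne, hC.a_rt, hC.b_rt, ← hG.top_eq, hR.rt]
  · exact (conf_step hC hG hR hP hne (fun Q hQ _ => conf_all hC hG hR Q hQ)).2.1

theorem R_cap (hC : K.Comb F win ex) (hG : K.Geo F win x D) (hR : IsTS D F x R) {P : ν}
    (hP : P ∈ K.nodes) (hne : P ≠ K.rt) : R (.cap P) = (K.a P, K.b P) :=
  (conf_step hC hG hR hP hne (fun Q hQ _ => conf_all hC hG hR Q hQ)).2.2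

theorem R_cov_z (hC : K.Comb F win ex) (hG : K.Geo F win x D) (hR : IsTS D F x R) {P : ν}
    (hP : P ∈ K.nodes) {c : ℕ} (hc1 : 1 ≤ c) (hc : c ≤ K.s P) : Cov (R (.z P c)) (K.a P) :=
  cov_z hC hG hR hP (fun Q hQ _ => conf_all hC hG hR Q hQ) hc1 hc

theorem R_cov_q (hC : K.Comb F win ex) (hG : K.Geo F win x D) (hR : IsTS D F x R) {g : ℕ}
    (hg : g ∈ lf F win) : Cov (R (.q g)) g :=
  cov_q hC hG hR (hC.lf_bd hg).1 (fun Q hQ _ => conf_all hC hG hR Q hQ) hg rfl

end Skel

end Pool.Agent.TRI
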