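import Pool.Agent.TRI.C_Comb

/-!
Area C, task Sys1. Explicit form of `sys j o`, confinement of its intervals.
(combinatorics only; hypotheses `hj : ∀ P ∈ K.nodes, j P ≤ K.s P`)
-/

set_option linter.unusedSectionVars false

namespace Pool.Agent.TRI

namespace Skel

open Finset

variable {ν : Type} [DecidableEq ν] {K : Skel ν} {F : ℕ} {win : Finset ℕ} {ex : ℕ → ℕ}
  {j : ν → ℕ} {o : ℕ → ℕ}

theorem sys_z0 {P : ν} (hP : P ∈ K.nodes) : K.sys F win j o (.z P 0) = (K.a P, K.b P) := by
  have h : Nm.z P 0 ∈ K.names F win := mem_z.2 ⟨hP, Nat.zero_le _⟩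
  simp only [Skel.sys, if_pos h]
  rfl

theorem sys_z {P : ν} (hP : P ∈ K.nodes) {c : ℕ} (hc1 : 1 ≤ c) (hc : c ≤ K.s P) :
    K.sys F win j o (.z P c) = (K.a P, if c ≤ j P then K.b P - 1 else K.a P + 1) := by
  have h : Nm.z P c ∈ K.names F win := mem_z.2 ⟨hP, hc⟩
  have h0 : c ≠ 0 := by omega
  simp only [Skel.sys, if_pos h, if_neg h0]

theorem sys_q {g : ℕ} (hg : g ∈ lf F win) :
    K.sys F win j o (.q g) = (if 1 ≤ g ∧ g - 1 ∈ win ∧ o (g - 1) = 2 then g - 1 else g,
        if g + 1 ∈ win ∧ o (g + 1) = 1 then g + 2 else g + 1) := by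
  simp only [Skel.sys, if_pos hg]

theorem sys_cap {Q : ν} (hQ : Q ∈ K.nodes) (hne : Q ≠ K.rt) :
    K.sys F win j o (.cap Q) = (K.a Q, K.b Q) := by
  have h : Nm.cap Q ∈ K.names F win := mem_cap.2 ⟨hQ, hne⟩
  simp only [Skel.sys, if_pos h]

theorem sys_out {w : Nm ν} (hw : w ∉ K.names F win) : K.sys F win j o w = (0, 0) := by
  cases w with
  | z P c => simp only [Skel.sys, if_neg hw]
  | q g =>
    have h : g ∉ lf F win := fun h => hw (mem_q.2 h)
    simp only [Skel.sys, if_neg h]
  | cap Q => simp only [Skel.sys, if_neg hw]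

/-- the gaps covered by a leaf -/
theorem sys_q_cov {g : ℕ} (hg : g ∈ lf F win) (g' : ℕ) :
    Cov (K.sys F win j o (.q g)) g' ↔
      g' = g ∨ (g' + 1 = g ∧ g' ∈ win ∧ o g' = 2) ∨ (g' = g + 1 ∧ g' ∈ win ∧ o g' = 1) := by
  have hl := mem_lf.1 hg
  rw [sys_q hg]
  unfold Cov
  simp only
  constructor
  · rintro ⟨h1, h2⟩
    rcases Nat.lt_trichotomy g' g with h | h | h
    · right; left
      split_ifs at h1 with h3
      · have : g' = g - 1 := by omega
        rw [this]
        exact ⟨by omega, h3.2.1, h3.2.2⟩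
      · omega
    · left; exact h
    · right; right
      split_ifs at h2 with h3
      · have : g' = g + 1 := by omega
        rw [this]
        exact ⟨rfl, h3.1, h3.2⟩
      · omega
  · rintro (rfl | ⟨h1, h2, h3⟩ | ⟨rfl, h2, h3⟩)
    · constructor
      · split_ifs <;> omega
      · split_ifs <;> omega
    · have h4 : 1 ≤ g ∧ g - 1 ∈ win ∧ o (g - 1) = 2 := by
        have : g - 1 = g' := by omega
        rw [this]
        exact ⟨by omega, h2, h3⟩
      rw [if_pos h4]
      constructor
      · omega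
      · split_ifs <;> omega
    · rw [if_pos (⟨h2, h3⟩ : g + 1 ∈ win ∧ o (g + 1) = 1)]
      constructor
      · split_ifs <;> omega
      · omega

/-- the gaps covered by a leaf have the same owner -/
theorem sys_q_own (hC : K.Comb F win ex) {g : ℕ} (hg : g ∈ lf F win) {g' : ℕ}
    (h : Cov (K.sys F win j o (.q g)) g') : K.own g' = K.own g := by
  rcases (sys_q_cov hg g').1 h with rfl | ⟨h1, h2, -⟩ | ⟨rfl, h2, -⟩
  · rfl
  · rw [← h1]
    exact (hC.wins g' h2).2.2.1.symm
  · have h3 := (hC.wins _ h2).2.1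
    rw [Nat.add_sub_cancel] at h3
    exact h3.symm

/-- the intervals of `sys` are nonempty and confined -/
theorem sys_conf (hC : K.Comb F win ex) (hj : ∀ P ∈ K.nodes, j P ≤ K.s P) {w : Nm ν}
    (hw : w ∈ K.names F win) :
    K.a (K.cl w) ≤ (K.sys F win j o w).1 ∧ (K.sys F win j o w).1 < (K.sys F win j o w).2 ∧
      (K.sys F win j o w).2 ≤ K.b (K.cl w) := by
  cases w with
  | z P c =>
    have h := mem_z.1 hw
    have hab := hC.a_lt_b h.1
    rcases Nat.eq_zero_or_pos c with rfl | hc
    · rw [sys_z0 h.1]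
      exact ⟨le_refl _, hab, le_refl _⟩
    · have hs : 1 ≤ K.s P := by omega
      have h4 := (hC.spin P h.1 hs).1
      rw [sys_z h.1 hc h.2]
      simp only [Skel.cl]
      refine ⟨le_refl _, ?_, ?_⟩
      · split_ifs <;> omega
      · split_ifs <;> omega
  | q g =>
    have hg := mem_q.1 hw
    have hl := mem_lf.1 hg
    obtain ⟨ho, ha, hb⟩ := hC.lf_bd hg
    rw [sys_q hg]
    simp only [Skel.cl]
    refine ⟨?_, ?_, ?_⟩
    · split_ifs with h3
      · have h4 := hC.wins _ h3.2.1
        have h5 : g - 1 + 1 = g := by omega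
        rw [h5] at h4
        have h6 := h4.2.2.2.2.2.1
        rw [← h4.2.2.1] at h6
        omega
      · exact ha
    · split_ifs <;> omega
    · split_ifs with h3
      · have h4 := hC.wins _ h3.1
        rw [Nat.add_sub_cancel] at h4
        have h6 := h4.2.2.2.2.2.2.1
        rw [← h4.2.1] at h6
        omega
      · omega
  | cap Q =>
    have h := mem_cap.1 hw
    have hab := hC.a_lt_b h.1
    have h2 := hC.anc_par h.1 h.2
    rw [sys_cap h.1 h.2]
    exact ⟨h2.2.2.2.1, hab, h2.2.2.2.2⟩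

theorem sys_bd (hC : K.Comb F win ex) (hj : ∀ P ∈ K.nodes, j P ≤ K.s P) {w : Nm ν}
    (hw : w ∈ K.names F win) (hne : w ≠ .z K.rt 0) :
    0 < (K.sys F win j o w).1 ∧ (K.sys F win j o w).1 < (K.sys F win j o w).2 ∧
      (K.sys F win j o w).2 < F := by
  have hc := sys_conf (o := o) hC hj hw
  refine ⟨?_, hc.2.1, ?_⟩
  · cases w with
    | z P c =>
      have h := mem_z.1 hw
      have hP : P ≠ K.rt := by
        rintro rfl
        have := h.2
        rw [hC.s_rt] at this
        have : c = 0 := by omega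
        exact hne (by rw [this])
      have h1 := (hC.ends P h.1 hP).1
      have h2 := hc.1
      simp only [Skel.cl] at h2
      omega
    | q g =>
      have hg := mem_q.1 hw
      have hl := mem_lf.1 hg
      rw [sys_q hg]
      simp only
      split_ifs with h3
      · have h4 := hC.wins _ h3.2.1
        omega
      · omega
    | cap Q =>
      have h := mem_cap.1 hw
      have h1 := (hC.ends Q h.1 h.2).1
      rw [sys_cap h.1 h.2]
      exact h1
  · cases w with
    | z P c =>
      have h := mem_z.1 hw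
      have hP : P ≠ K.rt := by
        rintro rfl
        have := h.2
        rw [hC.s_rt] at this
        have : c = 0 := by omega
        exact hne (by rw [this])
      have h1 := (hC.ends P h.1 hP).2.2.1
      have h2 := hc.2.2
      simp only [Skel.cl] at h2
      omega
    | q g =>
      have hg := mem_q.1 hw
      have hl := mem_lf.1 hg
      rw [sys_q hg]
      simp only
      split_ifs with h3
      · have h4 := hC.win_facts h3.1
        omega
      · omega
    | cap Q =>
      have h := mem_cap.1 hw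
      have h1 := (hC.ends Q h.1 h.2).2.2.1
      rw [sys_cap h.1 h.2]
      exact h1

/-- `sys` only depends on `j` on the nodes and on `o` on the windows -/
theorem sys_congr {j' : ν → ℕ} {o' : ℕ → ℕ} (h1 : ∀ P ∈ K.nodes, j P = j' P)
    (h2 : ∀ w ∈ win, o w = o' w) : K.sys F win j o = K.sys F win j' o' := by
  funext w
  by_cases hw : w ∈ K.names F win
  · cases w with
    | z P c =>
      have h := mem_z.1 hw
      rcases Nat.eq_zero_or_pos c with rfl | hc
      · rw [sys_z0 h.1, sys_z0 h.1]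
      · rw [sys_z h.1 hc h.2, sys_z h.1 hc h.2, h1 P h.1]
    | q g =>
      have hg := mem_q.1 hw
      rw [sys_q hg, sys_q hg]
      have e1 : (1 ≤ g ∧ g - 1 ∈ win ∧ o (g - 1) = 2) ↔ (1 ≤ g ∧ g - 1 ∈ win ∧ o' (g - 1) = 2) := by
        constructor
        · rintro ⟨h3, h4, h5⟩
          exact ⟨h3, h4, by rw [← h2 _ h4]; exact h5⟩
        · rintro ⟨h3, h4, h5⟩
          exact ⟨h3, h4, by rw [h2 _ h4]; exact h5⟩
      have e2 : (g + 1 ∈ win ∧ o (g + 1) = 1) ↔ (g + 1 ∈ win ∧ o' (g + 1) = 1) := by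
        constructor
        · rintro ⟨h4, h5⟩
          exact ⟨h4, by rw [← h2 _ h4]; exact h5⟩
        · rintro ⟨h4, h5⟩
          exact ⟨h4, by rw [h2 _ h4]; exact h5⟩
      simp only [e1, e2]
    | cap Q =>
      have h := mem_cap.1 hw
      rw [sys_cap h.1 h.2, sys_cap h.1 h.2]
  · rw [sys_out hw, sys_out hw]

end Skel

end Pool.Agent.TRI
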