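import Pool.Agent.TRI.C_Conf
import Pool.Agent.TRI.C_Sys

/-!
Area C, task Deg. Leaves, walls and exponents of a tent system (helper45).
-/

set_option linter.unusedSectionVars false

namespace Pool.Agent.TRI

namespace Skel

open Finset

variable {ν : Type} [DecidableEq ν] {K : Skel ν} {F : ℕ} {win : Finset ℕ} {ex : ℕ → ℕ}
  {x : ℕ → ℝ} {D : Side (Nm ν)} {R : Nm ν → ℕ × ℕ}

/-- leaves of the same node are disjoint and ordered -/
theorem leaf_leaf (hC : K.Comb F win ex) (hG : K.Geo F win x D) (hR : IsTS D F x R) {g g' : ℕ}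
    (hg : g ∈ lf F win) (hg' : g' ∈ lf F win) (ho : K.own g = K.own g') (hlt : g < g') :
    (R (.q g)).2 ≤ (R (.q g')).1 := by
  have c1 := R_cov_q hC hG hR hg
  have c2 := R_cov_q hC hG hR hg'
  have m1 : (Nm.q g : Nm ν) ∈ D.I := hG.mem_I.2 (mem_q.2 hg)
  have m2 : (Nm.q g' : Nm ν) ∈ D.I := hG.mem_I.2 (mem_q.2 hg')
  have hs := hG.same_qq g hg g' hg' ho
  rcases hR.same _ m1 _ m2 (by simp; omega) hs with h | h
  · have := c1.1; have := c2.2; omega
  · exact h

theorem leaf_cap (hC : K.Comb F win ex) (hG : K.Geo F win x D) (hR : IsTS D F x R) {g : ℕ}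
    (hg : g ∈ lf F win) {Q : ν} (hQ : Q ∈ K.nodes) (hne : Q ≠ K.rt)
    (ho : K.own g = K.par Q) :
    (R (.q g)).2 ≤ K.a Q ∨ K.b Q ≤ (R (.q g)).1 := by
  have m1 : (Nm.q g : Nm ν) ∈ D.I := hG.mem_I.2 (mem_q.2 hg)
  have m2 : (Nm.cap Q : Nm ν) ∈ D.I := hG.mem_I.2 (mem_cap.2 ⟨hQ, hne⟩)
  have hs := hG.same_qc g hg Q hQ hne ho
  rcases hR.same _ m1 _ m2 (by simp) hs with h | h
  · rw [R_cap hC hG hR hQ hne] at h
    exact Or.inr h
  · rw [R_cap hC hG hR hQ hne] at h
    exact Or.inl h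

theorem leaf_left (hC : K.Comb F win ex) (hG : K.Geo F win x D) (hR : IsTS D F x R) {g : ℕ}
    (hg : g ∈ lf F win) : (R (.q g)).1 = g ∨ (g - 1 ∈ win ∧ (R (.q g)).1 = g - 1) := by
  have hc := R_cov_q hC hG hR hg
  have hl := mem_lf.1 hg
  rcases hC.left_gap hg with h | h | ⟨h0, h1, h2⟩ | ⟨_, h2⟩ | ⟨Q, hQ, hne, hp, hb⟩
  · obtain ⟨-, -, w3, w4, w5, w6, -, -, -, w7⟩ := hC.win_facts h
    have e : g - 1 + 1 = g := by omega
    rw [e] at w4
    have h1 := leaf_leaf hC hG hR w5 hg (by rw [w3, w4]) (by omega)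
    have h2 := (R_cov_q hC hG hR w5).2
    have := hc.1
    by_cases h3 : (R (.q g)).1 = g
    · exact Or.inl h3
    · exact Or.inr ⟨h, by omega⟩
  · have := hR.bd _ (hG.mem_I.2 (mem_q.2 hg)) (by rw [hG.top_eq]; simp)
    have := hc.1
    left; omega
  · have h3 := leaf_leaf hC hG hR h1 hg h2 (by omega)
    have h4 := (R_cov_q hC hG hR h1).2
    have := hc.1
    left; omega
  · have h3 := (R_conf hC hG hR (mem_q.2 hg)).1
    have h4 : K.cl (Nm.q g) = K.own g := rfl
    rw [h4, h2] at h3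
    have := hc.1
    left; omega
  · have hab := hC.a_lt_b hQ
    rcases leaf_cap hC hG hR hg hQ hne hp.symm with h3 | h3
    · have := hc.2; omega
    · have := hc.1
      left; omega

theorem leaf_right (hC : K.Comb F win ex) (hG : K.Geo F win x D) (hR : IsTS D F x R) {g : ℕ}
    (hg : g ∈ lf F win) : (R (.q g)).2 = g + 1 ∨ (g + 1 ∈ win ∧ (R (.q g)).2 = g + 2) := by
  have hc := R_cov_q hC hG hR hg
  have hl := mem_lf.1 hg
  rcases hC.right_gap hg with h | h | ⟨h1, h2⟩ | ⟨_, h2⟩ | ⟨Q, hQ, hne, hp, hb⟩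
  · obtain ⟨-, -, w3, w4, w5, w6, -, -, -, w7⟩ := hC.win_facts h
    rw [Nat.add_sub_cancel] at w3
    have h1 := leaf_leaf hC hG hR hg w6 (by rw [w4, w3]) (by omega)
    have h2 := (R_cov_q hC hG hR w6).1
    have := hc.2
    by_cases h3 : (R (.q g)).2 = g + 1
    · exact Or.inl h3
    · exact Or.inr ⟨h, by omega⟩
  · have := hR.bd _ (hG.mem_I.2 (mem_q.2 hg)) (by rw [hG.top_eq]; simp)
    have := hc.2
    left; omega
  · have h3 := leaf_leaf hC hG hR hg h1 h2.symm (by omega)
    have h4 := (R_cov_q hC hG hR h1).1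
    have := hc.2
    left; omega
  · have h3 := (R_conf hC hG hR (mem_q.2 hg)).2
    have h4 : K.cl (Nm.q g) = K.own g := rfl
    rw [h4, h2] at h3
    have := hc.2
    left; omega
  · have hab := hC.a_lt_b hQ
    rcases leaf_cap hC hG hR hg hQ hne hp.symm with h3 | h3
    · have := hc.2
      left; omega
    · have := hc.1; omega

theorem window (hC : K.Comb F win ex) (hG : K.Geo F win x D) (hR : IsTS D F x R) {w : ℕ}
    (hw : w ∈ win) : (R (.q (w - 1))).2 ≤ (R (.q (w + 1))).1 := by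
  obtain ⟨-, -, w3, w4, w5, w6, -, -, -, w7⟩ := hC.win_facts hw
  exact leaf_leaf hC hG hR w5 w6 (by rw [w3, w4]) (by omega)

theorem wall (hC : K.Comb F win ex) (hG : K.Geo F win x D) (hR : IsTS D F x R) {P : ν}
    (hP : P ∈ K.nodes) {c : ℕ} (hc1 : 1 ≤ c) (hc : c ≤ K.s P) :
    (R (.z P c)).1 = K.a P ∧ K.a P < (R (.z P c)).2 ∧ (R (.z P c)).2 ≤ K.b P ∧
      ∀ Q, K.Anc P Q → ¬ (K.a Q < (R (.z P c)).2 ∧ (R (.z P c)).2 < K.b Q) := by
  have hz : Nm.z P c ∈ K.names F win := mem_z.2 ⟨hP, hc⟩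
  have h1 := R_conf hC hG hR hz
  have hcl : K.cl (Nm.z P c) = P := rfl
  rw [hcl] at h1
  have h2 := R_cov_z hC hG hR hP hc1 hc
  refine ⟨le_antisymm h2.1 h1.1, h2.2, h1.2, fun Q hPQ hcon => ?_⟩
  have hQ := hPQ.2.1
  have hne : Q ≠ K.rt := hPQ.ne_rt hC
  have hcap : (Nm.cap Q : Nm ν) ∈ K.names F win := mem_cap.2 ⟨hQ, hne⟩
  have hlt : (D.pt (.cap Q)).2 < (D.pt (.z P c)).2 := by
    rcases (hC.par_anc Q hQ hne).2 P hPQ with h | h
    · rw [h] at hc ⊢
      exact hG.cap_lt Q hQ hne c hc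
    · exact (hG.home (.z P c) hz (.cap Q) hcap h).1
  have haQ := hPQ.2.2.2.1
  have hab := hC.a_lt_b hQ
  rcases hR.lam _ (hG.mem_I.2 hz) _ (hG.mem_I.2 hcap) hlt with h | h | h
  · rw [R_cap hC hG hR hQ hne] at h
    have := h.2
    simp only at this
    omega
  · rw [R_cap hC hG hR hQ hne] at h
    simp only at h
    have := h2.1
    omega
  · rw [R_cap hC hG hR hQ hne] at h
    simp only at h
    omega

theorem wall_anti (hC : K.Comb F win ex) (hG : K.Geo F win x D) (hR : IsTS D F x R) {P : ν}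
    (hP : P ∈ K.nodes) {c c' : ℕ} (hc1 : 1 ≤ c) (hcc : c ≤ c') (hc : c' ≤ K.s P) :
    (R (.z P c')).2 ≤ (R (.z P c)).2 := by
  rcases Nat.lt_or_ge c c' with h | h
  · have z1 : Nm.z P c ∈ D.I := hG.mem_I.2 (mem_z.2 ⟨hP, by omega⟩)
    have z2 : Nm.z P c' ∈ D.I := hG.mem_I.2 (mem_z.2 ⟨hP, hc⟩)
    exact (hR.sub_of_cov z1 z2 (hG.chain P hP c c' h hc)
      (R_cov_z hC hG hR hP hc1 (by omega)) (R_cov_z hC hG hR hP (by omega) hc)).2
  · have : c = c' := by omega
    rw [this]

/-- exponent of the end point of a wall -/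
theorem wall_ex (hC : K.Comb F win ex) (hG : K.Geo F win x D) (hR : IsTS D F x R) {P : ν}
    (hP : P ∈ K.nodes) {c : ℕ} (hc1 : 1 ≤ c) (hc : c ≤ K.s P) :
    ((R (.z P c)).2 = K.a P + 1 ∨ (R (.z P c)).2 = K.b P - 1) ∧
      ex (R (.z P c)).2 = ex (K.a P + 1) ∨ ex (R (.z P c)).2 < ex (K.a P + 1) := by
  obtain ⟨h1, h2, h3, h4⟩ := wall hC hG hR hP hc1 hc
  obtain ⟨-, -, -, -, -, s1, s2⟩ := hC.spin P hP (by omega)
  by_cases e1 : (R (.z P c)).2 = K.a P + 1
  · left
    exact ⟨Or.inl e1, by rw [e1]⟩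
  by_cases e2 : (R (.z P c)).2 = K.b P - 1
  · left
    exact ⟨Or.inr e2, by rw [e2, s1]⟩
  right
  exact s2 _ h2 h3 e1 e2 h4

theorem sys00_z {P : ν} (hP : P ∈ K.nodes) {c : ℕ} (hc1 : 1 ≤ c) (hc : c ≤ K.s P) :
    K.sys F win (fun _ => 0) (fun _ => 0) (.z P c) = (K.a P, K.a P + 1) := by
  rw [sys_z hP hc1 hc, if_neg (by omega)]

theorem sys00_q {g : ℕ} (hg : g ∈ lf F win) :
    K.sys F win (fun _ => 0) (fun _ => 0) (.q g) = (g, g + 1) := by
  rw [sys_q hg, if_neg (by omega), if_neg (by omega)]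

theorem ex_le (hC : K.Comb F win ex) (hG : K.Geo F win x D) (hR : IsTS D F x R) {w : Nm ν}
    (hw : w ∈ K.names F win) :
    ex (R w).1 + ex (R w).2 ≤ ex (K.sys F win (fun _ => 0) (fun _ => 0) w).1 +
      ex (K.sys F win (fun _ => 0) (fun _ => 0) w).2 := by
  cases w with
  | z P c =>
    have h := mem_z.1 hw
    rcases Nat.eq_zero_or_pos c with hc | hc
    · subst hc
      rw [R_z0 hC hG hR h.1, sys_z0 h.1]
    · rw [sys00_z h.1 hc h.2, (wall hC hG hR h.1 hc h.2).1]
      rcases wall_ex hC hG hR h.1 hc h.2 with h1 | h1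
      · simp only; omega
      · simp only; omega
  | q g =>
    have hg := mem_q.1 hw
    rw [sys00_q hg]
    have hl := mem_lf.1 hg
    have e1 : ex (R (.q g)).1 = ex g := by
      rcases leaf_left hC hG hR hg with h | ⟨h, h'⟩
      · rw [h]
      · rw [h']
        have := (hC.wins _ h).2.2.2.2.2.2.2
        rw [this]
        congr 1
        omega
    have e2 : ex (R (.q g)).2 = ex (g + 1) := by
      rcases leaf_right hC hG hR hg with h | ⟨h, h'⟩
      · rw [h]
      · rw [h']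
        exact ((hC.wins _ h).2.2.2.2.2.2.2).symm
    rw [e1, e2]
  | cap Q =>
    have h := mem_cap.1 hw
    rw [R_cap hC hG hR h.1 h.2, sys_cap h.1 h.2]

/-- equality for the points of the walls -/
theorem ex_eq (hC : K.Comb F win ex) (hG : K.Geo F win x D) (hR : IsTS D F x R) {P : ν}
    (hP : P ∈ K.nodes) {c : ℕ} (hc1 : 1 ≤ c) (hc : c ≤ K.s P)
    (he : ex (R (.z P c)).1 + ex (R (.z P c)).2 = ex (K.sys F win (fun _ => 0) (fun _ => 0)
      (.z P c)).1 + ex (K.sys F win (fun _ => 0) (fun _ => 0) (.z P c)).2) :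
    (R (.z P c)).2 = K.a P + 1 ∨ (R (.z P c)).2 = K.b P - 1 := by
  rw [sys00_z hP hc1 hc, (wall hC hG hR hP hc1 hc).1] at he
  simp only at he
  rcases wall_ex hC hG hR hP hc1 hc with h1 | h1
  · exact h1.1
  · omega

theorem tdeg_le' (hC : K.Comb F win ex) (hG : K.Geo F win x D) (hR : IsTS D F x R) :
    K.tdeg F win ex R ≤ K.tmax F win ex := by
  unfold tmax tdeg
  exact Finset.sum_le_sum fun w hw => ex_le hC hG hR (Finset.mem_of_mem_erase hw)

/-- tent systems of maximal exponent -/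
theorem eq_sys (hC : K.Comb F win ex) (hG : K.Geo F win x D) (hR : IsTS D F x R)
    (ht : K.tdeg F win ex R = K.tmax F win ex) :
    ∃ (j : ν → ℕ) (o : ℕ → ℕ), (∀ P ∈ K.nodes, j P ≤ K.s P) ∧ (∀ w ∈ win, o w < 3) ∧
      R = K.sys F win j o := by
  classical
  have heq : ∀ w ∈ (K.names F win).erase (.z K.rt 0),
      ex (R w).1 + ex (R w).2 = ex (K.sys F win (fun _ => 0) (fun _ => 0) w).1 +
      ex (K.sys F win (fun _ => 0) (fun _ => 0) w).2 := by
    have := (Finset.sum_eq_sum_iff_of_le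
      (fun w (hw : w ∈ (K.names F win).erase (.z K.rt 0)) =>
        ex_le hC hG hR (Finset.mem_of_mem_erase hw))).1 ht
    exact this
  have hwall : ∀ P ∈ K.nodes, ∀ c, 1 ≤ c → c ≤ K.s P →
      (R (.z P c)).2 = K.a P + 1 ∨ (R (.z P c)).2 = K.b P - 1 := by
    intro P hP c hc1 hc
    refine ex_eq hC hG hR hP hc1 hc (heq _ ?_)
    rw [Finset.mem_erase]
    refine ⟨?_, mem_z.2 ⟨hP, hc⟩⟩
    intro h
    injection h with _ h1
    omega
  let j : ν → ℕ := fun P =>
    Nat.findGreatest (fun c => 1 ≤ c ∧ (R (.z P c)).2 = K.b P - 1) (K.s P)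
  let o : ℕ → ℕ := fun w =>
    if (R (.q (w - 1))).2 = w + 1 then 1 else if (R (.q (w + 1))).1 = w then 2 else 0
  have hj : ∀ P, j P ≤ K.s P := fun P => Nat.findGreatest_le _
  have hjiff : ∀ P ∈ K.nodes, ∀ c, 1 ≤ c → c ≤ K.s P →
      (R (.z P c)).2 = if c ≤ j P then K.b P - 1 else K.a P + 1 := by
    intro P hP c hc1 hc
    have hsp := (hC.spin P hP (by omega)).1
    by_cases hle : c ≤ j P
    · rw [if_pos hle]
      have hj0 : j P ≠ 0 := by omega
      have hspec := Nat.findGreatest_of_ne_zero (P := fun c => 1 ≤ c ∧ (R (.z P c)).2 = K.b P - 1)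
        (n := K.s P) (m := j P) rfl hj0
      have h1 := wall_anti hC hG hR hP hc1 hle (hj P)
      rw [hspec.2] at h1
      rcases hwall P hP c hc1 hc with h2 | h2
      · omega
      · exact h2
    · rw [if_neg hle]
      rcases hwall P hP c hc1 hc with h2 | h2
      · exact h2
      · exfalso
        apply hle
        exact Nat.le_findGreatest hc ⟨hc1, h2⟩
  refine ⟨j, o, fun P _ => hj P, fun w _ => ?_, ?_⟩
  · show (if (R (.q (w - 1))).2 = w + 1 then 1 else if (R (.q (w + 1))).1 = w then 2 else 0) < 3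
    split_ifs <;> omega
  · funext w
    by_cases hw : w ∈ K.names F win
    · cases w with
      | z P c =>
        have h := mem_z.1 hw
        rcases Nat.eq_zero_or_pos c with hc | hc
        · subst hc
          rw [R_z0 hC hG hR h.1, sys_z0 h.1]
        · rw [sys_z h.1 hc h.2]
          exact Prod.ext (wall hC hG hR h.1 hc h.2).1 (hjiff P h.1 c hc h.2)
      | q g =>
        have hg := mem_q.1 hw
        have hl := mem_lf.1 hg
        rw [sys_q hg]
        refine Prod.ext ?_ ?_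
        · show (R (.q g)).1 = if 1 ≤ g ∧ g - 1 ∈ win ∧ o (g - 1) = 2 then g - 1 else g
          by_cases hwin : g - 1 ∈ win
          · have hw1 := window hC hG hR hwin
            have hwf := hC.win_facts hwin
            have e : g - 1 + 1 = g := by omega
            rw [e] at hw1
            have ho : o (g - 1) = if (R (.q (g - 1 - 1))).2 = g then 1
                else if (R (.q g)).1 = g - 1 then 2 else 0 := by
              show (if (R (.q (g - 1 - 1))).2 = g - 1 + 1 then 1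
                else if (R (.q (g - 1 + 1))).1 = g - 1 then 2 else 0) = _
              rw [e]
            rcases leaf_left hC hG hR hg with h | ⟨_, h⟩
            · rw [if_neg, h]
              rintro ⟨_, _, h3⟩
              rw [ho] at h3
              split_ifs at h3 with h4 h5 <;> omega
            · rw [if_pos, h]
              refine ⟨by omega, hwin, ?_⟩
              rw [ho, if_neg (by omega), if_pos h]
          · rw [if_neg (fun h => hwin h.2.1)]
            rcases leaf_left hC hG hR hg with h | ⟨h, _⟩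
            · exact h
            · exact absurd h hwin
        · show (R (.q g)).2 = if g + 1 ∈ win ∧ o (g + 1) = 1 then g + 2 else g + 1
          by_cases hwin : g + 1 ∈ win
          · have ho : o (g + 1) = if (R (.q g)).2 = g + 2 then 1
                else if (R (.q (g + 1 + 1))).1 = g + 1 then 2 else 0 := by
              show (if (R (.q (g + 1 - 1))).2 = g + 1 + 1 then 1
                else if (R (.q (g + 1 + 1))).1 = g + 1 then 2 else 0) = _
              rw [Nat.add_sub_cancel]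
            rcases leaf_right hC hG hR hg with h | ⟨_, h⟩
            · rw [if_neg, h]
              rintro ⟨_, h3⟩
              rw [ho] at h3
              split_ifs at h3 with h4 h5 <;> omega
            · rw [if_pos, h]
              refine ⟨hwin, ?_⟩
              rw [ho, if_pos h]
          · rw [if_neg (fun h => hwin h.1)]
            rcases leaf_right hC hG hR hg with h | ⟨h, _⟩
            · exact h
            · exact absurd h hwin
      | cap Q =>
        have h := mem_cap.1 hw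
        rw [R_cap hC hG hR h.1 h.2, sys_cap h.1 h.2]
    · rw [sys_out hw]
      exact hR.out w (fun h => hw (hG.mem_I.1 h))

end Skel

end Pool.Agent.TRI
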