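import Pool.Agent.TRI.C_Comb

/-!
Area C, heights and clusters.
-/

set_option linter.unusedSectionVars false

namespace Pool.Agent.TRI

namespace Skel

open Finset

variable {ν : Type} [DecidableEq ν] {K : Skel ν} {F : ℕ} {win : Finset ℕ} {ex : ℕ → ℕ}
  {x : ℕ → ℝ} {D : Side (Nm ν)}

theorem Geo.lt_of_x (hG : K.Geo F win x D) {i j : ℕ} (hi : i ≤ F) (h : x i < x j) :
    i < j := by
  by_contra hcon
  rcases Nat.lt_or_ge j i with h1 | h1
  · have := hG.mono j i h1 hi
    linarith
  · have : i = j := by omega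
    rw [this] at h
    exact lt_irrefl _ h

theorem Geo.x_le (hG : K.Geo F win x D) {i j : ℕ} (hij : i ≤ j) (hj : j ≤ F) : x i ≤ x j := by
  rcases Nat.lt_or_ge i j with h | h
  · exact (hG.mono i j h hj).le
  · have : i = j := by omega
    rw [this]

theorem Geo.mem_I (hG : K.Geo F win x D) {w : Nm ν} : w ∈ D.I ↔ w ∈ K.names F win := by
  rw [hG.I_eq]

/-- a point which is higher than another point of its cluster is on the chain -/
theorem Geo.high_z (hC : K.Comb F win ex) (hG : K.Geo F win x D) {v w : Nm ν}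
    (hv : v ∈ K.names F win) (hw : w ∈ K.names F win) (hcl : K.cl v = K.cl w)
    (hlt : (D.pt w).2 < (D.pt v).2) : ∃ c ≤ K.s (K.cl w), v = .z (K.cl w) c := by
  cases v with
  | z P c =>
    have h := mem_z.1 hv
    rw [← hcl]
    exact ⟨c, h.2, rfl⟩
  | q g =>
    exfalso
    have hg := mem_q.1 hv
    cases w with
    | z P c =>
      have h := mem_z.1 hw
      have hP : K.own g = P := hcl
      have := hG.leaf_lt g hg c (by rw [hP]; exact h.2)
      rw [hP] at this
      linarith
    | q g' =>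
      have := hG.same_qq g hg g' (mem_q.1 hw) hcl
      linarith
    | cap Q =>
      have h := mem_cap.1 hw
      have := hG.same_qc g hg Q h.1 h.2 hcl
      linarith
  | cap Q =>
    exfalso
    have hQ := mem_cap.1 hv
    cases w with
    | z P c =>
      have h := mem_z.1 hw
      have hP : K.par Q = P := hcl
      have := hG.cap_lt Q hQ.1 hQ.2 c (by rw [hP]; exact h.2)
      rw [hP] at this
      linarith
    | q g' =>
      have := hG.same_qc g' (mem_q.1 hw) Q hQ.1 hQ.2 hcl.symm
      linarith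
    | cap Q' =>
      have h := mem_cap.1 hw
      have := hG.same_cc Q hQ.1 hQ.2 Q' h.1 h.2 hcl
      linarith

/-- `z P 0` is the highest point of its cluster -/
theorem Geo.z0_high (hC : K.Comb F win ex) (hG : K.Geo F win x D) {w : Nm ν}
    (hw : w ∈ K.names F win) (hne : w ≠ .z (K.cl w) 0) :
    (D.pt w).2 < (D.pt (.z (K.cl w) 0)).2 := by
  cases w with
  | z P c =>
    have h := mem_z.1 hw
    have hc : c ≠ 0 := by
      rintro rfl
      exact hne rfl
    exact hG.chain P h.1 0 c (by omega) h.2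
  | q g => exact hG.leaf_lt g (mem_q.1 hw) 0 (Nat.zero_le _)
  | cap Q =>
    have h := mem_cap.1 hw
    exact hG.cap_lt Q h.1 h.2 0 (Nat.zero_le _)

theorem Geo.z0_mem (hC : K.Comb F win ex) {w : Nm ν}
    (hw : w ∈ K.names F win) : Nm.z (K.cl w) 0 ∈ K.names F win :=
  mem_z.2 ⟨hC.cl_mem hw, Nat.zero_le _⟩

/-- points of a proper ancestor are higher -/
theorem Geo.not_anc (hG : K.Geo F win x D) {v w : Nm ν}
    (hv : v ∈ K.names F win) (hw : w ∈ K.names F win) (hlt : (D.pt w).2 ≤ (D.pt v).2) :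
    ¬ K.Anc (K.cl w) (K.cl v) := by
  intro h
  have := (hG.home w hw v hv h).1
  linarith

/-- position of the clusters of two points -/
theorem Geo.pos4 (hC : K.Comb F win ex) (hG : K.Geo F win x D) {v w : Nm ν}
    (hv : v ∈ K.names F win) (hw : w ∈ K.names F win) (hlt : (D.pt w).2 ≤ (D.pt v).2) :
    K.cl v = K.cl w ∨ K.Anc (K.cl v) (K.cl w) ∨ K.b (K.cl v) ≤ K.a (K.cl w) ∨
      K.b (K.cl w) ≤ K.a (K.cl v) := by
  by_cases h : K.cl v = K.cl w
  · exact Or.inl h
  · rcases hC.tree _ (hC.cl_mem hv) _ (hC.cl_mem hw) h with h1 | h1 | h1 | h1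
    · exact Or.inr (Or.inl h1)
    · exact absurd h1 (hG.not_anc hv hw hlt)
    · exact Or.inr (Or.inr (Or.inl h1))
    · exact Or.inr (Or.inr (Or.inr h1))

/-- points of the same height in the same cluster are leaves or caps -/
theorem Geo.same_not_z (hC : K.Comb F win ex) (hG : K.Geo F win x D) {v w : Nm ν}
    (hv : v ∈ K.names F win) (hw : w ∈ K.names F win) (hne : v ≠ w) (hcl : K.cl v = K.cl w)
    (he : (D.pt v).2 = (D.pt w).2) (P : ν) (c : ℕ) : v ≠ .z P c := by
  rintro rfl
  have h := mem_z.1 hv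
  cases w with
  | z P' c' =>
    have h' := mem_z.1 hw
    have hP : P = P' := hcl
    subst hP
    have hc : c ≠ c' := by
      rintro rfl
      exact hne rfl
    rcases Nat.lt_or_gt_of_ne hc with h1 | h1
    · have := hG.chain P h.1 c c' h1 h'.2
      linarith
    · have := hG.chain P h.1 c' c h1 h.2
      linarith
  | q g =>
    have hP : P = K.own g := hcl
    have := hG.leaf_lt g (mem_q.1 hw) c (by rw [← hP]; exact h.2)
    rw [← hP] at this
    linarith
  | cap Q =>
    have hP : P = K.par Q := hcl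
    have hQ := mem_cap.1 hw
    have := hG.cap_lt Q hQ.1 hQ.2 c (by rw [← hP]; exact h.2)
    rw [← hP] at this
    linarith

theorem Geo.top_mem (hC : K.Comb F win ex) : Nm.z K.rt 0 ∈ K.names F win :=
  mem_z.2 ⟨hC.rt_mem, Nat.zero_le _⟩

theorem Geo.top_high (hG : K.Geo F win x D) {w : Nm ν} (hw : w ∈ K.names F win)
    (hne : w ≠ .z K.rt 0) : (D.pt w).2 < (D.pt (.z K.rt 0)).2 := by
  have := (hG.good.inside w (hG.mem_I.2 hw) (by rw [hG.top_eq]; exact hne)).1
  rwa [hG.top_eq] at this

/-- the only chain point of the root is the top -/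
theorem Comb.z_rt (hC : K.Comb F win ex) {c : ℕ} (h : Nm.z K.rt c ∈ K.names F win) : c = 0 := by
  have := (mem_z.1 h).2
  rw [hC.s_rt] at this
  omega

end Skel

end Pool.Agent.TRI
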