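import Pool.Agent.TRI.C_Sys
import Pool.Agent.TRI.C_Geo

/-!
Area C, task KK. The factorials.

Special feet: `E P = a P + 1`, `G P = b P - 1` for the spin nodes (`1 ≤ s P`), `w` and `w + 1` for the windows.
All of them are different (`sp_inj` lemmas; use `hC.ends`, `hC.outer`, `hC.spin`, `hC.wins`, owners of the
gaps next to the foot), they lie in `Ioo 0 F`.
* `kk_E`: `kk (a P + 1) = 2 + s P - j P`: the end points equal to `a P + 1` are `(q (a P)).2`,
  `(q (a P + 1)).1` and `(z P c).2` for `j P < c ≤ s P`; `kk_G` similar: `(q (b P - 2)).2`, `(q (b P - 1)).1`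
  and `(z P c).2` for `1 ≤ c ≤ j P`.
* `kk_win`: the end points at `w`, `w + 1` are `(q (w-1)).2` and `(q (w+1)).1` only.
* `kk_other`: for a foot `f` which is not special the condition `(sys j o w).i = f` does not depend on
  `j`, `o` (`i = 1, 2`).
`prod_kk'`: split `Ioo 0 F` into the special feet and the rest;
`c = ∏ over the other feet of (kk (sys 0 0) f)!⁻¹`.
-/

set_option linter.unusedSectionVars false

namespace Pool.Agent.TRI

namespace Skel

open Finset

variable {ν : Type} [DecidableEq ν] {K : Skel ν} {F : ℕ} {win : Finset ℕ} {ex : ℕ → ℕ}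
  {x : ℕ → ℝ} {D : Side (Nm ν)} {j : ν → ℕ} {o : ℕ → ℕ}

theorem C_KK_spin_ne (hC : K.Comb F win ex) {P : ν} (hs : 1 ≤ K.s P) : P ≠ K.rt := by
  rintro rfl
  rw [hC.s_rt] at hs
  omega

/-- the points with left end point `f` -/
theorem C_KK_left (hC : K.Comb F win ex) {w : Nm ν} (hw : w ∈ K.names F win)
    (hne : w ≠ .z K.rt 0) {f : ℕ} (h : (K.sys F win j o w).1 = f) :
    (∃ Q ∈ K.nodes, Q ≠ K.rt ∧ K.a Q = f) ∨
      (w = .q f ∧ f ∈ lf F win ∧ ¬ (f - 1 ∈ win ∧ o (f - 1) = 2)) ∨
      (w = .q (f + 1) ∧ f + 1 ∈ lf F win ∧ f ∈ win ∧ o f = 2) := by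
  cases w with
  | z P c =>
    have hz := mem_z.1 hw
    left
    refine ⟨P, hz.1, ?_, ?_⟩
    · rintro rfl
      have := hC.z_rt hw
      exact hne (by rw [this])
    · rcases Nat.eq_zero_or_pos c with rfl | hc
      · rw [sys_z0 hz.1] at h
        exact h
      · rw [sys_z hz.1 hc hz.2] at h
        exact h
  | q g =>
    have hg := mem_q.1 hw
    have hl := mem_lf.1 hg
    right
    rw [sys_q hg] at h
    simp only at h
    split_ifs at h with h3
    · right
      have e : g = f + 1 := by omega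
      subst e
      rw [Nat.add_sub_cancel] at h3
      exact ⟨rfl, hg, h3.2.1, h3.2.2⟩
    · left
      subst h
      refine ⟨rfl, hg, fun h4 => h3 ⟨by omega, h4.1, h4.2⟩⟩
  | cap Q =>
    have hz := mem_cap.1 hw
    left
    refine ⟨Q, hz.1, hz.2, ?_⟩
    rw [sys_cap hz.1 hz.2] at h
    exact h

/-- the points with right end point `f` -/
theorem C_KK_right (hC : K.Comb F win ex) {w : Nm ν} (hw : w ∈ K.names F win)
    (hne : w ≠ .z K.rt 0) {f : ℕ} (h : (K.sys F win j o w).2 = f) :
    (∃ Q ∈ K.nodes, Q ≠ K.rt ∧ K.b Q = f) ∨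
      (∃ Q ∈ K.nodes, ∃ c, 1 ≤ c ∧ c ≤ K.s Q ∧ w = .z Q c ∧
        ((c ≤ j Q ∧ K.b Q - 1 = f) ∨ (j Q < c ∧ K.a Q + 1 = f))) ∨
      (∃ g ∈ lf F win, w = .q g ∧ ((g + 1 = f ∧ ¬ (f ∈ win ∧ o f = 1)) ∨
        (g + 2 = f ∧ g + 1 ∈ win ∧ o (g + 1) = 1))) := by
  cases w with
  | z P c =>
    have hz := mem_z.1 hw
    rcases Nat.eq_zero_or_pos c with rfl | hc
    · left
      refine ⟨P, hz.1, ?_, ?_⟩
      · rintro rfl
        exact hne rfl
      · rw [sys_z0 hz.1] at h
        exact h
    · right; left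
      rw [sys_z hz.1 hc hz.2] at h
      simp only at h
      refine ⟨P, hz.1, c, hc, hz.2, rfl, ?_⟩
      split_ifs at h with h3
      · exact Or.inl ⟨h3, h⟩
      · exact Or.inr ⟨by omega, h⟩
  | q g =>
    have hg := mem_q.1 hw
    have hl := mem_lf.1 hg
    right; right
    rw [sys_q hg] at h
    simp only at h
    refine ⟨g, hg, rfl, ?_⟩
    split_ifs at h with h3
    · exact Or.inr ⟨h, h3⟩
    · subst h
      exact Or.inl ⟨rfl, h3⟩
  | cap Q =>
    have hz := mem_cap.1 hw
    left
    refine ⟨Q, hz.1, hz.2, ?_⟩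
    rw [sys_cap hz.1 hz.2] at h
    exact h

theorem C_KK_kk (hG : K.Geo F win x D) (R : Nm ν → ℕ × ℕ) (f : ℕ) :
    kk D R f = ((K.names F win).filter fun w => w ≠ .z K.rt 0 ∧ (R w).1 = f).card +
      ((K.names F win).filter fun w => w ≠ .z K.rt 0 ∧ (R w).2 = f).card := by
  classical
  unfold kk
  rw [hG.I_eq, hG.top_eq]
  congr 2
  · apply filter_congr_decidable
  · apply filter_congr_decidable

theorem kk_E (hC : K.Comb F win ex) (hG : K.Geo F win x D) (hj : ∀ P ∈ K.nodes, j P ≤ K.s P)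
    {P : ν} (hP : P ∈ K.nodes) (hs : 1 ≤ K.s P) :
    kk D (K.sys F win j o) (K.a P + 1) = 2 + K.s P - j P := by
  have hne := C_KK_spin_ne hC hs
  obtain ⟨s1, s2, s3, s4, s5, -⟩ := hC.spin P hP hs
  obtain ⟨e1, e2, e3, e4, e5, e6, e7⟩ := hC.ends P hP hne
  have lf1 : K.a P + 1 ∈ lf F win := mem_lf.2 ⟨by omega, by omega, s3⟩
  have lf0 : K.a P ∈ lf F win := mem_lf.2 ⟨by omega, by omega, e5⟩
  rw [C_KK_kk hG]
  have hL : ((K.names F win).filter fun w => w ≠ .z K.rt 0 ∧
      (K.sys F win j o w).1 = K.a P + 1) = {.q (K.a P + 1)} := by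
    ext w
    rw [mem_filter, mem_singleton]
    constructor
    · rintro ⟨hw, hw1, hw2⟩
      rcases C_KK_left hC hw hw1 hw2 with ⟨Q, hQ, hQne, h⟩ | ⟨h, -, -⟩ | ⟨h, -, h2, -⟩
      · exfalso
        have h3 := (hC.ends Q hQ hQne).2.2.2.1
        rw [h, s2] at h3
        rw [h3] at h
        omega
      · exact h
      · exact absurd h2 s3
    · rintro rfl
      refine ⟨mem_q.2 lf1, by simp, ?_⟩
      rw [sys_q lf1]
      simp only
      rw [if_neg]
      rintro ⟨-, h, -⟩
      rw [Nat.add_sub_cancel] at h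
      exact e5 h
  have hR : ((K.names F win).filter fun w => w ≠ .z K.rt 0 ∧
      (K.sys F win j o w).2 = K.a P + 1) =
      insert (.q (K.a P)) ((Ioc (j P) (K.s P)).image (Nm.z P)) := by
    ext w
    rw [mem_filter, mem_insert, mem_image]
    constructor
    · rintro ⟨hw, hw1, hw2⟩
      rcases C_KK_right hC hw hw1 hw2 with ⟨Q, hQ, hQne, h⟩ |
        ⟨Q, hQ, c, hc1, hc2, rfl, ⟨h1, h2⟩ | ⟨h1, h2⟩⟩ | ⟨g, hg, rfl, ⟨h1, h2⟩ | ⟨h1, h2, h3⟩⟩
      · exfalso
        have h3 := (hC.ends Q hQ hQne).2.2.2.2.2.1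
        rw [h, Nat.add_sub_cancel, e4] at h3
        rw [← h3] at h
        omega
      · exfalso
        have h3 := (hC.ends Q hQ (C_KK_spin_ne hC (by omega))).2.2.2.2.2.1
        rw [h2, s2] at h3
        rw [← h3] at h2
        omega
      · right
        have h3 := (hC.ends Q hQ (C_KK_spin_ne hC (by omega))).2.2.2.1
        have h4 : K.a Q = K.a P := by omega
        rw [h4, e4] at h3
        subst h3
        exact ⟨c, mem_Ioc.2 ⟨h1, hc2⟩, rfl⟩
      · left
        have : g = K.a P := by omega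
        rw [this]
      · exfalso
        have : g + 1 = K.a P := by omega
        rw [this] at h2
        exact e5 h2
    · rintro (rfl | ⟨c, hc, rfl⟩)
      · refine ⟨mem_q.2 lf0, by simp, ?_⟩
        rw [sys_q lf0]
        simp only
        rw [if_neg]
        rintro ⟨h, -⟩
        exact s3 h
      · have hc' := mem_Ioc.1 hc
        refine ⟨mem_z.2 ⟨hP, hc'.2⟩, ?_, ?_⟩
        · intro h
          exact hne (Nm.z.inj h).1
        · rw [sys_z hP (by omega) hc'.2]
          simp only
          rw [if_neg (by omega)]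
  rw [hL, hR, card_singleton, card_insert_of_notMem, card_image_of_injective, Nat.card_Ioc]
  · have := hj P hP
    omega
  · intro c c' h
    exact (Nm.z.inj h).2
  · intro h
    obtain ⟨c, -, h⟩ := mem_image.1 h
    cases h

theorem kk_G (hC : K.Comb F win ex) (hG : K.Geo F win x D) (hj : ∀ P ∈ K.nodes, j P ≤ K.s P)
    {P : ν} (hP : P ∈ K.nodes) (hs : 1 ≤ K.s P) :
    kk D (K.sys F win j o) (K.b P - 1) = 2 + j P := by
  have hne := C_KK_spin_ne hC hs
  obtain ⟨s1, s2, s3, s4, s5, -⟩ := hC.spin P hP hs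
  obtain ⟨e1, e2, e3, e4, e5, e6, e7⟩ := hC.ends P hP hne
  have lf1 : K.b P - 1 ∈ lf F win := mem_lf.2 ⟨by omega, by omega, e7⟩
  have lf0 : K.b P - 2 ∈ lf F win := mem_lf.2 ⟨by omega, by omega, s5⟩
  rw [C_KK_kk hG]
  have hL : ((K.names F win).filter fun w => w ≠ .z K.rt 0 ∧
      (K.sys F win j o w).1 = K.b P - 1) = {.q (K.b P - 1)} := by
    ext w
    rw [mem_filter, mem_singleton]
    constructor
    · rintro ⟨hw, hw1, hw2⟩
      rcases C_KK_left hC hw hw1 hw2 with ⟨Q, hQ, hQne, h⟩ | ⟨h, -, -⟩ | ⟨h, -, h2, -⟩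
      · exfalso
        have h3 := (hC.ends Q hQ hQne).2.2.2.1
        rw [h, e6] at h3
        rw [← h3] at h
        omega
      · exact h
      · exact absurd h2 e7
    · rintro rfl
      refine ⟨mem_q.2 lf1, by simp, ?_⟩
      rw [sys_q lf1]
      simp only
      rw [if_neg]
      rintro ⟨-, h, -⟩
      have : K.b P - 1 - 1 = K.b P - 2 := by omega
      rw [this] at h
      exact s5 h
  have hR : ((K.names F win).filter fun w => w ≠ .z K.rt 0 ∧
      (K.sys F win j o w).2 = K.b P - 1) =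
      insert (.q (K.b P - 2)) ((Ioc 0 (j P)).image (Nm.z P)) := by
    ext w
    rw [mem_filter, mem_insert, mem_image]
    constructor
    · rintro ⟨hw, hw1, hw2⟩
      rcases C_KK_right hC hw hw1 hw2 with ⟨Q, hQ, hQne, h⟩ |
        ⟨Q, hQ, c, hc1, hc2, rfl, ⟨h1, h2⟩ | ⟨h1, h2⟩⟩ | ⟨g, hg, rfl, ⟨h1, h2⟩ | ⟨h1, h2, h3⟩⟩
      · exfalso
        have h3 := (hC.ends Q hQ hQne).2.2.2.2.2.1
        have h4 : K.b Q - 1 = K.b P - 2 := by omega
        rw [h4, s4] at h3
        rw [← h3] at h
        omega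
      · right
        have h3 := (hC.ends Q hQ (C_KK_spin_ne hC (by omega))).2.2.2.2.2.1
        rw [h2, e6] at h3
        subst h3
        exact ⟨c, mem_Ioc.2 ⟨by omega, h1⟩, rfl⟩
      · exfalso
        have h3 := (hC.ends Q hQ (C_KK_spin_ne hC (by omega))).2.2.2.1
        have h4 : K.a Q = K.b P - 2 := by omega
        rw [h4, s4] at h3
        rw [← h3] at h4
        omega
      · left
        have : g = K.b P - 2 := by omega
        rw [this]
      · exfalso
        have : g + 1 = K.b P - 2 := by omega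
        rw [this] at h2
        exact s5 h2
    · rintro (rfl | ⟨c, hc, rfl⟩)
      · refine ⟨mem_q.2 lf0, by simp, ?_⟩
        rw [sys_q lf0]
        simp only
        rw [if_neg]
        · omega
        · rintro ⟨h, -⟩
          have : K.b P - 2 + 1 = K.b P - 1 := by omega
          rw [this] at h
          exact e7 h
      · have hc' := mem_Ioc.1 hc
        have hjs := hj P hP
        refine ⟨mem_z.2 ⟨hP, by omega⟩, ?_, ?_⟩
        · intro h
          exact hne (Nm.z.inj h).1
        · rw [sys_z hP (by omega) (by omega)]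
          simp only
          rw [if_pos (by omega)]
  rw [hL, hR, card_singleton, card_insert_of_notMem, card_image_of_injective, Nat.card_Ioc]
  · omega
  · intro c c' h
    exact (Nm.z.inj h).2
  · intro h
    obtain ⟨c, -, h⟩ := mem_image.1 h
    cases h

theorem kk_win (hC : K.Comb F win ex) (hG : K.Geo F win x D) (hj : ∀ P ∈ K.nodes, j P ≤ K.s P)
    (ho : ∀ w ∈ win, o w < 3) {w : ℕ} (hw : w ∈ win) :
    kk D (K.sys F win j o) w = (if o w = 0 then 1 else if o w = 1 then 0 else 2) ∧
      kk D (K.sys F win j o) (w + 1) = (if o w = 0 then 1 else if o w = 1 then 2 else 0) := by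
  have how := ho w hw
  obtain ⟨f1, f2, f3, f4, f5, f6, f7, f8, f9, f10⟩ := hC.win_facts hw
  have hwm : w - 1 ∉ win := (mem_lf.1 f5).2.2
  have hwp : w + 1 ∉ win := (mem_lf.1 f6).2.2
  have L1 : ((K.names F win).filter fun v => v ≠ .z K.rt 0 ∧ (K.sys F win j o v).1 = w) =
      if o w = 2 then {.q (w + 1)} else ∅ := by
    ext v
    rw [mem_filter]
    constructor
    · rintro ⟨hv, hv1, hv2⟩
      rcases C_KK_left hC hv hv1 hv2 with ⟨Q, hQ, hQne, h⟩ | ⟨h, h1, -⟩ | ⟨h, -, h2, h3⟩
      · exfalso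
        have h3 := (hC.ends Q hQ hQne).2.2.2.2.1
        rw [h] at h3
        exact h3 hw
      · exact absurd hw (mem_lf.1 h1).2.2
      · rw [if_pos h3, mem_singleton]
        exact h
    · intro h
      split_ifs at h with h1
      · rw [mem_singleton] at h
        subst h
        refine ⟨mem_q.2 f6, by simp, ?_⟩
        rw [sys_q f6]
        simp only
        rw [Nat.add_sub_cancel, if_pos ⟨by omega, hw, h1⟩]
      · exact absurd h (notMem_empty _)
  have L2 : ((K.names F win).filter fun v => v ≠ .z K.rt 0 ∧ (K.sys F win j o v).1 = w + 1) =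
      if o w = 2 then ∅ else {.q (w + 1)} := by
    ext v
    rw [mem_filter]
    constructor
    · rintro ⟨hv, hv1, hv2⟩
      rcases C_KK_left hC hv hv1 hv2 with ⟨Q, hQ, hQne, h⟩ | ⟨h, h1, h2⟩ | ⟨h, -, h2, h3⟩
      · exfalso
        have h3 := (hC.outer Q hQ hQne).2.1
        rw [h, Nat.add_sub_cancel] at h3
        exact h3 hw
      · rw [Nat.add_sub_cancel] at h2
        rw [if_neg (fun h3 => h2 ⟨hw, h3⟩), mem_singleton]
        exact h
      · exact absurd h2 hwp
    · intro h
      split_ifs at h with h1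
      · exact absurd h (notMem_empty _)
      · rw [mem_singleton] at h
        subst h
        refine ⟨mem_q.2 f6, by simp, ?_⟩
        rw [sys_q f6]
        simp only
        rw [Nat.add_sub_cancel, if_neg (fun h3 => h1 h3.2.2)]
  have R1 : ((K.names F win).filter fun v => v ≠ .z K.rt 0 ∧ (K.sys F win j o v).2 = w) =
      if o w = 1 then ∅ else {.q (w - 1)} := by
    ext v
    rw [mem_filter]
    constructor
    · rintro ⟨hv, hv1, hv2⟩
      rcases C_KK_right hC hv hv1 hv2 with ⟨Q, hQ, hQne, h⟩ |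
        ⟨Q, hQ, c, hc1, hc2, rfl, ⟨h1, h2⟩ | ⟨h1, h2⟩⟩ | ⟨g, hg, rfl, ⟨h1, h2⟩ | ⟨h1, h2, h3⟩⟩
      · exfalso
        have h3 := (hC.outer Q hQ hQne).2.2.2
        rw [h] at h3
        exact h3 hw
      · exfalso
        have h3 := (hC.ends Q hQ (C_KK_spin_ne hC (by omega))).2.2.2.2.2.2
        rw [h2] at h3
        exact h3 hw
      · exfalso
        have h3 := (hC.spin Q hQ (by omega)).2.2.1
        rw [h2] at h3
        exact h3 hw
      · rw [if_neg (fun h3 => h2 ⟨hw, h3⟩), mem_singleton]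
        have : g = w - 1 := by omega
        rw [this]
      · exfalso
        have : g + 1 = w - 1 := by omega
        rw [this] at h2
        exact hwm h2
    · intro h
      split_ifs at h with h1
      · exact absurd h (notMem_empty _)
      · rw [mem_singleton] at h
        subst h
        refine ⟨mem_q.2 f5, by simp, ?_⟩
        rw [sys_q f5]
        simp only
        have e : w - 1 + 1 = w := by omega
        rw [e, if_neg (fun h3 => h1 h3.2)]
  have R2 : ((K.names F win).filter fun v => v ≠ .z K.rt 0 ∧ (K.sys F win j o v).2 = w + 1) =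
      if o w = 1 then {.q (w - 1)} else ∅ := by
    ext v
    rw [mem_filter]
    constructor
    · rintro ⟨hv, hv1, hv2⟩
      rcases C_KK_right hC hv hv1 hv2 with ⟨Q, hQ, hQne, h⟩ |
        ⟨Q, hQ, c, hc1, hc2, rfl, ⟨h1, h2⟩ | ⟨h1, h2⟩⟩ | ⟨g, hg, rfl, ⟨h1, h2⟩ | ⟨h1, h2, h3⟩⟩
      · exfalso
        have h3 := (hC.ends Q hQ hQne).2.2.2.2.2.2
        rw [h, Nat.add_sub_cancel] at h3
        exact h3 hw
      · exfalso
        have h3 := (hC.spin Q hQ (by omega)).2.2.2.2.1
        have : K.b Q - 2 = w := by omega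
        rw [this] at h3
        exact h3 hw
      · exfalso
        have h3 := (hC.ends Q hQ (C_KK_spin_ne hC (by omega))).2.2.2.2.1
        have : K.a Q = w := by omega
        rw [this] at h3
        exact h3 hw
      · exfalso
        have : g = w := by omega
        rw [this] at hg
        exact (mem_lf.1 hg).2.2 hw
      · have e : g + 1 = w := by omega
        rw [e] at h3
        rw [if_pos h3, mem_singleton]
        have : g = w - 1 := by omega
        rw [this]
    · intro h
      split_ifs at h with h1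
      · rw [mem_singleton] at h
        subst h
        refine ⟨mem_q.2 f5, by simp, ?_⟩
        rw [sys_q f5]
        simp only
        have e : w - 1 + 1 = w := by omega
        rw [e, if_pos ⟨hw, h1⟩]
        omega
      · exact absurd h (notMem_empty _)
  rw [C_KK_kk hG, C_KK_kk hG, L1, L2, R1, R2]
  have h3 : o w = 0 ∨ o w = 1 ∨ o w = 2 := by omega
  rcases h3 with h3 | h3 | h3 <;> rw [h3] <;> simp

theorem kk_other (hC : K.Comb F win ex) (hG : K.Geo F win x D)
    (hj : ∀ P ∈ K.nodes, j P ≤ K.s P) {f : ℕ}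
    (h1 : ∀ P ∈ K.nodes, 1 ≤ K.s P → f ≠ K.a P + 1 ∧ f ≠ K.b P - 1)
    (h2 : ∀ w ∈ win, f ≠ w ∧ f ≠ w + 1) :
    kk D (K.sys F win j o) f = kk D (K.sys F win (fun _ => 0) (fun _ => 0)) f := by
  rw [C_KK_kk hG, C_KK_kk hG]
  congr 2
  · refine filter_congr fun w hw => and_congr_right fun hne => ?_
    cases w with
    | z P c =>
      have hz := mem_z.1 hw
      rcases Nat.eq_zero_or_pos c with rfl | hc
      · rw [sys_z0 hz.1, sys_z0 hz.1]
      · rw [sys_z hz.1 hc hz.2, sys_z hz.1 hc hz.2]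
    | q g =>
      have hg := mem_q.1 hw
      have hl := mem_lf.1 hg
      rw [sys_q hg, sys_q hg]
      simp only
      rw [if_neg (show ¬ (1 ≤ g ∧ g - 1 ∈ win ∧ 0 = 2) by omega)]
      split_ifs with h3
      · have h4 := h2 _ h3.2.1
        constructor <;> intro h5 <;> omega
      · exact Iff.rfl
    | cap Q =>
      have hz := mem_cap.1 hw
      rw [sys_cap hz.1 hz.2, sys_cap hz.1 hz.2]
  · refine filter_congr fun w hw => and_congr_right fun hne => ?_
    cases w with
    | z P c =>
      have hz := mem_z.1 hw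
      rcases Nat.eq_zero_or_pos c with rfl | hc
      · rw [sys_z0 hz.1, sys_z0 hz.1]
      · rw [sys_z hz.1 hc hz.2, sys_z hz.1 hc hz.2]
        have h3 := h1 P hz.1 (by omega)
        simp only
        constructor <;> intro h4 <;> split_ifs at h4 <;> omega
    | q g =>
      have hg := mem_q.1 hw
      have hl := mem_lf.1 hg
      rw [sys_q hg, sys_q hg]
      simp only
      rw [if_neg (show ¬ (g + 1 ∈ win ∧ 0 = 1) by omega)]
      split_ifs with h3
      · have h4 := h2 _ h3.1
        constructor <;> intro h5 <;> omega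
      · exact Iff.rfl
    | cap Q =>
      have hz := mem_cap.1 hw
      rw [sys_cap hz.1 hz.2, sys_cap hz.1 hz.2]

theorem prod_kk' (hC : K.Comb F win ex) (hG : K.Geo F win x D) :
    ∃ c : ℚ, 0 < c ∧ ∀ (j : ν → ℕ) (o : ℕ → ℕ), (∀ P ∈ K.nodes, j P ≤ K.s P) →
      (∀ w ∈ win, o w < 3) →
      ∏ f ∈ Ioo 0 F, ((Nat.factorial (kk D (K.sys F win j o) f) : ℚ))⁻¹ =
        c * (∏ P ∈ K.nodes.filter (fun P => 1 ≤ K.s P), wt (K.s P) (j P)) *
          ∏ w ∈ win, (if o w = 0 then (1 : ℚ) else 1 / 2) := by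
  classical
  set Sp := K.nodes.filter (fun P => 1 ≤ K.s P) with hSp
  have hSpm : ∀ P, P ∈ Sp ↔ P ∈ K.nodes ∧ 1 ≤ K.s P := fun P => by rw [hSp, mem_filter]
  set S := (Sp.image (fun P => K.a P + 1) ∪ Sp.image (fun P => K.b P - 1)) ∪
    (win ∪ win.image (fun w => w + 1)) with hS
  have hfin : ∀ P ∈ Sp, (K.a P + 4 ≤ K.b P ∧ K.own (K.a P + 1) = P ∧ K.a P + 1 ∉ win ∧
      K.own (K.b P - 2) = P ∧ K.b P - 2 ∉ win) ∧ (0 < K.a P ∧ K.b P < F ∧
      K.own (K.a P) = P ∧ K.a P ∉ win ∧ K.own (K.b P - 1) = P ∧ K.b P - 1 ∉ win) := by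
    intro P hP
    rw [hSpm] at hP
    obtain ⟨s1, s2, s3, s4, s5, -⟩ := hC.spin P hP.1 hP.2
    obtain ⟨e1, e2, e3, e4, e5, e6, e7⟩ := hC.ends P hP.1 (C_KK_spin_ne hC hP.2)
    exact ⟨⟨s1, s2, s3, s4, s5⟩, e1, e3, e4, e5, e6, e7⟩
  have hsub : S ⊆ Ioo 0 F := by
    intro f hf
    rw [hS, mem_union, mem_union, mem_union, mem_image, mem_image, mem_image] at hf
    rw [mem_Ioo]
    rcases hf with (⟨P, hP, rfl⟩ | ⟨P, hP, rfl⟩) | (hf | ⟨w, hw, rfl⟩)
    · have := hfin P hP
      omega
    · have := hfin P hP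
      omega
    · have := hC.win_facts hf
      omega
    · have := hC.win_facts hw
      omega
  refine ⟨∏ f ∈ Ioo 0 F \ S,
    ((Nat.factorial (kk D (K.sys F win (fun _ => 0) (fun _ => 0)) f) : ℚ))⁻¹, ?_, ?_⟩
  · refine prod_pos fun f _ => ?_
    exact inv_pos.2 (Nat.cast_pos.2 (Nat.factorial_pos _))
  intro j o hj ho
  rw [← prod_sdiff hsub, mul_assoc]
  congr 1
  · refine prod_congr rfl fun f hf => ?_
    rw [mem_sdiff] at hf
    rw [kk_other hC hG hj]
    · intro P hP hs
      refine ⟨?_, ?_⟩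
      · rintro rfl
        apply hf.2
        rw [hS]
        exact mem_union_left _ (mem_union_left _
          (mem_image.2 ⟨P, (hSpm P).2 ⟨hP, hs⟩, rfl⟩))
      · rintro rfl
        apply hf.2
        rw [hS]
        exact mem_union_left _ (mem_union_right _
          (mem_image.2 ⟨P, (hSpm P).2 ⟨hP, hs⟩, rfl⟩))
    · intro w hw
      refine ⟨?_, ?_⟩
      · rintro rfl
        apply hf.2
        rw [hS]
        exact mem_union_right _ (mem_union_left _ hw)
      · rintro rfl
        apply hf.2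
        rw [hS]
        exact mem_union_right _ (mem_union_right _ (mem_image.2 ⟨w, hw, rfl⟩))
  · have d1 : Disjoint (Sp.image (fun P => K.a P + 1) ∪ Sp.image (fun P => K.b P - 1))
        (win ∪ win.image (fun w => w + 1)) := by
      rw [disjoint_left]
      intro f hf hf'
      rw [mem_union, mem_image, mem_image] at hf
      rw [mem_union, mem_image] at hf'
      rcases hf with ⟨P, hP, rfl⟩ | ⟨P, hP, rfl⟩
      · have h := hfin P hP
        rcases hf' with hf' | ⟨w, hw, hf'⟩
        · exact h.1.2.2.1 hf'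
        · have : K.a P = w := by omega
          rw [← this] at hw
          exact h.2.2.2.2.1 hw
      · have h := hfin P hP
        rcases hf' with hf' | ⟨w, hw, hf'⟩
        · exact h.2.2.2.2.2.2 hf'
        · have : K.b P - 2 = w := by omega
          rw [← this] at hw
          exact h.1.2.2.2.2 hw
    have d2 : Disjoint (Sp.image (fun P => K.a P + 1)) (Sp.image (fun P => K.b P - 1)) := by
      rw [disjoint_left]
      intro f hf hf'
      rw [mem_image] at hf hf'
      obtain ⟨P, hP, rfl⟩ := hf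
      obtain ⟨Q, hQ, h⟩ := hf'
      have h1 := (hfin P hP).1.2.1
      have h2 := (hfin Q hQ).2.2.2.2.2.1
      rw [h, h1] at h2
      subst h2
      have := (hfin P hP).1.1
      omega
    have d3 : Disjoint win (win.image (fun w => w + 1)) := by
      rw [disjoint_left]
      intro f hf hf'
      obtain ⟨w, hw, rfl⟩ := mem_image.1 hf'
      exact (hC.wins w hw).2.2.2.2.1 hf
    have i1 : Set.InjOn (fun P => K.a P + 1) (Sp : Set ν) := by
      intro P hP Q hQ h
      have h1 := (hfin P hP).1.2.1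
      have h2 := (hfin Q hQ).1.2.1
      simp only at h
      rw [← h, h1] at h2
      exact h2
    have i2 : Set.InjOn (fun P => K.b P - 1) (Sp : Set ν) := by
      intro P hP Q hQ h
      have h1 := (hfin P hP).2.2.2.2.2.1
      have h2 := (hfin Q hQ).2.2.2.2.2.1
      simp only at h
      rw [← h, h1] at h2
      exact h2
    rw [hS, prod_union d1, prod_union d2, prod_union d3, prod_image i1, prod_image i2,
      prod_image (fun w _ w' _ h => Nat.succ_injective h), ← prod_mul_distrib,
      ← prod_mul_distrib]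
    congr 1
    · refine prod_congr rfl fun P hP => ?_
      rw [hSpm] at hP
      rw [kk_E hC hG hj hP.1 hP.2, kk_G hC hG hj hP.1 hP.2]
      rfl
    · refine prod_congr rfl fun w hw => ?_
      have h := kk_win hC hG hj ho hw
      rw [h.1, h.2]
      have how := ho w hw
      have h3 : o w = 0 ∨ o w = 1 ∨ o w = 2 := by omega
      rcases h3 with h3 | h3 | h3 <;> rw [h3] <;> norm_num [Nat.factorial]

end Skel

end Pool.Agent.TRI
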