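import Pool.Agent.TRI.C_SysPar

/-!
Area C, task Lab. The labels of `sys j o`.

`lab_eq`: `IsLab` determines the point: two points of the same (lowest) height covering `g` contradict
`hR.same` (`IsTS.not_cov_same`). For the three statements prove `IsLab D (sys j o) g v` for the claimed `v` and
use `lab_eq` with `sys_isTS`.
* gap `g` in `lf`: `v = q g` (`sys_q_cov`). A name `u` covering `g`: `cl u` covers `g` (`sys_conf`), so
  `cl u = own g` or `Anc (cl u) (own g)` (`Comb.own_or_anc`); in the second case `hG.home`; in the first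
  case `Geo.high_z` would give `u` lower than `q g` impossible.
* `g = 0` or `g = F - 1`: a name covering `g` is `z rt 0` by `sys_bd`.
* window `w`, `P = own w`: `o w = 1`: `q (w - 1)`; `o w = 2`: `q (w + 1)` (both have the height of all leaves
  of `P`, so nothing lower covers `w`, as above). `o w = 0`: `z P (j P)`: no leaf of `P` covers `w`
  (`sys_q_cov`), no cap of a child (`own w = P`, `Comb.own_not_cov`); `z P c` covers `w` iff `c ≤ j P`.
-/

set_option linter.unusedSectionVars false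

namespace Pool.Agent.TRI

theorem lab_eq {α : Type} {D : Side α} {F : ℕ} {x : ℕ → ℝ} {R : α → ℕ × ℕ} (hR : IsTS D F x R)
    {g : ℕ} {v : α} (hv : IsLab D R g v) : lab D R g = v := by
  have hex : ∃ v, IsLab D R g v := ⟨v, hv⟩
  unfold lab
  rw [dif_pos hex]
  have hu := hex.choose_spec
  by_contra hne
  have he : (D.pt hex.choose).2 = (D.pt v).2 :=
    le_antisymm (hu.2.2.2 v hv.1 hv.2.1 hv.2.2.1) (hv.2.2.2 _ hu.1 hu.2.1 hu.2.2.1)
  exact hR.not_cov_same hu.1 hv.1 hne he ⟨hu.2.1, hu.2.2.1⟩ ⟨hv.2.1, hv.2.2.1⟩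

namespace Skel

open Finset

variable {ν : Type} [DecidableEq ν] {K : Skel ν} {F : ℕ} {win : Finset ℕ} {ex : ℕ → ℕ}
  {x : ℕ → ℝ} {D : Side (Nm ν)}

/-- a leaf covering the gap `g` is the label -/
theorem lab_q_aux (hC : K.Comb F win ex) (hG : K.Geo F win x D) {j : ν → ℕ} {o : ℕ → ℕ}
    (hj : ∀ P ∈ K.nodes, j P ≤ K.s P) {g h : ℕ} (hh : h ∈ lf F win)
    (hcov : Cov (K.sys F win j o (.q h)) g) : lab D (K.sys F win j o) g = .q h := by
  refine lab_eq (sys_isTS hC hG hj) ?_
  have hq : (Nm.q h : Nm ν) ∈ K.names F win := mem_q.2 hh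
  refine ⟨hG.mem_I.2 hq, hcov.1, hcov.2, ?_⟩
  intro u hu hu1 hu2
  have hun := hG.mem_I.1 hu
  have hcu := sys_conf (o := o) hC hj hun
  have hown := sys_q_own hC hh hcov
  by_contra hcon
  rw [not_le] at hcon
  rcases hC.own_or_anc (hC.cl_mem hun) (g := g) (by omega) (by omega) with h1 | h1
  · rw [hown] at h1
    obtain ⟨c, -, hc⟩ := hG.high_z hC hq hun h1.symm hcon
    exact absurd hc (by simp)
  · rw [hown] at h1
    have := (hG.home u hun (.q h) hq h1).1
    linarith

theorem lab_leaf' (hC : K.Comb F win ex) (hG : K.Geo F win x D) {j : ν → ℕ} {o : ℕ → ℕ}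
    (hj : ∀ P ∈ K.nodes, j P ≤ K.s P) (ho : ∀ w ∈ win, o w < 3) {g : ℕ} (hg : g ∈ lf F win) :
    lab D (K.sys F win j o) g = .q g :=
  lab_q_aux hC hG hj hg ((sys_q_cov hg g).2 (Or.inl rfl))

theorem lab_extreme' (hC : K.Comb F win ex) (hG : K.Geo F win x D) {j : ν → ℕ} {o : ℕ → ℕ}
    (hj : ∀ P ∈ K.nodes, j P ≤ K.s P) (ho : ∀ w ∈ win, o w < 3) {g : ℕ}
    (hg : g = 0 ∨ g = F - 1) : lab D (K.sys F win j o) g = .z K.rt 0 := by
  have h3 := hC.three
  refine lab_eq (sys_isTS hC hG hj) ?_
  have hS : K.sys F win j o (.z K.rt 0) = (0, F) := by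
    rw [sys_z0 hC.rt_mem, hC.a_rt, hC.b_rt]
  refine ⟨hG.mem_I.2 (Geo.top_mem hC), ?_, ?_, ?_⟩
  · rw [hS]; exact Nat.zero_le _
  · rw [hS]
    show g < F
    omega
  · intro u hu hu1 hu2
    have hun := hG.mem_I.1 hu
    by_cases hne : u = .z K.rt 0
    · rw [hne]
    · exfalso
      have := sys_bd (o := o) hC hj hun hne
      omega

theorem lab_win' (hC : K.Comb F win ex) (hG : K.Geo F win x D) {j : ν → ℕ} {o : ℕ → ℕ}
    (hj : ∀ P ∈ K.nodes, j P ≤ K.s P) (ho : ∀ w ∈ win, o w < 3) {w : ℕ} (hw : w ∈ win) :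
    lab D (K.sys F win j o) w =
      if o w = 0 then .z (K.own w) (j (K.own w)) else if o w = 1 then .q (w - 1)
        else .q (w + 1) := by
  obtain ⟨hP, hPr, -, -, hl, hr, ha, hb, hF, hw3⟩ := hC.win_facts hw
  by_cases h0 : o w = 0
  · rw [if_pos h0]
    refine lab_eq (sys_isTS hC hG hj) ?_
    have hz : Nm.z (K.own w) (j (K.own w)) ∈ K.names F win := mem_z.2 ⟨hP, hj _ hP⟩
    have hcov : (K.sys F win j o (.z (K.own w) (j (K.own w)))).1 ≤ w ∧
        w < (K.sys F win j o (.z (K.own w) (j (K.own w)))).2 := by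
      rcases Nat.eq_zero_or_pos (j (K.own w)) with h | h
      · rw [h, sys_z0 hP]
        constructor <;> dsimp only <;> omega
      · rw [sys_z hP h (hj _ hP), if_pos le_rfl]
        constructor <;> dsimp only <;> omega
    refine ⟨hG.mem_I.2 hz, hcov.1, hcov.2, ?_⟩
    intro u hu hu1 hu2
    have hun := hG.mem_I.1 hu
    have hcu := sys_conf (o := o) hC hj hun
    rcases hC.own_or_anc (hC.cl_mem hun) (g := w) (by omega) (by omega) with h1 | h1
    · cases u with
      | z P c =>
        have hzP := mem_z.1 hun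
        have h2 : P = K.own w := h1
        subst h2
        rcases Nat.lt_or_ge (j (K.own w)) c with h3 | h3
        · exfalso
          rw [sys_z hP (by omega) hzP.2, if_neg (by omega)] at hu2
          dsimp only at hu2
          omega
        · rcases Nat.lt_or_ge c (j (K.own w)) with h4 | h4
          · exact (hG.chain _ hP c _ h4 (hj _ hP)).le
          · have : c = j (K.own w) := by omega
            rw [this]
      | q g =>
        exfalso
        have hg := mem_q.1 hun
        rcases (sys_q_cov hg w).1 ⟨hu1, hu2⟩ with h2 | ⟨-, -, h2⟩ | ⟨-, -, h2⟩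
        · subst h2
          exact (mem_lf.1 hg).2.2 hw
        · omega
        · omega
      | cap Q =>
        exfalso
        have hQ := mem_cap.1 hun
        have h2 : K.par Q = K.own w := h1
        rw [sys_cap hQ.1 hQ.2] at hu1 hu2
        dsimp only at hu1 hu2
        rcases hC.own_not_cov (hC.anc_par hQ.1 hQ.2) h2.symm with h3 | h3 <;> omega
    · exact (hG.home u hun _ hz h1).1.le
  · rw [if_neg h0]
    by_cases h1 : o w = 1
    · rw [if_pos h1]
      refine lab_q_aux hC hG hj hl ?_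
      exact (sys_q_cov hl w).2 (Or.inr (Or.inr ⟨by omega, hw, h1⟩))
    · rw [if_neg h1]
      have h2 : o w = 2 := by
        have := ho w hw
        omega
      refine lab_q_aux hC hG hj hr ?_
      exact (sys_q_cov hr w).2 (Or.inr (Or.inl ⟨rfl, hw, h2⟩))

end Skel

end Pool.Agent.TRI
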