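import Pool.Agent.TRI.C_Geo

/-!
Area C, general lemmas about tent systems. (helper45, proved)
-/

set_option linter.unusedSectionVars false

namespace Pool.Agent.TRI

open Finset

variable {α : Type} {D : Side α} {F : ℕ} {x : ℕ → ℝ} {R : α → ℕ × ℕ}

theorem IsTS.lt (hR : IsTS D F x R) (hF : 0 < F) {w : α} (hw : w ∈ D.I) :
    (R w).1 < (R w).2 ∧ (R w).2 ≤ F := by
  by_cases h : w = D.top
  · rw [h, hR.rt]
    exact ⟨hF, le_refl _⟩
  · have := hR.bd w hw h
    exact ⟨this.2.1, this.2.2.le⟩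

/-- every point except the top has a parent -/
theorem IsTS.exists_par (hR : IsTS D F x R) (hg : D.Good F x) (hF : 0 < F) {w : α}
    (hw : w ∈ D.I) (hne : w ≠ D.top) : ∃ v, IsPar D R v w := by
  classical
  set S := D.I.filter (fun u => (D.pt w).2 < (D.pt u).2 ∧ (R u).1 ≤ (R w).1 ∧ (R w).2 ≤ (R u).2)
    with hS
  have htop : D.top ∈ S := by
    rw [hS, mem_filter]
    refine ⟨hg.top_mem, (hg.inside w hw hne).1, ?_, ?_⟩
    · rw [hR.rt]; exact Nat.zero_le _
    · rw [hR.rt]; exact (hR.lt hF hw).2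
  obtain ⟨v, hv, hmin⟩ := S.exists_min_image (fun u => (D.pt u).2) ⟨_, htop⟩
  have hv' := (mem_filter.1 (hS ▸ hv))
  refine ⟨v, hv'.1, hv'.2.1, hv'.2.2.1, hv'.2.2.2, fun u hu h1 h2 h3 => ?_⟩
  exact hmin u (by rw [hS, mem_filter]; exact ⟨hu, h1, h2, h3⟩)

theorem IsTS.sub_of_cov (hR : IsTS D F x R) {v w : α} (hv : v ∈ D.I) (hw : w ∈ D.I)
    (hlt : (D.pt w).2 < (D.pt v).2) {g : ℕ} (h1 : Skel.Cov (R v) g) (h2 : Skel.Cov (R w) g) :
    (R v).1 ≤ (R w).1 ∧ (R w).2 ≤ (R v).2 := by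
  rcases hR.lam v hv w hw hlt with h | h | h
  · exact h
  · have := h1.1; have := h2.2; omega
  · have := h1.2; have := h2.1; omega

theorem IsTS.not_cov_same (hR : IsTS D F x R) {v w : α} (hv : v ∈ D.I) (hw : w ∈ D.I)
    (hne : v ≠ w) (he : (D.pt v).2 = (D.pt w).2) {g : ℕ} (h1 : Skel.Cov (R v) g)
    (h2 : Skel.Cov (R w) g) : False := by
  rcases hR.same v hv w hw hne he with h | h
  · have := h1.1; have := h2.2; omega
  · have := h1.2; have := h2.1; omega

namespace Skel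

variable {ν : Type} [DecidableEq ν] {K : Skel ν} {win : Finset ℕ} {ex : ℕ → ℕ}
  {D : Side (Nm ν)} {R : Nm ν → ℕ × ℕ}

/-- the interval of a point covers the gap that contains the slope of its parent -/
theorem par_cov (hC : K.Comb F win ex) (hG : K.Geo F win x D) (hR : IsTS D F x R)
    {v w : Nm ν} (hw : w ∈ K.names F win) (hp : IsPar D R v w) {g : ℕ} (hg : g < F)
    (h1 : x g < sl (D.pt v) (D.pt w)) (h2 : sl (D.pt v) (D.pt w) < x (g + 1)) :
    Cov (R w) g := by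
  have h3 := hR.par w (hG.mem_I.2 hw) v hp
  have hF : 0 < F := by have := hC.three; omega
  have h4 := hR.lt hF (hG.mem_I.2 hw)
  have h5 : (R w).1 < g + 1 := hG.lt_of_x (by omega) (h3.1.trans h2)
  have h6 : g < (R w).2 := hG.lt_of_x hg.le (h1.trans h3.2)
  exact ⟨by omega, h6⟩

/-- confinement of the cluster of `P` -/
def Conf (K : Skel ν) (F : ℕ) (win : Finset ℕ) (R : Nm ν → ℕ × ℕ) (P : ν) : Prop :=
  ∀ w ∈ K.names F win, K.cl w = P → K.a P ≤ (R w).1 ∧ (R w).2 ≤ K.b P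

/-- in the cluster of `P` only the highest point has its parent in another cluster -/
theorem parent_in (hC : K.Comb F win ex) (hG : K.Geo F win x D) (hR : IsTS D F x R)
    {P : ν} (hP : P ∈ K.nodes)
    (hconf : ∀ Q ∈ K.nodes, K.dep Q < K.dep P → K.Conf F win R Q) {w : Nm ν}
    (hw : w ∈ K.names F win) (hcl : K.cl w = P) (hne : w ≠ .z P 0) {v : Nm ν}
    (hv : IsPar D R v w) : K.cl v = P := by
  have hF : 0 < F := by have := hC.three; omega
  -- a parent outside the cluster is in an ancestor cluster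
  have key : ∀ u, u ∈ K.names F win → K.cl u = P → ∀ t, IsPar D R t u → K.cl t ≠ P →
      K.Anc (K.cl t) P ∧ Cov (R u) (K.hg P) := by
    intro u hu hcu t ht hct
    have htn : t ∈ K.names F win := hG.mem_I.1 ht.1
    have hpar := hR.par u (hG.mem_I.2 hu) t ht
    have hbd := hR.lt hF (hG.mem_I.2 hu)
    have hbt := hR.lt hF ht.1
    by_cases hanc : K.Anc (K.cl t) (K.cl u)
    · have hne' : P ≠ K.rt := by
        rw [hcu] at hanc
        exact hanc.ne_rt hC
      have hh := hG.hgb P hP hne'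
      obtain ⟨_, h1, h2⟩ := hG.home t htn u hu hanc
      rw [hcu] at h1 h2 hanc
      have hb := hC.b_le hP
      exact ⟨hanc, par_cov hC hG hR hu ht (by omega) h1 h2⟩
    · exfalso
      rcases hG.far t htn u hu (by rw [hcu]; exact hct) hanc ht.2.1 with ⟨h1, h2⟩ | ⟨_, h2⟩
      · have hcf := hconf (K.cl t) (hC.cl_mem htn) (by rw [hcu] at h1; exact h1) t htn rfl
        have hbF := hC.b_le (hC.cl_mem htn)
        have h3 : x (K.a (K.cl t)) ≤ x (R u).1 := hG.x_le (hcf.1.trans ht.2.2.1) (by omega)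
        have h4 : x (R u).2 ≤ x (K.b (K.cl t)) := hG.x_le (ht.2.2.2.1.trans hcf.2) hbF
        exact h2 ⟨by linarith [hpar.1], by linarith [hpar.2]⟩
      · have h3 : x 0 ≤ x (R u).1 := hG.x_le (Nat.zero_le _) (by omega)
        have h4 : x (R u).2 ≤ x F := hG.x_le hbd.2 le_rfl
        exact h2 ⟨by linarith [hpar.1], by linarith [hpar.2]⟩
  by_contra hcv
  obtain ⟨ha, hc⟩ := key w hw hcl v hv hcv
  have hz : Nm.z P 0 ∈ K.names F win := mem_z.2 ⟨hP, Nat.zero_le _⟩
  have hPr : P ≠ K.rt := ha.ne_rt hC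
  have hztop : Nm.z P 0 ≠ D.top := by
    rw [hG.top_eq]
    intro h
    injection h with h1
    exact hPr h1
  obtain ⟨t, ht⟩ := hR.exists_par hG.good hF (hG.mem_I.2 hz) hztop
  have hct : K.cl t ≠ P := by
    intro h
    have htn := hG.mem_I.1 ht.1
    have hh := ht.2.1
    by_cases he : t = .z (K.cl t) 0
    · rw [he, h] at hh
      exact lt_irrefl _ hh
    · have h1 := hG.z0_high hC htn he
      rw [h] at h1
      linarith
  obtain ⟨_, hc0⟩ := key (.z P 0) hz rfl t ht hct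
  have hlt : (D.pt w).2 < (D.pt (.z P 0)).2 := by
    have := hG.z0_high hC hw (by rw [hcl]; exact hne)
    rwa [hcl] at this
  have hsub := hR.sub_of_cov (hG.mem_I.2 hz) (hG.mem_I.2 hw) hlt hc0 hc
  have h1 := hv.2.2.2.2 (.z P 0) (hG.mem_I.2 hz) hlt hsub.1 hsub.2
  have h2 := (hG.home v (hG.mem_I.1 hv.1) (.z P 0) hz ha).1
  linarith

/-- parents inside a cluster are on the chain -/
theorem parent_chain (hC : K.Comb F win ex) (hG : K.Geo F win x D) (hR : IsTS D F x R)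
    {P : ν} (hP : P ∈ K.nodes)
    (hconf : ∀ Q ∈ K.nodes, K.dep Q < K.dep P → K.Conf F win R Q) {w : Nm ν}
    (hw : w ∈ K.names F win) (hcl : K.cl w = P) (hne : w ≠ .z P 0) :
    ∃ c ≤ K.s P, IsPar D R (.z P c) w := by
  have hF : 0 < F := by have := hC.three; omega
  have hwt : w ≠ D.top := by
    rw [hG.top_eq]
    rintro rfl
    have : K.rt = P := hcl
    rw [this] at hne
    exact hne rfl
  obtain ⟨v, hv⟩ := hR.exists_par hG.good hF (hG.mem_I.2 hw) hwt
  have h1 := parent_in hC hG hR hP hconf hw hcl hne hv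
  obtain ⟨c, hc, rfl⟩ := hG.high_z hC (hG.mem_I.1 hv.1) hw (by rw [h1, hcl]) hv.2.1
  rw [hcl] at hc hv
  exact ⟨c, hc, hv⟩

theorem cov_z (hC : K.Comb F win ex) (hG : K.Geo F win x D) (hR : IsTS D F x R)
    {P : ν} (hP : P ∈ K.nodes)
    (hconf : ∀ Q ∈ K.nodes, K.dep Q < K.dep P → K.Conf F win R Q) {c : ℕ} (hc1 : 1 ≤ c)
    (hc : c ≤ K.s P) : Cov (R (.z P c)) (K.a P) := by
  have hz : Nm.z P c ∈ K.names F win := mem_z.2 ⟨hP, hc⟩
  obtain ⟨b, hb, hp⟩ := parent_chain hC hG hR hP hconf hz rfl (by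
    intro h
    injection h with _ h1
    omega)
  have hbc : b < c := by
    by_contra hcon
    have hlt := hp.2.1
    rcases Nat.lt_or_ge c b with h | h
    · have := hG.chain P hP c b h hb
      linarith
    · have : b = c := by omega
      rw [this] at hlt
      exact lt_irrefl _ hlt
  obtain ⟨h1, h2⟩ := hG.hit_zz P hP b c hbc hc
  exact par_cov hC hG hR hz hp (lt_of_lt_of_le (hC.a_lt_b hP) (hC.b_le hP)) h1 h2

theorem cov_q (hC : K.Comb F win ex) (hG : K.Geo F win x D) (hR : IsTS D F x R)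
    {P : ν} (hP : P ∈ K.nodes)
    (hconf : ∀ Q ∈ K.nodes, K.dep Q < K.dep P → K.Conf F win R Q) {g : ℕ}
    (hg : g ∈ lf F win) (ho : K.own g = P) : Cov (R (.q g)) g := by
  subst ho
  have hq : (Nm.q g : Nm ν) ∈ K.names F win := mem_q.2 hg
  obtain ⟨b, hb, hp⟩ := parent_chain hC hG hR hP hconf hq rfl (by simp)
  obtain ⟨h1, h2⟩ := hG.hit_zq g hg b hb
  exact par_cov hC hG hR hq hp (by have := mem_lf.1 hg; omega) h1 h2

theorem cov_cap (hC : K.Comb F win ex) (hG : K.Geo F win x D) (hR : IsTS D F x R)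
    {P : ν} (hP : P ∈ K.nodes)
    (hconf : ∀ Q ∈ K.nodes, K.dep Q < K.dep P → K.Conf F win R Q) {Q : ν}
    (hQ : Q ∈ K.nodes) (hne : Q ≠ K.rt) (hp' : K.par Q = P) : Cov (R (.cap Q)) (K.a Q) := by
  subst hp'
  have hq : (Nm.cap Q : Nm ν) ∈ K.names F win := mem_cap.2 ⟨hQ, hne⟩
  obtain ⟨b, hb, hp⟩ := parent_chain hC hG hR hP hconf hq rfl (by simp)
  obtain ⟨h1, h2⟩ := hG.hit_zcap Q hQ hne b hb
  exact par_cov hC hG hR hq hp (lt_of_lt_of_le (hC.a_lt_b hQ) (hC.b_le hQ)) h1 h2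

end Skel

end Pool.Agent.TRI
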