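import Pool.Agent.TRI.C_SysLam
import Pool.Agent.TRI.C_TS

/-!
Area C, task SysPar. `sys j o` is a tent system.

`sys_par`: let `v` be the parent of `w` (in `S = sys j o`), `w ≠ z rt 0`, `P = cl w`.
* If `w = z P 0`: `v` is higher, so `cl v ≠ P` (`Geo.z0_high`), and `[a P, b P] = S w ⊆ S v ⊆
  [a (cl v), b (cl v)]` (`sys_conf`), hence `Anc (cl v) P` by definition; use `hG.home` and `hG.hgb`.
* Otherwise `z P 0` (or, for `w = z P c` with `c ≥ 1`, again `z P 0`) contains `w` and is higher, so
  `v` is not higher than `z P 0`, hence not `Anc (cl v) P` (`hG.home`). `cl v` covers the gap `a P`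
  (`w = z P c`), `g` (`w = q g`), resp. `a Q` (`w = cap Q`); with `Comb.own_or_anc` one gets
  `cl v = P` (for `w = cap Q`: `own (a Q) = Q`, so `cl v = Q` - impossible because points of `Q` are
  lower than `cap Q` by `hG.home` - or `Anc (cl v) Q`, then `hC.par_anc`). Then `v = z P b`
  (`Geo.high_z`) and `hG.hit_zz`, `hG.hit_zq`, `hG.hit_zcap` give the slope; compare with
  the end points by `Geo.x_le`.
-/

set_option linter.unusedSectionVars false

namespace Pool.Agent.TRI

namespace Skel

open Finset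

variable {ν : Type} [DecidableEq ν] {K : Skel ν} {F : ℕ} {win : Finset ℕ} {ex : ℕ → ℕ}
  {x : ℕ → ℝ} {D : Side (Nm ν)} {j : ν → ℕ} {o : ℕ → ℕ}

theorem sys_par (hC : K.Comb F win ex) (hG : K.Geo F win x D)
    (hj : ∀ P ∈ K.nodes, j P ≤ K.s P) {w : Nm ν} (hw : w ∈ K.names F win) {v : Nm ν}
    (hp : IsPar D (K.sys F win j o) v w) :
    x (K.sys F win j o w).1 < sl (D.pt v) (D.pt w) ∧
      sl (D.pt v) (D.pt w) < x (K.sys F win j o w).2 := by
  have hv : v ∈ K.names F win := hG.mem_I.1 hp.1
  have hcv := sys_conf (o := o) hC hj hv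
  have hcw := sys_conf (o := o) hC hj hw
  have hPn := hC.cl_mem hw
  have hbF := hC.b_le hPn
  obtain ⟨-, hlt, hs1, hs2, hmin⟩ := hp
  by_cases hz : w = .z (K.cl w) 0
  · -- the highest point of its cluster
    have hne : K.cl v ≠ K.cl w := by
      intro h
      by_cases h1 : v = .z (K.cl v) 0
      · rw [h1, h, ← hz] at hlt
        exact lt_irrefl _ hlt
      · have h2 := hG.z0_high hC hv h1
        rw [h, ← hz] at h2
        linarith
    have hS : K.sys F win j o w = (K.a (K.cl w), K.b (K.cl w)) := by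
      conv_lhs => rw [hz]
      exact sys_z0 hPn
    have hanc : K.Anc (K.cl v) (K.cl w) := by
      refine ⟨hC.cl_mem hv, hPn, hne, ?_, ?_⟩
      · rw [hS] at hs1
        exact hcv.1.trans hs1
      · rw [hS] at hs2
        exact le_trans hs2 hcv.2.2
    have hh := hG.hgb _ hPn (hanc.ne_rt hC)
    obtain ⟨-, h1, h2⟩ := hG.home v hv w hw hanc
    rw [hS]
    have h3 : x (K.a (K.cl w)) ≤ x (K.hg (K.cl w)) := hG.x_le hh.1 (by omega)
    have h4 : x (K.hg (K.cl w) + 1) ≤ x (K.b (K.cl w)) := hG.x_le (by omega) hbF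
    exact ⟨by linarith, by linarith⟩
  · have hz0 := hG.z0_high hC hw hz
    have hz0m : Nm.z (K.cl w) 0 ∈ K.names F win := Geo.z0_mem hC hw
    have hS0 : K.sys F win j o (.z (K.cl w) 0) = (K.a (K.cl w), K.b (K.cl w)) := sys_z0 hPn
    have hle := hmin (.z (K.cl w) 0) (hG.mem_I.2 hz0m) hz0 (by rw [hS0]; exact hcw.1)
      (by rw [hS0]; exact hcw.2.2)
    have hna : ¬ K.Anc (K.cl v) (K.cl w) := by
      intro h
      have := (hG.home v hv (.z (K.cl w) 0) hz0m h).1
      linarith
    have hkey : ∀ {lo g hi : ℕ}, lo ≤ g → g + 1 ≤ hi → hi ≤ F →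
        (x g < sl (D.pt v) (D.pt w) ∧ sl (D.pt v) (D.pt w) < x (g + 1)) →
        x lo < sl (D.pt v) (D.pt w) ∧ sl (D.pt v) (D.pt w) < x hi := by
      intro lo g hi h1 h2 h3 h4
      have h5 : x lo ≤ x g := hG.x_le h1 (by omega)
      have h6 : x (g + 1) ≤ x hi := hG.x_le h2 h3
      exact ⟨by linarith [h4.1], by linarith [h4.2]⟩
    cases w with
    | z P c =>
      have hzP := mem_z.1 hw
      have hcl : K.cl (Nm.z P c) = P := rfl
      rw [hcl] at hna hz hPn hbF hcw
      have hc1 : 1 ≤ c := by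
        rcases Nat.eq_zero_or_pos c with h | h
        · exact absurd (by rw [h]) hz
        · exact h
      have hne : P ≠ K.rt := by
        rintro rfl
        have := hC.z_rt hw
        omega
      have hS := sys_z (F := F) (win := win) (j := j) (o := o) hzP.1 hc1 hzP.2
      have he := hC.ends P hPn hne
      have hsp := hC.spin P hPn (hc1.trans hzP.2)
      have hS1 : (K.sys F win j o (.z P c)).1 = K.a P := by rw [hS]
      have hS2 : K.a P + 1 ≤ (K.sys F win j o (.z P c)).2 := by
        rw [hS]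
        dsimp only
        split_ifs <;> omega
      have hclv : K.cl v = P := by
        rcases hC.own_or_anc (hC.cl_mem hv) (g := K.a P) (by omega) (by omega) with h | h
        · rw [h]; exact he.2.2.2.1
        · rw [he.2.2.2.1] at h
          exact absurd h hna
      obtain ⟨b, hb, rfl⟩ := hG.high_z hC hv hw hclv hlt
      rw [hcl] at hb hlt ⊢
      have hbc : b < c := by
        by_contra hcon
        rcases Nat.lt_or_ge c b with h | h
        · have := hG.chain P hPn c b h hb
          linarith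
        · have : b = c := by omega
          rw [this] at hlt
          exact lt_irrefl _ hlt
      exact hkey (g := K.a P) hS1.le hS2 (hcw.2.2.trans hbF) (hG.hit_zz P hPn b c hbc hzP.2)
    | q g =>
      have hg := mem_q.1 hw
      have hcov : Cov (K.sys F win j o (.q g)) g := (sys_q_cov hg g).2 (Or.inl rfl)
      have hcl : K.cl (Nm.q g) = K.own g := rfl
      have hclv : K.cl v = K.own g := by
        rcases hC.own_or_anc (hC.cl_mem hv) (g := g) (hcv.1.trans (hs1.trans hcov.1))
          (lt_of_lt_of_le hcov.2 (hs2.trans hcv.2.2)) with h | h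
        · exact h
        · exact absurd h hna
      obtain ⟨b, hb, rfl⟩ := hG.high_z hC hv hw hclv hlt
      rw [hcl] at hb
      exact hkey (g := g) hcov.1 hcov.2 (hcw.2.2.trans hbF) (hG.hit_zq g hg b hb)
    | cap Q =>
      have hQ := mem_cap.1 hw
      have hS := sys_cap (F := F) (win := win) (j := j) (o := o) hQ.1 hQ.2
      have he := hC.ends Q hQ.1 hQ.2
      have hcl : K.cl (Nm.cap Q) = K.par Q := rfl
      have hanc := hC.anc_par hQ.1 hQ.2
      have hS1 : (K.sys F win j o (.cap Q)).1 = K.a Q := by rw [hS]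
      have hS2 : (K.sys F win j o (.cap Q)).2 = K.b Q := by rw [hS]
      have hclv : K.cl v = K.par Q := by
        rcases hC.own_or_anc (hC.cl_mem hv) (g := K.a Q) (by omega) (by omega) with h | h
        · rw [he.2.2.2.1] at h
          have := (hG.home (.cap Q) hw v hv (by rw [h]; exact hanc)).1
          linarith
        · rw [he.2.2.2.1] at h
          rcases (hC.par_anc Q hQ.1 hQ.2).2 _ h with h1 | h1
          · exact h1
          · exact absurd h1 hna
      obtain ⟨b, hb, rfl⟩ := hG.high_z hC hv hw hclv hlt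
      rw [hcl] at hb
      exact hkey (g := K.a Q) hS1.le (by omega) (hcw.2.2.trans hbF) (hG.hit_zcap Q hQ.1 hQ.2 b hb)

theorem sys_isTS (hC : K.Comb F win ex) (hG : K.Geo F win x D)
    (hj : ∀ P ∈ K.nodes, j P ≤ K.s P) : IsTS D F x (K.sys F win j o) := by
  refine ⟨?_, ?_, ?_, ?_, ?_, ?_⟩
  · rw [hG.top_eq, sys_z0 hC.rt_mem, hC.a_rt, hC.b_rt]
  · intro w hw hne
    rw [hG.top_eq] at hne
    exact sys_bd hC hj (hG.mem_I.1 hw) hne
  · intro v hv w hw hlt
    exact sys_lam hC hG hj (hG.mem_I.1 hv) (hG.mem_I.1 hw) hlt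
  · intro v hv w hw hne he
    exact sys_same hC hG hj (hG.mem_I.1 hv) (hG.mem_I.1 hw) hne he
  · intro w hw v hp
    exact sys_par hC hG hj (hG.mem_I.1 hw) hp
  · intro w hw
    rw [hG.mem_I] at hw
    exact sys_out hw

end Skel

end Pool.Agent.TRI
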