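import Pool.Agent.TRI.C_Deg
import Pool.Agent.TRI.C_SysPar

/-!
Area C, task Sum. The sum over the tent systems of maximal exponent.

`sys_tdeg`: compare the summands of `tdeg (sys j o)` and `tmax = tdeg (sys 0 0)` point by point
(`sys_z0, sys_z, sys_q, sys_cap`; the wall end points have the same exponent by `hC.spin`, the window
options change `g` to `g - 1` with `ex (g-1) = ex g` by `hC.wins`, resp. `g + 1` to `g + 2`).
`sys_inj_j`: for `c` in `[1, s P]`: `(sys (z P c)).2 = b P - 1` iff `c ≤ j P` (`a P + 4 ≤ b P`).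
`sys_inj_o`: `(sys (q (w-1))).2 = w + 1` iff `o w = 1`, `(sys (q (w+1))).1 = w` iff `o w = 2`.
`sum_tmax'`: `Finset.sum_product'` / `Finset.sum_bij` with
`(j, o) ↦ sys (ext j) (ext o)`; surjective by `eq_sys` and `sys_congr` (`Finset.mem_pi`), injective
by `sys_inj_j`, `sys_inj_o`.
-/

set_option linter.unusedSectionVars false

namespace Pool.Agent.TRI

namespace Skel

open Finset

variable {ν : Type} [DecidableEq ν] {K : Skel ν} {F : ℕ} {win : Finset ℕ} {ex : ℕ → ℕ}
  {x : ℕ → ℝ} {D : Side (Nm ν)}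

theorem sys_tdeg {j : ν → ℕ} {o : ℕ → ℕ} (hC : K.Comb F win ex)
    (hj : ∀ P ∈ K.nodes, j P ≤ K.s P) :
    K.tdeg F win ex (K.sys F win j o) = K.tmax F win ex := by
  unfold tmax tdeg
  refine sum_congr rfl fun w hw => ?_
  have hw' := (mem_erase.1 hw).2
  cases w with
  | z P c =>
    obtain ⟨hP, hc⟩ := mem_z.1 hw'
    rcases Nat.eq_zero_or_pos c with rfl | hc1
    · rw [sys_z0 hP, sys_z0 hP]
    · rw [sys_z hP hc1 hc, sys_z hP hc1 hc]
      have h := (hC.spin P hP (by omega)).2.2.2.2.2.1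
      have h0 : ¬ c ≤ 0 := by omega
      simp only [h0, if_false]
      split_ifs with h1
      · rw [h]
      · rfl
  | q g =>
    have hg := mem_q.1 hw'
    have hg' := mem_lf.1 hg
    rw [sys_q hg, sys_q hg]
    have h1 : ¬ (1 ≤ g ∧ g - 1 ∈ win ∧ (0 : ℕ) = 2) := by omega
    have h2 : ¬ (g + 1 ∈ win ∧ (0 : ℕ) = 1) := by omega
    simp only [if_neg h1, if_neg h2]
    congr 1
    · split_ifs with h
      · have h3 := (hC.wins _ h.2.1).2.2.2.2.2.2.2
        rw [Nat.sub_add_cancel h.1] at h3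
        exact h3
      · rfl
    · split_ifs with h
      · exact ((hC.wins _ h.1).2.2.2.2.2.2.2).symm
      · rfl
  | cap Q =>
    obtain ⟨hQ, hne⟩ := mem_cap.1 hw'
    rw [sys_cap hQ hne, sys_cap hQ hne]

theorem C_Sum_aux {j j' : ν → ℕ} {o o' : ℕ → ℕ} (hC : K.Comb F win ex)
    (hj' : ∀ P ∈ K.nodes, j' P ≤ K.s P)
    (h : K.sys F win j o = K.sys F win j' o') {P : ν} (hP : P ∈ K.nodes) : j' P ≤ j P := by
  by_contra hlt
  rw [not_le] at hlt
  have h1 := congrFun h (.z P (j' P))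
  rw [sys_z hP (by omega) (hj' P hP), sys_z hP (by omega) (hj' P hP), if_neg (by omega),
    if_pos le_rfl] at h1
  have h2 := (Prod.mk.inj h1).2
  have h3 := (hC.spin P hP (by have := hj' P hP; omega)).1
  omega

theorem sys_inj_j {j j' : ν → ℕ} {o o' : ℕ → ℕ} (hC : K.Comb F win ex)
    (hj : ∀ P ∈ K.nodes, j P ≤ K.s P) (hj' : ∀ P ∈ K.nodes, j' P ≤ K.s P)
    (h : K.sys F win j o = K.sys F win j' o') : ∀ P ∈ K.nodes, j P = j' P := by
  intro P hP
  exact le_antisymm (C_Sum_aux hC hj h.symm hP) (C_Sum_aux hC hj' h hP)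

theorem sys_inj_o {j j' : ν → ℕ} {o o' : ℕ → ℕ} (hC : K.Comb F win ex)
    (ho : ∀ w ∈ win, o w < 3) (ho' : ∀ w ∈ win, o' w < 3)
    (h : K.sys F win j o = K.sys F win j' o') : ∀ w ∈ win, o w = o' w := by
  intro w hw
  obtain ⟨-, -, -, -, hl, hr, h1, h2, h3, h4⟩ := hC.win_facts hw
  have h5 := congrFun h (.q (w - 1))
  have h6 := congrFun h (.q (w + 1))
  rw [sys_q hl, sys_q hl] at h5
  rw [sys_q hr, sys_q hr] at h6
  have h7 := (Prod.mk.inj h5).2
  have h8 := (Prod.mk.inj h6).1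
  rw [Nat.sub_add_cancel (by omega : 1 ≤ w)] at h7
  rw [Nat.add_sub_cancel] at h8
  have h9 := ho w hw
  have h10 := ho' w hw
  simp only [hw, true_and] at h7 h8
  have h11 : 1 ≤ w + 1 := by omega
  simp only [h11, true_and] at h8
  split_ifs at h7 h8 <;> omega

theorem sum_tmax' (hC : K.Comb F win ex) (hG : K.Geo F win x D) (Ψ : (Nm ν → ℕ × ℕ) → ℚ) :
    ∑ R ∈ (TS D F x).filter (fun R => K.tdeg F win ex R = K.tmax F win ex), Ψ R =
      ∑ j ∈ K.nodes.pi (fun P => range (K.s P + 1)), ∑ o ∈ win.pi (fun _ => range 3),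
        Ψ (K.sys F win (ext j) (ext o)) := by
  have hext : ∀ {γ : Type} [DecidableEq γ] {t : Finset γ} (p : (y : γ) → y ∈ t → ℕ) (y : γ)
      (hy : y ∈ t), ext p y = p y hy := by
    intro γ _ t p y hy
    unfold ext
    rw [dif_pos hy]
  have hjj : ∀ j ∈ K.nodes.pi (fun P => range (K.s P + 1)), ∀ P ∈ K.nodes, ext j P ≤ K.s P := by
    intro j hj P hP
    rw [hext j P hP]
    have := mem_range.1 (mem_pi.1 hj P hP)
    omega
  have hoo : ∀ o ∈ win.pi (fun _ => range 3), ∀ w ∈ win, ext o w < 3 := by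
    intro o ho w hw
    rw [hext o w hw]
    exact mem_range.1 (mem_pi.1 ho w hw)
  rw [← sum_product' (f := fun j o => Ψ (K.sys F win (ext j) (ext o)))]
  symm
  refine sum_bij (fun p _ => K.sys F win (ext p.1) (ext p.2)) ?_ ?_ ?_ ?_
  · intro p hp
    rw [mem_product] at hp
    rw [mem_filter, mem_TS]
    exact ⟨sys_isTS hC hG (hjj _ hp.1), sys_tdeg hC (hjj _ hp.1)⟩
  · intro p hp p' hp' h
    rw [mem_product] at hp hp'
    have h1 := sys_inj_j hC (hjj _ hp.1) (hjj _ hp'.1) h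
    have h2 := sys_inj_o hC (hoo _ hp.2) (hoo _ hp'.2) h
    refine Prod.ext ?_ ?_
    · funext P hP
      rw [← hext p.1 P hP, ← hext p'.1 P hP]
      exact h1 P hP
    · funext w hw
      rw [← hext p.2 w hw, ← hext p'.2 w hw]
      exact h2 w hw
  · intro R hR
    rw [mem_filter, mem_TS] at hR
    obtain ⟨j, o, hj, ho, rfl⟩ := eq_sys hC hG hR.1 hR.2
    refine ⟨(fun P _ => j P, fun w _ => o w), ?_, ?_⟩
    · rw [mem_product, mem_pi, mem_pi]
      refine ⟨fun P hP => mem_range.2 ?_, fun w hw => mem_range.2 (ho w hw)⟩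
      have := hj P hP
      simp only
      omega
    · refine sys_congr (fun P hP => ?_) (fun w hw => ?_)
      · exact hext (fun P _ => j P) P hP
      · exact hext (fun w _ => o w) w hw
  · intro p hp
    rfl

end Skel

end Pool.Agent.TRI
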