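import Pool.Agent.TRI.C_Sys
import Pool.Agent.TRI.C_Geo

/-!
Area C, task SysLam. `sys j o` satisfies `lam` and `same`.

Notation: `P = cl v`, `P' = cl w`, `S = sys j o`. `sys_lam` (`w` lower than `v`):
* `Geo.pos4` gives the position of `P`, `P'`: disjoint nodes: use `sys_conf` twice;
* `P = P'`: by `Geo.high_z` `v = z P c`; `c = 0`: `sys_conf` for `w`. `c ≥ 1` (then `1 ≤ s P`, use
  `hC.spin P`): `w = z P c'`: `c < c'` (heights, `Geo.chain`), both intervals start at `a P`;
  `w = q g` with `own g = P`: `g = a P`, `g = b P - 1`, `a P + 1 ≤ g ≤ b P - 2` (windows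
  are in `[a P + 2, b P - 3]` by `Comb.win_facts`); `w = cap Q`, `par Q = P`: `a P + 1 ≤ a Q` and
  `b Q ≤ b P - 1` because `own (a Q - 1) = P = own (b Q)` (`hC.outer`, `Comb.own_mem`).
* `Anc P P'`: the interval of `w` is inside `[a P', b P']`. `v = z P c`: no gap owned by `P` is
  covered by `P'` (`Comb.own_not_cov`), in particular `a P` and `b P - 1`; `v = q g`:
  `sys_q_own` and `Comb.own_not_cov` (two intervals without common gap are disjoint, `disj_of`);
  `v = cap Q`, `par Q = P`: `hC.tree Q P'` (`Anc P' Q` is impossible by `hC.par_anc`).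
`sys_same` (equal heights, `v ≠ w`): same cluster: both are leaves or caps (`Geo.same_not_z`), cases;
different clusters: `Geo.pos4` and `Geo.not_anc` in both directions, `sys_conf`.
-/

set_option linter.unusedSectionVars false

namespace Pool.Agent.TRI

namespace Skel

open Finset

variable {ν : Type} [DecidableEq ν] {K : Skel ν} {F : ℕ} {win : Finset ℕ} {ex : ℕ → ℕ}
  {x : ℕ → ℝ} {D : Side (Nm ν)} {j : ν → ℕ} {o : ℕ → ℕ}

/-- nonempty intervals without common gap are disjoint -/
theorem disj_of {I J : ℕ × ℕ} (hI : I.1 < I.2) (hJ : J.1 < J.2)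
    (h : ∀ g, Cov I g → Cov J g → False) : J.2 ≤ I.1 ∨ I.2 ≤ J.1 := by
  by_contra hcon
  rw [not_or, not_le, not_le] at hcon
  exact h (max I.1 J.1) ⟨le_max_left _ _, max_lt hI hcon.2⟩ ⟨le_max_right _ _, max_lt hcon.1 hJ⟩

theorem sys_lam_same (hC : K.Comb F win ex) (hG : K.Geo F win x D)
    (hj : ∀ P ∈ K.nodes, j P ≤ K.s P) {v w : Nm ν} (hv : v ∈ K.names F win)
    (hw : w ∈ K.names F win) (hlt : (D.pt w).2 < (D.pt v).2) (hcl : K.cl v = K.cl w) :
    ((K.sys F win j o v).1 ≤ (K.sys F win j o w).1 ∧
      (K.sys F win j o w).2 ≤ (K.sys F win j o v).2) ∨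
      (K.sys F win j o w).2 ≤ (K.sys F win j o v).1 ∨
      (K.sys F win j o v).2 ≤ (K.sys F win j o w).1 := by
  obtain ⟨c, hc, rfl⟩ := hG.high_z hC hv hw hcl hlt
  have hP := hC.cl_mem hw
  have hcf := sys_conf (j := j) (o := o) hC hj hw
  rcases Nat.eq_zero_or_pos c with rfl | hc1
  · left
    rw [sys_z0 hP]
    exact ⟨hcf.1, hcf.2.2⟩
  · have hs : 1 ≤ K.s (K.cl w) := le_trans hc1 hc
    have hne : K.cl w ≠ K.rt := by
      intro h
      rw [h, hC.s_rt] at hs
      omega
    obtain ⟨s1, s2, s3, s4, s5, -, -⟩ := hC.spin _ hP hs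
    obtain ⟨t1, t2, t3, t4⟩ := hC.outer _ hP hne
    rw [sys_z hP hc1 hc]
    cases w with
    | z P' c' =>
      have hw' := mem_z.1 hw
      have hcc : c < c' := by
        by_contra hcon
        rcases Nat.lt_or_ge c' c with h | h
        · have := hG.chain P' hP c' c h hc
          exact absurd this (not_lt.2 hlt.le)
        · have : c' = c := by omega
          rw [this] at hlt
          exact lt_irrefl _ hlt
      left
      rw [sys_z hw'.1 (by omega) hw'.2]
      refine ⟨le_rfl, ?_⟩
      change (if c' ≤ j P' then K.b P' - 1 else K.a P' + 1) ≤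
        (if c ≤ j P' then K.b P' - 1 else K.a P' + 1)
      change K.a P' + 4 ≤ K.b P' at s1
      split_ifs <;> omega
    | q g =>
      have hg := mem_q.1 hw
      change K.a (K.own g) + 4 ≤ K.b (K.own g) at s1
      change K.a (K.own g) + 1 ∉ win at s3
      change K.b (K.own g) - 2 ∉ win at s5
      have hl := hC.lf_bd hg
      change K.a (K.own g) ≤ (K.sys F win j o (.q g)).1 ∧
        (K.sys F win j o (.q g)).1 < (K.sys F win j o (.q g)).2 ∧
        (K.sys F win j o (.q g)).2 ≤ K.b (K.own g) at hcf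
      by_cases hcj : c ≤ j (K.cl (.q g))
      · rw [if_pos hcj]
        change (K.a (K.own g) ≤ (K.sys F win j o (.q g)).1 ∧
          (K.sys F win j o (.q g)).2 ≤ K.b (K.own g) - 1) ∨
          (K.sys F win j o (.q g)).2 ≤ K.a (K.own g) ∨
          K.b (K.own g) - 1 ≤ (K.sys F win j o (.q g)).1
        by_cases hgb : g = K.b (K.own g) - 1
        · right; right
          rw [sys_q hg]
          have h1 : ¬ (1 ≤ g ∧ g - 1 ∈ win ∧ o (g - 1) = 2) := by
            rintro ⟨_, h2, _⟩
            apply s5
            rwa [show K.b (K.own g) - 2 = g - 1 by omega]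
          rw [if_neg h1]
          exact hgb.symm.le
        · left
          refine ⟨hcf.1, ?_⟩
          rw [sys_q hg]
          change (if g + 1 ∈ win ∧ o (g + 1) = 1 then g + 2 else g + 1) ≤ _
          split_ifs with h1
          · have hwf := hC.win_facts h1.1
            have h3 := hwf.2.2.1
            rw [Nat.add_sub_cancel] at h3
            rw [← h3] at hwf
            omega
          · omega
      · rw [if_neg hcj]
        change (K.a (K.own g) ≤ (K.sys F win j o (.q g)).1 ∧
          (K.sys F win j o (.q g)).2 ≤ K.a (K.own g) + 1) ∨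
          (K.sys F win j o (.q g)).2 ≤ K.a (K.own g) ∨
          K.a (K.own g) + 1 ≤ (K.sys F win j o (.q g)).1
        by_cases hga : g = K.a (K.own g)
        · left
          refine ⟨hcf.1, ?_⟩
          rw [sys_q hg]
          have h1 : ¬ (g + 1 ∈ win ∧ o (g + 1) = 1) := by
            rintro ⟨h2, _⟩
            apply s3
            rwa [← hga]
          rw [if_neg h1]
          change g + 1 ≤ _
          omega
        · right; right
          rw [sys_q hg]
          change _ ≤ (if 1 ≤ g ∧ g - 1 ∈ win ∧ o (g - 1) = 2 then g - 1 else g)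
          split_ifs with h1
          · have hwf := hC.win_facts h1.2.1
            have h3 := hwf.2.2.2.1
            rw [Nat.sub_add_cancel h1.1] at h3
            rw [← h3] at hwf
            omega
          · omega
    | cap Q =>
      have hQ := mem_cap.1 hw
      change K.a (K.par Q) + 4 ≤ K.b (K.par Q) at s1
      obtain ⟨e1, e2, e3, -⟩ := hC.ends Q hQ.1 hQ.2
      obtain ⟨o1, -, o3, -⟩ := hC.outer Q hQ.1 hQ.2
      have h1 := (hC.own_mem (K.a Q - 1) (by omega)).2.1
      have h2 := (hC.own_mem (K.b Q) e3).2.2.1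
      rw [o1] at h1
      rw [o3] at h2
      rw [sys_cap hQ.1 hQ.2]
      change (K.a (K.par Q) ≤ K.a Q ∧ K.b Q ≤
        (if c ≤ j (K.par Q) then K.b (K.par Q) - 1 else K.a (K.par Q) + 1)) ∨
        K.b Q ≤ K.a (K.par Q) ∨
        (if c ≤ j (K.par Q) then K.b (K.par Q) - 1 else K.a (K.par Q) + 1) ≤ K.a Q
      split_ifs <;> omega

theorem sys_lam (hC : K.Comb F win ex) (hG : K.Geo F win x D)
    (hj : ∀ P ∈ K.nodes, j P ≤ K.s P) {v w : Nm ν} (hv : v ∈ K.names F win)
    (hw : w ∈ K.names F win) (hlt : (D.pt w).2 < (D.pt v).2) :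
    ((K.sys F win j o v).1 ≤ (K.sys F win j o w).1 ∧
      (K.sys F win j o w).2 ≤ (K.sys F win j o v).2) ∨
      (K.sys F win j o w).2 ≤ (K.sys F win j o v).1 ∨
      (K.sys F win j o v).2 ≤ (K.sys F win j o w).1 := by
  have hcv := sys_conf (j := j) (o := o) hC hj hv
  have hcw := sys_conf (j := j) (o := o) hC hj hw
  rcases hG.pos4 hC hv hw hlt.le with h | h | h | h
  · exact sys_lam_same hC hG hj hv hw hlt h
  · have hA := h
    have ha := h.2.2.2.1
    have hb := h.2.2.2.2
    have hab := hC.a_lt_b (hC.cl_mem hw)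
    cases v with
    | z P c =>
      change K.a P ≤ _ at ha
      change _ ≤ K.b P at hb
      have hz := mem_z.1 hv
      rcases Nat.eq_zero_or_pos c with rfl | hc1
      · left
        rw [sys_z0 hz.1]
        change K.a P ≤ _ ∧ _ ≤ K.b P
        omega
      · have hs : 1 ≤ K.s P := le_trans hc1 hz.2
        have hne : P ≠ K.rt := by
          rintro rfl
          rw [hC.s_rt] at hs
          omega
        have hl := hC.a_lf hz.1 hne
        have h1 := hC.own_not_cov hA (g := K.a P) hl.2.1
        have h2 := hC.own_not_cov hA (g := K.b P - 1) hl.2.2.2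
        rw [sys_z hz.1 hc1 hz.2]
        change (K.a P ≤ (K.sys F win j o w).1 ∧ (K.sys F win j o w).2 ≤
          (if c ≤ j P then K.b P - 1 else K.a P + 1)) ∨ (K.sys F win j o w).2 ≤ K.a P ∨
          (if c ≤ j P then K.b P - 1 else K.a P + 1) ≤ (K.sys F win j o w).1
        split_ifs <;> omega
    | q g =>
      right
      refine disj_of hcv.2.1 hcw.2.1 fun g' h1 h2 => ?_
      have h3 := sys_q_own hC (mem_q.1 hv) h1
      have h4 := hC.own_not_cov hA (g := g') h3
      have h5 := h2.1
      have h6 := h2.2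
      omega
    | cap Q =>
      have hQ := mem_cap.1 hv
      rw [sys_cap hQ.1 hQ.2]
      change (K.a Q ≤ (K.sys F win j o w).1 ∧ (K.sys F win j o w).2 ≤ K.b Q) ∨
        (K.sys F win j o w).2 ≤ K.a Q ∨ K.b Q ≤ (K.sys F win j o w).1
      by_cases hQw : Q = K.cl w
      · rw [← hQw] at hcw
        left
        exact ⟨hcw.1, hcw.2.2⟩
      · rcases hC.tree Q hQ.1 _ (hC.cl_mem hw) hQw with h1 | h1 | h1 | h1
        · have h2 := h1.2.2.2.1
          have h3 := h1.2.2.2.2
          omega
        · exfalso
          rcases (hC.par_anc Q hQ.1 hQ.2).2 _ h1 with h2 | h2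
          · exact hA.2.2.1 h2.symm
          · exact hC.asymm h2 hA
        · omega
        · omega
  · omega
  · omega

theorem sys_same (hC : K.Comb F win ex) (hG : K.Geo F win x D)
    (hj : ∀ P ∈ K.nodes, j P ≤ K.s P) {v w : Nm ν} (hv : v ∈ K.names F win)
    (hw : w ∈ K.names F win) (hne : v ≠ w) (he : (D.pt v).2 = (D.pt w).2) :
    (K.sys F win j o w).2 ≤ (K.sys F win j o v).1 ∨
      (K.sys F win j o v).2 ≤ (K.sys F win j o w).1 := by
  have hcv := sys_conf (j := j) (o := o) hC hj hv
  have hcw := sys_conf (j := j) (o := o) hC hj hw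
  rcases hG.pos4 hC hv hw he.symm.le with h | h | h | h
  · have hz := hG.same_not_z hC hv hw hne h he
    have hz' := hG.same_not_z hC hw hv hne.symm h.symm he.symm
    have qcap : ∀ g Q, g ∈ lf F win → Q ∈ K.nodes → Q ≠ K.rt → K.own g = K.par Q →
        ∀ g', Cov (K.sys F win j o (.q g)) g' → Cov (K.a Q, K.b Q) g' → False := by
      intro g Q hg hQ hQr hgQ g' h1 h2
      have h3 := sys_q_own hC hg h1
      rw [hgQ] at h3
      have h4 := hC.own_not_cov (hC.anc_par hQ hQr) (g := g') h3
      have h5 : K.a Q ≤ g' := h2.1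
      have h6 : g' < K.b Q := h2.2
      omega
    cases v with
    | z P c => exact absurd rfl (hz P c)
    | q g =>
      have hg := mem_q.1 hv
      cases w with
      | z P c => exact absurd rfl (hz' P c)
      | q g' =>
        have hg' := mem_q.1 hw
        have hgg : g ≠ g' := by
          rintro rfl
          exact hne rfl
        have hl := (mem_lf.1 hg).2.2
        have hl' := (mem_lf.1 hg').2.2
        refine disj_of hcv.2.1 hcw.2.1 fun g'' h1 h2 => ?_
        rw [sys_q_cov hg] at h1
        rw [sys_q_cov hg'] at h2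
        rcases h1 with h1 | ⟨h1, h1', h1''⟩ | ⟨h1, h1', h1''⟩
        · subst h1
          rcases h2 with h2 | ⟨_, h2, _⟩ | ⟨_, h2, _⟩
          · exact hgg h2
          · exact hl h2
          · exact hl h2
        · rcases h2 with h2 | ⟨h2, _, h2'⟩ | ⟨h2, _, h2'⟩
          · rw [h2] at h1'
            exact hl' h1'
          · exact hgg (h1.symm.trans h2)
          · rw [h1''] at h2'
            omega
        · rcases h2 with h2 | ⟨h2, _, h2'⟩ | ⟨h2, _, h2'⟩
          · rw [h2] at h1'
            exact hl' h1'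
          · rw [h1''] at h2'
            omega
          · exact hgg (by omega)
      | cap Q =>
        have hQ := mem_cap.1 hw
        refine disj_of hcv.2.1 hcw.2.1 fun g' h1 h2 => ?_
        rw [sys_cap hQ.1 hQ.2] at h2
        exact qcap g Q hg hQ.1 hQ.2 h g' h1 h2
    | cap Q =>
      have hQ := mem_cap.1 hv
      cases w with
      | z P c => exact absurd rfl (hz' P c)
      | q g =>
        refine disj_of hcv.2.1 hcw.2.1 fun g' h1 h2 => ?_
        rw [sys_cap hQ.1 hQ.2] at h1
        exact qcap g Q (mem_q.1 hw) hQ.1 hQ.2 h.symm g' h2 h1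
      | cap Q' =>
        have hQ' := mem_cap.1 hw
        rw [sys_cap hQ.1 hQ.2, sys_cap hQ'.1 hQ'.2]
        have hQQ : Q ≠ Q' := by
          rintro rfl
          exact hne rfl
        exact (hC.children_disj hQ.1 hQ'.1 hQ.2 hQ'.2 hQQ h).symm
  · exact absurd h (hG.not_anc hw hv he.le)
  · omega
  · omega

end Skel

end Pool.Agent.TRI
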