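import Pool.Agent.TRI.StmtC

/-!
Area D, algebra: sums over product sets, alternating sums of polynomials.
-/

namespace Pool.Agent.TRI

open Finset

theorem sum_pi_ext {γ : Type} [DecidableEq γ] (s : Finset γ) (t : γ → Finset ℕ)
    (f : γ → ℕ → ℚ) :
    ∑ o ∈ s.pi t, ∏ w ∈ s, f w (Skel.ext o w) = ∏ w ∈ s, ∑ a ∈ t w, f w a := by
  rw [Finset.prod_sum]
  refine sum_congr rfl fun o _ => ?_
  rw [← Finset.prod_attach s (fun w => f w (Skel.ext o w))]
  refine prod_congr rfl fun w _ => ?_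
  simp [Skel.ext]

theorem sum_pi_ext2 {γ : Type} [DecidableEq γ] (s : Finset γ) (t t' : γ → Finset ℕ)
    (h : γ → ℕ → ℕ → ℚ) :
    ∑ o ∈ s.pi t, ∑ o' ∈ s.pi t', ∏ w ∈ s, h w (Skel.ext o w) (Skel.ext o' w) =
      ∏ w ∈ s, ∑ a ∈ t w, ∑ b ∈ t' w, h w a b := by
  rw [← sum_pi_ext s t (fun w a => ∑ b ∈ t' w, h w a b)]
  refine sum_congr rfl fun o _ => ?_
  exact sum_pi_ext s t' (fun w b => h w (Skel.ext o w) b)

theorem ext_mem_of_pi {γ : Type} [DecidableEq γ] {s : Finset γ} {t : γ → Finset ℕ}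
    {o : (y : γ) → y ∈ s → ℕ} (ho : o ∈ s.pi t) {w : γ} (hw : w ∈ s) :
    Skel.ext o w ∈ t w := by
  have := Finset.mem_pi.1 ho w hw
  simpa [Skel.ext, hw] using this

open Polynomial in
/-- the alternating sum of the values of a polynomial of degree at most `d` -/
theorem alt_sum_poly (p : ℚ[X]) (d : ℕ) (hp : p.natDegree ≤ d) :
    ∑ n ∈ range (d + 1), (-1 : ℚ) ^ (d - n) * (d.choose n : ℚ) * p.eval (n : ℚ) =
      (d.factorial : ℚ) * p.coeff d := by
  have h1 := fwdDiff_iter_eq_sum_shift (1 : ℚ) (fun x => p.eval x) d 0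
  have h2 : ∑ n ∈ range (d + 1), (-1 : ℚ) ^ (d - n) * (d.choose n : ℚ) * p.eval (n : ℚ) =
      (fwdDiff (1 : ℚ))^[d] (fun x => p.eval x) 0 := by
    rw [h1]
    refine sum_congr rfl fun n _ => ?_
    rw [zsmul_eq_mul]
    push_cast
    simp
  rw [h2]
  rcases hp.lt_or_eq with h | h
  · have h3 := Polynomial.fwdDiff_iter_eq_zero_of_degree_lt h
    have h4 : (fwdDiff (1 : ℚ))^[d] (fun x => p.eval x) 0 = 0 := congrFun h3 0
    rw [h4, Polynomial.coeff_eq_zero_of_natDegree_lt h, mul_zero]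
  · have h3 := Polynomial.fwdDiff_iter_degree_eq_factorial p
    rw [h] at h3
    have h4 : (fwdDiff (1 : ℚ))^[d] (fun x => p.eval x) 0 =
        (p.leadingCoeff • ((d.factorial : ℕ) : ℚ → ℚ)) 0 := congrFun h3 0
    rw [h4, Pi.smul_apply]
    rw [Polynomial.leadingCoeff, h, smul_eq_mul, mul_comm]
    rfl

end Pool.Agent.TRI
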