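import Pool.Agent.TRI.D_Alg

/-!
Area D2: the binomial coefficients as polynomials, products of polynomials.
-/

namespace Pool.Agent.TRI

open Finset Polynomial

/-- the polynomial `n ↦ C(k + w n, w n)` -/
noncomputable def cp (w : ℚ) : ℕ → ℚ[X]
  | 0 => 1
  | k + 1 => cp w k * (C (w / (k + 1)) * X + 1)

theorem cp_natDegree (w : ℚ) (k : ℕ) : (cp w k).natDegree ≤ k := by
  induction k with
  | zero => simp [cp]
  | succ k ih =>
    unfold cp
    refine (natDegree_mul_le).trans ?_
    have h1 : (C (w / (k + 1)) * X + 1 : ℚ[X]).natDegree ≤ 1 := by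
      refine (natDegree_add_le _ _).trans ?_
      rw [max_le_iff]
      exact ⟨(natDegree_C_mul_le _ _).trans natDegree_X_le, by simp⟩
    omega

theorem cp_coeff (w : ℚ) (k : ℕ) : (cp w k).coeff k = w ^ k * ((k.factorial : ℚ))⁻¹ := by
  induction k with
  | zero => simp [cp]
  | succ k ih =>
    unfold cp
    have h0 : (cp w k).coeff (k + 1) = 0 :=
      coeff_eq_zero_of_natDegree_lt (Nat.lt_succ_of_le (cp_natDegree w k))
    rw [mul_add, mul_one, coeff_add, h0, add_zero, ← mul_assoc, coeff_mul_X, coeff_mul_C, ih,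
      Nat.factorial_succ]
    push_cast
    have h1 : (k.factorial : ℚ) ≠ 0 := by exact_mod_cast k.factorial_ne_zero
    have h2 : ((k : ℚ) + 1) ≠ 0 := by positivity
    field_simp
    ring

theorem cp_eval (w n k : ℕ) :
    (cp (w : ℚ) k).eval (n : ℚ) = ((k + w * n).choose (w * n) : ℚ) := by
  induction k with
  | zero => simp [cp]
  | succ k ih =>
    unfold cp
    rw [eval_mul, ih]
    have h1 : (k + 1 + w * n).choose (w * n) * (k + 1) =
        (k + w * n).choose (w * n) * (k + 1 + w * n) := by
      have h2 := Nat.add_one_mul_choose_eq (k + w * n) k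
      have e1 : (k + 1 + w * n).choose (w * n) = (k + w * n + 1).choose (k + 1) := by
        rw [Nat.choose_symm_of_eq_add (show k + 1 + w * n = w * n + (k + 1) by ring)]
        congr 1
        ring
      have e2 : (k + w * n).choose (w * n) = (k + w * n).choose k := by
        exact Nat.choose_symm_of_eq_add (show k + w * n = w * n + k by ring)
      rw [e1, e2, ← h2]
      ring
    have h3 : (((k + 1 + w * n).choose (w * n) : ℕ) : ℚ) * ((k : ℚ) + 1) =
        ((k + w * n).choose (w * n) : ℚ) * ((k : ℚ) + 1 + w * n) := by exact_mod_cast h1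
    have h4 : ((k : ℚ) + 1) ≠ 0 := by positivity
    rw [eq_comm, ← mul_left_inj' h4, h3]
    simp only [eval_add, eval_mul, eval_C, eval_X, eval_one]
    field_simp
    ring

theorem prod_poly {ι : Type} [DecidableEq ι] (s : Finset ι) (f : ι → ℚ[X]) (n : ι → ℕ)
    (h : ∀ i ∈ s, (f i).natDegree ≤ n i) :
    (∏ i ∈ s, f i).natDegree ≤ ∑ i ∈ s, n i ∧
      (∏ i ∈ s, f i).coeff (∑ i ∈ s, n i) = ∏ i ∈ s, (f i).coeff (n i) := by
  induction s using Finset.induction_on with
  | empty => simp
  | insert a s ha ih =>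
    have ih' := ih fun i hi => h i (mem_insert_of_mem hi)
    have ha' := h a (mem_insert_self a s)
    rw [prod_insert ha, sum_insert ha, prod_insert ha]
    exact ⟨natDegree_mul_le.trans (add_le_add ha' ih'.1), by
      rw [coeff_mul_add_eq_of_natDegree_le ha' ih'.1, ih'.2]⟩

end Pool.Agent.TRI
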