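import Pool.Agent.TRI.D_Defs
import Pool.Agent.TRI.D_Poly

/-!
Area D2: the cluster formula for the axis points `axNT`.
-/

namespace Pool.Agent.TRI

open Finset

section

variable {α β : Type} {F : ℕ} {x : ℕ → ℝ} {Bl : Finset ℝ} {U : Side α} {L : Side β}

theorem off_ne (hU : U.Good F x) (hL : L.Good F x) : ∀ u ∈ offPts U L, u.2 ≠ 0 := by
  classical
  intro u hu
  unfold offPts at hu
  rw [mem_union, mem_image, mem_image] at hu
  rcases hu with ⟨v, hv, rfl⟩ | ⟨v, hv, rfl⟩
  · exact (hU.pos v hv).ne'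
  · have := hL.pos v hv
    simp only [low]
    linarith

theorem off_up (hU : U.Good F x) : ∃ u ∈ offPts U L, 0 < u.2 := by
  classical
  refine ⟨U.pt U.top, ?_, hU.pos _ hU.top_mem⟩
  unfold offPts
  exact mem_union_left _ (mem_image_of_mem _ hU.top_mem)

theorem off_dn (hL : L.Good F x) : ∃ u ∈ offPts U L, u.2 < 0 := by
  classical
  refine ⟨low (L.pt L.top), ?_, ?_⟩
  · unfold offPts
    exact mem_union_right _ (mem_image.2 ⟨L.top, hL.top_mem, rfl⟩)
  · have := hL.pos _ hL.top_mem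
    simp only [low]
    linarith

theorem feet_inj (hF : GoodFeet F x Bl) {i j : ℕ} (hi : i ≤ F) (hj : j ≤ F) (h : x i = x j) :
    i = j := by
  rcases lt_trichotomy i j with h1 | h1 | h1
  · have := hF.mono i j h1 hj; linarith
  · exact h1
  · have := hF.mono j i h1 hi; linarith

open Classical in
/-- the number of additional points of the cluster at `a` -/
noncomputable def nf (F : ℕ) (x : ℕ → ℝ) (N : ℕ → ℕ) (a : ℝ) : ℕ :=
  if h : ∃ f, f ∈ Ioo 0 F ∧ x f = a then N h.choose else 0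

theorem nf_foot (hF : GoodFeet F x Bl) (N : ℕ → ℕ) {f : ℕ} (hf : f ∈ Ioo 0 F) :
    nf F x N (x f) = N f := by
  classical
  unfold nf
  have h : ∃ f', f' ∈ Ioo 0 F ∧ x f' = x f := ⟨f, hf, rfl⟩
  rw [dif_pos h]
  congr 1
  have h1 := h.choose_spec
  have h2 := mem_Ioo.1 h1.1
  have h3 := mem_Ioo.1 hf
  exact feet_inj hF h2.2.le h3.2.le h1.2

theorem nf_other (N : ℕ → ℕ) {a : ℝ} (h : ∀ f ∈ Ioo 0 F, x f ≠ a) : nf F x N a = 0 := by
  classical
  unfold nf
  rw [dif_neg]
  rintro ⟨f, hf, h1⟩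
  exact h f hf h1

theorem nf_ne (N : ℕ → ℕ) {a : ℝ} (h : nf F x N a ≠ 0) : ∃ f ∈ Ioo 0 F, x f = a := by
  by_contra hc
  push Not at hc
  exact h (nf_other N hc)

open Classical in
theorem axNT_eq (hF : GoodFeet F x Bl) (ex : ℕ → ℕ) (κ : ℝ) (n t : ℕ) :
    axNT F x ex Bl κ n t = (axPts F x Bl).biUnion fun a =>
      (range (nf F x (fun f => t ^ ex f * n) a + 1)).image fun i : ℕ => a + i * κ := by
  have h0F : ∀ f ∈ Ioo 0 F, x f ≠ x 0 ∧ x f ≠ x F := by
    intro f hf
    have h3 := mem_Ioo.1 hf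
    exact ⟨(hF.mono 0 f h3.1 h3.2.le).ne', (hF.mono f F h3.2 le_rfl).ne⟩
  ext y
  unfold axNT axPts
  simp only [mem_union, mem_insert, mem_singleton, mem_biUnion, mem_image, mem_range]
  constructor
  · rintro (((h | h) | h) | ⟨f, hf, i, hi, h⟩)
    · exact ⟨x 0, Or.inl ⟨0, by omega, rfl⟩, 0, Nat.succ_pos _, by simp [h]⟩
    · exact ⟨x F, Or.inl ⟨F, by omega, rfl⟩, 0, Nat.succ_pos _, by simp [h]⟩
    · exact ⟨y, Or.inr h, 0, Nat.succ_pos _, by simp⟩
    · refine ⟨x f, Or.inl ⟨f, ?_, rfl⟩, i, ?_, h⟩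
      · have := (mem_Ioo.1 hf).2; omega
      · rw [nf_foot hF _ hf]
        exact hi
  · rintro ⟨a, ha, i, hi, h⟩
    by_cases hn : nf F x (fun f => t ^ ex f * n) a = 0
    · rw [hn] at hi
      have hi0 : i = 0 := by omega
      subst hi0
      have hya : y = a := by rw [← h]; simp
      subst hya
      rcases ha with ⟨f, hf, hfa⟩ | ha
      · by_cases hf0 : f = 0
        · subst hf0
          exact Or.inl (Or.inl (Or.inl hfa.symm))
        · by_cases hfF : f = F
          · subst hfF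
            exact Or.inl (Or.inl (Or.inr hfa.symm))
          · refine Or.inr ⟨f, mem_Ioo.2 ⟨by omega, by omega⟩, 0, Nat.succ_pos _, ?_⟩
            simp [hfa]
      · exact Or.inl (Or.inr ha)
    · obtain ⟨f, hf, hfa⟩ := nf_ne _ hn
      subst hfa
      rw [nf_foot hF _ hf] at hi
      exact Or.inr ⟨f, hf, i, hi, h⟩

theorem clear_mono {W : Finset Pt} {a b b' : ℝ} (h : Clear W a b) (hb : b' ≤ b) :
    Clear W a b' := fun u hu v hv huv c h1 h2 => h u hu v hv huv c h1 (h2.trans hb)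

/-- the cluster formula for `axNT` -/
theorem tr_axNT (hF : GoodFeet F x Bl) (hU : U.Good F x) (hL : L.Good F x) (ex : ℕ → ℕ)
    (κ : ℝ) (hκ : 0 < κ) (M : ℕ) (n t : ℕ) (hM : ∀ f ∈ Ioo 0 F, t ^ ex f * n ≤ M)
    (hclear : ∀ f ∈ Ioo 0 F, Clear (offPts U L) (x f) (x f + M * κ))
    (hsep : ∀ f ∈ Ioo 0 F, x f + M * κ < x (f + 1))
    (hsepB : ∀ f ∈ Ioo 0 F, ∀ b ∈ Bl, x f < b → x f + M * κ < b) :
    tr (setWA (offPts U L) (axNT F x ex Bl κ n t)) =
      ∑ T ∈ tris (setWA (offPts U L) (axPts F x Bl)), ∏ f ∈ Ioo 0 F,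
        (up (offPts U L) T (x f) - 1 + t ^ ex f * n).choose (t ^ ex f * n) *
          (dn (offPts U L) T (x f) - 1 + t ^ ex f * n).choose (t ^ ex f * n) := by
  classical
  have hle : ∀ f ∈ Ioo 0 F, x f + (nf F x (fun f => t ^ ex f * n) (x f) : ℝ) * κ ≤
      x f + M * κ := by
    intro f hf
    rw [nf_foot hF _ hf]
    have h1 : ((t ^ ex f * n : ℕ) : ℝ) ≤ M := by exact_mod_cast hM f hf
    have := mul_le_mul_of_nonneg_right h1 hκ.le
    linarith
  rw [axNT_eq hF ex κ n t,
    cluster (offPts U L) (off_ne hU hL) (off_up hU) (off_dn hL) (axPts F x Bl)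
      (nf F x (fun f => t ^ ex f * n)) κ hκ]
  · refine sum_congr rfl fun T _ => ?_
    have himg : (Ioo 0 F).image x ⊆ axPts F x Bl := by
      intro a ha
      obtain ⟨f, hf, rfl⟩ := mem_image.1 ha
      unfold axPts
      refine mem_union_left _ (mem_image.2 ⟨f, ?_, rfl⟩)
      have := (mem_Ioo.1 hf).2
      rw [mem_range]; omega
    rw [← prod_subset himg, prod_image]
    · refine prod_congr rfl fun f hf => ?_
      rw [nf_foot hF _ hf]
    · intro f hf f' hf' h
      have h1 := mem_Ioo.1 hf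
      have h2 := mem_Ioo.1 hf'
      exact feet_inj hF h1.2.le h2.2.le h
    · intro a _ ha
      have h1 : nf F x (fun f => t ^ ex f * n) a = 0 := by
        refine nf_other _ fun f hf h => ha ?_
        exact mem_image.2 ⟨f, hf, h⟩
      rw [h1]
      simp
  · intro a _ hn
    obtain ⟨f, hf, rfl⟩ := nf_ne _ hn
    exact clear_mono (hclear f hf) (hle f hf)
  · intro a ha b hb hab
    by_cases hn : nf F x (fun f => t ^ ex f * n) a = 0
    · rw [hn]
      simpa using hab
    · obtain ⟨f, hf, rfl⟩ := nf_ne _ hn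
      refine lt_of_le_of_lt (hle f hf) ?_
      unfold axPts at hb
      rw [mem_union, mem_image] at hb
      rcases hb with ⟨f', hf', rfl⟩ | hb
      · rw [mem_range] at hf'
        have h1 := mem_Ioo.1 hf
        have hff : f < f' := by
          by_contra hc
          push Not at hc
          rcases hc.eq_or_lt with h2 | h2
          · rw [h2] at hab; exact lt_irrefl _ hab
          · have := hF.mono f' f h2 h1.2.le
            linarith
        refine lt_of_lt_of_le (hsep f hf) ?_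
        rcases (Nat.succ_le_of_lt hff).eq_or_lt with h2 | h2
        · rw [← h2]
        · exact (hF.mono _ _ h2 (by omega)).le
      · exact hsepB f hf b hb hab

end

end Pool.Agent.TRI
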