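import Pool.Agent.TRI.C_Sum
import Pool.Agent.TRI.C_Lab
import Pool.Agent.TRI.C_KK

/-!
Interface statements of the area C (rigidity), proved.
-/

set_option linter.unusedSectionVars false

namespace Pool.Agent.TRI

namespace Skel

open Finset

variable {ν : Type} [DecidableEq ν] {K : Skel ν} {F : ℕ} {win : Finset ℕ} {ex : ℕ → ℕ}
  {x : ℕ → ℝ} {D : Side (Nm ν)}

/-- C1 -/
theorem tdeg_le (hC : K.Comb F win ex) (hG : K.Geo F win x D) {R : Nm ν → ℕ × ℕ}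
    (hR : R ∈ TS D F x) : K.tdeg F win ex R ≤ K.tmax F win ex :=
  tdeg_le' hC hG (mem_TS.1 hR)

/-- C2: reindexing of the sums over the tent systems of maximal exponent -/
theorem sum_tmax (hC : K.Comb F win ex) (hG : K.Geo F win x D) (Ψ : (Nm ν → ℕ × ℕ) → ℚ) :
    ∑ R ∈ (TS D F x).filter (fun R => K.tdeg F win ex R = K.tmax F win ex), Ψ R =
      ∑ j ∈ K.nodes.pi (fun P => range (K.s P + 1)), ∑ o ∈ win.pi (fun _ => range 3),
        Ψ (K.sys F win (ext j) (ext o)) :=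
  sum_tmax' hC hG Ψ

/-- C4: labels -/
theorem lab_leaf (hC : K.Comb F win ex) (hG : K.Geo F win x D) {j : ν → ℕ} {o : ℕ → ℕ}
    (hj : ∀ P ∈ K.nodes, j P ≤ K.s P) (ho : ∀ w ∈ win, o w < 3) {g : ℕ} (hg : g ∈ lf F win) :
    lab D (K.sys F win j o) g = .q g :=
  lab_leaf' hC hG hj ho hg

theorem lab_extreme (hC : K.Comb F win ex) (hG : K.Geo F win x D) {j : ν → ℕ} {o : ℕ → ℕ}
    (hj : ∀ P ∈ K.nodes, j P ≤ K.s P) (ho : ∀ w ∈ win, o w < 3) {g : ℕ}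
    (hg : g = 0 ∨ g = F - 1) : lab D (K.sys F win j o) g = .z K.rt 0 :=
  lab_extreme' hC hG hj ho hg

theorem lab_win (hC : K.Comb F win ex) (hG : K.Geo F win x D) {j : ν → ℕ} {o : ℕ → ℕ}
    (hj : ∀ P ∈ K.nodes, j P ≤ K.s P) (ho : ∀ w ∈ win, o w < 3) {w : ℕ} (hw : w ∈ win) :
    lab D (K.sys F win j o) w =
      if o w = 0 then .z (K.own w) (j (K.own w)) else if o w = 1 then .q (w - 1)
        else .q (w + 1) :=
  lab_win' hC hG hj ho hw

/-- C5: the factorials -/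
theorem prod_kk (hC : K.Comb F win ex) (hG : K.Geo F win x D) :
    ∃ c : ℚ, 0 < c ∧ ∀ (j : ν → ℕ) (o : ℕ → ℕ), (∀ P ∈ K.nodes, j P ≤ K.s P) →
      (∀ w ∈ win, o w < 3) →
      ∏ f ∈ Ioo 0 F, ((Nat.factorial (kk D (K.sys F win j o) f) : ℚ))⁻¹ =
        c * (∏ P ∈ K.nodes.filter (fun P => 1 ≤ K.s P), wt (K.s P) (j P)) *
          ∏ w ∈ win, (if o w = 0 then (1 : ℚ) else 1 / 2) :=
  prod_kk' hC hG

end Skel

end Pool.Agent.TRI
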