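import Pool.Agent.TRI.StmtAB
import Pool.Agent.TRI.StmtC

/-!
Area D: definitions.
-/

namespace Pool.Agent.TRI

open Finset

variable {ν μ : Type} [DecidableEq ν] [DecidableEq μ]

/-- the possible labels of the window `w` -/
def Cand (K : Skel ν) (w : ℕ) (v : Nm ν) : Prop :=
  (∃ c ≤ K.s (K.own w), v = .z (K.own w) c) ∨ v = .q (w - 1) ∨ v = .q (w + 1)

/-- `v` is a leaf -/
def IsQ (v : Nm ν) : Prop := ∃ g, v = .q g

/-- the crossings in the windows; `bad w c m` says that the pair of states `(c, m)` is blocked in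
the window `w` -/
structure Crossing (KU : Skel ν) (KL : Skel μ) (DU : Side (Nm ν)) (DL : Side (Nm μ))
    (x : ℕ → ℝ) (win : Finset ℕ) (Bl : Finset ℝ) (bad : ℕ → ℕ → ℕ → Prop) : Prop where
  inside : ∀ w ∈ win, ∀ u l, Cand KU w u → Cand KL w l →
    x w < cr (DU.pt u) (DL.pt l) ∧ cr (DU.pt u) (DL.pt l) < x (w + 1)
  zz : ∀ w ∈ win, ∀ c ≤ KU.s (KU.own w), ∀ m ≤ KL.s (KL.own w),
    (cr (DU.pt (.z (KU.own w) c)) (DL.pt (.z (KL.own w) m)) ∈ Bl ↔ bad w c m)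
  other : ∀ w ∈ win, ∀ u l, Cand KU w u → Cand KL w l → IsQ u ∨ IsQ l →
    cr (DU.pt u) (DL.pt l) ∉ Bl
  blwin : ∀ b ∈ Bl, ∃ w ∈ win, x w < b ∧ b < x (w + 1)

open Classical in
/-- the partition function of the spin network -/
noncomputable def part (KU : Skel ν) (KL : Skel μ) (win : Finset ℕ)
    (bad : ℕ → ℕ → ℕ → Prop) : ℚ :=
  ∑ j ∈ KU.nodes.pi (fun P => range (KU.s P + 1)),
    ∑ j' ∈ KL.nodes.pi (fun P => range (KL.s P + 1)),
      (∏ P ∈ KU.nodes.filter (fun P => 1 ≤ KU.s P), Skel.wt (KU.s P) (Skel.ext j P)) *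
        (∏ P ∈ KL.nodes.filter (fun P => 1 ≤ KL.s P), Skel.wt (KL.s P) (Skel.ext j' P)) *
          ∏ w ∈ win, (7 + if bad w (Skel.ext j (KU.own w)) (Skel.ext j' (KL.own w)) then 0
            else 1 : ℚ)

open Classical in
/-- the axis points of the instance with parameters `n`, `t` -/
noncomputable def axNT (F : ℕ) (x : ℕ → ℝ) (ex : ℕ → ℕ) (Bl : Finset ℝ) (κ : ℝ) (n t : ℕ) :
    Finset ℝ :=
  {x 0, x F} ∪ Bl ∪
    (Ioo 0 F).biUnion fun f => (range (t ^ ex f * n + 1)).image fun i : ℕ => x f + i * κ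

/-- the alternating sum of numbers of triangulations -/
noncomputable def altSum (W : Finset Pt) (F : ℕ) (x : ℕ → ℝ) (ex : ℕ → ℕ) (Bl : Finset ℝ)
    (κ : ℝ) (d e : ℕ) : ℤ :=
  ∑ n ∈ range (d + 1), ∑ t ∈ range (e + 1),
    (-1) ^ ((d - n) + (e - t)) * (d.choose n : ℤ) * (e.choose t : ℤ) *
      (tr (setWA W (axNT F x ex Bl κ n t)) : ℤ)

end Pool.Agent.TRI
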