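import Pool.Agent.TRI.D_Clu

/-!
Area D2: extraction of the leading coefficient.
-/

namespace Pool.Agent.TRI

open Finset Polynomial

theorem sum_card_fiber {α : Type} (S : Finset α) (g : α → ℕ) (I : Finset ℕ)
    (h : ∀ w ∈ S, g w ∈ I) (ex : ℕ → ℕ) :
    ∑ f ∈ I, ex f * (S.filter (fun w => g w = f)).card = ∑ w ∈ S, ex (g w) := by
  rw [← sum_fiberwise_of_maps_to h]
  refine sum_congr rfl fun f _ => ?_
  have : ∑ w ∈ S.filter (fun w => g w = f), ex (g w) =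
      ∑ w ∈ S.filter (fun w => g w = f), ex f :=
    sum_congr rfl fun w hw => by rw [(mem_filter.1 hw).2]
  rw [this, sum_const, smul_eq_mul, mul_comm]

section

variable {ν : Type} [DecidableEq ν] {F : ℕ} {win : Finset ℕ} {x : ℕ → ℝ}

theorem tdeg_eq {K : Skel ν} {D : Side (Nm ν)} (hG : K.Geo F win x D) (ex : ℕ → ℕ)
    {R : Nm ν → ℕ × ℕ} (hR : R ∈ TS D F x) :
    ∑ f ∈ Ioo 0 F, ex f * kk D R f = K.tdeg F win ex R := by
  classical
  have hR' := mem_TS.1 hR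
  have h1 : ∀ f, kk D R f = ((D.I.erase D.top).filter (fun w => (R w).1 = f)).card +
      ((D.I.erase D.top).filter (fun w => (R w).2 = f)).card := by
    intro f
    unfold kk
    congr 2
    · ext w
      simp only [mem_filter, mem_erase]
      tauto
    · ext w
      simp only [mem_filter, mem_erase]
      tauto
  have hb : ∀ w ∈ D.I.erase D.top, 0 < (R w).1 ∧ (R w).1 < (R w).2 ∧ (R w).2 < F := by
    intro w hw
    rw [mem_erase] at hw
    exact hR'.bd w hw.2 hw.1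
  unfold Skel.tdeg
  rw [← hG.I_eq, ← hG.top_eq, sum_add_distrib]
  simp_rw [h1, mul_add]
  rw [sum_add_distrib, sum_card_fiber (D.I.erase D.top) (fun w => (R w).1) (Ioo 0 F),
    sum_card_fiber (D.I.erase D.top) (fun w => (R w).2) (Ioo 0 F)]
  · intro w hw
    have := hb w hw
    rw [mem_Ioo]; omega
  · intro w hw
    have := hb w hw
    rw [mem_Ioo]; omega

end

section

variable {α β : Type} {F : ℕ} {x : ℕ → ℝ} {Bl : Finset ℝ} {U : Side α} {L : Side β}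

/-- the weight of a foot -/
noncomputable def phi (ex : ℕ → ℕ) (t : ℕ) (f a b : ℕ) : ℚ :=
  ((t : ℚ) ^ ex f) ^ (a + b) * ((a.factorial : ℚ)⁻¹ * (b.factorial : ℚ)⁻¹)

/-- the polynomial of a triangulation -/
noncomputable def PT (W : Finset Pt) (F : ℕ) (x : ℕ → ℝ) (ex : ℕ → ℕ) (t : ℕ)
    (T : Finset (Sym2 Pt)) : ℚ[X] :=
  ∏ f ∈ Ioo 0 F, (cp ((t ^ ex f : ℕ) : ℚ) (up W T (x f) - 1) *
    cp ((t ^ ex f : ℕ) : ℚ) (dn W T (x f) - 1))

theorem PT_prop (W : Finset Pt) (F : ℕ) (x : ℕ → ℝ) (ex : ℕ → ℕ) (t : ℕ)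
    (T : Finset (Sym2 Pt)) :
    (PT W F x ex t T).natDegree ≤ ldeg W F x T ∧
      (PT W F x ex t T).coeff (ldeg W F x T) =
        ∏ f ∈ Ioo 0 F, phi ex t f (up W T (x f) - 1) (dn W T (x f) - 1) := by
  have h := prod_poly (Ioo 0 F) (fun f => cp ((t ^ ex f : ℕ) : ℚ) (up W T (x f) - 1) *
    cp ((t ^ ex f : ℕ) : ℚ) (dn W T (x f) - 1))
    (fun f => (up W T (x f) - 1) + (dn W T (x f) - 1)) (fun f _ =>
      natDegree_mul_le.trans (add_le_add (cp_natDegree _ _) (cp_natDegree _ _)))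
  refine ⟨h.1, ?_⟩
  have h2 := h.2
  unfold PT ldeg
  rw [h2]
  refine prod_congr rfl fun f _ => ?_
  rw [coeff_mul_add_eq_of_natDegree_le (cp_natDegree _ _) (cp_natDegree _ _), cp_coeff, cp_coeff]
  unfold phi
  push_cast
  rw [pow_add]
  ring

theorem PT_eval (W : Finset Pt) (F : ℕ) (x : ℕ → ℝ) (ex : ℕ → ℕ) (t n : ℕ)
    (T : Finset (Sym2 Pt)) :
    (PT W F x ex t T).eval (n : ℚ) = ((∏ f ∈ Ioo 0 F,
        (up W T (x f) - 1 + t ^ ex f * n).choose (t ^ ex f * n) *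
          (dn W T (x f) - 1 + t ^ ex f * n).choose (t ^ ex f * n) : ℕ) : ℚ) := by
  unfold PT
  rw [eval_prod]
  push_cast
  refine prod_congr rfl fun f _ => ?_
  have h1 := cp_eval (t ^ ex f) n (up W T (x f) - 1)
  have h2 := cp_eval (t ^ ex f) n (dn W T (x f) - 1)
  push_cast at h1 h2
  rw [eval_mul, h1, h2]

open Classical in
/-- the alternating sum over `n` -/
theorem alt_n (hF : GoodFeet F x Bl) (hU : U.Good F x) (hL : L.Good F x) (ex : ℕ → ℕ)
    (κ : ℝ) (hκ : 0 < κ) (M : ℕ) (t : ℕ) (hM : ∀ f ∈ Ioo 0 F, t ^ ex f * dmax U L ≤ M)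
    (hclear : ∀ f ∈ Ioo 0 F, Clear (offPts U L) (x f) (x f + M * κ))
    (hsep : ∀ f ∈ Ioo 0 F, x f + M * κ < x (f + 1))
    (hsepB : ∀ f ∈ Ioo 0 F, ∀ b ∈ Bl, x f < b → x f + M * κ < b) :
    ∑ n ∈ range (dmax U L + 1), (-1 : ℚ) ^ (dmax U L - n) * ((dmax U L).choose n : ℚ) *
      (tr (setWA (offPts U L) (axNT F x ex Bl κ n t)) : ℚ) =
    ((dmax U L).factorial : ℚ) * ∑ R ∈ TS U F x, ∑ R' ∈ TS L F x,
      (∏ f ∈ Ioo 0 F, phi ex t f (kk U R f) (kk L R' f)) *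
      ∏ g ∈ range F, (Mg x Bl g (U.pt (lab U R g)) (L.pt (lab L R' g)) : ℚ) := by
  have h1 : ∀ n ∈ range (dmax U L + 1),
      (tr (setWA (offPts U L) (axNT F x ex Bl κ n t)) : ℚ) =
      ∑ T ∈ tris (setWA (offPts U L) (axPts F x Bl)),
        (PT (offPts U L) F x ex t T).eval (n : ℚ) := by
    intro n hn
    rw [tr_axNT hF hU hL ex κ hκ M n t ?_ hclear hsep hsepB]
    · push_cast
      refine sum_congr rfl fun T _ => ?_
      rw [PT_eval]
      push_cast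
      rfl
    · intro f hf
      refine le_trans (Nat.mul_le_mul le_rfl ?_) (hM f hf)
      rw [mem_range] at hn
      omega
  have h2 : ∑ n ∈ range (dmax U L + 1), (-1 : ℚ) ^ (dmax U L - n) * ((dmax U L).choose n : ℚ) *
      (tr (setWA (offPts U L) (axNT F x ex Bl κ n t)) : ℚ) =
      ∑ T ∈ tris (setWA (offPts U L) (axPts F x Bl)),
        ((dmax U L).factorial : ℚ) * (PT (offPts U L) F x ex t T).coeff (dmax U L) := by
    rw [sum_congr rfl fun n hn => by rw [h1 n hn, mul_sum], sum_comm]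
    refine sum_congr rfl fun T hT => ?_
    exact alt_sum_poly _ _ ((PT_prop _ F x ex t T).1.trans (lead_bound hF hU hL hT))
  rw [h2, ← mul_sum, ← lead_sum hF hU hL (phi ex t), sum_filter]
  congr 1
  refine sum_congr rfl fun T hT => ?_
  have h3 := PT_prop (offPts U L) F x ex t T
  split_ifs with h4
  · rw [← h3.2, h4]
  · have h5 := lead_bound hF hU hL hT
    exact coeff_eq_zero_of_natDegree_lt (lt_of_le_of_lt h3.1 (lt_of_le_of_ne h5 h4))

end

section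

variable {ν μ : Type} [DecidableEq ν] [DecidableEq μ]
variable {F : ℕ} {win : Finset ℕ} {ex : ℕ → ℕ} {x : ℕ → ℝ} {KU : Skel ν} {KL : Skel μ}
  {DU : Side (Nm ν)} {DL : Side (Nm μ)}

theorem phi_prod (hGU : KU.Geo F win x DU) (hGL : KL.Geo F win x DL) (t : ℕ)
    {R : Nm ν → ℕ × ℕ} (hR : R ∈ TS DU F x) {R' : Nm μ → ℕ × ℕ} (hR' : R' ∈ TS DL F x) :
    ∏ f ∈ Ioo 0 F, phi ex t f (kk DU R f) (kk DL R' f) =
      (t : ℚ) ^ (KU.tdeg F win ex R + KL.tdeg F win ex R') *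
      ∏ f ∈ Ioo 0 F, ((Nat.factorial (kk DU R f) : ℚ))⁻¹ *
            ((Nat.factorial (kk DL R' f) : ℚ))⁻¹ := by
  unfold phi
  rw [prod_mul_distrib]
  congr 1
  rw [← tdeg_eq hGU ex hR, ← tdeg_eq hGL ex hR', ← sum_add_distrib, ← prod_pow_eq_pow_sum]
  refine prod_congr rfl fun f _ => ?_
  rw [← pow_mul, mul_add]

theorem alt_t (e E : ℕ) (hE : E ≤ e) :
    ∑ t ∈ range (e + 1), (-1 : ℚ) ^ (e - t) * (e.choose t : ℚ) * (t : ℚ) ^ E =
      if E = e then (e.factorial : ℚ) else 0 := by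
  have h := alt_sum_poly (X ^ E : ℚ[X]) e (by rw [natDegree_X_pow]; exact hE)
  simp only [eval_pow, eval_X] at h
  rw [h, coeff_X_pow]
  split_ifs with h1 h2 h2
  · simp
  · exact absurd h1.symm h2
  · exact absurd h2.symm h1
  · simp

/-- D2: extraction of the leading coefficient -/
theorem extract' (hCU : KU.Comb F win ex) (hCL : KL.Comb F win ex)
    (hGU : KU.Geo F win x DU) (hGL : KL.Geo F win x DL) (Bl : Finset ℝ)
    (hF : GoodFeet F x Bl) (κ : ℝ) (hκ : 0 < κ) (M : ℕ)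
    (hM : ∀ f ∈ Ioo 0 F, ∀ t ≤ KU.tmax F win ex + KL.tmax F win ex,
      t ^ ex f * dmax DU DL ≤ M)
    (hclear : ∀ f ∈ Ioo 0 F, Clear (offPts DU DL) (x f) (x f + M * κ))
    (hsep : ∀ f ∈ Ioo 0 F, x f + M * κ < x (f + 1))
    (hsepB : ∀ f ∈ Ioo 0 F, ∀ b ∈ Bl, x f < b → x f + M * κ < b) :
    (altSum (offPts DU DL) F x ex Bl κ (dmax DU DL)
        (KU.tmax F win ex + KL.tmax F win ex) : ℚ) =
      (Nat.factorial (dmax DU DL) : ℚ) *
        (Nat.factorial (KU.tmax F win ex + KL.tmax F win ex) : ℚ) *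
      ∑ R ∈ (TS DU F x).filter (fun R => KU.tdeg F win ex R = KU.tmax F win ex),
        ∑ R' ∈ (TS DL F x).filter (fun R => KL.tdeg F win ex R = KL.tmax F win ex),
          (∏ f ∈ Ioo 0 F, ((Nat.factorial (kk DU R f) : ℚ))⁻¹ *
            ((Nat.factorial (kk DL R' f) : ℚ))⁻¹) *
            ∏ g ∈ range F, (Mg x Bl g (DU.pt (lab DU R g)) (DL.pt (lab DL R' g)) : ℚ) := by
  classical
  set d := dmax DU DL with hd
  set e := KU.tmax F win ex + KL.tmax F win ex with he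
  set Z : (Nm ν → ℕ × ℕ) → (Nm μ → ℕ × ℕ) → ℚ := fun R R' =>
    (∏ f ∈ Ioo 0 F, ((Nat.factorial (kk DU R f) : ℚ))⁻¹ *
      ((Nat.factorial (kk DL R' f) : ℚ))⁻¹) *
      ∏ g ∈ range F, (Mg x Bl g (DU.pt (lab DU R g)) (DL.pt (lab DL R' g)) : ℚ) with hZ
  have h1 : (altSum (offPts DU DL) F x ex Bl κ d e : ℚ) =
      ∑ t ∈ range (e + 1), (-1 : ℚ) ^ (e - t) * (e.choose t : ℚ) *
        ∑ n ∈ range (d + 1), (-1 : ℚ) ^ (d - n) * (d.choose n : ℚ) *
          (tr (setWA (offPts DU DL) (axNT F x ex Bl κ n t)) : ℚ) := by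
    unfold altSum
    push_cast
    rw [sum_comm]
    refine sum_congr rfl fun t _ => ?_
    rw [mul_sum]
    refine sum_congr rfl fun n _ => ?_
    rw [pow_add]
    ring
  have h2 : ∀ t ∈ range (e + 1), ∑ n ∈ range (d + 1), (-1 : ℚ) ^ (d - n) * (d.choose n : ℚ) *
          (tr (setWA (offPts DU DL) (axNT F x ex Bl κ n t)) : ℚ) =
      (d.factorial : ℚ) * ∑ R ∈ TS DU F x, ∑ R' ∈ TS DL F x,
        (t : ℚ) ^ (KU.tdeg F win ex R + KL.tdeg F win ex R') * Z R R' := by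
    intro t ht
    rw [hd, alt_n hF hGU.good hGL.good ex κ hκ M t (fun f hf => hM f hf t (by
      rw [mem_range] at ht; omega)) hclear hsep hsepB]
    congr 1
    refine sum_congr rfl fun R hR => sum_congr rfl fun R' hR' => ?_
    rw [phi_prod hGU hGL t hR hR', hZ]
    ring
  have h3 : ∀ R ∈ TS DU F x, ∀ R' ∈ TS DL F x,
      ∑ t ∈ range (e + 1), (-1 : ℚ) ^ (e - t) * (e.choose t : ℚ) *
        ((t : ℚ) ^ (KU.tdeg F win ex R + KL.tdeg F win ex R') * Z R R') =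
      if KU.tdeg F win ex R = KU.tmax F win ex ∧ KL.tdeg F win ex R' = KL.tmax F win ex then
        (e.factorial : ℚ) * Z R R' else 0 := by
    intro R hR R' hR'
    have h4 := Skel.tdeg_le hCU hGU hR
    have h5 := Skel.tdeg_le hCL hGL hR'
    have h6 := alt_t e (KU.tdeg F win ex R + KL.tdeg F win ex R') (by omega)
    have h7 : ∑ t ∈ range (e + 1), (-1 : ℚ) ^ (e - t) * (e.choose t : ℚ) *
        ((t : ℚ) ^ (KU.tdeg F win ex R + KL.tdeg F win ex R') * Z R R') =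
        (∑ t ∈ range (e + 1), (-1 : ℚ) ^ (e - t) * (e.choose t : ℚ) *
        (t : ℚ) ^ (KU.tdeg F win ex R + KL.tdeg F win ex R')) * Z R R' := by
      rw [sum_mul]
      exact sum_congr rfl fun t _ => by ring
    rw [h7, h6]
    by_cases h8 : KU.tdeg F win ex R = KU.tmax F win ex ∧ KL.tdeg F win ex R' = KL.tmax F win ex
    · rw [if_pos h8, if_pos (by rw [h8.1, h8.2])]
    · rw [if_neg h8, if_neg, zero_mul]
      intro h9
      apply h8
      omega
  rw [h1, sum_congr rfl fun t ht => by rw [h2 t ht]]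
  have h10 : ∑ t ∈ range (e + 1), (-1 : ℚ) ^ (e - t) * (e.choose t : ℚ) *
      ((d.factorial : ℚ) * ∑ R ∈ TS DU F x, ∑ R' ∈ TS DL F x,
        (t : ℚ) ^ (KU.tdeg F win ex R + KL.tdeg F win ex R') * Z R R') =
      (d.factorial : ℚ) * ∑ R ∈ TS DU F x, ∑ R' ∈ TS DL F x,
        ∑ t ∈ range (e + 1), (-1 : ℚ) ^ (e - t) * (e.choose t : ℚ) *
        ((t : ℚ) ^ (KU.tdeg F win ex R + KL.tdeg F win ex R') * Z R R') := by
    have h11 : ∀ R ∈ TS DU F x, ∑ R' ∈ TS DL F x,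
        ∑ t ∈ range (e + 1), (-1 : ℚ) ^ (e - t) * (e.choose t : ℚ) *
        ((t : ℚ) ^ (KU.tdeg F win ex R + KL.tdeg F win ex R') * Z R R') =
        ∑ t ∈ range (e + 1), ∑ R' ∈ TS DL F x, (-1 : ℚ) ^ (e - t) * (e.choose t : ℚ) *
        ((t : ℚ) ^ (KU.tdeg F win ex R + KL.tdeg F win ex R') * Z R R') :=
      fun R _ => sum_comm
    rw [sum_congr rfl h11, sum_comm, mul_sum]
    refine sum_congr rfl fun t _ => ?_
    rw [mul_sum, mul_sum, mul_sum]
    refine sum_congr rfl fun R _ => ?_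
    rw [mul_sum, mul_sum, mul_sum]
    exact sum_congr rfl fun R' _ => by ring
  rw [h10, mul_assoc]
  congr 1
  rw [sum_filter, mul_sum]
  refine sum_congr rfl fun R hR => ?_
  rw [sum_congr rfl fun R' hR' => h3 R hR R' hR']
  split_ifs with h12
  · rw [sum_filter, mul_sum]
    refine sum_congr rfl fun R' _ => ?_
    by_cases h13 : KL.tdeg F win ex R' = KL.tmax F win ex
    · rw [if_pos ⟨h12, h13⟩, if_pos h13]
    · rw [if_neg (fun h => h13 h.2), if_neg h13, mul_zero]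
  · rw [mul_zero]
    refine sum_eq_zero fun R' _ => ?_
    rw [if_neg (fun h => h12 h.1)]

end

end Pool.Agent.TRI
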