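import Pool.Agent.TRI.D_Defs
import Pool.Agent.TRI.D_Alg

/-!
Area D1: the sum over the states.
-/

namespace Pool.Agent.TRI

open Finset

variable {ν μ : Type} [DecidableEq ν] [DecidableEq μ]
variable {F : ℕ} {win : Finset ℕ} {ex : ℕ → ℕ} {x : ℕ → ℝ} {KU : Skel ν} {KL : Skel μ}
  {DU : Side (Nm ν)} {DL : Side (Nm μ)}

/-- blockers do not matter outside the windows -/
theorem Mg_out (hmono : ∀ i j, i < j → j ≤ F → x i < x j) (hlt : ∀ w ∈ win, w < F)
    {Bl : Finset ℝ} (hb : ∀ b ∈ Bl, ∃ w ∈ win, x w < b ∧ b < x (w + 1)) {g : ℕ} (hg : g < F)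
    (hgw : g ∉ win) (p q : Pt) : Mg x Bl g p q = Mg x ∅ g p q := by
  unfold Mg
  by_cases h : x g < cr p q ∧ cr p q < x (g + 1)
  · have h1 : cr p q ∉ Bl := by
      intro hc
      obtain ⟨w, hw, h2, h3⟩ := hb _ hc
      have hwF := hlt w hw
      rcases lt_trichotomy g w with h4 | h4 | h4
      · have : x (g + 1) ≤ x w := by
          rcases (Nat.succ_le_of_lt h4).eq_or_lt with h5 | h5
          · rw [← h5]
          · exact (hmono _ _ h5 hwF.le).le
        linarith [h.2]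
      · exact hgw (h4 ▸ hw)
      · have : x (w + 1) ≤ x g := by
          rcases (Nat.succ_le_of_lt h4).eq_or_lt with h5 | h5
          · rw [← h5]
          · exact (hmono _ _ h5 hg.le).le
        linarith [h.1]
    simp [h.1, h.2, h1]
  · have h1 : ¬ (x g < cr p q ∧ cr p q < x (g + 1) ∧ cr p q ∉ Bl) := fun hc => h ⟨hc.1, hc.2.1⟩
    have h2 : ¬ (x g < cr p q ∧ cr p q < x (g + 1) ∧ cr p q ∉ (∅ : Finset ℝ)) :=
      fun hc => h ⟨hc.1, hc.2.1⟩
    rw [if_neg h1, if_neg h2]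

theorem Mg_pos (Bl : Finset ℝ) (g : ℕ) (p q : Pt) : 0 < Mg x Bl g p q := by
  unfold Mg
  split_ifs <;> norm_num

/-- the label of a window -/
def wlab (K : Skel ν) (w c a : ℕ) : Nm ν :=
  if a = 0 then .z (K.own w) c else if a = 1 then .q (w - 1) else .q (w + 1)

/-- the weight of a window option -/
def om3 (a : ℕ) : ℚ := if a = 0 then (1 : ℚ) else 1 / 2

open Classical in
theorem win_sum {Bl : Finset ℝ} {bad : ℕ → ℕ → ℕ → Prop}
    (hX : Crossing KU KL DU DL x win Bl bad) {w : ℕ} (hw : w ∈ win) {c m : ℕ}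
    (hc : c ≤ KU.s (KU.own w)) (hm : m ≤ KL.s (KL.own w)) :
    ∑ a ∈ range 3, ∑ b ∈ range 3, om3 a * om3 b *
      (Mg x Bl w (DU.pt (wlab KU w c a)) (DL.pt (wlab KL w m b)) : ℚ) =
      7 + if bad w c m then 0 else 1 := by
  have hCU : ∀ a, Cand KU w (wlab KU w c a) := by
    intro a
    unfold wlab Cand
    split_ifs
    · exact Or.inl ⟨c, hc, rfl⟩
    · exact Or.inr (Or.inl rfl)
    · exact Or.inr (Or.inr rfl)
  have hCL : ∀ a, Cand KL w (wlab KL w m a) := by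
    intro a
    unfold wlab Cand
    split_ifs
    · exact Or.inl ⟨m, hm, rfl⟩
    · exact Or.inr (Or.inl rfl)
    · exact Or.inr (Or.inr rfl)
  have hQU : ∀ a, a ≠ 0 → IsQ (wlab KU w c a) := by
    intro a ha
    unfold wlab IsQ
    rw [if_neg ha]
    split_ifs
    · exact ⟨_, rfl⟩
    · exact ⟨_, rfl⟩
  have hQL : ∀ a, a ≠ 0 → IsQ (wlab KL w m a) := by
    intro a ha
    unfold wlab IsQ
    rw [if_neg ha]
    split_ifs
    · exact ⟨_, rfl⟩
    · exact ⟨_, rfl⟩
  have h2 : ∀ a b, (a ≠ 0 ∨ b ≠ 0) →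
      Mg x Bl w (DU.pt (wlab KU w c a)) (DL.pt (wlab KL w m b)) = 2 := by
    intro a b hab
    have h3 := hX.inside w hw _ _ (hCU a) (hCL b)
    have h4 := hX.other w hw _ _ (hCU a) (hCL b) (by
      rcases hab with h | h
      · exact Or.inl (hQU a h)
      · exact Or.inr (hQL b h))
    unfold Mg
    rw [if_pos ⟨h3.1, h3.2, h4⟩]
  have h0 : (Mg x Bl w (DU.pt (wlab KU w c 0)) (DL.pt (wlab KL w m 0)) : ℚ) =
      1 + if bad w c m then 0 else 1 := by
    have h3 := hX.inside w hw _ _ (hCU 0) (hCL 0)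
    have h4 := hX.zz w hw c hc m hm
    have h5 : wlab KU w c 0 = .z (KU.own w) c := by simp [wlab]
    have h6 : wlab KL w m 0 = .z (KL.own w) m := by simp [wlab]
    rw [h5, h6] at h3 ⊢
    unfold Mg
    by_cases hb : bad w c m
    · have h7 := h4.2 hb
      rw [if_neg (fun hc => hc.2.2 h7), if_pos hb]
      norm_num
    · have h7 : cr (DU.pt (.z (KU.own w) c)) (DL.pt (.z (KL.own w) m)) ∉ Bl :=
        fun hc => hb (h4.1 hc)
      rw [if_pos ⟨h3.1, h3.2, h7⟩, if_neg hb]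
      norm_num
  have e : ∀ f : ℕ → ℕ → ℚ, ∑ a ∈ range 3, ∑ b ∈ range 3, f a b =
      f 0 0 + f 0 1 + f 0 2 + (f 1 0 + f 1 1 + f 1 2) + (f 2 0 + f 2 1 + f 2 2) := by
    intro f
    simp only [Finset.sum_range_succ, Finset.sum_range_zero, zero_add]
  rw [e, h0, h2 0 1 (by simp), h2 0 2 (by simp), h2 1 0 (by simp), h2 1 1 (by simp),
    h2 1 2 (by simp), h2 2 0 (by simp), h2 2 1 (by simp), h2 2 2 (by simp)]
  simp only [om3]
  norm_num
  ring

/-- the label outside the windows -/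
def olab (K : Skel ν) (F g : ℕ) : Nm ν := if g = 0 ∨ g = F - 1 then .z K.rt 0 else .q g

theorem lab_out {K : Skel ν} {D : Side (Nm ν)} (hC : K.Comb F win ex) (hG : K.Geo F win x D)
    {j : ν → ℕ} {o : ℕ → ℕ} (hj : ∀ P ∈ K.nodes, j P ≤ K.s P) (ho : ∀ w ∈ win, o w < 3) {g : ℕ}
    (hg : g < F) (hgw : g ∉ win) : lab D (K.sys F win j o) g = olab K F g := by
  unfold olab
  split_ifs with h
  · exact Skel.lab_extreme hC hG hj ho h
  · push Not at h
    refine Skel.lab_leaf hC hG hj ho ?_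
    unfold lf
    rw [mem_filter, mem_Ioo]
    exact ⟨⟨by omega, by omega⟩, hgw⟩

/-- D1 -/
theorem state_sum' (hCU : KU.Comb F win ex) (hCL : KL.Comb F win ex)
    (hGU : KU.Geo F win x DU) (hGL : KL.Geo F win x DL) :
    ∃ c : ℚ, 0 < c ∧ ∀ Bl bad, Crossing KU KL DU DL x win Bl bad →
      ∑ R ∈ (TS DU F x).filter (fun R => KU.tdeg F win ex R = KU.tmax F win ex),
        ∑ R' ∈ (TS DL F x).filter (fun R => KL.tdeg F win ex R = KL.tmax F win ex),
          (∏ f ∈ Ioo 0 F, ((Nat.factorial (kk DU R f) : ℚ))⁻¹ *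
            ((Nat.factorial (kk DL R' f) : ℚ))⁻¹) *
            ∏ g ∈ range F, (Mg x Bl g (DU.pt (lab DU R g)) (DL.pt (lab DL R' g)) : ℚ) =
        c * part KU KL win bad := by
  classical
  obtain ⟨cU, hcU, hU⟩ := Skel.prod_kk hCU hGU
  obtain ⟨cL, hcL, hL⟩ := Skel.prod_kk hCL hGL
  have hwin : win ⊆ range F := fun w hw => mem_range.2 (hCU.win_lt w hw)
  set C0 : ℚ := ∏ g ∈ range F \ win,
    (Mg x ∅ g (DU.pt (olab KU F g)) (DL.pt (olab KL F g)) : ℚ) with hC0
  have hC0pos : 0 < C0 := prod_pos fun g _ => by exact_mod_cast Mg_pos ∅ g _ _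
  refine ⟨cU * cL * C0, by positivity, fun Bl bad hX => ?_⟩
  rw [Skel.sum_tmax hCU hGU]
  have key : ∀ j ∈ KU.nodes.pi (fun P => range (KU.s P + 1)),
      ∀ o ∈ win.pi (fun _ => range 3),
      ∀ j' ∈ KL.nodes.pi (fun P => range (KL.s P + 1)),
      ∀ o' ∈ win.pi (fun _ => range 3),
      (∏ f ∈ Ioo 0 F,
        ((Nat.factorial (kk DU (KU.sys F win (Skel.ext j) (Skel.ext o)) f) : ℚ))⁻¹ *
          ((Nat.factorial (kk DL (KL.sys F win (Skel.ext j') (Skel.ext o')) f) : ℚ))⁻¹) *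
          ∏ g ∈ range F, (Mg x Bl g
            (DU.pt (lab DU (KU.sys F win (Skel.ext j) (Skel.ext o)) g))
            (DL.pt (lab DL (KL.sys F win (Skel.ext j') (Skel.ext o')) g)) : ℚ) =
      cU * cL * C0 * ((∏ P ∈ KU.nodes.filter (fun P => 1 ≤ KU.s P),
        Skel.wt (KU.s P) (Skel.ext j P)) *
        (∏ P ∈ KL.nodes.filter (fun P => 1 ≤ KL.s P), Skel.wt (KL.s P) (Skel.ext j' P)) *
        ∏ w ∈ win, (om3 (Skel.ext o w) * om3 (Skel.ext o' w) *
          (Mg x Bl w (DU.pt (wlab KU w (Skel.ext j (KU.own w)) (Skel.ext o w)))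
            (DL.pt (wlab KL w (Skel.ext j' (KL.own w)) (Skel.ext o' w))) : ℚ))) := by
    intro j hj o ho j' hj' o' ho'
    have h1 : ∀ P ∈ KU.nodes, Skel.ext j P ≤ KU.s P := fun P hP =>
      Nat.lt_succ_iff.1 (mem_range.1 (ext_mem_of_pi hj hP))
    have h2 : ∀ P ∈ KL.nodes, Skel.ext j' P ≤ KL.s P := fun P hP =>
      Nat.lt_succ_iff.1 (mem_range.1 (ext_mem_of_pi hj' hP))
    have h3 : ∀ w ∈ win, Skel.ext o w < 3 := fun w hw => mem_range.1 (ext_mem_of_pi ho hw)
    have h4 : ∀ w ∈ win, Skel.ext o' w < 3 := fun w hw => mem_range.1 (ext_mem_of_pi ho' hw)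
    rw [prod_mul_distrib, hU _ _ h1 h3, hL _ _ h2 h4, ← prod_sdiff hwin]
    have h5 : ∏ g ∈ range F \ win, (Mg x Bl g
        (DU.pt (lab DU (KU.sys F win (Skel.ext j) (Skel.ext o)) g))
        (DL.pt (lab DL (KL.sys F win (Skel.ext j') (Skel.ext o')) g)) : ℚ) = C0 := by
      rw [hC0]
      refine prod_congr rfl fun g hg => ?_
      rw [mem_sdiff, mem_range] at hg
      rw [lab_out hCU hGU h1 h3 hg.1 hg.2, lab_out hCL hGL h2 h4 hg.1 hg.2,
        Mg_out hGU.mono hCU.win_lt hX.blwin hg.1 hg.2]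
    have h6 : ∏ w ∈ win, (Mg x Bl w
        (DU.pt (lab DU (KU.sys F win (Skel.ext j) (Skel.ext o)) w))
        (DL.pt (lab DL (KL.sys F win (Skel.ext j') (Skel.ext o')) w)) : ℚ) =
        ∏ w ∈ win, (Mg x Bl w (DU.pt (wlab KU w (Skel.ext j (KU.own w)) (Skel.ext o w)))
            (DL.pt (wlab KL w (Skel.ext j' (KL.own w)) (Skel.ext o' w))) : ℚ) := by
      refine prod_congr rfl fun w hw => ?_
      rw [Skel.lab_win hCU hGU h1 h3 hw, Skel.lab_win hCL hGL h2 h4 hw]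
      rfl
    have h7 : ∀ s : ℕ → ℕ, ∏ w ∈ win, (if s w = 0 then (1 : ℚ) else 1 / 2) =
        ∏ w ∈ win, om3 (s w) := fun s => rfl
    rw [h5, h6, h7, h7]
    rw [prod_mul_distrib, prod_mul_distrib]
    ring
  calc _ = ∑ j ∈ KU.nodes.pi (fun P => range (KU.s P + 1)), ∑ o ∈ win.pi (fun _ => range 3),
        ∑ j' ∈ KL.nodes.pi (fun P => range (KL.s P + 1)), ∑ o' ∈ win.pi (fun _ => range 3),
        cU * cL * C0 * ((∏ P ∈ KU.nodes.filter (fun P => 1 ≤ KU.s P),
        Skel.wt (KU.s P) (Skel.ext j P)) *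
        (∏ P ∈ KL.nodes.filter (fun P => 1 ≤ KL.s P), Skel.wt (KL.s P) (Skel.ext j' P)) *
        ∏ w ∈ win, (om3 (Skel.ext o w) * om3 (Skel.ext o' w) *
          (Mg x Bl w (DU.pt (wlab KU w (Skel.ext j (KU.own w)) (Skel.ext o w)))
            (DL.pt (wlab KL w (Skel.ext j' (KL.own w)) (Skel.ext o' w))) : ℚ))) := by
        refine sum_congr rfl fun j hj => sum_congr rfl fun o ho => ?_
        rw [Skel.sum_tmax hCL hGL]
        exact sum_congr rfl fun j' hj' => sum_congr rfl fun o' ho' =>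
          key j hj o ho j' hj' o' ho'
    _ = cU * cL * C0 * part KU KL win bad := by
        unfold part
        rw [mul_sum]
        refine sum_congr rfl fun j hj => ?_
        rw [sum_comm, mul_sum]
        refine sum_congr rfl fun j' hj' => ?_
        have h8 := sum_pi_ext2 win (fun _ => range 3) (fun _ => range 3) (fun w a b =>
          om3 a * om3 b * (Mg x Bl w (DU.pt (wlab KU w (Skel.ext j (KU.own w)) a))
            (DL.pt (wlab KL w (Skel.ext j' (KL.own w)) b)) : ℚ))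
        simp_rw [← mul_sum]
        rw [h8]
        congr 2
        refine prod_congr rfl fun w hw => ?_
        refine win_sum hX hw ?_ ?_
        · have hP := (hCU.own_mem w (hCU.win_lt w hw)).1
          exact Nat.lt_succ_iff.1 (mem_range.1 (ext_mem_of_pi hj hP))
        · have hP := (hCL.own_mem w (hCL.win_lt w hw)).1
          exact Nat.lt_succ_iff.1 (mem_range.1 (ext_mem_of_pi hj' hP))

end Pool.Agent.TRI
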