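import Mathlib

/-!
Triangulations of finite planar point sets (collinear points allowed), following the problem file:
a triangulation of `S` is a maximal set of pairwise non-crossing segments with end points in `S`
whose relative interiors contain no point of `S`.

The second half of the file fixes the vocabulary of the proof: point sets with many points on the
axis `y = 0`, upward and downward degrees, slopes, laminar families of intervals.
-/

namespace Pool.Agent.TRI

open Finset

/-- points of the plane -/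
abbrev Pt := ℝ × ℝ

/-- the relative interior of a segment -/
def seg (e : Sym2 Pt) : Set Pt := {x | ∃ p q : Pt, e = s(p, q) ∧ x ∈ openSegment ℝ p q}

/-- `e` is a segment between two different points of `S` with no point of `S` in its relative
interior -/
def IsSeg (S : Finset Pt) (e : Sym2 Pt) : Prop :=
  ¬ e.IsDiag ∧ (∀ p ∈ e, p ∈ S) ∧ ∀ x ∈ S, x ∉ seg e

/-- a set of pairwise non-crossing segments of `S` -/
def IsNC (S : Finset Pt) (T : Finset (Sym2 Pt)) : Prop :=
  (∀ e ∈ T, IsSeg S e) ∧ ∀ e ∈ T, ∀ f ∈ T, e ≠ f → Disjoint (seg e) (seg f)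

/-- a triangulation of `S`: a maximal set of pairwise non-crossing segments -/
def IsTri (S : Finset Pt) (T : Finset (Sym2 Pt)) : Prop :=
  IsNC S T ∧ ∀ T', IsNC S T' → T ⊆ T' → T' = T

open Classical in
/-- the finite set of triangulations of `S` -/
noncomputable def tris (S : Finset Pt) : Finset (Finset (Sym2 Pt)) :=
  S.sym2.powerset.filter (IsTri S)

/-- the number of triangulations -/
noncomputable def tr (S : Finset Pt) : ℕ := (tris S).card

/-! ### Points on the axis -/

/-- the point of the axis with abscissa `a` -/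
def fpt (a : ℝ) : Pt := (a, 0)

/-- orientation of three points -/
def det (p q r : Pt) : ℝ := (q.1 - p.1) * (r.2 - p.2) - (q.2 - p.2) * (r.1 - p.1)

open Classical in
/-- the point set with the points `W` off the axis and the points `A` on the axis -/
noncomputable def setWA (W : Finset Pt) (A : Finset ℝ) : Finset Pt := W ∪ A.image fpt

open Classical in
/-- number of neighbours above the axis of the axis point `a` -/
noncomputable def up (W : Finset Pt) (T : Finset (Sym2 Pt)) (a : ℝ) : ℕ :=
  (W.filter fun u => 0 < u.2 ∧ s(fpt a, u) ∈ T).card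

open Classical in
/-- number of neighbours below the axis of the axis point `a` -/
noncomputable def dn (W : Finset Pt) (T : Finset (Sym2 Pt)) (a : ℝ) : ℕ :=
  (W.filter fun u => u.2 < 0 ∧ s(fpt a, u) ∈ T).card

/-- no line through two points of `W` meets the axis in `[a, b]` -/
def Clear (W : Finset Pt) (a b : ℝ) : Prop :=
  ∀ u ∈ W, ∀ v ∈ W, u ≠ v → ∀ c, a ≤ c → c ≤ b → det u v (fpt c) ≠ 0

/-! ### One side of the axis

Both sides are described by points with positive ordinate; the points below the axis are the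
mirror images `low p`. -/

/-- mirror image -/
def low (p : Pt) : Pt := (p.1, -p.2)

/-- for points `p`, `q` at different positive heights: where the line `pq` meets the axis -/
noncomputable def sl (p q : Pt) : ℝ := (q.1 * p.2 - p.1 * q.2) / (p.2 - q.2)

/-- for `p`, `q` of positive height: where the segment from `p` to `low q` meets the axis -/
noncomputable def cr (p q : Pt) : ℝ := (p.1 * q.2 + q.1 * p.2) / (p.2 + q.2)

/-- the points on one side of the axis, indexed by names in `α` -/
structure Side (α : Type) where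
  I : Finset α
  pt : α → Pt
  top : α

/-- validity of a side: the point `top` is the highest one and all the others are inside the
triangle `x 0, top, x F` -/
structure Side.Good {α : Type} (D : Side α) (F : ℕ) (x : ℕ → ℝ) : Prop where
  top_mem : D.top ∈ D.I
  inj : Set.InjOn D.pt D.I
  pos : ∀ v ∈ D.I, 0 < (D.pt v).2
  inside : ∀ v ∈ D.I, v ≠ D.top → (D.pt v).2 < (D.pt D.top).2 ∧
    x 0 < sl (D.pt D.top) (D.pt v) ∧ sl (D.pt D.top) (D.pt v) < x F
  topfoot : x 0 < (D.pt D.top).1 ∧ (D.pt D.top).1 < x F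

variable {α : Type}

/-- `v` is the lowest point above `w` whose interval contains the one of `w` -/
def IsPar (D : Side α) (R : α → ℕ × ℕ) (v w : α) : Prop :=
  v ∈ D.I ∧ (D.pt w).2 < (D.pt v).2 ∧ (R v).1 ≤ (R w).1 ∧ (R w).2 ≤ (R v).2 ∧
    ∀ u ∈ D.I, (D.pt w).2 < (D.pt u).2 → (R u).1 ≤ (R w).1 → (R w).2 ≤ (R u).2 →
      (D.pt v).2 ≤ (D.pt u).2

/-- `R` is a tent system: an assignment of intervals `[(R w).1, (R w).2]` of feet to the points of
a side -/
structure IsTS (D : Side α) (F : ℕ) (x : ℕ → ℝ) (R : α → ℕ × ℕ) : Prop where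
  rt : R D.top = (0, F)
  bd : ∀ w ∈ D.I, w ≠ D.top → 0 < (R w).1 ∧ (R w).1 < (R w).2 ∧ (R w).2 < F
  lam : ∀ v ∈ D.I, ∀ w ∈ D.I, (D.pt w).2 < (D.pt v).2 →
    ((R v).1 ≤ (R w).1 ∧ (R w).2 ≤ (R v).2) ∨ (R w).2 ≤ (R v).1 ∨ (R v).2 ≤ (R w).1
  same : ∀ v ∈ D.I, ∀ w ∈ D.I, v ≠ w → (D.pt v).2 = (D.pt w).2 →
    (R w).2 ≤ (R v).1 ∨ (R v).2 ≤ (R w).1
  par : ∀ w ∈ D.I, ∀ v, IsPar D R v w →
    x (R w).1 < sl (D.pt v) (D.pt w) ∧ sl (D.pt v) (D.pt w) < x (R w).2
  out : ∀ w, w ∉ D.I → R w = (0, 0)

theorem finite_TS (D : Side α) (F : ℕ) (x : ℕ → ℝ) : {R | IsTS D F x R}.Finite := by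
  classical
  have h : {R | IsTS D F x R} ⊆
      (fun (R' : (↥D.I) → ℕ × ℕ) (w : α) => if h : w ∈ D.I then R' ⟨w, h⟩ else (0, 0)) ''
        {R' | ∀ w, R' w ∈ (range (F + 1) ×ˢ range (F + 1) : Finset (ℕ × ℕ))} := by
    intro R hR
    replace hR : IsTS D F x R := hR
    refine ⟨fun w => R w, ?_, ?_⟩
    · rintro ⟨w, hw⟩
      simp only [mem_product, mem_range]
      by_cases ht : w = D.top
      · rw [ht, hR.rt]; simp
      · have := hR.bd w hw ht; omega
    · funext w
      by_cases hw : w ∈ D.I
      · simp [hw]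
      · simp only [hw, dite_false]
        exact (hR.out w hw).symm
  refine Set.Finite.subset (Set.Finite.image _ ?_) h
  exact Set.Finite.pi' fun _ => finite_toSet _

/-- the finite set of tent systems -/
noncomputable def TS (D : Side α) (F : ℕ) (x : ℕ → ℝ) : Finset (α → ℕ × ℕ) :=
  (finite_TS D F x).toFinset

theorem mem_TS {D : Side α} {F : ℕ} {x : ℕ → ℝ} {R : α → ℕ × ℕ} :
    R ∈ TS D F x ↔ IsTS D F x R := by
  simp [TS]

/-- `v` is the lowest point whose interval covers the gap `g` -/
def IsLab (D : Side α) (R : α → ℕ × ℕ) (g : ℕ) (v : α) : Prop :=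
  v ∈ D.I ∧ (R v).1 ≤ g ∧ g < (R v).2 ∧
    ∀ u ∈ D.I, (R u).1 ≤ g → g < (R u).2 → (D.pt v).2 ≤ (D.pt u).2

open Classical in
/-- the label of the gap `g` -/
noncomputable def lab (D : Side α) (R : α → ℕ × ℕ) (g : ℕ) : α :=
  if h : ∃ v, IsLab D R g v then h.choose else D.top

open Classical in
/-- number of intervals (other than the one of `top`) with end point `f` -/
noncomputable def kk (D : Side α) (R : α → ℕ × ℕ) (f : ℕ) : ℕ :=
  (D.I.filter fun w => w ≠ D.top ∧ (R w).1 = f).card +
    (D.I.filter fun w => w ≠ D.top ∧ (R w).2 = f).card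

open Classical in
/-- the factor of the gap `g` when its upper label is the point `p` and its lower label the point
`low q` -/
noncomputable def Mg (x : ℕ → ℝ) (Bl : Finset ℝ) (g : ℕ) (p q : Pt) : ℕ :=
  if x g < cr p q ∧ cr p q < x (g + 1) ∧ cr p q ∉ Bl then 2 else 1

open Classical in
/-- all points off the axis -/
noncomputable def offPts {β : Type} (U : Side α) (L : Side β) : Finset Pt :=
  U.I.image U.pt ∪ L.I.image fun w => low (L.pt w)

open Classical in
/-- all points of the axis: feet and blockers -/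
noncomputable def axPts (F : ℕ) (x : ℕ → ℝ) (Bl : Finset ℝ) : Finset ℝ :=
  (range (F + 1)).image x ∪ Bl

/-- feet are increasing, blockers are inside and different from feet -/
structure GoodFeet (F : ℕ) (x : ℕ → ℝ) (Bl : Finset ℝ) : Prop where
  two : 2 ≤ F
  mono : ∀ i j, i < j → j ≤ F → x i < x j
  bl : ∀ b ∈ Bl, x 0 < b ∧ b < x F ∧ ∀ i ≤ F, b ≠ x i

end Pool.Agent.TRI
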