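import Pool.Agent.TRI.D_State
import Pool.Agent.TRI.D_Ext

/-!
Area D: from the numbers of triangulations to the partition function of the spin network.
Definitions in D_Defs, proofs in D_Alg, D_State (D1), D_Poly, D_Clu, D_Ext (D2).
-/

namespace Pool.Agent.TRI

open Finset

variable {ν μ : Type} [DecidableEq ν] [DecidableEq μ]
variable {F : ℕ} {win : Finset ℕ} {ex : ℕ → ℕ} {x : ℕ → ℝ} {KU : Skel ν} {KL : Skel μ}
  {DU : Side (Nm ν)} {DL : Side (Nm μ)}

/-- D1 -/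
theorem state_sum (hCU : KU.Comb F win ex) (hCL : KL.Comb F win ex)
    (hGU : KU.Geo F win x DU) (hGL : KL.Geo F win x DL) :
    ∃ c : ℚ, 0 < c ∧ ∀ Bl bad, Crossing KU KL DU DL x win Bl bad →
      ∑ R ∈ (TS DU F x).filter (fun R => KU.tdeg F win ex R = KU.tmax F win ex),
        ∑ R' ∈ (TS DL F x).filter (fun R => KL.tdeg F win ex R = KL.tmax F win ex),
          (∏ f ∈ Ioo 0 F, ((Nat.factorial (kk DU R f) : ℚ))⁻¹ *
            ((Nat.factorial (kk DL R' f) : ℚ))⁻¹) *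
            ∏ g ∈ range F, (Mg x Bl g (DU.pt (lab DU R g)) (DL.pt (lab DL R' g)) : ℚ) =
        c * part KU KL win bad :=
  state_sum' hCU hCL hGU hGL

/-- D2: extraction of the leading coefficient -/
theorem extract (hCU : KU.Comb F win ex) (hCL : KL.Comb F win ex)
    (hGU : KU.Geo F win x DU) (hGL : KL.Geo F win x DL) (Bl : Finset ℝ)
    (hF : GoodFeet F x Bl) (κ : ℝ) (hκ : 0 < κ) (M : ℕ)
    (hM : ∀ f ∈ Ioo 0 F, ∀ t ≤ KU.tmax F win ex + KL.tmax F win ex,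
      t ^ ex f * dmax DU DL ≤ M)
    (hclear : ∀ f ∈ Ioo 0 F, Clear (offPts DU DL) (x f) (x f + M * κ))
    (hsep : ∀ f ∈ Ioo 0 F, x f + M * κ < x (f + 1))
    (hsepB : ∀ f ∈ Ioo 0 F, ∀ b ∈ Bl, x f < b → x f + M * κ < b) :
    (altSum (offPts DU DL) F x ex Bl κ (dmax DU DL)
        (KU.tmax F win ex + KL.tmax F win ex) : ℚ) =
      (Nat.factorial (dmax DU DL) : ℚ) *
        (Nat.factorial (KU.tmax F win ex + KL.tmax F win ex) : ℚ) *
      ∑ R ∈ (TS DU F x).filter (fun R => KU.tdeg F win ex R = KU.tmax F win ex),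
        ∑ R' ∈ (TS DL F x).filter (fun R => KL.tdeg F win ex R = KL.tmax F win ex),
          (∏ f ∈ Ioo 0 F, ((Nat.factorial (kk DU R f) : ℚ))⁻¹ *
            ((Nat.factorial (kk DL R' f) : ℚ))⁻¹) *
            ∏ g ∈ range F, (Mg x Bl g (DU.pt (lab DU R g)) (DL.pt (lab DL R' g)) : ℚ) :=
  extract' hCU hCL hGU hGL Bl hF κ hκ M hM hclear hsep hsepB

end Pool.Agent.TRI
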