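import Pool.Agent.TRI.Inst
import Pool.Agent.TRI.StmtD

/-!
Area E: definitions (moved from StmtE, so that the proofs can import them).
-/

namespace Pool.Agent.TRI

namespace Inst

open Finset

/-- number of spin arcs -/
def nA (N K r : ℕ) : ℕ := (2 * N - 1) * r * (K - 1)

/-- maximal total degree -/
def dI (N K r : ℕ) : ℕ :=
  2 * (5 * N * K + (F N K r - 2 - 2 * nA N K r)) +
    2 * (2 * R N r * (K + 1) + nA N K r + (F N K r - 2 - 2 * nA N K r))

/-- maximal total exponent -/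
def eI (N K r : ℕ) : ℕ := 16 * N * (1 + r) * (K + 1) + 6 * N * K + nA N K r

/-- weights of the four states -/
def wgt (c : ℕ) : ℕ := if c = 1 ∨ c = 2 then 5 else 3

/-- spin arcs of a rainbow `k` with `1 ≤ k ≤ K - 1` -/
def arcs (N r : ℕ) : Finset ℕ := (Icc 1 (R N r)).filter fun j => isH r j || (isD r j && decide (iL r j < N))

/-- the partition function -/
def Y (N K r : ℕ) (fw : ℕ → ℕ → Bool) : ℕ :=
  ∑ σ ∈ ((Icc 1 K) ×ˢ (Icc 1 N)).pi (fun _ => range 4),
    (∏ P ∈ (Icc 1 K) ×ˢ (Icc 1 N), wgt (Skel.ext σ P)) *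
      ∏ k ∈ Icc 1 (K - 1), ∏ j ∈ arcs N r,
        (112 + if fw (ftL N r k j 2) (Skel.ext σ (k, iL r j)) =
            fw (ftR N r k j 0) (Skel.ext σ (k + 1, iR r j)) then 1 else 0)

end Inst

end Pool.Agent.TRI
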