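import Pool.Agent.TRI.E1_Idx
import Pool.Agent.TRI.EDefs

/-! [E1_CardArcs] the number of spin arcs of a rainbow. -/

namespace Pool.Agent.TRI

namespace Inst

open Finset

variable {N K r : ℕ}

private theorem ca_sum_arcs {M : Type} [AddCommMonoid M] (h : ℕ → M) :
    ∑ j ∈ Icc 1 (R N r), h j = ∑ i ∈ Icc 1 N, ∑ ρ ∈ Icc 1 (Bk r), h ((i - 1) * Bk r + ρ) := by
  rw [← Finset.sum_product']
  apply Finset.sum_nbij' (fun j => (iL r j, rho r j)) (fun p => (p.1 - 1) * Bk r + p.2)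
  · intro j hj
    rw [mem_Icc] at hj
    rw [mem_product, mem_Icc, mem_Icc]
    exact ⟨⟨iL_pos, iL_le hj.1 hj.2⟩, rho_pos, rho_le⟩
  · rintro ⟨i, ρ⟩ hp
    rw [mem_product, mem_Icc, mem_Icc] at hp
    rw [mem_Icc]
    exact ⟨arc_pos hp.2.1, arc_le hp.1.1 hp.1.2 hp.2.2⟩
  · intro j hj
    rw [mem_Icc] at hj
    obtain ⟨i, ρ, hi, hiN, hρ, hρ', rfl⟩ := exists_arc hj.1 hj.2
    show (iL r ((i - 1) * Bk r + ρ) - 1) * Bk r + rho r ((i - 1) * Bk r + ρ) = _
    rw [iL_arc hi hρ hρ', rho_arc hρ hρ']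
  · rintro ⟨i, ρ⟩ hp
    rw [mem_product, mem_Icc, mem_Icc] at hp
    show (iL r ((i - 1) * Bk r + ρ), rho r ((i - 1) * Bk r + ρ)) = _
    rw [iL_arc hp.1.1 hp.2.1 hp.2.2, rho_arc hp.2.1 hp.2.2]
  · intro j hj
    rw [mem_Icc] at hj
    obtain ⟨i, ρ, hi, hiN, hρ, hρ', rfl⟩ := exists_arc hj.1 hj.2
    show _ = h ((iL r ((i - 1) * Bk r + ρ) - 1) * Bk r + rho r ((i - 1) * Bk r + ρ))
    rw [iL_arc hi hρ hρ', rho_arc hρ hρ']

private theorem ca_block (b : Bool) :
    ∑ ρ ∈ Icc 1 (Bk r), (if (decide (ρ ≤ r) || (decide (r + 2 ≤ ρ ∧ ρ ≤ 2 * r + 1) && b)) = true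
      then 1 else 0) = r + if b then r else 0 := by
  rw [← card_filter]
  have h : (Icc 1 (Bk r)).filter (fun ρ => (decide (ρ ≤ r) ||
      (decide (r + 2 ≤ ρ ∧ ρ ≤ 2 * r + 1) && b)) = true) =
      Icc 1 r ∪ (if b then Icc (r + 2) (2 * r + 1) else ∅) := by
    ext ρ
    rw [mem_filter, mem_Icc, mem_union, mem_Icc]
    unfold Bk
    cases b
    · simp only [Bool.and_false, Bool.or_false, decide_eq_true_eq, Bool.false_eq_true, if_false,
        notMem_empty, or_false]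
      omega
    · simp only [Bool.and_true, Bool.or_eq_true, decide_eq_true_eq, if_true, mem_Icc]
      omega
  rw [h, card_union_of_disjoint]
  · rw [Nat.card_Icc]
    cases b
    · simp
    · simp only [if_true, Nat.card_Icc]
      omega
  · rw [Finset.disjoint_left]
    intro ρ h1 h2
    cases b
    · simp at h2
    · simp only [if_true] at h2
      rw [mem_Icc] at h1 h2
      omega

theorem card_arcs (hN : 1 ≤ N) : (arcs N r).card = (2 * N - 1) * r := by
  unfold arcs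
  rw [card_filter, ca_sum_arcs]
  have h1 : ∀ i ∈ Icc 1 N, ∑ ρ ∈ Icc 1 (Bk r),
      (if (isH r ((i - 1) * Bk r + ρ) || (isD r ((i - 1) * Bk r + ρ) &&
        decide (iL r ((i - 1) * Bk r + ρ) < N))) = true then 1 else 0) =
      r + if decide (i < N) then r else 0 := by
    intro i hi
    rw [mem_Icc] at hi
    rw [← ca_block (r := r) (decide (i < N))]
    refine Finset.sum_congr rfl fun ρ hρ => ?_
    rw [mem_Icc] at hρ
    unfold isH isD
    rw [iL_arc hi.1 hρ.1 hρ.2, rho_arc hρ.1 hρ.2]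
  rw [Finset.sum_congr rfl h1, Finset.sum_add_distrib, Finset.sum_const, Nat.card_Icc]
  have h2 : ∑ i ∈ Icc 1 N, (if decide (i < N) = true then r else 0) = (N - 1) * r := by
    rw [← Finset.sum_filter, Finset.sum_const, smul_eq_mul]
    congr 1
    have : (Icc 1 N).filter (fun i => decide (i < N) = true) = Icc 1 (N - 1) := by
      ext i
      rw [mem_filter, mem_Icc, mem_Icc, decide_eq_true_eq]
      omega
    rw [this, Nat.card_Icc]
    omega
  rw [h2, smul_eq_mul, ← add_mul]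
  congr 1
  omega

end Inst

end Pool.Agent.TRI
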