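import Pool.Agent.TRI.E1_Idx
import Pool.Agent.TRI.EDefs

/-! [E1_CardNames] the number of names of a skeleton. -/

namespace Pool.Agent.TRI

namespace Inst

open Finset

theorem card_names {ν : Type} [DecidableEq ν] (Ks : Skel ν) (F : ℕ) (win : Finset ℕ)
    (hrt : Ks.rt ∈ Ks.nodes) :
    (Ks.names F win).card =
      (∑ P ∈ Ks.nodes, (Ks.s P + 1)) + (lf F win).card + (Ks.nodes.card - 1) := by
  unfold Skel.names
  rw [card_union_of_disjoint, card_union_of_disjoint]
  · congr 1
    · congr 1
      · rw [card_biUnion]
        · refine Finset.sum_congr rfl fun P _ => ?_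
          rw [card_image_of_injective, card_range]
          intro c c' h
          injection h
        · intro P _ Q _ hPQ
          rw [Function.onFun, Finset.disjoint_left]
          intro x hx hx'
          rw [mem_image] at hx hx'
          obtain ⟨c, _, rfl⟩ := hx
          obtain ⟨c', _, h⟩ := hx'
          injection h with h1 h2
          exact hPQ h1.symm
      · rw [card_image_of_injective]
        intro c c' h
        injection h
    · rw [card_image_of_injective, card_erase_of_mem hrt]
      intro c c' h
      injection h
  · rw [Finset.disjoint_left]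
    intro x hx hx'
    rw [mem_biUnion] at hx
    rw [mem_image] at hx'
    obtain ⟨P, _, hx⟩ := hx
    rw [mem_image] at hx
    obtain ⟨c, _, rfl⟩ := hx
    obtain ⟨c', _, h⟩ := hx'
    cases h
  · rw [Finset.disjoint_left]
    intro x hx hx'
    rw [mem_union, mem_biUnion] at hx
    rw [mem_image] at hx'
    obtain ⟨c', _, h⟩ := hx'
    rcases hx with ⟨P, _, hx⟩ | hx
    · rw [mem_image] at hx
      obtain ⟨c, _, rfl⟩ := hx
      cases h
    · rw [mem_image] at hx
      obtain ⟨c, _, rfl⟩ := hx
      cases h

end Inst

end Pool.Agent.TRI
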