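import Pool.Agent.TRI.E1_CombU2

/-!
Area E1: the combinatorial axioms of the lower skeleton.
-/

namespace Pool.Agent.TRI

namespace Inst

open Finset

variable {N K r k k' j j' q q' f i i' ρ : ℕ}

theorem memL : some (k, j) ∈ (KL N K r).nodes ↔ k ≤ K ∧ 1 ≤ j ∧ j ≤ R N r := by
  simp [KL]

theorem none_memL : none ∈ (KL N K r).nodes := by simp [KL]

theorem aL : (KL N K r).a (some (k, j)) = ftL N r k j 0 := rfl

theorem bL : (KL N K r).b (some (k, j)) = ftR N r k j 3 := rfl

theorem aL_none : (KL N K r).a none = 0 := rfl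

theorem bL_none : (KL N K r).b none = F N K r := rfl

theorem coverL_ftL (hj' : 1 ≤ j') (hjR' : j' ≤ R N r) (hj : 1 ≤ j) (hjR : j ≤ R N r)
    (hq : q < 4) :
    ((KL N K r).a (some (k', j')) ≤ ftL N r k j q ∧ ftL N r k j q < (KL N K r).b (some (k', j'))) ↔
      k' = k ∧ j' ≤ j := by
  rw [aL, bL, ftR_eq, ftL_eq, ftL_eq]
  constructor
  · rintro ⟨h1, h2⟩
    have hkk : k' = k := by
      by_contra hne
      rcases Nat.lt_or_gt_of_ne hne with h | h
      · have := kmul_lt (N := N) (r := r) h; omega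
      · have := kmul_lt (N := N) (r := r) h; omega
    subst hkk
    refine ⟨rfl, by omega⟩
  · rintro ⟨rfl, h⟩
    omega

theorem coverL_ftR (hj' : 1 ≤ j') (hjR' : j' ≤ R N r) (hj : 1 ≤ j) (hjR : j ≤ R N r)
    (hq : q < 4) :
    ((KL N K r).a (some (k', j')) ≤ ftR N r k j q ∧ ftR N r k j q < (KL N K r).b (some (k', j'))) ↔
      k' = k ∧ 4 * j' + q < 4 * j + 3 := by
  rw [aL, bL, ftR_eq, ftL_eq, ftR_eq]
  constructor
  · rintro ⟨h1, h2⟩
    have hkk : k' = k := by
      by_contra hne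
      rcases Nat.lt_or_gt_of_ne hne with h | h
      · have := kmul_lt (N := N) (r := r) h; omega
      · have := kmul_lt (N := N) (r := r) h; omega
    subst hkk
    refine ⟨rfl, by omega⟩
  · rintro ⟨rfl, h⟩
    omega

/-- nested intervals -/
theorem nestL (hj' : 1 ≤ j') (hjR' : j' ≤ R N r) (hj : 1 ≤ j) (hjR : j ≤ R N r) :
    ((KL N K r).a (some (k, j)) ≤ (KL N K r).a (some (k', j')) ∧
      (KL N K r).b (some (k', j')) ≤ (KL N K r).b (some (k, j))) ↔ k = k' ∧ j ≤ j' := by
  rw [aL, bL, aL, bL, ftR_eq, ftL_eq, ftR_eq, ftL_eq]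
  constructor
  · rintro ⟨h1, h2⟩
    have hkk : k = k' := by
      by_contra hne
      rcases Nat.lt_or_gt_of_ne hne with h | h
      · have := kmul_lt (N := N) (r := r) h; omega
      · have := kmul_lt (N := N) (r := r) h; omega
    subst hkk
    exact ⟨rfl, by omega⟩
  · rintro ⟨rfl, h2⟩
    omega

theorem disjL (hj' : 1 ≤ j') (hjR' : j' ≤ R N r) (hj : 1 ≤ j) (hjR : j ≤ R N r) (h : k < k') :
    (KL N K r).b (some (k, j)) ≤ (KL N K r).a (some (k', j')) := by
  rw [aL, bL, ftR_eq, ftL_eq]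
  have := kmul_lt (N := N) (r := r) h
  omega

theorem aL_pos : 1 ≤ (KL N K r).a (some (k, j)) := ftL_pos

theorem bL_lt (hkK : k ≤ K) (hj : 1 ≤ j) (hjR : j ≤ R N r) :
    (KL N K r).b (some (k, j)) < F N K r := by
  rw [bL]
  exact ftR_lt hkK hj hjR (by omega)

theorem ancL_some : (KL N K r).Anc (some (k, j)) (some (k', j')) ↔
    k ≤ K ∧ 1 ≤ j ∧ j' ≤ R N r ∧ k = k' ∧ j < j' := by
  unfold Skel.Anc
  rw [memL, memL]
  constructor
  · rintro ⟨h1, h2, h3, h4⟩
    have h5 := (nestL h2.2.1 h2.2.2 h1.2.1 h1.2.2).1 h4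
    refine ⟨h1.1, h1.2.1, h2.2.2, h5.1, lt_of_le_of_ne h5.2 ?_⟩
    rintro rfl
    exact h3 (by rw [h5.1])
  · rintro ⟨h1, h2, h3, rfl, h4⟩
    refine ⟨⟨h1, h2, by omega⟩, ⟨h1, by omega, h3⟩, ?_, (nestL (by omega) h3 h2 (by omega)).2
      ⟨rfl, h4.le⟩⟩
    intro h
    simp only [Option.some.injEq, Prod.mk.injEq] at h
    omega

theorem ancL_none : (KL N K r).Anc none (some (k, j)) ↔ k ≤ K ∧ 1 ≤ j ∧ j ≤ R N r := by
  unfold Skel.Anc
  rw [memL]
  constructor
  · rintro ⟨-, h, -⟩; exact h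
  · intro h
    exact ⟨none_memL, h, by simp, Nat.zero_le _, (bL_lt h.1 h.2.1 h.2.2).le⟩

theorem not_ancL_none {P : Option (ℕ × ℕ)} : ¬ (KL N K r).Anc P none := by
  rintro ⟨-, -, h1, h2, -⟩
  rcases P with _ | ⟨k, j⟩
  · exact h1 rfl
  · have := aL_pos (N := N) (K := K) (r := r) (k := k) (j := j)
    rw [aL_none] at h2
    omega

theorem own_memL_aux {g j₀ k₀ : ℕ} (hk₀ : k₀ ≤ K) (hj₀ : j₀ ≤ R N r) (hg : g < F N K r)
    (hc : ∀ k' j, k' ≤ K → 1 ≤ j → j ≤ R N r →
      (((KL N K r).a (some (k', j)) ≤ g ∧ g < (KL N K r).b (some (k', j))) ↔ k' = k₀ ∧ j ≤ j₀)) :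
    let o : Option (ℕ × ℕ) := if 1 ≤ j₀ then some (k₀, j₀) else none
    o ∈ (KL N K r).nodes ∧ (KL N K r).a o ≤ g ∧ g < (KL N K r).b o ∧
      ∀ P ∈ (KL N K r).nodes, (KL N K r).a P ≤ g → g < (KL N K r).b P →
        P = o ∨ (KL N K r).Anc P o := by
  intro o
  by_cases h : 1 ≤ j₀
  · have ho : o = some (k₀, j₀) := if_pos h
    rw [ho]
    have h1 := (hc k₀ j₀ hk₀ h hj₀).2 ⟨rfl, le_rfl⟩
    refine ⟨memL.2 ⟨hk₀, h, hj₀⟩, h1.1, h1.2, ?_⟩
    intro P hP h2 h3
    rcases P with _ | ⟨k', j'⟩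
    · exact Or.inr (ancL_none.2 ⟨hk₀, h, hj₀⟩)
    · have hP' := memL.1 hP
      have h4 := (hc k' j' hP'.1 hP'.2.1 hP'.2.2).1 ⟨h2, h3⟩
      rcases Nat.eq_or_lt_of_le h4.2 with h5 | h5
      · left; rw [h4.1, h5]
      · right; exact ancL_some.2 ⟨hP'.1, hP'.2.1, hj₀, h4.1, h5⟩
  · have ho : o = none := if_neg h
    rw [ho]
    refine ⟨none_memL, Nat.zero_le _, hg, ?_⟩
    intro P hP h2 h3
    rcases P with _ | ⟨k', j'⟩
    · exact Or.inl rfl
    · have hP' := memL.1 hP
      have h4 := (hc k' j' hP'.1 hP'.2.1 hP'.2.2).1 ⟨h2, h3⟩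
      omega

theorem own_memL {g : ℕ} (hg : g < F N K r) :
    (KL N K r).own g ∈ (KL N K r).nodes ∧ (KL N K r).a ((KL N K r).own g) ≤ g ∧
      g < (KL N K r).b ((KL N K r).own g) ∧
      ∀ P ∈ (KL N K r).nodes, (KL N K r).a P ≤ g → g < (KL N K r).b P →
        P = (KL N K r).own g ∨ (KL N K r).Anc P ((KL N K r).own g) := by
  rcases Nat.eq_zero_or_pos g with rfl | hg1
  · rw [ownL_zero]
    refine ⟨none_memL, Nat.zero_le _, hg, ?_⟩
    intro P hP h2 h3
    rcases P with _ | ⟨k', i'⟩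
    · exact Or.inl rfl
    · have := aL_pos (N := N) (K := K) (r := r) (k := k') (j := i')
      omega
  obtain ⟨k, j, q, hk, hj, hjR, hq, rfl | rfl⟩ := exists_rep hg1 hg
  · rw [ownL_ftL hk hj hjR hq]
    have h := own_memL_aux (N := N) (K := K) (r := r) (g := ftL N r k j q) (j₀ := j)
      (k₀ := k) hk hjR hg ?_
    · rw [if_pos hj] at h
      exact h
    · intro k' i hk' hi hiN
      rw [coverL_ftL hi hiN hj hjR hq]
  · rw [ownL_ftR hk hj hjR hq]
    by_cases hq3 : q = 3
    · rw [if_pos hq3]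
      have h := own_memL_aux (N := N) (K := K) (r := r) (g := ftR N r k j q) (j₀ := j - 1)
        (k₀ := k) hk (by omega) hg ?_
      · have e : (if 1 ≤ j - 1 then some (k, j - 1) else none) =
            if 1 < j then some (k, j - 1) else none := by
          by_cases h1 : 1 < j
          · rw [if_pos h1, if_pos (by omega)]
          · rw [if_neg h1, if_neg (by omega)]
        rw [e] at h
        exact h
      · intro k' i hk' hi hiN
        rw [coverL_ftR hi hiN hj hjR hq]
        constructor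
        · rintro ⟨h1, h2⟩; exact ⟨h1, by omega⟩
        · rintro ⟨h1, h2⟩; exact ⟨h1, by omega⟩
    · rw [if_neg hq3]
      have h := own_memL_aux (N := N) (K := K) (r := r) (g := ftR N r k j q) (j₀ := j)
        (k₀ := k) hk hjR hg ?_
      · rw [if_pos hj] at h
        exact h
      · intro k' i hk' hi hiN
        rw [coverL_ftR hi hiN hj hjR hq]
        constructor
        · rintro ⟨h1, h2⟩; exact ⟨h1, by omega⟩
        · rintro ⟨h1, h2⟩; exact ⟨h1, by omega⟩

theorem ends_L (hk : k ≤ K) (hj : 1 ≤ j) (hjR : j ≤ R N r) :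
    0 < (KL N K r).a (some (k, j)) ∧ (KL N K r).a (some (k, j)) + 2 ≤ (KL N K r).b (some (k, j)) ∧
      (KL N K r).b (some (k, j)) < F N K r ∧
      (KL N K r).own ((KL N K r).a (some (k, j))) = some (k, j) ∧
      (KL N K r).a (some (k, j)) ∉ win N K r ∧
      (KL N K r).own ((KL N K r).b (some (k, j)) - 1) = some (k, j) ∧
      (KL N K r).b (some (k, j)) - 1 ∉ win N K r := by
  have hb1 : ftR N r k j 3 - 1 = ftR N r k j 2 := by unfold ftR; omega
  refine ⟨aL_pos, ?_, bL_lt hk hj hjR, ?_, ?_, ?_, ?_⟩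
  · rw [aL, bL, ftR_eq, ftL_eq]
    omega
  · rw [aL, ownL_ftL hk hj hjR (by omega)]
  · rw [aL, ftL_mem_win hj hjR (by omega)]
    omega
  · rw [bL, hb1, ownL_ftR hk hj hjR (by omega), if_neg (by omega)]
  · rw [bL, hb1, ftR_mem_win hj hjR (by omega)]
    omega

theorem parL : (KL N K r).par (some (k, j)) = if 1 < j then some (k, j - 1) else none := rfl

theorem outer_L (hk : k ≤ K) (hj : 1 ≤ j) (hjR : j ≤ R N r) :
    (KL N K r).own ((KL N K r).a (some (k, j)) - 1) = (KL N K r).par (some (k, j)) ∧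
      (KL N K r).a (some (k, j)) - 1 ∉ win N K r ∧
      (KL N K r).own ((KL N K r).b (some (k, j))) = (KL N K r).par (some (k, j)) ∧
      (KL N K r).b (some (k, j)) ∉ win N K r := by
  rw [aL, bL, parL]
  refine ⟨?_, ?_, ?_, ?_⟩
  · by_cases h1 : 1 < j
    · have e : ftL N r k j 0 - 1 = ftL N r k (j - 1) 3 := by unfold ftL; omega
      rw [e, ownL_ftL hk (by omega) (by omega) (by omega), if_pos h1]
    · have hj1 : j = 1 := by omega
      subst hj1
      rw [if_neg h1]
      rcases Nat.eq_zero_or_pos k with rfl | hk1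
      · have e : ftL N r 0 1 0 - 1 = 0 := by unfold ftL; simp
        rw [e, ownL_zero]
      · obtain ⟨κ, rfl⟩ := Nat.exists_eq_add_of_le' hk1
        have e : ftL N r (κ + 1) 1 0 - 1 = ftR N r κ 1 3 := by
          unfold ftL ftR
          have : 8 * R N r * (κ + 1) = 8 * R N r * κ + 8 * R N r := by ring
          omega
        rw [e, ownL_ftR (by omega) hj hjR (by omega), if_pos rfl, if_neg (by omega)]
  · by_cases h1 : 1 < j
    · have e : ftL N r k j 0 - 1 = ftL N r k (j - 1) 3 := by unfold ftL; omega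
      rw [e, ftL_mem_win (by omega) (by omega) (by omega)]
      omega
    · have hj1 : j = 1 := by omega
      subst hj1
      rcases Nat.eq_zero_or_pos k with rfl | hk1
      · have e : ftL N r 0 1 0 - 1 = 0 := by unfold ftL; simp
        rw [e]
        exact zero_notMem_win
      · obtain ⟨κ, rfl⟩ := Nat.exists_eq_add_of_le' hk1
        have e : ftL N r (κ + 1) 1 0 - 1 = ftR N r κ 1 3 := by
          unfold ftL ftR
          have : 8 * R N r * (κ + 1) = 8 * R N r * κ + 8 * R N r := by ring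
          omega
        rw [e, ftR_mem_win hj hjR (by omega)]
        omega
  · rw [ownL_ftR hk hj hjR (by omega), if_pos rfl]
  · rw [ftR_mem_win hj hjR (by omega)]
    omega

theorem wins_L (hN : 1 ≤ N) {w : ℕ} (hw : w ∈ win N K r) :
    (KL N K r).own w ≠ (KL N K r).rt ∧ (KL N K r).own (w - 1) = (KL N K r).own w ∧
      (KL N K r).own (w + 1) = (KL N K r).own w ∧ w - 1 ∉ win N K r ∧ w + 1 ∉ win N K r ∧
      (KL N K r).a ((KL N K r).own w) + 2 ≤ w ∧ w + 3 ≤ (KL N K r).b ((KL N K r).own w) ∧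
      ex N K r w = ex N K r (w + 1) := by
  have hex := ex_spin_win hw
  have hU := wins_U hN hw
  obtain ⟨k, j, hk, hkK, hj, hjR, hs, hR, h⟩ := win_cases hw
  have hjR1 := isSpin_lt_R hN hjR hs
  have hrt : (KL N K r).rt = none := rfl
  rcases h with ⟨rfl, -, ho⟩ | ⟨rfl, -, ho⟩
  · have e1 : ftL N r k j 2 - 1 = ftL N r k j 1 := by unfold ftL; omega
    rw [ho, hrt]
    refine ⟨by simp, ?_, ?_, hU.2.2.2.1, hU.2.2.2.2.1, ?_, ?_, hU.2.2.2.2.2.2.2⟩
    · rw [e1, ownL_ftL (by omega) hj hjR (by omega)]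
    · rw [ftL_succ (by omega), ownL_ftL (by omega) hj hjR (by omega)]
    · rw [aL, ftL_eq, ftL_eq]
    · rw [bL, ftL_eq, ftR_eq]; omega
  · have e1 : ftR N r k j 0 - 1 = ftR N r k (j + 1) 3 := by unfold ftR; omega
    rw [ho, hrt]
    refine ⟨by simp, ?_, ?_, hU.2.2.2.1, hU.2.2.2.2.1, ?_, ?_, hU.2.2.2.2.2.2.2⟩
    · rw [e1, ownL_ftR (by omega) (by omega) hjR1 (by omega), if_pos rfl, if_pos (by omega),
        Nat.add_sub_cancel]
    · rw [ftR_succ, ownL_ftR (by omega) hj hjR (by omega), if_neg (by omega)]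
    · rw [aL, ftL_eq, ftR_eq]; omega
    · rw [bL, ftR_eq, ftR_eq]

theorem sL : (KL N K r).s (some (k, j)) = if isSpin N K r k j = true then 1 else 0 := rfl

/-- exponents of the feet of a spin arc -/
theorem spinL_ex (hk : k ≤ K) (hj : 1 ≤ j) (hjR : j ≤ R N r) (hs : isSpin N K r k j = true)
    (hq : q < 4) : ex N K r (ftL N r k j q) = (if q = 1 then 1 else 0) ∧
      ex N K r (ftR N r k j q) = (if q = 2 then 1 else 0) := by
  have hs' := isSpin_iff.1 hs
  have hX : isX r j = false := by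
    rw [← Bool.not_eq_true, isX_iff]
    omega
  have hY : isY r j = false := by
    rw [← Bool.not_eq_true, isY_iff]
    omega
  have hHD : (isH r j || isD r j) = true := by
    rw [Bool.or_eq_true, isH_iff, isD_iff]
    omega
  rw [ex_ftL hk hj hjR hq, ex_ftR hk hj hjR hq, hX, hY, hHD]
  simp

theorem ex_q0 (hk : k ≤ K) (hj : 1 ≤ j) (hjR : j ≤ R N r) :
    ex N K r (ftL N r k j 0) = 0 ∧ ex N K r (ftR N r k j 3) = 0 := by
  rw [ex_ftL hk hj hjR (by omega), ex_ftR hk hj hjR (by omega)]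
  simp

theorem spin_L (hk : k ≤ K) (hj : 1 ≤ j) (hjR : j ≤ R N r) (hs : isSpin N K r k j = true) :
    (KL N K r).a (some (k, j)) + 4 ≤ (KL N K r).b (some (k, j)) ∧
      (KL N K r).own ((KL N K r).a (some (k, j)) + 1) = some (k, j) ∧
      (KL N K r).a (some (k, j)) + 1 ∉ win N K r ∧
      (KL N K r).own ((KL N K r).b (some (k, j)) - 2) = some (k, j) ∧
      (KL N K r).b (some (k, j)) - 2 ∉ win N K r ∧
      ex N K r ((KL N K r).a (some (k, j)) + 1) = ex N K r ((KL N K r).b (some (k, j)) - 1) ∧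
      ∀ f, (KL N K r).a (some (k, j)) < f → f ≤ (KL N K r).b (some (k, j)) →
        f ≠ (KL N K r).a (some (k, j)) + 1 → f ≠ (KL N K r).b (some (k, j)) - 1 →
        (∀ Q, (KL N K r).Anc (some (k, j)) Q → ¬ ((KL N K r).a Q < f ∧ f < (KL N K r).b Q)) →
        ex N K r f < ex N K r ((KL N K r).a (some (k, j)) + 1) := by
  have hb1 : ftR N r k j 3 - 1 = ftR N r k j 2 := by unfold ftR; omega
  have hb2 : ftR N r k j 3 - 2 = ftR N r k j 1 := by unfold ftR; omega
  refine ⟨?_, ?_, ?_, ?_, ?_, ?_, ?_⟩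
  · rw [aL, bL, ftR_eq, ftL_eq]
    omega
  · rw [aL, ftL_succ (by omega), ownL_ftL hk hj hjR (by omega)]
  · rw [aL, ftL_succ (by omega), ftL_mem_win hj hjR (by omega)]
    omega
  · rw [bL, hb2, ownL_ftR hk hj hjR (by omega), if_neg (by omega)]
  · rw [bL, hb2, ftR_mem_win hj hjR (by omega)]
    omega
  · rw [aL, bL, ftL_succ (by omega), hb1, (spinL_ex hk hj hjR hs (by omega)).1,
      (spinL_ex hk hj hjR hs (by omega)).2]
    simp
  · intro f h1 h2 h3 h4 h5
    rw [aL, ftL_succ (by omega), (spinL_ex hk hj hjR hs (by omega)).1]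
    have h0 : ex N K r f = 0 := by
      rw [aL] at h1 h3
      rw [bL] at h2 h4
      rw [hb1] at h4
      rw [ftL_succ (by omega)] at h3
      have hbF := ftR_lt (N := N) (K := K) (r := r) (q := 3) hk hj hjR (by omega)
      obtain ⟨k', j', q, hk', hj', hjR', hq, rfl | rfl⟩ :=
        exists_rep (N := N) (K := K) (r := r) (show 1 ≤ f by omega) (lt_of_le_of_lt h2 hbF)
      · have hkk : k' = k := by
          rw [ftL_eq, ftL_eq] at h1
          rw [ftL_eq, ftR_eq] at h2
          by_contra hne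
          rcases Nat.lt_or_gt_of_ne hne with h | h
          · have := kmul_lt (N := N) (r := r) h; omega
          · have := kmul_lt (N := N) (r := r) h; omega
        subst hkk
        have hjj : j ≤ j' := by
          rw [ftL_eq, ftL_eq] at h1
          omega
        rcases Nat.eq_or_lt_of_le hjj with rfl | h6
        · rw [(spinL_ex hk hj hjR hs hq).1]
          rw [if_neg]
          rintro rfl
          exact h3 rfl
        · have h7 := h5 (some (k', j + 1)) (ancL_some.2 ⟨hk, hj, by omega, rfl, by omega⟩)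
          rw [aL, bL] at h7
          have h8 : j' = j + 1 ∧ q = 0 := by
            rw [ftL_eq, ftR_eq, ftL_eq] at h7
            omega
          rw [h8.1, h8.2]
          exact (ex_q0 hk (by omega) (by omega)).1
      · have hkk : k' = k := by
          rw [ftL_eq, ftR_eq] at h1
          rw [ftR_eq, ftR_eq] at h2
          by_contra hne
          rcases Nat.lt_or_gt_of_ne hne with h | h
          · have := kmul_lt (N := N) (r := r) h; omega
          · have := kmul_lt (N := N) (r := r) h; omega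
        subst hkk
        have hjj : j ≤ j' := by
          rw [ftR_eq, ftR_eq] at h2
          omega
        rcases Nat.eq_or_lt_of_le hjj with rfl | h6
        · rw [(spinL_ex hk hj hjR hs hq).2]
          rw [if_neg]
          rintro rfl
          exact h4 rfl
        · have h7 := h5 (some (k', j + 1)) (ancL_some.2 ⟨hk, hj, by omega, rfl, by omega⟩)
          rw [aL, bL] at h7
          have h8 : j' = j + 1 ∧ q = 3 := by
            rw [ftL_eq, ftR_eq, ftR_eq] at h7
            omega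
          rw [h8.1, h8.2]
          exact (ex_q0 hk (by omega) (by omega)).2
    rw [h0]
    simp

theorem combL (hN : 1 ≤ N) (_hK : 2 ≤ K) (_hr : 1 ≤ r) :
    (KL N K r).Comb (F N K r) (win N K r) (ex N K r) where
  three := three_le_F hN
  win_lt := fun w hw => win_lt hw
  rt_mem := none_memL
  a_rt := rfl
  b_rt := rfl
  s_rt := rfl
  par_anc := by
    intro Q hQ hQr
    rcases Q with _ | ⟨k, j⟩
    · exact (hQr rfl).elim
    have hQ' := memL.1 hQ
    rw [parL]
    by_cases h : 1 < j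
    · rw [if_pos h]
      refine ⟨ancL_some.2 ⟨hQ'.1, by omega, by omega, rfl, by omega⟩, ?_⟩
      intro P hP
      rcases P with _ | ⟨k', j'⟩
      · right
        exact ancL_none.2 ⟨hQ'.1, by omega, by omega⟩
      · have hP' := ancL_some.1 hP
        rcases Nat.eq_or_lt_of_le (show j' ≤ j - 1 by omega) with h1 | h1
        · left
          rw [hP'.2.2.2.1, ← h1]
        · right
          exact ancL_some.2 ⟨hP'.1, by omega, by omega, hP'.2.2.2.1, h1⟩
    · rw [if_neg h]
      refine ⟨ancL_none.2 hQ', ?_⟩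
      intro P hP
      rcases P with _ | ⟨k', j'⟩
      · exact Or.inl rfl
      · have hP' := ancL_some.1 hP
        omega
  tree := by
    intro P hP Q hQ hPQ
    rcases P with _ | ⟨k, j⟩
    · rcases Q with _ | ⟨k', j'⟩
      · exact (hPQ rfl).elim
      · exact Or.inl (ancL_none.2 (memL.1 hQ))
    · rcases Q with _ | ⟨k', j'⟩
      · exact Or.inr (Or.inl (ancL_none.2 (memL.1 hP)))
      · have hP' := memL.1 hP
        have hQ' := memL.1 hQ
        rcases Nat.lt_trichotomy k k' with h | h | h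
        · exact Or.inr (Or.inr (Or.inl (disjL hQ'.2.1 hQ'.2.2 hP'.2.1 hP'.2.2 h)))
        · subst h
          rcases Nat.lt_trichotomy j j' with h | h | h
          · exact Or.inl (ancL_some.2 ⟨hP'.1, hP'.2.1, hQ'.2.2, rfl, h⟩)
          · exact (hPQ (by rw [h])).elim
          · exact Or.inr (Or.inl (ancL_some.2 ⟨hP'.1, hQ'.2.1, hP'.2.2, rfl, h⟩))
        · exact Or.inr (Or.inr (Or.inr (disjL hP'.2.1 hP'.2.2 hQ'.2.1 hQ'.2.2 h)))
  dep_lt := by
    intro P Q h
    rcases P with _ | ⟨k, j⟩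
    · rcases Q with _ | ⟨k', j'⟩
      · exact (not_ancL_none h).elim
      · have hQ' := ancL_none.1 h
        change 0 < j'
        omega
    · rcases Q with _ | ⟨k', j'⟩
      · exact (not_ancL_none h).elim
      · have h' := ancL_some.1 h
        change j < j'
        omega
  own_mem := fun g hg => own_memL hg
  ends := by
    intro P hP hPr
    rcases P with _ | ⟨k, j⟩
    · exact (hPr rfl).elim
    · have hP' := memL.1 hP
      exact ends_L hP'.1 hP'.2.1 hP'.2.2
  outer := by
    intro P hP hPr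
    rcases P with _ | ⟨k, j⟩
    · exact (hPr rfl).elim
    · have hP' := memL.1 hP
      exact outer_L hP'.1 hP'.2.1 hP'.2.2
  wins := fun w hw => wins_L hN hw
  spin := by
    intro P hP hs
    rcases P with _ | ⟨k, j⟩
    · have : (KL N K r).s none = 0 := rfl
      omega
    · have hP' := memL.1 hP
      rw [sL] at hs
      have hs2 : isSpin N K r k j = true := by
        by_contra h
        rw [if_neg h] at hs
        omega
      exact spin_L hP'.1 hP'.2.1 hP'.2.2 hs2

end Inst

end Pool.Agent.TRI
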