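import Pool.Agent.TRI.E1_Idx2

/-!
Area E1: the combinatorial axioms of the upper skeleton.
-/

namespace Pool.Agent.TRI

namespace Inst

open Finset

variable {N K r k k' j j' q q' f i i' ρ : ℕ}

theorem memU : some (k, i) ∈ (KU N K r).nodes ↔ (1 ≤ k ∧ k ≤ K) ∧ 1 ≤ i ∧ i ≤ N := by
  simp [KU]

theorem none_memU : none ∈ (KU N K r).nodes := by simp [KU]

theorem aU : (KU N K r).a (some (k, i)) = ftR N r (k - 1) ((i - 1) * Bk r + r + 1) 0 := rfl

theorem bU : (KU N K r).b (some (k, i)) = ftL N r k (i * Bk r) 3 := rfl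

theorem aU_none : (KU N K r).a none = 0 := rfl

theorem bU_none : (KU N K r).b none = F N K r := rfl

/-- bounds for the left arc of the interval of a node -/
theorem arcY_le (hi : 1 ≤ i) (hiN : i ≤ N) : (i - 1) * Bk r + r + 1 + (r + 1) ≤ R N r := by
  have := arc_le (r := r) hi hiN le_rfl
  have h : Bk r = 2 * r + 2 := rfl
  omega

theorem arcX_le (hiN : i ≤ N) : i * Bk r ≤ R N r := bmul_le hiN

theorem arcX_pos (hi : 1 ≤ i) : 2 * r + 2 ≤ i * Bk r := by
  have := bmul_pred (r := r) hi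
  have h : Bk r = 2 * r + 2 := rfl
  omega

theorem ftL_eq : ftL N r k j q = 1 + 8 * R N r * k + 4 * (j - 1) + q := rfl

theorem ftR_eq : ftR N r k j q = 1 + 8 * R N r * k + 4 * R N r + 4 * (R N r - j) + q := rfl

theorem coverU_ftL (hk' : 1 ≤ k') (hi : 1 ≤ i) (hiN : i ≤ N) (hj : 1 ≤ j) (hjR : j ≤ R N r)
    (hq : q < 4) :
    ((KU N K r).a (some (k', i)) ≤ ftL N r k j q ∧ ftL N r k j q < (KU N K r).b (some (k', i))) ↔
      k' = k ∧ 4 * j + q < 4 * (i * Bk r) + 3 := by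
  have hY := arcY_le (r := r) hi hiN
  have hX := arcX_le (r := r) hiN
  have hX' := arcX_pos (r := r) hi
  rw [aU, bU, ftR_eq, ftL_eq, ftL_eq]
  obtain ⟨κ, rfl⟩ := Nat.exists_eq_add_of_le' hk'
  rw [Nat.add_sub_cancel]
  constructor
  · rintro ⟨h1, h2⟩
    have hkk : κ + 1 = k := by
      by_contra hne
      rcases Nat.lt_or_gt_of_ne hne with h | h
      · have := kmul_lt (N := N) (r := r) h; omega
      · have := kmul_le (N := N) (r := r) (Nat.lt_succ_iff.1 h); omega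
    subst hkk
    refine ⟨rfl, by omega⟩
  · rintro ⟨rfl, h⟩
    have := kmul_lt (N := N) (r := r) (Nat.lt_succ_self κ)
    rw [Nat.succ_eq_add_one] at this
    omega

theorem coverU_ftR (hk' : 1 ≤ k') (hi : 1 ≤ i) (hiN : i ≤ N) (hj : 1 ≤ j) (hjR : j ≤ R N r)
    (hq : q < 4) :
    ((KU N K r).a (some (k', i)) ≤ ftR N r k j q ∧ ftR N r k j q < (KU N K r).b (some (k', i))) ↔
      k' = k + 1 ∧ j ≤ (i - 1) * Bk r + r + 1 := by
  have hY := arcY_le (r := r) hi hiN
  have hX := arcX_le (r := r) hiN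
  have hX' := arcX_pos (r := r) hi
  rw [aU, bU, ftR_eq, ftL_eq, ftR_eq]
  obtain ⟨κ, rfl⟩ := Nat.exists_eq_add_of_le' hk'
  rw [Nat.add_sub_cancel]
  constructor
  · rintro ⟨h1, h2⟩
    have hkk : κ = k := by
      by_contra hne
      rcases Nat.lt_or_gt_of_ne hne with h | h
      · have := kmul_le (N := N) (r := r) (Nat.succ_le_of_lt h)
        rw [Nat.succ_eq_add_one] at this; omega
      · have := kmul_lt (N := N) (r := r) h; omega
    subst hkk
    refine ⟨rfl, by omega⟩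
  · rintro ⟨hk, h⟩
    have hk2 : κ = k := by omega
    subst hk2
    have := kmul_lt (N := N) (r := r) (Nat.lt_succ_self κ)
    rw [Nat.succ_eq_add_one] at this
    omega

theorem cover_i (hj : 1 ≤ j) (hjR : j ≤ R N r) (hq : q < 4) :
    4 * j + q < 4 * (i * Bk r) + 3 ↔
      (if (isX r j && q == 3) = true then iL r j + 1 ≤ i else iL r j ≤ i) := by
  obtain ⟨ι, ρ, hι, hιN, hρ, hρ', rfl⟩ := exists_arc hj hjR
  have hX : isX r ((ι - 1) * Bk r + ρ) = decide (ρ = 2 * r + 2) := by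
    unfold isX; rw [rho_arc hρ hρ']
  rw [iL_arc hι hρ hρ', hX]
  have hB : Bk r = 2 * r + 2 := rfl
  have h1 := bmul_pred (r := r) hι
  by_cases hc : ρ = 2 * r + 2 ∧ q = 3
  · rw [if_pos (by simp [hc.1, hc.2])]
    constructor
    · intro h
      by_contra h2
      have := bmul_le (r := r) (show i ≤ ι by omega)
      omega
    · intro h
      have := bmul_lt (r := r) (show ι < i by omega)
      omega
  · rw [if_neg (by simpa using hc)]
    constructor
    · intro h
      by_contra h2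
      have := bmul_le (r := r) (show i ≤ ι - 1 by omega)
      omega
    · intro h
      have := bmul_le (r := r) h
      by_cases h3 : ρ = 2 * r + 2
      · have : q ≠ 3 := fun h => hc ⟨h3, h⟩
        omega
      · omega

theorem cover_iR (hi : 1 ≤ i) (hj : 1 ≤ j) (hjR : j ≤ R N r) :
    j ≤ (i - 1) * Bk r + r + 1 ↔ iR r j ≤ i := by
  obtain ⟨ι, ρ, hι, hιN, hρ, hρ', rfl⟩ := exists_arc hj hjR
  rw [iR_arc hι hρ hρ']
  have hB : Bk r = 2 * r + 2 := rfl
  split_ifs with hc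
  · constructor
    · intro h
      by_contra h2
      have := bmul_lt (r := r) (show i - 1 < ι - 1 by omega)
      omega
    · intro h
      have := bmul_le (r := r) (show ι - 1 ≤ i - 1 by omega)
      omega
  · constructor
    · intro h
      by_contra h2
      have := bmul_le (r := r) (show i - 1 ≤ ι - 1 by omega)
      omega
    · intro h
      have := bmul_lt (r := r) (show ι - 1 < i - 1 by omega)
      omega

/-- nested intervals -/
theorem nestU (hk : 1 ≤ k) (hk' : 1 ≤ k') (hi : 1 ≤ i) (hiN : i ≤ N) (hi' : 1 ≤ i')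
    (hiN' : i' ≤ N) :
    ((KU N K r).a (some (k, i)) ≤ (KU N K r).a (some (k', i')) ∧
      (KU N K r).b (some (k', i')) ≤ (KU N K r).b (some (k, i))) ↔ k = k' ∧ i' ≤ i := by
  have hY := arcY_le (r := r) hi hiN
  have hX := arcX_le (r := r) hiN
  have hX' := arcX_pos (r := r) hi
  have hY' := arcY_le (r := r) hi' hiN'
  have hX1 := arcX_le (r := r) hiN'
  have hX1' := arcX_pos (r := r) hi'
  rw [aU, bU, aU, bU, ftR_eq, ftL_eq, ftR_eq, ftL_eq]
  obtain ⟨κ, rfl⟩ := Nat.exists_eq_add_of_le' hk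
  obtain ⟨κ', rfl⟩ := Nat.exists_eq_add_of_le' hk'
  rw [Nat.add_sub_cancel, Nat.add_sub_cancel]
  constructor
  · rintro ⟨h1, h2⟩
    have hkk : κ = κ' := by
      by_contra hne
      rcases Nat.lt_or_gt_of_ne hne with h | h
      · have := kmul_lt (N := N) (r := r) (show κ + 1 < κ' + 1 by omega); omega
      · have := kmul_lt (N := N) (r := r) h; omega
    subst hkk
    refine ⟨rfl, ?_⟩
    by_contra h3
    have := bmul_lt (r := r) (show i < i' by omega)
    have hB : 0 < Bk r := Bk_pos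
    omega
  · rintro ⟨h, h2⟩
    have h3 : κ = κ' := by omega
    subst h3
    have h4 := bmul_le (r := r) h2
    have h5 := bmul_le (r := r) (show i' - 1 ≤ i - 1 by omega)
    omega

theorem disjU (hk : 1 ≤ k) (hi : 1 ≤ i) (hiN : i ≤ N) (hi' : 1 ≤ i')
    (hiN' : i' ≤ N) (h : k < k') :
    (KU N K r).b (some (k, i)) ≤ (KU N K r).a (some (k', i')) := by
  have hX := arcX_le (r := r) hiN
  have hX' := arcX_pos (r := r) hi
  rw [aU, bU, ftR_eq, ftL_eq]
  have := kmul_le (N := N) (r := r) (show k ≤ k' - 1 by omega)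
  omega

theorem aU_pos : 1 ≤ (KU N K r).a (some (k, i)) := ftR_pos

theorem bU_lt (hkK : k ≤ K) (hi : 1 ≤ i) (hiN : i ≤ N) :
    (KU N K r).b (some (k, i)) < F N K r := by
  rw [bU]
  exact ftL_lt hkK (by have := arcX_pos (r := r) hi; omega) (arcX_le hiN) (by omega)

theorem ancU_some : (KU N K r).Anc (some (k, i)) (some (k', i')) ↔
    ((1 ≤ k ∧ k ≤ K) ∧ 1 ≤ i ∧ i ≤ N) ∧ 1 ≤ i' ∧ k = k' ∧ i' < i := by
  unfold Skel.Anc
  rw [memU, memU]
  constructor
  · rintro ⟨h1, h2, h3, h4⟩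
    have h5 := (nestU h1.1.1 h2.1.1 h1.2.1 h1.2.2 h2.2.1 h2.2.2).1 h4
    refine ⟨h1, h2.2.1, h5.1, lt_of_le_of_ne h5.2 ?_⟩
    rintro rfl
    exact h3 (by rw [h5.1])
  · rintro ⟨h1, h2, rfl, h3⟩
    refine ⟨h1, ⟨h1.1, h2, by omega⟩, ?_, (nestU h1.1.1 h1.1.1 h1.2.1 h1.2.2 h2 (by omega)).2
      ⟨rfl, h3.le⟩⟩
    intro h
    simp only [Option.some.injEq, Prod.mk.injEq] at h
    omega

theorem ancU_none : (KU N K r).Anc none (some (k, i)) ↔ (1 ≤ k ∧ k ≤ K) ∧ 1 ≤ i ∧ i ≤ N := by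
  unfold Skel.Anc
  rw [memU]
  constructor
  · rintro ⟨-, h, -⟩; exact h
  · intro h
    exact ⟨none_memU, h, by simp, Nat.zero_le _, (bU_lt h.1.2 h.2.1 h.2.2).le⟩

theorem not_ancU_none {P : Option (ℕ × ℕ)} : ¬ (KU N K r).Anc P none := by
  rintro ⟨-, -, h1, h2, -⟩
  rcases P with _ | ⟨k, i⟩
  · exact h1 rfl
  · have := aU_pos (N := N) (K := K) (r := r) (k := k) (i := i)
    rw [aU_none] at h2
    omega

/-- the owner of a left foot, in terms of the bound `i₀` -/
theorem own_memU_aux {g i₀ k₀ : ℕ} (hk₀ : 1 ≤ k₀ ∧ k₀ ≤ K) (hi₀ : 1 ≤ i₀) (hg : g < F N K r)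
    (hc : ∀ k' i, (1 ≤ k' ∧ k' ≤ K) → 1 ≤ i → i ≤ N →
      (((KU N K r).a (some (k', i)) ≤ g ∧ g < (KU N K r).b (some (k', i))) ↔ k' = k₀ ∧ i₀ ≤ i)) :
    let o : Option (ℕ × ℕ) := if i₀ ≤ N then some (k₀, i₀) else none
    o ∈ (KU N K r).nodes ∧ (KU N K r).a o ≤ g ∧ g < (KU N K r).b o ∧
      ∀ P ∈ (KU N K r).nodes, (KU N K r).a P ≤ g → g < (KU N K r).b P →
        P = o ∨ (KU N K r).Anc P o := by
  intro o
  by_cases h : i₀ ≤ N
  · have ho : o = some (k₀, i₀) := if_pos h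
    rw [ho]
    have h1 := (hc k₀ i₀ hk₀ hi₀ h).2 ⟨rfl, le_rfl⟩
    refine ⟨memU.2 ⟨hk₀, hi₀, h⟩, h1.1, h1.2, ?_⟩
    intro P hP h2 h3
    rcases P with _ | ⟨k', i'⟩
    · exact Or.inr (ancU_none.2 ⟨hk₀, hi₀, h⟩)
    · have hP' := memU.1 hP
      have h4 := (hc k' i' hP'.1 hP'.2.1 hP'.2.2).1 ⟨h2, h3⟩
      rcases Nat.eq_or_lt_of_le h4.2 with h5 | h5
      · left; rw [h4.1, h5]
      · right; exact ancU_some.2 ⟨hP', hi₀, h4.1, h5⟩
  · have ho : o = none := if_neg h
    rw [ho]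
    refine ⟨none_memU, Nat.zero_le _, hg, ?_⟩
    intro P hP h2 h3
    rcases P with _ | ⟨k', i'⟩
    · exact Or.inl rfl
    · have hP' := memU.1 hP
      have h4 := (hc k' i' hP'.1 hP'.2.1 hP'.2.2).1 ⟨h2, h3⟩
      omega

theorem own_memU {g : ℕ} (hg : g < F N K r) :
    (KU N K r).own g ∈ (KU N K r).nodes ∧ (KU N K r).a ((KU N K r).own g) ≤ g ∧
      g < (KU N K r).b ((KU N K r).own g) ∧
      ∀ P ∈ (KU N K r).nodes, (KU N K r).a P ≤ g → g < (KU N K r).b P →
        P = (KU N K r).own g ∨ (KU N K r).Anc P ((KU N K r).own g) := by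
  have hnone : ∀ (_ : ∀ P ∈ (KU N K r).nodes, P ≠ none → (KU N K r).a P ≤ g →
      g < (KU N K r).b P → False) (_ : (KU N K r).own g = none),
      (KU N K r).own g ∈ (KU N K r).nodes ∧ (KU N K r).a ((KU N K r).own g) ≤ g ∧
      g < (KU N K r).b ((KU N K r).own g) ∧
      ∀ P ∈ (KU N K r).nodes, (KU N K r).a P ≤ g → g < (KU N K r).b P →
        P = (KU N K r).own g ∨ (KU N K r).Anc P ((KU N K r).own g) := by
    intro h1 h2
    rw [h2]
    refine ⟨none_memU, Nat.zero_le _, hg, fun P hP h3 h4 => ?_⟩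
    by_cases h5 : P = none
    · exact Or.inl h5
    · exact (h1 P hP h5 h3 h4).elim
  rcases Nat.eq_zero_or_pos g with rfl | hg1
  · refine hnone ?_ ownU_zero
    intro P hP h1 h2 h3
    rcases P with _ | ⟨k', i'⟩
    · exact h1 rfl
    · have := aU_pos (N := N) (K := K) (r := r) (k := k') (i := i')
      omega
  obtain ⟨k, j, q, hk, hj, hjR, hq, rfl | rfl⟩ := exists_rep hg1 hg
  · rw [ownU_ftL hk hj hjR hq]
    rcases Nat.eq_zero_or_pos k with rfl | hk1
    · rw [if_pos rfl]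
      have h := hnone ?_ (by rw [ownU_ftL hk hj hjR hq, if_pos rfl])
      · rw [ownU_ftL hk hj hjR hq, if_pos rfl] at h
        exact h
      · intro P hP h1 h2 h3
        rcases P with _ | ⟨k', i'⟩
        · exact h1 rfl
        · have hP' := memU.1 hP
          have := (coverU_ftL hP'.1.1 hP'.2.1 hP'.2.2 hj hjR hq).1 ⟨h2, h3⟩
          omega
    · rw [if_neg (by omega)]
      by_cases hc : (isX r j && q == 3) = true
      · rw [if_pos hc]
        have h := own_memU_aux (N := N) (K := K) (r := r) (g := ftL N r k j q) (i₀ := iL r j + 1)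
          (k₀ := k) ⟨hk1, hk⟩ (by omega) hg ?_
        · exact h
        · intro k' i hk' hi hiN
          rw [coverU_ftL hk'.1 hi hiN hj hjR hq, cover_i (N := N) hj hjR hq, if_pos hc]
      · rw [if_neg hc]
        have h := own_memU_aux (N := N) (K := K) (r := r) (g := ftL N r k j q) (i₀ := iL r j)
          (k₀ := k) ⟨hk1, hk⟩ iL_pos hg ?_
        · rw [if_pos (iL_le hj hjR)] at h
          exact h
        · intro k' i hk' hi hiN
          rw [coverU_ftL hk'.1 hi hiN hj hjR hq, cover_i (N := N) hj hjR hq, if_neg hc]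
  · rw [ownU_ftR hk hj hjR hq]
    by_cases hkK : k = K
    · subst hkK
      rw [if_pos rfl]
      have h := hnone ?_ (by rw [ownU_ftR hk hj hjR hq, if_pos rfl])
      · rw [ownU_ftR hk hj hjR hq, if_pos rfl] at h
        exact h
      · intro P hP h1 h2 h3
        rcases P with _ | ⟨k', i'⟩
        · exact h1 rfl
        · have hP' := memU.1 hP
          have := (coverU_ftR hP'.1.1 hP'.2.1 hP'.2.2 hj hjR hq).1 ⟨h2, h3⟩
          omega
    · rw [if_neg hkK]
      have h := own_memU_aux (N := N) (K := K) (r := r) (g := ftR N r k j q) (i₀ := iR r j)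
        (k₀ := k + 1) ⟨by omega, by omega⟩ iR_pos hg ?_
      · exact h
      · intro k' i hk' hi hiN
        rw [coverU_ftR hk'.1 hi hiN hj hjR hq, cover_iR (N := N) hi hj hjR]

end Inst

end Pool.Agent.TRI
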