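import Pool.Agent.TRI.E1_CombU

/-!
Area E1: the combinatorial axioms of the upper skeleton, end.
-/

namespace Pool.Agent.TRI

namespace Inst

open Finset

variable {N K r k k' j j' q q' f i i' ρ : ℕ}

theorem three_le_F (hN : 1 ≤ N) : 3 ≤ F N K r := by
  have := R_pos (r := r) hN
  rw [F_eq]
  omega

theorem rho_Y : rho r ((i - 1) * Bk r + r + 1) = r + 1 := by
  have := rho_arc (r := r) (i := i) (ρ := r + 1) (by omega) (by unfold Bk; omega)
  rwa [← add_assoc] at this

theorem iL_Y (hi : 1 ≤ i) : iL r ((i - 1) * Bk r + r + 1) = i := by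
  have := iL_arc (r := r) (ρ := r + 1) hi (by omega) (by unfold Bk; omega)
  rwa [← add_assoc] at this

theorem iR_Y (hi : 1 ≤ i) : iR r ((i - 1) * Bk r + r + 1) = i := by
  have := iR_arc (r := r) (ρ := r + 1) hi (by omega) (by unfold Bk; omega)
  rwa [← add_assoc, if_pos (by omega)] at this

theorem rho_Y1 : rho r ((i - 1) * Bk r + r + 1 + 1) = r + 2 := by
  have := rho_arc (r := r) (i := i) (ρ := r + 2) (by omega) (by unfold Bk; omega)
  have h : (i - 1) * Bk r + r + 1 + 1 = (i - 1) * Bk r + (r + 2) := by omega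
  rwa [h]

theorem iR_Y1 (hi : 1 ≤ i) : iR r ((i - 1) * Bk r + r + 1 + 1) = i + 1 := by
  have := iR_arc (r := r) (ρ := r + 2) hi (by omega) (by unfold Bk; omega)
  have h : (i - 1) * Bk r + r + 1 + 1 = (i - 1) * Bk r + (r + 2) := by omega
  rw [h, this, if_neg (by omega)]

theorem rho_X (hi : 1 ≤ i) : rho r (i * Bk r) = 2 * r + 2 := by
  rw [bmul_pred hi, rho_arc Bk_pos le_rfl]
  rfl

theorem iL_X (hi : 1 ≤ i) : iL r (i * Bk r) = i := by
  rw [bmul_pred hi, iL_arc hi Bk_pos le_rfl]

theorem notSpin_Y : ¬ isSpin N K r k ((i - 1) * Bk r + r + 1) = true := by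
  rw [isSpin_iff, rho_Y]
  omega

theorem notSpin_X (hi : 1 ≤ i) : ¬ isSpin N K r k (i * Bk r) = true := by
  rw [isSpin_iff, rho_X hi]
  omega

theorem ends_U (hk : 1 ≤ k ∧ k ≤ K) (hi : 1 ≤ i) (hiN : i ≤ N) :
    0 < (KU N K r).a (some (k, i)) ∧ (KU N K r).a (some (k, i)) + 2 ≤ (KU N K r).b (some (k, i)) ∧
      (KU N K r).b (some (k, i)) < F N K r ∧
      (KU N K r).own ((KU N K r).a (some (k, i))) = some (k, i) ∧
      (KU N K r).a (some (k, i)) ∉ win N K r ∧
      (KU N K r).own ((KU N K r).b (some (k, i)) - 1) = some (k, i) ∧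
      (KU N K r).b (some (k, i)) - 1 ∉ win N K r := by
  have hY := arcY_le (r := r) hi hiN
  have hX := arcX_le (r := r) hiN
  have hX' := arcX_pos (r := r) hi
  have hb1 : ftL N r k (i * Bk r) 3 - 1 = ftL N r k (i * Bk r) 2 := by unfold ftL; omega
  refine ⟨aU_pos, ?_, bU_lt hk.2 hi hiN, ?_, ?_, ?_, ?_⟩
  · rw [aU, bU, ftR_eq, ftL_eq]
    have := kmul_lt (N := N) (r := r) (show k - 1 < k by omega)
    omega
  · rw [aU, ownU_ftR (by omega) (by omega) (by omega) (by omega), if_neg (by omega), iR_Y hi,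
      if_pos hiN, Nat.sub_add_cancel hk.1]
  · rw [aU, ftR_mem_win (by omega) (by omega) (by omega)]
    exact fun h => notSpin_Y h.1
  · rw [bU, hb1, ownU_ftL (by omega) (by omega) hX (by omega), if_neg (by omega), iL_X hi]
    simp
  · rw [bU, hb1, ftL_mem_win (by omega) hX (by omega)]
    exact fun h => notSpin_X hi h.1

theorem outer_U (hk : 1 ≤ k ∧ k ≤ K) (hi : 1 ≤ i) (hiN : i ≤ N) :
    (KU N K r).own ((KU N K r).a (some (k, i)) - 1) = (KU N K r).par (some (k, i)) ∧
      (KU N K r).a (some (k, i)) - 1 ∉ win N K r ∧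
      (KU N K r).own ((KU N K r).b (some (k, i))) = (KU N K r).par (some (k, i)) ∧
      (KU N K r).b (some (k, i)) ∉ win N K r := by
  have hY := arcY_le (r := r) hi hiN
  have hX := arcX_le (r := r) hiN
  have hX' := arcX_pos (r := r) hi
  have ha1 : ftR N r (k - 1) ((i - 1) * Bk r + r + 1) 0 - 1 =
      ftR N r (k - 1) ((i - 1) * Bk r + r + 1 + 1) 3 := by
    unfold ftR
    omega
  have hpar : (KU N K r).par (some (k, i)) = if i < N then some (k, i + 1) else none := rfl
  rw [aU, bU, ha1, hpar]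
  refine ⟨?_, ?_, ?_, ?_⟩
  · rw [ownU_ftR (by omega) (by omega) (by omega) (by omega), if_neg (by omega), iR_Y1 hi,
      Nat.sub_add_cancel hk.1]
    rfl
  · rw [ftR_mem_win (by omega) (by omega) (by omega)]
    omega
  · have hXb : isX r (i * Bk r) = true := isX_iff.2 (rho_X hi)
    rw [ownU_ftL (by omega) (by omega) hX (by omega), if_neg (by omega), iL_X hi, hXb]
    simp
  · rw [ftL_mem_win (by omega) hX (by omega)]
    omega

theorem rho_succ (h : rho r j ≤ 2 * r + 1) (hj : 1 ≤ j) : rho r (j + 1) = rho r j + 1 ∧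
    iL r (j + 1) = iL r j := by
  have hB : Bk r = 2 * r + 2 := rfl
  have hd := Nat.div_add_mod (j - 1) (Bk r)
  have hm := Nat.mod_lt (j - 1) (Bk_pos (r := r))
  unfold rho at *
  unfold iL
  generalize (j - 1) / Bk r = m at *
  generalize (j - 1) % Bk r = p at *
  have e : j + 1 - 1 = (p + 1) + Bk r * m := by omega
  rw [e, Nat.add_mul_mod_self_left, Nat.add_mul_div_left _ _ Bk_pos,
    Nat.div_eq_of_lt (by omega), Nat.mod_eq_of_lt (by omega)]
  omega

theorem isSpin_lt_R (hN : 1 ≤ N) (hjR : j ≤ R N r) (h : isSpin N K r k j = true) :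
    j + 1 ≤ R N r := by
  rcases Nat.eq_or_lt_of_le hjR with h1 | h1
  · exfalso
    have h2 : rho r j = 2 * r + 2 := by rw [h1]; exact rho_X hN
    rw [isSpin_iff, h2] at h
    omega
  · exact h1

theorem ex_spin_win {w : ℕ} (hw : w ∈ win N K r) : ex N K r w = 0 ∧ ex N K r (w + 1) = 0 := by
  obtain ⟨k, j, hj, hjR, hs, h⟩ := mem_win.1 hw
  have hs' := isSpin_iff.1 hs
  have hX : isX r j = false := by
    rw [← Bool.not_eq_true, isX_iff]
    omega
  have hY : isY r j = false := by
    rw [← Bool.not_eq_true, isY_iff]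
    omega
  rcases h with rfl | rfl
  · rw [ftL_succ (by omega), ex_ftL (by omega) hj hjR (by omega),
      ex_ftL (by omega) hj hjR (by omega), hX]
    simp
  · rw [ftR_succ, ex_ftR (by omega) hj hjR (by omega), ex_ftR (by omega) hj hjR (by omega), hY]
    simp

theorem wins_U (hN : 1 ≤ N) {w : ℕ} (hw : w ∈ win N K r) :
    (KU N K r).own w ≠ (KU N K r).rt ∧ (KU N K r).own (w - 1) = (KU N K r).own w ∧
      (KU N K r).own (w + 1) = (KU N K r).own w ∧ w - 1 ∉ win N K r ∧ w + 1 ∉ win N K r ∧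
      (KU N K r).a ((KU N K r).own w) + 2 ≤ w ∧ w + 3 ≤ (KU N K r).b ((KU N K r).own w) ∧
      ex N K r w = ex N K r (w + 1) := by
  have hex := ex_spin_win hw
  obtain ⟨k, j, hk, hkK, hj, hjR, hs, hR, h⟩ := win_cases hw
  have hs' := isSpin_iff.1 hs
  have hjR1 := isSpin_lt_R hN hjR hs
  have hX : isX r j = false := by
    rw [← Bool.not_eq_true, isX_iff]
    omega
  have hrt : (KU N K r).rt = none := rfl
  have hiLb := iL_le hj hjR
  have hiLp := iL_pos (r := r) (j := j)
  rcases h with ⟨rfl, ho, -⟩ | ⟨rfl, ho, -⟩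
  · have e1 : ftL N r k j 2 - 1 = ftL N r k j 1 := by unfold ftL; omega
    have hcov := (coverU_ftL (K := K) (i := iL r j) (k' := k) (k := k) hk hiLp hiLb hj hjR
      (show 2 < 4 by omega)).2 ⟨rfl, by
        rw [cover_i (N := N) hj hjR (by omega)]; simp⟩
    have hcov3 := (coverU_ftL (K := K) (i := iL r j) (k' := k) (k := k) hk hiLp hiLb
      (show 1 ≤ j + 1 by omega) hjR1 (show 1 < 4 by omega)).2 ⟨rfl, by
        rw [cover_i (N := N) (by omega) hjR1 (by omega)]
        simp [(rho_succ (r := r) (j := j) (by omega) hj).2]⟩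
    rw [ho, hrt, e1, ftL_succ (by omega)]
    refine ⟨by simp, ?_, ?_, ?_, ?_, ?_, ?_, ?_⟩
    · rw [ownU_ftL (by omega) hj hjR (by omega), if_neg (by omega)]; simp
    · rw [ownU_ftL (by omega) hj hjR (by omega), if_neg (by omega), hX]; simp
    · rw [ftL_mem_win hj hjR (by omega)]; omega
    · rw [ftL_mem_win hj hjR (by omega)]; omega
    · rw [aU, ftR_eq, ftL_eq]
      have := kmul_lt (N := N) (r := r) (show k - 1 < k by omega)
      have := arcY_le (r := r) hiLp hiLb
      omega
    · have h1 := hcov3.2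
      rw [ftL_eq] at h1 ⊢
      omega
    · have := ftL_succ (N := N) (r := r) (k := k) (j := j) (q := 2) (by omega)
      rw [← this]; omega
  · have e1 : ftR N r k j 0 - 1 = ftR N r k (j + 1) 3 := by unfold ftR; omega
    have hrs := rho_succ (r := r) (j := j) (by omega) hj
    have hiR1 : iR r (j + 1) = iR r j := by
      unfold iR
      rw [hrs.1, hrs.2]
      rcases hs'.2 with h | h
      · rw [if_pos (by omega), if_pos (by omega)]
      · rw [if_neg (by omega), if_neg (by omega)]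
    have hcov := (coverU_ftR (K := K) (i := iR r j) (k' := k + 1) (k := k) (by omega) iR_pos hR
      (show 1 ≤ j + 1 by omega) hjR1 (show 3 < 4 by omega)).2 ⟨rfl, by
        rw [cover_iR (N := N) iR_pos (by omega) hjR1, hiR1]⟩
    rw [ho, hrt, e1, ftR_succ]
    refine ⟨by simp, ?_, ?_, ?_, ?_, ?_, ?_, ?_⟩
    · rw [ownU_ftR (by omega) (by omega) hjR1 (by omega), if_neg (by omega), hiR1, if_pos hR]
    · rw [ownU_ftR (by omega) hj hjR (by omega), if_neg (by omega), if_pos hR]
    · rw [ftR_mem_win (by omega) hjR1 (by omega)]; omega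
    · rw [ftR_mem_win hj hjR (by omega)]; omega
    · have hne : (KU N K r).a (some (k + 1, iR r j)) ≤ ftR N r k (j + 1) 3 := hcov.1
      have hne2 : (KU N K r).a (some (k + 1, iR r j)) ≤ ftR N r k (j + 1) 0 := by
        have h2 := (coverU_ftR (K := K) (i := iR r j) (k' := k + 1) (k := k) (by omega) iR_pos hR
          (show 1 ≤ j + 1 by omega) hjR1 (show 0 < 4 by omega)).2 ⟨rfl, by
            rw [cover_iR (N := N) iR_pos (by omega) hjR1, hiR1]⟩
        exact h2.1
      refine le_trans (Nat.add_le_add_right hne2 2) ?_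
      rw [ftR_eq, ftR_eq]
      omega
    · rw [bU, ftL_eq, ftR_eq]
      have := kmul_lt (N := N) (r := r) (show k < k + 1 by omega)
      have := arcX_pos (r := r) (i := iR r j) iR_pos
      omega
    · have := ftR_succ (N := N) (r := r) (k := k) (j := j) (q := 0)
      rw [← this]; omega

theorem ex_eq_two (h1 : 1 ≤ f) (h2 : f < F N K r) (h : 2 ≤ ex N K r f) :
    (∃ k i, k ≤ K ∧ 1 ≤ i ∧ i ≤ N ∧ f = ftL N r k (i * Bk r) 2) ∨
      (∃ k i, k ≤ K ∧ 1 ≤ i ∧ i ≤ N ∧ f = ftR N r k ((i - 1) * Bk r + r + 1) 1) := by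
  obtain ⟨k, j, q, hk, hj, hjR, hq, rfl | rfl⟩ := exists_rep h1 h2
  · left
    rw [ex_ftL hk hj hjR hq] at h
    obtain ⟨ι, ρ, hι, hιN, hρ, hρ', rfl⟩ := exists_arc hj hjR
    have hB : Bk r = 2 * r + 2 := rfl
    split_ifs at h with h3 h4
    · simp at h
    · rw [Bool.and_eq_true, isX_iff, rho_arc hρ hρ'] at h4
      refine ⟨k, ι, hk, hι, hιN, ?_⟩
      have h5 : q = 2 := by simpa using h4.2
      rw [h5, h4.1, bmul_pred hι, hB]
    · omega
  · right
    rw [ex_ftR hk hj hjR hq] at h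
    obtain ⟨ι, ρ, hι, hιN, hρ, hρ', rfl⟩ := exists_arc hj hjR
    have hB : Bk r = 2 * r + 2 := rfl
    split_ifs at h with h3 h4
    · simp at h
    · rw [Bool.and_eq_true, isY_iff, rho_arc hρ hρ'] at h4
      refine ⟨k, ι, hk, hι, hιN, ?_⟩
      have h5 : q = 1 := by simpa using h4.2
      rw [h5, h4.1, ← add_assoc]
    · omega

theorem ex_aU (hk : 1 ≤ k ∧ k ≤ K) (hi : 1 ≤ i) (hiN : i ≤ N) :
    ex N K r ((KU N K r).a (some (k, i))) = 0 ∧ ex N K r ((KU N K r).a (some (k, i)) + 1) = 2 := by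
  have hY := arcY_le (r := r) hi hiN
  have hYb : isY r ((i - 1) * Bk r + r + 1) = true := isY_iff.2 rho_Y
  have hH : isH r ((i - 1) * Bk r + r + 1) = false := by
    rw [← Bool.not_eq_true, isH_iff, rho_Y]; omega
  have hD : isD r ((i - 1) * Bk r + r + 1) = false := by
    rw [← Bool.not_eq_true, isD_iff, rho_Y]; omega
  rw [aU, ftR_succ, ex_ftR (by omega) (by omega) (by omega) (by omega),
    ex_ftR (by omega) (by omega) (by omega) (by omega), hYb, hH, hD]
  simp

theorem ex_bU (hk : 1 ≤ k ∧ k ≤ K) (hi : 1 ≤ i) (hiN : i ≤ N) :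
    ex N K r ((KU N K r).b (some (k, i))) = 0 ∧ ex N K r ((KU N K r).b (some (k, i)) - 1) = 2 := by
  have hX := arcX_le (r := r) hiN
  have hX' := arcX_pos (r := r) hi
  have hb1 : ftL N r k (i * Bk r) 3 - 1 = ftL N r k (i * Bk r) 2 := by unfold ftL; omega
  have hXb : isX r (i * Bk r) = true := isX_iff.2 (rho_X hi)
  have hH : isH r (i * Bk r) = false := by
    rw [← Bool.not_eq_true, isH_iff, rho_X hi]; omega
  have hD : isD r (i * Bk r) = false := by
    rw [← Bool.not_eq_true, isD_iff, rho_X hi]; omega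
  rw [bU, hb1, ex_ftL (by omega) (by omega) hX (by omega),
    ex_ftL (by omega) (by omega) hX (by omega), hXb, hH, hD]
  simp

theorem spin_U (hk : 1 ≤ k ∧ k ≤ K) (hi : 1 ≤ i) (hiN : i ≤ N) :
    (KU N K r).a (some (k, i)) + 4 ≤ (KU N K r).b (some (k, i)) ∧
      (KU N K r).own ((KU N K r).a (some (k, i)) + 1) = some (k, i) ∧
      (KU N K r).a (some (k, i)) + 1 ∉ win N K r ∧
      (KU N K r).own ((KU N K r).b (some (k, i)) - 2) = some (k, i) ∧
      (KU N K r).b (some (k, i)) - 2 ∉ win N K r ∧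
      ex N K r ((KU N K r).a (some (k, i)) + 1) = ex N K r ((KU N K r).b (some (k, i)) - 1) ∧
      ∀ f, (KU N K r).a (some (k, i)) < f → f ≤ (KU N K r).b (some (k, i)) →
        f ≠ (KU N K r).a (some (k, i)) + 1 → f ≠ (KU N K r).b (some (k, i)) - 1 →
        (∀ Q, (KU N K r).Anc (some (k, i)) Q → ¬ ((KU N K r).a Q < f ∧ f < (KU N K r).b Q)) →
        ex N K r f < ex N K r ((KU N K r).a (some (k, i)) + 1) := by
  have hY := arcY_le (r := r) hi hiN
  have hX := arcX_le (r := r) hiN
  have hX' := arcX_pos (r := r) hi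
  have hb2 : ftL N r k (i * Bk r) 3 - 2 = ftL N r k (i * Bk r) 1 := by unfold ftL; omega
  have hea := ex_aU (N := N) (K := K) (r := r) hk hi hiN
  have heb := ex_bU (N := N) (K := K) (r := r) hk hi hiN
  refine ⟨?_, ?_, ?_, ?_, ?_, ?_, ?_⟩
  · rw [aU, bU, ftR_eq, ftL_eq]
    have := kmul_lt (N := N) (r := r) (show k - 1 < k by omega)
    omega
  · rw [aU, ftR_succ, ownU_ftR (by omega) (by omega) (by omega) (by omega), if_neg (by omega),
      iR_Y hi, if_pos hiN, Nat.sub_add_cancel hk.1]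
  · rw [aU, ftR_succ, ftR_mem_win (by omega) (by omega) (by omega)]
    omega
  · rw [bU, hb2, ownU_ftL (by omega) (by omega) hX (by omega), if_neg (by omega), iL_X hi]
    simp
  · rw [bU, hb2, ftL_mem_win (by omega) hX (by omega)]
    omega
  · rw [hea.2, heb.2]
  · intro f h1 h2 h3 h4 h5
    rw [hea.2]
    by_contra h6
    have hbF := bU_lt (N := N) (K := K) (r := r) hk.2 hi hiN
    rcases ex_eq_two (by omega) (by omega) (not_lt.1 h6) with
      ⟨k', i', hk', hi', hiN', rfl⟩ | ⟨k', i', hk', hi', hiN', rfl⟩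
    · have hX2 := arcX_le (r := r) hiN'
      have hX2' := arcX_pos (r := r) hi'
      have hlt : ftL N r k' (i' * Bk r) 2 < (KU N K r).b (some (k, i)) := by
        refine lt_of_le_of_ne h2 ?_
        intro h7
        rw [h7] at h6
        omega
      have hc := (coverU_ftL hk.1 hi hiN (by omega) hX2 (by omega)).1 ⟨h1.le, hlt⟩
      obtain ⟨rfl, hc⟩ := hc
      have hii : i' ≤ i := by
        by_contra h7
        have := bmul_lt (r := r) (show i < i' by omega)
        have hB : 0 < Bk r := Bk_pos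
        omega
      rcases Nat.eq_or_lt_of_le hii with rfl | h7
      · apply h4
        rw [bU]; unfold ftL; omega
      · apply h5 (some (k, i')) (ancU_some.2 ⟨⟨hk, hi, hiN⟩, hi', rfl, h7⟩)
        have hY' := arcY_le (r := r) hi' hiN'
        have := kmul_lt (N := N) (r := r) (show k - 1 < k by omega)
        rw [aU, bU, ftR_eq, ftL_eq, ftL_eq]
        omega
    · have hY2 := arcY_le (r := r) hi' hiN'
      have hlt : ftR N r k' ((i' - 1) * Bk r + r + 1) 1 < (KU N K r).b (some (k, i)) := by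
        refine lt_of_le_of_ne h2 ?_
        intro h7
        rw [h7] at h6
        omega
      have hc := (coverU_ftR hk.1 hi hiN (by omega) (by omega) (by omega)).1 ⟨h1.le, hlt⟩
      obtain ⟨rfl, hc⟩ := hc
      have hii : i' ≤ i := by
        by_contra h7
        have := bmul_lt (r := r) (show i - 1 < i' - 1 by omega)
        have hB : 0 < Bk r := Bk_pos
        omega
      rcases Nat.eq_or_lt_of_le hii with rfl | h7
      · apply h3
        rw [aU, Nat.add_sub_cancel]; unfold ftR; omega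
      · apply h5 (some (k' + 1, i')) (ancU_some.2 ⟨⟨hk, hi, hiN⟩, hi', rfl, h7⟩)
        have hX2 := arcX_pos (r := r) hi'
        have := kmul_lt (N := N) (r := r) (show k' < k' + 1 by omega)
        rw [aU, bU, ftR_eq, ftL_eq, ftR_eq, Nat.add_sub_cancel]
        omega

theorem combU (hN : 1 ≤ N) (_hK : 2 ≤ K) (_hr : 1 ≤ r) :
    (KU N K r).Comb (F N K r) (win N K r) (ex N K r) where
  three := three_le_F hN
  win_lt := fun w hw => win_lt hw
  rt_mem := none_memU
  a_rt := rfl
  b_rt := rfl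
  s_rt := rfl
  par_anc := by
    intro Q hQ hQr
    rcases Q with _ | ⟨k, i⟩
    · exact (hQr rfl).elim
    have hQ' := memU.1 hQ
    have hpar : (KU N K r).par (some (k, i)) = if i < N then some (k, i + 1) else none := rfl
    rw [hpar]
    by_cases h : i < N
    · rw [if_pos h]
      refine ⟨ancU_some.2 ⟨⟨hQ'.1, by omega, by omega⟩, hQ'.2.1, rfl, by omega⟩, ?_⟩
      intro P hP
      rcases P with _ | ⟨k', i'⟩
      · right
        exact ancU_none.2 ⟨hQ'.1, by omega, by omega⟩
      · have hP' := ancU_some.1 hP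
        rcases Nat.eq_or_lt_of_le (Nat.succ_le_of_lt hP'.2.2.2) with h1 | h1
        · left
          rw [hP'.2.2.1, ← h1]
        · right
          exact ancU_some.2 ⟨hP'.1, by omega, hP'.2.2.1, h1⟩
    · rw [if_neg h]
      refine ⟨ancU_none.2 hQ', ?_⟩
      intro P hP
      rcases P with _ | ⟨k', i'⟩
      · exact Or.inl rfl
      · have hP' := ancU_some.1 hP
        omega
  tree := by
    intro P hP Q hQ hPQ
    rcases P with _ | ⟨k, i⟩
    · rcases Q with _ | ⟨k', i'⟩
      · exact (hPQ rfl).elim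
      · exact Or.inl (ancU_none.2 (memU.1 hQ))
    · rcases Q with _ | ⟨k', i'⟩
      · exact Or.inr (Or.inl (ancU_none.2 (memU.1 hP)))
      · have hP' := memU.1 hP
        have hQ' := memU.1 hQ
        rcases Nat.lt_trichotomy k k' with h | h | h
        · exact Or.inr (Or.inr (Or.inl (disjU hP'.1.1 hP'.2.1 hP'.2.2 hQ'.2.1 hQ'.2.2 h)))
        · subst h
          rcases Nat.lt_trichotomy i i' with h | h | h
          · exact Or.inr (Or.inl (ancU_some.2 ⟨hQ', hP'.2.1, rfl, h⟩))
          · exact (hPQ (by rw [h])).elim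
          · exact Or.inl (ancU_some.2 ⟨hP', hQ'.2.1, rfl, h⟩)
        · exact Or.inr (Or.inr (Or.inr (disjU hQ'.1.1 hQ'.2.1 hQ'.2.2 hP'.2.1 hP'.2.2 h)))
  dep_lt := by
    intro P Q h
    rcases P with _ | ⟨k, i⟩
    · rcases Q with _ | ⟨k', i'⟩
      · exact (not_ancU_none h).elim
      · have hQ' := ancU_none.1 h
        change 0 < N + 1 - i'
        omega
    · rcases Q with _ | ⟨k', i'⟩
      · exact (not_ancU_none h).elim
      · have h' := ancU_some.1 h
        change N + 1 - i < N + 1 - i'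
        omega
  own_mem := fun g hg => own_memU hg
  ends := by
    intro P hP hPr
    rcases P with _ | ⟨k, i⟩
    · exact (hPr rfl).elim
    · have hP' := memU.1 hP
      exact ends_U hP'.1 hP'.2.1 hP'.2.2
  outer := by
    intro P hP hPr
    rcases P with _ | ⟨k, i⟩
    · exact (hPr rfl).elim
    · have hP' := memU.1 hP
      exact outer_U hP'.1 hP'.2.1 hP'.2.2
  wins := fun w hw => wins_U hN hw
  spin := by
    intro P hP hs
    rcases P with _ | ⟨k, i⟩
    · have : (KU N K r).s none = 0 := rfl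
      omega
    · have hP' := memU.1 hP
      exact spin_U hP'.1 hP'.2.1 hP'.2.2

end Inst

end Pool.Agent.TRI
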