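import Pool.Agent.TRI.E1_ProdWin
import Pool.Agent.TRI.E1_CardArcs

/-!
Area E1: the sum over the states of the lower side.
-/

namespace Pool.Agent.TRI

namespace Inst

open Finset

variable {N K r : ℕ}

/-- sums over states as products over the nodes -/
theorem sum_pi_ext {ν : Type} [DecidableEq ν] (S : Finset ν) (t : ν → Finset ℕ)
    (A : ν → ℕ → ℚ) :
    ∑ j ∈ S.pi t, ∏ P ∈ S, A P (Skel.ext j P) = ∏ P ∈ S, ∑ m ∈ t P, A P m := by
  rw [prod_sum]
  refine sum_congr rfl fun p _ => ?_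
  rw [← prod_attach]
  refine prod_congr rfl fun P _ => ?_
  unfold Skel.ext
  rw [dif_pos P.2]

theorem iR_le_of_arcs {j : ℕ} (hj : j ∈ arcs N r) : iR r j ≤ N := by
  unfold arcs at hj
  rw [mem_filter, mem_Icc, Bool.or_eq_true, Bool.and_eq_true, decide_eq_true_iff, isH_iff,
    isD_iff] at hj
  have h1 := iL_le hj.1.1 hj.1.2
  unfold iR
  split_ifs with h <;> omega

theorem lower_arc (a b : Bool) :
    ∑ m ∈ range 2, Skel.wt 1 m * ((7 + if decide (a ≠ decide (m = 1)) then 0 else 1 : ℚ) *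
      (7 + if decide (b ≠ decide (m = 1)) then 0 else 1 : ℚ)) =
      (1 / 12) * (112 + if a = b then 1 else 0) := by
  rw [sum_range_succ, sum_range_one]
  cases a <;> cases b <;> norm_num [Skel.wt, Nat.factorial]

theorem nodesL_prod (f : Option (ℕ × ℕ) → ℚ) :
    ∏ P ∈ (KL N K r).nodes, f P =
      f none * ∏ p ∈ (range (K + 1)) ×ˢ (Icc 1 (R N r)), f (some p) := by
  have h : (KL N K r).nodes =
      insert none (((range (K + 1)) ×ˢ (Icc 1 (R N r))).image some) := rfl
  rw [h, prod_insert (by simp), prod_image (fun a _ b _ hab => Option.some_injective _ hab)]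

theorem spin_prod (f : ℕ → ℕ → ℚ) :
    ∏ p ∈ (range (K + 1)) ×ˢ (Icc 1 (R N r)), (if isSpin N K r p.1 p.2 = true then f p.1 p.2 else 1) =
      ∏ k ∈ Icc 1 (K - 1), ∏ j ∈ arcs N r, f k j := by
  rw [← prod_filter]
  have h : ((range (K + 1)) ×ˢ (Icc 1 (R N r))).filter
      (fun p : ℕ × ℕ => isSpin N K r p.1 p.2 = true) = (Icc 1 (K - 1)) ×ˢ (arcs N r) := by
    ext ⟨k, j⟩
    rw [mem_filter, mem_product, mem_product]
    simp only [mem_range, mem_Icc]
    constructor
    · rintro ⟨⟨h1, h2, h3⟩, h4⟩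
      have := (isSpin_iff_arcs h2 h3).1 h4
      rwa [mem_Icc] at this
    · rintro ⟨⟨h1, h2⟩, h3⟩
      have hj := mem_Icc.1 (mem_filter.1 h3).1
      exact ⟨⟨by omega, hj.1, hj.2⟩, (isSpin_iff_arcs hj.1 hj.2).2 ⟨mem_Icc.2 ⟨h1, h2⟩, h3⟩⟩
  rw [h, prod_product]

/-- [E1_Lower] the sum over the states of the lower side, for a fixed state `c` of the upper
side. -/
theorem lower_sum (hN : 1 ≤ N) (hK : 2 ≤ K) (hr : 1 ≤ r) (fw : ℕ → ℕ → Bool)
    (c : Option (ℕ × ℕ) → ℕ) :
    ∑ j' ∈ (KL N K r).nodes.pi (fun P => range ((KL N K r).s P + 1)),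
      ((∏ P ∈ (KL N K r).nodes.filter (fun P => 1 ≤ (KL N K r).s P),
        Skel.wt ((KL N K r).s P) (Skel.ext j' P)) *
          ∏ w ∈ win N K r, (7 + if decide (fw w (c ((KU N K r).own w)) ≠
            decide (Skel.ext j' ((KL N K r).own w) = 1)) then 0 else 1 : ℚ)) =
      (1 / 12) ^ nA N K r * ∏ k ∈ Icc 1 (K - 1), ∏ j ∈ arcs N r,
        (112 + if fw (ftL N r k j 2) (c (some (k, iL r j))) =
            fw (ftR N r k j 0) (c (some (k + 1, iR r j))) then 1 else 0 : ℚ) := by
  set B : ℕ → ℕ → ℕ → ℚ := fun k j m => Skel.wt 1 m *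
    ((7 + if decide (fw (ftL N r k j 2) (c (some (k, iL r j))) ≠ decide (m = 1)) then 0 else 1 : ℚ) *
      (7 + if decide (fw (ftR N r k j 0) (c (some (k + 1, iR r j))) ≠ decide (m = 1)) then 0
        else 1 : ℚ)) with hB
  set A : Option (ℕ × ℕ) → ℕ → ℚ := fun P m => P.elim 1 fun p =>
    if isSpin N K r p.1 p.2 = true then B p.1 p.2 m else 1 with hA
  have key : ∀ φ : Option (ℕ × ℕ) → ℕ,
      ((∏ P ∈ (KL N K r).nodes.filter (fun P => 1 ≤ (KL N K r).s P),
        Skel.wt ((KL N K r).s P) (φ P)) *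
          ∏ w ∈ win N K r, (7 + if decide (fw w (c ((KU N K r).own w)) ≠
            decide (φ ((KL N K r).own w) = 1)) then 0 else 1 : ℚ)) =
        ∏ P ∈ (KL N K r).nodes, A P (φ P) := by
    intro φ
    have h1 : ∏ P ∈ (KL N K r).nodes.filter (fun P => 1 ≤ (KL N K r).s P),
        Skel.wt ((KL N K r).s P) (φ P) =
          ∏ k ∈ Icc 1 (K - 1), ∏ j ∈ arcs N r, Skel.wt 1 (φ (some (k, j))) := by
      rw [prod_filter, nodesL_prod]
      have h0 : (KL N K r).s none = 0 := rfl
      rw [h0, if_neg (by norm_num), one_mul,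
        ← spin_prod (fun k j => Skel.wt 1 (φ (some (k, j))))]
      refine prod_congr rfl fun p _ => ?_
      have h2 : (KL N K r).s (some p) = if isSpin N K r p.1 p.2 then 1 else 0 := rfl
      rw [h2]
      by_cases h : isSpin N K r p.1 p.2 = true
      · rw [if_pos h, if_pos le_rfl, if_pos h]
      · rw [if_neg h, if_neg (by norm_num), if_neg h]
    have h3 : ∏ P ∈ (KL N K r).nodes, A P (φ P) =
        ∏ k ∈ Icc 1 (K - 1), ∏ j ∈ arcs N r, B k j (φ (some (k, j))) := by
      rw [nodesL_prod]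
      have h0 : A none (φ none) = 1 := rfl
      rw [h0, one_mul, ← spin_prod (fun k j => B k j (φ (some (k, j))))]
      rfl
    rw [h1, h3, prod_win, ← prod_mul_distrib]
    refine prod_congr rfl fun k hk => ?_
    rw [← prod_mul_distrib]
    refine prod_congr rfl fun j hj => ?_
    have hj' := mem_Icc.1 (mem_filter.1 hj).1
    rw [mem_Icc] at hk
    have hiR := iR_le_of_arcs hj
    rw [ownU_ftL (by omega) hj'.1 hj'.2 (by norm_num), ownU_ftR (by omega) hj'.1 hj'.2 (by norm_num),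
      ownL_ftL (by omega) hj'.1 hj'.2 (by norm_num), ownL_ftR (by omega) hj'.1 hj'.2 (by norm_num),
      if_neg (by omega : ¬ k = 0), if_neg (by omega : ¬ k = K), if_pos hiR,
      if_neg (by norm_num : ¬ (0 : ℕ) = 3)]
    simp only [Nat.reduceBEq, Bool.and_false, Bool.false_eq_true, if_false, hB]
  rw [sum_congr rfl fun j' _ => key (Skel.ext j'), sum_pi_ext, nodesL_prod]
  have h0 : ∑ m ∈ range ((KL N K r).s none + 1), A none m = 1 := by
    have h0 : (KL N K r).s none = 0 := rfl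
    rw [h0, zero_add, sum_range_one]
    rfl
  have h4 : ∀ p ∈ (range (K + 1)) ×ˢ (Icc 1 (R N r)),
      ∑ m ∈ range ((KL N K r).s (some p) + 1), A (some p) m =
        if isSpin N K r p.1 p.2 = true then
          (1 / 12 * (112 + if fw (ftL N r p.1 p.2 2) (c (some (p.1, iL r p.2))) =
            fw (ftR N r p.1 p.2 0) (c (some (p.1 + 1, iR r p.2))) then 1 else 0) : ℚ) else 1 := by
    intro p _
    have h2 : (KL N K r).s (some p) = if isSpin N K r p.1 p.2 then 1 else 0 := rfl
    rw [h2]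
    by_cases h : isSpin N K r p.1 p.2 = true
    · rw [if_pos h, if_pos h, ← lower_arc]
      refine sum_congr rfl fun m _ => ?_
      simp only [hA, Option.elim_some, if_pos h, hB]
    · rw [if_neg h, if_neg h, zero_add, sum_range_one]
      simp only [hA, Option.elim_some, if_neg h]
  rw [h0, one_mul, prod_congr rfl h4,
    spin_prod (fun k j => (1 / 12 * (112 + if fw (ftL N r k j 2) (c (some (k, iL r j))) =
            fw (ftR N r k j 0) (c (some (k + 1, iR r j))) then 1 else 0) : ℚ))]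
  simp only [prod_mul_distrib, prod_const, Nat.card_Icc]
  rw [card_arcs hN, ← pow_mul]
  unfold nA
  congr 2

end Inst

end Pool.Agent.TRI
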