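import Pool.Agent.TRI.E1_Idx
import Pool.Agent.TRI.EDefs

namespace Pool.Agent.TRI

namespace Inst

open Finset

/-- [E1_PiRoot] the root has only one state: sums over states of the nodes. -/
theorem pi_root {ι : Type} [DecidableEq ι] (S : Finset ι) (s : Option ι → ℕ)
    (h0 : s none = 0) (Φ : (Option ι → ℕ) → ℚ) :
    ∑ j ∈ (insert none (S.image some)).pi (fun P => range (s P + 1)), Φ (Skel.ext j) =
      ∑ σ ∈ S.pi (fun P => range (s (some P) + 1)), Φ (fun P => P.elim 0 (Skel.ext σ)) := by
  have hmem : ∀ {P : ι}, some P ∈ (insert none (S.image some) : Finset (Option ι)) ↔ P ∈ S := by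
    intro P
    simp
  refine Finset.sum_bij'
    (i := fun j _ => fun P hP => j (some P) (hmem.mpr hP))
    (j := fun σ _ => fun P hP =>
      match P, hP with
      | none, _ => 0
      | some Q, h => σ Q (hmem.mp h)) ?_ ?_ ?_ ?_ ?_
  · intro j hj
    rw [Finset.mem_pi] at hj ⊢
    intro P hP
    exact hj (some P) (hmem.mpr hP)
  · intro σ hσ
    rw [Finset.mem_pi] at hσ ⊢
    intro P hP
    match P, hP with
    | none, _ => simp
    | some Q, h => exact hσ Q (hmem.mp h)
  · intro j hj
    funext P hP
    match P, hP with
    | none, h =>
      rw [Finset.mem_pi] at hj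
      have := hj none h
      rw [h0] at this
      simp only [zero_add, Finset.mem_range] at this
      simp only
      omega
    | some Q, h => rfl
  · intro σ hσ
    rfl
  · intro j hj
    congr 1
    funext P
    match P with
    | none =>
      rw [Finset.mem_pi] at hj
      have := hj none (Finset.mem_insert_self _ _)
      rw [h0] at this
      simp only [zero_add, Finset.mem_range] at this
      simp only [Option.elim, Skel.ext, Finset.mem_insert_self, dif_pos]
      omega
    | some Q =>
      simp only [Option.elim, Skel.ext]
      by_cases h : Q ∈ S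
      · rw [dif_pos (hmem.mpr h), dif_pos h]
      · rw [dif_neg (fun h' => h (hmem.mp h')), dif_neg h]

end Inst

end Pool.Agent.TRI
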