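import Pool.Agent.TRI.E1_Idx
import Pool.Agent.TRI.EDefs

/-!
Area E1: the product over the windows.
-/

namespace Pool.Agent.TRI

namespace Inst

open Finset

variable {N K r : ℕ}

theorem isSpin_iff_arcs {k j : ℕ} (hj : 1 ≤ j) (hjR : j ≤ R N r) :
    isSpin N K r k j = true ↔ k ∈ Icc 1 (K - 1) ∧ j ∈ arcs N r := by
  unfold isSpin arcs
  rw [mem_filter, mem_Icc, mem_Icc]
  constructor
  · intro h
    rw [Bool.and_eq_true, decide_eq_true_iff] at h
    exact ⟨⟨h.1.1, by omega⟩, ⟨hj, hjR⟩, h.2⟩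
  · rintro ⟨⟨h1, h2⟩, h3, h4⟩
    rw [Bool.and_eq_true, decide_eq_true_iff]
    exact ⟨⟨h1, by omega⟩, h4⟩

/-- [E1_ProdWin] the product over the windows -/
theorem prod_win {M : Type} [CommMonoid M] (g : ℕ → M) :
    ∏ w ∈ win N K r, g w = ∏ k ∈ Icc 1 (K - 1), ∏ j ∈ arcs N r,
      (g (ftL N r k j 2) * g (ftR N r k j 0)) := by
  have h1 : ∀ k j : ℕ, g (ftL N r k j 2) * g (ftR N r k j 0) =
      ∏ b : Bool, g (if b = true then ftL N r k j 2 else ftR N r k j 0) := by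
    intro k j
    rw [Fintype.prod_bool]
    simp
  have h2 : ∏ k ∈ Icc 1 (K - 1), ∏ j ∈ arcs N r, (g (ftL N r k j 2) * g (ftR N r k j 0)) =
      ∏ p ∈ ((Icc 1 (K - 1)) ×ˢ (arcs N r)) ×ˢ (univ : Finset Bool),
        g (if p.2 = true then ftL N r p.1.1 p.1.2 2 else ftR N r p.1.1 p.1.2 0) := by
    rw [prod_product, prod_product]
    exact prod_congr rfl fun k _ => prod_congr rfl fun j _ => h1 k j
  rw [h2]
  refine Finset.prod_nbij' (fun w => ((fk N r w, fj N r w), isLeft N r w))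
    (fun p => if p.2 = true then ftL N r p.1.1 p.1.2 2 else ftR N r p.1.1 p.1.2 0) ?_ ?_ ?_ ?_ ?_
  · intro w hw
    obtain ⟨k, j, hj, hjR, hs, rfl | rfl⟩ := mem_win.1 hw
    · rw [mem_product, mem_product]
      simp only [fk_ftL hj hjR (show 2 < 4 by norm_num), fj_ftL hj hjR (show 2 < 4 by norm_num)]
      exact ⟨(isSpin_iff_arcs hj hjR).1 hs, mem_univ _⟩
    · rw [mem_product, mem_product]
      simp only [fk_ftR hj hjR (show 0 < 4 by norm_num), fj_ftR hj hjR (show 0 < 4 by norm_num)]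
      exact ⟨(isSpin_iff_arcs hj hjR).1 hs, mem_univ _⟩
  · rintro ⟨⟨k, j⟩, b⟩ hp
    rw [mem_product, mem_product] at hp
    have hj := (mem_Icc.1 (mem_filter.1 hp.1.2).1)
    have hs : isSpin N K r k j = true := (isSpin_iff_arcs hj.1 hj.2).2 hp.1
    cases b
    · exact mem_win.2 ⟨k, j, hj.1, hj.2, hs, Or.inr rfl⟩
    · exact mem_win.2 ⟨k, j, hj.1, hj.2, hs, Or.inl rfl⟩
  · intro w hw
    obtain ⟨k, j, hj, hjR, hs, rfl | rfl⟩ := mem_win.1 hw
    · simp only [fk_ftL hj hjR (show 2 < 4 by norm_num), fj_ftL hj hjR (show 2 < 4 by norm_num),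
        isLeft_ftL hj hjR (show 2 < 4 by norm_num), if_true]
    · simp only [fk_ftR hj hjR (show 0 < 4 by norm_num), fj_ftR hj hjR (show 0 < 4 by norm_num),
        isLeft_ftR hj hjR (show 0 < 4 by norm_num), Bool.false_eq_true, if_false]
  · rintro ⟨⟨k, j⟩, b⟩ hp
    rw [mem_product, mem_product] at hp
    have hj := (mem_Icc.1 (mem_filter.1 hp.1.2).1)
    cases b
    · simp only [Bool.false_eq_true, if_false, fk_ftR hj.1 hj.2 (show 0 < 4 by norm_num),
        fj_ftR hj.1 hj.2 (show 0 < 4 by norm_num), isLeft_ftR hj.1 hj.2 (show 0 < 4 by norm_num)]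
    · simp only [if_true, fk_ftL hj.1 hj.2 (show 2 < 4 by norm_num),
        fj_ftL hj.1 hj.2 (show 2 < 4 by norm_num), isLeft_ftL hj.1 hj.2 (show 2 < 4 by norm_num)]
  · intro w hw
    obtain ⟨k, j, hj, hjR, hs, rfl | rfl⟩ := mem_win.1 hw
    · simp only [fk_ftL hj hjR (show 2 < 4 by norm_num), fj_ftL hj hjR (show 2 < 4 by norm_num),
        isLeft_ftL hj hjR (show 2 < 4 by norm_num), if_true]
    · simp only [fk_ftR hj hjR (show 0 < 4 by norm_num), fj_ftR hj hjR (show 0 < 4 by norm_num),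
        isLeft_ftR hj hjR (show 0 < 4 by norm_num), Bool.false_eq_true, if_false]

end Inst

end Pool.Agent.TRI
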