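import Pool.Agent.TRI.E1_Idx
import Pool.Agent.TRI.EDefs

namespace Pool.Agent.TRI

namespace Inst

open Finset

variable {N K r : ℕ}

/-- [E1_Sizes] -/
theorem sizes' (hN : 1 ≤ N) (hK : 2 ≤ K) (hr : 1 ≤ r) :
    ∀ f, ∀ t ≤ eI N K r, t ^ ex N K r f * dI N K r ≤ 2 ^ G N K r := by
  intro f t ht
  obtain ⟨y, hy⟩ : ∃ y, y = W K * (N + R N r + 4) := ⟨_, rfl⟩
  have hR : R N r = 2 * (N * (r + 1)) := by
    unfold R Bk; ring
  have hnA : nA N K r ≤ R N r * (K + 12) := by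
    unfold nA
    rw [hR]
    have h1 : (2 * N - 1) * r ≤ 2 * (N * (r + 1)) := by
      calc (2 * N - 1) * r ≤ (2 * N) * (r + 1) := Nat.mul_le_mul (Nat.sub_le _ _) (Nat.le_succ r)
        _ = 2 * (N * (r + 1)) := by ring
    exact Nat.mul_le_mul h1 (by omega)
  have hyv : y = N * (K + 12) + R N r * (K + 12) + 4 * (K + 12) := by
    rw [hy]; unfold W; ring
  have hRK : R N r * (K + 1) ≤ R N r * (K + 12) := Nat.mul_le_mul le_rfl (by omega)
  have hNK : N * K ≤ N * (K + 12) := Nat.mul_le_mul le_rfl (by omega)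
  have he : eI N K r + 1 ≤ 10 * y := by
    have h1 : 16 * N * (1 + r) * (K + 1) = 8 * (R N r * (K + 1)) := by
      rw [hR]; ring
    have h2 : 6 * N * K = 6 * (N * K) := by ring
    unfold eI
    rw [h1, h2]
    omega
  have hd : dI N K r ≤ 38 * y := by
    have h1 : F N K r = 8 * (R N r * (K + 1)) + 1 := by
      unfold F; ring
    have h2 : 5 * N * K = 5 * (N * K) := by ring
    have h3 : 2 * R N r * (K + 1) = 2 * (R N r * (K + 1)) := by ring
    unfold dI
    rw [h1, h2, h3]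
    omega
  have hy1 : 126 ≤ y := by
    have h4 : 4 ≤ R N r := by
      rw [hR]
      have : 1 * 2 ≤ N * (r + 1) := Nat.mul_le_mul hN (by omega)
      omega
    rw [hy]
    unfold W
    calc 126 = 14 * 9 := by norm_num
      _ ≤ (K + 12) * (N + R N r + 4) := Nat.mul_le_mul (by omega) (by omega)
  have hG : G N K r = 8 * y := by
    rw [hy]; rfl
  have h1 : t ^ ex N K r f ≤ (10 * y) ^ 2 := by
    calc t ^ ex N K r f ≤ (10 * y) ^ ex N K r f := Nat.pow_le_pow_left (by omega) _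
      _ ≤ (10 * y) ^ 2 := Nat.pow_le_pow_right (by omega) (ex_le_two f)
  have h2 : y ≤ 2 ^ y := Nat.lt_two_pow_self.le
  have h3 : 3800 ≤ 32 ^ y := by
    calc 3800 ≤ 32 ^ 3 := by norm_num
      _ ≤ 32 ^ y := Nat.pow_le_pow_right (by norm_num) (by omega)
  calc t ^ ex N K r f * dI N K r ≤ (10 * y) ^ 2 * (38 * y) := Nat.mul_le_mul h1 hd
    _ = 3800 * (y * y * y) := by ring
    _ ≤ 32 ^ y * (2 ^ y * 2 ^ y * 2 ^ y) :=
        Nat.mul_le_mul h3 (Nat.mul_le_mul (Nat.mul_le_mul h2 h2) h2)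
    _ = 2 ^ G N K r := by
        rw [hG, show (32 : ℕ) = 2 ^ 5 by norm_num, ← pow_mul, ← pow_add, ← pow_add, ← pow_add]
        congr 1
        omega

end Inst

end Pool.Agent.TRI
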