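import Pool.Agent.TRI.E1_Idx
import Pool.Agent.TRI.EDefs

namespace Pool.Agent.TRI

namespace Inst

open Finset

variable {N K r : ℕ}

theorem sum_arcs {M : Type} [AddCommMonoid M] (h : ℕ → M) :
    ∑ j ∈ Icc 1 (R N r), h j = ∑ i ∈ Icc 1 N, ∑ ρ ∈ Icc 1 (Bk r), h ((i - 1) * Bk r + ρ) := by
  rw [← Finset.sum_product']
  apply Finset.sum_nbij' (fun j => (iL r j, rho r j)) (fun p => (p.1 - 1) * Bk r + p.2)
  · intro j hj
    rw [mem_Icc] at hj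
    rw [mem_product, mem_Icc, mem_Icc]
    exact ⟨⟨iL_pos, iL_le hj.1 hj.2⟩, rho_pos, rho_le⟩
  · rintro ⟨i, ρ⟩ hp
    rw [mem_product, mem_Icc, mem_Icc] at hp
    rw [mem_Icc]
    exact ⟨arc_pos hp.2.1, arc_le hp.1.1 hp.1.2 hp.2.2⟩
  · intro j hj
    rw [mem_Icc] at hj
    obtain ⟨i, ρ, hi, hiN, hρ, hρ', rfl⟩ := exists_arc hj.1 hj.2
    show (iL r ((i - 1) * Bk r + ρ) - 1) * Bk r + rho r ((i - 1) * Bk r + ρ) = _
    rw [iL_arc hi hρ hρ', rho_arc hρ hρ']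
  · rintro ⟨i, ρ⟩ hp
    rw [mem_product, mem_Icc, mem_Icc] at hp
    show (iL r ((i - 1) * Bk r + ρ), rho r ((i - 1) * Bk r + ρ)) = _
    rw [iL_arc hp.1.1 hp.2.1 hp.2.2, rho_arc hp.2.1 hp.2.2]
  · intro j hj
    rw [mem_Icc] at hj
    obtain ⟨i, ρ, hi, hiN, hρ, hρ', rfl⟩ := exists_arc hj.1 hj.2
    show _ = h ((iL r ((i - 1) * Bk r + ρ) - 1) * Bk r + rho r ((i - 1) * Bk r + ρ))
    rw [iL_arc hi hρ hρ', rho_arc hρ hρ']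


end Inst

end Pool.Agent.TRI
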