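import Pool.Agent.TRI.E1_Idx
import Pool.Agent.TRI.EDefs

/-! [E1_SumEx] the sum of the exponents. -/

namespace Pool.Agent.TRI

namespace Inst

open Finset

variable {N K r : ℕ}

private theorem se_left {M : Type} [AddCommMonoid M] (g : ℕ → M) :
    ∑ f ∈ (Ico 1 (F N K r)).filter (fun f => isLeft N r f = true), g f =
      ∑ k ∈ range (K + 1), ∑ j ∈ Icc 1 (R N r), ∑ q ∈ range 4, g (ftL N r k j q) := by
  have hR : ∑ k ∈ range (K + 1), ∑ j ∈ Icc 1 (R N r), ∑ q ∈ range 4, g (ftL N r k j q) =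
      ∑ p ∈ range (K + 1) ×ˢ (Icc 1 (R N r) ×ˢ range 4), g (ftL N r p.1 p.2.1 p.2.2) := by
    rw [Finset.sum_product]
    refine Finset.sum_congr rfl fun k _ => ?_
    rw [Finset.sum_product]
  rw [hR]
  have key : ∀ f ∈ (Ico 1 (F N K r)).filter (fun f => isLeft N r f = true),
      ∃ k j q, k ≤ K ∧ 1 ≤ j ∧ j ≤ R N r ∧ q < 4 ∧ f = ftL N r k j q := by
    intro f hf
    rw [mem_filter, mem_Ico] at hf
    obtain ⟨k, j, q, hk, hj, hjR, hq, rfl | rfl⟩ := exists_rep hf.1.1 hf.1.2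
    · exact ⟨k, j, q, hk, hj, hjR, hq, rfl⟩
    · rw [isLeft_ftR hj hjR hq] at hf
      simp at hf
  apply Finset.sum_nbij' (fun f => (fk N r f, fj N r f, fq N r f))
    (fun p => ftL N r p.1 p.2.1 p.2.2)
  · intro f hf
    obtain ⟨k, j, q, hk, hj, hjR, hq, rfl⟩ := key f hf
    show (fk N r _, fj N r _, fq N r _) ∈ _
    rw [fk_ftL hj hjR hq, fj_ftL hj hjR hq, fq_ftL hj hjR hq, mem_product, mem_product, mem_range,
      mem_Icc, mem_range]
    exact ⟨by omega, ⟨hj, hjR⟩, hq⟩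
  · rintro ⟨k, j, q⟩ hp
    rw [mem_product, mem_product, mem_range, mem_Icc, mem_range] at hp
    obtain ⟨hk, ⟨hj, hjR⟩, hq⟩ := hp
    rw [mem_filter, mem_Ico]
    exact ⟨⟨ftL_pos, ftL_lt (Nat.lt_succ_iff.1 hk) hj hjR hq⟩, isLeft_ftL hj hjR hq⟩
  · intro f hf
    obtain ⟨k, j, q, hk, hj, hjR, hq, rfl⟩ := key f hf
    show ftL N r (fk N r _) (fj N r _) (fq N r _) = _
    rw [fk_ftL hj hjR hq, fj_ftL hj hjR hq, fq_ftL hj hjR hq]
  · rintro ⟨k, j, q⟩ hp
    rw [mem_product, mem_product, mem_range, mem_Icc, mem_range] at hp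
    obtain ⟨hk, ⟨hj, hjR⟩, hq⟩ := hp
    show (fk N r _, fj N r _, fq N r _) = _
    rw [fk_ftL hj hjR hq, fj_ftL hj hjR hq, fq_ftL hj hjR hq]
  · intro f hf
    obtain ⟨k, j, q, hk, hj, hjR, hq, rfl⟩ := key f hf
    show _ = g (ftL N r (fk N r _) (fj N r _) (fq N r _))
    rw [fk_ftL hj hjR hq, fj_ftL hj hjR hq, fq_ftL hj hjR hq]

private theorem se_right {M : Type} [AddCommMonoid M] (g : ℕ → M) :
    ∑ f ∈ (Ico 1 (F N K r)).filter (fun f => ¬ isLeft N r f = true), g f =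
      ∑ k ∈ range (K + 1), ∑ j ∈ Icc 1 (R N r), ∑ q ∈ range 4, g (ftR N r k j q) := by
  have hR : ∑ k ∈ range (K + 1), ∑ j ∈ Icc 1 (R N r), ∑ q ∈ range 4, g (ftR N r k j q) =
      ∑ p ∈ range (K + 1) ×ˢ (Icc 1 (R N r) ×ˢ range 4), g (ftR N r p.1 p.2.1 p.2.2) := by
    rw [Finset.sum_product]
    refine Finset.sum_congr rfl fun k _ => ?_
    rw [Finset.sum_product]
  rw [hR]
  have key : ∀ f ∈ (Ico 1 (F N K r)).filter (fun f => ¬ isLeft N r f = true),
      ∃ k j q, k ≤ K ∧ 1 ≤ j ∧ j ≤ R N r ∧ q < 4 ∧ f = ftR N r k j q := by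
    intro f hf
    rw [mem_filter, mem_Ico] at hf
    obtain ⟨k, j, q, hk, hj, hjR, hq, rfl | rfl⟩ := exists_rep hf.1.1 hf.1.2
    · rw [isLeft_ftL hj hjR hq] at hf
      simp at hf
    · exact ⟨k, j, q, hk, hj, hjR, hq, rfl⟩
  apply Finset.sum_nbij' (fun f => (fk N r f, fj N r f, fq N r f))
    (fun p => ftR N r p.1 p.2.1 p.2.2)
  · intro f hf
    obtain ⟨k, j, q, hk, hj, hjR, hq, rfl⟩ := key f hf
    show (fk N r _, fj N r _, fq N r _) ∈ _
    rw [fk_ftR hj hjR hq, fj_ftR hj hjR hq, fq_ftR hj hjR hq, mem_product, mem_product, mem_range,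
      mem_Icc, mem_range]
    exact ⟨by omega, ⟨hj, hjR⟩, hq⟩
  · rintro ⟨k, j, q⟩ hp
    rw [mem_product, mem_product, mem_range, mem_Icc, mem_range] at hp
    obtain ⟨hk, ⟨hj, hjR⟩, hq⟩ := hp
    rw [mem_filter, mem_Ico]
    refine ⟨⟨ftR_pos, ftR_lt (Nat.lt_succ_iff.1 hk) hj hjR hq⟩, ?_⟩
    rw [isLeft_ftR hj hjR hq]
    simp
  · intro f hf
    obtain ⟨k, j, q, hk, hj, hjR, hq, rfl⟩ := key f hf
    show ftR N r (fk N r _) (fj N r _) (fq N r _) = _
    rw [fk_ftR hj hjR hq, fj_ftR hj hjR hq, fq_ftR hj hjR hq]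
  · rintro ⟨k, j, q⟩ hp
    rw [mem_product, mem_product, mem_range, mem_Icc, mem_range] at hp
    obtain ⟨hk, ⟨hj, hjR⟩, hq⟩ := hp
    show (fk N r _, fj N r _, fq N r _) = _
    rw [fk_ftR hj hjR hq, fj_ftR hj hjR hq, fq_ftR hj hjR hq]
  · intro f hf
    obtain ⟨k, j, q, hk, hj, hjR, hq, rfl⟩ := key f hf
    show _ = g (ftR N r (fk N r _) (fj N r _) (fq N r _))
    rw [fk_ftR hj hjR hq, fj_ftR hj hjR hq, fq_ftR hj hjR hq]

private theorem se_types {j : ℕ} :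
    (isH r j = true ∧ isY r j = false ∧ isD r j = false ∧ isX r j = false) ∨
    (isH r j = false ∧ isY r j = true ∧ isD r j = false ∧ isX r j = false) ∨
    (isH r j = false ∧ isY r j = false ∧ isD r j = true ∧ isX r j = false) ∨
    (isH r j = false ∧ isY r j = false ∧ isD r j = false ∧ isX r j = true) := by
  have h1 := rho_pos (r := r) (j := j)
  have h2 := rho_le (r := r) (j := j)
  unfold isH isY isD isX
  simp only [decide_eq_true_eq, decide_eq_false_iff_not]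
  omega

theorem sum_ex : ∑ f ∈ Ico 1 (F N K r), ex N K r f = 4 * N * (r + 1) * (K + 1) := by
  rw [← Finset.sum_filter_add_sum_filter_not (Ico 1 (F N K r)) (fun f => isLeft N r f = true),
    se_left, se_right, ← Finset.sum_add_distrib]
  have h1 : ∀ k ∈ range (K + 1),
      (∑ j ∈ Icc 1 (R N r), ∑ q ∈ range 4, ex N K r (ftL N r k j q)) +
        ∑ j ∈ Icc 1 (R N r), ∑ q ∈ range 4, ex N K r (ftR N r k j q) = 2 * R N r := by
    intro k hk
    rw [mem_range] at hk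
    rw [← Finset.sum_add_distrib]
    have h2 : ∀ j ∈ Icc 1 (R N r), (∑ q ∈ range 4, ex N K r (ftL N r k j q)) +
        ∑ q ∈ range 4, ex N K r (ftR N r k j q) = 2 := by
      intro j hj
      rw [mem_Icc] at hj
      have hL : ∑ q ∈ range 4, ex N K r (ftL N r k j q) = ∑ q ∈ range 4,
          (if (isH r j || isD r j) && q == 1 then 1 else if isX r j && q == 2 then 2 else 0) :=
        Finset.sum_congr rfl fun q hq => ex_ftL (Nat.lt_succ_iff.1 hk) hj.1 hj.2 (mem_range.1 hq)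
      have hR : ∑ q ∈ range 4, ex N K r (ftR N r k j q) = ∑ q ∈ range 4,
          (if (isH r j || isD r j) && q == 2 then 1 else if isY r j && q == 1 then 2 else 0) :=
        Finset.sum_congr rfl fun q hq => ex_ftR (Nat.lt_succ_iff.1 hk) hj.1 hj.2 (mem_range.1 hq)
      rw [hL, hR]
      rcases se_types (r := r) (j := j) with ⟨a, b, c, d⟩ | ⟨a, b, c, d⟩ | ⟨a, b, c, d⟩ |
        ⟨a, b, c, d⟩ <;> rw [a, b, c, d] <;> decide
    rw [Finset.sum_congr rfl h2, Finset.sum_const, Nat.card_Icc, smul_eq_mul]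
    omega
  rw [Finset.sum_congr rfl h1, Finset.sum_const, card_range, smul_eq_mul]
  unfold R Bk
  ring

end Inst

end Pool.Agent.TRI
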