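import Pool.Agent.TRI.E1_Idx
import Pool.Agent.TRI.EDefs

/-! Sum over all feet. -/

namespace Pool.Agent.TRI

namespace Inst

open Finset

variable {N K r : ℕ}

theorem sum_feet {M : Type} [AddCommMonoid M] (g : ℕ → M) :
    ∑ f ∈ Ico 1 (F N K r), g f = ∑ k ∈ range (K + 1), ∑ j ∈ Icc 1 (R N r), ∑ q ∈ range 4,
      (g (ftL N r k j q) + g (ftR N r k j q)) := by
  have h1 : ∑ k ∈ range (K + 1), ∑ j ∈ Icc 1 (R N r), ∑ q ∈ range 4,
      (g (ftL N r k j q) + g (ftR N r k j q)) =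
      ∑ p ∈ range (K + 1) ×ˢ Icc 1 (R N r) ×ˢ range 4 ×ˢ (Finset.univ : Finset Bool),
        g (bif p.2.2.2 then ftL N r p.1 p.2.1 p.2.2.1 else ftR N r p.1 p.2.1 p.2.2.1) := by
    simp only [Finset.sum_product, Fintype.sum_bool, cond_true, cond_false]
  rw [h1]
  symm
  refine Finset.sum_nbij'
    (fun p => bif p.2.2.2 then ftL N r p.1 p.2.1 p.2.2.1 else ftR N r p.1 p.2.1 p.2.2.1)
    (fun f => (fk N r f, fj N r f, fq N r f, isLeft N r f)) ?_ ?_ ?_ ?_ ?_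
  · rintro ⟨k, j, q, b⟩ hp
    simp only [mem_product, mem_range, mem_Icc, mem_univ, and_true] at hp
    obtain ⟨hk, ⟨hj, hjR⟩, hq⟩ := hp
    rw [mem_Ico]
    cases b
    · exact ⟨ftR_pos, ftR_lt (by omega) hj hjR hq⟩
    · exact ⟨ftL_pos, ftL_lt (by omega) hj hjR hq⟩
  · intro f hf
    rw [mem_Ico] at hf
    obtain ⟨k, j, q, hk, hj, hjR, hq, rfl | rfl⟩ := exists_rep hf.1 hf.2
    · rw [fk_ftL hj hjR hq, fj_ftL hj hjR hq, fq_ftL hj hjR hq, isLeft_ftL hj hjR hq]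
      simp only [mem_product, mem_range, mem_Icc, mem_univ, and_true]
      exact ⟨by omega, ⟨hj, hjR⟩, hq⟩
    · rw [fk_ftR hj hjR hq, fj_ftR hj hjR hq, fq_ftR hj hjR hq, isLeft_ftR hj hjR hq]
      simp only [mem_product, mem_range, mem_Icc, mem_univ, and_true]
      exact ⟨by omega, ⟨hj, hjR⟩, hq⟩
  · rintro ⟨k, j, q, b⟩ hp
    simp only [mem_product, mem_range, mem_Icc, mem_univ, and_true] at hp
    obtain ⟨hk, ⟨hj, hjR⟩, hq⟩ := hp
    cases b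
    · simp only [cond_false]
      rw [fk_ftR hj hjR hq, fj_ftR hj hjR hq, fq_ftR hj hjR hq, isLeft_ftR hj hjR hq]
    · simp only [cond_true]
      rw [fk_ftL hj hjR hq, fj_ftL hj hjR hq, fq_ftL hj hjR hq, isLeft_ftL hj hjR hq]
  · intro f hf
    rw [mem_Ico] at hf
    obtain ⟨k, j, q, hk, hj, hjR, hq, rfl | rfl⟩ := exists_rep hf.1 hf.2
    · simp only [fk_ftL hj hjR hq, fj_ftL hj hjR hq, fq_ftL hj hjR hq, isLeft_ftL hj hjR hq,
        cond_true]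
    · simp only [fk_ftR hj hjR hq, fj_ftR hj hjR hq, fq_ftR hj hjR hq, isLeft_ftR hj hjR hq,
        cond_false]
  · intro p _
    rfl

end Inst

end Pool.Agent.TRI
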