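import Pool.Agent.TRI.E1_Idx
import Pool.Agent.TRI.EDefs

/-! Sum over the leaf gaps. -/

namespace Pool.Agent.TRI

namespace Inst

open Finset

variable {N K r : ℕ}

theorem sum_lf (F : ℕ) (win : Finset ℕ) (ex : ℕ → ℕ) (hF : 3 ≤ F)
    (hw : ∀ w ∈ win, ex w = 0 ∧ ex (w + 1) = 0) (h1 : ex 1 = 0) (h2 : ex (F - 1) = 0) :
    ∑ g ∈ lf F win, (ex g + ex (g + 1)) = 2 * ∑ f ∈ Ico 1 F, ex f := by
  obtain ⟨m, rfl⟩ := Nat.exists_eq_add_of_le' hF
  have hlf : ∑ g ∈ lf (m + 3) win, (ex g + ex (g + 1)) =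
      ∑ g ∈ Ico 1 (m + 2), (ex g + ex (g + 1)) := by
    unfold lf
    have hI : Ioo 0 (m + 3 - 1) = Ico 1 (m + 2) := by
      ext x; simp only [mem_Ioo, mem_Ico]; omega
    rw [hI]
    refine Finset.sum_subset (Finset.filter_subset _ _) fun g hg hg' => ?_
    have hgw : g ∈ win := by
      by_contra h
      exact hg' (mem_filter.2 ⟨hg, h⟩)
    have := hw g hgw
    omega
  rw [hlf, Finset.sum_add_distrib, two_mul]
  have h2' : ex (m + 2) = 0 := h2
  congr 1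
  · rw [Finset.sum_Ico_succ_top (show 1 ≤ m + 2 by omega), h2', add_zero]
  · rw [Finset.sum_Ico_add' (fun f => ex f) 1 (m + 2) 1,
      ← Finset.sum_Ioo_add_eq_sum_Ico (show 1 < m + 3 by omega) (f := ex), h1, add_zero]
    refine Finset.sum_congr ?_ fun _ _ => rfl
    ext x; simp only [mem_Ioo, mem_Ico]; omega

end Inst

end Pool.Agent.TRI
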