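import Pool.Agent.TRI.E1_Idx
import Pool.Agent.TRI.EDefs

namespace Pool.Agent.TRI

namespace Inst

open Finset

/-- [E1_TmaxGen] -/
theorem tmax_gen {ν : Type} [DecidableEq ν] (Ks : Skel ν) (F : ℕ) (win : Finset ℕ) (ex : ℕ → ℕ)
    (hrt : Ks.rt ∈ Ks.nodes) (hs : Ks.s Ks.rt = 0)
    (ha : ∀ P ∈ Ks.nodes, P ≠ Ks.rt → ex (Ks.a P) = 0)
    (hb : ∀ P ∈ Ks.nodes, P ≠ Ks.rt → ex (Ks.b P) = 0) :
    Ks.tmax F win ex = (∑ P ∈ Ks.nodes, Ks.s P * ex (Ks.a P + 1)) +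
      ∑ g ∈ lf F win, (ex g + ex (g + 1)) := by
  unfold Skel.tmax Skel.tdeg
  have mz : ∀ P ∈ Ks.nodes, ∀ c, c ≤ Ks.s P → Nm.z P c ∈ Ks.names F win := by
    intro P hP c hc
    unfold Skel.names
    refine mem_union_left _ (mem_union_left _ (mem_biUnion.2 ⟨P, hP, mem_image.2 ⟨c, ?_, rfl⟩⟩))
    exact mem_range.2 (by omega)
  have mcap : ∀ Q ∈ Ks.nodes.erase Ks.rt, Nm.cap Q ∈ Ks.names F win := by
    intro Q hQ
    unfold Skel.names
    exact mem_union_right _ (mem_image.2 ⟨Q, hQ, rfl⟩)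
  have vz0 : ∀ P ∈ Ks.nodes, Ks.sys F win (fun _ => 0) (fun _ => 0) (Nm.z P 0) =
      (Ks.a P, Ks.b P) := by
    intro P hP
    simp only [Skel.sys]
    rw [if_pos (mz P hP 0 (Nat.zero_le _)), if_pos trivial]
  have vzc : ∀ P ∈ Ks.nodes, ∀ c, c + 1 ≤ Ks.s P →
      Ks.sys F win (fun _ => 0) (fun _ => 0) (Nm.z P (c + 1)) = (Ks.a P, Ks.a P + 1) := by
    intro P hP c hc
    simp only [Skel.sys]
    rw [if_pos (mz P hP (c + 1) hc), if_neg (by omega), if_neg (by omega)]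
  have vq : ∀ g ∈ lf F win, Ks.sys F win (fun _ => 0) (fun _ => 0) (Nm.q g) = (g, g + 1) := by
    intro g hg
    simp only [Skel.sys]
    rw [if_pos hg, if_neg (by omega), if_neg (by omega)]
  have vcap : ∀ Q ∈ Ks.nodes.erase Ks.rt,
      Ks.sys F win (fun _ => 0) (fun _ => 0) (Nm.cap Q) = (Ks.a Q, Ks.b Q) := by
    intro Q hQ
    simp only [Skel.sys]
    rw [if_pos (mcap Q hQ)]
  generalize hS : Ks.sys F win (fun _ => 0) (fun _ => 0) = S at vz0 vzc vq vcap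
  clear hS
  have key : (ex (S (Nm.z Ks.rt 0)).1 + ex (S (Nm.z Ks.rt 0)).2) +
      ∑ w ∈ (Ks.names F win).erase (Nm.z Ks.rt 0), (ex (S w).1 + ex (S w).2) =
      ∑ w ∈ Ks.names F win, (ex (S w).1 + ex (S w).2) :=
    add_sum_erase _ (fun w => ex (S w).1 + ex (S w).2) (mz _ hrt 0 (Nat.zero_le _))
  have h1 : ∑ w ∈ Ks.names F win, (ex (S w).1 + ex (S w).2) =
      (∑ P ∈ Ks.nodes, ∑ c ∈ range (Ks.s P + 1),
        (ex (S (Nm.z P c)).1 + ex (S (Nm.z P c)).2)) +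
      (∑ g ∈ lf F win, (ex (S (Nm.q g)).1 + ex (S (Nm.q g)).2)) +
      ∑ Q ∈ Ks.nodes.erase Ks.rt, (ex (S (Nm.cap Q)).1 + ex (S (Nm.cap Q)).2) := by
    unfold Skel.names
    rw [sum_union, sum_union, sum_biUnion, sum_image, sum_image]
    · congr 2
      refine sum_congr rfl fun P _ => ?_
      rw [sum_image]
      intro c _ c' _ h
      exact (Nm.z.inj h).2
    · intro g _ g' _ h
      exact Nm.cap.inj h
    · intro g _ g' _ h
      exact Nm.q.inj h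
    · intro P _ Q _ hPQ
      rw [Function.onFun, disjoint_left]
      intro w hw hw'
      obtain ⟨c, _, rfl⟩ := mem_image.1 hw
      obtain ⟨c', _, h⟩ := mem_image.1 hw'
      exact hPQ (Nm.z.inj h).1.symm
    · rw [disjoint_left]
      intro w hw hw'
      obtain ⟨P, _, hw⟩ := mem_biUnion.1 hw
      obtain ⟨c, _, rfl⟩ := mem_image.1 hw
      obtain ⟨g, _, h⟩ := mem_image.1 hw'
      cases h
    · rw [disjoint_left]
      intro w hw hw'
      obtain ⟨Q, _, rfl⟩ := mem_image.1 hw'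
      rcases mem_union.1 hw with hw | hw
      · obtain ⟨P, _, hw⟩ := mem_biUnion.1 hw
        obtain ⟨c, _, h⟩ := mem_image.1 hw
        cases h
      · obtain ⟨g, _, h⟩ := mem_image.1 hw
        cases h
  have h2 : ∑ g ∈ lf F win, (ex (S (Nm.q g)).1 + ex (S (Nm.q g)).2) =
      ∑ g ∈ lf F win, (ex g + ex (g + 1)) :=
    sum_congr rfl fun g hg => by rw [vq g hg]
  have h3 : ∑ Q ∈ Ks.nodes.erase Ks.rt, (ex (S (Nm.cap Q)).1 + ex (S (Nm.cap Q)).2) = 0 := by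
    refine sum_eq_zero fun Q hQ => ?_
    rw [vcap Q hQ]
    have := mem_erase.1 hQ
    show ex (Ks.a Q) + ex (Ks.b Q) = 0
    rw [ha Q this.2 this.1, hb Q this.2 this.1]
  have h4 : ∀ P ∈ Ks.nodes, ∑ c ∈ range (Ks.s P + 1),
      (ex (S (Nm.z P c)).1 + ex (S (Nm.z P c)).2) =
      (if P = Ks.rt then ex (Ks.a Ks.rt) + ex (Ks.b Ks.rt) else 0) +
        Ks.s P * ex (Ks.a P + 1) := by
    intro P hP
    rw [sum_range_succ', vz0 P hP]
    have h5 : ∑ c ∈ range (Ks.s P), (ex (S (Nm.z P (c + 1))).1 + ex (S (Nm.z P (c + 1))).2) =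
        Ks.s P * (ex (Ks.a P) + ex (Ks.a P + 1)) := by
      rw [sum_congr rfl (g := fun _ => ex (Ks.a P) + ex (Ks.a P + 1)) fun c hc => by
        rw [vzc P hP c (mem_range.1 hc)]]
      rw [sum_const, card_range, smul_eq_mul]
    rw [h5]
    by_cases hPr : P = Ks.rt
    · rw [if_pos hPr, hPr, hs]
      simp
    · rw [if_neg hPr]
      simp only
      rw [ha P hP hPr, hb P hP hPr]
      simp
  have h6 : ∑ P ∈ Ks.nodes, ((if P = Ks.rt then ex (Ks.a Ks.rt) + ex (Ks.b Ks.rt) else 0) +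
        Ks.s P * ex (Ks.a P + 1)) = (ex (Ks.a Ks.rt) + ex (Ks.b Ks.rt)) +
        ∑ P ∈ Ks.nodes, Ks.s P * ex (Ks.a P + 1) := by
    rw [sum_add_distrib, sum_ite_eq' Ks.nodes Ks.rt, if_pos hrt]
  rw [h2, h3, sum_congr rfl h4, h6] at h1
  rw [h1, vz0 _ hrt] at key
  simp only at key
  omega

end Inst

end Pool.Agent.TRI
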