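import Pool.Agent.TRI.E1_CombL
import Pool.Agent.TRI.E1_SumFeet
import Pool.Agent.TRI.E1_SumArcs
import Pool.Agent.TRI.E1_ProdWin
import Pool.Agent.TRI.E1_CardArcs
import Pool.Agent.TRI.E1_CardNames
import Pool.Agent.TRI.E1_TmaxGen
import Pool.Agent.TRI.E1_SumLf
import Pool.Agent.TRI.E1_SumEx
import Pool.Agent.TRI.E1_Sizes
import Pool.Agent.TRI.E1_PiRoot
import Pool.Agent.TRI.E1_Lower

/-!
Area E1: the interface statements `dmax_eq`, `tmax_eq`, `sizes`, `part_eq` (`combU` and `combL` are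
in E1_CombU2 and E1_CombL).
-/

namespace Pool.Agent.TRI

namespace Inst

open Finset

variable {N K r : ℕ}

theorem card_win (hN : 1 ≤ N) : (win N K r).card = 2 * nA N K r := by
  have h := prod_win (N := N) (K := K) (r := r) (fun _ => (2 : ℕ))
  rw [prod_const, prod_const, prod_const, ← pow_mul, card_arcs hN, Nat.card_Icc] at h
  have h2 : (2 : ℕ) * 2 = 2 ^ 2 := by norm_num
  rw [h2, ← pow_mul] at h
  have h3 := Nat.pow_right_injective (le_refl 2) h
  rw [h3]
  unfold nA
  rw [Nat.add_sub_cancel]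

theorem win_subset (hN : 1 ≤ N) : win N K r ⊆ Ioo 0 (F N K r - 1) := by
  intro w hw
  have h := wins_U hN hw
  have hF := own_memU (win_lt hw)
  rw [mem_Ioo]
  have hb : (KU N K r).b ((KU N K r).own w) ≤ F N K r := by
    rcases ho : (KU N K r).own w with _ | ⟨k, i⟩
    · exact le_rfl
    · rw [ho] at hF
      have hP := memU.1 hF.1
      exact (bU_lt hP.1.2 hP.2.1 hP.2.2).le
  omega

theorem card_lf (hN : 1 ≤ N) : (lf (F N K r) (win N K r)).card = F N K r - 2 - 2 * nA N K r := by
  unfold lf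
  rw [filter_notMem_eq_sdiff, card_sdiff_of_subset (win_subset hN), card_win hN, Nat.card_Ioo]
  omega

theorem sum_nodesU {M : Type} [AddCommMonoid M] (g : Option (ℕ × ℕ) → M) :
    ∑ P ∈ (KU N K r).nodes, g P = g none + ∑ P ∈ (Icc 1 K) ×ˢ (Icc 1 N), g (some P) := by
  have h : (KU N K r).nodes = insert none (((Icc 1 K) ×ˢ (Icc 1 N)).image some) := rfl
  rw [h, sum_insert (by simp), sum_image (fun x _ y _ h => Option.some_injective _ h)]

theorem sum_nodesL {M : Type} [AddCommMonoid M] (g : Option (ℕ × ℕ) → M) :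
    ∑ P ∈ (KL N K r).nodes, g P =
      g none + ∑ k ∈ range (K + 1), ∑ j ∈ Icc 1 (R N r), g (some (k, j)) := by
  have h : (KL N K r).nodes = insert none (((range (K + 1)) ×ˢ (Icc 1 (R N r))).image some) := rfl
  rw [h, sum_insert (by simp), sum_image (fun x _ y _ h => Option.some_injective _ h),
    sum_product]

theorem sum_spin (hN : 1 ≤ N) (hK : 1 ≤ K) :
    ∑ k ∈ range (K + 1), ∑ j ∈ Icc 1 (R N r), (if isSpin N K r k j = true then 1 else 0) =
      nA N K r := by
  have h1 : ∀ k ∈ range (K + 1), ∑ j ∈ Icc 1 (R N r),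
      (if isSpin N K r k j = true then 1 else 0) =
        if 1 ≤ k ∧ k + 1 ≤ K then (2 * N - 1) * r else 0 := by
    intro k _
    split_ifs with h
    · rw [← card_arcs hN, ← card_filter]
      congr 1
      unfold arcs
      apply filter_congr
      intro j _
      unfold isSpin
      simp [h.1, h.2]
    · apply sum_eq_zero
      intro j _
      rw [if_neg]
      intro hs
      exact h (isSpin_iff.1 hs).1
  rw [sum_congr rfl h1, ← sum_filter, sum_const, smul_eq_mul]
  have h2 : (range (K + 1)).filter (fun k => 1 ≤ k ∧ k + 1 ≤ K) = Icc 1 (K - 1) := by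
    ext k
    simp only [mem_filter, mem_range, mem_Icc]
    omega
  rw [h2, Nat.card_Icc]
  unfold nA
  rw [Nat.add_sub_cancel]
  ring

theorem cardU (hN : 1 ≤ N) : (DU N K r).I.card = 5 * N * K + (F N K r - 2 - 2 * nA N K r) + 1 := by
  have h : (DU N K r).I = (KU N K r).names (F N K r) (win N K r) := rfl
  have hc : (KU N K r).nodes.card = 1 + K * N := by
    rw [card_eq_sum_ones, sum_nodesU]
    simp
  have hs : ∑ P ∈ (KU N K r).nodes, ((KU N K r).s P + 1) = 1 + K * N * 4 := by
    rw [sum_nodesU]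
    have h1 : ∀ P ∈ (Icc 1 K) ×ˢ (Icc 1 N), ((KU N K r).s (some P) + 1) = 4 := fun P _ => rfl
    rw [sum_congr rfl h1, sum_const, card_product, Nat.card_Icc, Nat.card_Icc]
    simp [KU]
  rw [h, card_names _ _ _ none_memU, hs, card_lf hN, hc]
  have : 5 * N * K = K * N * 5 := by ring
  omega

theorem cardL (hN : 1 ≤ N) (hK : 1 ≤ K) : (DL N K r).I.card =
    2 * R N r * (K + 1) + nA N K r + (F N K r - 2 - 2 * nA N K r) + 1 := by
  have h : (DL N K r).I = (KL N K r).names (F N K r) (win N K r) := rfl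
  have hc : (KL N K r).nodes.card = 1 + (K + 1) * R N r := by
    rw [card_eq_sum_ones, sum_nodesL]
    simp
  have hs : ∑ P ∈ (KL N K r).nodes, ((KL N K r).s P + 1) = 1 + (K + 1) * R N r + nA N K r := by
    rw [sum_add_distrib, ← card_eq_sum_ones, hc, sum_nodesL]
    have h1 : ∑ k ∈ range (K + 1), ∑ j ∈ Icc 1 (R N r), (KL N K r).s (some (k, j)) = nA N K r := by
      rw [← sum_spin hN hK]
      rfl
    have h2 : (KL N K r).s none = 0 := rfl
    rw [h1, h2]
    ring
  rw [h, card_names _ _ _ none_memL, hs, card_lf hN, hc]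
  have : 2 * R N r * (K + 1) = (K + 1) * R N r + (K + 1) * R N r := by ring
  omega

theorem dmax_eq (hN : 1 ≤ N) (hK : 2 ≤ K) (_hr : 1 ≤ r) :
    dmax (DU N K r) (DL N K r) = dI N K r := by
  unfold dmax dI
  rw [cardU hN, cardL hN (by omega), Nat.add_sub_cancel, Nat.add_sub_cancel]

theorem sum_lf_ex (hN : 1 ≤ N) :
    ∑ g ∈ lf (F N K r) (win N K r), (ex N K r g + ex N K r (g + 1)) =
      8 * N * (1 + r) * (K + 1) := by
  have hR := R_pos (r := r) hN
  have e1 : ex N K r 1 = 0 := by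
    have h := (ex_q0 (N := N) (r := r) (Nat.zero_le K) (le_refl 1) hR).1
    have h2 : ftL N r 0 1 0 = 1 := by unfold ftL; simp
    rwa [h2] at h
  have e2 : ex N K r (F N K r - 1) = 0 := by
    have h := (ex_q0 (N := N) (r := r) (le_refl K) (le_refl 1) hR).2
    have h2 : ftR N r K 1 3 = F N K r - 1 := by rw [F_eq]; unfold ftR; omega
    rwa [h2] at h
  rw [sum_lf (F N K r) (win N K r) (ex N K r) (three_le_F hN) (fun w hw => ex_spin_win hw) e1 e2,
    sum_ex]
  ring

theorem tmax_eq (hN : 1 ≤ N) (hK : 2 ≤ K) (_hr : 1 ≤ r) :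
    (KU N K r).tmax (F N K r) (win N K r) (ex N K r) +
      (KL N K r).tmax (F N K r) (win N K r) (ex N K r) = eI N K r := by
  have hU := tmax_gen (KU N K r) (F N K r) (win N K r) (ex N K r) none_memU rfl
    (by
      intro P hP hPr
      rcases P with _ | ⟨k, i⟩
      · exact (hPr rfl).elim
      · have hP' := memU.1 hP
        exact (ex_aU hP'.1 hP'.2.1 hP'.2.2).1)
    (by
      intro P hP hPr
      rcases P with _ | ⟨k, i⟩
      · exact (hPr rfl).elim
      · have hP' := memU.1 hP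
        exact (ex_bU hP'.1 hP'.2.1 hP'.2.2).1)
  have hL := tmax_gen (KL N K r) (F N K r) (win N K r) (ex N K r) none_memL rfl
    (by
      intro P hP hPr
      rcases P with _ | ⟨k, j⟩
      · exact (hPr rfl).elim
      · have hP' := memL.1 hP
        exact (ex_q0 hP'.1 hP'.2.1 hP'.2.2).1)
    (by
      intro P hP hPr
      rcases P with _ | ⟨k, j⟩
      · exact (hPr rfl).elim
      · have hP' := memL.1 hP
        exact (ex_q0 hP'.1 hP'.2.1 hP'.2.2).2)
  have sU : ∑ P ∈ (KU N K r).nodes, (KU N K r).s P * ex N K r ((KU N K r).a P + 1) =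
      6 * N * K := by
    rw [sum_nodesU]
    have h1 : ∀ P ∈ (Icc 1 K) ×ˢ (Icc 1 N),
        (KU N K r).s (some P) * ex N K r ((KU N K r).a (some P) + 1) = 6 := by
      intro P hP
      rw [mem_product, mem_Icc, mem_Icc] at hP
      obtain ⟨k, i⟩ := P
      rw [(ex_aU (N := N) (K := K) (r := r) hP.1 hP.2.1 hP.2.2).2]
      rfl
    have h2 : (KU N K r).s none = 0 := rfl
    rw [sum_congr rfl h1, sum_const, card_product, Nat.card_Icc, Nat.card_Icc, h2, smul_eq_mul]
    simp
    ring
  have sLo : ∑ P ∈ (KL N K r).nodes, (KL N K r).s P * ex N K r ((KL N K r).a P + 1) =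
      nA N K r := by
    rw [sum_nodesL]
    have h2 : (KL N K r).s none = 0 := rfl
    rw [h2, zero_mul, zero_add, ← sum_spin hN (show 1 ≤ K by omega)]
    apply sum_congr rfl
    intro k hk
    apply sum_congr rfl
    intro j hj
    rw [mem_range] at hk
    rw [mem_Icc] at hj
    rw [sL]
    split_ifs with hs
    · rw [aL, ftL_succ (by omega), (spinL_ex (by omega) hj.1 hj.2 hs (by omega)).1]
      simp
    · simp
  rw [hU, hL, sU, sLo, sum_lf_ex hN]
  unfold eI
  ring

theorem sizes (hN : 1 ≤ N) (hK : 2 ≤ K) (hr : 1 ≤ r) :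
    ∀ f, ∀ t ≤ eI N K r, t ^ ex N K r f * dI N K r ≤ 2 ^ G N K r :=
  sizes' hN hK hr

theorem wt_three {c : ℕ} (hc : c < 4) : Skel.wt 3 c = (1 / 720) * (wgt c : ℚ) := by
  unfold Skel.wt wgt
  interval_cases c <;> norm_num [Nat.factorial]

open Classical in
theorem part_eq (hN : 1 ≤ N) (hK : 2 ≤ K) (hr : 1 ≤ r) :
    ∃ c : ℚ, 0 < c ∧ ∀ fw : ℕ → ℕ → Bool,
      part (KU N K r) (KL N K r) (win N K r) (bad fw) = c * Y N K r fw := by
  refine ⟨(1 / 720) ^ (K * N) * (1 / 12) ^ nA N K r, by positivity, fun fw => ?_⟩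
  unfold part
  have h1 : ∀ j ∈ (KU N K r).nodes.pi (fun P => range ((KU N K r).s P + 1)),
      ∑ j' ∈ (KL N K r).nodes.pi (fun P => range ((KL N K r).s P + 1)),
      (∏ P ∈ (KU N K r).nodes.filter (fun P => 1 ≤ (KU N K r).s P),
        Skel.wt ((KU N K r).s P) (Skel.ext j P)) *
        (∏ P ∈ (KL N K r).nodes.filter (fun P => 1 ≤ (KL N K r).s P),
          Skel.wt ((KL N K r).s P) (Skel.ext j' P)) *
          ∏ w ∈ win N K r, (7 + if bad fw w (Skel.ext j ((KU N K r).own w))
            (Skel.ext j' ((KL N K r).own w)) then 0 else 1 : ℚ) =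
      (fun c : Option (ℕ × ℕ) → ℕ =>
        (∏ P ∈ (KU N K r).nodes.filter (fun P => 1 ≤ (KU N K r).s P),
          Skel.wt ((KU N K r).s P) (c P)) *
        ((1 / 12) ^ nA N K r * ∏ k ∈ Icc 1 (K - 1), ∏ j ∈ arcs N r,
          (112 + if fw (ftL N r k j 2) (c (some (k, iL r j))) =
            fw (ftR N r k j 0) (c (some (k + 1, iR r j))) then 1 else 0 : ℚ))) (Skel.ext j) := by
    intro j _
    simp only
    rw [← lower_sum hN hK hr fw (Skel.ext j), mul_sum]
    apply sum_congr rfl
    intro j' _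
    rw [mul_assoc]
    congr 2
    apply prod_congr rfl
    intro w _
    unfold bad
    simp
  rw [sum_congr rfl h1]
  have hn : (KU N K r).nodes = insert none (((Icc 1 K) ×ˢ (Icc 1 N)).image some) := rfl
  have hp := pi_root ((Icc 1 K) ×ˢ (Icc 1 N)) (KU N K r).s rfl
    (fun c : Option (ℕ × ℕ) → ℕ =>
        (∏ P ∈ (KU N K r).nodes.filter (fun P => 1 ≤ (KU N K r).s P),
          Skel.wt ((KU N K r).s P) (c P)) *
        ((1 / 12) ^ nA N K r * ∏ k ∈ Icc 1 (K - 1), ∏ j ∈ arcs N r,
          (112 + if fw (ftL N r k j 2) (c (some (k, iL r j))) =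
            fw (ftR N r k j 0) (c (some (k + 1, iR r j))) then 1 else 0 : ℚ)))
  rw [← hn] at hp
  rw [hp]
  unfold Y
  push_cast
  rw [mul_sum]
  apply sum_congr rfl
  intro σ hσ
  have hfil : (KU N K r).nodes.filter (fun P => 1 ≤ (KU N K r).s P) =
      ((Icc 1 K) ×ˢ (Icc 1 N)).image some := by
    ext P
    rw [mem_filter, hn, mem_insert, mem_image]
    constructor
    · rintro ⟨h | h, h2⟩
      · rw [h] at h2
        have : (KU N K r).s none = 0 := rfl
        omega
      · exact h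
    · intro h
      refine ⟨Or.inr h, ?_⟩
      obtain ⟨a, _, rfl⟩ := h
      have : (KU N K r).s (some a) = 3 := rfl
      omega
  rw [hfil, prod_image (fun x _ y _ h => Option.some_injective _ h)]
  have hw : ∀ P ∈ (Icc 1 K) ×ˢ (Icc 1 N),
      Skel.wt ((KU N K r).s (some P)) ((some P).elim 0 (Skel.ext σ)) =
        (1 / 720) * (wgt (Skel.ext σ P) : ℚ) := by
    intro P hP
    have h3 : (KU N K r).s (some P) = 3 := rfl
    rw [h3]
    apply wt_three
    have h4 := mem_pi.1 hσ P hP
    have h5 : ((some P).elim 0 (Skel.ext σ)) = Skel.ext σ P := rfl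
    rw [h5]
    unfold Skel.ext
    rw [dif_pos hP]
    have h6 := mem_range.1 h4
    rw [h3] at h6
    exact h6
  rw [prod_congr rfl hw, prod_mul_distrib, prod_const, card_product, Nat.card_Icc, Nat.card_Icc,
    Nat.add_sub_cancel, Nat.add_sub_cancel]
  have key : ∀ a b c d e : ℚ, d = e → (a * b) * (c * d) = a * c * (b * e) := by
    intro a b c d e h
    rw [h]
    ring
  exact key _ _ _ _ _ rfl

end Inst

end Pool.Agent.TRI
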