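import Pool.Agent.TRI.Inst

/-!
Area E1: index lemmas. Every foot `1 ≤ f < F` is `ftL k j q` or `ftR k j q`, every arc is
`(i - 1) * Bk r + ρ`.
-/

namespace Pool.Agent.TRI

namespace Inst

open Finset

variable {N K r k k' j j' q q' f i i' ρ : ℕ}

theorem Bk_pos : 0 < Bk r := by unfold Bk; omega

theorem R_pos (hN : 1 ≤ N) : 0 < R N r := Nat.mul_pos hN Bk_pos

theorem F_eq : F N K r = 8 * R N r * K + 8 * R N r + 1 := by unfold F; ring

theorem kmul_le (h : k ≤ k') : 8 * R N r * k ≤ 8 * R N r * k' := Nat.mul_le_mul_left _ h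

theorem kmul_lt (h : k < k') : 8 * R N r * k + 8 * R N r ≤ 8 * R N r * k' := by
  have := Nat.mul_le_mul_left (8 * R N r) (Nat.succ_le_of_lt h)
  rwa [Nat.mul_succ] at this

/-! ### feet -/

theorem fm_ftL (hj : 1 ≤ j) (hjR : j ≤ R N r) (hq : q < 4) :
    fm N r (ftL N r k j q) = 4 * (j - 1) + q := by
  unfold fm ftL
  have h : 1 + 8 * R N r * k + 4 * (j - 1) + q - 1 = (4 * (j - 1) + q) + 8 * R N r * k := by omega
  rw [h, Nat.add_mul_mod_self_left, Nat.mod_eq_of_lt (by omega)]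

theorem fk_ftL (hj : 1 ≤ j) (hjR : j ≤ R N r) (hq : q < 4) :
    fk N r (ftL N r k j q) = k := by
  unfold fk ftL
  have h : 1 + 8 * R N r * k + 4 * (j - 1) + q - 1 = (4 * (j - 1) + q) + 8 * R N r * k := by omega
  rw [h, Nat.add_mul_div_left _ _ (by omega), Nat.div_eq_of_lt (by omega), zero_add]

theorem isLeft_ftL (hj : 1 ≤ j) (hjR : j ≤ R N r) (hq : q < 4) :
    isLeft N r (ftL N r k j q) = true := by
  unfold isLeft
  rw [fm_ftL hj hjR hq]
  exact decide_eq_true (by omega)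

theorem fj_ftL (hj : 1 ≤ j) (hjR : j ≤ R N r) (hq : q < 4) :
    fj N r (ftL N r k j q) = j := by
  unfold fj
  rw [fm_ftL hj hjR hq, if_pos (by omega)]
  omega

theorem fq_ftL (hj : 1 ≤ j) (hjR : j ≤ R N r) (hq : q < 4) :
    fq N r (ftL N r k j q) = q := by
  unfold fq
  rw [fm_ftL hj hjR hq, if_pos (by omega)]
  omega

theorem fm_ftR (hj : 1 ≤ j) (hjR : j ≤ R N r) (hq : q < 4) :
    fm N r (ftR N r k j q) = 4 * R N r + 4 * (R N r - j) + q := by
  unfold fm ftR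
  have h : 1 + 8 * R N r * k + 4 * R N r + 4 * (R N r - j) + q - 1 =
    (4 * R N r + 4 * (R N r - j) + q) + 8 * R N r * k := by omega
  rw [h, Nat.add_mul_mod_self_left, Nat.mod_eq_of_lt (by omega)]

theorem fk_ftR (hj : 1 ≤ j) (hjR : j ≤ R N r) (hq : q < 4) :
    fk N r (ftR N r k j q) = k := by
  unfold fk ftR
  have h : 1 + 8 * R N r * k + 4 * R N r + 4 * (R N r - j) + q - 1 =
    (4 * R N r + 4 * (R N r - j) + q) + 8 * R N r * k := by omega
  rw [h, Nat.add_mul_div_left _ _ (by omega), Nat.div_eq_of_lt (by omega), zero_add]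

theorem isLeft_ftR (hj : 1 ≤ j) (hjR : j ≤ R N r) (hq : q < 4) :
    isLeft N r (ftR N r k j q) = false := by
  unfold isLeft
  rw [fm_ftR hj hjR hq]
  exact decide_eq_false (by omega)

theorem fj_ftR (hj : 1 ≤ j) (hjR : j ≤ R N r) (hq : q < 4) :
    fj N r (ftR N r k j q) = j := by
  unfold fj
  rw [fm_ftR hj hjR hq, if_neg (by omega)]
  omega

theorem fq_ftR (hj : 1 ≤ j) (hjR : j ≤ R N r) (hq : q < 4) :
    fq N r (ftR N r k j q) = q := by
  unfold fq
  rw [fm_ftR hj hjR hq, if_neg (by omega)]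
  omega

theorem ftL_pos : 1 ≤ ftL N r k j q := by unfold ftL; omega

theorem ftR_pos : 1 ≤ ftR N r k j q := by unfold ftR; omega

theorem ftL_lt (hk : k ≤ K) (hj : 1 ≤ j) (hjR : j ≤ R N r) (hq : q < 4) :
    ftL N r k j q < F N K r := by
  have := kmul_le (N := N) (r := r) hk
  rw [F_eq]; unfold ftL; omega

theorem ftR_lt (hk : k ≤ K) (hj : 1 ≤ j) (hjR : j ≤ R N r) (hq : q < 4) :
    ftR N r k j q < F N K r := by
  have := kmul_le (N := N) (r := r) hk
  rw [F_eq]; unfold ftR; omega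

/-- every inner foot is a left or a right foot -/
theorem exists_rep (h1 : 1 ≤ f) (h2 : f < F N K r) :
    ∃ k j q, k ≤ K ∧ 1 ≤ j ∧ j ≤ R N r ∧ q < 4 ∧ (f = ftL N r k j q ∨ f = ftR N r k j q) := by
  have hR : 0 < R N r := by
    rcases Nat.eq_zero_or_pos (R N r) with h | h
    · rw [F_eq, h] at h2; omega
    · exact h
  have hd := Nat.div_add_mod (f - 1) (8 * R N r)
  have hm := Nat.mod_lt (f - 1) (show 0 < 8 * R N r by omega)
  have hk : (f - 1) / (8 * R N r) ≤ K := by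
    have : f - 1 < (8 * R N r) * (K + 1) := by rw [Nat.mul_succ]; rw [F_eq] at h2; omega
    exact Nat.lt_succ_iff.1 (Nat.div_lt_of_lt_mul this)
  by_cases hL : (f - 1) % (8 * R N r) < 4 * R N r
  · refine ⟨(f - 1) / (8 * R N r), (f - 1) % (8 * R N r) / 4 + 1, (f - 1) % (8 * R N r) % 4,
      hk, by omega, by omega, by omega, Or.inl ?_⟩
    unfold ftL; omega
  · refine ⟨(f - 1) / (8 * R N r), R N r - ((f - 1) % (8 * R N r) - 4 * R N r) / 4,
      ((f - 1) % (8 * R N r) - 4 * R N r) % 4, hk, by omega, by omega, by omega, Or.inr ?_⟩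
    unfold ftR; omega

theorem ftL_succ (hq : q + 1 < 4) : ftL N r k j q + 1 = ftL N r k j (q + 1) := by
  unfold ftL; omega

theorem ftR_succ : ftR N r k j q + 1 = ftR N r k j (q + 1) := by
  unfold ftR; omega

/-! ### arcs -/

theorem bmul_lt (h : i < i') : i * Bk r + Bk r ≤ i' * Bk r := by
  have := Nat.mul_le_mul_right (Bk r) (Nat.succ_le_of_lt h)
  rwa [Nat.succ_mul] at this

theorem bmul_le (h : i ≤ i') : i * Bk r ≤ i' * Bk r := Nat.mul_le_mul_right _ h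

theorem bmul_pred (h : 1 ≤ i) : i * Bk r = (i - 1) * Bk r + Bk r := by
  obtain ⟨i, rfl⟩ := Nat.exists_eq_add_of_le' h
  simp [Nat.succ_mul]

theorem rho_arc (h1 : 1 ≤ ρ) (h2 : ρ ≤ Bk r) : rho r ((i - 1) * Bk r + ρ) = ρ := by
  unfold rho
  have h : (i - 1) * Bk r + ρ - 1 = (ρ - 1) + (i - 1) * Bk r := by omega
  rw [h, Nat.add_mul_mod_self_right, Nat.mod_eq_of_lt (by omega)]
  omega

theorem iL_arc (hi : 1 ≤ i) (h1 : 1 ≤ ρ) (h2 : ρ ≤ Bk r) : iL r ((i - 1) * Bk r + ρ) = i := by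
  unfold iL
  have h : (i - 1) * Bk r + ρ - 1 = (ρ - 1) + (i - 1) * Bk r := by omega
  rw [h, Nat.add_mul_div_right _ _ Bk_pos, Nat.div_eq_of_lt (by omega)]
  omega

theorem iR_arc (hi : 1 ≤ i) (h1 : 1 ≤ ρ) (h2 : ρ ≤ Bk r) :
    iR r ((i - 1) * Bk r + ρ) = if ρ ≤ r + 1 then i else i + 1 := by
  unfold iR
  rw [rho_arc h1 h2, iL_arc hi h1 h2]

theorem arc_pos (h1 : 1 ≤ ρ) : 1 ≤ (i - 1) * Bk r + ρ := by omega

theorem arc_le (hi : 1 ≤ i) (hiN : i ≤ N) (h2 : ρ ≤ Bk r) : (i - 1) * Bk r + ρ ≤ R N r := by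
  unfold R
  have := bmul_le (r := r) hiN
  have := bmul_pred (r := r) hi
  omega

/-- every arc is the arc `ρ` of a block `i` -/
theorem exists_arc (h1 : 1 ≤ j) (h2 : j ≤ R N r) :
    ∃ i ρ, 1 ≤ i ∧ i ≤ N ∧ 1 ≤ ρ ∧ ρ ≤ Bk r ∧ j = (i - 1) * Bk r + ρ := by
  have hB : 0 < Bk r := Bk_pos
  have hd := Nat.div_add_mod (j - 1) (Bk r)
  have hm := Nat.mod_lt (j - 1) hB
  have hi : (j - 1) / Bk r < N := by
    rw [Nat.div_lt_iff_lt_mul hB]
    unfold R at h2
    omega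
  generalize (j - 1) / Bk r = m at hd hi
  generalize (j - 1) % Bk r = p at hd hm
  refine ⟨m + 1, p + 1, by omega, by omega, by omega, by omega, ?_⟩
  rw [Nat.add_sub_cancel, Nat.mul_comm m]
  omega

theorem iL_pos : 1 ≤ iL r j := Nat.succ_le_succ (Nat.zero_le _)

theorem iL_le (h1 : 1 ≤ j) (h2 : j ≤ R N r) : iL r j ≤ N := by
  obtain ⟨i, ρ, hi, hiN, hρ, hρ', rfl⟩ := exists_arc h1 h2
  rwa [iL_arc hi hρ hρ']

theorem iR_pos : 1 ≤ iR r j := by
  unfold iR
  have := iL_pos (r := r) (j := j)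
  split_ifs <;> omega

theorem rho_pos : 1 ≤ rho r j := Nat.succ_le_succ (Nat.zero_le _)

theorem rho_le : rho r j ≤ 2 * r + 2 := by
  have := Nat.mod_lt (j - 1) (Bk_pos (r := r))
  unfold rho
  unfold Bk at *
  omega

theorem isH_iff : isH r j = true ↔ rho r j ≤ r := by unfold isH; simp

theorem isY_iff : isY r j = true ↔ rho r j = r + 1 := by unfold isY; simp

theorem isD_iff : isD r j = true ↔ r + 2 ≤ rho r j ∧ rho r j ≤ 2 * r + 1 := by unfold isD; simp

theorem isX_iff : isX r j = true ↔ rho r j = 2 * r + 2 := by unfold isX; simp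

theorem isSpin_iff : isSpin N K r k j = true ↔
    (1 ≤ k ∧ k + 1 ≤ K) ∧ (rho r j ≤ r ∨ (r + 2 ≤ rho r j ∧ rho r j ≤ 2 * r + 1) ∧ iL r j < N) := by
  unfold isSpin
  simp [isH_iff, isD_iff]

/-! ### windows -/

theorem mem_win : f ∈ win N K r ↔ ∃ k j, 1 ≤ j ∧ j ≤ R N r ∧ isSpin N K r k j = true ∧
    (f = ftL N r k j 2 ∨ f = ftR N r k j 0) := by
  unfold win
  rw [mem_filter, mem_Ico]
  constructor
  · rintro ⟨⟨h1, h2⟩, h3, h4⟩
    obtain ⟨k, j, q, hk, hj, hjR, hq, rfl | rfl⟩ := exists_rep h1 h2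
    · rw [fk_ftL hj hjR hq, fj_ftL hj hjR hq] at h3
      rw [isLeft_ftL hj hjR hq, fq_ftL hj hjR hq] at h4
      refine ⟨k, j, hj, hjR, h3, Or.inl ?_⟩
      rcases h4 with h4 | h4
      · rw [h4.2]
      · simp at h4
    · rw [fk_ftR hj hjR hq, fj_ftR hj hjR hq] at h3
      rw [isLeft_ftR hj hjR hq, fq_ftR hj hjR hq] at h4
      refine ⟨k, j, hj, hjR, h3, Or.inr ?_⟩
      rcases h4 with h4 | h4
      · simp at h4
      · rw [h4.2]
  · rintro ⟨k, j, hj, hjR, h3, rfl | rfl⟩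
    · have hk : k ≤ K := by have := (isSpin_iff.1 h3).1; omega
      rw [fk_ftL hj hjR (by omega), fj_ftL hj hjR (by omega), isLeft_ftL hj hjR (by omega),
        fq_ftL hj hjR (by omega)]
      exact ⟨⟨ftL_pos, ftL_lt hk hj hjR (by omega)⟩, h3, Or.inl ⟨rfl, rfl⟩⟩
    · have hk : k ≤ K := by have := (isSpin_iff.1 h3).1; omega
      rw [fk_ftR hj hjR (by omega), fj_ftR hj hjR (by omega), isLeft_ftR hj hjR (by omega),
        fq_ftR hj hjR (by omega)]
      exact ⟨⟨ftR_pos, ftR_lt hk hj hjR (by omega)⟩, h3, Or.inr ⟨rfl, rfl⟩⟩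

theorem ftL_mem_win (hj : 1 ≤ j) (hjR : j ≤ R N r) (hq : q < 4) :
    ftL N r k j q ∈ win N K r ↔ isSpin N K r k j = true ∧ q = 2 := by
  unfold win
  rw [mem_filter, mem_Ico, fk_ftL hj hjR hq, fj_ftL hj hjR hq, isLeft_ftL hj hjR hq,
    fq_ftL hj hjR hq]
  constructor
  · rintro ⟨-, h3, h4⟩
    exact ⟨h3, by simpa using h4⟩
  · rintro ⟨h3, rfl⟩
    have hk : k ≤ K := by have := (isSpin_iff.1 h3).1; omega
    exact ⟨⟨ftL_pos, ftL_lt hk hj hjR (by omega)⟩, h3, Or.inl ⟨rfl, rfl⟩⟩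

theorem ftR_mem_win (hj : 1 ≤ j) (hjR : j ≤ R N r) (hq : q < 4) :
    ftR N r k j q ∈ win N K r ↔ isSpin N K r k j = true ∧ q = 0 := by
  unfold win
  rw [mem_filter, mem_Ico, fk_ftR hj hjR hq, fj_ftR hj hjR hq, isLeft_ftR hj hjR hq,
    fq_ftR hj hjR hq]
  constructor
  · rintro ⟨-, h3, h4⟩
    exact ⟨h3, by simpa using h4⟩
  · rintro ⟨h3, rfl⟩
    have hk : k ≤ K := by have := (isSpin_iff.1 h3).1; omega
    exact ⟨⟨ftR_pos, ftR_lt hk hj hjR (by omega)⟩, h3, Or.inr ⟨rfl, rfl⟩⟩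

theorem zero_notMem_win : 0 ∉ win N K r := by
  unfold win
  simp

theorem win_lt (hf : f ∈ win N K r) : f < F N K r := by
  unfold win at hf
  rw [mem_filter, mem_Ico] at hf
  exact hf.1.2

/-! ### exponents -/

theorem ex_ftL (hk : k ≤ K) (hj : 1 ≤ j) (hjR : j ≤ R N r) (hq : q < 4) :
    ex N K r (ftL N r k j q) =
      if (isH r j || isD r j) && q == 1 then 1 else if isX r j && q == 2 then 2 else 0 := by
  unfold ex
  rw [if_pos ⟨ftL_pos, ftL_lt hk hj hjR hq⟩, isLeft_ftL hj hjR hq, fj_ftL hj hjR hq,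
    fq_ftL hj hjR hq]
  simp

theorem ex_ftR (hk : k ≤ K) (hj : 1 ≤ j) (hjR : j ≤ R N r) (hq : q < 4) :
    ex N K r (ftR N r k j q) =
      if (isH r j || isD r j) && q == 2 then 1 else if isY r j && q == 1 then 2 else 0 := by
  unfold ex
  rw [if_pos ⟨ftR_pos, ftR_lt hk hj hjR hq⟩, isLeft_ftR hj hjR hq, fj_ftR hj hjR hq,
    fq_ftR hj hjR hq]
  simp

theorem ex_le_two (f : ℕ) : ex N K r f ≤ 2 := by
  unfold ex
  split_ifs <;> omega

/-! ### owners -/

theorem ownU_zero : (KU N K r).own 0 = none := by simp [KU]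

theorem ownU_last (h : F N K r ≤ f + 1) : (KU N K r).own f = none := by simp [KU, h]

theorem ownL_zero : (KL N K r).own 0 = none := by simp [KL]

theorem ownL_last (h : F N K r ≤ f + 1) : (KL N K r).own f = none := by simp [KL, h]

theorem ownU_ftL (hk : k ≤ K) (hj : 1 ≤ j) (hjR : j ≤ R N r) (hq : q < 4) :
    (KU N K r).own (ftL N r k j q) =
      if k = 0 then none
      else if isX r j && q == 3 then (if iL r j < N then some (k, iL r j + 1) else none)
      else some (k, iL r j) := by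
  have h1 : ¬ (ftL N r k j q = 0 ∨ F N K r ≤ ftL N r k j q + 1) := by
    have := kmul_le (N := N) (r := r) hk
    rw [F_eq]; unfold ftL; omega
  simp only [KU]
  rw [if_neg h1, isLeft_ftL hj hjR hq, fj_ftL hj hjR hq, fq_ftL hj hjR hq, fk_ftL hj hjR hq]
  simp

theorem ownU_ftR (hk : k ≤ K) (hj : 1 ≤ j) (hjR : j ≤ R N r) (hq : q < 4) :
    (KU N K r).own (ftR N r k j q) =
      if k = K then none else if iR r j ≤ N then some (k + 1, iR r j) else none := by
  simp only [KU]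
  by_cases h1 : ftR N r k j q = 0 ∨ F N K r ≤ ftR N r k j q + 1
  · rw [if_pos h1, if_pos]
    by_contra hkK
    have := kmul_lt (N := N) (r := r) (lt_of_le_of_ne hk hkK)
    rw [F_eq] at h1; unfold ftR at h1; omega
  · rw [if_neg h1, isLeft_ftR hj hjR hq, fj_ftR hj hjR hq, fk_ftR hj hjR hq]
    simp

theorem ownL_ftL (hk : k ≤ K) (hj : 1 ≤ j) (hjR : j ≤ R N r) (hq : q < 4) :
    (KL N K r).own (ftL N r k j q) = some (k, j) := by
  have h1 : ¬ (ftL N r k j q = 0 ∨ F N K r ≤ ftL N r k j q + 1) := by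
    have := kmul_le (N := N) (r := r) hk
    rw [F_eq]; unfold ftL; omega
  simp only [KL]
  rw [if_neg h1, isLeft_ftL hj hjR hq, fj_ftL hj hjR hq, fk_ftL hj hjR hq]
  simp

theorem ownL_ftR (hk : k ≤ K) (hj : 1 ≤ j) (hjR : j ≤ R N r) (hq : q < 4) :
    (KL N K r).own (ftR N r k j q) =
      if q = 3 then (if 1 < j then some (k, j - 1) else none) else some (k, j) := by
  simp only [KL]
  by_cases h1 : ftR N r k j q = 0 ∨ F N K r ≤ ftR N r k j q + 1
  · have hk' : k = K := by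
      by_contra hkK
      have := kmul_lt (N := N) (r := r) (lt_of_le_of_ne hk hkK)
      rw [F_eq] at h1; unfold ftR at h1; omega
    subst hk'
    have h2 : q = 3 ∧ j = 1 := by
      rw [F_eq] at h1; unfold ftR at h1; omega
    rw [if_pos h1, if_pos h2.1, if_neg (by omega)]
  · rw [if_neg h1, isLeft_ftR hj hjR hq, fj_ftR hj hjR hq, fk_ftR hj hjR hq, fq_ftR hj hjR hq]
    simp

end Inst

end Pool.Agent.TRI
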