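import Pool.Agent.TRI.E1_Idx

/-!
Area E1: more index lemmas (for the area E2).
-/

namespace Pool.Agent.TRI

namespace Inst

open Finset

variable {N K r : ℕ}

theorem R_ge (hN : 1 ≤ N) (hr : 1 ≤ r) : 4 ≤ R N r := by
  unfold R Bk
  calc 4 ≤ 1 * (2 * r + 2) := by omega
    _ ≤ N * (2 * r + 2) := Nat.mul_le_mul_right _ hN

theorem ftL_spec {k j q : ℕ} (hj : 1 ≤ j) (hj' : j ≤ R N r) (hq : q < 4) :
    fk N r (ftL N r k j q) = k ∧ isLeft N r (ftL N r k j q) = true ∧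
      fj N r (ftL N r k j q) = j ∧ fq N r (ftL N r k j q) = q :=
  ⟨fk_ftL hj hj' hq, isLeft_ftL hj hj' hq, fj_ftL hj hj' hq, fq_ftL hj hj' hq⟩

theorem ftR_spec {k j q : ℕ} (hj : 1 ≤ j) (hj' : j ≤ R N r) (hq : q < 4) :
    fk N r (ftR N r k j q) = k ∧ isLeft N r (ftR N r k j q) = false ∧
      fj N r (ftR N r k j q) = j ∧ fq N r (ftR N r k j q) = q :=
  ⟨fk_ftR hj hj' hq, isLeft_ftR hj hj' hq, fj_ftR hj hj' hq, fq_ftR hj hj' hq⟩

theorem ftL_range {k j q : ℕ} (hk : k ≤ K) (hj : 1 ≤ j) (hj' : j ≤ R N r) (hq : q < 4) :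
    1 ≤ ftL N r k j q ∧ ftL N r k j q < F N K r :=
  ⟨ftL_pos, ftL_lt hk hj hj' hq⟩

theorem ftR_range {k j q : ℕ} (hk : k ≤ K) (hj : 1 ≤ j) (hj' : j ≤ R N r) (hq : q < 4) :
    1 ≤ ftR N r k j q ∧ ftR N r k j q < F N K r :=
  ⟨ftR_pos, ftR_lt hk hj hj' hq⟩

theorem foot_cases {f : ℕ} (h1 : 1 ≤ f) (h2 : f < F N K r) :
    ∃ k j q, k ≤ K ∧ 1 ≤ j ∧ j ≤ R N r ∧ q < 4 ∧ (f = ftL N r k j q ∨ f = ftR N r k j q) :=
  exists_rep h1 h2

theorem iL_bd {j : ℕ} (hj : 1 ≤ j) (hj' : j ≤ R N r) : 1 ≤ iL r j ∧ iL r j ≤ N :=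
  ⟨iL_pos, iL_le hj hj'⟩

theorem iR_bd {j : ℕ} : iL r j ≤ iR r j ∧ iR r j ≤ iL r j + 1 := by
  unfold iR
  split_ifs <;> omega

theorem iL_mono {j j2 : ℕ} (h : j ≤ j2) : iL r j ≤ iL r j2 := by
  unfold iL
  have : (j - 1) / Bk r ≤ (j2 - 1) / Bk r := Nat.div_le_div_right (by omega)
  omega

theorem iR_eq {j : ℕ} (hj : 1 ≤ j) : iR r j = (j + r) / Bk r + 1 := by
  have hB : 0 < Bk r := Bk_pos
  have hd := Nat.div_add_mod (j - 1) (Bk r)
  have hm := Nat.mod_lt (j - 1) hB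
  unfold iR rho iL
  generalize (j - 1) / Bk r = m at hd
  generalize (j - 1) % Bk r = p at hd hm
  have e : j + r = (p + 1 + r) + Bk r * m := by omega
  rw [e, Nat.add_mul_div_left _ _ hB]
  split_ifs with h
  · rw [Nat.div_eq_of_lt (by unfold Bk; omega)]; omega
  · have e2 : p + 1 + r = (p + 1 + r - Bk r) + Bk r * 1 := by unfold Bk; omega
    rw [e2, Nat.add_mul_div_left _ _ hB, Nat.div_eq_of_lt (by unfold Bk at *; omega)]
    omega

theorem iR_mono {j j2 : ℕ} (h : j ≤ j2) : iR r j ≤ iR r j2 := by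
  rcases Nat.eq_zero_or_pos j with rfl | hj
  · have h0 : iR r 0 = 1 := by
      unfold iR rho iL
      simp
    rw [h0]; exact iR_pos
  · rw [iR_eq hj, iR_eq (by omega)]
    have : (j + r) / Bk r ≤ (j2 + r) / Bk r := Nat.div_le_div_right (by omega)
    omega

theorem R_arc (hN : 1 ≤ N) : R N r = (N - 1) * Bk r + Bk r := by
  unfold R; exact bmul_pred hN

theorem iL_R (hN : 1 ≤ N) : iL r (R N r) = N := by
  rw [R_arc hN, iL_arc hN (Bk_pos) le_rfl]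

theorem iR_R (hN : 1 ≤ N) : iR r (R N r) = N + 1 := by
  rw [R_arc hN, iR_arc hN (Bk_pos) le_rfl, if_neg (by unfold Bk; omega)]

theorem iL_one : iL r 1 = 1 := by
  unfold iL; simp

theorem iR_one : iR r 1 = 1 := by
  unfold iR rho iL; simp

theorem spin_iR {k j : ℕ} (hj : 1 ≤ j) (hj' : j ≤ R N r) (h : isSpin N K r k j = true) :
    iR r j ≤ N := by
  have h1 := iL_le hj hj'
  rcases (isSpin_iff.1 h).2 with h | h
  · unfold iR; rw [if_pos (by omega)]; exact h1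
  · unfold iR; split_ifs <;> omega

theorem win_cases {w : ℕ} (hw : w ∈ win N K r) :
    ∃ k j, 1 ≤ k ∧ k + 1 ≤ K ∧ 1 ≤ j ∧ j ≤ R N r ∧ isSpin N K r k j = true ∧ iR r j ≤ N ∧
      ((w = ftL N r k j 2 ∧ (KU N K r).own w = some (k, iL r j) ∧
          (KL N K r).own w = some (k, j)) ∨
        (w = ftR N r k j 0 ∧ (KU N K r).own w = some (k + 1, iR r j) ∧
          (KL N K r).own w = some (k, j))) := by
  obtain ⟨k, j, hj, hjR, hs, h⟩ := mem_win.1 hw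
  have hk := (isSpin_iff.1 hs).1
  have hR := spin_iR hj hjR hs
  refine ⟨k, j, hk.1, hk.2, hj, hjR, hs, hR, ?_⟩
  rcases h with rfl | rfl
  · left
    refine ⟨rfl, ?_, ownL_ftL (by omega) hj hjR (by omega)⟩
    rw [ownU_ftL (by omega) hj hjR (by omega), if_neg (by omega)]
    simp
  · right
    refine ⟨rfl, ?_, ?_⟩
    · rw [ownU_ftR (by omega) hj hjR (by omega), if_neg (by omega), if_pos hR]
    · rw [ownL_ftR (by omega) hj hjR (by omega), if_neg (by omega)]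

end Inst

end Pool.Agent.TRI
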