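import Pool.Agent.TRI.Inst

/-!
Area E2: slopes of points on a common fan; injectivity of crossings.
-/

namespace Pool.Agent.TRI

namespace Inst

/-- S1: two points on the fan of the same base point.
Hint: unfold, `field_simp`, `ring`; the denominator is `(e' - e) * O.2`. -/
theorem sl_toward_same {O : Pt} {t t' e e' : ℝ} (hO : O.2 ≠ 0) (he : e ≠ e') :
    sl (toward O t e) (toward O t' e') = t' + (1 - e') * e * (t' - t) / (e' - e) := by
  have h1 : e' - e ≠ 0 := sub_ne_zero.2 he.symm
  have h2 : (1 - e) * O.2 - (1 - e') * O.2 ≠ 0 := by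
    have : (1 - e) * O.2 - (1 - e') * O.2 = (e' - e) * O.2 := by ring
    rw [this]
    exact mul_ne_zero h1 hO
  unfold sl toward
  simp only
  rw [div_eq_iff h2]
  field_simp
  ring

/-- S2: the error of S1 is small. Hint: `|(1 - e') * e * (t' - t)| ≤ e * Rg` and
`e' - e ≥ e' / 2`, `e * Rg ≤ m * e' / 2 `. -/
theorem sl_toward_same_bd {O : Pt} {t t' e e' Rg m : ℝ} (hO : O.2 ≠ 0) (he : 0 ≤ e)
    (he' : 0 < e') (he1 : e' ≤ 1) (hee : 2 * e ≤ e') (ht : 0 ≤ t) (htR : t ≤ Rg) (ht' : 0 ≤ t')
    (htR' : t' ≤ Rg) (hm : 2 * (e * Rg) < m * e') :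
    |sl (toward O t e) (toward O t' e') - t'| < m := by
  have hne : e ≠ e' := by
    intro h
    rw [h] at hee
    linarith
  have hpos : 0 < e' - e := by linarith
  rw [sl_toward_same hO hne, add_sub_cancel_left, abs_div, abs_of_pos hpos, div_lt_iff₀ hpos]
  have h1 : |t' - t| ≤ Rg := by
    rw [abs_le]
    constructor <;> linarith
  have h2 : |(1 - e') * e * (t' - t)| ≤ e * Rg := by
    rw [abs_mul, abs_mul, abs_of_nonneg (by linarith : 0 ≤ 1 - e'), abs_of_nonneg he]
    have h3 : (1 - e') * e ≤ e := by nlinarith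
    exact mul_le_mul h3 h1 (abs_nonneg _) he
  have hRg : 0 ≤ Rg := ht.trans htR
  have hm0 : 0 < m := by
    by_contra hcon
    rw [not_lt] at hcon
    have h4 : m * e' ≤ 0 := mul_nonpos_of_nonpos_of_nonneg hcon he'.le
    have h5 : 0 ≤ e * Rg := mul_nonneg he hRg
    linarith
  have h6 : m * (e' - e) ≥ m * e' / 2 := by nlinarith
  linarith

/-- S10: for a fixed lower point `l` the crossing determines the parameter `e` unless it is the
target `t`. Proof: `c = cr p l ↔ (p.1 - c) * l.2 + (l.1 - c) * p.2 = 0`, affine in `e`, zero for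
`e` and `e₂`, hence for `e = 1`: `(t - c) * l.2 = 0`. -/
theorem cr_inj_line {O l : Pt} {t e e₂ : ℝ} (hO : 0 < O.2) (hl : 0 < l.2) (he : e < 1)
    (he2 : e₂ < 1) (hne : e ≠ e₂) (h : cr (toward O t e) l = cr (toward O t e₂) l) :
    cr (toward O t e) l = t := by
  have key : ∀ {d : ℝ}, d < 1 → (1 - d) * ((O.1 - cr (toward O t d) l) * l.2 +
      (l.1 - cr (toward O t d) l) * O.2) + d * ((t - cr (toward O t d) l) * l.2) = 0 := by
    intro d hd
    have h1 : 0 < (1 - d) * O.2 + l.2 := by
      have := mul_pos (by linarith : (0 : ℝ) < 1 - d) hO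
      linarith
    have h2 : cr (toward O t d) l * ((1 - d) * O.2 + l.2) =
        ((1 - d) * O.1 + d * t) * l.2 + l.1 * ((1 - d) * O.2) := by
      unfold cr toward
      simp only
      rw [div_mul_cancel₀ _ h1.ne']
    linarith
  have k1 := key he
  have k2 := key he2
  rw [← h] at k2
  set c := cr (toward O t e) l with hc
  have h3 : (e₂ - e) * (((O.1 - c) * l.2 + (l.1 - c) * O.2) - (t - c) * l.2) = 0 := by
    linarith
  have h4 : ((O.1 - c) * l.2 + (l.1 - c) * O.2) - (t - c) * l.2 = 0 := by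
    rcases mul_eq_zero.1 h3 with h5 | h5
    · exact absurd (sub_eq_zero.1 h5).symm hne
    · exact h5
  have h5 : (t - c) * l.2 = 0 := by
    have h6 : (O.1 - c) * l.2 + (l.1 - c) * O.2 = (t - c) * l.2 := by linarith
    rw [h6] at k1
    linarith
  rcases mul_eq_zero.1 h5 with h6 | h6
  · linarith
  · exact absurd h6 hl.ne'

end Inst

end Pool.Agent.TRI
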