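import Pool.Agent.TRI.Inst

/-!
Area E2: slope of a high point and a low point.
-/

namespace Pool.Agent.TRI

namespace Inst

/-- S3: slope of a high point `p = toward O' t' e'` and a low point `w = toward O t e`:
`|sl p w - O.1| < m`. Proof:
`sl p w - C = ((w.1 - C) * p.2 - (p.1 - C) * w.2) / (p.2 - w.2)`, `w.1 - C = e (t - C)`,
`p.1 - C = (1 - e') (C' - C) + e' (t' - C)`; with `w.2 ≤ O.2 ≤ O'.2 / 4`, `p.2 ≥ O'.2 * (3/4)`
(hence `p.2 - w.2 ≥ p.2 / 2`, `w.2 ≤ p.2 / 3`), the absolute value is at most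
`2 * (e * Rg + (w.2 / p.2) * (|C' - C| + e' * Rg)) `, and
`(w.2 / p.2) |C' - C| ≤ (4 / 3) (O.2 / O'.2) |C' - C| ≤ m / 3`. -/
theorem sl_home {O O' : Pt} {t t' e e' Rg m : ℝ} (hO : 0 < O.2) (hOO : 4 * O.2 ≤ O'.2)
    (he : 0 ≤ e) (he4 : e ≤ 1 / 4) (he' : 0 ≤ e') (he4' : e' ≤ 1 / 4)
    (ht : 0 ≤ t) (htR : t ≤ Rg) (ht' : 0 ≤ t') (htR' : t' ≤ Rg)
    (hC : 0 ≤ O.1) (hCR : O.1 ≤ Rg) (hm : 0 < m) (hC4 : 4 * |O'.1 - O.1| * O.2 ≤ m * O'.2)
    (hem : 32 * (e * Rg) ≤ m) (hem' : 32 * (e' * Rg) ≤ m) :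
    (toward O t e).2 < (toward O' t' e').2 ∧
      |sl (toward O' t' e') (toward O t e) - O.1| < m := by
  have hu0 : 0 < (1 - e) * O.2 := mul_pos (by linarith) hO
  have hu : (1 - e) * O.2 ≤ O.2 := by nlinarith
  have hO'0 : 0 < O'.2 := by linarith
  have hp : 3 / 4 * O'.2 ≤ (1 - e') * O'.2 := mul_le_mul_of_nonneg_right (by linarith) hO'0.le
  have hlt : (1 - e) * O.2 < (1 - e') * O'.2 := by linarith
  refine ⟨hlt, ?_⟩
  have hd : 0 < (1 - e') * O'.2 - (1 - e) * O.2 := by linarith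
  have hR : 0 ≤ Rg := ht.trans htR
  have hA : |e * (t - O.1)| ≤ e * Rg := by
    rw [abs_mul, abs_of_nonneg he]
    exact mul_le_mul_of_nonneg_left (abs_le.2 ⟨by linarith, by linarith⟩) he
  have hB : |(1 - e') * (O'.1 - O.1) + e' * (t' - O.1)| ≤ |O'.1 - O.1| + e' * Rg := by
    refine (abs_add_le _ _).trans (add_le_add ?_ ?_)
    · rw [abs_mul, abs_of_nonneg (by linarith : (0 : ℝ) ≤ 1 - e')]
      exact mul_le_of_le_one_left (abs_nonneg _) (by linarith)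
    · rw [abs_mul, abs_of_nonneg he']
      exact mul_le_mul_of_nonneg_left (abs_le.2 ⟨by linarith, by linarith⟩) he'
  have hC0 := abs_nonneg (O'.1 - O.1)
  have hsl : sl (toward O' t' e') (toward O t e) - O.1 =
      (e * (t - O.1) * ((1 - e') * O'.2) -
        ((1 - e') * (O'.1 - O.1) + e' * (t' - O.1)) * ((1 - e) * O.2)) /
        ((1 - e') * O'.2 - (1 - e) * O.2) := by
    unfold sl toward
    rw [eq_div_iff hd.ne', sub_mul, div_mul_cancel₀ _ hd.ne']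
    ring
  rw [hsl, abs_div, abs_of_pos hd, div_lt_iff₀ hd]
  generalize e * (t - O.1) = A at hA
  generalize (1 - e') * (O'.1 - O.1) + e' * (t' - O.1) = B at hB
  generalize |O'.1 - O.1| = c at hB hC0 hC4
  generalize (1 - e) * O.2 = u at *
  generalize (1 - e') * O'.2 = p at *
  have h1 : |A * p - B * u| ≤ |A| * p + |B| * u := by
    refine (abs_sub _ _).trans ?_
    rw [abs_mul, abs_mul, abs_of_pos hu0, abs_of_pos (hu0.trans hlt)]
  have hp0 : 0 < p := hu0.trans hlt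
  have h2 : |A| * p ≤ m / 32 * p := mul_le_mul_of_nonneg_right (by linarith) hp0.le
  have h3 : |B| * u ≤ (c + m / 32) * u := mul_le_mul_of_nonneg_right (by linarith) hu0.le
  have h4 : c * u ≤ c * O.2 := mul_le_mul_of_nonneg_left hu hC0
  have h5 : m * (3 / 4 * O'.2) ≤ m * p := mul_le_mul_of_nonneg_left hp hm.le
  have h6 : m * u ≤ m * (p / 3) := mul_le_mul_of_nonneg_left (by linarith) hm.le
  have h7 : 0 < m * p := mul_pos hm hp0
  nlinarith

/-- S4: heights of points on fans of bases with ratio of heights at least 4 -/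
theorem toward_lt {O O' : Pt} {t t' e e' : ℝ} (hO : 0 < O.2) (hOO : 4 * O.2 ≤ O'.2)
    (he : 0 ≤ e) (he4' : e' ≤ 1 / 4) :
    (toward O t e).2 < (toward O' t' e').2 := by
  have hu : (1 - e) * O.2 ≤ O.2 := by nlinarith
  have hO'0 : 0 < O'.2 := by linarith
  have hp : 3 / 4 * O'.2 ≤ (1 - e') * O'.2 := mul_le_mul_of_nonneg_right (by linarith) hO'0.le
  change (1 - e) * O.2 < (1 - e') * O'.2
  linarith

end Inst

end Pool.Agent.TRI
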