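import Pool.Agent.TRI.Inst

/-!
Area E2: slope of two points of nearly the same height.
-/

namespace Pool.Agent.TRI

namespace Inst

/-- S5: base points of the same height, different stacks: the slope is outside `[0, Rg]`.
Proof: `p = toward O' t' e'` (higher, so `e' < e`), `w = toward O t e`,
`sl p w = ((1 - e') w.1 - (1 - e) p.1) / (e - e')` and the absolute value of the numerator is at
least `2 - 4 ε Rg ≥ 3 / 2`, `0 < e - e' ≤ ε`, `Rg < 1 / ε`. -/
theorem sl_far {O O' : Pt} {t t' e e' ε Rg : ℝ} (hO : 0 < O.2) (hOO : O.2 = O'.2)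
    (hCC : 2 ≤ |O'.1 - O.1|) (he : 0 ≤ e) (heε : e ≤ ε) (he' : 0 ≤ e') (heε' : e' ≤ ε)
    (hε1 : ε ≤ 1) (hRg : 0 < Rg)
    (ht : 0 ≤ t) (htR : t ≤ Rg) (ht' : 0 ≤ t') (htR' : t' ≤ Rg)
    (hC : 0 ≤ O.1) (hCR : O.1 ≤ Rg) (hC' : 0 ≤ O'.1) (hCR' : O'.1 ≤ Rg)
    (hε : 8 * (ε * Rg) ≤ 1) (hlt : (toward O t e).2 < (toward O' t' e').2) :
    sl (toward O' t' e') (toward O t e) < 0 ∨ Rg < sl (toward O' t' e') (toward O t e) := by
  have hRε : ε * Rg ≤ 1 / 8 := by linarith
  have hε0 : 0 ≤ ε := he.trans heε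
  -- heights
  have hO2 : 0 < O'.2 := by rw [← hOO]; exact hO
  have hee : 0 < e - e' := by
    have h1 : (1 - e) * O.2 < (1 - e') * O'.2 := hlt
    rw [← hOO] at h1
    have h2 : 1 - e < 1 - e' := lt_of_mul_lt_mul_right h1 hO.le
    linarith
  have hee' : e - e' ≤ ε := by linarith
  have hEq : sl (toward O' t' e') (toward O t e) * (e - e') =
      (1 - e') * ((1 - e) * O.1 + e * t) - (1 - e) * ((1 - e') * O'.1 + e' * t') := by
    have h3 : (1 - e') * O'.2 - (1 - e) * O.2 ≠ 0 := by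
      have : (1 - e') * O'.2 - (1 - e) * O.2 = (e - e') * O.2 := by rw [← hOO]; ring
      rw [this]
      exact (mul_pos hee hO).ne'
    have h4 : sl (toward O' t' e') (toward O t e) * ((1 - e') * O'.2 - (1 - e) * O.2) =
        ((1 - e) * O.1 + e * t) * ((1 - e') * O'.2) -
          ((1 - e') * O'.1 + e' * t') * ((1 - e) * O.2) := by
      unfold sl toward
      simp only
      rw [div_mul_cancel₀ _ h3]
    rw [← hOO] at h4
    have h5 : O.2 * (sl (toward O' t' e') (toward O t e) * (e - e')) =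
        O.2 * ((1 - e') * ((1 - e) * O.1 + e * t) - (1 - e) * ((1 - e') * O'.1 + e' * t')) := by
      linarith
    exact mul_left_cancel₀ hO.ne' h5
  set sv := sl (toward O' t' e') (toward O t e) with hsv
  set N := (1 - e') * ((1 - e) * O.1 + e * t) - (1 - e) * ((1 - e') * O'.1 + e' * t') with hN
  -- the numerator is `(O.1 - O'.1)` up to a small error
  have hN2 : |N - (O.1 - O'.1)| ≤ 1 / 2 := by
    have b1 : 0 ≤ e * Rg := mul_nonneg he hRg.le
    have b2 : 0 ≤ e' * Rg := mul_nonneg he' hRg.le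
    have b3 : e * Rg ≤ ε * Rg := mul_le_mul_of_nonneg_right heε hRg.le
    have b4 : e' * Rg ≤ ε * Rg := mul_le_mul_of_nonneg_right heε' hRg.le
    have he1 : e ≤ 1 := heε.trans hε1
    have he1' : e' ≤ 1 := heε'.trans hε1
    have hform : N - (O.1 - O'.1) = (-(e + e' - e * e')) * O.1 + (e + e' - e * e') * O'.1 +
        (1 - e') * (e * t) - (1 - e) * (e' * t') := by
      rw [hN]; ring
    have hs0 : 0 ≤ e + e' - e * e' := by nlinarith
    have hs1 : e + e' - e * e' ≤ e + e' := by nlinarith [mul_nonneg he he']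
    have c1 : 0 ≤ (e + e' - e * e') * O.1 := mul_nonneg hs0 hC
    have c2 : (e + e' - e * e') * O.1 ≤ (e + e') * Rg :=
      mul_le_mul hs1 hCR hC (by linarith)
    have c3 : 0 ≤ (e + e' - e * e') * O'.1 := mul_nonneg hs0 hC'
    have c4 : (e + e' - e * e') * O'.1 ≤ (e + e') * Rg :=
      mul_le_mul hs1 hCR' hC' (by linarith)
    have d1 : 0 ≤ e * t := mul_nonneg he ht
    have d2 : e * t ≤ e * Rg := mul_le_mul_of_nonneg_left htR he
    have d3 : 0 ≤ e' * t' := mul_nonneg he' ht'
    have d4 : e' * t' ≤ e' * Rg := mul_le_mul_of_nonneg_left htR' he'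
    have f1 : 0 ≤ (1 - e') * (e * t) := mul_nonneg (by linarith) d1
    have f2 : (1 - e') * (e * t) ≤ e * Rg := by nlinarith
    have f3 : 0 ≤ (1 - e) * (e' * t') := mul_nonneg (by linarith) d3
    have f4 : (1 - e) * (e' * t') ≤ e' * Rg := by nlinarith
    rw [hform, abs_le]
    constructor
    · nlinarith
    · nlinarith
  have hsmall : (e - e') * Rg ≤ 1 / 8 := by
    have := mul_le_mul_of_nonneg_right hee' hRg.le
    linarith
  rw [abs_le] at hN2
  rcases le_abs.1 hCC with h | h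
  · -- `O'` is on the right of `O`: negative numerator
    left
    by_contra hcon
    rw [not_lt] at hcon
    have := mul_nonneg hcon hee.le
    linarith [hN2.2]
  · right
    by_contra hcon
    rw [not_lt] at hcon
    have : sv * (e - e') ≤ Rg * (e - e') := mul_le_mul_of_nonneg_right hcon hee.le
    linarith [hN2.1]

end Inst

end Pool.Agent.TRI
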