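import Pool.Agent.TRI.Inst

/-!
Area E2: crossings.
-/

namespace Pool.Agent.TRI

namespace Inst

/-- S6: exact formula for crossings: `O` is above, `O'` is the mirrored lower point. -/
theorem cr_toward {O O' : Pt} {t t' e e' : ℝ} (hO : 0 < O.2) (hO' : 0 < O'.2) (he : e < 1)
    (he' : e' < 1) :
    cr (toward O t e) (toward O' t' e') - cr O O' =
      (e * (1 - e') * O'.2 * (t - cr O O') + e' * (1 - e) * O.2 * (t' - cr O O')) /
        ((1 - e) * O.2 + (1 - e') * O'.2) := by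
  have h1 : 0 < (1 - e) * O.2 := mul_pos (by linarith) hO
  have h2 : 0 < (1 - e') * O'.2 := mul_pos (by linarith) hO'
  have hd : (1 - e) * O.2 + (1 - e') * O'.2 ≠ 0 := (add_pos h1 h2).ne'
  have hX : cr O O' * (O.2 + O'.2) = O.1 * O'.2 + O'.1 * O.2 := by
    unfold cr
    rw [div_mul_cancel₀ _ (add_pos hO hO').ne']
  generalize cr O O' = X at *
  unfold cr toward
  rw [eq_div_iff hd, sub_mul, div_mul_cancel₀ _ hd]
  linear_combination (-(1 - e) * (1 - e')) * hX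

/-- S7: upper bound from S6 -/
theorem cr_toward_bd {O O' : Pt} {t t' e e' Rg : ℝ} (hO : 0 < O.2) (hO' : 0 < O'.2)
    (he0 : 0 ≤ e) (he0' : 0 ≤ e') (he : e < 1) (he' : e' < 1)
    (ht : |t - cr O O'| ≤ Rg) (ht' : |t' - cr O O'| ≤ Rg) :
    |cr (toward O t e) (toward O' t' e') - cr O O'| ≤ (e + e') * Rg := by
  have h1 : 0 < (1 - e) * O.2 := mul_pos (by linarith) hO
  have h2 : 0 < (1 - e') * O'.2 := mul_pos (by linarith) hO'
  have hR : 0 ≤ Rg := (abs_nonneg _).trans ht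
  rw [cr_toward hO hO' he he', abs_div, abs_of_pos (add_pos h1 h2), div_le_iff₀ (add_pos h1 h2)]
  refine (abs_add_le _ _).trans ?_
  have h3 : |e * (1 - e') * O'.2 * (t - cr O O')| ≤ e * ((1 - e') * O'.2) * Rg := by
    rw [abs_mul, mul_assoc e, abs_of_nonneg (mul_nonneg he0 h2.le)]
    exact mul_le_mul_of_nonneg_left ht (mul_nonneg he0 h2.le)
  have h4 : |e' * (1 - e) * O.2 * (t' - cr O O')| ≤ e' * ((1 - e) * O.2) * Rg := by
    rw [abs_mul, mul_assoc e', abs_of_nonneg (mul_nonneg he0' h1.le)]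
    exact mul_le_mul_of_nonneg_left ht' (mul_nonneg he0' h1.le)
  have h5 : 0 ≤ e' * ((1 - e') * O'.2) * Rg := mul_nonneg (mul_nonneg he0' h2.le) hR
  have h6 : 0 ≤ e * ((1 - e) * O.2) * Rg := mul_nonneg (mul_nonneg he0 h1.le) hR
  nlinarith

/-- S8: lower bound from S6 (the `e`-term dominates): with `b ≤ O.2, O'.2`, `b * O.2 ≤ 1`,
`b * O'.2 ≤ 1`, `d ≤ |t - X|`:
numerator: `e (1 - e') O'.2 |t - X| ≥ e / 2 * b * d`, denominator `≤ 2 / b`; the second term of the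
numerator divided by the denominator is at most `e' * Rg`. -/
theorem cr_toward_lb {O O' : Pt} {t t' e e' Rg b d : ℝ} (hb : 0 < b) (hO : b ≤ O.2)
    (hO' : b ≤ O'.2) (hOb : b * O.2 ≤ 1) (hOb' : b * O'.2 ≤ 1)
    (he0 : 0 ≤ e) (he0' : 0 ≤ e') (he : e ≤ 1 / 2) (he' : e' ≤ 1 / 2) (hd : 0 ≤ d)
    (ht : d ≤ |t - cr O O'|) (ht' : |t' - cr O O'| ≤ Rg) :
    e * b ^ 2 * d / 4 - e' * Rg ≤ |cr (toward O t e) (toward O' t' e') - cr O O'| := by
  have hO0 : 0 < O.2 := hb.trans_le hO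
  have hO0' : 0 < O'.2 := hb.trans_le hO'
  have h1 : 0 < (1 - e) * O.2 := mul_pos (by linarith) hO0
  have h2 : 0 < (1 - e') * O'.2 := mul_pos (by linarith) hO0'
  have hR : 0 ≤ Rg := (abs_nonneg _).trans ht'
  rw [cr_toward hO0 hO0' (by linarith) (by linarith), abs_div, abs_of_pos (add_pos h1 h2),
    le_div_iff₀ (add_pos h1 h2)]
  have h3 : e * ((1 - e') * O'.2) * d ≤ |e * (1 - e') * O'.2 * (t - cr O O')| := by
    rw [abs_mul, mul_assoc e (1 - e') O'.2, abs_of_nonneg (mul_nonneg he0 h2.le)]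
    exact mul_le_mul_of_nonneg_left ht (mul_nonneg he0 h2.le)
  have h4 : |e' * (1 - e) * O.2 * (t' - cr O O')| ≤ e' * ((1 - e) * O.2) * Rg := by
    rw [abs_mul, mul_assoc e', abs_of_nonneg (mul_nonneg he0' h1.le)]
    exact mul_le_mul_of_nonneg_left ht' (mul_nonneg he0' h1.le)
  have h5 : |e * (1 - e') * O'.2 * (t - cr O O')| - |e' * (1 - e) * O.2 * (t' - cr O O')| ≤
      |e * (1 - e') * O'.2 * (t - cr O O') + e' * (1 - e) * O.2 * (t' - cr O O')| := by
    have := abs_sub_abs_le_abs_sub (e * (1 - e') * O'.2 * (t - cr O O'))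
      (-(e' * (1 - e) * O.2 * (t' - cr O O')))
    rwa [abs_neg, sub_neg_eq_add] at this
  have h6 : b * ((1 - e) * O.2 + (1 - e') * O'.2) ≤ 2 := by
    have h7 : b * ((1 - e) * O.2) ≤ 1 := by
      have : (1 - e) * (b * O.2) ≤ b * O.2 :=
        mul_le_of_le_one_left (mul_pos hb hO0).le (by linarith)
      nlinarith
    have h8 : b * ((1 - e') * O'.2) ≤ 1 := by
      have : (1 - e') * (b * O'.2) ≤ b * O'.2 :=
        mul_le_of_le_one_left (mul_pos hb hO0').le (by linarith)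
      nlinarith
    linarith
  have h9 : b / 2 ≤ (1 - e') * O'.2 := by
    have : 1 / 2 * b ≤ (1 - e') * O'.2 := mul_le_mul (by linarith) hO' hb.le (by linarith)
    linarith
  have h10 : e * d * (b / 2) ≤ e * d * ((1 - e') * O'.2) :=
    mul_le_mul_of_nonneg_left h9 (mul_nonneg he0 hd)
  have h11 : e * d * b / 4 * (b * ((1 - e) * O.2 + (1 - e') * O'.2)) ≤ e * d * b / 4 * 2 :=
    mul_le_mul_of_nonneg_left h6 (by positivity)
  have h12 : 0 ≤ e' * ((1 - e') * O'.2) * Rg := mul_nonneg (mul_nonneg he0' h2.le) hR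
  nlinarith

/-- S9: the same with the roles of the two sides exchanged (use `cr` symmetric). -/
theorem cr_toward_lb' {O O' : Pt} {t t' e e' Rg b d : ℝ} (hb : 0 < b) (hO : b ≤ O.2)
    (hO' : b ≤ O'.2) (hOb : b * O.2 ≤ 1) (hOb' : b * O'.2 ≤ 1)
    (he0 : 0 ≤ e) (he0' : 0 ≤ e') (he : e ≤ 1 / 2) (he' : e' ≤ 1 / 2) (hd : 0 ≤ d)
    (ht : |t - cr O O'| ≤ Rg) (ht' : d ≤ |t' - cr O O'|) :
    e' * b ^ 2 * d / 4 - e * Rg ≤ |cr (toward O t e) (toward O' t' e') - cr O O'| := by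
  have hc : ∀ p q : Pt, cr p q = cr q p := by
    intro p q
    unfold cr
    rw [add_comm p.2 q.2, add_comm (p.1 * q.2)]
  rw [hc (toward O t e), hc O O']
  rw [hc O O'] at ht ht'
  exact cr_toward_lb hb hO' hO hOb' hOb he0' he0 he' he hd ht' ht

end Inst

end Pool.Agent.TRI
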