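import Pool.Agent.TRI.E2_PosD
import Pool.Agent.TRI.E2_SlA
import Pool.Agent.TRI.E2_SlB
import Pool.Agent.TRI.E2_SlC
import Pool.Agent.TRI.E2_SlD

/-!
Area E2: what the geometry needs to know about the base points, for both sides.
-/

namespace Pool.Agent.TRI

namespace Inst

variable {N K r : ℕ}

/-- properties of the base points of the clusters -/
structure BaseOK (N K r : ℕ) (Ks : Skel (Option (ℕ × ℕ))) (base : Option (ℕ × ℕ) → Pt) :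
    Prop where
  s3 : ∀ P ∈ Ks.nodes, Ks.s P ≤ 3
  x0 : ∀ P ∈ Ks.nodes, 0 ≤ (base P).1 ∧ (base P).1 ≤ 2 * K + 2
  y0 : ∀ P ∈ Ks.nodes, be N K r ≤ (base P).2 ∧ be N K r * (base P).2 ≤ 1
  rt : 1 ≤ (base Ks.rt).1 ∧ (base Ks.rt).1 + 1 ≤ 2 * K + 2
  hg : ∀ P ∈ Ks.nodes, P ≠ Ks.rt → Ks.a P ≤ Ks.hg P ∧ Ks.hg P < Ks.b P
  anc : ∀ P Q, Ks.Anc P Q → 4 * (base Q).2 ≤ (base P).2 ∧
    ∃ m, be N K r ≤ m ∧ x N K r (Ks.hg Q) + m ≤ (base Q).1 ∧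
      (base Q).1 + m ≤ x N K r (Ks.hg Q + 1) ∧
      4 * |(base P).1 - (base Q).1| * (base Q).2 ≤ m * (base P).2
  far : ∀ P ∈ Ks.nodes, ∀ Q ∈ Ks.nodes, P ≠ Q → ¬ Ks.Anc P Q →
    ((base P).2 = (base Q).2 ∧ Ks.dep P = Ks.dep Q ∧ 2 ≤ |(base P).1 - (base Q).1|) ∨
    (4 * (base Q).2 ≤ (base P).2 ∧ Ks.dep P < Ks.dep Q ∧
      4 * |(base P).1 - (base Q).1| * (base Q).2 ≤ (base P).2 ∧
      ((base Q).1 + 1 ≤ x N K r (Ks.a P) ∨ x N K r (Ks.b P) + 1 ≤ (base Q).1)) ∨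
    4 * (base P).2 ≤ (base Q).2

end Inst

end Pool.Agent.TRI
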