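import Pool.Agent.TRI.E2_BaseU
import Pool.Agent.TRI.E1_CombL

/-!
Area E2: base points of the lower side.
-/

namespace Pool.Agent.TRI

namespace Inst

variable {N K r : ℕ}

theorem BaseL_pw_W (K : ℕ) : 2048 * (2 * K + 2) * pw (W K) ≤ 1 := by
  have h1 := pw_mul_two (W K)
  have h2 := BaseU_two_pow_W K
  have h3 := pw_pos (W K)
  calc 2048 * (2 * K + 2) * pw (W K) ≤ 2 ^ W K * pw (W K) := mul_le_mul_of_nonneg_right h2 h3.le
    _ = 1 := by rw [mul_comm]; exact h1

theorem BaseL_ratio (K : ℕ) {j j' : ℕ} (h : j' < j) :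
    2048 * (2 * K + 2) * pw (W K * j) ≤ pw (W K * j') := by
  obtain ⟨d, rfl⟩ := Nat.exists_eq_add_of_lt h
  have e : W K * (j' + d + 1) = W K + W K * j' + W K * d := by ring
  rw [e, pw_add, pw_add]
  have h1 := BaseL_pw_W K
  have h2 : pw (W K * d) ≤ 1 := by
    have := pw_anti (Nat.zero_le (W K * d))
    simpa [pw] using this
  have h3 := pw_pos (W K * j')
  have h4 := pw_pos (W K * d)
  have h5 := pw_pos (W K)
  have h6 : (0 : ℝ) ≤ 2048 * (2 * K + 2) := by positivity
  calc 2048 * (2 * K + 2) * (pw (W K) * pw (W K * j') * pw (W K * d))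
      = (2048 * (2 * K + 2) * pw (W K)) * (pw (W K * j') * pw (W K * d)) := by ring
    _ ≤ 1 * (pw (W K * j') * pw (W K * d)) := by gcongr
    _ ≤ 1 * (pw (W K * j') * 1) := by gcongr
    _ = pw (W K * j') := by ring

theorem baseL_none : baseL N K r none = ((2, (2 : ℝ) ^ (W K * (N + R N r + 2))) : Pt) := rfl

theorem baseL_some (k j : ℕ) :
    baseL N K r (some (k, j)) = ((2 * (k : ℝ) + 1, pw (W K * j)) : Pt) := rfl

theorem BaseL_ab (hN : 1 ≤ N) (hK : 2 ≤ K) (hr : 1 ≤ r) {k j : ℕ} (hk : k ≤ K)
    (hj : 1 ≤ j) (hj' : j ≤ R N r) :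
    2 * (k : ℝ) + 1 - 1 / 4 ≤ x N K r ((KL N K r).a (some (k, j))) ∧
      x N K r ((KL N K r).b (some (k, j))) ≤ 2 * k + 1 + 1 / 2 := by
  have hD := De_pos (N := N) (K := K) (r := r)
  have hD2 := De_le (N := N) (K := K) (r := r)
  rw [aL, bL]
  constructor
  · have h1 := pos_ftL_bd hN hK hr (k := k) (j := j) (q := 0) hk hj hj' (by norm_num)
    have h2 := (x_bd (N := N) (K := K) (r := r) (f := ftL N r k j 0)).1
    linarith [h1.1]
  · have h1 := pos_ftR_bd hN hK hr (k := k) (j := j) (q := 3) hk hj hj' (by norm_num)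
    have h2 := (x_bd (N := N) (K := K) (r := r) (f := ftR N r k j 3)).2
    linarith [h1.2]

theorem BaseL_hg (hN : 1 ≤ N) (hK : 2 ≤ K) (hr : 1 ≤ r) {k j : ℕ} (hk : k ≤ K) :
    x N K r ((KL N K r).hg (some (k, j))) + 4 * De N K r ≤ 2 * k + 1 ∧
      2 * (k : ℝ) + 1 + 4 * De N K r ≤ x N K r ((KL N K r).hg (some (k, j)) + 1) := by
  have hR := R_ge (N := N) hN hr
  have hD := De_pos (N := N) (K := K) (r := r)
  have e0 : (KL N K r).hg (some (k, j)) = 8 * R N r * k + 4 * R N r := rfl
  have e1 : 8 * R N r * k + 4 * R N r = ftL N r k (R N r) 3 := by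
    rw [ftL_eq]; omega
  have e2 : 8 * R N r * k + 4 * R N r + 1 = ftR N r k (R N r) 0 := by
    rw [ftR_eq]; omega
  rw [e0]
  constructor
  · rw [e1]
    have h1 := pos_ftL_bd hN hK hr (k := k) (j := R N r) (q := 3) hk (by omega) le_rfl
      (by norm_num)
    have h2 := (x_bd (N := N) (K := K) (r := r) (f := ftL N r k (R N r) 3)).2
    linarith [h1.2]
  · rw [e2]
    have h1 := pos_ftR_bd hN hK hr (k := k) (j := R N r) (q := 0) hk (by omega) le_rfl
      (by norm_num)
    have h2 := (x_bd (N := N) (K := K) (r := r) (f := ftR N r k (R N r) 0)).1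
    linarith [h1.1]

/-- The lower side. -/
theorem baseOK_L (hN : 1 ≤ N) (hK : 2 ≤ K) (hr : 1 ≤ r) :
    BaseOK N K r (KL N K r) (baseL N K r) := by
  have hR := R_ge (N := N) hN hr
  have hK1 : (1 : ℝ) ≤ K := by exact_mod_cast (by omega : 1 ≤ K)
  have hKr : (2 : ℝ) * K + 2 ≥ 4 := by linarith
  have hbD := be_le_De (N := N) (K := K) (r := r)
  have hbp := be_pos (N := N) (K := K) (r := r)
  have hD := De_pos (N := N) (K := K) (r := r)
  have hW1 : W K * (N + R N r + 2) ≤ W K * (N + R N r + 4) := Nat.mul_le_mul_left _ (by omega)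
  have hbe1 : be N K r ≤ 1 := le_trans (be_le hN hK hr) (by norm_num)
  have hpw1 : ∀ n, pw n ≤ 1 := fun n => by
    have := pw_anti (Nat.zero_le n)
    simpa [pw] using this
  have h2n : (1 : ℝ) ≤ 2 ^ (W K * (N + R N r + 2)) := one_le_pow₀ (by norm_num)
  have hjb : ∀ j ≤ R N r, be N K r ≤ pw (W K * j) := fun j hj =>
    pw_anti (Nat.mul_le_mul_left _ (by omega))
  have h4pw : ∀ j, 1 ≤ j → 2048 * (2 * K + 2) * pw (W K * j) ≤ 1 := fun j hj => by
    have := BaseL_ratio K (j := j) (j' := 0) (by omega)
    rw [Nat.mul_zero] at this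
    linarith [hpw1 0]
  refine ⟨?_, ?_, ?_, ?_, ?_, ?_, ?_⟩
  · rintro (_ | ⟨k, j⟩) _
    · show 0 ≤ 3; omega
    · show (if isSpin N K r k j = true then 1 else 0) ≤ 3
      split_ifs <;> omega
  · rintro (_ | ⟨k, j⟩) hP
    · rw [baseL_none]; constructor <;> dsimp only <;> linarith
    · have h := memL.1 hP
      rw [baseL_some]
      have h2 : (k : ℝ) ≤ K := by exact_mod_cast h.1
      constructor
      · dsimp only; positivity
      · dsimp only; linarith
  · rintro (_ | ⟨k, j⟩) hP
    · rw [baseL_none]; exact BaseU_y0 hN hK hr hW1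
    · have h := memL.1 hP
      rw [baseL_some]
      refine ⟨hjb j h.2.2, ?_⟩
      dsimp only
      calc be N K r * pw (W K * j) ≤ 1 * 1 :=
            mul_le_mul hbe1 (hpw1 _) (pw_pos _).le (by norm_num)
        _ = 1 := by norm_num
  · show 1 ≤ (baseL N K r none).1 ∧ (baseL N K r none).1 + 1 ≤ 2 * K + 2
    rw [baseL_none]; constructor <;> dsimp only <;> linarith
  · rintro (_ | ⟨k, j⟩) hP hne
    · exact absurd rfl hne
    · have h := memL.1 hP
      have e0 : (KL N K r).hg (some (k, j)) = 8 * R N r * k + 4 * R N r := rfl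
      rw [aL, bL, e0, ftR_eq, ftL_eq]
      omega
  · rintro P (_ | ⟨k, j⟩) hPQ
    · exact absurd hPQ not_ancL_none
    · rcases P with _ | ⟨k', j'⟩
      · have h := ancL_none.1 hPQ
        have hh := BaseL_hg hN hK hr (j := j) h.1
        have hpos := pw_pos (W K * j)
        have h4 := h4pw j h.2.1
        rw [baseL_none, baseL_some]
        dsimp only
        have hk2 : (k : ℝ) ≤ K := by exact_mod_cast h.1
        have hk0 : (0 : ℝ) ≤ k := Nat.cast_nonneg k
        have habs : |(2 : ℝ) - (2 * k + 1)| ≤ 2 * K + 2 := by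
          rw [abs_le]; constructor <;> linarith
        refine ⟨?_, 4 * De N K r, by linarith, hh.1, hh.2, ?_⟩
        · have : 4 * pw (W K * j) ≤ 2048 * (2 * K + 2) * pw (W K * j) := by
            apply mul_le_mul_of_nonneg_right _ hpos.le
            linarith
          linarith
        · have h5 : |(2 : ℝ) - (2 * k + 1)| * pw (W K * j) ≤ (2 * K + 2) * pw (W K * j) :=
            mul_le_mul_of_nonneg_right habs hpos.le
          have h6 : 1 ≤ De N K r * 2 ^ (W K * (N + R N r + 2)) := by
            have e : W K * (N + R N r + 2) = (W K * (N + R N r + 1) + 5) + (W K - 5) := by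
              have : W K * (N + R N r + 2) = W K * (N + R N r + 1) + W K := by ring
              have h12 : 12 ≤ W K := by unfold W; omega
              omega
            have h7 := pw_mul_two (W K * (N + R N r + 1) + 5)
            have h8 : (1 : ℝ) ≤ 2 ^ (W K - 5) := one_le_pow₀ (by norm_num)
            rw [e, pow_add, ← mul_assoc]
            unfold De
            rw [h7, one_mul]
            exact h8
          nlinarith
      · have h := ancL_some.1 hPQ
        obtain ⟨hk, hj', hjR, rfl, hlt⟩ := h
        have hh := BaseL_hg hN hK hr (j := j) hk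
        have hrat := BaseL_ratio K hlt
        have hpos := pw_pos (W K * j)
        rw [baseL_some, baseL_some]
        dsimp only
        refine ⟨?_, 4 * De N K r, by linarith, hh.1, hh.2, ?_⟩
        · have : 4 * pw (W K * j) ≤ 2048 * (2 * K + 2) * pw (W K * j) := by
            apply mul_le_mul_of_nonneg_right _ hpos.le
            linarith
          linarith
        · rw [sub_self, abs_zero, mul_zero, zero_mul]
          have := pw_pos (W K * j')
          positivity
  · rintro P hP Q hQ hne hanc
    rcases Q with _ | ⟨k, j⟩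
    · rcases P with _ | ⟨k', j'⟩
      · exact absurd rfl hne
      · right; right
        have h := memL.1 hP
        have hpos := pw_pos (W K * j')
        have h4 := h4pw j' h.2.1
        rw [baseL_none, baseL_some]
        dsimp only
        have : 4 * pw (W K * j') ≤ 2048 * (2 * K + 2) * pw (W K * j') := by
          apply mul_le_mul_of_nonneg_right _ hpos.le
          linarith
        linarith
    · have hq := memL.1 hQ
      rcases P with _ | ⟨k', j'⟩
      · exact absurd (ancL_none.2 hq) hanc
      · have hp := memL.1 hP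
        rw [baseL_some, baseL_some]
        dsimp only
        rcases lt_trichotomy j' j with hjj | rfl | hjj
        · right; left
          have hkk : k ≠ k' := by
            rintro rfl
            exact hanc (ancL_some.2 ⟨hp.1, hp.2.1, hq.2.2, rfl, hjj⟩)
          have hrat := BaseL_ratio K hjj
          have hpos := pw_pos (W K * j)
          have hk1 : (k : ℝ) ≤ K := by exact_mod_cast hq.1
          have hk2 : (k' : ℝ) ≤ K := by exact_mod_cast hp.1
          have hk3 : (0 : ℝ) ≤ k := Nat.cast_nonneg k
          have hk4 : (0 : ℝ) ≤ k' := Nat.cast_nonneg k'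
          have habs : |2 * (k' : ℝ) + 1 - (2 * k + 1)| ≤ 2 * K + 2 := by
            rw [abs_le]; constructor <;> linarith
          have hab := BaseL_ab hN hK hr hp.1 hp.2.1 hp.2.2
          refine ⟨?_, ?_, ?_, ?_⟩
          · have : 4 * pw (W K * j) ≤ 2048 * (2 * K + 2) * pw (W K * j) := by
              apply mul_le_mul_of_nonneg_right _ hpos.le
              linarith
            linarith
          · show j' < j
            exact hjj
          · have : |2 * (k' : ℝ) + 1 - (2 * k + 1)| * pw (W K * j) ≤
                (2 * K + 2) * pw (W K * j) :=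
              mul_le_mul_of_nonneg_right habs hpos.le
            nlinarith
          · rcases Nat.lt_or_gt_of_ne hkk with h | h
            · left
              have h' : (k : ℝ) + 1 ≤ k' := by exact_mod_cast h
              linarith [hab.1]
            · right
              have h' : (k' : ℝ) + 1 ≤ k := by exact_mod_cast h
              linarith [hab.2]
        · left
          have hkk : k ≠ k' := by
            rintro rfl
            exact hne rfl
          refine ⟨rfl, rfl, ?_⟩
          rcases Nat.lt_or_gt_of_ne hkk with h | h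
          · have h' : (k : ℝ) + 1 ≤ k' := by exact_mod_cast h
            rw [le_abs]; left; linarith
          · have h' : (k' : ℝ) + 1 ≤ k := by exact_mod_cast h
            rw [le_abs]; right; linarith
        · right; right
          have hrat := BaseL_ratio K hjj
          have hpos := pw_pos (W K * j')
          have : 4 * pw (W K * j') ≤ 2048 * (2 * K + 2) * pw (W K * j') := by
            apply mul_le_mul_of_nonneg_right _ hpos.le
            linarith
          linarith

end Inst

end Pool.Agent.TRI
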