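import Pool.Agent.TRI.E2_BaseDef
import Pool.Agent.TRI.E1_CombU

/-!
Area E2: base points of the upper side.
-/

namespace Pool.Agent.TRI

namespace Inst

variable {N K r : ℕ}

theorem BaseU_two_pow_W (K : ℕ) : (2048 : ℝ) * (2 * K + 2) ≤ 2 ^ W K := by
  have h : ∀ K : ℕ, (K + 1 : ℝ) ≤ 2 ^ K := by
    intro K
    induction K with
    | zero => norm_num
    | succ n ih =>
      rw [pow_succ]; push_cast
      have : (1 : ℝ) ≤ 2 ^ n := one_le_pow₀ (by norm_num)
      linarith
  unfold W
  have e : (2 : ℝ) ^ (K + 12) = 4096 * 2 ^ K := by rw [pow_add]; norm_num; ring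
  rw [e]
  have h2 := h K
  linarith

/-- ratio of the heights of two levels -/
theorem BaseU_ratio (K : ℕ) {i i' : ℕ} (h : i < i') :
    2048 * (2 * K + 2) * (2 : ℝ) ^ (W K * i) ≤ 2 ^ (W K * i') := by
  obtain ⟨d, rfl⟩ := Nat.exists_eq_add_of_lt h
  have e : W K * (i + d + 1) = W K + W K * i + W K * d := by ring
  rw [e, pow_add, pow_add]
  have h1 := BaseU_two_pow_W K
  have h2 : (1 : ℝ) ≤ 2 ^ (W K * d) := one_le_pow₀ (by norm_num)
  have h3 : (0 : ℝ) < 2 ^ (W K * i) := by positivity
  calc 2048 * (2 * K + 2) * (2 : ℝ) ^ (W K * i) ≤ 2 ^ W K * 2 ^ (W K * i) :=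
        mul_le_mul_of_nonneg_right h1 h3.le
    _ = 2 ^ W K * 2 ^ (W K * i) * 1 := by ring
    _ ≤ 2 ^ W K * 2 ^ (W K * i) * 2 ^ (W K * d) := by gcongr

theorem BaseU_be_pow {n : ℕ} (h : n ≤ W K * (N + R N r + 4)) : be N K r * 2 ^ n ≤ 1 := by
  have h1 := pw_mul_two (W K * (N + R N r + 4))
  have h2 : (2 : ℝ) ^ n ≤ 2 ^ (W K * (N + R N r + 4)) := pow_le_pow_right₀ (by norm_num) h
  calc be N K r * 2 ^ n ≤ be N K r * 2 ^ (W K * (N + R N r + 4)) :=
        mul_le_mul_of_nonneg_left h2 be_pos.le
    _ = 1 := h1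

theorem BaseU_y0 {n : ℕ} (hN : 1 ≤ N) (hK : 2 ≤ K) (hr : 1 ≤ r)
    (h : n ≤ W K * (N + R N r + 4)) :
    be N K r ≤ (2 : ℝ) ^ n ∧ be N K r * 2 ^ n ≤ 1 := by
  refine ⟨?_, BaseU_be_pow h⟩
  have h1 := be_le hN hK hr
  have h2 : (1 : ℝ) ≤ 2 ^ n := one_le_pow₀ (by norm_num)
  have h3 : (1 : ℝ) / 2 ^ 100 ≤ 1 := by norm_num
  linarith

theorem baseU_none : baseU N K none = ((2, (2 : ℝ) ^ (W K * (N + 1))) : Pt) := rfl

theorem baseU_some (k i : ℕ) :
    baseU N K (some (k, i)) = ((2 * (k : ℝ), (2 : ℝ) ^ (W K * i)) : Pt) := rfl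

/-- bounds for the ends of the interval of a node -/
theorem BaseU_ab (hN : 1 ≤ N) (hK : 2 ≤ K) (hr : 1 ≤ r) {k i : ℕ} (hk : 1 ≤ k ∧ k ≤ K)
    (hi : 1 ≤ i ∧ i ≤ N) :
    2 * (k : ℝ) - 1 ≤ x N K r ((KU N K r).a (some (k, i))) ∧
      x N K r ((KU N K r).b (some (k, i))) ≤ 2 * k + 1 := by
  have hY := arcY_le (r := r) hi.1 hi.2
  have hX := arcX_le (r := r) hi.2
  have hX' := arcX_pos (r := r) hi.1
  have hD := De_pos (N := N) (K := K) (r := r)
  rw [aU, bU]
  constructor
  · have h1 := pos_ftR_bd hN hK hr (k := k - 1) (j := (i - 1) * Bk r + r + 1) (q := 0)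
      (by omega) (by omega) (by omega) (by norm_num)
    have h2 := (x_bd (N := N) (K := K) (r := r)
      (f := ftR N r (k - 1) ((i - 1) * Bk r + r + 1) 0)).1
    have h3 : ((k - 1 : ℕ) : ℝ) = k - 1 := by rw [Nat.cast_sub hk.1]; norm_num
    rw [h3] at h1
    linarith [h1.1]
  · have h1 := pos_ftL_bd hN hK hr (k := k) (j := i * Bk r) (q := 3)
      hk.2 (by omega) hX (by norm_num)
    have h2 := (x_bd (N := N) (K := K) (r := r) (f := ftL N r k (i * Bk r) 3)).2
    linarith [h1.2]

theorem BaseU_hg (hN : 1 ≤ N) (hK : 2 ≤ K) (hr : 1 ≤ r) {k i : ℕ} (hk : 1 ≤ k ∧ k ≤ K) :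
    x N K r ((KU N K r).hg (some (k, i))) + 1 / 2 ≤ 2 * k ∧
      2 * (k : ℝ) + 1 / 2 ≤ x N K r ((KU N K r).hg (some (k, i)) + 1) := by
  have hR := R_ge (N := N) hN hr
  have hD := De_pos (N := N) (K := K) (r := r)
  have hD2 := De_le (N := N) (K := K) (r := r)
  have e0 : (KU N K r).hg (some (k, i)) = 8 * R N r * k := rfl
  have e1 : 8 * R N r * k = ftR N r (k - 1) 1 3 := by
    obtain ⟨κ, rfl⟩ := Nat.exists_eq_add_of_le' hk.1
    rw [Nat.add_sub_cancel, ftR_eq]
    have : 8 * R N r * (κ + 1) = 8 * R N r * κ + 8 * R N r := by ring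
    omega
  have e2 : 8 * R N r * k + 1 = ftL N r k 1 0 := by
    rw [ftL_eq]; omega
  rw [e0]
  constructor
  · rw [e1]
    have h1 := pos_ftR_bd hN hK hr (k := k - 1) (j := 1) (q := 3)
      (by omega) (by omega) (by omega) (by norm_num)
    have h2 := (x_bd (N := N) (K := K) (r := r) (f := ftR N r (k - 1) 1 3)).2
    have h3 : ((k - 1 : ℕ) : ℝ) = k - 1 := by rw [Nat.cast_sub hk.1]; norm_num
    rw [h3] at h1
    linarith [h1.2]
  · rw [e2]
    have h1 := pos_ftL_bd hN hK hr (k := k) (j := 1) (q := 0)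
      (by omega) (by omega) (by omega) (by norm_num)
    have h2 := (x_bd (N := N) (K := K) (r := r) (f := ftL N r k 1 0)).1
    linarith [h1.1]

/-- The upper side. -/
theorem baseOK_U (hN : 1 ≤ N) (hK : 2 ≤ K) (hr : 1 ≤ r) :
    BaseOK N K r (KU N K r) (baseU N K) := by
  have hR := R_ge (N := N) hN hr
  have hK1 : (1 : ℝ) ≤ K := by exact_mod_cast (by omega : 1 ≤ K)
  have hKr : (2 : ℝ) * K + 2 ≥ 4 := by linarith
  have hle : ∀ i ≤ N + 1, W K * i ≤ W K * (N + R N r + 4) := fun i hi =>
    Nat.mul_le_mul_left _ (by omega)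
  have hbe := be_le hN hK hr
  have hbe2 : be N K r ≤ 1 / 2 := le_trans hbe (by norm_num)
  refine ⟨?_, ?_, ?_, ?_, ?_, ?_, ?_⟩
  · rintro (_ | ⟨k, i⟩) _
    · show 0 ≤ 3; omega
    · show 3 ≤ 3; omega
  · rintro (_ | ⟨k, i⟩) hP
    · rw [baseU_none]; constructor <;> dsimp only <;> linarith
    · have h := memU.1 hP
      rw [baseU_some]
      have h2 : (k : ℝ) ≤ K := by exact_mod_cast h.1.2
      constructor
      · dsimp only; positivity
      · dsimp only; linarith
  · rintro (_ | ⟨k, i⟩) hP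
    · rw [baseU_none]; exact BaseU_y0 hN hK hr (hle _ le_rfl)
    · have h := memU.1 hP
      rw [baseU_some]; exact BaseU_y0 hN hK hr (hle _ (by omega))
  · show 1 ≤ (baseU N K none).1 ∧ (baseU N K none).1 + 1 ≤ 2 * K + 2
    rw [baseU_none]; constructor <;> dsimp only <;> linarith
  · rintro (_ | ⟨k, i⟩) hP hne
    · exact absurd rfl hne
    · have h := memU.1 hP
      have hY := arcY_le (r := r) h.2.1 h.2.2
      have hX := arcX_le (r := r) h.2.2
      have hX' := arcX_pos (r := r) h.2.1
      have e0 : (KU N K r).hg (some (k, i)) = 8 * R N r * k := rfl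
      rw [aU, bU, e0, ftR_eq, ftL_eq]
      obtain ⟨κ, rfl⟩ := Nat.exists_eq_add_of_le' h.1.1
      rw [Nat.add_sub_cancel]
      have : 8 * R N r * (κ + 1) = 8 * R N r * κ + 8 * R N r := by ring
      omega
  · rintro P (_ | ⟨k, i⟩) hPQ
    · exact absurd hPQ not_ancU_none
    · rcases P with _ | ⟨k', i'⟩
      · have h := ancU_none.1 hPQ
        have hh := BaseU_hg hN hK hr (i := i) h.1
        have hrat := BaseU_ratio K (i := i) (i' := N + 1) (by omega)
        have hpos : (0 : ℝ) < 2 ^ (W K * i) := by positivity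
        rw [baseU_none, baseU_some]
        dsimp only
        have hk1 : (1 : ℝ) ≤ k := by exact_mod_cast h.1.1
        have hk2 : (k : ℝ) ≤ K := by exact_mod_cast h.1.2
        have habs : |(2 : ℝ) - 2 * k| ≤ 2 * K + 2 := by
          rw [abs_le]; constructor <;> linarith
        refine ⟨?_, 1 / 2, hbe2, hh.1, hh.2, ?_⟩
        · have : 4 * (2 : ℝ) ^ (W K * i) ≤ 2048 * (2 * K + 2) * 2 ^ (W K * i) := by
            apply mul_le_mul_of_nonneg_right _ hpos.le
            linarith
          linarith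
        · have : |(2 : ℝ) - 2 * k| * 2 ^ (W K * i) ≤ (2 * K + 2) * 2 ^ (W K * i) :=
            mul_le_mul_of_nonneg_right habs hpos.le
          nlinarith
      · have h := ancU_some.1 hPQ
        obtain ⟨⟨hk, hi', hiN'⟩, hi, rfl, hlt⟩ := h
        have hh := BaseU_hg hN hK hr (i := i) hk
        have hrat := BaseU_ratio K (i := i) (i' := i') hlt
        have hpos : (0 : ℝ) < 2 ^ (W K * i) := by positivity
        rw [baseU_some, baseU_some]
        dsimp only
        refine ⟨?_, 1 / 2, hbe2, hh.1, hh.2, ?_⟩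
        · have : 4 * (2 : ℝ) ^ (W K * i) ≤ 2048 * (2 * K + 2) * 2 ^ (W K * i) := by
            apply mul_le_mul_of_nonneg_right _ hpos.le
            linarith
          linarith
        · rw [sub_self, abs_zero, mul_zero, zero_mul]
          positivity
  · rintro P hP Q hQ hne hanc
    rcases Q with _ | ⟨k, i⟩
    · rcases P with _ | ⟨k', i'⟩
      · exact absurd rfl hne
      · right; right
        have h := memU.1 hP
        have hrat := BaseU_ratio K (i := i') (i' := N + 1) (by omega)
        have hpos : (0 : ℝ) < 2 ^ (W K * i') := by positivity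
        rw [baseU_none, baseU_some]
        dsimp only
        have : 4 * (2 : ℝ) ^ (W K * i') ≤ 2048 * (2 * K + 2) * 2 ^ (W K * i') := by
          apply mul_le_mul_of_nonneg_right _ hpos.le
          linarith
        linarith
    · have hq := memU.1 hQ
      rcases P with _ | ⟨k', i'⟩
      · exact absurd (ancU_none.2 hq) hanc
      · have hp := memU.1 hP
        rw [baseU_some, baseU_some]
        dsimp only
        rcases lt_trichotomy i i' with hii | rfl | hii
        · right; left
          have hkk : k ≠ k' := by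
            rintro rfl
            exact hanc (ancU_some.2 ⟨hp, hq.2.1, rfl, hii⟩)
          have hrat := BaseU_ratio K (i := i) (i' := i') hii
          have hpos : (0 : ℝ) < 2 ^ (W K * i) := by positivity
          have hk1 : (k : ℝ) ≤ K := by exact_mod_cast hq.1.2
          have hk2 : (k' : ℝ) ≤ K := by exact_mod_cast hp.1.2
          have hk3 : (1 : ℝ) ≤ k := by exact_mod_cast hq.1.1
          have hk4 : (1 : ℝ) ≤ k' := by exact_mod_cast hp.1.1
          have habs : |2 * (k' : ℝ) - 2 * k| ≤ 2 * K + 2 := by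
            rw [abs_le]; constructor <;> linarith
          have hab := BaseU_ab hN hK hr hp.1 hp.2
          refine ⟨?_, ?_, ?_, ?_⟩
          · have : 4 * (2 : ℝ) ^ (W K * i) ≤ 2048 * (2 * K + 2) * 2 ^ (W K * i) := by
              apply mul_le_mul_of_nonneg_right _ hpos.le
              linarith
            linarith
          · show N + 1 - i' < N + 1 - i
            omega
          · have : |2 * (k' : ℝ) - 2 * k| * 2 ^ (W K * i) ≤ (2 * K + 2) * 2 ^ (W K * i) :=
              mul_le_mul_of_nonneg_right habs hpos.le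
            nlinarith
          · rcases Nat.lt_or_gt_of_ne hkk with h | h
            · left
              have h' : (k : ℝ) + 1 ≤ k' := by exact_mod_cast h
              linarith [hab.1]
            · right
              have h' : (k' : ℝ) + 1 ≤ k := by exact_mod_cast h
              linarith [hab.2]
        · left
          have hkk : k ≠ k' := by
            rintro rfl
            exact hne rfl
          refine ⟨rfl, rfl, ?_⟩
          rcases Nat.lt_or_gt_of_ne hkk with h | h
          · have h' : (k : ℝ) + 1 ≤ k' := by exact_mod_cast h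
            rw [le_abs]; left; linarith
          · have h' : (k' : ℝ) + 1 ≤ k := by exact_mod_cast h
            rw [le_abs]; right; linarith
        · right; right
          have hrat := BaseU_ratio K (i := i') (i' := i) hii
          have hpos : (0 : ℝ) < 2 ^ (W K * i') := by positivity
          have : 4 * (2 : ℝ) ^ (W K * i') ≤ 2048 * (2 * K + 2) * 2 ^ (W K * i') := by
            apply mul_le_mul_of_nonneg_right _ hpos.le
            linarith
          linarith

end Inst

end Pool.Agent.TRI
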