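import Pool.Agent.TRI.E2_PosD

/-!
Area E2: dyadic numbers.
-/

namespace Pool.Agent.TRI

namespace Inst

open Finset

variable {N K r : ℕ}

/-- `y` is an integer multiple of `2 ^ (-e)` -/
def Dy (e : ℕ) (y : ℝ) : Prop := ∃ n : ℤ, y * 2 ^ e = n

theorem Dy.mono {a b : ℕ} (h : a ≤ b) {y : ℝ} (hy : Dy a y) : Dy b y := by
  obtain ⟨n, hn⟩ := hy
  refine ⟨n * 2 ^ (b - a), ?_⟩
  have h1 : (2 : ℝ) ^ b = 2 ^ a * 2 ^ (b - a) := by
    rw [← pow_add]
    congr 1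
    omega
  rw [h1, ← mul_assoc, hn]
  push_cast
  ring

theorem Dy.add {a : ℕ} {y z : ℝ} (hy : Dy a y) (hz : Dy a z) : Dy a (y + z) := by
  obtain ⟨n, hn⟩ := hy
  obtain ⟨m, hm⟩ := hz
  exact ⟨n + m, by rw [add_mul, hn, hm]; push_cast; ring⟩

theorem Dy.sub {a : ℕ} {y z : ℝ} (hy : Dy a y) (hz : Dy a z) : Dy a (y - z) := by
  obtain ⟨n, hn⟩ := hy
  obtain ⟨m, hm⟩ := hz
  exact ⟨n - m, by rw [sub_mul, hn, hm]; push_cast; ring⟩

theorem Dy.mul {a b : ℕ} {y z : ℝ} (hy : Dy a y) (hz : Dy b z) : Dy (a + b) (y * z) := by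
  obtain ⟨n, hn⟩ := hy
  obtain ⟨m, hm⟩ := hz
  refine ⟨n * m, ?_⟩
  push_cast
  rw [← hn, ← hm, pow_add]
  ring

theorem Dy_nat (a n : ℕ) : Dy a (n : ℝ) := by
  refine ⟨n * 2 ^ a, ?_⟩
  push_cast
  ring

theorem Dy_pw (e : ℕ) : Dy e (pw e) := ⟨1, by rw [pw_mul_two]; norm_num⟩

theorem Dy.neg {a : ℕ} {y : ℝ} (hy : Dy a y) : Dy a (-y) := by
  obtain ⟨n, hn⟩ := hy
  exact ⟨-n, by rw [neg_mul, hn]; push_cast; ring⟩

theorem E2_ClA_quarter : Dy 2 (1 / 4 : ℝ) := ⟨1, by norm_num⟩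

theorem E2_ClA_cL (q : ℕ) : Dy 2 (cL q) := by
  unfold cL
  split_ifs
  · have := Dy_nat 2 64
    exact_mod_cast this
  · have := Dy_nat 2 8
    exact_mod_cast this
  · have := Dy_nat 2 2
    exact_mod_cast this
  · exact E2_ClA_quarter

theorem E2_ClA_cR (q : ℕ) : Dy 2 (cR q) := by
  unfold cR
  split_ifs
  · exact E2_ClA_quarter
  · have := Dy_nat 2 2
    exact_mod_cast this
  · have := Dy_nat 2 8
    exact_mod_cast this
  · have := Dy_nat 2 64
    exact_mod_cast this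

/-- all positions are multiples of `2 ^ (- (W (N + R + 1) + 2))`; note that `f` is arbitrary (use
`foot_cases` for `1 ≤ f < F`) -/
theorem Dy_pos (hN : 1 ≤ N) (hK : 2 ≤ K) (hr : 1 ≤ r) (f : ℕ) :
    Dy (W K * (N + R N r + 1) + 2) (pos N K r f) := by
  rcases Nat.eq_zero_or_pos f with h0 | h0
  · rw [h0, pos_zero]
    have := Dy_nat (W K * (N + R N r + 1) + 2) 0
    exact_mod_cast this
  rcases Nat.lt_or_ge f (F N K r) with h1 | h1
  · obtain ⟨k, j, q, hk, hj, hj', hq, h | h⟩ := foot_cases h0 h1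
    · rw [h, pos_ftL hk hj hj' hq]
      have hi := iL_bd hj hj'
      have e1 : Dy (W K * (N + R N r + 1) + 2) ((2 * k + 1 : ℕ) : ℝ) := Dy_nat _ _
      have e2 : Dy (W K * (iL r j + j) + 2) (pw (W K * (iL r j + j)) * cL q) :=
        (Dy_pw _).mul (E2_ClA_cL q)
      have hle : W K * (iL r j + j) + 2 ≤ W K * (N + R N r + 1) + 2 :=
        Nat.add_le_add_right (Nat.mul_le_mul_left _ (by omega)) 2
      have e3 := e1.sub (e2.mono hle)
      push_cast at e3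
      exact e3
    · rw [h, pos_ftR hk hj hj' hq]
      have hi := iL_bd hj hj'
      have hi2 := iR_bd (r := r) (j := j)
      have e1 : Dy (W K * (N + R N r + 1) + 2) ((2 * k + 1 : ℕ) : ℝ) := Dy_nat _ _
      have e2 : Dy (W K * (iR r j + j) + 2) (pw (W K * (iR r j + j)) * cR q) :=
        (Dy_pw _).mul (E2_ClA_cR q)
      have hle : W K * (iR r j + j) + 2 ≤ W K * (N + R N r + 1) + 2 :=
        Nat.add_le_add_right (Nat.mul_le_mul_left _ (by omega)) 2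
      have e3 := e1.add (e2.mono hle)
      push_cast at e3
      exact e3
  · rw [pos_F h1]
    have := Dy_nat (W K * (N + R N r + 1) + 2) (2 * K + 2)
    exact_mod_cast this

theorem Dy_mid (hN : 1 ≤ N) (hK : 2 ≤ K) (hr : 1 ≤ r) (g : ℕ) :
    Dy (W K * (N + R N r + 1) + 3) (mid N K r g) := by
  obtain ⟨n, hn⟩ := (Dy_pos hN hK hr g).add (Dy_pos hN hK hr (g + 1))
  refine ⟨n, ?_⟩
  rw [← hn]
  unfold mid
  rw [show W K * (N + R N r + 1) + 3 = (W K * (N + R N r + 1) + 2) + 1 from rfl, pow_succ]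
  ring

/-- coordinates of `toward O t e` -/
theorem Dy_toward {O : Pt} {t e : ℝ} {a b : ℕ} (h1 : Dy a O.1) (h2 : Dy a O.2) (ht : Dy a t)
    (he : Dy b e) : Dy (a + b) (toward O t e).1 ∧ Dy (a + b) (toward O t e).2 := by
  have h0 : Dy b (1 - e) := by
    have h3 := Dy_nat b 1
    push_cast at h3
    exact h3.sub he
  have k1 : Dy (a + b) ((1 - e) * O.1) := by
    rw [mul_comm]; exact h1.mul h0
  have k2 : Dy (a + b) (e * t) := by
    rw [mul_comm]; exact ht.mul he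
  have k3 : Dy (a + b) ((1 - e) * O.2) := by
    rw [mul_comm]; exact h2.mul h0
  exact ⟨k1.add k2, k3⟩

/-- a foot is an odd multiple of `2 ^ (-22 G)` -/
theorem x_odd (hN : 1 ≤ N) (hK : 2 ≤ K) (hr : 1 ≤ r) {f : ℕ} (h1 : 1 ≤ f)
    (h2 : f < F N K r) : ∃ n : ℤ, x N K r f * 2 ^ (22 * G N K r) = 2 * n + 1 := by
  obtain ⟨n, hn⟩ := Dy_pos hN hK hr f
  have hW : 1 ≤ W K := by unfold W; omega
  have hle : W K * (N + R N r + 1) + 3 ≤ 22 * G N K r := by
    unfold G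
    have e1 : W K * (N + R N r + 1) + 3 ≤ W K * (N + R N r + 4) := by
      have : W K * (N + R N r + 4) = W K * (N + R N r + 1) + W K * 3 := by ring
      omega
    omega
  refine ⟨n * 2 ^ (22 * G N K r - (W K * (N + R N r + 1) + 3)), ?_⟩
  rw [x_foot h1 h2, add_mul, pw_mul_two]
  have h3 : (2 : ℝ) ^ (22 * G N K r) = 2 ^ (W K * (N + R N r + 1) + 2) *
      (2 * 2 ^ (22 * G N K r - (W K * (N + R N r + 1) + 3))) := by
    rw [← pow_succ', ← pow_add]
    congr 1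
    omega
  rw [h3, ← mul_assoc, hn]
  push_cast
  ring

end Inst

end Pool.Agent.TRI
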