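import Pool.Agent.TRI.E2_BaseU
import Pool.Agent.TRI.E2_BaseL
import Pool.Agent.TRI.StmtD

/-!
Area E2: the unperturbed crossings in the windows.
-/

namespace Pool.Agent.TRI

namespace Inst

open Finset

variable {N K r : ℕ}

/-- parameters and the combinatorial axioms (area E1) -/
structure Ok (N K r : ℕ) : Prop where
  hN : 1 ≤ N
  hK : 2 ≤ K
  hr : 1 ≤ r
  cU : (KU N K r).Comb (F N K r) (win N K r) (ex N K r)
  cL : (KL N K r).Comb (F N K r) (win N K r) (ex N K r)

/-- the unperturbed crossing point of the window `w` -/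
noncomputable def XX (N K r w : ℕ) : ℝ :=
  cr (baseU N K ((KU N K r).own w)) (baseL N K r ((KL N K r).own w))

theorem E2_CrA_De (N K r : ℕ) {m : ℕ} (hm : m ≤ N + R N r) :
    32 * De N K r ≤ pw (W K * m) := by
  have h1 : W K * m + 5 ≤ W K * (N + R N r + 1) + 5 :=
    Nat.add_le_add_right (Nat.mul_le_mul_left _ (by omega)) _
  have h2 : De N K r ≤ pw (W K * m + 5) := pw_anti h1
  rw [pw_add] at h2
  have h3 : pw 5 = 1 / 32 := by unfold pw; norm_num
  rw [h3] at h2
  linarith

theorem E2_CrA_cr (c : ℝ) (s : ℝ) (i j : ℕ) :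
    cr (c + s, 2 ^ i) (c, pw j) = c + s * (pw (i + j) / (1 + pw (i + j))) := by
  have h1 : pw i * 2 ^ i = 1 := pw_mul_two i
  have h2 := pw_pos (i + j)
  have h3 := pw_pos j
  have h4 : (0 : ℝ) < 2 ^ i := by positivity
  have h5 : (1 + pw (i + j) : ℝ) ≠ 0 := by linarith
  have h6 : (2 ^ i + pw j : ℝ) ≠ 0 := by linarith
  have h7 : pw j / (2 ^ i + pw j) = pw (i + j) / (1 + pw (i + j)) := by
    rw [div_eq_div_iff h6 h5, pw_add]
    linear_combination (-(pw j)) * h1
  rw [← h7]
  unfold cr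
  change ((c + s) * pw j + c * 2 ^ i) / (2 ^ i + pw j) = _
  field_simp
  ring

theorem E2_CrA_lt {w : ℕ} (hw : w ∈ win N K r) : w < F N K r := by
  unfold win at hw
  exact (mem_Ico.1 (mem_filter.1 hw).1).2

/-- C1. By `win_cases`. Put `p = pw (W * (i + j))`. Left window `w = ftL k j 2`, upper base
`(2 k, 2 ^ (W i))`, lower base `(2 k + 1, pw (W j))`: `XX = 2 k + 1 - p / (1 + p)`,
`x w = 2 k + 1 - 2 p + τ`, `x (w + 1) = 2 k + 1 - p / 4 + τ` (`w + 1 = ftL k j 3`), `0 ≤ τ ≤ De`,
`8 * De ≤ p / 4`. Right window `w = ftR k j 0`, upper base `(2 k + 2, 2 ^ (W i))`, `i = iR j ≤ N`: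
`XX = 2 k + 1 + p / (1 + p)`, `x w = 2 k + 1 + p / 4 + τ`, `x (w + 1) = 2 k + 1 + 2 p + τ`. -/
theorem XX_mem (h : Ok N K r) {w : ℕ} (hw : w ∈ win N K r) :
    x N K r w + De N K r ≤ XX N K r w ∧ XX N K r w + De N K r ≤ x N K r (w + 1) := by
  obtain ⟨k, j, hk1, hkK, hj, hj', -, hiR, hc⟩ := win_cases hw
  have hD := De_pos (N := N) (K := K) (r := r)
  have hiLR := (iR_bd (r := r) (j := j)).1
  have hx0 := x_bd (N := N) (K := K) (r := r) (f := w)
  have hx1 := x_bd (N := N) (K := K) (r := r) (f := w + 1)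
  rcases hc with ⟨hw', hU, hL⟩ | ⟨hw', hU, hL⟩
  · have hp := E2_CrA_De N K r (m := iL r j + j) (by omega)
    have hp1 : pw (W K * (iL r j + j)) ≤ 1 := by
      have := pw_anti (Nat.zero_le (W K * (iL r j + j)))
      simpa [pw] using this
    have hp0 := pw_pos (W K * (iL r j + j))
    have hXX : XX N K r w = 2 * k + 1 - pw (W K * (iL r j + j)) / (1 + pw (W K * (iL r j + j))) := by
      unfold XX
      rw [hU, hL]
      have := E2_CrA_cr (2 * k + 1) (-1) (W K * iL r j) (W K * j)
      rw [← Nat.mul_add] at this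
      change cr (2 * (k : ℝ), 2 ^ (W K * iL r j)) (2 * (k : ℝ) + 1, pw (W K * j)) = _
      rw [show (2 * (k : ℝ) + 1 + -1) = 2 * k by ring] at this
      rw [this]
      ring
    have e0 : pos N K r w = 2 * k + 1 - pw (W K * (iL r j + j)) * 2 := by
      rw [hw', pos_ftL (by omega) hj hj' (by omega)]
      unfold cL
      norm_num
    have e1 : pos N K r (w + 1) = 2 * k + 1 - pw (W K * (iL r j + j)) * (1 / 4) := by
      rw [hw', show ftL N r k j 2 + 1 = ftL N r k j 3 from rfl,
        pos_ftL (by omega) hj hj' (by omega)]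
      unfold cL
      norm_num
    rw [e0] at hx0
    rw [e1] at hx1
    rw [hXX]
    generalize pw (W K * (iL r j + j)) = p at *
    have h1 : p / (1 + p) ≤ p := div_le_self hp0.le (by linarith)
    have h2 : p / 2 ≤ p / (1 + p) :=
      div_le_div_of_nonneg_left hp0.le (by linarith) (by linarith)
    constructor <;> linarith [hx0.1, hx0.2, hx1.1, hx1.2]
  · have hp := E2_CrA_De N K r (m := iR r j + j) (by omega)
    have hp1 : pw (W K * (iR r j + j)) ≤ 1 := by
      have := pw_anti (Nat.zero_le (W K * (iR r j + j)))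
      simpa [pw] using this
    have hp0 := pw_pos (W K * (iR r j + j))
    have hXX : XX N K r w = 2 * k + 1 + pw (W K * (iR r j + j)) / (1 + pw (W K * (iR r j + j))) := by
      unfold XX
      rw [hU, hL]
      have := E2_CrA_cr (2 * k + 1) 1 (W K * iR r j) (W K * j)
      rw [← Nat.mul_add] at this
      change cr (2 * ((k + 1 : ℕ) : ℝ), 2 ^ (W K * iR r j)) (2 * (k : ℝ) + 1, pw (W K * j)) = _
      rw [show (2 * ((k + 1 : ℕ) : ℝ)) = 2 * k + 1 + 1 by push_cast; ring, this]
      ring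
    have e0 : pos N K r w = 2 * k + 1 + pw (W K * (iR r j + j)) * (1 / 4) := by
      rw [hw', pos_ftR (by omega) hj hj' (by omega)]
      unfold cR
      norm_num
    have e1 : pos N K r (w + 1) = 2 * k + 1 + pw (W K * (iR r j + j)) * 2 := by
      rw [hw', show ftR N r k j 0 + 1 = ftR N r k j 1 from rfl,
        pos_ftR (by omega) hj hj' (by omega)]
      unfold cR
      norm_num
    rw [e0] at hx0
    rw [e1] at hx1
    rw [hXX]
    generalize pw (W K * (iR r j + j)) = p at *
    have h1 : p / (1 + p) ≤ p := div_le_self hp0.le (by linarith)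
    have h2 : p / 2 ≤ p / (1 + p) :=
      div_le_div_of_nonneg_left hp0.le (by linarith) (by linarith)
    constructor <;> linarith [hx0.1, hx0.2, hx1.1, hx1.2]

/-- C2. Distance of `XX` from the middle of another gap (`mid_far` and C1). -/
theorem XX_far (h : Ok N K r) {w g : ℕ} (hw : w ∈ win N K r)
    (hg : g < F N K r) (hgw : g ≠ w) : De N K r ≤ |mid N K r g - XX N K r w| := by
  have hD := De_pos (N := N) (K := K) (r := r)
  have hX := XX_mem h hw
  rcases mid_far h.hN h.hK h.hr hg (E2_CrA_lt hw) hgw with h1 | h1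
  · rw [abs_sub_comm]
    exact le_trans (by linarith) (le_abs_self _)
  · exact le_trans (by linarith) (le_abs_self _)

/-- C2'. -/
theorem XX_range (h : Ok N K r) {w g : ℕ} (hw : w ∈ win N K r)
    (hg : g < F N K r) : |mid N K r g - XX N K r w| ≤ 2 * K + 2 := by
  have hD := De_pos (N := N) (K := K) (r := r)
  have hX := XX_mem h hw
  have hm := mid_range h.hN h.hK h.hr hg
  have hwF := E2_CrA_lt hw
  have h0 := x_le h.hN h.hK h.hr (Nat.zero_le w) hwF.le
  have h1 := x_le h.hN h.hK h.hr (Nat.succ_le_of_lt hwF) (le_refl _)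
  rw [x_zero] at h0
  rw [x_F] at h1
  change x N K r (w + 1) ≤ _ at h1
  rw [abs_le]
  constructor <;> linarith [hX.1, hX.2, hm.1, hm.2]

end Inst

end Pool.Agent.TRI
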