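import Pool.Agent.TRI.E2_BaseDef

/-!
Area E2: sizes of the perturbations, form of the points.
Everything is written for a skeleton `Ks` with `Comb` and `BaseOK`, perturbation sizes
`ε ≤ be ^ 8`, `δ ≤ be ^ 20 * ε`.
-/

namespace Pool.Agent.TRI

namespace Inst

open Finset

variable {N K r : ℕ} {Ks : Skel (Option (ℕ × ℕ))} {base : Option (ℕ × ℕ) → Pt} {ε δ : ℝ}

/-- the size of the perturbations -/
structure SizeOK (N K r : ℕ) (ε δ : ℝ) : Prop where
  hN : 1 ≤ N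
  hK : 2 ≤ K
  hr : 1 ≤ r
  dpos : 0 < δ
  epos : 0 < ε
  ele : ε ≤ be N K r ^ 8
  dle : δ ≤ be N K r ^ 20 * ε

private theorem E2_GeoA_bepow (hN : 1 ≤ N) (hK : 2 ≤ K) (hr : 1 ≤ r) {n m : ℕ} (h : n ≤ m) :
    be N K r ^ m ≤ be N K r ^ n := by
  have h1 := be_le hN hK hr
  have h2 := be_pos (N := N) (K := K) (r := r)
  exact pow_le_pow_of_le_one h2.le (h1.trans (by norm_num)) h

/-- consequences of `SizeOK` in the form in which they are used -/
theorem SizeOK.cons (hS : SizeOK N K r ε δ) :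
    ε ≤ 1 / 4 ∧ 3 * δ ≤ ε ∧ 8 * (ε * (2 * K + 2)) ≤ 1 ∧ 32 * (ε * (2 * K + 2)) ≤ be N K r ∧
      (∀ c : ℕ, c ≤ 3 → 2 * (c * δ) ≤ ε) ∧
      (∀ c : ℕ, c ≤ 3 → 2 * ((c * δ) * (2 * K + 2)) < be N K r * ε) := by
  obtain ⟨hN, hK, hr, hd, he, hele, hdle⟩ := hS
  have hb := be_pos (N := N) (K := K) (r := r)
  have hb1 := be_le hN hK hr
  have hg := Rg_be hN hK hr
  have h8 : be N K r ^ 8 ≤ be N K r := by
    have := E2_GeoA_bepow hN hK hr (n := 1) (m := 8) (by norm_num)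
    rwa [pow_one] at this
  have h20 : be N K r ^ 20 ≤ be N K r := by
    have := E2_GeoA_bepow hN hK hr (n := 1) (m := 20) (by norm_num)
    rwa [pow_one] at this
  have hKp : (0 : ℝ) < 2 * K + 2 := by positivity
  have hc100 : (1 : ℝ) / 2 ^ 100 ≤ 1 / 1000 := by norm_num
  have hbs : be N K r ≤ 1 / 1000 := hb1.trans hc100
  have hgs : (2 * K + 2 : ℝ) * be N K r ≤ 1 / 1000 := hg.trans hc100
  have hdε : δ ≤ be N K r * ε := hdle.trans (mul_le_mul_of_nonneg_right h20 he.le)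
  have hdε' : be N K r * ε ≤ 1 / 1000 * ε := mul_le_mul_of_nonneg_right hbs he.le
  have h82 : be N K r ^ 8 ≤ be N K r ^ 2 := E2_GeoA_bepow hN hK hr (by norm_num)
  have h202 : be N K r ^ 20 ≤ be N K r ^ 2 := E2_GeoA_bepow hN hK hr (by norm_num)
  have hεK : ε * (2 * K + 2) ≤ be N K r * (1 / 1000) := by
    calc ε * (2 * K + 2) ≤ be N K r ^ 2 * (2 * K + 2) :=
          mul_le_mul_of_nonneg_right (hele.trans h82) hKp.le
      _ = be N K r * ((2 * K + 2) * be N K r) := by ring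
      _ ≤ be N K r * (1 / 1000) := mul_le_mul_of_nonneg_left hgs hb.le
  have hδK : δ * (2 * K + 2) ≤ be N K r * ε * (1 / 1000) := by
    calc δ * (2 * K + 2) ≤ (be N K r ^ 2 * ε) * (2 * K + 2) :=
          mul_le_mul_of_nonneg_right (hdle.trans (mul_le_mul_of_nonneg_right h202 he.le)) hKp.le
      _ = be N K r * ε * ((2 * K + 2) * be N K r) := by ring
      _ ≤ be N K r * ε * (1 / 1000) := mul_le_mul_of_nonneg_left hgs (by positivity)
  refine ⟨?_, ?_, ?_, ?_, ?_, ?_⟩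
  · linarith
  · linarith
  · linarith
  · linarith
  · intro c hc
    have hc' : (c : ℝ) ≤ 3 := by exact_mod_cast hc
    have h1 : (c : ℝ) * δ ≤ 3 * δ := mul_le_mul_of_nonneg_right hc' hd.le
    linarith
  · intro c hc
    have hc' : (c : ℝ) ≤ 3 := by exact_mod_cast hc
    have h1 : (c : ℝ) * δ * (2 * K + 2) ≤ 3 * (δ * (2 * K + 2)) := by
      have h2 : (c : ℝ) * (δ * (2 * K + 2)) ≤ 3 * (δ * (2 * K + 2)) :=
        mul_le_mul_of_nonneg_right hc' (by positivity)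
      linarith
    have h3 : 0 < be N K r * ε := by positivity
    linarith

/-- the cluster of a point is a node -/
theorem cl_mem (hC : Ks.Comb (F N K r) (win N K r) (ex N K r)) {v : Nm (Option (ℕ × ℕ))}
    (hv : v ∈ Ks.names (F N K r) (win N K r)) : Ks.cl v ∈ Ks.nodes := by
  unfold Skel.names at hv
  rw [mem_union, mem_union, mem_biUnion] at hv
  rcases hv with (⟨P, hP, hv⟩ | hv) | hv
  · rw [mem_image] at hv
    obtain ⟨c, _, rfl⟩ := hv
    exact hP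
  · rw [mem_image] at hv
    obtain ⟨g, hg, rfl⟩ := hv
    unfold lf at hg
    rw [mem_filter, mem_Ioo] at hg
    exact (hC.own_mem g (by omega)).1
  · rw [mem_image] at hv
    obtain ⟨Q, hQ, rfl⟩ := hv
    rw [mem_erase] at hQ
    exact ((hC.par_anc Q hQ.2 hQ.1).1).1

private theorem E2_GeoA_a_lt (hC : Ks.Comb (F N K r) (win N K r) (ex N K r))
    {P : Option (ℕ × ℕ)} (hP : P ∈ Ks.nodes) : Ks.a P < F N K r := by
  by_cases h : P = Ks.rt
  · rw [h, hC.a_rt]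
    have := hC.three
    omega
  · have := hC.ends P hP h
    omega

/-- every point is on the fan of the base point of its cluster -/
theorem pt_form (hC : Ks.Comb (F N K r) (win N K r) (ex N K r)) (hB : BaseOK N K r Ks base)
    (hS : SizeOK N K r ε δ) {v : Nm (Option (ℕ × ℕ))}
    (hv : v ∈ Ks.names (F N K r) (win N K r)) :
    ∃ t e : ℝ, 0 ≤ t ∧ t ≤ 2 * K + 2 ∧ 0 ≤ e ∧ e ≤ ε ∧
      ptOf N K r Ks base ε δ v = toward (base (Ks.cl v)) t e := by
  have hcons := hS.cons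
  unfold Skel.names at hv
  rw [mem_union, mem_union, mem_biUnion] at hv
  rcases hv with (⟨P, hP, hv⟩ | hv) | hv
  · rw [mem_image] at hv
    obtain ⟨c, hc, rfl⟩ := hv
    rw [mem_range] at hc
    have hs := hB.s3 P hP
    have hm := mid_range hS.hN hS.hK hS.hr (E2_GeoA_a_lt hC hP)
    have h1 := hcons.2.2.2.2.1 c (by omega)
    have h2 : 0 ≤ (c : ℝ) * δ := mul_nonneg (Nat.cast_nonneg c) hS.dpos.le
    exact ⟨mid N K r (Ks.a P), c * δ, hm.1, hm.2, h2, by linarith, rfl⟩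
  · rw [mem_image] at hv
    obtain ⟨g, hg, rfl⟩ := hv
    unfold lf at hg
    rw [mem_filter, mem_Ioo] at hg
    have hm := mid_range hS.hN hS.hK hS.hr (N := N) (K := K) (r := r) (g := g) (by omega)
    exact ⟨mid N K r g, ε, hm.1, hm.2, hS.epos.le, le_rfl, rfl⟩
  · rw [mem_image] at hv
    obtain ⟨Q, hQ, rfl⟩ := hv
    rw [mem_erase] at hQ
    have hm := mid_range hS.hN hS.hK hS.hr (E2_GeoA_a_lt hC hQ.2)
    exact ⟨mid N K r (Ks.a Q), ε, hm.1, hm.2, hS.epos.le, le_rfl, rfl⟩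

theorem sizeU (hN : 1 ≤ N) (hK : 2 ≤ K) (hr : 1 ≤ r) :
    SizeOK N K r (pw (G N K r)) (pw (8 * G N K r)) := by
  refine ⟨hN, hK, hr, pw_pos _, pw_pos _, ?_, ?_⟩
  · rw [pw_G1]
  · rw [pw_G1, pw_G, ← pow_add]
    exact E2_GeoA_bepow hN hK hr (by norm_num)

theorem sizeL (hN : 1 ≤ N) (hK : 2 ≤ K) (hr : 1 ≤ r) :
    SizeOK N K r (pw (3 * G N K r)) (pw (6 * G N K r)) := by
  refine ⟨hN, hK, hr, pw_pos _, pw_pos _, ?_, ?_⟩
  · rw [pw_G]
    exact E2_GeoA_bepow hN hK hr (by norm_num)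
  · rw [pw_G, pw_G, ← pow_add]
    exact E2_GeoA_bepow hN hK hr (by norm_num)

end Inst

end Pool.Agent.TRI
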