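import Pool.Agent.TRI.E2_ClA
import Pool.Agent.TRI.E2_CrA
import Pool.Agent.TRI.E2_GeoA

/-!
Area E2: coordinates of the points.
-/

namespace Pool.Agent.TRI

namespace Inst

open Finset

variable {N K r : ℕ}

theorem E2_ClB_arith : W K * (N + R N r + 1) + 3 + 8 * G N K r ≤ 10 * G N K r := by
  have h1 : W K * (N + R N r + 1) ≤ W K * (N + R N r + 4) := Nat.mul_le_mul_left _ (by omega)
  have h2 : W K * 4 ≤ W K * (N + R N r + 4) := Nat.mul_le_mul_left _ (by omega)
  have h3 : W K = K + 12 := rfl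
  have h4 : G N K r = 8 * (W K * (N + R N r + 4)) := rfl
  omega

theorem E2_ClB_side {Ks : Skel (Option (ℕ × ℕ))} {base : Option (ℕ × ℕ) → Pt} {ε δ : ℝ}
    (hN : 1 ≤ N) (hK : 2 ≤ K) (hr : 1 ≤ r)
    (hC : Ks.Comb (F N K r) (win N K r) (ex N K r)) (hB : BaseOK N K r Ks base)
    (hS : SizeOK N K r ε δ)
    (hbase : ∀ P ∈ Ks.nodes, Dy (W K * (N + R N r + 1) + 3) (base P).1 ∧
      Dy (W K * (N + R N r + 1) + 3) (base P).2)
    (hε : Dy (8 * G N K r) ε) (hδ : Dy (8 * G N K r) δ) {v : Nm (Option (ℕ × ℕ))}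
    (hv : v ∈ Ks.names (F N K r) (win N K r)) :
    Dy (10 * G N K r) (ptOf N K r Ks base ε δ v).1 ∧
      Dy (10 * G N K r) (ptOf N K r Ks base ε δ v).2 ∧ 0 < (ptOf N K r Ks base ε δ v).2 ∧
      (ptOf N K r Ks base ε δ v).2 ≤ 2 ^ G N K r := by
  have hQ := cl_mem hC hv
  have key : ∀ (P : Option (ℕ × ℕ)) (g : ℕ) (e : ℝ), P ∈ Ks.nodes → Dy (8 * G N K r) e →
      Dy (10 * G N K r) (toward (base P) (mid N K r g) e).1 ∧
        Dy (10 * G N K r) (toward (base P) (mid N K r g) e).2 := by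
    intro P g e hP he
    have h1 := hbase P hP
    have h2 := Dy_toward h1.1 h1.2 (Dy_mid hN hK hr g) he
    exact ⟨h2.1.mono E2_ClB_arith, h2.2.mono E2_ClB_arith⟩
  have h1 : Dy (10 * G N K r) (ptOf N K r Ks base ε δ v).1 ∧
      Dy (10 * G N K r) (ptOf N K r Ks base ε δ v).2 := by
    cases v with
    | z P c =>
      have he : Dy (8 * G N K r) ((c : ℝ) * δ) := by
        have := (Dy_nat 0 c).mul hδ
        rwa [Nat.zero_add] at this
      exact key P _ _ hQ he
    | q g => exact key _ _ _ hQ hε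
    | cap Q => exact key _ _ _ hQ hε
  refine ⟨h1.1, h1.2, ?_⟩
  obtain ⟨t, e, -, -, he0, heε, hv'⟩ := pt_form hC hB hS hv
  obtain ⟨c1, -, -, -, -, -⟩ := hS.cons
  have hy := hB.y0 _ hQ
  have hbe : 0 < be N K r := be_pos
  have hO : 0 < (base (Ks.cl v)).2 := lt_of_lt_of_le hbe hy.1
  have h2 : (ptOf N K r Ks base ε δ v).2 = (1 - e) * (base (Ks.cl v)).2 := by rw [hv']; rfl
  have he4 : e ≤ 1 / 4 := heε.trans c1
  rw [h2]
  refine ⟨mul_pos (by linarith) hO, ?_⟩
  have h3 : be N K r * 2 ^ (W K * (N + R N r + 4)) = 1 := pw_mul_two _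
  have h4 : (0 : ℝ) < 2 ^ (W K * (N + R N r + 4)) := by positivity
  have h5 : (base (Ks.cl v)).2 ≤ 2 ^ (W K * (N + R N r + 4)) := by
    calc (base (Ks.cl v)).2 = (be N K r * (base (Ks.cl v)).2) * 2 ^ (W K * (N + R N r + 4)) := by
          rw [mul_right_comm, h3, one_mul]
      _ ≤ 1 * 2 ^ (W K * (N + R N r + 4)) := mul_le_mul_of_nonneg_right hy.2 h4.le
      _ = _ := one_mul _
  have h6 : (2 : ℝ) ^ (W K * (N + R N r + 4)) ≤ 2 ^ G N K r := by
    apply pow_le_pow_right₀ (by norm_num)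
    have : G N K r = 8 * (W K * (N + R N r + 4)) := rfl
    omega
  have h7 : (1 - e) * (base (Ks.cl v)).2 ≤ 1 * (base (Ks.cl v)).2 :=
    mul_le_mul_of_nonneg_right (by linarith) hO.le
  linarith

theorem E2_ClB_pow (a n : ℕ) : Dy a ((2 : ℝ) ^ n) := by
  have := Dy_nat a (2 ^ n)
  push_cast at this
  exact this

theorem E2_ClB_two (a : ℕ) : Dy a (2 : ℝ) := by
  have := Dy_nat a 2
  push_cast at this
  exact this

/-- all points have coordinates in `2 ^ (-10 G) ℤ` and heights at most `2 ^ G` in absolute value -/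
theorem offPts_form (h : Ok N K r) {u : Pt}
    (hu : u ∈ offPts (DU N K r) (DL N K r)) :
    Dy (10 * G N K r) u.1 ∧ Dy (10 * G N K r) u.2 ∧ u.2 ≠ 0 ∧ |u.2| ≤ 2 ^ G N K r := by
  classical
  unfold offPts at hu
  rw [mem_union, mem_image, mem_image] at hu
  rcases hu with ⟨v, hv, rfl⟩ | ⟨v, hv, rfl⟩
  · have hbase : ∀ P ∈ (KU N K r).nodes, Dy (W K * (N + R N r + 1) + 3) (baseU N K P).1 ∧
        Dy (W K * (N + R N r + 1) + 3) (baseU N K P).2 := by
      intro P _
      rcases P with _ | ⟨k, i⟩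
      · exact ⟨E2_ClB_two _, E2_ClB_pow _ _⟩
      · refine ⟨?_, E2_ClB_pow _ _⟩
        have := Dy_nat (W K * (N + R N r + 1) + 3) (2 * k)
        push_cast at this
        exact this
    have key := E2_ClB_side h.hN h.hK h.hr h.cU (baseOK_U h.hN h.hK h.hr) (sizeU h.hN h.hK h.hr) hbase
      ((Dy_pw (G N K r)).mono (by omega)) (Dy_pw (8 * G N K r)) (v := v) hv
    obtain ⟨k1, k2, k3, k4⟩ := key
    refine ⟨k1, k2, ne_of_gt k3, ?_⟩
    show |(ptOf N K r (KU N K r) (baseU N K) (pw (G N K r)) (pw (8 * G N K r)) v).2| ≤ _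
    rw [abs_of_pos k3]
    exact k4
  · have hbase : ∀ P ∈ (KL N K r).nodes, Dy (W K * (N + R N r + 1) + 3) (baseL N K r P).1 ∧
        Dy (W K * (N + R N r + 1) + 3) (baseL N K r P).2 := by
      intro P hP
      rcases P with _ | ⟨k, j⟩
      · exact ⟨E2_ClB_two _, E2_ClB_pow _ _⟩
      · refine ⟨?_, ?_⟩
        · have := Dy_nat (W K * (N + R N r + 1) + 3) (2 * k + 1)
          push_cast at this
          exact this
        · refine (Dy_pw (W K * j)).mono ?_
          have hj : j ≤ R N r := by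
            have h1 : (some (k, j) : Option (ℕ × ℕ)) ∈
                insert none (((range (K + 1)) ×ˢ (Icc 1 (R N r))).image some) := hP
            simp only [mem_insert, mem_image, mem_product, mem_range, mem_Icc, Prod.exists,
              Option.some.injEq, Prod.mk.injEq, reduceCtorEq, false_or] at h1
            obtain ⟨a, b, ⟨-, -, hb⟩, -, rfl⟩ := h1
            exact hb
          have h2 : W K * j ≤ W K * (N + R N r + 1) := Nat.mul_le_mul_left _ (by omega)
          omega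
    have key := E2_ClB_side h.hN h.hK h.hr h.cL (baseOK_L h.hN h.hK h.hr) (sizeL h.hN h.hK h.hr) hbase
      ((Dy_pw (3 * G N K r)).mono (by omega)) ((Dy_pw (6 * G N K r)).mono (by omega)) (v := v) hv
    obtain ⟨k1, k2, k3, k4⟩ := key
    refine ⟨k1, k2.neg, ?_, ?_⟩
    · show -(ptOf N K r (KL N K r) (baseL N K r) (pw (3 * G N K r)) (pw (6 * G N K r)) v).2 ≠ 0
      exact neg_ne_zero.2 (ne_of_gt k3)
    · show |-(ptOf N K r (KL N K r) (baseL N K r) (pw (3 * G N K r)) (pw (6 * G N K r)) v).2| ≤ _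
      rw [abs_neg, abs_of_pos k3]
      exact k4

end Inst

end Pool.Agent.TRI
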