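import Pool.Agent.TRI.E2_ClA

/-!
Area E2: number theoretic core of `clear`.
-/

namespace Pool.Agent.TRI

namespace Inst

open Finset

/-- Number theoretic core. Integers: `u = U / 2 ^ b`, `v = V / 2 ^ b`, `b = 10 g`,
`d = V.2 - U.2`; `d ≠ 0` (otherwise `det = 0` gives `u = v` since `u.2 ≠ 0`), `|d| ≤ 2 ^ (b + g + 1)`,
and `det u v (fpt c) = 0` says `c * 2 ^ b * d = n` with an integer `n`. If `y * 2 ^ (22 g) = m` is
odd then `(c - y) * 2 ^ (22 g) * d = n * 2 ^ (12 g) - m * d` is an integer; it is not zero, as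
otherwise `2 ^ (12 g) ∣ d` (m odd), `|d| ≥ 2 ^ (12 g) > 2 ^ (11 g + 1)`. Hence
`|c - y| ≥ 1 / (2 ^ (22 g) * |d|) ≥ 1 / 2 ^ (33 g + 1)`. -/
theorem clear_core {g : ℕ} (hg : 2 ≤ g) {u v : Pt} {c y : ℝ} (huv : u ≠ v)
    (hu1 : Dy (10 * g) u.1) (hu2 : Dy (10 * g) u.2) (hv1 : Dy (10 * g) v.1)
    (hv2 : Dy (10 * g) v.2) (hu0 : u.2 ≠ 0) (hu : |u.2| ≤ 2 ^ g) (hv : |v.2| ≤ 2 ^ g)
    (hy : ∃ n : ℤ, y * 2 ^ (22 * g) = 2 * n + 1) (hdet : det u v (fpt c) = 0) :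
    1 / 2 ^ (34 * g) ≤ |c - y| := by
  obtain ⟨U1, hU1⟩ := hu1
  obtain ⟨U2, hU2⟩ := hu2
  obtain ⟨V1, hV1⟩ := hv1
  obtain ⟨V2, hV2⟩ := hv2
  obtain ⟨m, hm⟩ := hy
  have hdet' : (v.2 - u.2) * c = v.2 * u.1 - v.1 * u.2 := by
    have h : (v.1 - u.1) * (0 - u.2) - (v.2 - u.2) * (c - u.1) = 0 := hdet
    linarith
  have hpos : (0 : ℝ) < 2 ^ (10 * g) := by positivity
  have hd : ((V2 - U2 : ℤ) : ℝ) = (v.2 - u.2) * 2 ^ (10 * g) := by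
    push_cast
    rw [← hV2, ← hU2]
    ring
  have hn : c * (2 ^ (10 * g) * ((V2 - U2 : ℤ) : ℝ)) = ((V2 * U1 - V1 * U2 : ℤ) : ℝ) := by
    have e1 : ((V2 * U1 - V1 * U2 : ℤ) : ℝ) =
        (v.2 * u.1 - v.1 * u.2) * (2 ^ (10 * g) * 2 ^ (10 * g)) := by
      push_cast
      rw [← hV2, ← hU1, ← hV1, ← hU2]
      ring
    rw [e1, ← hdet', hd]
    ring
  have hd0 : V2 - U2 ≠ 0 := by
    intro h0
    rw [h0, Int.cast_zero] at hd
    have h1 : v.2 - u.2 = 0 := by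
      rcases mul_eq_zero.1 hd.symm with h | h
      · exact h
      · exact absurd h hpos.ne'
    have h2 : v.2 = u.2 := by linarith
    rw [h1, zero_mul, h2] at hdet'
    have h3 : u.2 * (u.1 - v.1) = 0 := by linarith
    rcases mul_eq_zero.1 h3 with h | h
    · exact hu0 h
    · exact huv (Prod.ext (by linarith) h2.symm)
  have hdle : |((V2 - U2 : ℤ) : ℝ)| ≤ 2 ^ (11 * g + 1) := by
    rw [hd, abs_mul, abs_of_pos hpos]
    have h1 : |v.2 - u.2| ≤ 2 ^ g + 2 ^ g := (abs_sub _ _).trans (add_le_add hv hu)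
    have h2 : ((2 : ℝ) ^ (11 * g + 1)) = (2 ^ g + 2 ^ g) * 2 ^ (10 * g) := by
      rw [← two_mul, ← pow_succ', ← pow_add]
      congr 1
      omega
    rw [h2]
    exact mul_le_mul_of_nonneg_right h1 hpos.le
  -- the integer
  have hI : (c - y) * (2 ^ (22 * g) * ((V2 - U2 : ℤ) : ℝ)) =
      (((V2 * U1 - V1 * U2) * 2 ^ (12 * g) - (2 * m + 1) * (V2 - U2) : ℤ) : ℝ) := by
    have e1 : ((2 : ℝ) ^ (22 * g)) = 2 ^ (10 * g) * 2 ^ (12 * g) := by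
      rw [← pow_add]
      congr 1
      omega
    have e2 : (((V2 * U1 - V1 * U2) * 2 ^ (12 * g) - (2 * m + 1) * (V2 - U2) : ℤ) : ℝ) =
        ((V2 * U1 - V1 * U2 : ℤ) : ℝ) * 2 ^ (12 * g) -
          (2 * (m : ℝ) + 1) * ((V2 - U2 : ℤ) : ℝ) := by
      push_cast
      ring
    rw [e2, ← hn, ← hm, e1]
    ring
  have hI0 : (V2 * U1 - V1 * U2) * 2 ^ (12 * g) - (2 * m + 1) * (V2 - U2) ≠ 0 := by
    intro h0
    have h1 : (2 : ℤ) ^ (12 * g) ∣ (2 * m + 1) * (V2 - U2) :=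
      ⟨V2 * U1 - V1 * U2, by linarith⟩
    have hcop : IsCoprime ((2 : ℤ) ^ (12 * g)) (2 * m + 1) := by
      apply IsCoprime.pow_left
      exact ⟨-m, 1, by ring⟩
    have h2 : (2 : ℤ) ^ (12 * g) ∣ V2 - U2 := hcop.dvd_of_dvd_mul_left h1
    have h3 : (2 : ℤ) ^ (12 * g) ≤ |V2 - U2| :=
      Int.le_of_dvd (abs_pos.2 hd0) ((dvd_abs _ _).2 h2)
    have h4 : ((2 : ℝ) ^ (12 * g)) ≤ |((V2 - U2 : ℤ) : ℝ)| := by
      have : (((2 : ℤ) ^ (12 * g) : ℤ) : ℝ) ≤ ((|V2 - U2| : ℤ) : ℝ) := Int.cast_le.2 h3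
      rw [Int.cast_abs] at this
      push_cast at this ⊢
      exact this
    have h5 : ((2 : ℝ) ^ (11 * g + 1)) < 2 ^ (12 * g) :=
      pow_lt_pow_right₀ (by norm_num) (by omega)
    linarith
  have hI1 : (1 : ℝ) ≤ |(c - y) * (2 ^ (22 * g) * ((V2 - U2 : ℤ) : ℝ))| := by
    rw [hI, ← Int.cast_abs]
    exact_mod_cast Int.one_le_abs hI0
  rw [abs_mul, abs_mul, abs_of_pos (by positivity : (0 : ℝ) < 2 ^ (22 * g))] at hI1
  have h6 : (2 : ℝ) ^ (22 * g) * |((V2 - U2 : ℤ) : ℝ)| ≤ 2 ^ (34 * g) := by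
    calc (2 : ℝ) ^ (22 * g) * |((V2 - U2 : ℤ) : ℝ)| ≤ 2 ^ (22 * g) * 2 ^ (11 * g + 1) :=
          mul_le_mul_of_nonneg_left hdle (by positivity)
      _ = 2 ^ (22 * g + (11 * g + 1)) := by rw [← pow_add]
      _ ≤ 2 ^ (34 * g) := pow_le_pow_right₀ (by norm_num) (by omega)
  rw [div_le_iff₀ (by positivity)]
  exact hI1.trans (mul_le_mul_of_nonneg_left h6 (abs_nonneg _))

end Inst

end Pool.Agent.TRI
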