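import Pool.Agent.TRI.E2_CrD

/-!
Area E2: assembly of `crossing`, `goodFeet`, `sep`, `sepB`.
-/

namespace Pool.Agent.TRI

namespace Inst

open Finset

variable {N K r : ℕ}

theorem E2_CrE_s (h : Ok N K r) {w : ℕ} (hw : w ∈ win N K r) :
    (KU N K r).s ((KU N K r).own w) = 3 ∧ (KL N K r).s ((KL N K r).own w) = 1 := by
  obtain ⟨k, j, -, -, -, -, hs, -, h1⟩ := win_cases hw
  rcases h1 with ⟨-, h2, h3⟩ | ⟨-, h2, h3⟩
  · rw [h2, h3]
    refine ⟨rfl, ?_⟩
    show (if isSpin N K r k j then 1 else 0) = 1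
    rw [if_pos hs]
  · rw [h2, h3]
    refine ⟨rfl, ?_⟩
    show (if isSpin N K r k j then 1 else 0) = 1
    rw [if_pos hs]

theorem E2_CrE_win_lt {w : ℕ} (hw : w ∈ win N K r) : w < F N K r := by
  unfold win at hw
  exact (mem_Ico.1 (mem_filter.1 hw).1).2

theorem E2_CrE_mem {fw : ℕ → ℕ → Bool} {w c m : ℕ} (hw : w ∈ win N K r) (hc : c ≤ 3)
    (hm : m ≤ 1) (hb : bad fw w c m) :
    cr ((DU N K r).pt (.z ((KU N K r).own w) c)) ((DL N K r).pt (.z ((KL N K r).own w) m)) ∈
      Bl N K r fw := by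
  classical
  unfold Bl
  rw [mem_biUnion]
  refine ⟨w, hw, ?_⟩
  rw [mem_image]
  refine ⟨(c, m), ?_, rfl⟩
  rw [mem_filter, mem_product, mem_range, mem_range]
  exact ⟨⟨by simp only; omega, by simp only; omega⟩, hb⟩

theorem E2_CrE_pos (h : Ok N K r) {w c m : ℕ} (hw : w ∈ win N K r) (hc : c ≤ 3)
    (hm : m ≤ 1) :
    x N K r w + De N K r / 2 ≤ cr ((DU N K r).pt (.z ((KU N K r).own w) c))
        ((DL N K r).pt (.z ((KL N K r).own w) m)) ∧
      cr ((DU N K r).pt (.z ((KU N K r).own w) c))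
        ((DL N K r).pt (.z ((KL N K r).own w) m)) + De N K r / 2 ≤ x N K r (w + 1) := by
  obtain ⟨h1, h2⟩ := E2_CrE_s h hw
  refine cr_mem h hw (Or.inl ⟨c, ?_, rfl⟩) (Or.inl ⟨m, ?_, rfl⟩)
  · rw [h1]; exact hc
  · rw [h2]; exact hm

/-- C11. Blockers: form and position. -/
theorem Bl_form (h : Ok N K r) {fw : ℕ → ℕ → Bool} {b : ℝ}
    (hb : b ∈ Bl N K r fw) : ∃ w ∈ win N K r, ∃ c ≤ 3, ∃ m ≤ 1, bad fw w c m ∧
      b = cr ((DU N K r).pt (.z ((KU N K r).own w) c))
        ((DL N K r).pt (.z ((KL N K r).own w) m)) ∧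
      x N K r w + De N K r / 2 ≤ b ∧ b + De N K r / 2 ≤ x N K r (w + 1) := by
  classical
  unfold Bl at hb
  rw [mem_biUnion] at hb
  obtain ⟨w, hw, hb⟩ := hb
  rw [mem_image] at hb
  obtain ⟨⟨c, m⟩, hcm, rfl⟩ := hb
  rw [mem_filter, mem_product, mem_range, mem_range] at hcm
  obtain ⟨⟨hc, hm⟩, hbad⟩ := hcm
  simp only at hc hm hbad
  exact ⟨w, hw, c, by omega, m, by omega, hbad, rfl,
    E2_CrE_pos h hw (by omega) (by omega)⟩

/-- C12. Assembly of `crossing` from C6 - C11. In `zz`: `s (own w) = 3` above and `= 1` below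
(`win_cases`). -/
theorem crossing' (h : Ok N K r) (fw : ℕ → ℕ → Bool) :
    Crossing (KU N K r) (KL N K r) (DU N K r) (DL N K r) (x N K r) (win N K r)
      (Bl N K r fw) (bad fw) := by
  have hDe := De_pos (N := N) (K := K) (r := r)
  refine ⟨?_, ?_, ?_, ?_⟩
  · intro w hw u l hu hl
    have := cr_mem h hw hu hl
    constructor <;> linarith [this.1, this.2]
  · intro w hw c hc m hm
    rw [(E2_CrE_s h hw).1] at hc
    rw [(E2_CrE_s h hw).2] at hm
    constructor
    · intro hb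
      obtain ⟨w', hw', c', hc', m', hm', hbad, he, h1, h2⟩ := Bl_form h hb
      have h3 := E2_CrE_pos h hw hc hm
      have hww : w = w' := win_unique h (E2_CrE_win_lt hw) (E2_CrE_win_lt hw')
        (b := cr ((DU N K r).pt (.z ((KU N K r).own w) c))
          ((DL N K r).pt (.z ((KL N K r).own w) m)))
        (by linarith [h3.1]) (by linarith [h3.2]) (by linarith) (by linarith)
      subst hww
      obtain ⟨rfl, rfl⟩ := cr_zz_inj h hw hc hm hc' hm' he
      exact hbad
    · exact E2_CrE_mem hw hc hm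
  · intro w hw u l hu hl hq hb
    obtain ⟨w', hw', c', hc', m', hm', hbad, he, h1, h2⟩ := Bl_form h hb
    have h3 := cr_mem h hw hu hl
    have hww : w = w' := win_unique h (E2_CrE_win_lt hw) (E2_CrE_win_lt hw')
      (b := cr ((DU N K r).pt u) ((DL N K r).pt l))
      (by linarith [h3.1]) (by linarith [h3.2]) (by linarith) (by linarith)
    subst hww
    have h4 := cr_leaf_far h hw hu hl hq
    have h5 := cr_zz_close h hw hc' hm'
    rw [← he] at h5
    have h6 : be N K r ^ 46 < be N K r ^ 28 := by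
      refine pow_lt_pow_right_of_lt_one₀ be_pos ?_ (by norm_num)
      have := be_le (N := N) (K := K) (r := r) h.hN h.hK h.hr
      have h7 : (1 : ℝ) / 2 ^ 100 < 1 := by norm_num
      linarith
    linarith
  · intro b hb
    obtain ⟨w, hw, c, hc, m, hm, hbad, he, h1, h2⟩ := Bl_form h hb
    exact ⟨w, hw, by linarith, by linarith⟩

theorem goodFeet' (h : Ok N K r) (fw : ℕ → ℕ → Bool) :
    GoodFeet (F N K r) (x N K r) (Bl N K r fw) := by
  have hDe := De_pos (N := N) (K := K) (r := r)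
  refine ⟨?_, ?_, ?_⟩
  · have := h.cU.three
    omega
  · intro i j hij hj
    exact x_mono h.hN h.hK h.hr hij hj
  · intro b hb
    obtain ⟨w, hw, c, hc, m, hm, hbad, he, h1, h2⟩ := Bl_form h hb
    have hwF := E2_CrE_win_lt hw
    refine ⟨?_, ?_, ?_⟩
    · have := x_le h.hN h.hK h.hr (Nat.zero_le w) hwF.le
      linarith
    · have := x_le h.hN h.hK h.hr (i := w + 1) (j := F N K r) hwF le_rfl
      linarith
    · rintro i hi rfl
      rcases Nat.lt_or_ge w i with h3 | h3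
      · have := x_le h.hN h.hK h.hr (i := w + 1) (j := i) h3 hi
        linarith
      · have := x_le h.hN h.hK h.hr h3 hwF.le
        linarith

/-- `2 ^ G * kap = be ^ 392 ≤ De / 4` -/
theorem kap_le (h : Ok N K r) :
    ((2 ^ G N K r : ℕ) : ℝ) * kap N K r ≤ be N K r ^ 392 ∧
      ((2 ^ G N K r : ℕ) : ℝ) * kap N K r ≤ De N K r / 4 := by
  have hDe := De_pos (N := N) (K := K) (r := r)
  have hbe := be_pos (N := N) (K := K) (r := r)
  have h1 := be_le (N := N) (K := K) (r := r) h.hN h.hK h.hr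
  have h2 := be_le_De (N := N) (K := K) (r := r)
  have h3 : ((2 ^ G N K r : ℕ) : ℝ) * kap N K r = be N K r ^ 392 := by
    have h4 := pw_mul_two (G N K r)
    rw [pw_G1] at h4
    have h5 : kap N K r = be N K r ^ 8 * be N K r ^ 392 := by
      unfold kap
      rw [pw_G, ← pow_add]
    rw [h5]
    push_cast
    calc (2 : ℝ) ^ G N K r * (be N K r ^ 8 * be N K r ^ 392)
        = (be N K r ^ 8 * 2 ^ G N K r) * be N K r ^ 392 := by ring
      _ = be N K r ^ 392 := by rw [h4, one_mul]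
  have h6 : be N K r ^ 392 ≤ De N K r / 4 := by
    have h7 : (1 : ℝ) / 2 ^ 100 ≤ 1 / 4 := by norm_num
    have h8 : be N K r ≤ 1 := by linarith
    calc be N K r ^ 392 ≤ be N K r ^ 2 := pow_le_pow_of_le_one hbe.le h8 (by norm_num)
      _ = be N K r * be N K r := sq _
      _ ≤ De N K r * (1 / 4) := mul_le_mul h2 (by linarith) hbe.le hDe.le
      _ = De N K r / 4 := by ring
  rw [h3]
  exact ⟨le_rfl, h6⟩

theorem sep' (h : Ok N K r) :
    ∀ f ∈ Ioo 0 (F N K r), x N K r f + ((2 ^ G N K r : ℕ) : ℝ) * kap N K r < x N K r (f + 1) := by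
  intro f hf
  have hDe := De_pos (N := N) (K := K) (r := r)
  have h1 := x_gap h.hN h.hK h.hr (mem_Ioo.1 hf).2
  have h2 := (kap_le h).2
  linarith

theorem sepB' (h : Ok N K r) (fw : ℕ → ℕ → Bool) :
    ∀ f ∈ Ioo 0 (F N K r), ∀ b ∈ Bl N K r fw, x N K r f < b →
      x N K r f + ((2 ^ G N K r : ℕ) : ℝ) * kap N K r < b := by
  intro f hf b hb hfb
  have hDe := De_pos (N := N) (K := K) (r := r)
  obtain ⟨w, hw, c, hc, m, hm, hbad, he, h1, h2⟩ := Bl_form h hb
  have hwF := E2_CrE_win_lt hw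
  have h3 := (kap_le h).2
  have hfw : f ≤ w := by
    by_contra hcon
    have := x_le h.hN h.hK h.hr (i := w + 1) (j := f) (by omega) (mem_Ioo.1 hf).2.le
    linarith
  have h4 := x_le h.hN h.hK h.hr hfw hwF.le
  linarith

end Inst

end Pool.Agent.TRI
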