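import Pool.Agent.TRI.E2_ClB
import Pool.Agent.TRI.E2_ClC
import Pool.Agent.TRI.E2_CrE

/-!
Area E2: `clear`.
-/

namespace Pool.Agent.TRI

namespace Inst

open Finset

variable {N K r : ℕ}

theorem clear' (h : Ok N K r) :
    ∀ f ∈ Ioo 0 (F N K r), Clear (offPts (DU N K r) (DL N K r)) (x N K r f)
      (x N K r f + ((2 ^ G N K r : ℕ) : ℝ) * kap N K r) := by
  intro f hf u hu v hv huv c hc1 hc2 hdet
  rw [mem_Ioo] at hf
  have hG : 2 ≤ G N K r := by
    have h1 : 1 * 1 ≤ W K * (N + R N r + 4) := Nat.mul_le_mul (by unfold W; omega) (by omega)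
    unfold G
    omega
  obtain ⟨hu1, hu2, hu0, huG⟩ := offPts_form h hu
  obtain ⟨hv1, hv2, -, hvG⟩ := offPts_form h hv
  have h1 := clear_core hG huv hu1 hu2 hv1 hv2 hu0 huG hvG
    (x_odd h.hN h.hK h.hr (by omega) hf.2) hdet
  have h2 := (kap_le h).1
  have hbe := be_pos (N := N) (K := K) (r := r)
  have hbe1 := be_le (N := N) (K := K) (r := r) h.hN h.hK h.hr
  have h3 : (1 : ℝ) / 2 ^ (34 * G N K r) = be N K r ^ 272 := by
    have h4 := pw_G (N := N) (K := K) (r := r) 34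
    unfold pw at h4
    rw [one_div_pow] at h4
    rw [h4]
  have h5 : be N K r ^ 392 < be N K r ^ 272 := by
    refine pow_lt_pow_right_of_lt_one₀ hbe ?_ (by norm_num)
    have h7 : (1 : ℝ) / 2 ^ 100 < 1 := by norm_num
    linarith
  rw [h3, abs_of_nonneg (by linarith)] at h1
  linarith

end Inst

end Pool.Agent.TRI
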