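import Pool.Agent.TRI.E2_CrA
import Pool.Agent.TRI.E2_GeoA

/-!
Area E2: form of the candidates.
-/

namespace Pool.Agent.TRI

namespace Inst

open Finset

variable {N K r : ℕ}

theorem E2_CrB_a {Ks : Skel (Option (ℕ × ℕ))} (hC : Ks.Comb (F N K r) (win N K r) (ex N K r))
    {w : ℕ} (hw : w ∈ win N K r) :
    Ks.a (Ks.own w) < F N K r ∧ Ks.a (Ks.own w) ≠ w ∧ 1 ≤ w ∧ w + 1 < F N K r := by
  obtain ⟨h1, -, -, -, -, h2, h3, -⟩ := hC.wins w hw
  have hwF := hC.win_lt w hw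
  obtain ⟨h4, -, -, -⟩ := hC.own_mem w hwF
  obtain ⟨h5, h6, h7, -⟩ := hC.ends _ h4 h1
  exact ⟨by omega, by omega, by omega, by omega⟩

theorem E2_CrB_pw (hN : 1 ≤ N) (hK : 2 ≤ K) (hr : 1 ≤ r) (a m : ℕ) (ha : 1 ≤ a) {c : ℕ}
    (hc : c ≤ 3) : (c : ℝ) * be N K r ^ (m + a) ≤ be N K r ^ m := by
  have h1 := be_le hN hK hr
  have h0 := be_pos (N := N) (K := K) (r := r)
  have h2 : (c : ℝ) ≤ 3 := by exact_mod_cast hc
  have h3 : be N K r ^ a ≤ be N K r := by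
    have : be N K r ^ a ≤ be N K r ^ 1 :=
      pow_le_pow_of_le_one h0.le (h1.trans (by norm_num)) ha
    rwa [pow_one] at this
  have h4 : (c : ℝ) * be N K r ^ a ≤ 1 := by
    have h5 : (c : ℝ) * be N K r ^ a ≤ 3 * (1 / 2 ^ 100) :=
      mul_le_mul h2 (h3.trans h1) (pow_pos h0 a).le (by norm_num)
    exact h5.trans (by norm_num)
  have h5 : 0 ≤ be N K r ^ m := (pow_pos h0 m).le
  calc (c : ℝ) * be N K r ^ (m + a) = be N K r ^ m * (c * be N K r ^ a) := by rw [pow_add]; ring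
    _ ≤ be N K r ^ m * 1 := mul_le_mul_of_nonneg_left h4 h5
    _ = be N K r ^ m := mul_one _

/-- C3. Form of the upper candidates: chain points. The target is the middle of a gap
`g = a (own w) ≠ w` (`Comb.ends`: `a P ∉ win`). -/
theorem candU_z (h : Ok N K r) {w : ℕ} (hw : w ∈ win N K r) :
    ∃ g, g < F N K r ∧ g ≠ w ∧ ∀ c : ℕ, (DU N K r).pt (.z ((KU N K r).own w) c) =
      toward (baseU N K ((KU N K r).own w)) (mid N K r g) (c * pw (8 * G N K r)) := by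
  obtain ⟨h1, h2, -, -⟩ := E2_CrB_a h.cU hw
  exact ⟨_, h1, h2, fun c => rfl⟩

/-- C3'. Form of the upper candidates: leaves (`Comb.wins`: `own (w ± 1) = own w`). -/
theorem candU_q (h : Ok N K r) {w : ℕ} (hw : w ∈ win N K r)
    {u : Nm (Option (ℕ × ℕ))} (hu : u = .q (w - 1) ∨ u = .q (w + 1)) :
    ∃ g, g < F N K r ∧ g ≠ w ∧ (DU N K r).pt u =
      toward (baseU N K ((KU N K r).own w)) (mid N K r g) (pw (G N K r)) := by
  obtain ⟨-, -, h3, h4⟩ := E2_CrB_a h.cU hw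
  obtain ⟨-, h5, h6, -⟩ := h.cU.wins w hw
  rcases hu with rfl | rfl
  · refine ⟨w - 1, by omega, by omega, ?_⟩
    rw [← h5]
    rfl
  · refine ⟨w + 1, by omega, by omega, ?_⟩
    rw [← h6]
    rfl

/-- C4. -/
theorem candL_z (h : Ok N K r) {w : ℕ} (hw : w ∈ win N K r) :
    ∃ g, g < F N K r ∧ g ≠ w ∧ ∀ m : ℕ, (DL N K r).pt (.z ((KL N K r).own w) m) =
      toward (baseL N K r ((KL N K r).own w)) (mid N K r g) (m * pw (6 * G N K r)) := by
  obtain ⟨h1, h2, -, -⟩ := E2_CrB_a h.cL hw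
  exact ⟨_, h1, h2, fun c => rfl⟩

/-- C4'. -/
theorem candL_q (h : Ok N K r) {w : ℕ} (hw : w ∈ win N K r)
    {l : Nm (Option (ℕ × ℕ))} (hl : l = .q (w - 1) ∨ l = .q (w + 1)) :
    ∃ g, g < F N K r ∧ g ≠ w ∧ (DL N K r).pt l =
      toward (baseL N K r ((KL N K r).own w)) (mid N K r g) (pw (3 * G N K r)) := by
  obtain ⟨-, -, h3, h4⟩ := E2_CrB_a h.cL hw
  obtain ⟨-, h5, h6, -⟩ := h.cL.wins w hw
  rcases hl with rfl | rfl
  · refine ⟨w - 1, by omega, by omega, ?_⟩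
    rw [← h5]
    rfl
  · refine ⟨w + 1, by omega, by omega, ?_⟩
    rw [← h6]
    rfl

/-- C5. All candidates, upper side (combine C3, C3'; `s (own w) ≤ 3`). -/
theorem candU (h : Ok N K r) {w : ℕ} (hw : w ∈ win N K r)
    {u : Nm (Option (ℕ × ℕ))} (hu : Cand (KU N K r) w u) :
    ∃ g e, g < F N K r ∧ g ≠ w ∧ 0 ≤ e ∧ e ≤ be N K r ^ 8 ∧
      (DU N K r).pt u = toward (baseU N K ((KU N K r).own w)) (mid N K r g) e := by
  rcases hu with ⟨c, hc, rfl⟩ | hu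
  · obtain ⟨g, h1, h2, h3⟩ := candU_z h hw
    refine ⟨g, _, h1, h2, ?_, ?_, h3 c⟩
    · exact mul_nonneg (Nat.cast_nonneg c) (pw_pos _).le
    · have hs : (KU N K r).s ((KU N K r).own w) ≤ 3 := by
        cases (KU N K r).own w with
        | none => exact Nat.zero_le _
        | some P => exact le_refl _
      rw [pw_G]
      exact E2_CrB_pw h.hN h.hK h.hr 56 8 (by omega) (hc.trans hs)
  · obtain ⟨g, h1, h2, h3⟩ := candU_q h hw hu
    exact ⟨g, _, h1, h2, (pw_pos _).le, pw_G1.le, h3⟩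

/-- C5'. All candidates, lower side. -/
theorem candL (h : Ok N K r) {w : ℕ} (hw : w ∈ win N K r)
    {l : Nm (Option (ℕ × ℕ))} (hl : Cand (KL N K r) w l) :
    ∃ g e, g < F N K r ∧ g ≠ w ∧ 0 ≤ e ∧ e ≤ be N K r ^ 24 ∧
      (DL N K r).pt l = toward (baseL N K r ((KL N K r).own w)) (mid N K r g) e := by
  rcases hl with ⟨c, hc, rfl⟩ | hl
  · obtain ⟨g, h1, h2, h3⟩ := candL_z h hw
    refine ⟨g, _, h1, h2, ?_, ?_, h3 c⟩
    · exact mul_nonneg (Nat.cast_nonneg c) (pw_pos _).le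
    · have hs : (KL N K r).s ((KL N K r).own w) ≤ 3 := by
        cases (KL N K r).own w with
        | none => exact Nat.zero_le _
        | some P =>
          change (if isSpin N K r P.1 P.2 then 1 else 0) ≤ 3
          split_ifs <;> omega
      rw [pw_G]
      exact E2_CrB_pw h.hN h.hK h.hr 24 24 (by omega) (hc.trans hs)
  · obtain ⟨g, h1, h2, h3⟩ := candL_q h hw hl
    exact ⟨g, _, h1, h2, (pw_pos _).le, (pw_G 3).le, h3⟩

end Inst

end Pool.Agent.TRI
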