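import Pool.Agent.TRI.E2_CrB

/-!
Area E2: position of the crossings of two candidates.
-/

namespace Pool.Agent.TRI

namespace Inst

open Finset

variable {N K r : ℕ}

private theorem crc_small (hB : 0 < be N K r) (hB1 : be N K r ≤ 1 / 2 ^ 100) (n : ℕ) (hn : 1 ≤ n) :
    0 < be N K r ^ n ∧ be N K r ^ n ≤ 1 / 2 ^ 100 ∧ be N K r ^ n ≤ be N K r := by
  have h1 : be N K r ≤ 1 := hB1.trans (by norm_num)
  have h2 : be N K r ^ n ≤ be N K r := by
    calc be N K r ^ n ≤ be N K r ^ 1 := pow_le_pow_of_le_one hB.le h1 hn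
      _ = be N K r := pow_one _
  exact ⟨pow_pos hB n, h2.trans hB1, h2⟩

private theorem crc_nodeU (h : Ok N K r) {w : ℕ} (hw : w ∈ win N K r) :
    (KU N K r).own w ∈ (KU N K r).nodes :=
  (h.cU.own_mem w (h.cU.win_lt w hw)).1

private theorem crc_nodeL (h : Ok N K r) {w : ℕ} (hw : w ∈ win N K r) :
    (KL N K r).own w ∈ (KL N K r).nodes :=
  (h.cL.own_mem w (h.cL.win_lt w hw)).1

private theorem crc_bd (h : Ok N K r) {w g g' : ℕ} (hw : w ∈ win N K r) (hg : g < F N K r)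
    (hg' : g' < F N K r) {e e' : ℝ} (he0 : 0 ≤ e) (he0' : 0 ≤ e') (he : e < 1) (he' : e' < 1) :
    |cr (toward (baseU N K ((KU N K r).own w)) (mid N K r g) e)
      (toward (baseL N K r ((KL N K r).own w)) (mid N K r g') e') - XX N K r w| ≤
      (e + e') * (2 * K + 2) := by
  have hU := (baseOK_U h.hN h.hK h.hr).y0 _ (crc_nodeU h hw)
  have hL := (baseOK_L h.hN h.hK h.hr).y0 _ (crc_nodeL h hw)
  have hB : 0 < be N K r := be_pos
  exact cr_toward_bd (lt_of_lt_of_le hB hU.1) (lt_of_lt_of_le hB hL.1) he0 he0' he he'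
    (XX_range h hw hg) (XX_range h hw hg')

/-- C6. `cr` of two candidates is in the window, with margin `De / 2`: `|cr - XX| ≤
2 * be ^ 8 * (2 K + 2) ≤ be / 2` by `cr_toward_bd`. -/
theorem cr_mem (h : Ok N K r) {w : ℕ} (hw : w ∈ win N K r)
    {u l : Nm (Option (ℕ × ℕ))} (hu : Cand (KU N K r) w u) (hl : Cand (KL N K r) w l) :
    x N K r w + De N K r / 2 ≤ cr ((DU N K r).pt u) ((DL N K r).pt l) ∧
      cr ((DU N K r).pt u) ((DL N K r).pt l) + De N K r / 2 ≤ x N K r (w + 1) := by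
  obtain ⟨g, e, hg, _, he0, he1, heu⟩ := candU h hw hu
  obtain ⟨g', e', hg', _, he0', he1', hel⟩ := candL h hw hl
  have hB : 0 < be N K r := be_pos
  have hB1 := be_le h.hN h.hK h.hr
  have hRB := Rg_be h.hN h.hK h.hr
  have h8 := crc_small hB hB1 8 (by norm_num)
  have h24 := crc_small hB hB1 24 (by norm_num)
  have h7 := crc_small hB hB1 7 (by norm_num)
  have hone : (1 : ℝ) / 2 ^ 100 ≤ 1 / 16 := by norm_num
  have hbd := crc_bd h hw hg hg' he0 he0' (by linarith [h8.2.1]) (by linarith [h24.2.1])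
  rw [← heu, ← hel] at hbd
  have hK0 : (0 : ℝ) ≤ 2 * K + 2 := by positivity
  have h248 : be N K r ^ 24 ≤ be N K r ^ 8 :=
    pow_le_pow_of_le_one hB.le (hB1.trans (by norm_num)) (by norm_num)
  have h1 : (e + e') * (2 * K + 2) ≤ 2 * be N K r ^ 8 * (2 * K + 2) :=
    mul_le_mul_of_nonneg_right (by linarith) hK0
  have h2 : 2 * be N K r ^ 8 * (2 * K + 2) = 2 * (be N K r ^ 7 * ((2 * K + 2) * be N K r)) := by
    ring
  have h3 : be N K r ^ 7 * ((2 * K + 2) * be N K r) ≤ be N K r * (1 / 16) :=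
    mul_le_mul h7.2.2 (hRB.trans hone) (by positivity) hB.le
  have hDe : be N K r ≤ De N K r := be_le_De
  obtain ⟨hx1, hx2⟩ := XX_mem h hw
  rw [abs_le] at hbd
  constructor <;> linarith [hbd.1, hbd.2]

/-- C7. Blockers are close to `XX`: at most `(3 be ^ 64 + be ^ 48) (2 K + 2) ≤ be ^ 46`. -/
theorem cr_zz_close (h : Ok N K r) {w c m : ℕ} (hw : w ∈ win N K r)
    (hc : c ≤ 3) (hm : m ≤ 1) :
    |cr ((DU N K r).pt (.z ((KU N K r).own w) c)) ((DL N K r).pt (.z ((KL N K r).own w) m)) -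
      XX N K r w| ≤ be N K r ^ 46 := by
  obtain ⟨g, hg, _, hu⟩ := candU_z h hw
  obtain ⟨g', hg', _, hl⟩ := candL_z h hw
  have hB : 0 < be N K r := be_pos
  have hB1 := be_le h.hN h.hK h.hr
  have hRB := Rg_be h.hN h.hK h.hr
  have hone : (1 : ℝ) / 2 ^ 100 ≤ 1 / 16 := by norm_num
  have h64 := crc_small hB hB1 64 (by norm_num)
  have h48 := crc_small hB hB1 48 (by norm_num)
  have hc' : (c : ℝ) ≤ 3 := by exact_mod_cast hc
  have hm' : (m : ℝ) ≤ 1 := by exact_mod_cast hm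
  have hc0 : (0 : ℝ) ≤ c := Nat.cast_nonneg c
  have hm0 : (0 : ℝ) ≤ m := Nat.cast_nonneg m
  have e1 : pw (8 * G N K r) = be N K r ^ 64 := pw_G 8
  have e2 : pw (6 * G N K r) = be N K r ^ 48 := pw_G 6
  have hcb : (c : ℝ) * be N K r ^ 64 ≤ 3 * be N K r ^ 64 :=
    mul_le_mul_of_nonneg_right hc' h64.1.le
  have hmb : (m : ℝ) * be N K r ^ 48 ≤ 1 * be N K r ^ 48 :=
    mul_le_mul_of_nonneg_right hm' h48.1.le
  have hbd := crc_bd h hw hg hg' (e := c * be N K r ^ 64) (e' := m * be N K r ^ 48)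
    (mul_nonneg hc0 h64.1.le) (mul_nonneg hm0 h48.1.le) (by linarith [h64.2.1])
    (by linarith [h48.2.1])
  rw [hu c, hl m, e1, e2]
  refine hbd.trans ?_
  have hK0 : (0 : ℝ) ≤ 2 * K + 2 := by positivity
  have h1 : (c * be N K r ^ 64 + m * be N K r ^ 48) * (2 * K + 2) ≤
      (3 * be N K r ^ 64 + 1 * be N K r ^ 48) * (2 * K + 2) :=
    mul_le_mul_of_nonneg_right (by linarith) hK0
  have h46 : 0 < be N K r ^ 46 := pow_pos hB 46
  have h17 := crc_small hB hB1 17 (by norm_num)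
  have h1' := crc_small hB hB1 1 (by norm_num)
  have h2 : (3 * be N K r ^ 64 + 1 * be N K r ^ 48) * (2 * K + 2) =
      be N K r ^ 46 * ((3 * be N K r ^ 17 + be N K r) * ((2 * K + 2) * be N K r)) := by
    ring
  have h3 : (3 * be N K r ^ 17 + be N K r) * ((2 * K + 2) * be N K r) ≤ 1 * (1 / 16) :=
    mul_le_mul (by linarith [h17.2.1]) (hRB.trans hone) (by positivity) (by norm_num)
  have h4 := mul_le_mul_of_nonneg_left h3 h46.le
  linarith

/-- C8. Crossings with a leaf are far from `XX`: upper leaf: `cr_toward_lb` with `b = be`, `d = De`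
(`≥ be`): at least `be ^ 8 * be ^ 2 * be / 4 - be ^ 24 (2 K + 2)`; upper chain point and lower leaf:
`cr_toward_lb'`: at least `be ^ 24 * be ^ 3 / 4 - 3 * be ^ 64 * (2 K + 2)`. -/
theorem cr_leaf_far (h : Ok N K r) {w : ℕ} (hw : w ∈ win N K r)
    {u l : Nm (Option (ℕ × ℕ))} (hu : Cand (KU N K r) w u) (hl : Cand (KL N K r) w l)
    (hq : IsQ u ∨ IsQ l) :
    be N K r ^ 28 ≤ |cr ((DU N K r).pt u) ((DL N K r).pt l) - XX N K r w| := by
  have hB : 0 < be N K r := be_pos
  have hB1 := be_le h.hN h.hK h.hr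
  have hRB := Rg_be h.hN h.hK h.hr
  have hone : (1 : ℝ) / 2 ^ 100 ≤ 1 / 64 := by norm_num
  have hDe : be N K r ≤ De N K r := be_le_De
  have hK0 : (0 : ℝ) ≤ 2 * K + 2 := by positivity
  have hU := (baseOK_U h.hN h.hK h.hr).y0 _ (crc_nodeU h hw)
  have hL := (baseOK_L h.hN h.hK h.hr).y0 _ (crc_nodeL h hw)
  have hB0 : 0 ≤ (2 * K + 2) * be N K r := by positivity
  by_cases hqu : IsQ u
  · -- the upper point is a leaf
    have hu' : u = .q (w - 1) ∨ u = .q (w + 1) := by
      rcases hu with ⟨c, _, hc⟩ | hu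
      · obtain ⟨g, hg⟩ := hqu
        rw [hc] at hg
        cases hg
      · exact hu
    obtain ⟨g, hg, hgw, hu2⟩ := candU_q h hw hu'
    obtain ⟨g', e', hg', _, he0', he1', hl2⟩ := candL h hw hl
    rw [pw_G1] at hu2
    have h8 := crc_small hB hB1 8 (by norm_num)
    have h24 := crc_small hB hB1 24 (by norm_num)
    have hlb := cr_toward_lb (t := mid N K r g) (t' := mid N K r g') (e := be N K r ^ 8) (e' := e')
      (Rg := 2 * K + 2) (b := be N K r) (d := De N K r) hB hU.1 hL.1 hU.2 hL.2 h8.1.le he0'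
      (by linarith [h8.2.1]) (by linarith [h24.2.1]) (hB.le.trans hDe)
      (XX_far h hw hg hgw) (XX_range h hw hg')
    rw [← hu2, ← hl2] at hlb
    refine le_trans ?_ hlb
    have hs : 0 < be N K r ^ 11 := pow_pos hB 11
    have h17 := crc_small hB hB1 17 (by norm_num)
    have h12 := crc_small hB hB1 12 (by norm_num)
    have e28 : be N K r ^ 28 = be N K r ^ 11 * be N K r ^ 17 := by ring
    have k1 : be N K r ^ 11 * be N K r ^ 17 ≤ be N K r ^ 11 * (1 / 64) :=
      mul_le_mul_of_nonneg_left (h17.2.1.trans hone) hs.le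
    have k2 : e' * (2 * K + 2) ≤ be N K r ^ 24 * (2 * K + 2) :=
      mul_le_mul_of_nonneg_right he1' hK0
    have k3 : be N K r ^ 24 * (2 * K + 2) =
        be N K r ^ 11 * (be N K r ^ 12 * ((2 * K + 2) * be N K r)) := by ring
    have k4 : be N K r ^ 12 * ((2 * K + 2) * be N K r) ≤ 1 * (1 / 64) :=
      mul_le_mul (by linarith [h12.2.1]) (hRB.trans hone) hB0 (by norm_num)
    have k5 := mul_le_mul_of_nonneg_left k4 hs.le
    have k6 : be N K r ^ 8 * be N K r ^ 2 * be N K r ≤ be N K r ^ 8 * be N K r ^ 2 * De N K r :=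
      mul_le_mul_of_nonneg_left hDe (by positivity)
    have k7 : be N K r ^ 8 * be N K r ^ 2 * be N K r = be N K r ^ 11 := by ring
    linarith
  · -- the upper point is a chain point, the lower one is a leaf
    have hql : IsQ l := hq.resolve_left hqu
    obtain ⟨c, hc, hu'⟩ : ∃ c ≤ (KU N K r).s ((KU N K r).own w), u = .z ((KU N K r).own w) c := by
      rcases hu with hu | hu | hu
      · exact hu
      · exact absurd ⟨_, hu⟩ hqu
      · exact absurd ⟨_, hu⟩ hqu
    have hl' : l = .q (w - 1) ∨ l = .q (w + 1) := by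
      rcases hl with ⟨c, _, hc⟩ | hl
      · obtain ⟨g, hg⟩ := hql
        rw [hc] at hg
        cases hg
      · exact hl
    obtain ⟨g, hg, _, hu2⟩ := candU_z h hw
    obtain ⟨g', hg', hgw', hl2⟩ := candL_q h hw hl'
    have e1 : pw (8 * G N K r) = be N K r ^ 64 := pw_G 8
    have e2 : pw (3 * G N K r) = be N K r ^ 24 := pw_G 3
    have hu3 := hu2 c
    rw [← hu', e1] at hu3
    rw [e2] at hl2
    have h64 := crc_small hB hB1 64 (by norm_num)
    have h24 := crc_small hB hB1 24 (by norm_num)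
    have hc3 : c ≤ 3 := hc.trans ((baseOK_U h.hN h.hK h.hr).s3 _ (crc_nodeU h hw))
    have hc' : (c : ℝ) ≤ 3 := by exact_mod_cast hc3
    have hc0 : (0 : ℝ) ≤ c := Nat.cast_nonneg c
    have hcb : (c : ℝ) * be N K r ^ 64 ≤ 3 * be N K r ^ 64 :=
      mul_le_mul_of_nonneg_right hc' h64.1.le
    have hlb := cr_toward_lb' (t := mid N K r g) (t' := mid N K r g') (e := c * be N K r ^ 64)
      (e' := be N K r ^ 24)
      (Rg := 2 * K + 2) (b := be N K r) (d := De N K r) hB hU.1 hL.1 hU.2 hL.2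
      (mul_nonneg hc0 h64.1.le) h24.1.le
      (by linarith [h64.2.1]) (by linarith [h24.2.1]) (hB.le.trans hDe)
      (XX_range h hw hg) (XX_far h hw hg' hgw')
    rw [← hu3, ← hl2] at hlb
    refine le_trans ?_ hlb
    have hs : 0 < be N K r ^ 27 := pow_pos hB 27
    have h36 := crc_small hB hB1 36 (by norm_num)
    have e28 : be N K r ^ 28 = be N K r ^ 27 * be N K r := by ring
    have k1 : be N K r ^ 27 * be N K r ≤ be N K r ^ 27 * (1 / 64) :=
      mul_le_mul_of_nonneg_left (hB1.trans hone) hs.le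
    have k2 : c * be N K r ^ 64 * (2 * K + 2) ≤ 3 * be N K r ^ 64 * (2 * K + 2) :=
      mul_le_mul_of_nonneg_right hcb hK0
    have k3 : 3 * be N K r ^ 64 * (2 * K + 2) =
        be N K r ^ 27 * (3 * be N K r ^ 36 * ((2 * K + 2) * be N K r)) := by ring
    have k4 : 3 * be N K r ^ 36 * ((2 * K + 2) * be N K r) ≤ 1 * (1 / 64) :=
      mul_le_mul (by linarith [h36.2.1]) (hRB.trans hone) hB0 (by norm_num)
    have k5 := mul_le_mul_of_nonneg_left k4 hs.le
    have k6 : be N K r ^ 24 * be N K r ^ 2 * be N K r ≤ be N K r ^ 24 * be N K r ^ 2 * De N K r :=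
      mul_le_mul_of_nonneg_left hDe (by positivity)
    have k7 : be N K r ^ 24 * be N K r ^ 2 * be N K r = be N K r ^ 27 := by ring
    linarith

end Inst

end Pool.Agent.TRI
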