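import Pool.Agent.TRI.E2_CrC

/-!
Area E2: the crossings of chain points are different.
-/

namespace Pool.Agent.TRI

namespace Inst

open Finset

variable {N K r : ℕ}

/-- crossings with different lower states are different -/
theorem E2_CrD_ne (h : Ok N K r) {w c c' : ℕ} (hw : w ∈ win N K r) (hc : c ≤ 3) (hc' : c' ≤ 3)
    (he : cr ((DU N K r).pt (.z ((KU N K r).own w) c)) ((DL N K r).pt (.z ((KL N K r).own w) 1)) =
      cr ((DU N K r).pt (.z ((KU N K r).own w) c'))
        ((DL N K r).pt (.z ((KL N K r).own w) 0))) : False := by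
  have hwF : w < F N K r := h.cU.win_lt w hw
  have hPU := (h.cU.own_mem w hwF).1
  have hPL := (h.cL.own_mem w hwF).1
  have hBU := baseOK_U h.hN h.hK h.hr
  have hBL := baseOK_L h.hN h.hK h.hr
  obtain ⟨u1, u2⟩ := hBU.y0 _ hPU
  obtain ⟨l1, l2⟩ := hBL.y0 _ hPL
  obtain ⟨g, hg, hgw, hgz⟩ := candU_z h hw
  obtain ⟨g', hg', hgw', hgz'⟩ := candL_z h hw
  have hb : 0 < be N K r := be_pos
  have hb1 : be N K r ≤ 1 / 2 ^ 100 := be_le h.hN h.hK h.hr
  have hbR : (2 * K + 2 : ℝ) * be N K r ≤ 1 / 2 ^ 100 := Rg_be h.hN h.hK h.hr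
  have hbD : be N K r ≤ De N K r := be_le_De
  have eU : pw (8 * G N K r) = be N K r ^ 64 := pw_G 8
  have eL : pw (6 * G N K r) = be N K r ^ 48 := pw_G 6
  rw [hgz c, hgz c', hgz' 1, hgz' 0] at he
  rw [eU, eL] at he
  set β := be N K r with hβ
  have hRg : (0 : ℝ) < 2 * K + 2 := by positivity
  have hβ1 : β ≤ 1 := hb1.trans (by norm_num)
  have p64 : 0 < β ^ 64 := by positivity
  have p48 : 0 < β ^ 48 := by positivity
  have q64 : β ^ 64 ≤ β := by
    calc β ^ 64 ≤ β ^ 1 := pow_le_pow_of_le_one hb.le hβ1 (by norm_num)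
      _ = β := pow_one _
  have q48 : β ^ 48 ≤ β := by
    calc β ^ 48 ≤ β ^ 1 := pow_le_pow_of_le_one hb.le hβ1 (by norm_num)
      _ = β := pow_one _
  have small : ∀ c : ℕ, c ≤ 3 → (c : ℝ) * β ^ 64 ≤ 3 * β ^ 64 := by
    intro c hc
    have : (c : ℝ) ≤ 3 := by exact_mod_cast hc
    exact mul_le_mul_of_nonneg_right this p64.le
  have hb2 : (1 : ℝ) / 2 ^ 100 ≤ 1 / 8 := by norm_num
  have half : ∀ c : ℕ, c ≤ 3 → (c : ℝ) * β ^ 64 ≤ 1 / 2 := by
    intro c hc
    have := small c hc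
    linarith
  have r1 := XX_range h hw hg
  have r1' := XX_range h hw hg'
  have r2 := XX_far h hw hg' hgw'
  have lb := cr_toward_lb' (O := baseU N K ((KU N K r).own w))
    (O' := baseL N K r ((KL N K r).own w)) (t := mid N K r g) (t' := mid N K r g')
    (e := c * β ^ 64) (e' := (1 : ℕ) * β ^ 48) (Rg := 2 * K + 2) (b := β) (d := De N K r)
    hb u1 l1 u2 l2 (by positivity) (by positivity) (half c hc)
    (by rw [Nat.cast_one, one_mul]; linarith) De_pos.le r1 r2
  have ub := cr_toward_bd (O := baseU N K ((KU N K r).own w))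
    (O' := baseL N K r ((KL N K r).own w)) (t := mid N K r g) (t' := mid N K r g')
    (e := c' * β ^ 64) (e' := (0 : ℕ) * β ^ 48) (Rg := 2 * K + 2)
    (hb.trans_le u1) (hb.trans_le l1) (by positivity) (by simp)
    (by have := half c' hc'; linarith) (by simp) r1 r1'
  rw [he] at lb
  have m1 := lb.trans ub
  have s1 := mul_le_mul_of_nonneg_right (small c hc) hRg.le
  have s2 := mul_le_mul_of_nonneg_right (small c' hc') hRg.le
  have s3 : β ^ 48 * β ^ 2 * β / 4 ≤ β ^ 48 * β ^ 2 * De N K r / 4 := by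
    have : β ^ 48 * β ^ 2 * β ≤ β ^ 48 * β ^ 2 * De N K r :=
      mul_le_mul_of_nonneg_left hbD (by positivity)
    linarith
  have s4 : β ^ 64 * (2 * K + 2) ≤ β ^ 63 * (1 / 2 ^ 100) := by
    have : β ^ 64 * (2 * K + 2) = β ^ 63 * ((2 * K + 2 : ℝ) * β) := by ring
    rw [this]
    exact mul_le_mul_of_nonneg_left hbR (by positivity)
  have s5 : β ^ 63 ≤ β ^ 51 := pow_le_pow_of_le_one hb.le hβ1 (by norm_num)
  have s6 : β ^ 48 * β ^ 2 * β = β ^ 51 := by ring
  have s7 : 0 < β ^ 51 := by positivity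
  have s8 : β ^ 63 * (1 / 2 ^ 100) ≤ β ^ 51 * (1 / 2 ^ 100) :=
    mul_le_mul_of_nonneg_right s5 (by positivity)
  have s9 : β ^ 51 * (1 / 2 ^ 100) ≤ β ^ 51 * (1 / 32) :=
    mul_le_mul_of_nonneg_left (by norm_num) s7.le
  push_cast at m1
  rw [one_mul, zero_mul, add_zero] at m1
  rw [s6] at s3
  have t1 : β ^ 51 / 4 ≤ 6 * (β ^ 64 * (2 * K + 2)) := by linarith
  have t2 : β ^ 51 / 4 ≤ 6 * (β ^ 51 * (1 / 32)) := by linarith
  linarith

/-- C9. The eight crossings of chain points are different. `m ≠ m'`: one of them is `1`, the other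
`0`: `cr_toward_lb'` gives `|cr - XX| ≥ be ^ 48 * be ^ 3 / 4 - 3 * be ^ 64 (2 K + 2)` and
`cr_toward_bd` gives `≤ 3 * be ^ 64 * (2 K + 2)`. `m = m'`, `c ≠ c'`: `cr_inj_line` gives
`cr = mid g`, which is not in the window (`cr_mem`, `mid_far`). -/
theorem cr_zz_inj (h : Ok N K r) {w c m c' m' : ℕ} (hw : w ∈ win N K r)
    (hc : c ≤ 3) (hm : m ≤ 1) (hc' : c' ≤ 3) (hm' : m' ≤ 1)
    (he : cr ((DU N K r).pt (.z ((KU N K r).own w) c)) ((DL N K r).pt (.z ((KL N K r).own w) m)) =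
      cr ((DU N K r).pt (.z ((KU N K r).own w) c')) ((DL N K r).pt (.z ((KL N K r).own w) m'))) :
    c = c' ∧ m = m' := by
  have hmm : m = m' := by
    rcases Nat.le_one_iff_eq_zero_or_eq_one.1 hm with rfl | rfl
    · rcases Nat.le_one_iff_eq_zero_or_eq_one.1 hm' with rfl | rfl
      · rfl
      · exact (E2_CrD_ne h hw hc' hc he.symm).elim
    · rcases Nat.le_one_iff_eq_zero_or_eq_one.1 hm' with rfl | rfl
      · exact (E2_CrD_ne h hw hc hc' he).elim
      · rfl
  refine ⟨?_, hmm⟩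
  subst hmm
  by_contra hne
  have hwF : w < F N K r := h.cU.win_lt w hw
  have hPU := (h.cU.own_mem w hwF).1
  have hPL := (h.cL.own_mem w hwF).1
  have hBU := baseOK_U h.hN h.hK h.hr
  have hBL := baseOK_L h.hN h.hK h.hr
  obtain ⟨u1, u2⟩ := hBU.y0 _ hPU
  obtain ⟨l1, l2⟩ := hBL.y0 _ hPL
  obtain ⟨g, hg, hgw, hgz⟩ := candU_z h hw
  obtain ⟨g', hg', hgw', hgz'⟩ := candL_z h hw
  have hb : 0 < be N K r := be_pos
  have hb1 : be N K r ≤ 1 / 2 ^ 100 := be_le h.hN h.hK h.hr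
  have hbD : be N K r ≤ De N K r := be_le_De
  have eU : pw (8 * G N K r) = be N K r ^ 64 := pw_G 8
  have eL : pw (6 * G N K r) = be N K r ^ 48 := pw_G 6
  have cl := cr_zz_close h hw hc hm
  have far := XX_far h hw hg hgw
  rw [hgz c, hgz c'] at he
  rw [hgz c] at cl
  have hβ1 : be N K r ≤ 1 := hb1.trans (by norm_num)
  have p64 : 0 < be N K r ^ 64 := by positivity
  have q64 : be N K r ^ 64 ≤ be N K r := by
    calc be N K r ^ 64 ≤ be N K r ^ 1 := pow_le_pow_of_le_one hb.le hβ1 (by norm_num)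
      _ = be N K r := pow_one _
  have hb2 : (1 : ℝ) / 2 ^ 100 ≤ 1 / 8 := by norm_num
  have lt1 : ∀ c : ℕ, c ≤ 3 → (c : ℝ) * pw (8 * G N K r) < 1 := by
    intro c hc
    rw [eU]
    have : (c : ℝ) ≤ 3 := by exact_mod_cast hc
    have := mul_le_mul_of_nonneg_right this p64.le
    linarith
  have hl2 : 0 < ((DL N K r).pt (.z ((KL N K r).own w) m)).2 := by
    rw [hgz' m, eL]
    show 0 < (1 - (m : ℝ) * be N K r ^ 48) * (baseL N K r ((KL N K r).own w)).2
    have q48 : be N K r ^ 48 ≤ be N K r := by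
      calc be N K r ^ 48 ≤ be N K r ^ 1 := pow_le_pow_of_le_one hb.le hβ1 (by norm_num)
        _ = be N K r := pow_one _
    have p48 : 0 < be N K r ^ 48 := by positivity
    have : (m : ℝ) ≤ 1 := by exact_mod_cast hm
    have := mul_le_mul_of_nonneg_right this p48.le
    exact mul_pos (by linarith) (hb.trans_le l1)
  have key := cr_inj_line (hb.trans_le u1) hl2 (lt1 c hc) (lt1 c' hc') (by
    intro h0
    have hp : pw (8 * G N K r) ≠ 0 := (pw_pos _).ne'
    exact hne (by exact_mod_cast mul_right_cancel₀ hp h0)) he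
  rw [key] at cl
  have q46 : be N K r ^ 46 < be N K r := by
    calc be N K r ^ 46 = be N K r ^ 45 * be N K r := by ring
      _ < 1 * be N K r := by
        apply mul_lt_mul_of_pos_right _ hb
        exact pow_lt_one₀ hb.le (lt_of_le_of_lt hb1 (by norm_num)) (by norm_num)
      _ = be N K r := one_mul _
  linarith

/-- C10. Windows do not overlap. -/
theorem win_unique (h : Ok N K r) {w w' : ℕ} {b : ℝ}
    (hw : w < F N K r) (hw' : w' < F N K r) (h1 : x N K r w < b) (h2 : b < x N K r (w + 1))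
    (h1' : x N K r w' < b) (h2' : b < x N K r (w' + 1)) : w = w' := by
  rcases lt_trichotomy w w' with hlt | heq | hlt
  · exfalso
    have := x_le h.hN h.hK h.hr (i := w + 1) (j := w') hlt hw'.le
    linarith
  · exact heq
  · exfalso
    have := x_le h.hN h.hK h.hr (i := w' + 1) (j := w) hlt hw.le
    linarith

end Inst

end Pool.Agent.TRI
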