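import Pool.Agent.TRI.E2_Geo
import Pool.Agent.TRI.E1_CombL
import Pool.Agent.TRI.E2_CrE
import Pool.Agent.TRI.E2_ClD

/-!
Area E2: the interface statements (from `Ok`, i.e. with `combU`, `combL` of area E1).
-/

namespace Pool.Agent.TRI

namespace Inst

open Finset

variable {N K r : ℕ}

theorem ok (hN : 1 ≤ N) (hK : 2 ≤ K) (hr : 1 ≤ r) : Ok N K r :=
  ⟨hN, hK, hr, combU hN hK hr, combL hN hK hr⟩

theorem geoU' (h : Ok N K r) : (KU N K r).Geo (F N K r) (win N K r) (x N K r) (DU N K r) :=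
  geo_of h.cU (baseOK_U h.hN h.hK h.hr) (sizeU h.hN h.hK h.hr)

theorem geoL' (h : Ok N K r) : (KL N K r).Geo (F N K r) (win N K r) (x N K r) (DL N K r) :=
  geo_of h.cL (baseOK_L h.hN h.hK h.hr) (sizeL h.hN h.hK h.hr)

end Inst

end Pool.Agent.TRI
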