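import Pool.Agent.TRI.E2_GeoD

/-!
Area E2: assembly of `Geo`.
-/

namespace Pool.Agent.TRI

namespace Inst

open Finset

variable {N K r : ℕ} {Ks : Skel (Option (ℕ × ℕ))} {base : Option (ℕ × ℕ) → Pt} {ε δ : ℝ}

theorem geo_of (hC : Ks.Comb (F N K r) (win N K r) (ex N K r)) (hB : BaseOK N K r Ks base)
    (hS : SizeOK N K r ε δ) :
    Ks.Geo (F N K r) (win N K r) (x N K r)
      ⟨Ks.names (F N K r) (win N K r), ptOf N K r Ks base ε δ, .z Ks.rt 0⟩ where
  mono := fun i j h hj => x_mono hS.hN hS.hK hS.hr h hj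
  I_eq := rfl
  top_eq := rfl
  good := good_of hC hB hS
  chain := (heights_of hC hB hS).1
  leaf_lt := (heights_of hC hB hS).2.1
  cap_lt := (heights_of hC hB hS).2.2.1
  same_qq := fun g _ g' _ h => (heights_of hC hB hS).2.2.2.1 g g' h
  same_qc := fun g _ Q _ _ h => (heights_of hC hB hS).2.2.2.2.1 g Q h
  same_cc := fun Q _ _ Q' _ _ h => (heights_of hC hB hS).2.2.2.2.2 Q Q' h
  hit_zz := hit_zz_of hC hB hS
  hit_zq := hit_zq_of hC hB hS
  hit_zcap := hit_zcap_of hC hB hS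
  hgb := hB.hg
  home := fun _ hv _ hw h => home_of hC hB hS hv hw h
  far := fun _ hv _ hw hne h hlt => far_of hC hB hS hv hw hne h hlt

end Inst

end Pool.Agent.TRI
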