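import Pool.Agent.TRI.E2_GeoA

/-!
Area E2: `home` and `far`.
-/

namespace Pool.Agent.TRI

namespace Inst

open Finset

variable {N K r : ℕ} {Ks : Skel (Option (ℕ × ℕ))} {base : Option (ℕ × ℕ) → Pt} {ε δ : ℝ}

theorem home_of (hC : Ks.Comb (F N K r) (win N K r) (ex N K r)) (hB : BaseOK N K r Ks base)
    (hS : SizeOK N K r ε δ) {v w : Nm (Option (ℕ × ℕ))}
    (hv : v ∈ Ks.names (F N K r) (win N K r)) (hw : w ∈ Ks.names (F N K r) (win N K r))
    (h : Ks.Anc (Ks.cl v) (Ks.cl w)) :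
    (ptOf N K r Ks base ε δ w).2 < (ptOf N K r Ks base ε δ v).2 ∧
      x N K r (Ks.hg (Ks.cl w)) < sl (ptOf N K r Ks base ε δ v) (ptOf N K r Ks base ε δ w) ∧
      sl (ptOf N K r Ks base ε δ v) (ptOf N K r Ks base ε δ w) <
        x N K r (Ks.hg (Ks.cl w) + 1) := by
  obtain ⟨t', e', ht0', htR', he0', heε', hv'⟩ := pt_form hC hB hS hv
  obtain ⟨t, e, ht0, htR, he0, heε, hw'⟩ := pt_form hC hB hS hw
  obtain ⟨c1, -, -, c4, -, -⟩ := hS.cons
  obtain ⟨h4, m, hm, hm1, hm2, hm3⟩ := hB.anc _ _ h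
  have hQ := cl_mem hC hw
  have hRg : (0 : ℝ) ≤ 2 * K + 2 := by positivity
  have hbe : 0 < be N K r := be_pos
  have hx0 := hB.x0 _ hQ
  have hy0 := hB.y0 _ hQ
  have hOpos : 0 < (base (Ks.cl w)).2 := lt_of_lt_of_le hbe hy0.1
  have hmpos : 0 < m := lt_of_lt_of_le hbe hm
  have he1 : 32 * (e * (2 * K + 2)) ≤ m := by
    have := mul_le_mul_of_nonneg_right heε hRg
    linarith
  have he2 : 32 * (e' * (2 * K + 2)) ≤ m := by
    have := mul_le_mul_of_nonneg_right heε' hRg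
    linarith
  have key := sl_home (O := base (Ks.cl w)) (O' := base (Ks.cl v)) (t := t) (t' := t') (e := e) (e' := e')
    (Rg := 2 * K + 2) (m := m) hOpos h4 he0 (heε.trans c1) he0' (heε'.trans c1) ht0 htR ht0' htR'
    hx0.1 hx0.2 hmpos hm3 he1 he2
  rw [hv', hw']
  obtain ⟨k1, k2⟩ := key
  rw [abs_lt] at k2
  exact ⟨k1, by linarith [k2.1], by linarith [k2.2]⟩

theorem E2_GeoB_x0 : x N K r 0 = 0 := by
  unfold x pos
  simp

theorem E2_GeoB_xF : x N K r (F N K r) = 2 * K + 2 := by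
  unfold x pos
  rw [if_neg (by omega)]
  have h : F N K r ≠ 0 := by
    unfold F
    omega
  rw [if_neg h, if_pos le_rfl]

theorem far_of (hC : Ks.Comb (F N K r) (win N K r) (ex N K r)) (hB : BaseOK N K r Ks base)
    (hS : SizeOK N K r ε δ) {v w : Nm (Option (ℕ × ℕ))}
    (hv : v ∈ Ks.names (F N K r) (win N K r)) (hw : w ∈ Ks.names (F N K r) (win N K r))
    (hne : Ks.cl v ≠ Ks.cl w) (h : ¬ Ks.Anc (Ks.cl v) (Ks.cl w))
    (hlt : (ptOf N K r Ks base ε δ w).2 < (ptOf N K r Ks base ε δ v).2) :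
    (Ks.dep (Ks.cl v) < Ks.dep (Ks.cl w) ∧
        ¬ (x N K r (Ks.a (Ks.cl v)) <
            sl (ptOf N K r Ks base ε δ v) (ptOf N K r Ks base ε δ w) ∧
          sl (ptOf N K r Ks base ε δ v) (ptOf N K r Ks base ε δ w) <
            x N K r (Ks.b (Ks.cl v)))) ∨
      (Ks.dep (Ks.cl v) = Ks.dep (Ks.cl w) ∧
        ¬ (x N K r 0 < sl (ptOf N K r Ks base ε δ v) (ptOf N K r Ks base ε δ w) ∧
          sl (ptOf N K r Ks base ε δ v) (ptOf N K r Ks base ε δ w) < x N K r (F N K r))) := by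
  obtain ⟨t', e', ht0', htR', he0', heε', hv'⟩ := pt_form hC hB hS hv
  obtain ⟨t, e, ht0, htR, he0, heε, hw'⟩ := pt_form hC hB hS hw
  obtain ⟨c1, -, c3, c4, -, -⟩ := hS.cons
  have hP := cl_mem hC hv
  have hQ := cl_mem hC hw
  have hRg : (0 : ℝ) < 2 * K + 2 := by positivity
  have hbe : 0 < be N K r := be_pos
  have hx0 := hB.x0 _ hQ
  have hy0 := hB.y0 _ hQ
  have hx0' := hB.x0 _ hP
  have hy0' := hB.y0 _ hP
  have hOpos : 0 < (base (Ks.cl w)).2 := lt_of_lt_of_le hbe hy0.1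
  have hOpos' : 0 < (base (Ks.cl v)).2 := lt_of_lt_of_le hbe hy0'.1
  rw [hv', hw'] at hlt
  rw [hv', hw']
  rcases hB.far _ hP _ hQ hne h with ⟨h1, h2, h3⟩ | ⟨h1, h2, h3, h4⟩ | h1
  · right
    refine ⟨h2, ?_⟩
    rw [E2_GeoB_x0, E2_GeoB_xF]
    have key := sl_far (O := base (Ks.cl w)) (O' := base (Ks.cl v)) (t := t) (t' := t') (e := e) (e' := e')
      (ε := ε) (Rg := 2 * K + 2) hOpos h1.symm h3 he0 heε he0' heε' (by linarith) hRg ht0 htR ht0' htR'
      hx0.1 hx0.2 hx0'.1 hx0'.2 c3 hlt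
    rintro ⟨k1, k2⟩
    rcases key with key | key
    · linarith
    · linarith
  · left
    refine ⟨h2, ?_⟩
    have hbe1 : be N K r ≤ 1 := by
      have := be_le (N := N) (K := K) (r := r) hS.hN hS.hK hS.hr
      have h5 : (1 : ℝ) / 2 ^ 100 ≤ 1 := by norm_num
      linarith
    have he1 : 32 * (e * (2 * K + 2)) ≤ 1 := by
      have := mul_le_mul_of_nonneg_right heε hRg.le
      linarith
    have he2 : 32 * (e' * (2 * K + 2)) ≤ 1 := by
      have := mul_le_mul_of_nonneg_right heε' hRg.le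
      linarith
    have key := sl_home (O := base (Ks.cl w)) (O' := base (Ks.cl v)) (t := t) (t' := t') (e := e) (e' := e')
      (Rg := 2 * K + 2) (m := 1) hOpos h1 he0 (heε.trans c1) he0' (heε'.trans c1) ht0 htR ht0' htR'
      hx0.1 hx0.2 one_pos (by rw [one_mul]; exact h3) he1 he2
    obtain ⟨-, k2⟩ := key
    rw [abs_lt] at k2
    rintro ⟨k3, k4⟩
    rcases h4 with h4 | h4
    · linarith [k2.2]
    · linarith [k2.1]
  · exfalso
    have key := toward_lt (O := base (Ks.cl v)) (O' := base (Ks.cl w)) (t := t') (t' := t) (e := e') (e' := e)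
      hOpos' h1 he0' (heε.trans c1)
    linarith

end Inst

end Pool.Agent.TRI
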