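import Pool.Agent.TRI.E2_GeoA

/-!
Area E2: slopes and heights inside a cluster.
-/

namespace Pool.Agent.TRI

namespace Inst

open Finset

variable {N K r : ℕ} {Ks : Skel (Option (ℕ × ℕ))} {base : Option (ℕ × ℕ) → Pt} {ε δ : ℝ}

theorem GeoC_aP_lt (hC : Ks.Comb (F N K r) (win N K r) (ex N K r)) {P : Option (ℕ × ℕ)}
    (hP : P ∈ Ks.nodes) : Ks.a P < F N K r := by
  by_cases h : P = Ks.rt
  · rw [h, hC.a_rt]
    have := hC.three
    omega
  · have := hC.ends P hP h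
    omega

theorem GeoC_par_mem (hC : Ks.Comb (F N K r) (win N K r) (ex N K r)) {Q : Option (ℕ × ℕ)}
    (hQ : Q ∈ Ks.nodes) (h : Q ≠ Ks.rt) : Ks.par Q ∈ Ks.nodes :=
  (hC.par_anc Q hQ h).1.1

theorem GeoC_lf_lt {g : ℕ} (hg : g ∈ lf (F N K r) (win N K r)) : g < F N K r := by
  unfold lf at hg
  rw [mem_filter, mem_Ioo] at hg
  omega

theorem GeoC_y (hB : BaseOK N K r Ks base) {P : Option (ℕ × ℕ)} (hP : P ∈ Ks.nodes) :
    0 < (base P).2 :=
  lt_of_lt_of_le be_pos (hB.y0 P hP).1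

theorem GeoC_hit (hS : SizeOK N K r ε δ) {O : Pt} (hO : 0 < O.2) {g g' c : ℕ}
    (hg : g < F N K r) (hg' : g' < F N K r) (hc : c ≤ 3) :
    x N K r g' < sl (toward O (mid N K r g) (c * δ)) (toward O (mid N K r g') ε) ∧
      sl (toward O (mid N K r g) (c * δ)) (toward O (mid N K r g') ε) < x N K r (g' + 1) := by
  have hcons := hS.cons
  have hr1 := mid_range hS.hN hS.hK hS.hr hg
  have hr2 := mid_range hS.hN hS.hK hS.hr hg'
  have hm := mid_mem hS.hN hS.hK hS.hr hg'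
  have hd := hS.dpos
  have h := sl_toward_same_bd (O := O) (t := mid N K r g) (t' := mid N K r g') (e := c * δ)
    (e' := ε) (Rg := 2 * K + 2) (m := be N K r) hO.ne' (by positivity) hS.epos
    (by linarith [hcons.1]) (hcons.2.2.2.2.1 c hc) hr1.1 hr1.2 hr2.1 hr2.2
    (hcons.2.2.2.2.2 c hc)
  rw [abs_lt] at h
  have hbd := be_le_De (N := N) (K := K) (r := r)
  constructor <;> linarith [h.1, h.2, hm.1, hm.2]

theorem hit_zz_of (hC : Ks.Comb (F N K r) (win N K r) (ex N K r)) (hB : BaseOK N K r Ks base)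
    (hS : SizeOK N K r ε δ) :
    ∀ P ∈ Ks.nodes, ∀ c c', c < c' → c' ≤ Ks.s P →
      x N K r (Ks.a P) < sl (ptOf N K r Ks base ε δ (.z P c)) (ptOf N K r Ks base ε δ (.z P c')) ∧
      sl (ptOf N K r Ks base ε δ (.z P c)) (ptOf N K r Ks base ε δ (.z P c')) <
        x N K r (Ks.a P + 1) := by
  intro P hP c c' hcc hc'
  have hm := mid_mem hS.hN hS.hK hS.hr (GeoC_aP_lt hC hP)
  have hne : (c : ℝ) * δ ≠ c' * δ := by
    intro h
    have h2 : (c : ℝ) = c' := mul_right_cancel₀ hS.dpos.ne' h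
    have h3 : c = c' := by exact_mod_cast h2
    omega
  have h : sl (ptOf N K r Ks base ε δ (.z P c)) (ptOf N K r Ks base ε δ (.z P c')) =
      mid N K r (Ks.a P) := by
    change sl (toward (base P) (mid N K r (Ks.a P)) (c * δ))
      (toward (base P) (mid N K r (Ks.a P)) (c' * δ)) = _
    rw [sl_toward_same (GeoC_y hB hP).ne' hne]
    simp
  rw [h]
  have hD := De_pos (N := N) (K := K) (r := r)
  constructor <;> linarith [hm.1, hm.2]

theorem hit_zq_of (hC : Ks.Comb (F N K r) (win N K r) (ex N K r)) (hB : BaseOK N K r Ks base)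
    (hS : SizeOK N K r ε δ) :
    ∀ g ∈ lf (F N K r) (win N K r), ∀ c ≤ Ks.s (Ks.own g),
      x N K r g < sl (ptOf N K r Ks base ε δ (.z (Ks.own g) c))
          (ptOf N K r Ks base ε δ (.q g)) ∧
      sl (ptOf N K r Ks base ε δ (.z (Ks.own g) c)) (ptOf N K r Ks base ε δ (.q g)) <
        x N K r (g + 1) := by
  intro g hg c hc
  have hgF := GeoC_lf_lt hg
  have hP := (hC.own_mem g hgF).1
  exact GeoC_hit hS (GeoC_y hB hP) (GeoC_aP_lt hC hP) hgF (hc.trans (hB.s3 _ hP))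

theorem hit_zcap_of (hC : Ks.Comb (F N K r) (win N K r) (ex N K r)) (hB : BaseOK N K r Ks base)
    (hS : SizeOK N K r ε δ) :
    ∀ Q ∈ Ks.nodes, Q ≠ Ks.rt → ∀ c ≤ Ks.s (Ks.par Q),
      x N K r (Ks.a Q) < sl (ptOf N K r Ks base ε δ (.z (Ks.par Q) c))
          (ptOf N K r Ks base ε δ (.cap Q)) ∧
      sl (ptOf N K r Ks base ε δ (.z (Ks.par Q) c)) (ptOf N K r Ks base ε δ (.cap Q)) <
        x N K r (Ks.a Q + 1) := by
  intro Q hQ hQr c hc
  have hP := GeoC_par_mem hC hQ hQr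
  exact GeoC_hit hS (GeoC_y hB hP) (GeoC_aP_lt hC hP) (GeoC_aP_lt hC hQ)
    (hc.trans (hB.s3 _ hP))

theorem GeoC_lt (hS : SizeOK N K r ε δ) {O : Pt} (hO : 0 < O.2) {t t' : ℝ} {c : ℕ}
    (hc : c ≤ 3) : (toward O t' ε).2 < (toward O t (c * δ)).2 := by
  have h := hS.cons.2.2.2.2.1 c hc
  have he := hS.epos
  change (1 - ε) * O.2 < (1 - c * δ) * O.2
  apply mul_lt_mul_of_pos_right _ hO
  linarith

/-- heights inside a cluster -/
theorem heights_of (hC : Ks.Comb (F N K r) (win N K r) (ex N K r)) (hB : BaseOK N K r Ks base)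
    (hS : SizeOK N K r ε δ) :
    (∀ P ∈ Ks.nodes, ∀ c c', c < c' → c' ≤ Ks.s P →
      (ptOf N K r Ks base ε δ (.z P c')).2 < (ptOf N K r Ks base ε δ (.z P c)).2) ∧
    (∀ g ∈ lf (F N K r) (win N K r), ∀ c ≤ Ks.s (Ks.own g),
      (ptOf N K r Ks base ε δ (.q g)).2 < (ptOf N K r Ks base ε δ (.z (Ks.own g) c)).2) ∧
    (∀ Q ∈ Ks.nodes, Q ≠ Ks.rt → ∀ c ≤ Ks.s (Ks.par Q),
      (ptOf N K r Ks base ε δ (.cap Q)).2 < (ptOf N K r Ks base ε δ (.z (Ks.par Q) c)).2) ∧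
    (∀ g g', Ks.own g = Ks.own g' →
      (ptOf N K r Ks base ε δ (.q g)).2 = (ptOf N K r Ks base ε δ (.q g')).2) ∧
    (∀ g Q, Ks.own g = Ks.par Q →
      (ptOf N K r Ks base ε δ (.q g)).2 = (ptOf N K r Ks base ε δ (.cap Q)).2) ∧
    (∀ Q Q', Ks.par Q = Ks.par Q' →
      (ptOf N K r Ks base ε δ (.cap Q)).2 = (ptOf N K r Ks base ε δ (.cap Q')).2) := by
  refine ⟨?_, ?_, ?_, ?_, ?_, ?_⟩
  · intro P hP c c' hcc hc'
    change (1 - c' * δ) * (base P).2 < (1 - c * δ) * (base P).2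
    apply mul_lt_mul_of_pos_right _ (GeoC_y hB hP)
    have h : (c : ℝ) < c' := by exact_mod_cast hcc
    have := mul_lt_mul_of_pos_right h hS.dpos
    linarith
  · intro g hg c hc
    have hP := (hC.own_mem g (GeoC_lf_lt hg)).1
    exact GeoC_lt hS (GeoC_y hB hP) (hc.trans (hB.s3 _ hP))
  · intro Q hQ hQr c hc
    have hP := GeoC_par_mem hC hQ hQr
    exact GeoC_lt hS (GeoC_y hB hP) (hc.trans (hB.s3 _ hP))
  · intro g g' h
    change (1 - ε) * (base (Ks.own g)).2 = (1 - ε) * (base (Ks.own g')).2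
    rw [h]
  · intro g Q h
    change (1 - ε) * (base (Ks.own g)).2 = (1 - ε) * (base (Ks.par Q)).2
    rw [h]
  · intro Q Q' h
    change (1 - ε) * (base (Ks.par Q)).2 = (1 - ε) * (base (Ks.par Q')).2
    rw [h]

end Inst

end Pool.Agent.TRI
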