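import Pool.Agent.TRI.E2_GeoB
import Pool.Agent.TRI.E2_GeoC

/-!
Area E2: injectivity and `Side.Good`.
-/

namespace Pool.Agent.TRI

namespace Inst

open Finset

variable {N K r : ℕ} {Ks : Skel (Option (ℕ × ℕ))} {base : Option (ℕ × ℕ) → Pt} {ε δ : ℝ}

theorem GeoD_mem_z {P : Option (ℕ × ℕ)} {c : ℕ} :
    Nm.z P c ∈ Ks.names (F N K r) (win N K r) ↔ P ∈ Ks.nodes ∧ c ≤ Ks.s P := by
  simp [Skel.names]

theorem GeoD_mem_q {g : ℕ} :
    (Nm.q g : Nm (Option (ℕ × ℕ))) ∈ Ks.names (F N K r) (win N K r) ↔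
      g ∈ lf (F N K r) (win N K r) := by
  simp [Skel.names]

theorem GeoD_mem_cap {Q : Option (ℕ × ℕ)} :
    Nm.cap Q ∈ Ks.names (F N K r) (win N K r) ↔ Q ≠ Ks.rt ∧ Q ∈ Ks.nodes := by
  simp [Skel.names]

/-- equal heights on one fan -/
theorem GeoD_e {O : Pt} (hO : 0 < O.2) {t t' e e' : ℝ} (h : toward O t e = toward O t' e') :
    e = e' ∧ e * t = e' * t' := by
  have h2 : (1 - e) * O.2 = (1 - e') * O.2 := congrArg Prod.snd h
  have h1 : (1 - e) * O.1 + e * t = (1 - e') * O.1 + e' * t' := congrArg Prod.fst h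
  have h3 : 1 - e = 1 - e' := mul_right_cancel₀ hO.ne' h2
  have h4 : e = e' := by linarith
  refine ⟨h4, ?_⟩
  rw [h4] at h1 ⊢
  linarith

theorem GeoD_cne (hS : SizeOK N K r ε δ) {c : ℕ} (hc : c ≤ 3) : (c : ℝ) * δ ≠ ε := by
  intro h
  have h1 := hS.cons.2.2.2.2.1 c hc
  have h2 := hS.epos
  linarith

/-- points of the same cluster -/
theorem GeoD_same (hC : Ks.Comb (F N K r) (win N K r) (ex N K r)) (hB : BaseOK N K r Ks base)
    (hS : SizeOK N K r ε δ) {v w : Nm (Option (ℕ × ℕ))}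
    (hv : v ∈ Ks.names (F N K r) (win N K r)) (hw : w ∈ Ks.names (F N K r) (win N K r))
    (hcl : Ks.cl v = Ks.cl w)
    (h : ptOf N K r Ks base ε δ v = ptOf N K r Ks base ε δ w) : v = w := by
  have hy : ∀ P ∈ Ks.nodes, 0 < (base P).2 := fun P hP => GeoC_y hB hP
  have hε := hS.epos
  have hown : ∀ Q ∈ Ks.nodes, Q ≠ Ks.rt → Ks.own (Ks.a Q) = Q := fun Q hQ h =>
    (hC.ends Q hQ h).2.2.2.1
  have hlfF : ∀ g ∈ lf (F N K r) (win N K r), g < F N K r := fun g hg => GeoC_lf_lt hg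
  rcases v with ⟨P, c⟩ | g | Q
  · rw [GeoD_mem_z] at hv
    rcases w with ⟨P', c'⟩ | g' | Q'
    · have hPP : P = P' := hcl
      subst hPP
      have h1 := (GeoD_e (hy P hv.1) (t := mid N K r (Ks.a P)) (t' := mid N K r (Ks.a P))
        (e := c * δ) (e' := c' * δ) h).1
      have h2 : (c : ℝ) = c' := mul_right_cancel₀ hS.dpos.ne' h1
      have h3 : c = c' := by exact_mod_cast h2
      rw [h3]
    · exfalso
      have hPP : P = Ks.own g' := hcl
      have h0 : toward (base P) (mid N K r (Ks.a P)) (c * δ) =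
          toward (base (Ks.own g')) (mid N K r g') ε := h
      rw [← hPP] at h0
      exact GeoD_cne hS (hv.2.trans (hB.s3 _ hv.1)) (GeoD_e (hy P hv.1) h0).1
    · exfalso
      have hPP : P = Ks.par Q' := hcl
      have h0 : toward (base P) (mid N K r (Ks.a P)) (c * δ) =
          toward (base (Ks.par Q')) (mid N K r (Ks.a Q')) ε := h
      rw [← hPP] at h0
      exact GeoD_cne hS (hv.2.trans (hB.s3 _ hv.1)) (GeoD_e (hy P hv.1) h0).1
  · rw [GeoD_mem_q] at hv
    rcases w with ⟨P', c'⟩ | g' | Q'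
    · exfalso
      rw [GeoD_mem_z] at hw
      have hPP : Ks.own g = P' := hcl
      have h0 : toward (base (Ks.own g)) (mid N K r g) ε =
          toward (base P') (mid N K r (Ks.a P')) (c' * δ) := h
      rw [hPP] at h0
      exact GeoD_cne hS (hw.2.trans (hB.s3 _ hw.1)) (GeoD_e (hy P' hw.1) h0).1.symm
    · rw [GeoD_mem_q] at hw
      have hPP : Ks.own g = Ks.own g' := hcl
      have h0 : toward (base (Ks.own g)) (mid N K r g) ε =
          toward (base (Ks.own g')) (mid N K r g') ε := h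
      rw [← hPP] at h0
      have h1 := (GeoD_e (hy _ (hC.own_mem g (hlfF g hv)).1) h0).2
      have h2 := mul_left_cancel₀ hε.ne' h1
      rw [mid_inj hS.hN hS.hK hS.hr (hlfF g hv) (hlfF g' hw) h2]
    · exfalso
      rw [GeoD_mem_cap] at hw
      have hPP : Ks.own g = Ks.par Q' := hcl
      have h0 : toward (base (Ks.own g)) (mid N K r g) ε =
          toward (base (Ks.par Q')) (mid N K r (Ks.a Q')) ε := h
      rw [← hPP] at h0
      have h1 := (GeoD_e (hy _ (hC.own_mem g (hlfF g hv)).1) h0).2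
      have h2 := mul_left_cancel₀ hε.ne' h1
      have h3 := mid_inj hS.hN hS.hK hS.hr (hlfF g hv) (GeoC_aP_lt hC hw.2) h2
      rw [h3, hown Q' hw.2 hw.1] at hPP
      exact (hC.par_anc Q' hw.2 hw.1).1.2.2.1 hPP.symm
  · rw [GeoD_mem_cap] at hv
    rcases w with ⟨P', c'⟩ | g' | Q'
    · exfalso
      rw [GeoD_mem_z] at hw
      have hPP : Ks.par Q = P' := hcl
      have h0 : toward (base (Ks.par Q)) (mid N K r (Ks.a Q)) ε =
          toward (base P') (mid N K r (Ks.a P')) (c' * δ) := h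
      rw [hPP] at h0
      exact GeoD_cne hS (hw.2.trans (hB.s3 _ hw.1)) (GeoD_e (hy P' hw.1) h0).1.symm
    · exfalso
      rw [GeoD_mem_q] at hw
      have hPP : Ks.par Q = Ks.own g' := hcl
      have h0 : toward (base (Ks.par Q)) (mid N K r (Ks.a Q)) ε =
          toward (base (Ks.own g')) (mid N K r g') ε := h
      rw [hPP] at h0
      have h1 := (GeoD_e (hy _ (hC.own_mem g' (hlfF g' hw)).1) h0).2
      have h2 := mul_left_cancel₀ hε.ne' h1
      have h3 := mid_inj hS.hN hS.hK hS.hr (GeoC_aP_lt hC hv.2) (hlfF g' hw) h2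
      rw [← h3, hown Q hv.2 hv.1] at hPP
      exact (hC.par_anc Q hv.2 hv.1).1.2.2.1 hPP
    · rw [GeoD_mem_cap] at hw
      have hPP : Ks.par Q = Ks.par Q' := hcl
      have h0 : toward (base (Ks.par Q)) (mid N K r (Ks.a Q)) ε =
          toward (base (Ks.par Q')) (mid N K r (Ks.a Q')) ε := h
      rw [← hPP] at h0
      have h1 := (GeoD_e (hy _ (GeoC_par_mem hC hv.2 hv.1)) h0).2
      have h2 := mul_left_cancel₀ hε.ne' h1
      have h3 := mid_inj hS.hN hS.hK hS.hr (GeoC_aP_lt hC hv.2) (GeoC_aP_lt hC hw.2) h2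
      have h4 := hown Q hv.2 hv.1
      rw [h3, hown Q' hw.2 hw.1] at h4
      rw [h4]

/-- points of different clusters are different -/
theorem GeoD_diff (hC : Ks.Comb (F N K r) (win N K r) (ex N K r)) (hB : BaseOK N K r Ks base)
    (hS : SizeOK N K r ε δ) {v w : Nm (Option (ℕ × ℕ))}
    (hv : v ∈ Ks.names (F N K r) (win N K r)) (hw : w ∈ Ks.names (F N K r) (win N K r))
    (hcl : Ks.cl v ≠ Ks.cl w) : ptOf N K r Ks base ε δ v ≠ ptOf N K r Ks base ε δ w := by
  intro h
  by_cases h1 : Ks.Anc (Ks.cl v) (Ks.cl w)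
  · have h2 := (home_of hC hB hS hv hw h1).1
    rw [h] at h2
    exact lt_irrefl _ h2
  have hPv := cl_mem hC hv
  have hPw := cl_mem hC hw
  obtain ⟨t, e, ht, htR, he, heε, hpv⟩ := pt_form hC hB hS hv
  obtain ⟨t', e', ht', htR', he', heε', hpw⟩ := pt_form hC hB hS hw
  have hc := hS.cons
  have hy := GeoC_y hB hPv
  have hy' := GeoC_y hB hPw
  rcases hB.far _ hPv _ hPw hcl h1 with h3 | h3 | h3
  · rw [hpv, hpw] at h
    have h2 : (1 - e) * (base (Ks.cl v)).2 = (1 - e') * (base (Ks.cl w)).2 :=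
      congrArg Prod.snd h
    have h4 : (1 - e) * (base (Ks.cl v)).1 + e * t = (1 - e') * (base (Ks.cl w)).1 + e' * t' :=
      congrArg Prod.fst h
    have hx := hB.x0 _ hPv
    have hx' := hB.x0 _ hPw
    have hb : ∀ {a s y : ℝ}, 0 ≤ a → a ≤ ε → 0 ≤ s → s ≤ 2 * K + 2 → 0 ≤ y → y ≤ 2 * K + 2 →
        |a * s - a * y| ≤ 1 / 8 := by
      intro a s y ha haε hs hsR hy0 hyR
      rw [← mul_sub, abs_mul, abs_of_nonneg ha]
      have h5 : |s - y| ≤ 2 * K + 2 := by
        rw [abs_le]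
        constructor <;> linarith
      have h6 : a * |s - y| ≤ ε * (2 * K + 2) :=
        mul_le_mul haε h5 (abs_nonneg _) hS.epos.le
      linarith [hc.2.2.1]
    have h5 := abs_le.1 (hb he heε ht htR hx.1 hx.2)
    have h6 := abs_le.1 (hb he' heε' ht' htR' hx'.1 hx'.2)
    have h7 : |(base (Ks.cl v)).1 - (base (Ks.cl w)).1| ≤ 1 := by
      rw [abs_le]
      constructor <;> linarith [h5.1, h5.2, h6.1, h6.2]
    linarith [h3.2.2]
  · have h4 := toward_lt (O := base (Ks.cl w)) (O' := base (Ks.cl v)) (t := t') (t' := t)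
      (e := e') (e' := e) hy' h3.1 he' (heε.trans hc.1)
    rw [← hpv, ← hpw, h] at h4
    exact lt_irrefl _ h4
  · have h4 := toward_lt (O := base (Ks.cl v)) (O' := base (Ks.cl w)) (t := t) (t' := t')
      (e := e) (e' := e') hy h3 he (heε'.trans hc.1)
    rw [← hpv, ← hpw, h] at h4
    exact lt_irrefl _ h4

/-- Different names give different points. Same cluster `P`: the heights are `(1 - e) * (base P).2`
with `e = c δ` or `ε`, so `e` is the same; two leaves / caps have different targets `mid g`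
(`mid_inj`; `own (a Q) = Q` shows that `a Q ≠ g` for a leaf gap `g` of `P = par Q`). Different
clusters: `home_of` if one is an ancestor of the other; otherwise `BaseOK.far`: different heights by
`toward_lt`, or the same base height and abscissas at distance at least `2 - 2 ε (2 K + 2)`. -/
theorem inj_of (hC : Ks.Comb (F N K r) (win N K r) (ex N K r)) (hB : BaseOK N K r Ks base)
    (hS : SizeOK N K r ε δ) :
    Set.InjOn (ptOf N K r Ks base ε δ) (Ks.names (F N K r) (win N K r) : Set (Nm (Option (ℕ × ℕ)))) := by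
  intro v hv w hw h
  rw [mem_coe] at hv hw
  by_cases hcl : Ks.cl v = Ks.cl w
  · exact GeoD_same hC hB hS hv hw hcl h
  · exact (GeoD_diff hC hB hS hv hw hcl h).elim

theorem GeoD_pos (hC : Ks.Comb (F N K r) (win N K r) (ex N K r)) (hB : BaseOK N K r Ks base)
    (hS : SizeOK N K r ε δ) {v : Nm (Option (ℕ × ℕ))}
    (hv : v ∈ Ks.names (F N K r) (win N K r)) : 0 < (ptOf N K r Ks base ε δ v).2 := by
  obtain ⟨t, e, ht, htR, he, heε, hpv⟩ := pt_form hC hB hS hv
  rw [hpv]
  have hc := hS.cons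
  exact mul_pos (by linarith [hc.1]) (GeoC_y hB (cl_mem hC hv))

theorem GeoD_top (hC : Ks.Comb (F N K r) (win N K r) (ex N K r)) {g : ℕ} (hg : g < F N K r)
    (hS : SizeOK N K r ε δ) (hB : BaseOK N K r Ks base) :
    (toward (base Ks.rt) (mid N K r g) ε).2 < (ptOf N K r Ks base ε δ (.z Ks.rt 0)).2 ∧
      x N K r 0 < sl (ptOf N K r Ks base ε δ (.z Ks.rt 0))
        (toward (base Ks.rt) (mid N K r g) ε) ∧
      sl (ptOf N K r Ks base ε δ (.z Ks.rt 0)) (toward (base Ks.rt) (mid N K r g) ε) <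
        x N K r (F N K r) := by
  have hy := GeoC_y hB hC.rt_mem
  have hε := hS.epos
  have hm := mid_mem hS.hN hS.hK hS.hr hg
  have hD := De_pos (N := N) (K := K) (r := r)
  have h0 := x_le hS.hN hS.hK hS.hr (Nat.zero_le g) hg.le
  have h1 := x_le (N := N) (K := K) (r := r) hS.hN hS.hK hS.hr (Nat.succ_le_of_lt hg) le_rfl
  have hpt : ptOf N K r Ks base ε δ (.z Ks.rt 0) =
      toward (base Ks.rt) (mid N K r (Ks.a Ks.rt)) ((0 : ℕ) * δ) := rfl
  have hz : ((0 : ℕ) : ℝ) * δ = 0 := by simp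
  rw [hpt, hz]
  have hs : sl (toward (base Ks.rt) (mid N K r (Ks.a Ks.rt)) 0)
      (toward (base Ks.rt) (mid N K r g) ε) = mid N K r g := by
    rw [sl_toward_same hy.ne' hε.ne]
    simp
  rw [hs]
  refine ⟨?_, by linarith [hm.1], ?_⟩
  · change (1 - ε) * (base Ks.rt).2 < (1 - 0) * (base Ks.rt).2
    apply mul_lt_mul_of_pos_right _ hy
    linarith
  · have h2 : x N K r (g + 1) ≤ x N K r (F N K r) := h1
    linarith [hm.2]

/-- `inside`: for a point of the root cluster `sl (base rt) (toward (base rt) t' e') = t'`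
(`sl_toward_same` with `e = 0`), `t'` the middle of a gap; for the others `home_of` (with
`v = z rt 0`) and `x_le`. -/
theorem good_of (hC : Ks.Comb (F N K r) (win N K r) (ex N K r)) (hB : BaseOK N K r Ks base)
    (hS : SizeOK N K r ε δ) :
    Side.Good (⟨Ks.names (F N K r) (win N K r), ptOf N K r Ks base ε δ, .z Ks.rt 0⟩ :
      Side (Nm (Option (ℕ × ℕ)))) (F N K r) (x N K r) := by
  have htop : Nm.z Ks.rt 0 ∈ Ks.names (F N K r) (win N K r) :=
    GeoD_mem_z.2 ⟨hC.rt_mem, Nat.zero_le _⟩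
  refine ⟨htop, inj_of hC hB hS, fun v hv => GeoD_pos hC hB hS hv, ?_, ?_⟩
  · intro v hv hvt
    change v ∈ Ks.names (F N K r) (win N K r) at hv
    change v ≠ Nm.z Ks.rt 0 at hvt
    change (ptOf N K r Ks base ε δ v).2 < (ptOf N K r Ks base ε δ (.z Ks.rt 0)).2 ∧
      x N K r 0 < sl (ptOf N K r Ks base ε δ (.z Ks.rt 0)) (ptOf N K r Ks base ε δ v) ∧
      sl (ptOf N K r Ks base ε δ (.z Ks.rt 0)) (ptOf N K r Ks base ε δ v) < x N K r (F N K r)
    by_cases hcl : Ks.cl v = Ks.rt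
    · rcases v with ⟨P, c⟩ | g | Q
      · exfalso
        have hP : P = Ks.rt := hcl
        rw [GeoD_mem_z, hP, hC.s_rt] at hv
        apply hvt
        rw [hP, Nat.le_zero.1 hv.2]
      · rw [GeoD_mem_q] at hv
        have hP : Ks.own g = Ks.rt := hcl
        have h := GeoD_top (base := base) (ε := ε) (δ := δ) hC (GeoC_lf_lt hv) hS hB
        rw [← hP] at h
        change (toward (base (Ks.own g)) (mid N K r g) ε).2 < _ ∧ _
        rw [← hP]
        exact h
      · rw [GeoD_mem_cap] at hv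
        have hP : Ks.par Q = Ks.rt := hcl
        have h := GeoD_top (base := base) (ε := ε) (δ := δ) hC (GeoC_aP_lt hC hv.2) hS hB
        rw [← hP] at h
        change (toward (base (Ks.par Q)) (mid N K r (Ks.a Q)) ε).2 < _ ∧ _
        rw [← hP]
        exact h
    · have hPv := cl_mem hC hv
      have he := hC.ends _ hPv hcl
      have hanc : Ks.Anc (Ks.cl (Nm.z Ks.rt 0)) (Ks.cl v) := by
        refine ⟨hC.rt_mem, hPv, fun h => hcl h.symm, ?_, ?_⟩
        · change Ks.a Ks.rt ≤ _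
          rw [hC.a_rt]
          exact Nat.zero_le _
        · change _ ≤ Ks.b Ks.rt
          rw [hC.b_rt]
          exact he.2.2.1.le
      have h := home_of hC hB hS htop hv hanc
      have hg := hB.hg _ hPv hcl
      have h0 := x_le (N := N) (K := K) (r := r) hS.hN hS.hK hS.hr
        (Nat.zero_le (Ks.hg (Ks.cl v))) (by omega)
      have h1 := x_le (N := N) (K := K) (r := r) hS.hN hS.hK hS.hr
        (show Ks.hg (Ks.cl v) + 1 ≤ F N K r by omega) le_rfl
      exact ⟨h.1, by linarith [h.2.1], by linarith [h.2.2]⟩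
  · change x N K r 0 < (toward (base Ks.rt) (mid N K r (Ks.a Ks.rt)) ((0 : ℕ) * δ)).1 ∧
      (toward (base Ks.rt) (mid N K r (Ks.a Ks.rt)) ((0 : ℕ) * δ)).1 < x N K r (F N K r)
    have h0 : (toward (base Ks.rt) (mid N K r (Ks.a Ks.rt)) ((0 : ℕ) * δ)).1 =
        (base Ks.rt).1 := by
      unfold toward
      simp
    rw [h0, x_zero, x_F]
    have h := hB.rt
    constructor <;> linarith [h.1, h.2]

end Inst

end Pool.Agent.TRI
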