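import Pool.Agent.TRI.E2_Idx

/-!
Area E2: powers of 1/2 and the scale `be`.
-/

namespace Pool.Agent.TRI

namespace Inst

variable {N K r : ℕ}

/-- a quarter of a lower bound for the distances of consecutive feet -/
noncomputable def De (N K r : ℕ) : ℝ := pw (W K * (N + R N r + 1) + 5)

/-- the scale: `ε_U = be ^ 8`, `ε_L = be ^ 24`, `δ_L = be ^ 48`, `δ_U = be ^ 64` -/
noncomputable def be (N K r : ℕ) : ℝ := pw (W K * (N + R N r + 4))

theorem pw_pos (e : ℕ) : 0 < pw e := by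
  unfold pw
  positivity

theorem pw_add (a b : ℕ) : pw (a + b) = pw a * pw b := by
  unfold pw
  exact pow_add _ _ _

theorem pw_anti {a b : ℕ} (h : a ≤ b) : pw b ≤ pw a := by
  unfold pw
  exact pow_le_pow_of_le_one (by norm_num) (by norm_num) h

theorem pw_mul_two (e : ℕ) : pw e * 2 ^ e = 1 := by
  unfold pw
  rw [← mul_pow]
  norm_num

theorem De_pos : 0 < De N K r := pw_pos _

theorem be_pos : 0 < be N K r := pw_pos _

theorem PosA_R (hN : 1 ≤ N) (hr : 1 ≤ r) : 4 ≤ R N r := R_ge hN hr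

theorem PosA_pw_le {e n : ℕ} (h : n ≤ e) : pw e ≤ 1 / 2 ^ n := by
  refine (pw_anti h).trans (le_of_eq ?_)
  unfold pw
  rw [one_div_pow]

theorem be_le (hN : 1 ≤ N) (hK : 2 ≤ K) (hr : 1 ≤ r) : be N K r ≤ 1 / 2 ^ 100 := by
  refine PosA_pw_le ?_
  have h1 := PosA_R (r := r) hN hr
  have h2 : 14 ≤ W K := by unfold W; omega
  have h3 : 9 ≤ N + R N r + 4 := by omega
  have h4 := Nat.mul_le_mul h2 h3
  omega

/-- `2 K + 2 ≤ 2 ^ (W K)` -/
theorem two_K : (2 * K + 2 : ℝ) ≤ 2 ^ W K := by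
  have h1 : K < 2 ^ K := Nat.lt_two_pow_self
  have h2 : 2 * K + 2 ≤ 2 ^ W K := by
    calc 2 * K + 2 = 2 * (K + 1) := by ring
      _ ≤ 2 * 2 ^ K := Nat.mul_le_mul_left 2 h1
      _ = 2 ^ (K + 1) := by rw [pow_succ]; ring
      _ ≤ 2 ^ W K := Nat.pow_le_pow_right (by norm_num) (by unfold W; omega)
  exact_mod_cast h2

theorem Rg_be (hN : 1 ≤ N) (hK : 2 ≤ K) (hr : 1 ≤ r) :
    (2 * K + 2 : ℝ) * be N K r ≤ 1 / 2 ^ 100 := by
  have h1 := PosA_R (r := r) hN hr
  have h2 : 14 ≤ W K := by unfold W; omega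
  have h3 : 8 ≤ N + R N r + 3 := by omega
  have h4 := Nat.mul_le_mul h2 h3
  have h5 : be N K r = pw (W K) * pw (W K * (N + R N r + 3)) := by
    unfold be
    rw [← pw_add]
    congr 1
    ring
  have h6 : (2 * K + 2 : ℝ) * be N K r ≤ 2 ^ W K * be N K r :=
    mul_le_mul_of_nonneg_right two_K (be_pos).le
  refine h6.trans ?_
  rw [h5, ← mul_assoc, mul_comm (2 ^ W K : ℝ) (pw (W K)), pw_mul_two, one_mul]
  exact PosA_pw_le (by omega)

theorem be_le_De : be N K r ≤ De N K r := by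
  unfold be De
  refine pw_anti ?_
  have h2 : 5 ≤ 3 * W K := by unfold W; omega
  calc W K * (N + R N r + 1) + 5 ≤ W K * (N + R N r + 1) + 3 * W K := by omega
    _ = W K * (N + R N r + 4) := by ring

theorem De_le : De N K r ≤ 1 / 32 := by
  unfold De
  refine (PosA_pw_le (n := 5) (by omega)).trans (le_of_eq ?_)
  norm_num

theorem pw_G (n : ℕ) : pw (n * G N K r) = be N K r ^ (8 * n) := by
  unfold be pw G
  rw [← pow_mul]
  congr 1
  ring

theorem pw_G1 : pw (G N K r) = be N K r ^ 8 := by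
  have h := pw_G (N := N) (K := K) (r := r) 1
  rw [one_mul, mul_one] at h
  exact h

end Inst

end Pool.Agent.TRI
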