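import Pool.Agent.TRI.E2_PosA

/-!
Area E2: positions of the feet.
-/

namespace Pool.Agent.TRI

namespace Inst

variable {N K r : ℕ}

theorem pos_zero : pos N K r 0 = 0 := by
  unfold pos
  rw [if_pos rfl]

theorem pos_F {f : ℕ} (hf : F N K r ≤ f) : pos N K r f = 2 * K + 2 := by
  have h1 : 1 ≤ F N K r := by unfold F; omega
  unfold pos
  rw [if_neg (by omega), if_pos hf]

theorem pos_ftL {k j q : ℕ} (hk : k ≤ K) (hj : 1 ≤ j) (hj' : j ≤ R N r) (hq : q < 4) :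
    pos N K r (ftL N r k j q) = 2 * k + 1 - pw (W K * (iL r j + j)) * cL q := by
  obtain ⟨h1, h2⟩ := ftL_range (N := N) (r := r) hk hj hj' hq
  obtain ⟨h3, h4, h5, h6⟩ := ftL_spec (N := N) (r := r) (k := k) hj hj' hq
  unfold pos
  rw [if_neg (by omega), if_neg (by omega), h4, h3, h5, h6]
  simp

theorem pos_ftR {k j q : ℕ} (hk : k ≤ K) (hj : 1 ≤ j) (hj' : j ≤ R N r) (hq : q < 4) :
    pos N K r (ftR N r k j q) = 2 * k + 1 + pw (W K * (iR r j + j)) * cR q := by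
  obtain ⟨h1, h2⟩ := ftR_range (N := N) (r := r) hk hj hj' hq
  obtain ⟨h3, h4, h5, h6⟩ := ftR_spec (N := N) (r := r) (k := k) hj hj' hq
  unfold pos
  rw [if_neg (by omega), if_neg (by omega), h4, h3, h5, h6]
  simp

theorem PosB_cL {q : ℕ} : 1 / 4 ≤ cL q ∧ cL q ≤ 64 := by
  unfold cL
  split_ifs <;> norm_num

theorem PosB_cR {q : ℕ} : 1 / 4 ≤ cR q ∧ cR q ≤ 64 := by
  unfold cR
  split_ifs <;> norm_num

theorem PosB_bd (hK : 2 ≤ K) {e : ℕ} (h1 : 2 ≤ e) (h2 : e ≤ N + R N r + 1) {c : ℝ}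
    (hc : 1 / 4 ≤ c ∧ c ≤ 64) : 8 * De N K r ≤ pw (W K * e) * c ∧ pw (W K * e) * c ≤ 1 / 4 := by
  have hp : 0 < pw (W K * e) := pw_pos _
  constructor
  · have h3 : pw (W K * (N + R N r + 1)) ≤ pw (W K * e) := pw_anti (Nat.mul_le_mul_left _ h2)
    have h4 : De N K r = pw (W K * (N + R N r + 1)) * (1 / 32) := by
      unfold De
      rw [pw_add]
      congr 1
      unfold pw
      norm_num
    have h5 : pw (W K * e) * (1 / 4) ≤ pw (W K * e) * c := mul_le_mul_of_nonneg_left hc.1 hp.le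
    rw [h4]
    linarith
  · have h3 : 28 ≤ W K * e := by
      have h4 : 14 ≤ W K := by unfold W; omega
      have h5 := Nat.mul_le_mul h4 h1
      omega
    have h4 : pw (W K * e) ≤ 1 / 2 ^ 28 := PosA_pw_le h3
    have h5 : pw (W K * e) * c ≤ 1 / 2 ^ 28 * 64 :=
      mul_le_mul h4 hc.2 (by linarith [hc.1]) (by positivity)
    refine h5.trans ?_
    norm_num

theorem pos_ftL_bd (hN : 1 ≤ N) (hK : 2 ≤ K) (hr : 1 ≤ r) {k j q : ℕ} (hk : k ≤ K)
    (hj : 1 ≤ j) (hj' : j ≤ R N r) (hq : q < 4) :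
    2 * k + 1 - 1 / 4 ≤ pos N K r (ftL N r k j q) ∧
      pos N K r (ftL N r k j q) + 8 * De N K r ≤ 2 * k + 1 := by
  have h1 := iL_bd (N := N) hj hj'
  have h2 := PosB_bd (N := N) (r := r) hK (e := iL r j + j) (by omega) (by omega) (PosB_cL (q := q))
  rw [pos_ftL hk hj hj' hq]
  constructor <;> linarith [h2.1, h2.2]

theorem pos_ftR_bd (hN : 1 ≤ N) (hK : 2 ≤ K) (hr : 1 ≤ r) {k j q : ℕ} (hk : k ≤ K)
    (hj : 1 ≤ j) (hj' : j ≤ R N r) (hq : q < 4) :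
    2 * k + 1 + 8 * De N K r ≤ pos N K r (ftR N r k j q) ∧
      pos N K r (ftR N r k j q) ≤ 2 * k + 1 + 1 / 4 := by
  have h1 := iL_bd (N := N) hj hj'
  have h3 := iR_bd (r := r) (j := j)
  have h2 := PosB_bd (N := N) (r := r) hK (e := iR r j + j) (by omega) (by omega) (PosB_cR (q := q))
  rw [pos_ftR hk hj hj' hq]
  constructor <;> linarith [h2.1, h2.2]

end Inst

end Pool.Agent.TRI
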