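import Pool.Agent.TRI.E2_PosB

/-!
Area E2: gaps between consecutive feet.
-/

namespace Pool.Agent.TRI

namespace Inst

variable {N K r : ℕ}

theorem E2_PosC_De4 : 4 * De N K r = pw (W K * (N + R N r + 1)) / 8 := by
  have h5 : pw 5 = 1 / 32 := by unfold pw; norm_num
  unfold De
  rw [pw_add, h5]; ring

theorem E2_PosC_pwW (hK : 2 ≤ K) : pw (W K) ≤ 1 / 16384 := by
  have h14 : pw 14 = 1 / 16384 := by unfold pw; norm_num
  rw [← h14]
  exact pw_anti (by unfold W; omega)

theorem E2_PosC_pw2W (hK : 2 ≤ K) : pw (W K * (1 + 1)) ≤ 1 / 16384 := by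
  have : pw (W K * (1 + 1)) ≤ pw (W K) := pw_anti (by omega)
  exact this.trans (E2_PosC_pwW hK)

/-- lower bound by `De` -/
theorem E2_PosC_ge {e : ℕ} (he : e ≤ N + R N r + 1) :
    4 * De N K r ≤ pw (W K * e) / 8 := by
  rw [E2_PosC_De4]
  have := pw_anti (Nat.mul_le_mul_left (W K) he)
  linarith

/-- next exponent -/
theorem E2_PosC_next (hK : 2 ≤ K) {e e' : ℕ} (he : e + 1 ≤ e') :
    64 * pw (W K * e') ≤ pw (W K * e) / 8 := by
  have h1 : pw (W K * e') ≤ pw (W K * (e + 1)) := pw_anti (Nat.mul_le_mul_left _ he)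
  have h2 : pw (W K * (e + 1)) = pw (W K * e) * pw (W K) := by
    rw [Nat.mul_succ, pw_add]
  have h3 : pw (W K * e) * pw (W K) ≤ pw (W K * e) * (1 / 16384) :=
    mul_le_mul_of_nonneg_left (E2_PosC_pwW hK) (pw_pos _).le
  have h4 := pw_pos (W K * e)
  rw [h2] at h1
  linarith

/-- Main lemma on positions. Cases: `f = 0`; `f = ftL k j q` with `q < 3` (`f + 1 = ftL k j (q+1)`);
`f = ftL k j 3`, `j < R` (`f + 1 = ftL k (j+1) 0`); `f = ftL k R 3` (`f + 1 = ftR k R 0`);
`f = ftR k j q`, `q < 3`; `f = ftR k j 3`, `1 < j` (`f + 1 = ftR k (j-1) 0`); `f = ftR k 1 3`,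
`k < K` (`f + 1 = ftL (k+1) 1 0`), `k = K` (`f + 1 = F`). The smallest difference is
`pw (W (i + j)) * (1/4 - 64 * pw W)`, at least `pw (W (N+R+1)) / 8 = 4 * De`. -/
theorem pos_gap (hN : 1 ≤ N) (hK : 2 ≤ K) (hr : 1 ≤ r) {f : ℕ} (hf : f < F N K r) :
    pos N K r f + 4 * De N K r ≤ pos N K r (f + 1) := by
  have hR1 : 1 ≤ R N r := R_pos hN
  have hDe : De N K r ≤ 1 / 32 := De_le
  have hcL0 : cL 0 = 64 := by simp [cL]
  have hcL1 : cL 1 = 8 := by simp [cL]
  have hcL2 : cL 2 = 2 := by simp [cL]
  have hcL3 : cL 3 = 1 / 4 := by simp [cL]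
  have hcR0 : cR 0 = 1 / 4 := by simp [cR]
  have hcR1 : cR 1 = 2 := by simp [cR]
  have hcR2 : cR 2 = 8 := by simp [cR]
  have hcR3 : cR 3 = 64 := by simp [cR]
  have h2W := E2_PosC_pw2W hK
  have h2Wp := pw_pos (W K * (1 + 1))
  rcases Nat.eq_zero_or_pos f with rfl | hf1
  · have e : 0 + 1 = ftL N r 0 1 0 := by unfold ftL; omega
    rw [e, pos_zero, pos_ftL (Nat.zero_le _) le_rfl hR1 (by omega), hcL0, iL_one]
    push_cast
    linarith
  · obtain ⟨k, j, q, hk, hj, hjR, hq, rfl | rfl⟩ := foot_cases hf1 hf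
    · have hiL := (iL_bd (N := N) (r := r) hj hjR).2
      have hge : 4 * De N K r ≤ pw (W K * (iL r j + j)) / 8 := E2_PosC_ge (by omega)
      have hp := pw_pos (W K * (iL r j + j))
      rcases Nat.lt_or_ge q 3 with h3 | h3
      · rw [ftL_succ (by omega), pos_ftL hk hj hjR hq, pos_ftL hk hj hjR (by omega)]
        interval_cases q
        · rw [hcL0, hcL1]; linarith
        · rw [hcL1, hcL2]; linarith
        · rw [hcL2, hcL3]; linarith
      · have hq3 : q = 3 := by omega
        subst hq3
        rcases Nat.lt_or_ge j (R N r) with hjl | hjl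
        · have e : ftL N r k j 3 + 1 = ftL N r k (j + 1) 0 := by unfold ftL; omega
          have hm : iL r j ≤ iL r (j + 1) := iL_mono (Nat.le_succ _)
          have hnx : 64 * pw (W K * (iL r (j + 1) + (j + 1))) ≤ pw (W K * (iL r j + j)) / 8 :=
            E2_PosC_next hK (by omega)
          rw [e, pos_ftL hk hj hjR hq, pos_ftL hk (by omega) hjl (by omega), hcL0, hcL3]
          linarith
        · have hjeq : j = R N r := by omega
          subst hjeq
          have e : ftL N r k (R N r) 3 + 1 = ftR N r k (R N r) 0 := by unfold ftL ftR; omega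
          have hp' := pw_pos (W K * (iR r (R N r) + R N r))
          rw [e, pos_ftL hk hj hjR hq, pos_ftR hk hj hjR (by omega), hcR0, hcL3]
          linarith
    · have hiL := (iL_bd (N := N) (r := r) hj hjR).2
      have hiR := (iR_bd (r := r) (j := j)).2
      have hge : 4 * De N K r ≤ pw (W K * (iR r j + j)) / 8 := E2_PosC_ge (by omega)
      have hp := pw_pos (W K * (iR r j + j))
      rcases Nat.lt_or_ge q 3 with h3 | h3
      · rw [ftR_succ, pos_ftR hk hj hjR hq, pos_ftR hk hj hjR (by omega)]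
        interval_cases q
        · rw [hcR0, hcR1]; linarith
        · rw [hcR1, hcR2]; linarith
        · rw [hcR2, hcR3]; linarith
      · have hq3 : q = 3 := by omega
        subst hq3
        rcases Nat.lt_or_ge 1 j with hjl | hjl
        · have e : ftR N r k j 3 + 1 = ftR N r k (j - 1) 0 := by unfold ftR; omega
          have hm : iR r (j - 1) ≤ iR r j := iR_mono (Nat.sub_le _ _)
          have hnx : 64 * pw (W K * (iR r j + j)) ≤ pw (W K * (iR r (j - 1) + (j - 1))) / 8 :=
            E2_PosC_next hK (by omega)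
          have hge' : 4 * De N K r ≤ pw (W K * (iR r (j - 1) + (j - 1))) / 8 :=
            E2_PosC_ge (by omega)
          rw [e, pos_ftR hk hj hjR hq, pos_ftR hk (by omega) (by omega) (by omega), hcR0, hcR3]
          linarith
        · have hjeq : j = 1 := by omega
          subst hjeq
          rw [pos_ftR hk hj hjR hq, hcR3, iR_one]
          rcases Nat.lt_or_ge k K with hkl | hkl
          · have e : ftR N r k 1 3 + 1 = ftL N r (k + 1) 1 0 := by
              unfold ftR ftL
              rw [Nat.mul_succ]; omega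
            rw [e, pos_ftL hkl le_rfl hR1 (by omega), hcL0, iL_one]
            push_cast
            linarith
          · have hkeq : k = K := by omega
            subst hkeq
            have e : F N k r ≤ ftR N r k 1 3 + 1 := by
              rw [F_eq]; unfold ftR; omega
            rw [pos_F e]
            linarith

end Inst

end Pool.Agent.TRI
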