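import Pool.Agent.TRI.E2_PosC

/-!
Area E2: perturbed positions.
-/

namespace Pool.Agent.TRI

namespace Inst

variable {N K r : ℕ}

theorem E2_PosD_pw22 : pw (22 * G N K r) ≤ De N K r / 4 := by
  have h : De N K r / 4 = pw (W K * (N + R N r + 1) + 5 + 2) := by
    have h2 : pw 2 = 1 / 4 := by unfold pw; norm_num
    unfold De
    rw [pw_add (W K * (N + R N r + 1) + 5) 2, h2]; ring
  rw [h]
  apply pw_anti
  unfold G
  have h1 : W K * (N + R N r + 4) = W K * (N + R N r + 1) + W K * 3 := by ring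
  have hW : 12 ≤ W K := by unfold W; omega
  omega

theorem x_zero : x N K r 0 = 0 := by
  unfold x
  rw [if_neg (by omega), pos_zero]

theorem x_F : x N K r (F N K r) = 2 * K + 2 := by
  unfold x
  rw [if_neg (by omega), pos_F le_rfl]

theorem x_foot {f : ℕ} (h1 : 1 ≤ f) (h2 : f < F N K r) :
    x N K r f = pos N K r f + pw (22 * G N K r) := by
  unfold x
  rw [if_pos ⟨h1, h2⟩]

theorem x_bd {f : ℕ} : pos N K r f ≤ x N K r f ∧ x N K r f ≤ pos N K r f + De N K r / 4 := by
  have h1 := pw_pos (22 * G N K r)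
  have h2 := E2_PosD_pw22 (N := N) (K := K) (r := r)
  have h3 : 0 < De N K r := De_pos
  unfold x
  split_ifs
  · constructor <;> linarith
  · constructor <;> linarith

theorem x_gap (hN : 1 ≤ N) (hK : 2 ≤ K) (hr : 1 ≤ r) {f : ℕ} (hf : f < F N K r) :
    x N K r f + 3 * De N K r ≤ x N K r (f + 1) := by
  have h1 := (x_bd (N := N) (K := K) (r := r) (f := f)).2
  have h2 := (x_bd (N := N) (K := K) (r := r) (f := f + 1)).1
  have h3 := pos_gap hN hK hr hf
  have h4 : 0 < De N K r := De_pos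
  linarith

theorem x_mono (hN : 1 ≤ N) (hK : 2 ≤ K) (hr : 1 ≤ r) {i j : ℕ} (hij : i < j)
    (hj : j ≤ F N K r) : x N K r i < x N K r j := by
  have h4 : 0 < De N K r := De_pos
  induction j, hij using Nat.le_induction with
  | base =>
    have := x_gap hN hK hr (f := i) (by omega)
    linarith
  | succ j hj' ih =>
    have h1 := ih (by omega)
    have := x_gap hN hK hr (f := j) (by omega)
    linarith

theorem x_le (hN : 1 ≤ N) (hK : 2 ≤ K) (hr : 1 ≤ r) {i j : ℕ} (hij : i ≤ j)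
    (hj : j ≤ F N K r) : x N K r i ≤ x N K r j := by
  rcases Nat.lt_or_eq_of_le hij with h | rfl
  · exact (x_mono hN hK hr h hj).le
  · exact le_rfl

theorem mid_mem (hN : 1 ≤ N) (hK : 2 ≤ K) (hr : 1 ≤ r) {g : ℕ} (hg : g < F N K r) :
    x N K r g + De N K r ≤ mid N K r g ∧ mid N K r g + De N K r ≤ x N K r (g + 1) := by
  have h1 := x_bd (N := N) (K := K) (r := r) (f := g)
  have h2 := x_bd (N := N) (K := K) (r := r) (f := g + 1)
  have h3 := pos_gap hN hK hr hg
  have h4 : 0 < De N K r := De_pos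
  unfold mid
  constructor <;> linarith [h1.1, h1.2, h2.1, h2.2]

theorem mid_range (hN : 1 ≤ N) (hK : 2 ≤ K) (hr : 1 ≤ r) {g : ℕ} (hg : g < F N K r) :
    0 ≤ mid N K r g ∧ mid N K r g ≤ 2 * K + 2 := by
  have h1 := mid_mem hN hK hr hg
  have h2 := x_le hN hK hr (Nat.zero_le g) hg.le
  have h3 := x_le hN hK hr (Nat.succ_le_of_lt hg) le_rfl
  have h4 : 0 < De N K r := De_pos
  rw [x_zero] at h2
  rw [x_F] at h3
  have h5 : x N K r (g + 1) ≤ 2 * K + 2 := h3
  constructor <;> linarith [h1.1, h1.2]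

theorem mid_far (hN : 1 ≤ N) (hK : 2 ≤ K) (hr : 1 ≤ r) {g w : ℕ} (hg : g < F N K r)
    (hw : w < F N K r) (hgw : g ≠ w) :
    mid N K r g + De N K r ≤ x N K r w ∨ x N K r (w + 1) + De N K r ≤ mid N K r g := by
  have h1 := mid_mem hN hK hr hg
  rcases Nat.lt_or_gt_of_ne hgw with h | h
  · left
    have h2 : x N K r (g + 1) ≤ x N K r w := x_le hN hK hr h hw.le
    linarith [h1.2]
  · right
    have h2 : x N K r (w + 1) ≤ x N K r g := x_le hN hK hr h hg.le
    linarith [h1.1]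

theorem mid_inj (hN : 1 ≤ N) (hK : 2 ≤ K) (hr : 1 ≤ r) {g g' : ℕ} (hg : g < F N K r)
    (hg' : g' < F N K r) (h : mid N K r g = mid N K r g') : g = g' := by
  by_contra hne
  have h1 := mid_far hN hK hr hg hg' hne
  have h2 := mid_mem hN hK hr hg'
  have h4 : 0 < De N K r := De_pos
  rcases h1 with h1 | h1
  · linarith [h2.1, h2.2]
  · linarith [h2.1, h2.2]

end Inst

end Pool.Agent.TRI
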