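import Pool.Agent.TRI.Bin3
import Pool.Agent.TRI.F_Defs

/-!
The algorithm: the alternating sums `Q` and the number of satisfying assignments, given a
polynomial-time function for the numbers of triangulations of point lists.
-/

namespace Pool.Agent.TRI

namespace Bin

open Pool.Agent.LibComplexity Function

variable {𝒜 : Set Orc} {α β γ τ : Type} [Enc α] [Enc β] [Enc γ] [Enc τ]

theorem sum_range_list (N : ℕ) (f : ℕ → ℤ) :
    ∑ a ∈ Finset.range N, f a = ((List.range N).map f).sum := by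
  induction N with
  | zero => simp
  | succ N ih => rw [Finset.sum_range_succ, List.range_succ, List.map_append, List.sum_append, ih]; simp

/-- sums over initial segments, the number of terms in unary -/
theorem ZTf.sumRange {n : Orc → α → ℕ} {g : Orc → α → ℕ → ℤ} (hn : PTf 𝒜 n)
    (hg : ZTf 𝒜 (fun A (p : α × ℕ) => g A p.1 p.2)) :
    ZTf 𝒜 (fun A x => ∑ a ∈ Finset.range (n A x), g A x a) :=
  (ZTf.sum' hn.range hg).congr fun _ _ _ => (sum_range_list _ _).symm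

theorem ptf_R {N r : Orc → α → ℕ} (hN : PTf 𝒜 N) (hr : PTf 𝒜 r) :
    PTf 𝒜 (fun A x => Inst.R (N A x) (r A x)) :=
  hN.mul (((PTf.const 2).mul hr).add (PTf.const 2))

theorem ptf_F {N K r : Orc → α → ℕ} (hN : PTf 𝒜 N) (hK : PTf 𝒜 K) (hr : PTf 𝒜 r) :
    PTf 𝒜 (fun A x => Inst.F (N A x) (K A x) (r A x)) :=
  (((PTf.const 8).mul (ptf_R hN hr)).mul (hK.add (PTf.const 1))).add (PTf.const 1)

theorem ptf_nA {N K r : Orc → α → ℕ} (hN : PTf 𝒜 N) (hK : PTf 𝒜 K) (hr : PTf 𝒜 r) :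
    PTf 𝒜 (fun A x => Inst.nA (N A x) (K A x) (r A x)) :=
  ((((PTf.const 2).mul hN).sub (PTf.const 1)).mul hr).mul (hK.sub (PTf.const 1))

theorem ptf_dI {N K r : Orc → α → ℕ} (hN : PTf 𝒜 N) (hK : PTf 𝒜 K) (hr : PTf 𝒜 r) :
    PTf 𝒜 (fun A x => Inst.dI (N A x) (K A x) (r A x)) := by
  have h1 : PTf 𝒜 (fun A x => Inst.F (N A x) (K A x) (r A x) - 2 -
      2 * Inst.nA (N A x) (K A x) (r A x)) :=
    ((ptf_F hN hK hr).sub (PTf.const 2)).sub ((PTf.const 2).mul (ptf_nA hN hK hr))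
  exact ((PTf.const 2).mul ((((PTf.const 5).mul hN).mul hK).add h1)).add
    ((PTf.const 2).mul (((((PTf.const 2).mul (ptf_R hN hr)).mul (hK.add (PTf.const 1))).add
      (ptf_nA hN hK hr)).add h1))

theorem ptf_eI {N K r : Orc → α → ℕ} (hN : PTf 𝒜 N) (hK : PTf 𝒜 K) (hr : PTf 𝒜 r) :
    PTf 𝒜 (fun A x => Inst.eI (N A x) (K A x) (r A x)) :=
  (((((PTf.const 16).mul hN).mul ((PTf.const 1).add hr)).mul (hK.add (PTf.const 1))).add
    (((PTf.const 6).mul hN).mul hK)).add (ptf_nA hN hK hr)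

theorem ptf_pN {n : Orc → α → ℕ} (hn : PTf 𝒜 n) : PTf 𝒜 (fun A x => Inst.pN (n A x)) :=
  hn.add (PTf.const 2)

theorem ptf_pK {n m : Orc → α → ℕ} (hn : PTf 𝒜 n) (hm : PTf 𝒜 m) :
    PTf 𝒜 (fun A x => Inst.pK (n A x) (m A x)) :=
  (PTf.const 2).mul ((hm.add hn).add (PTf.const 1))

theorem ptf_pr {n m : Orc → α → ℕ} (hn : PTf 𝒜 n) (hm : PTf 𝒜 m) :
    PTf 𝒜 (fun A x => Inst.pr (n A x) (m A x)) :=
  ((PTf.const 400).mul (ptf_pN hn)).mul (ptf_pK hn hm)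

/-- a function that gives the number of triangulations of a list of points -/
structure TrEval (𝒜 : Set Orc) (trv : Orc → List (Coord × Coord) → List Bool) : Prop where
  ptf : PTf 𝒜 trv
  val : ∀ A ∈ 𝒜, ∀ l, trv A l = Nat.bits (tr (ptSet l))

theorem TrEval.btf {trv : Orc → List (Coord × Coord) → List Bool} (h : TrEval 𝒜 trv)
    {S : Orc → α → Finset Pt}
    (hS : ∃ L : Orc → α → List (Coord × Coord), PTf 𝒜 L ∧ ∀ A ∈ 𝒜, ∀ x, ptSet (L A x) = S A x) :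
    BTf 𝒜 (fun A x => tr (S A x)) := by
  obtain ⟨L, hL, hL'⟩ := hS
  refine PTf.congr (PTf.comp (g := trv) h.ptf hL) fun A hA x => ?_
  rw [h.val A hA, hL' A hA]

/-- the alternating sums -/
theorem ztf_Q {trv : Orc → List (Coord × Coord) → List Bool} (h : TrEval 𝒜 trv)
    {n m : Orc → α → ℕ} {ψ : Orc → α → Cnf} (hn : PTf 𝒜 n) (hm : PTf 𝒜 m)
    (hS : ∃ L : Orc → (α × ℕ) × ℕ → List (Coord × Coord), PTf 𝒜 L ∧ ∀ A ∈ 𝒜, ∀ p,
      ptSet (L A p) = Inst.SI (Inst.pN (n A p.1.1)) (Inst.pK (n A p.1.1) (m A p.1.1))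
        (Inst.pr (n A p.1.1) (m A p.1.1))
        (Inst.fw (ψ A p.1.1) (Inst.pN (n A p.1.1)) (Inst.pr (n A p.1.1) (m A p.1.1)))
        p.1.2 p.2) :
    ZTf 𝒜 (fun A x => Inst.Q (n A x) (m A x) (ψ A x)) := by
  have hd : PTf 𝒜 (fun A x => Inst.dI (Inst.pN (n A x)) (Inst.pK (n A x) (m A x))
      (Inst.pr (n A x) (m A x))) := ptf_dI (ptf_pN hn) (ptf_pK hn hm) (ptf_pr hn hm)
  have he : PTf 𝒜 (fun A x => Inst.eI (Inst.pN (n A x)) (Inst.pK (n A x) (m A x))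
      (Inst.pr (n A x) (m A x))) := ptf_eI (ptf_pN hn) (ptf_pK hn hm) (ptf_pr hn hm)
  unfold Inst.Q
  refine ZTf.sumRange (hd.add (PTf.const 1)) ?_
  refine ZTf.sumRange (n := fun A (p : α × ℕ) => Inst.eI (Inst.pN (n A p.1))
    (Inst.pK (n A p.1) (m A p.1)) (Inst.pr (n A p.1) (m A p.1)) + 1)
    (g := fun A (p : α × ℕ) t => (-1) ^ ((Inst.dI (Inst.pN (n A p.1))
      (Inst.pK (n A p.1) (m A p.1)) (Inst.pr (n A p.1) (m A p.1)) - p.2) +
        (Inst.eI (Inst.pN (n A p.1)) (Inst.pK (n A p.1) (m A p.1))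
          (Inst.pr (n A p.1) (m A p.1)) - t)) *
      ((Inst.dI (Inst.pN (n A p.1)) (Inst.pK (n A p.1) (m A p.1))
        (Inst.pr (n A p.1) (m A p.1))).choose p.2 : ℤ) *
      ((Inst.eI (Inst.pN (n A p.1)) (Inst.pK (n A p.1) (m A p.1))
        (Inst.pr (n A p.1) (m A p.1))).choose t : ℤ) *
      (tr (Inst.SI (Inst.pN (n A p.1)) (Inst.pK (n A p.1) (m A p.1))
        (Inst.pr (n A p.1) (m A p.1))
        (Inst.fw (ψ A p.1) (Inst.pN (n A p.1)) (Inst.pr (n A p.1) (m A p.1))) p.2 t) : ℤ))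
    ((he.comp PTf.id.fst).add (PTf.const 1)) ?_
  have hd2 : PTf 𝒜 (fun A (p : (α × ℕ) × ℕ) => Inst.dI (Inst.pN (n A p.1.1))
      (Inst.pK (n A p.1.1) (m A p.1.1)) (Inst.pr (n A p.1.1) (m A p.1.1))) :=
    hd.comp PTf.id.fst.fst
  have he2 : PTf 𝒜 (fun A (p : (α × ℕ) × ℕ) => Inst.eI (Inst.pN (n A p.1.1))
      (Inst.pK (n A p.1.1) (m A p.1.1)) (Inst.pr (n A p.1.1) (m A p.1.1))) :=
    he.comp PTf.id.fst.fst
  exact (((ZTf.neg_one_pow ((hd2.sub PTf.id.fst.snd).add (he2.sub PTf.id.snd))).mul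
    (ZTf.ofNat (BTf.choose hd2 PTf.id.fst.snd))).mul (ZTf.ofNat (BTf.choose he2 PTf.id.snd))).mul
      (ZTf.ofNat (h.btf hS))

theorem Q_nonneg (n m : ℕ) (ψ : Cnf) : 0 ≤ Inst.Q n m ψ := by
  obtain ⟨c, hc, h⟩ := Inst.main (N := Inst.pN n) (K := Inst.pK n m) (r := Inst.pr n m)
    (by unfold Inst.pN; omega) (by unfold Inst.pK; omega)
    (by
      unfold Inst.pr Inst.pN Inst.pK
      have : 0 < 400 * (n + 2) * (2 * (m + n + 1)) := by positivity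
      omega)
  have h1 := h (Inst.fw ψ (Inst.pN n) (Inst.pr n m))
  have h2 : ((Inst.Q n m ψ : ℤ) : ℚ) = c * Inst.Y (Inst.pN n) (Inst.pK n m) (Inst.pr n m)
      (Inst.fw ψ (Inst.pN n) (Inst.pr n m)) := h1
  have h3 : (0 : ℚ) ≤ ((Inst.Q n m ψ : ℤ) : ℚ) := by
    rw [h2]
    positivity
  exact_mod_cast h3

/-- the final division -/
theorem btf_div {N : Orc → α → ℕ} {P Q : Orc → α → ℤ} (hN : PTf 𝒜 N) (hP : ZTf 𝒜 P)
    (hQ : ZTf 𝒜 Q) (hP0 : ∀ A x, 0 ≤ P A x) (hQ0 : ∀ A x, 0 ≤ Q A x) :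
    BTf 𝒜 (fun A x => ((2 ^ (N A x + 1) * P A x + Q A x) / (2 * Q A x)).toNat) := by
  have hp : ZTf 𝒜 (fun A x => ((2 ^ (N A x + 1) : ℕ) : ℤ)) :=
    ZTf.ofNat (BTf.two_pow (hN.add (PTf.const 1)))
  have hdiv := ZTf.div ((hp.mul hP).add hQ) ((ZTf.const 2).mul hQ)
    (fun A _ x => add_nonneg (mul_nonneg (Int.natCast_nonneg _) (hP0 A x)) (hQ0 A x))
    (fun A _ x => mul_nonneg (by norm_num) (hQ0 A x))
  refine (ZTf.toNat hdiv).congr fun A _ x => ?_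
  push_cast
  rfl

/-- the number of satisfying assignments, given the point lists for the two formulas -/
theorem btf_sharpSat {trv : Orc → List (Coord × Coord) → List Bool} (h : TrEval 𝒜 trv)
    {φ : Orc → α → Cnf} (hφ : PTf 𝒜 φ)
    (heq : ∀ φ : Cnf, (sharpSat φ : ℤ) = (2 ^ (φ.1 + 1) * Inst.Q φ.1 φ.2.length φ +
      Inst.Q φ.1 φ.2.length (φ.1, [])) / (2 * Inst.Q φ.1 φ.2.length (φ.1, [])))
    (hSI : ∀ {n m : Orc → α → ℕ} {ψ : Orc → α → Cnf}, PTf 𝒜 n → PTf 𝒜 m → PTf 𝒜 ψ →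
      ∃ L : Orc → (α × ℕ) × ℕ → List (Coord × Coord), PTf 𝒜 L ∧ ∀ A ∈ 𝒜, ∀ p,
      ptSet (L A p) = Inst.SI (Inst.pN (n A p.1.1)) (Inst.pK (n A p.1.1) (m A p.1.1))
        (Inst.pr (n A p.1.1) (m A p.1.1))
        (Inst.fw (ψ A p.1.1) (Inst.pN (n A p.1.1)) (Inst.pr (n A p.1.1) (m A p.1.1)))
        p.1.2 p.2) :
    BTf 𝒜 (fun A x => sharpSat (φ A x)) := by
  have hn : PTf 𝒜 (fun A x => (φ A x).1) := hφ.fst
  have hm : PTf 𝒜 (fun A x => (φ A x).2.length) := hφ.snd.length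
  have hz : PTf 𝒜 (fun A x => (((φ A x).1, []) : Cnf)) := hn.pair (PTf.const [])
  have hS1 := hSI (n := fun A x => (φ A x).1) (m := fun A x => (φ A x).2.length) (ψ := φ) hn hm hφ
  have hS2 := hSI (n := fun A x => (φ A x).1) (m := fun A x => (φ A x).2.length)
    (ψ := fun A x => ((φ A x).1, [])) hn hm hz
  have hQ1 : ZTf 𝒜 (fun A x => Inst.Q (φ A x).1 (φ A x).2.length (φ A x)) :=
    ztf_Q h (n := fun A x => (φ A x).1) (m := fun A x => (φ A x).2.length) (ψ := φ) hn hm hS1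
  have hQ2 : ZTf 𝒜 (fun A x => Inst.Q (φ A x).1 (φ A x).2.length ((φ A x).1, [])) :=
    ztf_Q h (n := fun A x => (φ A x).1) (m := fun A x => (φ A x).2.length)
      (ψ := fun A x => ((φ A x).1, [])) hn hm hS2
  refine (btf_div hn hQ1 hQ2 (fun A x => Q_nonneg _ _ _) (fun A x => Q_nonneg _ _ _)).congr
    fun A _ x => ?_
  have h1 := heq (φ A x)
  rw [← h1]
  exact Int.toNat_natCast _

end Bin

end Pool.Agent.TRI
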