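import Pool.Agent.TRI.F_NDefs

/-!
Area F, part 1 (F_N1): the partition function `Y` counts satisfying assignments (up to a small error).
-/

namespace Pool.Agent.TRI

open Finset

namespace Inst

private theorem FN1_Bk_pos {r : ℕ} : 0 < Bk r := by unfold Bk; omega

private theorem FN1_rho {r i ρ : ℕ} (h1 : 1 ≤ ρ) (h2 : ρ ≤ Bk r) :
    rho r ((i - 1) * Bk r + ρ) = ρ := by
  unfold rho
  have h : (i - 1) * Bk r + ρ - 1 = (ρ - 1) + (i - 1) * Bk r := by omega
  rw [h, Nat.add_mul_mod_self_right, Nat.mod_eq_of_lt (by omega)]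
  omega

private theorem FN1_iL {r i ρ : ℕ} (hi : 1 ≤ i) (h1 : 1 ≤ ρ) (h2 : ρ ≤ Bk r) :
    iL r ((i - 1) * Bk r + ρ) = i := by
  unfold iL
  have h : (i - 1) * Bk r + ρ - 1 = (ρ - 1) + (i - 1) * Bk r := by omega
  rw [h, Nat.add_mul_div_right _ _ FN1_Bk_pos, Nat.div_eq_of_lt (by omega)]
  omega

private theorem FN1_arc {r j : ℕ} (h1 : 1 ≤ j) : (iL r j - 1) * Bk r + rho r j = j := by
  unfold iL rho
  have hd := Nat.div_add_mod (j - 1) (Bk r)
  rw [Nat.add_sub_cancel, Nat.mul_comm]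
  omega

private theorem FN1_le {N r i ρ : ℕ} (hi : 1 ≤ i) (hiN : i ≤ N) (h2 : ρ ≤ Bk r) :
    (i - 1) * Bk r + ρ ≤ R N r := by
  unfold R
  obtain ⟨m, rfl⟩ := Nat.exists_eq_add_of_le' hi
  have h := Nat.mul_le_mul_right (Bk r) hiN
  rw [Nat.succ_mul] at h
  rw [Nat.add_sub_cancel]
  omega

private theorem FN1_iL_pos {r j : ℕ} : 1 ≤ iL r j := Nat.succ_le_succ (Nat.zero_le _)

private theorem FN1_iL_le {N r j : ℕ} (h1 : 1 ≤ j) (h2 : j ≤ R N r) : iL r j ≤ N := by
  have hB : 0 < Bk r := FN1_Bk_pos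
  have hi : (j - 1) / Bk r < N := by
    rw [Nat.div_lt_iff_lt_mul hB]
    unfold R at h2
    omega
  unfold iL
  omega

private theorem FN1_fwL {ψ : Cnf} {N r k j : ℕ} (hj : 1 ≤ j) (hjR : j ≤ R N r) (c : ℕ) :
    fw ψ N r (ftL N r k j 2) c = funL ψ r k j c := by
  have h : ftL N r k j 2 - 1 = (4 * (j - 1) + 2) + 8 * R N r * k := by unfold ftL; omega
  have hm : fm N r (ftL N r k j 2) = 4 * (j - 1) + 2 := by
    unfold fm
    rw [h, Nat.add_mul_mod_self_left, Nat.mod_eq_of_lt (by omega)]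
  have hk : fk N r (ftL N r k j 2) = k := by
    unfold fk
    rw [h, Nat.add_mul_div_left _ _ (by omega), Nat.div_eq_of_lt (by omega), zero_add]
  have hl : isLeft N r (ftL N r k j 2) = true := by
    unfold isLeft
    rw [hm]
    exact decide_eq_true (by omega)
  have hf : fj N r (ftL N r k j 2) = j := by
    unfold fj
    rw [hm, if_pos (by omega)]
    omega
  unfold fw
  rw [hl, hk, hf, if_pos rfl]

private theorem FN1_fwR {ψ : Cnf} {N r k j : ℕ} (hj : 1 ≤ j) (hjR : j ≤ R N r) (c : ℕ) :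
    fw ψ N r (ftR N r k j 0) c = funR ψ r k j c := by
  have h : ftR N r k j 0 - 1 = (4 * R N r + 4 * (R N r - j)) + 8 * R N r * k := by
    unfold ftR; omega
  have hm : fm N r (ftR N r k j 0) = 4 * R N r + 4 * (R N r - j) := by
    unfold fm
    rw [h, Nat.add_mul_mod_self_left, Nat.mod_eq_of_lt (by omega)]
  have hk : fk N r (ftR N r k j 0) = k := by
    unfold fk
    rw [h, Nat.add_mul_div_left _ _ (by omega), Nat.div_eq_of_lt (by omega), zero_add]
  have hl : isLeft N r (ftR N r k j 0) = false := by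
    unfold isLeft
    rw [hm]
    exact decide_eq_false (by omega)
  have hf : fj N r (ftR N r k j 0) = j := by
    unfold fj
    rw [hm, if_neg (by omega)]
    omega
  unfold fw
  rw [hl, hk, hf]
  simp

private theorem FN1_H {ψ : Cnf} {r k j : ℕ} {σ : ℕ × ℕ → ℕ} (hj : 1 ≤ j)
    (hjR : j ≤ R (ψ.1 + 2) r) (hh : isH r j = true) :
    fw ψ (ψ.1 + 2) r (ftL (ψ.1 + 2) r k j 2) (σ (k, iL r j)) =
            fw ψ (ψ.1 + 2) r (ftR (ψ.1 + 2) r k j 0) (σ (k + 1, iR r j)) ↔
      okH ψ σ k (iL r j) := by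
  have h1 : rho r j ≤ r := by unfold isH at hh; simpa using hh
  have h2 : iR r j = iL r j := by unfold iR; rw [if_pos (by omega)]
  rw [FN1_fwL hj hjR, FN1_fwR hj hjR]
  unfold funL funR okH hL
  simp only [hh, h2, if_true]

private theorem FN1_D {ψ : Cnf} {r k j : ℕ} {σ : ℕ × ℕ → ℕ} (hj : 1 ≤ j)
    (hjR : j ≤ R (ψ.1 + 2) r) (hh : isD r j = true) :
    fw ψ (ψ.1 + 2) r (ftL (ψ.1 + 2) r k j 2) (σ (k, iL r j)) =
            fw ψ (ψ.1 + 2) r (ftR (ψ.1 + 2) r k j 0) (σ (k + 1, iR r j)) ↔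
      okD ψ σ k (iL r j) := by
  have h1 : r + 2 ≤ rho r j ∧ rho r j ≤ 2 * r + 1 := by unfold isD at hh; simpa using hh
  have h2 : iR r j = iL r j + 1 := by unfold iR; rw [if_neg (by omega)]
  have h3 : isH r j = false := by unfold isH; exact decide_eq_false (by omega)
  rw [FN1_fwL hj hjR, FN1_fwR hj hjR]
  unfold funL funR okD dL dR
  simp only [h3, h2, Bool.false_eq_true, if_false]

open Classical in
/-- [F N1] the arcs come in parallel classes of `r` arcs.
Proof. Put `B = Bk r = 2 r + 2`. For `1 ≤ j ≤ R`: `isLeft (ftL k j 2) = true`, `fk (ftL k j 2) = k`,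
`fj (ftL k j 2) = j` (since `(ftL k j 2 - 1) % (8 R) = 4 (j - 1) + 2 < 4 R`), and
`isLeft (ftR k j 0) = false`, `fk = k`, `fj = j` (since `(ftR k j 0 - 1) % (8 R) = 4 R + 4 (R - j)`).
So for `j ∈ arcs N r` the factor is the one of `okH ψ σ k (iL r j)` if `isH r j`, and the one of
`okD ψ σ k (iL r j)` if `isD r j` (then `iR r j = iL r j + 1`). Reindex `j = (i - 1) B + ρ` with
`i ∈ Icc 1 N`, `ρ ∈ Icc 1 B` (`Finset.prod_bij'` or `prod_fiberwise`): `isH` iff `ρ ≤ r`, `isD` iff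
`r + 2 ≤ ρ ≤ 2 r + 1`; each `i` has `r` values `ρ` of type `H` and, if `i < N`, `r` values of type
`D` in `arcs`. -/
theorem arcs_prod (ψ : Cnf) (r : ℕ) (hr : 1 ≤ r) (k : ℕ) (σ : ℕ × ℕ → ℕ) :
    ∏ j ∈ arcs (ψ.1 + 2) r,
        (112 + if fw ψ (ψ.1 + 2) r (ftL (ψ.1 + 2) r k j 2) (σ (k, iL r j)) =
            fw ψ (ψ.1 + 2) r (ftR (ψ.1 + 2) r k j 0) (σ (k + 1, iR r j)) then 1 else 0) =
      (∏ i ∈ Icc 1 (ψ.1 + 2), (112 + if okH ψ σ k i then 1 else 0)) ^ r *
        (∏ i ∈ Icc 1 (ψ.1 + 1), (112 + if okD ψ σ k i then 1 else 0)) ^ r := by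
  have hHp : (∏ i ∈ Icc 1 (ψ.1 + 2), (112 + if okH ψ σ k i then 1 else 0)) ^ r =
      ∏ p ∈ Icc 1 (ψ.1 + 2) ×ˢ Icc 1 r, (112 + if okH ψ σ k p.1 then 1 else 0) := by
    rw [prod_product, ← prod_pow]
    refine prod_congr rfl fun i _ => ?_
    have h := prod_const (s := Icc 1 r) (112 + if okH ψ σ k i then 1 else 0)
    rw [Nat.card_Icc, Nat.add_sub_cancel] at h
    exact h.symm
  have hDp : (∏ i ∈ Icc 1 (ψ.1 + 1), (112 + if okD ψ σ k i then 1 else 0)) ^ r =
      ∏ p ∈ Icc 1 (ψ.1 + 1) ×ˢ Icc 1 r, (112 + if okD ψ σ k p.1 then 1 else 0) := by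
    rw [prod_product, ← prod_pow]
    refine prod_congr rfl fun i _ => ?_
    have h := prod_const (s := Icc 1 r) (112 + if okD ψ σ k i then 1 else 0)
    rw [Nat.card_Icc, Nat.add_sub_cancel] at h
    exact h.symm
  have hB : Bk r = 2 * r + 2 := rfl
  rw [hHp, hDp, ← prod_filter_mul_prod_filter_not (arcs (ψ.1 + 2) r) (fun j => isH r j = true)]
  congr 1
  · refine prod_bij' (fun j _ => (iL r j, rho r j)) (fun p _ => (p.1 - 1) * Bk r + p.2)
      ?_ ?_ ?_ ?_ ?_
    · intro j hj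
      rw [mem_filter, arcs, mem_filter, mem_Icc] at hj
      obtain ⟨⟨⟨h1, h2⟩, _⟩, h3⟩ := hj
      have h4 : rho r j ≤ r := by unfold isH at h3; simpa using h3
      rw [mem_product, mem_Icc, mem_Icc]
      exact ⟨⟨FN1_iL_pos, FN1_iL_le h1 h2⟩, Nat.succ_le_succ (Nat.zero_le _), h4⟩
    · intro p hp
      rw [mem_product, mem_Icc, mem_Icc] at hp
      obtain ⟨⟨h1, h2⟩, h3, h4⟩ := hp
      have h5 : isH r ((p.1 - 1) * Bk r + p.2) = true := by
        unfold isH
        rw [FN1_rho h3 (by omega)]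
        exact decide_eq_true h4
      rw [mem_filter, arcs, mem_filter, mem_Icc]
      refine ⟨⟨⟨by omega, FN1_le h1 h2 (by omega)⟩, ?_⟩, h5⟩
      rw [h5]; rfl
    · intro j hj
      rw [mem_filter, arcs, mem_filter, mem_Icc] at hj
      exact FN1_arc hj.1.1.1
    · intro p hp
      rw [mem_product, mem_Icc, mem_Icc] at hp
      obtain ⟨⟨h1, h2⟩, h3, h4⟩ := hp
      ext
      · exact FN1_iL h1 h3 (by omega)
      · exact FN1_rho h3 (by omega)
    · intro j hj
      rw [mem_filter, arcs, mem_filter, mem_Icc] at hj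
      obtain ⟨⟨⟨h1, h2⟩, _⟩, h3⟩ := hj
      have h6 := FN1_H (k := k) (σ := σ) h1 h2 h3
      by_cases h7 : okH ψ σ k (iL r j)
      · rw [if_pos (h6.2 h7), if_pos h7]
      · rw [if_neg (fun h8 => h7 (h6.1 h8)), if_neg h7]
  · refine prod_bij' (fun j _ => (iL r j, rho r j - (r + 1)))
      (fun p _ => (p.1 - 1) * Bk r + (r + 1 + p.2)) ?_ ?_ ?_ ?_ ?_
    · intro j hj
      rw [mem_filter, arcs, mem_filter, mem_Icc] at hj
      obtain ⟨⟨⟨h1, h2⟩, h3⟩, h4⟩ := hj
      have h5 : isD r j = true ∧ iL r j < ψ.1 + 2 := by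
        rcases Bool.or_eq_true _ _ ▸ h3 with h5 | h5
        · exact absurd h5 h4
        · rw [Bool.and_eq_true, decide_eq_true_iff] at h5; exact h5
      have h6 : r + 2 ≤ rho r j ∧ rho r j ≤ 2 * r + 1 := by
        have := h5.1
        unfold isD at this; simpa using this
      rw [mem_product, mem_Icc, mem_Icc]
      refine ⟨⟨FN1_iL_pos, ?_⟩, ?_, ?_⟩
      · have := h5.2; show iL r j ≤ _; omega
      · show 1 ≤ rho r j - (r + 1); omega
      · show rho r j - (r + 1) ≤ r; omega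
    · intro p hp
      rw [mem_product, mem_Icc, mem_Icc] at hp
      obtain ⟨⟨h1, h2⟩, h3, h4⟩ := hp
      have h5 : isD r ((p.1 - 1) * Bk r + (r + 1 + p.2)) = true := by
        unfold isD
        rw [FN1_rho (by omega) (by omega)]
        exact decide_eq_true (by omega)
      have h6 : ¬ isH r ((p.1 - 1) * Bk r + (r + 1 + p.2)) = true := by
        unfold isH
        rw [FN1_rho (by omega) (by omega), decide_eq_true_iff]
        omega
      have h7 : iL r ((p.1 - 1) * Bk r + (r + 1 + p.2)) = p.1 := FN1_iL h1 (by omega) (by omega)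
      rw [mem_filter, arcs, mem_filter, mem_Icc]
      refine ⟨⟨⟨by omega, FN1_le h1 (by omega) (by omega)⟩, ?_⟩, h6⟩
      rw [h5, h7, Bool.true_and, Bool.or_eq_true, decide_eq_true_iff]
      right; omega
    · intro j hj
      rw [mem_filter, arcs, mem_filter, mem_Icc] at hj
      obtain ⟨⟨⟨h1, h2⟩, h3⟩, h4⟩ := hj
      have h6 : r + 1 < rho r j := by
        rcases Bool.or_eq_true _ _ ▸ h3 with h5 | h5
        · exact absurd h5 h4
        · rw [Bool.and_eq_true] at h5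
          have := h5.1
          unfold isD at this
          rw [decide_eq_true_iff] at this
          omega
      have h7 := FN1_arc (r := r) h1
      show (iL r j - 1) * Bk r + (r + 1 + (rho r j - (r + 1))) = j
      rw [Nat.add_sub_cancel' h6.le]
      exact h7
    · intro p hp
      rw [mem_product, mem_Icc, mem_Icc] at hp
      obtain ⟨⟨h1, h2⟩, h3, h4⟩ := hp
      ext
      · exact FN1_iL h1 (by omega) (by omega)
      · show rho r _ - (r + 1) = p.2
        rw [FN1_rho (by omega) (by omega)]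
        omega
    · intro j hj
      rw [mem_filter, arcs, mem_filter, mem_Icc] at hj
      obtain ⟨⟨⟨h1, h2⟩, h3⟩, h4⟩ := hj
      have h5 : isD r j = true := by
        rcases Bool.or_eq_true _ _ ▸ h3 with h5 | h5
        · exact absurd h5 h4
        · rw [Bool.and_eq_true] at h5; exact h5.1
      have h6 := FN1_D (k := k) (σ := σ) h1 h2 h5
      by_cases h7 : okD ψ σ k (iL r j)
      · rw [if_pos (h6.2 h7), if_pos h7]
      · rw [if_neg (fun h8 => h7 (h6.1 h8)), if_neg h7]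

end Inst

end Pool.Agent.TRI
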