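import Pool.Agent.TRI.F_NDefs

/-!
Area F, part 1 (F_N2): coding of the states by two bits.
-/

namespace Pool.Agent.TRI

open Finset

namespace Inst

theorem code_lt (k : ℕ) (x s : Bool) : code k x s < 4 := by
  unfold code
  split_ifs <;> omega

theorem xb_code (k : ℕ) (x s : Bool) : xb k (code k x s) = x := by
  unfold code xb
  rcases Nat.mod_two_eq_zero_or_one k with h | h <;> cases x <;> cases s <;> simp [h]

theorem sb_code (k : ℕ) (x s : Bool) : sb (code k x s) = s := by
  unfold code sb
  rcases Nat.mod_two_eq_zero_or_one k with h | h <;> cases x <;> cases s <;> simp [h]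

theorem code_bits (k : ℕ) {c : ℕ} (hc : c < 4) : code k (xb k c) (sb c) = c := by
  unfold code xb sb
  rcases Nat.mod_two_eq_zero_or_one k with h | h <;> interval_cases c <;> simp [h]

theorem wgt_code (k : ℕ) (x s : Bool) :
    wgt (code k x s) = if x ^^ decide (k % 2 = 1) then 5 else 3 := by
  unfold code wgt
  rcases Nat.mod_two_eq_zero_or_one k with h | h <;> cases x <;> cases s <;> simp [h]

end Inst

end Pool.Agent.TRI
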