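import Pool.Agent.TRI.F_N2

/-!
Area F, part 1 (F_N3): the partition function `Y` counts satisfying assignments (up to a small error).
-/

namespace Pool.Agent.TRI

open Finset

namespace Inst

/-- contribution of the clause seen in the row `i` of the stack `k` -/
private def FN3_ct (ψ : Cnf) (a : ℕ → Bool) (k i : ℕ) : Bool :=
  decide (i ≤ k) && match ψ.2[k - i]? with
    | none => false
    | some cl => litIn cl (i - 2) (a (i - 2))

private theorem FN3_sst_succ (ψ : Cnf) (a b : ℕ → Bool) {k i : ℕ} (hk : 1 ≤ k) (hi : 2 ≤ i) :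
    sst ψ a b k (i + 1) = (sst ψ a b (k - 1) i || FN3_ct ψ a k i) := by
  obtain ⟨k', rfl⟩ := Nat.exists_eq_add_of_le' hk
  have h1 : i + 1 - 3 = i - 2 := by omega
  rw [sst, if_neg (by omega), h1]
  rfl

private theorem FN3_sst_two (ψ : Cnf) (a b : ℕ → Bool) {k : ℕ} (hk : 1 ≤ k) :
    sst ψ a b k 2 = false := by
  obtain ⟨k', rfl⟩ := Nat.exists_eq_add_of_le' hk
  rw [sst, if_pos (le_refl 2)]

private theorem FN3_outb (ψ : Cnf) (a : ℕ → Bool) {k i c : ℕ} (h : xb k c = a (i - 2)) :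
    outb ψ k i c = (sb c || FN3_ct ψ a k i) := by
  unfold outb FN3_ct
  rw [h]
  rfl

private theorem FN3_clause (ψ : Cnf) (a b : ℕ → Bool) {c : ℕ} {cl : List (Bool × ℕ)}
    (hc : ψ.2[c]? = some cl) {i : ℕ} (hi : 2 ≤ i) :
    sst ψ a b (c + i - 1) i = true ↔ ∃ v < i - 2, litIn cl v (a v) = true := by
  induction i, hi using Nat.le_induction with
  | base =>
    rw [FN3_sst_two ψ a b (by omega)]
    simp
  | succ i hi ih =>
    have h1 : c + (i + 1) - 1 = c + i := by omega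
    rw [h1, FN3_sst_succ ψ a b (by omega) hi, Bool.or_eq_true, ih]
    have h2 : FN3_ct ψ a (c + i) i = litIn cl (i - 2) (a (i - 2)) := by
      unfold FN3_ct
      rw [Nat.add_sub_cancel, hc]
      simp
    rw [h2]
    constructor
    · rintro (⟨v, hv, h3⟩ | h3)
      · exact ⟨v, by omega, h3⟩
      · exact ⟨i - 2, by omega, h3⟩
    · rintro ⟨v, hv, h3⟩
      by_cases hv' : v = i - 2
      · right; rw [← hv']; exact h3
      · left; exact ⟨v, by omega, h3⟩

private theorem FN3_all (ψ : Cnf) (a b : ℕ → Bool) {c : ℕ} {cl : List (Bool × ℕ)}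
    (hc : ψ.2[c]? = some cl) (hn : 1 ≤ ψ.1) :
    (sst ψ a b (c + ψ.1 + 1 - 1) (ψ.1 + 1) || FN3_ct ψ a (c + ψ.1 + 1) (ψ.1 + 1)) = true ↔
      ∃ v < ψ.1, litIn cl v (a v) = true := by
  have h1 := FN3_clause ψ a b hc (i := ψ.1 + 2) (by omega)
  have h2 : c + (ψ.1 + 2) - 1 = c + ψ.1 + 1 := by omega
  have h3 : ψ.1 + 2 = (ψ.1 + 1) + 1 := rfl
  rw [h2, h3, FN3_sst_succ ψ a b (by omega) (by omega)] at h1
  rw [h1]
  have h4 : ψ.1 + 1 + 1 - 2 = ψ.1 := by omega
  rw [h4]

/-- [F N3] the good states.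
Proof. `→`: the `H`-links give `xb k (σ (k, i)) = xb 1 (σ (1, i))` for `2 ≤ i ≤ n + 1` (induction on
`k`); the `D`-links in the rows `i ≤ n` give `sb (σ (k + 1, i + 1)) = false` for `i = 1` and
`= outb ψ k i (σ (k, i))` for `2 ≤ i ≤ n`, which is the recursion of `sst` (induction on `k`,
`code_bits`). Clause `c`: the `D`-link with `k = c + n + 1 ≤ K - 1`, `i = n + 1`: if `n = 0` it is
violated (`false = true`), and if `n ≥ 1` it says `outb ψ k (n + 1) (σ (k, n + 1)) = true`; by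
induction on `i` (`2 ≤ i ≤ n + 1`) `sst ψ a b (c + i - 1) i = true` iff
`∃ v < i - 2, litIn cl v (a v) = true`. `←`: the same equivalences. -/
theorem good_iff (ψ : Cnf) (K : ℕ) (hK : ψ.2.length + ψ.1 + 1 ≤ K) (hK2 : 2 ≤ K)
    (σ : ℕ × ℕ → ℕ) (hσ : ∀ P, σ P < 4) :
    Good ψ K σ ↔ (∀ k ∈ Icc 1 K, ∀ i ∈ Icc 2 (ψ.1 + 1),
        σ (k, i) = code k (xb 1 (σ (1, i)))
          (sst ψ (fun v => xb 1 (σ (1, v + 2))) (fun i => sb (σ (1, i))) (k - 1) i)) ∧
      ∀ cl ∈ ψ.2, ∃ v < ψ.1, litIn cl v (xb 1 (σ (1, v + 2))) = true := by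
  set a : ℕ → Bool := fun v => xb 1 (σ (1, v + 2)) with ha
  set b : ℕ → Bool := fun i => sb (σ (1, i)) with hb
  have hai : ∀ i, 2 ≤ i → a (i - 2) = xb 1 (σ (1, i)) := by
    intro i hi
    rw [ha]
    show xb 1 (σ (1, i - 2 + 2)) = _
    rw [Nat.sub_add_cancel hi]
  constructor
  · intro hG
    have key : ∀ k, 1 ≤ k → k ≤ K → ∀ i, 2 ≤ i → i ≤ ψ.1 + 1 →
        xb k (σ (k, i)) = a (i - 2) ∧ sb (σ (k, i)) = sst ψ a b (k - 1) i := by
      intro k hk
      induction k, hk using Nat.le_induction with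
      | base =>
        intro _ i hi _
        exact ⟨(hai i hi).symm, rfl⟩
      | succ k hk ih =>
        intro hkK i hi hi2
        obtain ⟨hH, hD⟩ := hG k (mem_Icc.2 ⟨hk, by omega⟩)
        have hx : ∀ i, 2 ≤ i → i ≤ ψ.1 + 1 → xb (k + 1) (σ (k + 1, i)) = a (i - 2) := by
          intro i hi hi2
          have h1 := hH i (mem_Icc.2 ⟨by omega, by omega⟩)
          unfold okH hL at h1
          rw [if_pos ⟨hi, hi2⟩, if_pos ⟨hi, hi2⟩] at h1
          rw [← h1]
          exact (ih (by omega) i hi hi2).1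
        refine ⟨hx i hi hi2, ?_⟩
        have h1 : k + 1 - 1 = k := rfl
        rw [h1]
        rcases Nat.lt_or_ge 2 i with h2 | h2
        · obtain ⟨i', rfl⟩ : ∃ i', i = i' + 1 := ⟨i - 1, by omega⟩
          have h3 := hD i' (mem_Icc.2 ⟨by omega, by omega⟩)
          unfold okD dL dR at h3
          rw [if_neg (by omega), if_neg (by omega), if_pos hi2] at h3
          have h4 := ih (by omega) i' (by omega) (by omega)
          rw [← h3, FN3_outb ψ a h4.1, h4.2, FN3_sst_succ ψ a b hk (by omega)]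
        · have h5 : i = 2 := by omega
          subst h5
          have h3 := hD 1 (mem_Icc.2 ⟨by omega, by omega⟩)
          unfold okD dL dR at h3
          rw [if_neg (by omega), if_pos rfl, if_pos hi2] at h3
          rw [← h3, FN3_sst_two ψ a b hk]
    refine ⟨fun k hk i hi => ?_, fun cl hcl => ?_⟩
    · rw [mem_Icc] at hk hi
      obtain ⟨h1, h2⟩ := key k hk.1 hk.2 i hi.1 hi.2
      rw [← hai i hi.1, ← h1, ← h2, code_bits k (hσ _)]
    · obtain ⟨c, hc, hcc⟩ := List.mem_iff_getElem.1 hcl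
      have hc2 : ψ.2[c]? = some cl := by rw [List.getElem?_eq_getElem hc, hcc]
      obtain ⟨_, hD⟩ := hG (c + ψ.1 + 1) (mem_Icc.2 ⟨by omega, by omega⟩)
      have h3 := hD (ψ.1 + 1) (mem_Icc.2 ⟨by omega, by omega⟩)
      unfold okD dL dR at h3
      have h4 : ¬ (ψ.1 + 1 = ψ.1 + 1 ∧ ¬ (ψ.1 + 1 ≤ c + ψ.1 + 1 ∧
          c + ψ.1 + 1 - (ψ.1 + 1) < ψ.2.length)) := by
        rintro ⟨_, h4⟩
        exact h4 ⟨by omega, by omega⟩
      rw [if_neg h4, if_neg (show ¬ ψ.1 + 1 + 1 ≤ ψ.1 + 1 by omega)] at h3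
      have hn : 1 ≤ ψ.1 := by
        by_contra hcon
        rw [if_pos (by omega)] at h3
        exact absurd h3 (by decide)
      rw [if_neg (by omega)] at h3
      have h5 := key (c + ψ.1 + 1) (by omega) (by omega) (ψ.1 + 1) (by omega) (by omega)
      rw [FN3_outb ψ a h5.1, h5.2] at h3
      exact (FN3_all ψ a b hc2 hn).1 h3
  · rintro ⟨h1, h2⟩ k hk
    rw [mem_Icc] at hk
    have key : ∀ k, 1 ≤ k → k ≤ K → ∀ i, 2 ≤ i → i ≤ ψ.1 + 1 →
        xb k (σ (k, i)) = a (i - 2) ∧ sb (σ (k, i)) = sst ψ a b (k - 1) i := by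
      intro k hk hkK i hi hi2
      have h3 := h1 k (mem_Icc.2 ⟨hk, hkK⟩) i (mem_Icc.2 ⟨hi, hi2⟩)
      rw [hai i hi]
      constructor
      · rw [h3, xb_code]
      · rw [h3, sb_code]
    refine ⟨fun i hi => ?_, fun i hi => ?_⟩
    · unfold okH hL
      by_cases h3 : 2 ≤ i ∧ i ≤ ψ.1 + 1
      · rw [if_pos h3, if_pos h3, (key k hk.1 (by omega) i h3.1 h3.2).1,
          (key (k + 1) (by omega) (by omega) i h3.1 h3.2).1]
      · rw [if_neg h3, if_neg h3]
    · rw [mem_Icc] at hi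
      unfold okD dL dR
      rcases Nat.lt_or_ge ψ.1 i with h3 | h3
      · have h4 : i = ψ.1 + 1 := by omega
        subst h4
        rw [if_neg (show ¬ ψ.1 + 1 + 1 ≤ ψ.1 + 1 by omega)]
        by_cases h5 : ψ.1 + 1 ≤ k ∧ k - (ψ.1 + 1) < ψ.2.length
        · rw [if_neg (fun h => h.2 h5)]
          obtain ⟨c, rfl⟩ : ∃ c, k = c + ψ.1 + 1 := ⟨k - (ψ.1 + 1), by omega⟩
          have hc : c < ψ.2.length := by omega
          have hc2 : ψ.2[c]? = some ψ.2[c] := List.getElem?_eq_getElem hc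
          have h6 := h2 _ (List.getElem_mem hc)
          have hn : 1 ≤ ψ.1 := by
            obtain ⟨v, hv, _⟩ := h6
            omega
          rw [if_neg (by omega)]
          have h7 := key (c + ψ.1 + 1) (by omega) (by omega) (ψ.1 + 1) (by omega) (by omega)
          rw [FN3_outb ψ a h7.1, h7.2]
          exact (FN3_all ψ a b hc2 hn).2 h6
        · rw [if_pos ⟨rfl, h5⟩]
      · rw [if_neg (by omega), if_pos (show i + 1 ≤ ψ.1 + 1 by omega)]
        have h4 := key (k + 1) (by omega) (by omega) (i + 1) (by omega) (by omega)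
        rw [h4.2]
        have h1' : k + 1 - 1 = k := rfl
        rw [h1']
        by_cases h5 : i = 1
        · subst h5
          rw [if_pos rfl, FN3_sst_two ψ a b hk.1]
        · have h6 := key k hk.1 (by omega) i (by omega) (by omega)
          rw [if_neg h5, FN3_outb ψ a h6.1, h6.2, FN3_sst_succ ψ a b hk.1 (by omega)]

end Inst

end Pool.Agent.TRI
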