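import Pool.Agent.TRI.F_N3

/-!
Area F, part 1 (F_N4): the partition function `Y` counts satisfying assignments (up to a small error).
-/

namespace Pool.Agent.TRI

open Finset

namespace Inst

/-- restriction of a total function. -/
def F_N4_res (t : Finset (ℕ × ℕ)) (f : ℕ × ℕ → ℕ) : (y : ℕ × ℕ) → y ∈ t → ℕ := fun y _ => f y

theorem F_N4_ext_res {t : Finset (ℕ × ℕ)} {f : ℕ × ℕ → ℕ} {y : ℕ × ℕ} (hy : y ∈ t) :
    Skel.ext (F_N4_res t f) y = f y := by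
  unfold Skel.ext F_N4_res
  rw [dif_pos hy]

theorem F_N4_ext_of {t : Finset (ℕ × ℕ)} (p : (y : ℕ × ℕ) → y ∈ t → ℕ) {y : ℕ × ℕ} (hy : y ∈ t) :
    Skel.ext p y = p y hy := by
  unfold Skel.ext
  rw [dif_pos hy]

theorem F_N4_res_ext {t : Finset (ℕ × ℕ)} (p : (y : ℕ × ℕ) → y ∈ t → ℕ) :
    F_N4_res t (Skel.ext p) = p := by
  funext y hy
  unfold F_N4_res
  exact F_N4_ext_of p hy

theorem F_N4_ext_lt {t : Finset (ℕ × ℕ)} {p : (y : ℕ × ℕ) → y ∈ t → ℕ}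
    (hp : p ∈ t.pi (fun _ => range 4)) (y : ℕ × ℕ) : Skel.ext p y < 4 := by
  unfold Skel.ext
  split_ifs with h
  · exact mem_range.1 (mem_pi.1 hp y h)
  · omega

/-- extension of an assignment -/
def F_N4_A {n : ℕ} (a : Fin n → Bool) (v : ℕ) : Bool := if h : v < n then a ⟨v, h⟩ else false

/-- extension of the second bits -/
def F_N4_B {n : ℕ} (b : Fin n → Bool) (i : ℕ) : Bool := F_N4_A b (i - 2)

theorem F_N4_A_of {n : ℕ} (a : Fin n → Bool) {v : ℕ} (h : v < n) : F_N4_A a v = a ⟨v, h⟩ := by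
  unfold F_N4_A
  rw [dif_pos h]

theorem F_N4_sst (ψ : Cnf) {a a' b b' : ℕ → Bool} (ha : ∀ v < ψ.1, a v = a' v)
    (hb : ∀ i, 2 ≤ i → i ≤ ψ.1 + 1 → b i = b' i) (k : ℕ) :
    ∀ i, 2 ≤ i → i ≤ ψ.1 + 1 → sst ψ a b k i = sst ψ a' b' k i := by
  induction k with
  | zero =>
    intro i h1 h2
    unfold sst
    exact hb i h1 h2
  | succ k ih =>
    intro i h1 h2
    unfold sst
    split_ifs with h3
    · rfl
    · rw [ih (i - 1) (by omega) (by omega), ha (i - 3) (by omega)]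

theorem F_N4_clause {n : ℕ} (a : Fin n → Bool) (cl : List (Bool × ℕ)) :
    clauseSat a cl = true ↔ ∃ v < n, litIn cl v (F_N4_A a v) = true := by
  unfold clauseSat litIn
  rw [List.any_eq_true]
  constructor
  · rintro ⟨l, hl, h⟩
    split_ifs at h with h1
    refine ⟨l.2, h1, ?_⟩
    rw [List.any_eq_true]
    refine ⟨l, hl, ?_⟩
    rw [F_N4_A_of a h1]
    rw [beq_iff_eq] at h
    rw [h]
    simp
  · rintro ⟨v, hv, h⟩
    rw [List.any_eq_true] at h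
    obtain ⟨l, hl, h⟩ := h
    rw [Bool.and_eq_true, beq_iff_eq, beq_iff_eq, F_N4_A_of a hv] at h
    obtain ⟨h1, h2⟩ := h
    subst h1
    refine ⟨l, hl, ?_⟩
    rw [dif_pos hv, h2]
    simp

theorem F_N4_row (x : Bool) (L : ℕ) :
    ∏ k ∈ Icc 1 (2 * L), (if x ^^ decide (k % 2 = 1) then 5 else 3 : ℕ) = 15 ^ L := by
  induction L with
  | zero => rfl
  | succ L ih =>
    have e : 2 * (L + 1) = (2 * L + 1) + 1 := by ring
    rw [e, Finset.prod_Icc_succ_top (by omega), Finset.prod_Icc_succ_top (by omega), ih, pow_succ]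
    have h1 : (2 * L + 1) % 2 = 1 := by omega
    have h2 : ¬ ((2 * L + 1 + 1) % 2 = 1) := by omega
    cases x <;> simp [h1, h2, mul_assoc]

/-- the total function given by the data -/
def F_N4_f (ψ : Cnf) (a b : Fin ψ.1 → Bool) (g : ℕ × ℕ → ℕ) (y : ℕ × ℕ) : ℕ :=
  if 2 ≤ y.2 ∧ y.2 ≤ ψ.1 + 1 then
    code y.1 (F_N4_A a (y.2 - 2)) (sst ψ (F_N4_A a) (F_N4_B b) (y.1 - 1) y.2)
  else g y

theorem F_N4_f_lt (ψ : Cnf) (a b : Fin ψ.1 → Bool) {g : ℕ × ℕ → ℕ} (hg : ∀ y, g y < 4) (y : ℕ × ℕ) :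
    F_N4_f ψ a b g y < 4 := by
  unfold F_N4_f
  split_ifs
  · exact code_lt _ _ _
  · exact hg y

theorem F_N4_f_row (ψ : Cnf) (a b : Fin ψ.1 → Bool) (g : ℕ × ℕ → ℕ) {i : ℕ} (h1 : 2 ≤ i)
    (h2 : i ≤ ψ.1 + 1) : F_N4_f ψ a b g (1, i) = code 1 (F_N4_A a (i - 2)) (F_N4_B b i) := by
  unfold F_N4_f
  rw [if_pos ⟨h1, h2⟩]
  rfl

theorem F_N4_weight (ψ : Cnf) (a b : Fin ψ.1 → Bool) (g : ℕ × ℕ → ℕ) (L : ℕ) :
    ∏ P ∈ (Icc 1 (2 * L)) ×ˢ (Icc 1 (ψ.1 + 2)), wgt (F_N4_f ψ a b g P) =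
      (∏ P ∈ (Icc 1 (2 * L)) ×ˢ ({1, ψ.1 + 2} : Finset ℕ), wgt (g P)) * 15 ^ (ψ.1 * L) := by
  have hI : Icc 1 (ψ.1 + 2) = ({1, ψ.1 + 2} : Finset ℕ) ∪ Icc 2 (ψ.1 + 1) := by
    ext i
    simp only [mem_Icc, mem_union, mem_insert, mem_singleton]
    omega
  have hd : Disjoint ({1, ψ.1 + 2} : Finset ℕ) (Icc 2 (ψ.1 + 1)) := by
    rw [Finset.disjoint_left]
    intro i hi
    simp only [mem_insert, mem_singleton, mem_Icc] at hi ⊢
    omega
  have h1 : ∀ k, ∏ i ∈ Icc 1 (ψ.1 + 2), wgt (F_N4_f ψ a b g (k, i)) =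
      (∏ i ∈ ({1, ψ.1 + 2} : Finset ℕ), wgt (g (k, i))) *
        ∏ i ∈ Icc 2 (ψ.1 + 1), (if F_N4_A a (i - 2) ^^ decide (k % 2 = 1) then 5 else 3 : ℕ) := by
    intro k
    rw [hI, Finset.prod_union hd]
    congr 1
    · refine Finset.prod_congr rfl (fun i hi => ?_)
      have h2 : ¬ (2 ≤ i ∧ i ≤ ψ.1 + 1) := by
        simp only [mem_insert, mem_singleton] at hi
        omega
      unfold F_N4_f
      rw [if_neg h2]
    · refine Finset.prod_congr rfl (fun i hi => ?_)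
      rw [mem_Icc] at hi
      unfold F_N4_f
      rw [if_pos hi, wgt_code]
  rw [Finset.prod_product, Finset.prod_congr rfl (fun k _ => h1 k), Finset.prod_mul_distrib,
    Finset.prod_product]
  congr 1
  rw [Finset.prod_comm, Finset.prod_congr rfl (fun i _ => F_N4_row (F_N4_A a (i - 2)) L),
    Finset.prod_const, Nat.card_Icc]
  rw [← pow_mul]
  congr 1
  have : ψ.1 + 1 + 1 - 2 = ψ.1 := by omega
  rw [this, mul_comm]

theorem F_N4_ends (K n : ℕ) : ∑ ρ ∈ ((Icc 1 K) ×ˢ ({1, n + 2} : Finset ℕ)).pi (fun _ => range 4),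
    ∏ P ∈ (Icc 1 K) ×ˢ ({1, n + 2} : Finset ℕ), wgt (Skel.ext ρ P) = 16 ^ (2 * K) := by
  classical
  have h1 : ∀ ρ ∈ ((Icc 1 K) ×ˢ ({1, n + 2} : Finset ℕ)).pi (fun _ => range 4),
      ∏ P ∈ (Icc 1 K) ×ˢ ({1, n + 2} : Finset ℕ), wgt (Skel.ext ρ P) =
        ∏ P ∈ ((Icc 1 K) ×ˢ ({1, n + 2} : Finset ℕ)).attach, wgt (ρ P.1 P.2) := by
    intro ρ _
    rw [← Finset.prod_attach]
    refine Finset.prod_congr rfl (fun P _ => ?_)
    rw [F_N4_ext_of ρ P.2]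
  have h0 := (Finset.prod_sum ((Icc 1 K) ×ˢ ({1, n + 2} : Finset ℕ)) (fun _ => range 4)
    (fun _ c => wgt c)).symm
  rw [Finset.sum_congr rfl h1, h0]
  have h2 : ∑ c ∈ range 4, wgt c = 16 := by decide
  rw [Finset.prod_congr rfl (fun _ _ => h2), Finset.prod_const, Finset.card_product, Nat.card_Icc]
  have h3 : ({1, n + 2} : Finset ℕ).card = 2 := by
    rw [Finset.card_pair]
    omega
  rw [h3, Nat.add_sub_cancel, mul_comm]

theorem F_N4_sumS (n K c : ℕ) (A : Finset (Fin n → Bool)) :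
    ∑ q ∈ A ×ˢ ((univ : Finset (Fin n → Bool)) ×ˢ
        ((Icc 1 K) ×ˢ ({1, n + 2} : Finset ℕ)).pi (fun _ => range 4)),
      (∏ P ∈ (Icc 1 K) ×ˢ ({1, n + 2} : Finset ℕ), wgt (Skel.ext q.2.2 P)) * c =
        A.card * (2 ^ n * (16 ^ (2 * K) * c)) := by
  rw [← Finset.sum_mul, Finset.sum_product]
  have h1 : ∀ a : Fin n → Bool, ∑ q ∈ (univ : Finset (Fin n → Bool)) ×ˢ
        ((Icc 1 K) ×ˢ ({1, n + 2} : Finset ℕ)).pi (fun _ => range 4),
      (∏ P ∈ (Icc 1 K) ×ˢ ({1, n + 2} : Finset ℕ), wgt (Skel.ext (a, q).2.2 P)) =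
        2 ^ n * 16 ^ (2 * K) := by
    intro a
    rw [Finset.sum_product]
    have h2 : ∀ b : Fin n → Bool,
        ∑ ρ ∈ ((Icc 1 K) ×ˢ ({1, n + 2} : Finset ℕ)).pi (fun _ => range 4),
        (∏ P ∈ (Icc 1 K) ×ˢ ({1, n + 2} : Finset ℕ), wgt (Skel.ext (a, (b, ρ)).2.2 P)) =
          16 ^ (2 * K) := fun b => F_N4_ends K n
    rw [Finset.sum_congr rfl (fun b _ => h2 b), Finset.sum_const, smul_eq_mul, Finset.card_univ,
      Fintype.card_fun, Fintype.card_bool, Fintype.card_fin]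
  rw [Finset.sum_congr rfl (fun a _ => h1 a), Finset.sum_const, smul_eq_mul]
  simp only [mul_assoc]

open Classical in
/-- [F N4] the weights of the good states.
Proof. Bijection (`Finset.sum_bij'`) between the good `σ` and the triples `(a, b, ρ)`,
`a : Fin n → Bool` with `ψ.2.all (clauseSat a)`, `b : Fin n → Bool`,
`ρ ∈ (Icc 1 K ×ˢ {1, n + 2}).pi (fun _ => range 4)`: `a v = xb 1 (σ (1, v + 2))`,
`b v = sb (σ (1, v + 2))`, `ρ` = restriction; inverse: rows `1` and `n + 2` from `ρ`, and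
`code k (a (i - 2)) (sst ψ a' b' (k - 1) i)` in the rows `2 ≤ i ≤ n + 1` (`good_iff`,
`clauseSat a c = true` iff `∃ v < n, litIn c v (a v)`).
Weights: rows `1`, `n + 2`: `3 + 5 + 5 + 3 = 16` for each node (`Finset.prod_sum`); each of the other
rows has weight `∏ k ∈ Icc 1 K, (if x ^^ (k odd) then 5 else 3) = 15 ^ (K / 2)`. -/
theorem good_sum (ψ : Cnf) (m : ℕ) (hm : ψ.2.length ≤ m) :
    ∑ σ ∈ ((Icc 1 (pK ψ.1 m)) ×ˢ (Icc 1 (ψ.1 + 2))).pi (fun _ => range 4),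
        (if Good ψ (pK ψ.1 m) (Skel.ext σ) then
          ∏ P ∈ (Icc 1 (pK ψ.1 m)) ×ˢ (Icc 1 (ψ.1 + 2)), wgt (Skel.ext σ P) else 0) =
      16 ^ (2 * pK ψ.1 m) * 15 ^ (ψ.1 * (m + ψ.1 + 1)) * 2 ^ ψ.1 * sharpSat ψ := by
  have hK : pK ψ.1 m = 2 * (m + ψ.1 + 1) := rfl
  set K := pK ψ.1 m with hKdef
  have hK1 : ψ.2.length + ψ.1 + 1 ≤ K := by omega
  have hK2 : 2 ≤ K := by omega
  set D : Finset (ℕ × ℕ) := (Icc 1 K) ×ˢ ({1, ψ.1 + 2} : Finset ℕ) with hD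
  set E : Finset (ℕ × ℕ) := (Icc 1 K) ×ˢ (Icc 1 (ψ.1 + 2)) with hE
  have hDE : D ⊆ E := by
    intro y hy
    rw [hD, mem_product, mem_insert, mem_singleton, mem_Icc] at hy
    rw [hE, mem_product, mem_Icc, mem_Icc]
    omega
  have hmemE : ∀ k i, (k, i) ∈ E ↔ (1 ≤ k ∧ k ≤ K) ∧ 1 ≤ i ∧ i ≤ ψ.1 + 2 := by
    intro k i
    rw [hE, mem_product, mem_Icc, mem_Icc]
  have hnotD : ∀ y ∈ D, ¬ (2 ≤ y.2 ∧ y.2 ≤ ψ.1 + 1) := by
    intro y hy
    rw [hD, mem_product, mem_insert, mem_singleton, mem_Icc] at hy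
    omega
  have hmemD : ∀ y ∈ E, ¬ (2 ≤ y.2 ∧ y.2 ≤ ψ.1 + 1) → y ∈ D := by
    intro y hy h
    rw [hD, mem_product, mem_insert, mem_singleton, mem_Icc]
    rw [hE, mem_product, mem_Icc, mem_Icc] at hy
    omega
  rw [← Finset.sum_filter]
  set S : Finset ((Fin ψ.1 → Bool) × (Fin ψ.1 → Bool) × ((y : ℕ × ℕ) → y ∈ D → ℕ)) :=
    (univ.filter fun a : Fin ψ.1 → Bool => ψ.2.all (clauseSat a) = true) ×ˢ
      ((univ : Finset (Fin ψ.1 → Bool)) ×ˢ D.pi (fun _ => range 4)) with hS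
  have key : ∑ σ ∈ (E.pi (fun _ => range 4)).filter (fun σ => Good ψ K (Skel.ext σ)),
      ∏ P ∈ E, wgt (Skel.ext σ P) =
      ∑ q ∈ S, (∏ P ∈ D, wgt (Skel.ext q.2.2 P)) * 15 ^ (ψ.1 * (m + ψ.1 + 1)) := by
    refine Finset.sum_bij'
      (fun σ _ => ((fun v => xb 1 (Skel.ext σ (1, (v : ℕ) + 2))), (fun v => sb (Skel.ext σ (1, (v : ℕ) + 2))),
        F_N4_res D (Skel.ext σ)))
      (fun q _ => F_N4_res E (F_N4_f ψ q.1 q.2.1 (Skel.ext q.2.2))) ?_ ?_ ?_ ?_ ?_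
    · intro σ hσ
      rw [mem_filter] at hσ
      have hlt := F_N4_ext_lt hσ.1
      have hg := (good_iff ψ K hK1 hK2 (Skel.ext σ) hlt).1 hσ.2
      rw [hS, mem_product, mem_product, mem_filter]
      refine ⟨⟨mem_univ _, ?_⟩, mem_univ _, ?_⟩
      · rw [List.all_eq_true]
        intro cl hcl
        rw [F_N4_clause]
        obtain ⟨v, hv, hv'⟩ := hg.2 cl hcl
        refine ⟨v, hv, ?_⟩
        rw [F_N4_A_of _ hv]
        exact hv'
      · rw [mem_pi]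
        intro y hy
        rw [mem_range]
        exact hlt y
    · intro q hq
      rw [hS, mem_product, mem_product, mem_filter] at hq
      obtain ⟨⟨-, hsat⟩, -, hρ⟩ := hq
      have hlt : ∀ y, F_N4_f ψ q.1 q.2.1 (Skel.ext q.2.2) y < 4 :=
        F_N4_f_lt ψ q.1 q.2.1 (F_N4_ext_lt hρ)
      have hpi : F_N4_res E (F_N4_f ψ q.1 q.2.1 (Skel.ext q.2.2)) ∈ E.pi (fun _ => range 4) := by
        rw [mem_pi]
        intro y hy
        rw [mem_range]
        exact hlt y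
      rw [mem_filter]
      refine ⟨hpi, ?_⟩
      rw [good_iff ψ K hK1 hK2 _ (F_N4_ext_lt hpi)]
      have hrow : ∀ i, 2 ≤ i → i ≤ ψ.1 + 1 →
          Skel.ext (F_N4_res E (F_N4_f ψ q.1 q.2.1 (Skel.ext q.2.2))) (1, i)
            = code 1 (F_N4_A q.1 (i - 2)) (F_N4_B q.2.1 i) := by
        intro i h1 h2
        rw [F_N4_ext_res ((hmemE 1 i).2 ⟨⟨le_rfl, by omega⟩, by omega, by omega⟩),
          F_N4_f_row ψ q.1 q.2.1 _ h1 h2]
      have hrowv : ∀ v < ψ.1, xb 1 (Skel.ext (F_N4_res E (F_N4_f ψ q.1 q.2.1 (Skel.ext q.2.2))) (1, v + 2))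
            = F_N4_A q.1 v := by
        intro v hv
        rw [hrow (v + 2) (by omega) (by omega), xb_code, Nat.add_sub_cancel]
      refine ⟨?_, ?_⟩
      · intro k hk i hi
        rw [mem_Icc] at hk hi
        rw [F_N4_ext_res ((hmemE k i).2 ⟨⟨hk.1, hk.2⟩, by omega, by omega⟩), hrow i hi.1 hi.2, xb_code]
        have e1 : F_N4_f ψ q.1 q.2.1 (Skel.ext q.2.2) (k, i)
            = code k (F_N4_A q.1 (i - 2)) (sst ψ (F_N4_A q.1) (F_N4_B q.2.1) (k - 1) i) := by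
          unfold F_N4_f
          rw [if_pos (show 2 ≤ (k, i).2 ∧ (k, i).2 ≤ ψ.1 + 1 from hi)]
        rw [e1]
        congr 1
        refine F_N4_sst ψ (fun v hv => (hrowv v hv).symm) (fun j h1 h2 => ?_) (k - 1) i hi.1 hi.2
        rw [hrow j h1 h2, sb_code]
      · intro cl hcl
        have h1 := (List.all_eq_true.1 hsat) cl hcl
        rw [F_N4_clause] at h1
        obtain ⟨v, hv, hv'⟩ := h1
        refine ⟨v, hv, ?_⟩
        rw [hrowv v hv]
        exact hv'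
    · intro σ hσ
      rw [mem_filter] at hσ
      have hlt := F_N4_ext_lt hσ.1
      have hg := (good_iff ψ K hK1 hK2 (Skel.ext σ) hlt).1 hσ.2
      funext y hy
      show F_N4_f ψ _ _ _ y = σ y hy
      rw [← F_N4_ext_of σ hy]
      by_cases h : 2 ≤ y.2 ∧ y.2 ≤ ψ.1 + 1
      · unfold F_N4_f
        rw [if_pos h]
        obtain ⟨k, i⟩ := y
        have hy' := (hmemE k i).1 hy
        have h' : 2 ≤ i ∧ i ≤ ψ.1 + 1 := h
        rw [hg.1 k (mem_Icc.2 hy'.1) i (mem_Icc.2 h')]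
        have e1 : F_N4_A (fun v : Fin ψ.1 => xb 1 (Skel.ext σ (1, (v : ℕ) + 2))) (i - 2)
            = xb 1 (Skel.ext σ (1, i)) := by
          rw [F_N4_A_of _ (show i - 2 < ψ.1 by omega)]
          show xb 1 (Skel.ext σ (1, i - 2 + 2)) = _
          rw [Nat.sub_add_cancel h'.1]
        show code k (F_N4_A _ (i - 2)) (sst ψ _ _ (k - 1) i) = _
        rw [e1]
        congr 1
        refine F_N4_sst ψ (fun v hv => ?_) (fun j h1 h2 => ?_) (k - 1) i h'.1 h'.2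
        · rw [F_N4_A_of _ hv]
        · unfold F_N4_B
          rw [F_N4_A_of _ (show j - 2 < ψ.1 by omega)]
          show sb (Skel.ext σ (1, j - 2 + 2)) = _
          rw [Nat.sub_add_cancel h1]
      · unfold F_N4_f
        rw [if_neg h]
        exact F_N4_ext_res (hmemD y hy h)
    · intro q hq
      rw [hS, mem_product, mem_product, mem_filter] at hq
      obtain ⟨a, b, ρ⟩ := q
      have hrow : ∀ v : Fin ψ.1,
          Skel.ext (F_N4_res E (F_N4_f ψ a b (Skel.ext ρ))) (1, (v : ℕ) + 2)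
            = code 1 (a v) (b v) := by
        intro v
        have hv := v.2
        rw [F_N4_ext_res ((hmemE 1 ((v : ℕ) + 2)).2 ⟨⟨le_rfl, by omega⟩, by omega, by omega⟩),
          F_N4_f_row ψ a b _ (by omega) (by omega), Nat.add_sub_cancel, F_N4_A_of a hv]
        unfold F_N4_B
        rw [Nat.add_sub_cancel, F_N4_A_of b hv]
      refine Prod.ext ?_ (Prod.ext ?_ ?_)
      · funext v
        show xb 1 (Skel.ext (F_N4_res E (F_N4_f ψ a b (Skel.ext ρ))) (1, (v : ℕ) + 2)) = a v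
        rw [hrow v, xb_code]
      · funext v
        show sb (Skel.ext (F_N4_res E (F_N4_f ψ a b (Skel.ext ρ))) (1, (v : ℕ) + 2)) = b v
        rw [hrow v, sb_code]
      · funext y hy
        show Skel.ext (F_N4_res E (F_N4_f ψ a b (Skel.ext ρ))) y = ρ y hy
        rw [F_N4_ext_res (hDE hy)]
        unfold F_N4_f
        rw [if_neg (hnotD y hy), F_N4_ext_of ρ hy]
    · intro σ hσ
      rw [mem_filter] at hσ
      have hlt := F_N4_ext_lt hσ.1
      have hg := (good_iff ψ K hK1 hK2 (Skel.ext σ) hlt).1 hσ.2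
      set a : Fin ψ.1 → Bool := fun v => xb 1 (Skel.ext σ (1, (v : ℕ) + 2)) with ha
      set b : Fin ψ.1 → Bool := fun v => sb (Skel.ext σ (1, (v : ℕ) + 2)) with hb
      have h1 : ∀ y ∈ E, Skel.ext σ y = F_N4_f ψ a b (Skel.ext (F_N4_res D (Skel.ext σ))) y := by
        intro y hy
        by_cases h : 2 ≤ y.2 ∧ y.2 ≤ ψ.1 + 1
        · unfold F_N4_f
          rw [if_pos h]
          obtain ⟨k, i⟩ := y
          have hy' := (hmemE k i).1 hy
          have h' : 2 ≤ i ∧ i ≤ ψ.1 + 1 := h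
          rw [hg.1 k (mem_Icc.2 hy'.1) i (mem_Icc.2 h')]
          have e1 : F_N4_A a (i - 2) = xb 1 (Skel.ext σ (1, i)) := by
            rw [F_N4_A_of _ (show i - 2 < ψ.1 by omega)]
            show xb 1 (Skel.ext σ (1, i - 2 + 2)) = _
            rw [Nat.sub_add_cancel h'.1]
          show _ = code k (F_N4_A a (i - 2)) (sst ψ (F_N4_A a) (F_N4_B b) (k - 1) i)
          rw [e1]
          congr 1
          refine F_N4_sst ψ (fun v hv => ?_) (fun j h1 h2 => ?_) (k - 1) i h'.1 h'.2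
          · rw [F_N4_A_of _ hv]
          · unfold F_N4_B
            rw [F_N4_A_of _ (show j - 2 < ψ.1 by omega)]
            show _ = sb (Skel.ext σ (1, j - 2 + 2))
            rw [Nat.sub_add_cancel h1]
        · unfold F_N4_f
          rw [if_neg h]
          exact (F_N4_ext_res (hmemD y hy h)).symm
      have h2 : ∏ P ∈ E, wgt (Skel.ext σ P)
          = ∏ P ∈ E, wgt (F_N4_f ψ a b (Skel.ext (F_N4_res D (Skel.ext σ))) P) :=
        Finset.prod_congr rfl (fun y hy => by rw [h1 y hy])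
      rw [h2]
      exact F_N4_weight ψ a b (Skel.ext (F_N4_res D (Skel.ext σ))) (m + ψ.1 + 1)
  rw [key, hS, hD, F_N4_sumS ψ.1 K (15 ^ (ψ.1 * (m + ψ.1 + 1)))]
  have h3 : (univ.filter fun a : Fin ψ.1 → Bool => ψ.2.all (clauseSat a) = true).card = sharpSat ψ := rfl
  rw [h3]
  generalize 16 ^ (2 * K) = u
  generalize 15 ^ (ψ.1 * (m + ψ.1 + 1)) = v
  ring

end Inst

end Pool.Agent.TRI
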