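import Pool.Agent.TRI.F_NDefs

/-!
Area F, part 1 (F_N5): the partition function `Y` counts satisfying assignments (up to a small error).
-/

namespace Pool.Agent.TRI

open Finset

namespace Inst

private theorem F_N5_base : 2 * 112 ^ 78 ≤ 113 ^ 78 := by norm_num

private theorem F_N5_pow (A : ℕ) : 2 ^ (5 * A) * 112 ^ (400 * A) ≤ 113 ^ (400 * A) := by
  have h1 : (2 * 112 ^ 78) ^ (5 * A) ≤ (113 ^ 78) ^ (5 * A) :=
    Nat.pow_le_pow_left F_N5_base _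
  have h2 : (112 : ℕ) ^ (10 * A) ≤ 113 ^ (10 * A) := Nat.pow_le_pow_left (by norm_num) _
  have h3 := Nat.mul_le_mul h1 h2
  have e1 : (2 * 112 ^ 78) ^ (5 * A) * 112 ^ (10 * A) = 2 ^ (5 * A) * 112 ^ (400 * A) := by
    rw [mul_pow, ← pow_mul, mul_assoc, ← pow_add]
    congr 2
    ring
  have e2 : (113 ^ 78) ^ (5 * A) * 113 ^ (10 * A) = 113 ^ (400 * A) := by
    rw [← pow_mul, ← pow_add]
    congr 1
    ring
  rwa [e1, e2] at h3

/-- [F N5] the numerical inequality.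
Proof. `N K` with `N = n + 2`, `r = 400 N K`, `Λ = (2 N - 1) (K - 1) ≥ 1`;
`113 ^ 78 ≥ 2 * 112 ^ 78` (`norm_num`), so `113 ^ r ≥ 2 ^ (5 N K) * 112 ^ r`, and
`2 ^ 3 * 16 ^ (n K) ≤ 2 ^ (5 N K)`. -/
theorem err_le (n m : ℕ) :
    2 ^ (n + 3) * (16 ^ (pN n * pK n m) * (112 ^ pr n m *
        113 ^ (pr n m * ((2 * pN n - 1) * (pK n m - 1) - 1)))) ≤ mainW n m := by
  unfold mainW
  have hK : 2 ≤ pK n m := by unfold pK; omega
  have hN : pN n = n + 2 := rfl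
  have hr : pr n m = 400 * (pN n * pK n m) := by unfold pr; ring
  obtain ⟨L, hL⟩ : ∃ L, (2 * pN n - 1) * (pK n m - 1) = L + 1 := by
    have h1 : 0 < (2 * pN n - 1) * (pK n m - 1) :=
      Nat.mul_pos (by rw [hN]; omega) (by omega)
    exact ⟨(2 * pN n - 1) * (pK n m - 1) - 1, by omega⟩
  rw [hL, Nat.add_sub_cancel]
  have key := F_N5_pow (pN n * pK n m)
  rw [← hr] at key
  generalize pr n m = r at *
  have e0 : (113 : ℕ) ^ (r * (L + 1)) = 113 ^ r * 113 ^ (r * L) := by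
    rw [← pow_add]; congr 1; ring
  have e1 : (16 : ℕ) ^ (pN n * pK n m) = 16 ^ (2 * pK n m) * 2 ^ (4 * (n * pK n m)) := by
    have : (16 : ℕ) = 2 ^ 4 := by norm_num
    rw [this, ← pow_mul, ← pow_mul, ← pow_add]
    congr 1
    rw [hN]; ring
  have e2 : (2 : ℕ) ^ 3 * 2 ^ (4 * (n * pK n m)) ≤ 2 ^ (5 * (pN n * pK n m)) := by
    rw [← pow_add]
    apply Nat.pow_le_pow_right (by norm_num)
    rw [hN]
    nlinarith [Nat.zero_le (n * pK n m)]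
  have e3 : 1 ≤ 15 ^ (n * (m + n + 1)) := Nat.one_le_pow _ _ (by norm_num)
  calc 2 ^ (n + 3) * (16 ^ (pN n * pK n m) * (112 ^ r * 113 ^ (r * L)))
      = (16 ^ (2 * pK n m) * 2 ^ n * 113 ^ (r * L)) *
          ((2 ^ 3 * 2 ^ (4 * (n * pK n m))) * 112 ^ r) := by
        rw [e1, pow_add]; ring
    _ ≤ (16 ^ (2 * pK n m) * 2 ^ n * 113 ^ (r * L)) *
          (2 ^ (5 * (pN n * pK n m)) * 112 ^ r) :=
        Nat.mul_le_mul_left _ (Nat.mul_le_mul_right _ e2)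
    _ ≤ (16 ^ (2 * pK n m) * 2 ^ n * 113 ^ (r * L)) * 113 ^ r :=
        Nat.mul_le_mul_left _ key
    _ = (16 ^ (2 * pK n m) * 2 ^ n * 113 ^ (r * L)) * 113 ^ r * 1 := by rw [mul_one]
    _ ≤ (16 ^ (2 * pK n m) * 2 ^ n * 113 ^ (r * L)) * 113 ^ r * 15 ^ (n * (m + n + 1)) :=
        Nat.mul_le_mul_left _ e3
    _ = 16 ^ (2 * pK n m) * 15 ^ (n * (m + n + 1)) * 2 ^ n * 113 ^ (r * (L + 1)) := by
        rw [e0]; ring

end Inst

end Pool.Agent.TRI
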