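import Pool.Agent.TRI.F_NDefs

/-!
Area F, part 1 (F_N6): the partition function `Y` counts satisfying assignments (up to a small error).
-/

namespace Pool.Agent.TRI

open Finset

namespace Inst

theorem F_N6_prod (s : Finset ℕ) (f : ℕ → ℕ) (c d : ℕ) (hf : ∀ i ∈ s, f i ≤ c) (i0 : ℕ)
    (hi0 : i0 ∈ s) (h : f i0 ≤ d) : ∏ i ∈ s, f i ≤ d * c ^ (s.card - 1) := by
  rw [← mul_prod_erase s f hi0]
  refine Nat.mul_le_mul h ?_
  calc ∏ i ∈ s.erase i0, f i ≤ ∏ _i ∈ s.erase i0, c :=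
        Finset.prod_le_prod' (fun i hi => hf i (mem_of_mem_erase hi))
    _ = c ^ (s.card - 1) := by rw [prod_const, card_erase_of_mem hi0]

theorem F_N6_le (s : Finset ℕ) (f : ℕ → ℕ) (c : ℕ) (hf : ∀ i ∈ s, f i ≤ c) :
    ∏ i ∈ s, f i ≤ c ^ s.card := by
  calc ∏ i ∈ s, f i ≤ ∏ _i ∈ s, c := Finset.prod_le_prod' (fun i hi => hf i hi)
    _ = c ^ s.card := by rw [prod_const]

open Classical in
/-- [F N6] the links of one state: `113 ^ (r Λ)` if it is good, at most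
`112 ^ r * 113 ^ (r (Λ - 1))` otherwise. -/
theorem links_good (ψ : Cnf) (K r : ℕ) (σ : ℕ × ℕ → ℕ) (h : Good ψ K σ) :
    ∏ k ∈ Icc 1 (K - 1), ((∏ i ∈ Icc 1 (ψ.1 + 2), (112 + if okH ψ σ k i then 1 else 0)) ^ r *
        (∏ i ∈ Icc 1 (ψ.1 + 1), (112 + if okD ψ σ k i then 1 else 0)) ^ r) =
      113 ^ (r * ((2 * (ψ.1 + 2) - 1) * (K - 1))) := by
  have h1 : ∀ k ∈ Icc 1 (K - 1),
      ((∏ i ∈ Icc 1 (ψ.1 + 2), (112 + if okH ψ σ k i then 1 else 0)) ^ r *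
        (∏ i ∈ Icc 1 (ψ.1 + 1), (112 + if okD ψ σ k i then 1 else 0)) ^ r) =
      113 ^ (r * (2 * (ψ.1 + 2) - 1)) := by
    intro k hk
    have e1 : ∏ i ∈ Icc 1 (ψ.1 + 2), (112 + if okH ψ σ k i then 1 else 0) = 113 ^ (ψ.1 + 2) := by
      rw [prod_congr rfl (fun i hi => by rw [if_pos ((h k hk).1 i hi)]), prod_const, Nat.card_Icc]
      norm_num
    have e2 : ∏ i ∈ Icc 1 (ψ.1 + 1), (112 + if okD ψ σ k i then 1 else 0) = 113 ^ (ψ.1 + 1) := by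
      rw [prod_congr rfl (fun i hi => by rw [if_pos ((h k hk).2 i hi)]), prod_const, Nat.card_Icc]
      norm_num
    rw [e1, e2, ← pow_mul, ← pow_mul, ← pow_add]
    congr 1
    have e3 : 2 * (ψ.1 + 2) - 1 = (ψ.1 + 2) + (ψ.1 + 1) := by omega
    rw [e3]
    ring
  rw [prod_congr rfl h1, prod_const, Nat.card_Icc, ← pow_mul]
  congr 1
  have e4 : K - 1 + 1 - 1 = K - 1 := by omega
  rw [e4]
  ring

open Classical in
/-- [F N6] -/
theorem links_bad (ψ : Cnf) (K r : ℕ) (σ : ℕ × ℕ → ℕ) (h : ¬ Good ψ K σ) :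
    ∏ k ∈ Icc 1 (K - 1), ((∏ i ∈ Icc 1 (ψ.1 + 2), (112 + if okH ψ σ k i then 1 else 0)) ^ r *
        (∏ i ∈ Icc 1 (ψ.1 + 1), (112 + if okD ψ σ k i then 1 else 0)) ^ r) ≤
      112 ^ r * 113 ^ (r * ((2 * (ψ.1 + 2) - 1) * (K - 1) - 1)) := by
  have hone : ∀ (P : Prop) [Decidable P], (112 + if P then 1 else 0) ≤ 113 := by
    intro P _
    split_ifs <;> norm_num
  have hA : ∀ k, ∏ i ∈ Icc 1 (ψ.1 + 2), (112 + if okH ψ σ k i then 1 else 0) ≤ 113 ^ (ψ.1 + 2) := by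
    intro k
    have := F_N6_le (Icc 1 (ψ.1 + 2)) (fun i => 112 + if okH ψ σ k i then 1 else 0) 113
      (fun i _ => hone _)
    rw [Nat.card_Icc] at this
    exact this
  have hB : ∀ k, ∏ i ∈ Icc 1 (ψ.1 + 1), (112 + if okD ψ σ k i then 1 else 0) ≤ 113 ^ (ψ.1 + 1) := by
    intro k
    have := F_N6_le (Icc 1 (ψ.1 + 1)) (fun i => 112 + if okD ψ σ k i then 1 else 0) 113
      (fun i _ => hone _)
    rw [Nat.card_Icc] at this
    exact this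
  unfold Good at h
  push Not at h
  obtain ⟨k0, hk0, h⟩ := h
  have hk0' : ((∏ i ∈ Icc 1 (ψ.1 + 2), (112 + if okH ψ σ k0 i then 1 else 0)) ^ r *
        (∏ i ∈ Icc 1 (ψ.1 + 1), (112 + if okD ψ σ k0 i then 1 else 0)) ^ r) ≤
      112 ^ r * 113 ^ (r * (2 * ψ.1 + 2)) := by
    rw [← mul_pow, mul_comm r, pow_mul, ← mul_pow]
    refine Nat.pow_le_pow_left ?_ r
    by_cases hH : ∀ i ∈ Icc 1 (ψ.1 + 2), okH ψ σ k0 i
    · obtain ⟨i0, hi0, hno⟩ := h hH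
      have := F_N6_prod (Icc 1 (ψ.1 + 1)) (fun i => 112 + if okD ψ σ k0 i then 1 else 0) 113 112
        (fun i _ => hone _) i0 hi0 (by simp [hno])
      rw [Nat.card_Icc] at this
      calc (∏ i ∈ Icc 1 (ψ.1 + 2), (112 + if okH ψ σ k0 i then 1 else 0)) *
            (∏ i ∈ Icc 1 (ψ.1 + 1), (112 + if okD ψ σ k0 i then 1 else 0))
          ≤ 113 ^ (ψ.1 + 2) * (112 * 113 ^ (ψ.1 + 1 + 1 - 1 - 1)) := Nat.mul_le_mul (hA k0) this
        _ = 112 * 113 ^ (2 * ψ.1 + 2) := by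
          have e1 : ψ.1 + 1 + 1 - 1 - 1 = ψ.1 := by omega
          rw [e1, show 2 * ψ.1 + 2 = (ψ.1 + 2) + ψ.1 by ring, pow_add]
          ring
    · push Not at hH
      obtain ⟨i0, hi0, hno⟩ := hH
      have := F_N6_prod (Icc 1 (ψ.1 + 2)) (fun i => 112 + if okH ψ σ k0 i then 1 else 0) 113 112
        (fun i _ => hone _) i0 hi0 (by simp [hno])
      rw [Nat.card_Icc] at this
      calc (∏ i ∈ Icc 1 (ψ.1 + 2), (112 + if okH ψ σ k0 i then 1 else 0)) *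
            (∏ i ∈ Icc 1 (ψ.1 + 1), (112 + if okD ψ σ k0 i then 1 else 0))
          ≤ (112 * 113 ^ (ψ.1 + 2 + 1 - 1 - 1)) * 113 ^ (ψ.1 + 1) := Nat.mul_le_mul this (hB k0)
        _ = 112 * 113 ^ (2 * ψ.1 + 2) := by
          have e1 : ψ.1 + 2 + 1 - 1 - 1 = ψ.1 + 1 := by omega
          rw [e1, show 2 * ψ.1 + 2 = (ψ.1 + 1) + (ψ.1 + 1) by ring, pow_add]
          ring
  have hall : ∀ k ∈ Icc 1 (K - 1),
      ((∏ i ∈ Icc 1 (ψ.1 + 2), (112 + if okH ψ σ k i then 1 else 0)) ^ r *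
        (∏ i ∈ Icc 1 (ψ.1 + 1), (112 + if okD ψ σ k i then 1 else 0)) ^ r) ≤
      113 ^ (r * (2 * ψ.1 + 3)) := by
    intro k _
    calc ((∏ i ∈ Icc 1 (ψ.1 + 2), (112 + if okH ψ σ k i then 1 else 0)) ^ r *
        (∏ i ∈ Icc 1 (ψ.1 + 1), (112 + if okD ψ σ k i then 1 else 0)) ^ r)
        ≤ (113 ^ (ψ.1 + 2)) ^ r * (113 ^ (ψ.1 + 1)) ^ r :=
          Nat.mul_le_mul (Nat.pow_le_pow_left (hA k) r) (Nat.pow_le_pow_left (hB k) r)
      _ = 113 ^ (r * (2 * ψ.1 + 3)) := by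
          rw [← pow_mul, ← pow_mul, ← pow_add]
          congr 1
          ring
  have hfin := F_N6_prod (Icc 1 (K - 1)) _ _ _ hall k0 hk0 hk0'
  refine hfin.trans (le_of_eq ?_)
  rw [Nat.card_Icc, ← pow_mul, mul_assoc, ← pow_add]
  congr 2
  obtain ⟨m, hm⟩ : ∃ m, K - 1 = m + 1 := ⟨K - 2, by rw [mem_Icc] at hk0; omega⟩
  have e1 : K - 1 + 1 - 1 - 1 = m := by omega
  have e2 : (2 * (ψ.1 + 2) - 1) * (K - 1) - 1 = (2 * ψ.1 + 2) + (2 * ψ.1 + 3) * m := by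
    rw [hm, show 2 * (ψ.1 + 2) - 1 = 2 * ψ.1 + 3 by omega]
    have : (2 * ψ.1 + 3) * (m + 1) = (2 * ψ.1 + 2) + (2 * ψ.1 + 3) * m + 1 := by ring
    omega
  rw [e1, e2]
  ring

end Inst

end Pool.Agent.TRI
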