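import Pool.Agent.TRI.F_N1
import Pool.Agent.TRI.F_N4
import Pool.Agent.TRI.F_N5
import Pool.Agent.TRI.F_N6

/-!
Area F, part 1 (F_N7): the partition function `Y` counts satisfying assignments (up to a small error).
-/

namespace Pool.Agent.TRI

open Finset

namespace Inst

theorem F_N7_sum_wgt (S : Finset (ℕ × ℕ)) :
    ∑ σ ∈ S.pi (fun _ => range 4), ∏ P ∈ S, wgt (Skel.ext σ P) = 16 ^ S.card := by
  have h1 : ∑ c ∈ range 4, wgt c = 16 := by decide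
  rw [← prod_const, ← h1, prod_sum]
  refine sum_congr rfl fun p _ => ?_
  rw [← prod_attach]
  refine prod_congr rfl fun P _ => ?_
  unfold Skel.ext
  rw [dif_pos P.2]

open Classical in
theorem F_N7_Y (ψ : Cnf) (K r : ℕ) (hr : 1 ≤ r) :
    Y (ψ.1 + 2) K r (fw ψ (ψ.1 + 2) r) =
      ∑ σ ∈ ((Icc 1 K) ×ˢ (Icc 1 (ψ.1 + 2))).pi (fun _ => range 4),
        (∏ P ∈ (Icc 1 K) ×ˢ (Icc 1 (ψ.1 + 2)), wgt (Skel.ext σ P)) *
          ∏ k ∈ Icc 1 (K - 1),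
            ((∏ i ∈ Icc 1 (ψ.1 + 2), (112 + if okH ψ (Skel.ext σ) k i then 1 else 0)) ^ r *
              (∏ i ∈ Icc 1 (ψ.1 + 1), (112 + if okD ψ (Skel.ext σ) k i then 1 else 0)) ^ r) := by
  unfold Y
  refine sum_congr rfl fun σ _ => ?_
  congr 1
  refine prod_congr rfl fun k _ => ?_
  exact arcs_prod ψ r hr k (Skel.ext σ)

open Classical in
theorem F_N7_split (ψ : Cnf) (K r : ℕ) (hr : 1 ≤ r) :
    ∃ E : ℕ, Y (ψ.1 + 2) K r (fw ψ (ψ.1 + 2) r) =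
      (∑ σ ∈ ((Icc 1 K) ×ˢ (Icc 1 (ψ.1 + 2))).pi (fun _ => range 4),
        (if Good ψ K (Skel.ext σ) then
          ∏ P ∈ (Icc 1 K) ×ˢ (Icc 1 (ψ.1 + 2)), wgt (Skel.ext σ P) else 0)) *
          113 ^ (r * ((2 * (ψ.1 + 2) - 1) * (K - 1))) + E ∧
      E ≤ 16 ^ ((ψ.1 + 2) * K) * (112 ^ r * 113 ^ (r * ((2 * (ψ.1 + 2) - 1) * (K - 1) - 1))) := by
  refine ⟨∑ σ ∈ ((Icc 1 K) ×ˢ (Icc 1 (ψ.1 + 2))).pi (fun _ => range 4),
    (if Good ψ K (Skel.ext σ) then 0 else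
      (∏ P ∈ (Icc 1 K) ×ˢ (Icc 1 (ψ.1 + 2)), wgt (Skel.ext σ P)) *
          ∏ k ∈ Icc 1 (K - 1),
            ((∏ i ∈ Icc 1 (ψ.1 + 2), (112 + if okH ψ (Skel.ext σ) k i then 1 else 0)) ^ r *
              (∏ i ∈ Icc 1 (ψ.1 + 1), (112 + if okD ψ (Skel.ext σ) k i then 1 else 0)) ^ r)),
    ?_, ?_⟩
  · rw [F_N7_Y ψ K r hr, sum_mul, ← sum_add_distrib]
    refine sum_congr rfl fun σ _ => ?_
    by_cases h : Good ψ K (Skel.ext σ)
    · rw [if_pos h, if_pos h, links_good ψ K r _ h, add_zero]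
    · rw [if_neg h, if_neg h, zero_mul, zero_add]
  · have h1 := F_N7_sum_wgt ((Icc 1 K) ×ˢ (Icc 1 (ψ.1 + 2)))
    have h2 : ((Icc 1 K) ×ˢ (Icc 1 (ψ.1 + 2))).card = (ψ.1 + 2) * K := by
      rw [card_product, Nat.card_Icc, Nat.card_Icc, Nat.add_sub_cancel, Nat.add_sub_cancel,
        Nat.mul_comm]
    rw [h2] at h1
    rw [← h1, sum_mul]
    refine sum_le_sum fun σ _ => ?_
    by_cases h : Good ψ K (Skel.ext σ)
    · rw [if_pos h]
      exact Nat.zero_le _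
    · rw [if_neg h]
      exact Nat.mul_le_mul_left _ (links_bad ψ K r _ h)

/-- [F N7] assembly.
Proof. `arcs_prod` for every `k`; split the sum over `σ` into good and other states; `good_sum`,
`links_good`, `links_bad`, the sum of all weights is `16 ^ (N K)` (`Finset.prod_sum`), `err_le`. -/
theorem Y_bounds (φ ψ : Cnf) (hn : ψ.1 = φ.1) (hm : ψ.2.length ≤ φ.2.length) :
    mainW φ.1 φ.2.length * sharpSat ψ ≤
        Y (pN φ.1) (pK φ.1 φ.2.length) (pr φ.1 φ.2.length)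
          (fw ψ (pN φ.1) (pr φ.1 φ.2.length)) ∧
      2 ^ (φ.1 + 3) * (Y (pN φ.1) (pK φ.1 φ.2.length) (pr φ.1 φ.2.length)
          (fw ψ (pN φ.1) (pr φ.1 φ.2.length)) - mainW φ.1 φ.2.length * sharpSat ψ) ≤
        mainW φ.1 φ.2.length := by
  rw [← hn]
  generalize φ.2.length = m at hm
  have hr : 1 ≤ pr ψ.1 m := by
    unfold pr pN pK
    have : 0 < 400 * (ψ.1 + 2) * (2 * (m + ψ.1 + 1)) := by positivity
    omega
  obtain ⟨E, hE, hE2⟩ := F_N7_split ψ (pK ψ.1 m) (pr ψ.1 m) hr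
  rw [good_sum ψ m hm] at hE
  have h3 : Y (pN ψ.1) (pK ψ.1 m) (pr ψ.1 m) (fw ψ (pN ψ.1) (pr ψ.1 m)) =
      mainW ψ.1 m * sharpSat ψ + E := by
    unfold pN
    rw [hE]
    unfold mainW pN
    ring
  have h4 := err_le ψ.1 m
  rw [h3]
  refine ⟨Nat.le_add_right _ _, ?_⟩
  rw [Nat.add_sub_cancel_left]
  exact (Nat.mul_le_mul_left _ hE2).trans h4

end Inst

end Pool.Agent.TRI
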