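import Pool.Agent.TRI.F_Defs

/-!
Area F, part 1, definitions: the partition function `Y` counts satisfying assignments (up to a small error).
-/

namespace Pool.Agent.TRI

open Finset

namespace Inst

/-- value of the end in the stack `k` of the `H`-link in the row `i` -/
def hL (ψ : Cnf) (k i c : ℕ) : Bool := if 2 ≤ i ∧ i ≤ ψ.1 + 1 then xb k c else true

/-- value of the left end (stack `k`, row `i`) of the `D`-link -/
def dL (ψ : Cnf) (k i c : ℕ) : Bool :=
  if i = ψ.1 + 1 ∧ ¬ (ψ.1 + 1 ≤ k ∧ k - (ψ.1 + 1) < ψ.2.length) then true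
  else if i = 1 then false
  else outb ψ k i c

/-- value of the right end (row `i`) of the `D`-link -/
def dR (ψ : Cnf) (i c : ℕ) : Bool := if i ≤ ψ.1 + 1 then sb c else true

/-- the `H`-link between `(k, i)` and `(k + 1, i)` is satisfied -/
def okH (ψ : Cnf) (σ : ℕ × ℕ → ℕ) (k i : ℕ) : Prop :=
  hL ψ k i (σ (k, i)) = hL ψ (k + 1) i (σ (k + 1, i))

/-- the `D`-link between `(k, i)` and `(k + 1, i + 1)` is satisfied -/
def okD (ψ : Cnf) (σ : ℕ × ℕ → ℕ) (k i : ℕ) : Prop :=
  dL ψ k i (σ (k, i)) = dR ψ (i + 1) (σ (k + 1, i + 1))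

/-- all links between the stacks `1, ..., K` are satisfied -/
def Good (ψ : Cnf) (K : ℕ) (σ : ℕ × ℕ → ℕ) : Prop :=
  ∀ k ∈ Icc 1 (K - 1), (∀ i ∈ Icc 1 (ψ.1 + 2), okH ψ σ k i) ∧ ∀ i ∈ Icc 1 (ψ.1 + 1), okD ψ σ k i

/-! ### Coding of the states by two bits -/

/-- the state of a node of the stack `k` with the bits `x` and `s` -/
def code (k : ℕ) (x s : Bool) : ℕ :=
  if s then (if x ^^ decide (k % 2 = 1) then 2 else 3)
  else if x ^^ decide (k % 2 = 1) then 1 else 0

/-- the bit `s` of the node `(k + 1, i)` of a good state, in terms of the values `a` of the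
variables and the bits `b` of the first stack -/
def sst (ψ : Cnf) (a b : ℕ → Bool) : ℕ → ℕ → Bool
  | 0, i => b i
  | k + 1, i => if i ≤ 2 then false
      else sst ψ a b k (i - 1) || (decide (i - 1 ≤ k + 1) && match ψ.2[(k + 1) - (i - 1)]? with
        | none => false
        | some cl => litIn cl (i - 3) (a (i - 3)))

end Inst

end Pool.Agent.TRI
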