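import Pool.Agent.TRI.G_Conv

/-!
Area F, part 3 (F_T): the number of triangulations from the oracle `trOracle`, bit by bit.
-/

namespace Pool.Agent.TRI

open Pool.Agent.LibComplexity Function Bin

theorem bv_testBits (n B : ℕ) (h : n < 2 ^ B) :
    bv ((List.range B).map fun i => n.testBit i) = n := by
  apply Nat.eq_of_testBit_eq
  intro i
  rw [testBit_bv]
  by_cases hi : i < B
  · rw [List.getD_eq_getElem?_getD, List.getElem?_map, List.getElem?_range hi]
    rfl
  · rw [List.getD_eq_default _ _ (by simpa using hi)]
    exact (Nat.testBit_eq_false_of_lt (h.trans_le (Nat.pow_le_pow_right (by norm_num)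
      (by omega)))).symm

theorem card_ptSet (l : List (Coord × Coord)) : (ptSet l).card ≤ l.length := by
  classical
  unfold ptSet
  refine (List.toFinset_card_le _).trans ?_
  rw [List.length_map]

theorem tr_lt (l : List (Coord × Coord)) : tr (ptSet l) < 2 ^ (l.length * l.length + l.length + 1) := by
  classical
  have h1 : tr (ptSet l) ≤ 2 ^ (ptSet l).sym2.card := by
    unfold tr tris
    refine (Finset.card_filter_le _ _).trans ?_
    rw [Finset.card_powerset]
  have h2 : (ptSet l).sym2.card ≤ l.length * l.length + l.length := by
    rw [Finset.card_sym2]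
    have h3 := card_ptSet l
    refine (Nat.choose_le_choose 2 (Nat.add_le_add_right h3 1)).trans ?_
    rw [Nat.choose_two_right]
    refine (Nat.div_le_self _ _).trans ?_
    simp only [Nat.add_sub_cancel]
    ring_nf
    omega
  calc tr (ptSet l) ≤ 2 ^ (ptSet l).sym2.card := h1
    _ ≤ 2 ^ (l.length * l.length + l.length) := Nat.pow_le_pow_right (by norm_num) h2
    _ < 2 ^ (l.length * l.length + l.length + 1) := Nat.pow_lt_pow_right (by norm_num) (by omega)

theorem mem_trOracle (l : List (Coord × Coord)) (i : ℕ) :
    word (l, i) ∈ trOracle ↔ (tr (ptSet l)).testBit i = true := by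
  unfold trOracle
  constructor
  · rintro ⟨l', i', h, h'⟩
    obtain ⟨rfl, rfl⟩ := Prod.mk.inj (word_injective h)
    exact h'
  · intro h
    exact ⟨l, i, rfl, h⟩

/-- the bits of `tr` from the oracle -/
theorem ptf_trBits {α : Type} [Enc α] {l : Orc → α → List (Coord × Coord)}
    (hl : PTf {trOracle} l) : PTf {trOracle} (fun A x => Nat.bits (tr (ptSet (l A x)))) := by
  classical
  have hl' : PTf {trOracle} (fun A (p : α × ℕ) => l A p.1) := hl.comp PTf.id.fst
  have h1 : PTf {trOracle} (fun A x =>
      (List.range ((l A x).length * (l A x).length + (l A x).length + 1)).map fun i =>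
        decide (word (l A x, i) ∈ A)) := by
    apply PTf.map (g := fun A x i => decide (word (l A x, i) ∈ A))
    · exact (((hl.length.mul hl.length).add hl.length).succ).range
    · exact PTf.ask (PTf.word (hl'.pair PTf.id.snd))
  refine (ptf_nrm h1).congr fun A hA x => ?_
  rw [Set.mem_singleton_iff] at hA
  subst hA
  congr 1
  have h2 : (fun i => decide (word (l trOracle x, i) ∈ trOracle)) =
      fun i => (tr (ptSet (l trOracle x))).testBit i := by
    funext i
    rw [Bool.eq_iff_iff, decide_eq_true_eq, mem_trOracle]
  rw [h2]
  exact bv_testBits _ _ (tr_lt _)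

theorem trInFP_trOracle : Conv.TrInFP trOracle := by
  refine ⟨fun w => word (Nat.bits (tr (ptSet (read (List (Coord × Coord)) w)))), ?_, fun l => ?_⟩
  · rw [inFP_iff]
    exact PTf.word (ptf_trBits (l := fun _ w => read (List (Coord × Coord)) w) (PTf.read PTf.id))
  · have h1 : read (List (Coord × Coord)) (word l) = l := by
      have := read_word (α := List (Coord × Coord)) l []
      rwa [List.append_nil] at this
    simp only
    rw [h1]

end Pool.Agent.TRI
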