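import Pool.Agent.TRI.Basic
import Pool.Agent.TRI.F_Defs

/-!
The converse reduction: the number of triangulations of a point set is the number of satisfying
assignments of a CNF formula that is computable in polynomial time.
-/

namespace Pool.Agent.TRI

namespace Conv

open Pool.Agent.LibComplexity

/-- a pair of coordinates -/
abbrev CP := Coord × Coord

/-- the point -/
noncomputable def cpt (p : CP) : Pt := (coordVal p.1, coordVal p.2)

open Classical in
/-- removing repetitions (keeping the last occurrence of each point) -/
noncomputable def dedup (l : List CP) : List CP :=
  l.foldr (fun p s => if s.any (fun q => decide (cpt p = cpt q)) = true then s else p :: s) []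

/-- `x` is in the relative interior of the segment `p q` (for `p ≠ q`) -/
def Btw (p q x : Pt) : Prop :=
  det p q x = 0 ∧ 0 < (x.1 - p.1) * (q.1 - x.1) + (x.2 - p.2) * (q.2 - x.2)

/-- the segments `p q` and `r s` cross -/
def Crs (p q r s : Pt) : Prop :=
  det p q r * det p q s < 0 ∧ det r s p * det r s q < 0

/-- the `i`-th point of a list -/
noncomputable def pnt (L : List CP) (i : ℕ) : Pt :=
  cpt (L.getD i ((false, [], []), (false, [], [])))

open Classical in
/-- admissible segments of a list of points without repetitions, as pairs of indices -/
noncomputable def adm (L : List CP) : List (ℕ × ℕ) :=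
  (List.range L.length).flatMap fun i => (List.range i).flatMap fun j =>
    if L.all (fun x => decide (¬ Btw (pnt L i) (pnt L j) (cpt x))) = true then [(i, j)] else []

open Classical in
/-- do the segments number `v` and `w` cross? -/
noncomputable def crsB (L : List CP) (E : List (ℕ × ℕ)) (v w : ℕ) : Bool :=
  decide (Crs (pnt L (E.getD v (0, 0)).1) (pnt L (E.getD v (0, 0)).2)
    (pnt L (E.getD w (0, 0)).1) (pnt L (E.getD w (0, 0)).2))

/-- clauses: crossing segments are not both present; every segment is present or crossed -/
noncomputable def clauses (L : List CP) (E : List (ℕ × ℕ)) : List (List (Bool × ℕ)) :=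
  ((List.range E.length).flatMap fun v => (List.range v).flatMap fun w =>
    if crsB L E v w = true then [[(false, v), (false, w)]] else []) ++
  (List.range E.length).map fun v => (true, v) ::
    ((List.range E.length).filter fun w => crsB L E v w).map fun w => (true, w)

/-- the formula of a list of points -/
noncomputable def psi (l : List CP) : Cnf :=
  ((adm (dedup l)).length, clauses (dedup l) (adm (dedup l)))

end Conv

end Pool.Agent.TRI
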