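import Pool.Agent.TRI.G_Rpt

/-!
The formula `psi l` is computable in polynomial time.
-/

namespace Pool.Agent.TRI

namespace Conv

open Pool.Agent.LibComplexity Function Bin

variable {𝒜 : Set Orc} {α β γ τ : Type} [Enc α] [Enc β] [Enc γ] [Enc τ]

/-- points with coordinates computable in polynomial time -/
def PP (𝒜 : Set Orc) (p : Orc → α → Pt) : Prop :=
  RPT 𝒜 (fun A x => (p A x).1) ∧ RPT 𝒜 (fun A x => (p A x).2)

theorem PP.comp {p : Orc → β → Pt} {f : Orc → α → β} (hp : PP 𝒜 p) (hf : PTf 𝒜 f) :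
    PP 𝒜 (fun A x => p A (f A x)) :=
  ⟨hp.1.comp hf, hp.2.comp hf⟩

theorem pp_cpt {c : Orc → α → CP} (hc : PTf 𝒜 c) : PP 𝒜 (fun A x => cpt (c A x)) :=
  ⟨RPT.coord hc.fst, RPT.coord hc.snd⟩

theorem pp_pnt {L : Orc → α → List CP} {i : Orc → α → ℕ} (hL : PTf 𝒜 L) (hi : PTf 𝒜 i) :
    PP 𝒜 (fun A x => pnt (L A x) (i A x)) :=
  pp_cpt (hL.listGetD hi (PTf.const _))

theorem rpt_det {p q r : Orc → α → Pt} (hp : PP 𝒜 p) (hq : PP 𝒜 q) (hr : PP 𝒜 r) :
    RPT 𝒜 (fun A x => det (p A x) (q A x) (r A x)) :=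
  ((hq.1.sub hp.1).mul (hr.2.sub hp.2)).sub ((hq.2.sub hp.2).mul (hr.1.sub hp.1))

open Classical in
theorem ptf_btw {p q r : Orc → α → Pt} (hp : PP 𝒜 p) (hq : PP 𝒜 q) (hr : PP 𝒜 r) :
    PTf 𝒜 (fun A x => decide (Btw (p A x) (q A x) (r A x))) := by
  have h1 := RPT.eq (rpt_det hp hq hr) RPT.const0
  have h2 := RPT.lt RPT.const0 (((hr.1.sub hp.1).mul (hq.1.sub hr.1)).add
    ((hr.2.sub hp.2).mul (hq.2.sub hr.2)))
  refine (h1.band h2).congr fun A _ x => ?_
  unfold Btw
  rw [Bool.decide_and]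

open Classical in
theorem ptf_crs {p q r s : Orc → α → Pt} (hp : PP 𝒜 p) (hq : PP 𝒜 q) (hr : PP 𝒜 r)
    (hs : PP 𝒜 s) : PTf 𝒜 (fun A x => decide (Crs (p A x) (q A x) (r A x) (s A x))) := by
  have h1 := RPT.lt ((rpt_det hp hq hr).mul (rpt_det hp hq hs)) RPT.const0
  have h2 := RPT.lt ((rpt_det hr hs hp).mul (rpt_det hr hs hq)) RPT.const0
  refine (h1.band h2).congr fun A _ x => ?_
  unfold Crs
  rw [Bool.decide_and]

open Classical in
theorem ptf_pteq {p q : Orc → α → Pt} (hp : PP 𝒜 p) (hq : PP 𝒜 q) :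
    PTf 𝒜 (fun A x => decide (p A x = q A x)) := by
  have h1 := RPT.eq hp.1 hq.1
  have h2 := RPT.eq hp.2 hq.2
  refine (h1.band h2).congr fun A _ x => ?_
  rw [← Bool.decide_and]
  apply decide_eq_decide.2
  exact Prod.ext_iff.symm

theorem ptf_dedup {l : Orc → α → List CP} (hl : PTf 𝒜 l) :
    PTf 𝒜 (fun A x => dedup (l A x)) := by
  classical
  have h := PTf.foldl_grow (l := fun A x => (l A x).reverse)
    (h := fun _ (_ : α) => ([] : List CP))
    (g := fun _ _ (s : List CP) (p : CP) =>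
      if s.any (fun q => decide (cpt p = cpt q)) = true then s else p :: s)
    hl.reverse (PTf.const [])
    (PTf.ite (p := fun _ (t : α × List CP × CP) =>
        t.2.1.any (fun q => decide (cpt t.2.2 = cpt q)))
      (PTf.any (l := fun _ (t : α × List CP × CP) => t.2.1)
        (p := fun _ (t : α × List CP × CP) q => decide (cpt t.2.2 = cpt q)) PTf.id.snd.fst
        (ptf_pteq (pp_cpt PTf.id.fst.snd.snd) (pp_cpt PTf.id.snd)))
      PTf.id.snd.fst (PTf.id.snd.snd.cons PTf.id.snd.fst))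
    (d := fun A x => sz (l A x) + 1) ((PB.sz hl).add (PB.const 1)) (by
      intro A _ x s y hy
      have h1 := sz_mem (List.mem_reverse.1 hy)
      split_ifs
      · omega
      · rw [sz_cons]; omega)
  refine h.congr fun A _ x => ?_
  unfold dedup
  rw [List.foldl_reverse]

theorem ptf_adm {L : Orc → α → List CP} (hL : PTf 𝒜 L) : PTf 𝒜 (fun A x => adm (L A x)) := by
  classical
  have hin : PTf 𝒜 (fun A (p : (α × ℕ) × ℕ) =>
      if (L A p.1.1).all (fun y => decide (¬ Btw (pnt (L A p.1.1) p.1.2) (pnt (L A p.1.1) p.2)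
        (cpt y))) = true then [(p.1.2, p.2)] else []) := by
    refine PTf.ite (p := fun A (p : (α × ℕ) × ℕ) => (L A p.1.1).all
      (fun y => decide (¬ Btw (pnt (L A p.1.1) p.1.2) (pnt (L A p.1.1) p.2) (cpt y)))) ?_
      ((PTf.id.fst.snd.pair PTf.id.snd).cons (PTf.const [])) (PTf.const [])
    refine PTf.all (l := fun A (p : (α × ℕ) × ℕ) => L A p.1.1)
      (p := fun A (p : (α × ℕ) × ℕ) y =>
        decide (¬ Btw (pnt (L A p.1.1) p.1.2) (pnt (L A p.1.1) p.2) (cpt y)))
      (hL.comp PTf.id.fst.fst) ?_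
    have h := ptf_btw (𝒜 := 𝒜)
      (p := fun A (t : ((α × ℕ) × ℕ) × CP) => pnt (L A t.1.1.1) t.1.1.2)
      (q := fun A (t : ((α × ℕ) × ℕ) × CP) => pnt (L A t.1.1.1) t.1.2)
      (r := fun A (t : ((α × ℕ) × ℕ) × CP) => cpt t.2)
      (pp_pnt (hL.comp PTf.id.fst.fst.fst) PTf.id.fst.fst.snd)
      (pp_pnt (hL.comp PTf.id.fst.fst.fst) PTf.id.fst.snd) (pp_cpt PTf.id.snd)
    refine h.bnot.congr fun A _ x => ?_
    simp only [decide_not]
  have h := PTf.flatMap (l := fun A x => List.range (L A x).length)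
    (g := fun A x i => (List.range i).flatMap fun j =>
      if (L A x).all (fun y => decide (¬ Btw (pnt (L A x) i) (pnt (L A x) j) (cpt y))) = true
        then [(i, j)] else []) hL.length.range
    (PTf.flatMap (l := fun A (p : α × ℕ) => List.range p.2)
      (g := fun A (p : α × ℕ) j =>
        if (L A p.1).all (fun y => decide (¬ Btw (pnt (L A p.1) p.2) (pnt (L A p.1) j) (cpt y))) =
          true then [(p.2, j)] else []) PTf.id.snd.range hin)
  refine h.congr fun A _ x => ?_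
  unfold adm
  congr

theorem ptf_crsB {L : Orc → α → List CP} {E : Orc → α → List (ℕ × ℕ)} {v w : Orc → α → ℕ}
    (hL : PTf 𝒜 L) (hE : PTf 𝒜 E) (hv : PTf 𝒜 v) (hw : PTf 𝒜 w) :
    PTf 𝒜 (fun A x => crsB (L A x) (E A x) (v A x) (w A x)) := by
  have h1 : PTf 𝒜 (fun A x => (E A x).getD (v A x) (0, 0)) := hE.listGetD hv (PTf.const (0, 0))
  have h2 : PTf 𝒜 (fun A x => (E A x).getD (w A x) (0, 0)) := hE.listGetD hw (PTf.const (0, 0))
  exact ptf_crs (pp_pnt hL h1.fst) (pp_pnt hL h1.snd) (pp_pnt hL h2.fst) (pp_pnt hL h2.snd)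

theorem ptf_clauses {L : Orc → α → List CP} {E : Orc → α → List (ℕ × ℕ)}
    (hL : PTf 𝒜 L) (hE : PTf 𝒜 E) : PTf 𝒜 (fun A x => clauses (L A x) (E A x)) := by
  unfold clauses
  refine PTf.append ?_ ?_
  · refine PTf.flatMap (l := fun A x => List.range (E A x).length)
      (g := fun A x v => (List.range v).flatMap fun w =>
        if crsB (L A x) (E A x) v w = true then [[(false, v), (false, w)]] else [])
      hE.length.range ?_
    refine PTf.flatMap (l := fun A (p : α × ℕ) => List.range p.2)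
      (g := fun A (p : α × ℕ) w =>
        if crsB (L A p.1) (E A p.1) p.2 w = true then [[(false, p.2), (false, w)]] else [])
      PTf.id.snd.range ?_
    refine PTf.ite (p := fun A (t : (α × ℕ) × ℕ) => crsB (L A t.1.1) (E A t.1.1) t.1.2 t.2)
      (ptf_crsB (hL.comp PTf.id.fst.fst) (hE.comp PTf.id.fst.fst) PTf.id.fst.snd PTf.id.snd) ?_
      (PTf.const [])
    exact (((PTf.const false).pair PTf.id.fst.snd).cons
      (((PTf.const false).pair PTf.id.snd).cons (PTf.const []))).cons (PTf.const [])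
  · refine PTf.map (l := fun A x => List.range (E A x).length)
      (g := fun A x v => (true, v) ::
        ((List.range (E A x).length).filter fun w => crsB (L A x) (E A x) v w).map
          fun w => (true, w)) hE.length.range ?_
    refine PTf.cons ((PTf.const true).pair PTf.id.snd) ?_
    refine PTf.map (l := fun A (p : α × ℕ) => (List.range (E A p.1).length).filter
        fun w => crsB (L A p.1) (E A p.1) p.2 w) (g := fun _ (_ : α × ℕ) w => (true, w)) ?_
      ((PTf.const true).pair PTf.id.snd)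
    refine PTf.filter (l := fun A (p : α × ℕ) => List.range (E A p.1).length)
      (p := fun A (p : α × ℕ) w => crsB (L A p.1) (E A p.1) p.2 w)
      (hE.comp PTf.id.fst).length.range ?_
    exact ptf_crsB (hL.comp PTf.id.fst.fst) (hE.comp PTf.id.fst.fst) PTf.id.fst.snd PTf.id.snd

/-- G2: the formula is computable in polynomial time -/
theorem ptf_psi {f : Orc → α → List CP} (hf : PTf 𝒜 f) : PTf 𝒜 (fun A x => psi (f A x)) :=
  (ptf_adm (ptf_dedup hf)).length.pair (ptf_clauses (ptf_dedup hf) (ptf_adm (ptf_dedup hf)))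

end Conv

end Pool.Agent.TRI
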