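import Pool.Agent.TRI.Bin3
import Pool.Agent.TRI.G_Defs

namespace Pool.Agent.TRI

namespace Conv

open Pool.Agent.LibComplexity Function Bin

variable {𝒜 : Set Orc} {α β γ τ : Type} [Enc α] [Enc β] [Enc γ] [Enc τ]

def RPT (𝒜 : Set Orc) (h : Orc → α → ℝ) : Prop :=
  ∃ (z : Orc → α → ℤ) (d : Orc → α → ℕ), ZTf 𝒜 z ∧ BTf 𝒜 d ∧
    ∀ A ∈ 𝒜, ∀ x, 0 < d A x ∧ h A x = (z A x : ℝ) / (d A x : ℝ)

theorem RPT.congr {f g : Orc → α → ℝ} (hf : RPT 𝒜 f) (h : ∀ A ∈ 𝒜, ∀ x, f A x = g A x) :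
    RPT 𝒜 g := by
  obtain ⟨z, d, hz, hd, h0⟩ := hf
  exact ⟨z, d, hz, hd, fun A hA x => ⟨(h0 A hA x).1, by rw [← h A hA x]; exact (h0 A hA x).2⟩⟩

theorem RPT.comp {g : Orc → β → ℝ} {f : Orc → α → β} (hg : RPT 𝒜 g) (hf : PTf 𝒜 f) :
    RPT 𝒜 (fun A x => g A (f A x)) := by
  obtain ⟨z, d, hz, hd, h0⟩ := hg
  exact ⟨fun A x => z A (f A x), fun A x => d A (f A x), hz.comp hf, hd.comp hf,
    fun A hA x => h0 A hA _⟩

theorem RPT.const0 : RPT 𝒜 (fun _ (_ : α) => (0 : ℝ)) :=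
  ⟨fun _ _ => 0, fun _ _ => 1, ZTf.const 0, BTf.const 1, fun A hA x => by simp⟩

theorem RPT.add {f g : Orc → α → ℝ} (hf : RPT 𝒜 f) (hg : RPT 𝒜 g) :
    RPT 𝒜 (fun A x => f A x + g A x) := by
  obtain ⟨z, d, hz, hd, h0⟩ := hf
  obtain ⟨z', d', hz', hd', h0'⟩ := hg
  refine ⟨_, _, (hz.mul (ZTf.ofNat hd')).add (hz'.mul (ZTf.ofNat hd)), BTf.mul hd hd',
    fun A hA x => ?_⟩
  obtain ⟨h1, h2⟩ := h0 A hA x
  obtain ⟨h3, h4⟩ := h0' A hA x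
  refine ⟨Nat.mul_pos h1 h3, ?_⟩
  beta_reduce
  have e1 : (d A x : ℝ) ≠ 0 := by positivity
  have e2 : (d' A x : ℝ) ≠ 0 := by positivity
  rw [h2, h4]
  push_cast
  field_simp

theorem RPT.neg {f : Orc → α → ℝ} (hf : RPT 𝒜 f) : RPT 𝒜 (fun A x => -f A x) := by
  obtain ⟨z, d, hz, hd, h0⟩ := hf
  refine ⟨_, _, hz.neg, hd, fun A hA x => ⟨(h0 A hA x).1, ?_⟩⟩
  beta_reduce
  rw [(h0 A hA x).2]
  push_cast
  ring

theorem RPT.sub {f g : Orc → α → ℝ} (hf : RPT 𝒜 f) (hg : RPT 𝒜 g) :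
    RPT 𝒜 (fun A x => f A x - g A x) :=
  (hf.add hg.neg).congr fun A _ x => by ring

theorem RPT.mul {f g : Orc → α → ℝ} (hf : RPT 𝒜 f) (hg : RPT 𝒜 g) :
    RPT 𝒜 (fun A x => f A x * g A x) := by
  obtain ⟨z, d, hz, hd, h0⟩ := hf
  obtain ⟨z', d', hz', hd', h0'⟩ := hg
  refine ⟨_, _, hz.mul hz', BTf.mul hd hd', fun A hA x => ?_⟩
  obtain ⟨h1, h2⟩ := h0 A hA x
  obtain ⟨h3, h4⟩ := h0' A hA x
  refine ⟨Nat.mul_pos h1 h3, ?_⟩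
  beta_reduce
  rw [h2, h4]
  push_cast
  rw [div_mul_div_comm]

open Classical in
theorem RPT.lt {f g : Orc → α → ℝ} (hf : RPT 𝒜 f) (hg : RPT 𝒜 g) :
    PTf 𝒜 (fun A x => decide (f A x < g A x)) := by
  obtain ⟨z, d, hz, hd, h0⟩ := hf
  obtain ⟨z', d', hz', hd', h0'⟩ := hg
  refine (ZTf.lt (hz.mul (ZTf.ofNat hd')) (hz'.mul (ZTf.ofNat hd))).congr fun A hA x => ?_
  obtain ⟨h1, h2⟩ := h0 A hA x
  obtain ⟨h3, h4⟩ := h0' A hA x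
  apply decide_eq_decide.2
  rw [h2, h4, div_lt_div_iff₀ (by exact_mod_cast h1) (by exact_mod_cast h3)]
  exact_mod_cast Iff.rfl

open Classical in
theorem RPT.eq {f g : Orc → α → ℝ} (hf : RPT 𝒜 f) (hg : RPT 𝒜 g) :
    PTf 𝒜 (fun A x => decide (f A x = g A x)) := by
  refine (((RPT.lt hf hg).bor (RPT.lt hg hf)).bnot).congr fun A _ x => ?_
  by_cases h : f A x = g A x
  · simp [h]
  · rcases lt_or_gt_of_ne h with h1 | h1
    · simp [h, h1]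
    · simp [h, h1]

theorem binVal_eq (w : List Bool) : binVal w = bv w := by
  induction w with
  | nil => rfl
  | cons b w ih => rw [binVal, bv, ih]

theorem RPT.coord {c : Orc → α → Coord} (hc : PTf 𝒜 c) : RPT 𝒜 (fun A x => coordVal (c A x)) := by
  have hn : BTf 𝒜 (fun A x => bv (c A x).2.1) := BTf.ofBits hc.snd.fst
  have hd : BTf 𝒜 (fun A x => bv (c A x).2.2) := BTf.ofBits hc.snd.snd
  refine ⟨fun A x => if bv (c A x).2.2 = 0 then 0 else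
      (if (c A x).1 = true then -(bv (c A x).2.1 : ℤ) else bv (c A x).2.1),
    fun A x => if bv (c A x).2.2 = 0 then 1 else bv (c A x).2.2,
    ZTf.ifP (BTf.eq hd (BTf.const 0)) (ZTf.const 0) (ZTf.mk hc.fst hn),
    BTf.ifP (BTf.eq hd (BTf.const 0)) (BTf.const 1) hd, fun A _ x => ?_⟩
  unfold coordVal
  beta_reduce
  rw [binVal_eq, binVal_eq]
  by_cases h : bv (c A x).2.2 = 0
  · simp [h]
  · rw [if_neg h, if_neg h]
    refine ⟨Nat.pos_of_ne_zero h, ?_⟩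
    split_ifs <;> push_cast <;> ring

end Conv

end Pool.Agent.TRI
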