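import Pool.Agent.TRI.Skel

/-!
The concrete instance with parameters `N` (rows), `K` (stacks), `r` (parallel arcs).

Upper nodes: `some (k, i)`, `1 ≤ k ≤ K`, `1 ≤ i ≤ N` (arc `i` of the stack `k`), and the root `none`.
Lower nodes: `some (k, j)`, `0 ≤ k ≤ K`, `1 ≤ j ≤ R` (arc `j` of the rainbow `k`), and `none`.
The feet `1, ..., F - 1` are numbered from left to right: rainbow `k = 0, ..., K`; in a rainbow
first the left feet of the arcs `j = 1, ..., R` (four for each arc), then the right feet of the
arcs `j = R, ..., 1` (four for each arc).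
-/

namespace Pool.Agent.TRI

namespace Inst

open Finset

/-- arcs in a block -/
def Bk (r : ℕ) : ℕ := 2 * r + 2

/-- number of arcs of a rainbow -/
def R (N r : ℕ) : ℕ := N * Bk r

/-- last foot -/
def F (N K r : ℕ) : ℕ := 8 * R N r * (K + 1) + 1

/-- unit of the exponents -/
def W (K : ℕ) : ℕ := K + 12

/-- position of the arc `j ≥ 1` in its block, from `1` to `2 r + 2` -/
def rho (r j : ℕ) : ℕ := (j - 1) % Bk r + 1

/-- left index of the arc `j` -/
def iL (r j : ℕ) : ℕ := (j - 1) / Bk r + 1

/-- right index of the arc `j` -/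
def iR (r j : ℕ) : ℕ := if rho r j ≤ r + 1 then iL r j else iL r j + 1

/-- arcs of type `H` -/
def isH (r j : ℕ) : Bool := decide (rho r j ≤ r)

/-- arcs of type `Y` -/
def isY (r j : ℕ) : Bool := decide (rho r j = r + 1)

/-- arcs of type `D` -/
def isD (r j : ℕ) : Bool := decide (r + 2 ≤ rho r j ∧ rho r j ≤ 2 * r + 1)

/-- arcs of type `X` -/
def isX (r j : ℕ) : Bool := decide (rho r j = 2 * r + 2)

/-- rainbow of the foot `f` -/
def fk (N r f : ℕ) : ℕ := (f - 1) / (8 * R N r)

/-- number of the foot in its rainbow -/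
def fm (N r f : ℕ) : ℕ := (f - 1) % (8 * R N r)

/-- is `f` a left foot? -/
def isLeft (N r f : ℕ) : Bool := decide (fm N r f < 4 * R N r)

/-- arc of the foot -/
def fj (N r f : ℕ) : ℕ :=
  if fm N r f < 4 * R N r then fm N r f / 4 + 1 else R N r - (fm N r f - 4 * R N r) / 4

/-- number of the foot among the four feet of its side of the arc -/
def fq (N r f : ℕ) : ℕ :=
  if fm N r f < 4 * R N r then fm N r f % 4 else (fm N r f - 4 * R N r) % 4

/-- number of the left foot `q` of the arc `j` of the rainbow `k` -/
def ftL (N r k j q : ℕ) : ℕ := 1 + 8 * R N r * k + 4 * (j - 1) + q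

/-- number of the right foot `q` of the arc `j` of the rainbow `k` -/
def ftR (N r k j q : ℕ) : ℕ := 1 + 8 * R N r * k + 4 * R N r + 4 * (R N r - j) + q

/-- exponents of the feet -/
def ex (N K r f : ℕ) : ℕ :=
  if 1 ≤ f ∧ f < F N K r then
    if isLeft N r f then
      if (isH r (fj N r f) || isD r (fj N r f)) && fq N r f == 1 then 1
      else if isX r (fj N r f) && fq N r f == 2 then 2 else 0
    else
      if (isH r (fj N r f) || isD r (fj N r f)) && fq N r f == 2 then 1
      else if isY r (fj N r f) && fq N r f == 1 then 2 else 0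
  else 0

/-- spin arcs -/
def isSpin (N K r k j : ℕ) : Bool :=
  decide (1 ≤ k ∧ k + 1 ≤ K) && (isH r j || (isD r j && decide (iL r j < N)))

/-- windows -/
def win (N K r : ℕ) : Finset ℕ :=
  (Ico 1 (F N K r)).filter fun f => isSpin N K r (fk N r f) (fj N r f) = true ∧
    ((isLeft N r f = true ∧ fq N r f = 2) ∨ (isLeft N r f = false ∧ fq N r f = 0))

/-- the upper skeleton -/
def KU (N K r : ℕ) : Skel (Option (ℕ × ℕ)) where
  nodes := insert none (((Icc 1 K) ×ˢ (Icc 1 N)).image some)
  rt := none
  par
    | none => none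
    | some (k, i) => if i < N then some (k, i + 1) else none
  dep
    | none => 0
    | some (_, i) => N + 1 - i
  a
    | none => 0
    | some (k, i) => ftR N r (k - 1) ((i - 1) * Bk r + r + 1) 0
  b
    | none => F N K r
    | some (k, i) => ftL N r k (i * Bk r) 3
  s
    | none => 0
    | some _ => 3
  own g :=
    if g = 0 ∨ F N K r ≤ g + 1 then none
    else if isLeft N r g then
      (if fk N r g = 0 then none
        else if isX r (fj N r g) && fq N r g == 3 then
          (if iL r (fj N r g) < N then some (fk N r g, iL r (fj N r g) + 1) else none)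
        else some (fk N r g, iL r (fj N r g)))
    else
      (if fk N r g = K then none
        else if iR r (fj N r g) ≤ N then some (fk N r g + 1, iR r (fj N r g)) else none)
  hg
    | none => 0
    | some (k, _) => 8 * R N r * k

/-- the lower skeleton -/
def KL (N K r : ℕ) : Skel (Option (ℕ × ℕ)) where
  nodes := insert none (((range (K + 1)) ×ˢ (Icc 1 (R N r))).image some)
  rt := none
  par
    | none => none
    | some (k, j) => if 1 < j then some (k, j - 1) else none
  dep
    | none => 0
    | some (_, j) => j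
  a
    | none => 0
    | some (k, j) => ftL N r k j 0
  b
    | none => F N K r
    | some (k, j) => ftR N r k j 3
  s
    | none => 0
    | some (k, j) => if isSpin N K r k j then 1 else 0
  own g :=
    if g = 0 ∨ F N K r ≤ g + 1 then none
    else if isLeft N r g then some (fk N r g, fj N r g)
    else if fq N r g = 3 then
      (if 1 < fj N r g then some (fk N r g, fj N r g - 1) else none)
    else some (fk N r g, fj N r g)
  hg
    | none => 0
    | some (k, _) => 8 * R N r * k + 4 * R N r

/-- the scale -/
def G (N K r : ℕ) : ℕ := 8 * (W K * (N + R N r + 4))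

/-- the power `2 ^ (-e)` -/
noncomputable def pw (e : ℕ) : ℝ := (1 / 2) ^ e

/-- factors of the left feet -/
noncomputable def cL (q : ℕ) : ℝ := if q = 0 then 64 else if q = 1 then 8 else if q = 2 then 2 else 1 / 4

/-- factors of the right feet -/
noncomputable def cR (q : ℕ) : ℝ := if q = 0 then 1 / 4 else if q = 1 then 2 else if q = 2 then 8 else 64

/-- unperturbed positions of the feet -/
noncomputable def pos (N K r f : ℕ) : ℝ :=
  if f = 0 then 0
  else if F N K r ≤ f then 2 * K + 2
  else if isLeft N r f then
    2 * fk N r f + 1 - pw (W K * (iL r (fj N r f) + fj N r f)) * cL (fq N r f)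
  else
    2 * fk N r f + 1 + pw (W K * (iR r (fj N r f) + fj N r f)) * cR (fq N r f)

/-- positions of the feet -/
noncomputable def x (N K r f : ℕ) : ℝ :=
  if 1 ≤ f ∧ f < F N K r then pos N K r f + pw (22 * G N K r) else pos N K r f

/-- middle of a gap (unperturbed) -/
noncomputable def mid (N K r g : ℕ) : ℝ := (pos N K r g + pos N K r (g + 1)) / 2

/-- base points of the upper clusters -/
noncomputable def baseU (N K : ℕ) : Option (ℕ × ℕ) → Pt
  | none => (2, 2 ^ (W K * (N + 1)))
  | some (k, i) => (2 * k, 2 ^ (W K * i))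

/-- base points of the lower clusters (mirrored) -/
noncomputable def baseL (N K r : ℕ) : Option (ℕ × ℕ) → Pt
  | none => (2, 2 ^ (W K * (N + R N r + 2)))
  | some (k, j) => (2 * k + 1, pw (W K * j))

/-- the point of the segment from `O` to the axis point `t` -/
noncomputable def toward (O : Pt) (t e : ℝ) : Pt := ((1 - e) * O.1 + e * t, (1 - e) * O.2)

/-- coordinates of the points of a side -/
noncomputable def ptOf (N K r : ℕ) (Ks : Skel (Option (ℕ × ℕ))) (base : Option (ℕ × ℕ) → Pt)
    (ε δ : ℝ) : Nm (Option (ℕ × ℕ)) → Pt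
  | .z P c => toward (base P) (mid N K r (Ks.a P)) (c * δ)
  | .q g => toward (base (Ks.own g)) (mid N K r g) ε
  | .cap Q => toward (base (Ks.par Q)) (mid N K r (Ks.a Q)) ε

/-- the upper side -/
noncomputable def DU (N K r : ℕ) : Side (Nm (Option (ℕ × ℕ))) where
  I := (KU N K r).names (F N K r) (win N K r)
  pt := ptOf N K r (KU N K r) (baseU N K) (pw (G N K r)) (pw (8 * G N K r))
  top := .z none 0

/-- the lower side -/
noncomputable def DL (N K r : ℕ) : Side (Nm (Option (ℕ × ℕ))) where
  I := (KL N K r).names (F N K r) (win N K r)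
  pt := ptOf N K r (KL N K r) (baseL N K r) (pw (3 * G N K r)) (pw (6 * G N K r))
  top := .z none 0

/-- blocked pairs -/
def bad (fw : ℕ → ℕ → Bool) (w c m : ℕ) : Prop := fw w c ≠ decide (m = 1)

open Classical in
/-- blockers -/
noncomputable def Bl (N K r : ℕ) (fw : ℕ → ℕ → Bool) : Finset ℝ :=
  (win N K r).biUnion fun w => ((range 4 ×ˢ range 2).filter fun cm => bad fw w cm.1 cm.2).image
    fun cm => cr ((DU N K r).pt (.z ((KU N K r).own w) cm.1))
      ((DL N K r).pt (.z ((KL N K r).own w) cm.2))

/-- spacing of the clusters -/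
noncomputable def kap (N K r : ℕ) : ℝ := pw (50 * G N K r)

end Inst

end Pool.Agent.TRI
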