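import Pool.Agent.TRI.Defs

/-!
Area C: skeletons. A skeleton describes one side of the axis: a tree of nodes `P`, each with an
interval of feet `[a P, b P]`; every gap `g` (between the feet `g` and `g + 1`) is owned by the
smallest node containing it. The points of the side are

* `z P 0, ..., z P (s P)`: the chain of the node `P`;
* `q g`: the leaf of the gap `g`, for all gaps except `0`, `F - 1` and the windows;
* `cap Q`: the cap of the node `Q ≠ rt`; it belongs to the cluster of the parent of `Q`.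
-/

namespace Pool.Agent.TRI

open Finset

/-- names of the points -/
inductive Nm (ν : Type) where
  | z (P : ν) (c : ℕ)
  | q (g : ℕ)
  | cap (Q : ν)
deriving DecidableEq

/-- combinatorial data of one side -/
structure Skel (ν : Type) where
  nodes : Finset ν
  rt : ν
  par : ν → ν
  dep : ν → ℕ
  a : ν → ℕ
  b : ν → ℕ
  s : ν → ℕ
  own : ℕ → ν
  hg : ν → ℕ

/-- leaf gaps -/
def lf (F : ℕ) (win : Finset ℕ) : Finset ℕ := (Ioo 0 (F - 1)).filter fun g => g ∉ win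

namespace Skel

variable {ν : Type} [DecidableEq ν] (K : Skel ν) (F : ℕ) (win : Finset ℕ) (ex : ℕ → ℕ)
  (x : ℕ → ℝ) (D : Side (Nm ν))

/-- proper ancestors -/
def Anc (P Q : ν) : Prop :=
  P ∈ K.nodes ∧ Q ∈ K.nodes ∧ P ≠ Q ∧ K.a P ≤ K.a Q ∧ K.b Q ≤ K.b P

/-- the names of the points of the side -/
def names : Finset (Nm ν) :=
  (K.nodes.biUnion fun P => (range (K.s P + 1)).image (Nm.z P)) ∪ (lf F win).image Nm.q ∪
    (K.nodes.erase K.rt).image Nm.cap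

/-- the cluster of a point -/
def cl : Nm ν → ν
  | .z P _ => P
  | .q g => K.own g
  | .cap Q => K.par Q

/-- combinatorial axioms -/
structure Comb : Prop where
  three : 3 ≤ F
  win_lt : ∀ w ∈ win, w < F
  rt_mem : K.rt ∈ K.nodes
  a_rt : K.a K.rt = 0
  b_rt : K.b K.rt = F
  s_rt : K.s K.rt = 0
  par_anc : ∀ Q ∈ K.nodes, Q ≠ K.rt → K.Anc (K.par Q) Q ∧
    ∀ P, K.Anc P Q → P = K.par Q ∨ K.Anc P (K.par Q)
  tree : ∀ P ∈ K.nodes, ∀ Q ∈ K.nodes, P ≠ Q →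
    K.Anc P Q ∨ K.Anc Q P ∨ K.b P ≤ K.a Q ∨ K.b Q ≤ K.a P
  dep_lt : ∀ P Q, K.Anc P Q → K.dep P < K.dep Q
  own_mem : ∀ g < F, K.own g ∈ K.nodes ∧ K.a (K.own g) ≤ g ∧ g < K.b (K.own g) ∧
    ∀ P ∈ K.nodes, K.a P ≤ g → g < K.b P → P = K.own g ∨ K.Anc P (K.own g)
  /-- the first and the last gap of a node are leaf gaps owned by the node -/
  ends : ∀ P ∈ K.nodes, P ≠ K.rt → 0 < K.a P ∧ K.a P + 2 ≤ K.b P ∧ K.b P < F ∧
    K.own (K.a P) = P ∧ K.a P ∉ win ∧ K.own (K.b P - 1) = P ∧ K.b P - 1 ∉ win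
  /-- the gaps just outside a node are no windows and are owned by the parent -/
  outer : ∀ P ∈ K.nodes, P ≠ K.rt →
    K.own (K.a P - 1) = K.par P ∧ K.a P - 1 ∉ win ∧ K.own (K.b P) = K.par P ∧ K.b P ∉ win
  /-- windows are separated by leaf gaps with the same owner -/
  wins : ∀ w ∈ win, K.own w ≠ K.rt ∧ K.own (w - 1) = K.own w ∧ K.own (w + 1) = K.own w ∧
    w - 1 ∉ win ∧ w + 1 ∉ win ∧ K.a (K.own w) + 2 ≤ w ∧ w + 3 ≤ K.b (K.own w) ∧ ex w = ex (w + 1)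
  /-- spin nodes -/
  spin : ∀ P ∈ K.nodes, 1 ≤ K.s P → K.a P + 4 ≤ K.b P ∧
    K.own (K.a P + 1) = P ∧ K.a P + 1 ∉ win ∧ K.own (K.b P - 2) = P ∧ K.b P - 2 ∉ win ∧
    ex (K.a P + 1) = ex (K.b P - 1) ∧
    ∀ f, K.a P < f → f ≤ K.b P → f ≠ K.a P + 1 → f ≠ K.b P - 1 →
      (∀ Q, K.Anc P Q → ¬ (K.a Q < f ∧ f < K.b Q)) → ex f < ex (K.a P + 1)

/-- geometric axioms -/
structure Geo : Prop where
  mono : ∀ i j, i < j → j ≤ F → x i < x j
  I_eq : D.I = K.names F win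
  top_eq : D.top = .z K.rt 0
  good : D.Good F x
  chain : ∀ P ∈ K.nodes, ∀ c c', c < c' → c' ≤ K.s P →
    (D.pt (.z P c')).2 < (D.pt (.z P c)).2
  leaf_lt : ∀ g ∈ lf F win, ∀ c ≤ K.s (K.own g), (D.pt (.q g)).2 < (D.pt (.z (K.own g) c)).2
  cap_lt : ∀ Q ∈ K.nodes, Q ≠ K.rt → ∀ c ≤ K.s (K.par Q),
    (D.pt (.cap Q)).2 < (D.pt (.z (K.par Q) c)).2
  same_qq : ∀ g ∈ lf F win, ∀ g' ∈ lf F win, K.own g = K.own g' →
    (D.pt (.q g)).2 = (D.pt (.q g')).2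
  same_qc : ∀ g ∈ lf F win, ∀ Q ∈ K.nodes, Q ≠ K.rt → K.own g = K.par Q →
    (D.pt (.q g)).2 = (D.pt (.cap Q)).2
  same_cc : ∀ Q ∈ K.nodes, Q ≠ K.rt → ∀ Q' ∈ K.nodes, Q' ≠ K.rt → K.par Q = K.par Q' →
    (D.pt (.cap Q)).2 = (D.pt (.cap Q')).2
  hit_zz : ∀ P ∈ K.nodes, ∀ c c', c < c' → c' ≤ K.s P →
    x (K.a P) < sl (D.pt (.z P c)) (D.pt (.z P c')) ∧
      sl (D.pt (.z P c)) (D.pt (.z P c')) < x (K.a P + 1)
  hit_zq : ∀ g ∈ lf F win, ∀ c ≤ K.s (K.own g),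
    x g < sl (D.pt (.z (K.own g) c)) (D.pt (.q g)) ∧
      sl (D.pt (.z (K.own g) c)) (D.pt (.q g)) < x (g + 1)
  hit_zcap : ∀ Q ∈ K.nodes, Q ≠ K.rt → ∀ c ≤ K.s (K.par Q),
    x (K.a Q) < sl (D.pt (.z (K.par Q) c)) (D.pt (.cap Q)) ∧
      sl (D.pt (.z (K.par Q) c)) (D.pt (.cap Q)) < x (K.a Q + 1)
  hgb : ∀ P ∈ K.nodes, P ≠ K.rt → K.a P ≤ K.hg P ∧ K.hg P < K.b P
  home : ∀ v ∈ K.names F win, ∀ w ∈ K.names F win, K.Anc (K.cl v) (K.cl w) →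
    (D.pt w).2 < (D.pt v).2 ∧ x (K.hg (K.cl w)) < sl (D.pt v) (D.pt w) ∧
      sl (D.pt v) (D.pt w) < x (K.hg (K.cl w) + 1)
  far : ∀ v ∈ K.names F win, ∀ w ∈ K.names F win, K.cl v ≠ K.cl w →
    ¬ K.Anc (K.cl v) (K.cl w) → (D.pt w).2 < (D.pt v).2 →
      (K.dep (K.cl v) < K.dep (K.cl w) ∧
        ¬ (x (K.a (K.cl v)) < sl (D.pt v) (D.pt w) ∧ sl (D.pt v) (D.pt w) < x (K.b (K.cl v)))) ∨
      (K.dep (K.cl v) = K.dep (K.cl w) ∧
        ¬ (x 0 < sl (D.pt v) (D.pt w) ∧ sl (D.pt v) (D.pt w) < x F))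

/-- the tent system with walls `j` and window options `o` -/
def sys (j : ν → ℕ) (o : ℕ → ℕ) : Nm ν → ℕ × ℕ
  | .z P c => if Nm.z P c ∈ K.names F win then
      (K.a P, if c = 0 then K.b P else if c ≤ j P then K.b P - 1 else K.a P + 1) else (0, 0)
  | .q g => if g ∈ lf F win then
      (if 1 ≤ g ∧ g - 1 ∈ win ∧ o (g - 1) = 2 then g - 1 else g,
        if g + 1 ∈ win ∧ o (g + 1) = 1 then g + 2 else g + 1) else (0, 0)
  | .cap Q => if Nm.cap Q ∈ K.names F win then (K.a Q, K.b Q) else (0, 0)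

/-- extension of a partial function by zero -/
def ext {γ : Type} [DecidableEq γ] {t : Finset γ} (p : (y : γ) → y ∈ t → ℕ) (y : γ) : ℕ :=
  if h : y ∈ t then p y h else 0

/-- total exponent of a tent system -/
def tdeg (R : Nm ν → ℕ × ℕ) : ℕ :=
  ∑ w ∈ (K.names F win).erase (.z K.rt 0), (ex (R w).1 + ex (R w).2)

/-- the maximal total exponent -/
def tmax : ℕ := K.tdeg F win ex (K.sys F win (fun _ => 0) fun _ => 0)

/-- weight of the states of a spin node -/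
def wt (s j : ℕ) : ℚ := ((Nat.factorial (2 + s - j) : ℚ))⁻¹ * ((Nat.factorial (2 + j) : ℚ))⁻¹

end Skel

end Pool.Agent.TRI
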