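import Pool.Agent.TRI.A_Final
import Pool.Agent.TRI.B8_Lead

/-!
Areas A (cluster formula: `one_le_up`, `one_le_dn`, `twin`, `cluster`) and B (leading
triangulations: `ldeg`, `dmax`, `lead_bound`, `lead_sum`) are complete.
-/
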