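import Pool.Agent.TRI.EDefs
import Pool.Agent.TRI.E1_Final
import Pool.Agent.TRI.E2_Final

/-!
Area E: the concrete instance satisfies all the axioms.
-/

namespace Pool.Agent.TRI

namespace Inst

open Finset

variable {N K r : ℕ}

theorem geoU (hN : 1 ≤ N) (hK : 2 ≤ K) (hr : 1 ≤ r) :
    (KU N K r).Geo (F N K r) (win N K r) (x N K r) (DU N K r) :=
  geoU' (ok hN hK hr)

theorem geoL (hN : 1 ≤ N) (hK : 2 ≤ K) (hr : 1 ≤ r) :
    (KL N K r).Geo (F N K r) (win N K r) (x N K r) (DL N K r) :=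
  geoL' (ok hN hK hr)

theorem crossing (hN : 1 ≤ N) (hK : 2 ≤ K) (hr : 1 ≤ r) (fw : ℕ → ℕ → Bool) :
    Crossing (KU N K r) (KL N K r) (DU N K r) (DL N K r) (x N K r) (win N K r)
      (Bl N K r fw) (bad fw) :=
  crossing' (ok hN hK hr) fw

theorem goodFeet (hN : 1 ≤ N) (hK : 2 ≤ K) (hr : 1 ≤ r) (fw : ℕ → ℕ → Bool) :
    GoodFeet (F N K r) (x N K r) (Bl N K r fw) :=
  goodFeet' (ok hN hK hr) fw

theorem clear (hN : 1 ≤ N) (hK : 2 ≤ K) (hr : 1 ≤ r) :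
    ∀ f ∈ Ioo 0 (F N K r), Clear (offPts (DU N K r) (DL N K r)) (x N K r f)
      (x N K r f + ((2 ^ G N K r : ℕ) : ℝ) * kap N K r) :=
  clear' (ok hN hK hr)

theorem sep (hN : 1 ≤ N) (hK : 2 ≤ K) (hr : 1 ≤ r) :
    ∀ f ∈ Ioo 0 (F N K r), x N K r f + ((2 ^ G N K r : ℕ) : ℝ) * kap N K r < x N K r (f + 1) :=
  sep' (ok hN hK hr)

theorem sepB (hN : 1 ≤ N) (hK : 2 ≤ K) (hr : 1 ≤ r) (fw : ℕ → ℕ → Bool) :
    ∀ f ∈ Ioo 0 (F N K r), ∀ b ∈ Bl N K r fw, x N K r f < b →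
      x N K r f + ((2 ^ G N K r : ℕ) : ℝ) * kap N K r < b :=
  sepB' (ok hN hK hr) fw

/-- the point set with parameters `n`, `t` -/
noncomputable def SI (N K r : ℕ) (fw : ℕ → ℕ → Bool) (n t : ℕ) : Finset Pt :=
  setWA (offPts (DU N K r) (DL N K r))
    (axNT (F N K r) (x N K r) (ex N K r) (Bl N K r fw) (kap N K r) n t)

/-- main theorem of the geometric part -/
theorem main (hN : 1 ≤ N) (hK : 2 ≤ K) (hr : 1 ≤ r) :
    ∃ c : ℚ, 0 < c ∧ ∀ fw : ℕ → ℕ → Bool,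
      ((∑ n ∈ range (dI N K r + 1), ∑ t ∈ range (eI N K r + 1),
        (-1) ^ ((dI N K r - n) + (eI N K r - t)) * ((dI N K r).choose n : ℤ) *
          ((eI N K r).choose t : ℤ) * (tr (SI N K r fw n t) : ℤ) : ℤ) : ℚ) =
        c * Y N K r fw := by
  obtain ⟨c₁, hc₁, h₁⟩ := part_eq hN hK hr
  obtain ⟨c₂, hc₂, h₂⟩ := state_sum (combU hN hK hr) (combL hN hK hr) (geoU hN hK hr)
    (geoL hN hK hr)
  refine ⟨(Nat.factorial (dI N K r) : ℚ) * (Nat.factorial (eI N K r) : ℚ) * (c₂ * c₁),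
    by positivity, fun fw => ?_⟩
  have h := extract (combU hN hK hr) (combL hN hK hr) (geoU hN hK hr) (geoL hN hK hr)
    (Bl N K r fw) (goodFeet hN hK hr fw) (kap N K r) (by unfold kap pw; positivity)
    (2 ^ G N K r) (fun f _ t ht => by
      rw [dmax_eq hN hK hr]; rw [tmax_eq hN hK hr] at ht; exact sizes hN hK hr f t ht)
    (clear hN hK hr) (sep hN hK hr) (sepB hN hK hr fw)
  rw [h₂ _ _ (crossing hN hK hr fw), h₁, dmax_eq hN hK hr, tmax_eq hN hK hr] at h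
  rw [show (Nat.factorial (dI N K r) : ℚ) * (Nat.factorial (eI N K r) : ℚ) * (c₂ * c₁) *
    (Y N K r fw : ℚ) = (Nat.factorial (dI N K r) : ℚ) * (Nat.factorial (eI N K r) : ℚ) *
    (c₂ * (c₁ * Y N K r fw)) by ring, ← h]
  rfl

end Inst

end Pool.Agent.TRI
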