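import Pool.Agent.TRI.Bin3
import Pool.Agent.TRI.Inst

/-!
The index functions of the instance are computable in polynomial time.
-/

namespace Pool.Agent.TRI

namespace Bin

open Pool.Agent.LibComplexity Function

variable {𝒜 : Set Orc} {α β γ τ : Type} [Enc α] [Enc β] [Enc γ] [Enc τ]

/-- division in unary -/
theorem PTf_div {f g : Orc → α → ℕ} (hf : PTf 𝒜 f) (hg : PTf 𝒜 g) :
    PTf 𝒜 (fun A x => f A x / g A x) := by
  have hg' : PTf 𝒜 (fun A (p : α × ℕ) => g A p.1) := hg.comp PTf.id.fst
  have hf' : PTf 𝒜 (fun A (p : α × ℕ) => f A p.1) := hf.comp PTf.id.fst
  have h : PTf 𝒜 (fun A x => ((List.range (f A x)).filter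
      (fun q => decide (0 < g A x ∧ (q + 1) * g A x ≤ f A x))).length) := by
    refine PTf.length (PTf.filter (PTf.range hf) ?_)
    exact ((PTf.const 0).decide_lt hg').decide_and
      (((PTf.id.snd.add (PTf.const 1)).mul hg').decide_le hf')
  refine h.congr fun A _ x => ?_
  generalize f A x = a
  generalize g A x = b
  rcases Nat.eq_zero_or_pos b with hb | hb
  · subst hb; simp
  · have h1 : ∀ n q : ℕ, q ≤ n → ((List.range n).filter (fun i => decide (i < q))).length = q := by
      intro n
      induction n with
      | zero => intro q hq; simp; omega
      | succ n ih =>
        intro q hq
        rw [List.range_succ, List.filter_append, List.length_append]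
        by_cases h2 : q ≤ n
        · rw [ih q h2]; simp; omega
        · obtain rfl : q = n + 1 := by omega
          have h3 : (List.range n).filter (fun i => decide (i < n + 1)) = List.range n := by
            rw [List.filter_eq_self]
            intro i hi
            have := List.mem_range.1 hi
            simp; omega
          rw [h3]; simp
    rw [← h1 a (a / b) (Nat.div_le_self a b)]
    congr 1
    apply List.filter_congr
    intro i _
    have h2 : (0 < b ∧ (i + 1) * b ≤ a) ↔ i < a / b :=
      ⟨fun h => (Nat.le_div_iff_mul_le hb).2 h.2, fun h => ⟨hb, (Nat.le_div_iff_mul_le hb).1 h⟩⟩
    exact decide_eq_decide.2 h2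

/-- remainder in unary -/
theorem PTf_mod {f g : Orc → α → ℕ} (hf : PTf 𝒜 f) (hg : PTf 𝒜 g) :
    PTf 𝒜 (fun A x => f A x % g A x) :=
  (hf.sub (hg.mul (PTf_div hf hg))).congr fun A _ x => by
    have := Nat.div_add_mod (f A x) (g A x)
    omega

/-- functions of options -/
theorem PTf_opt {o : Orc → α → Option β} (ho : PTf 𝒜 o) {f : Orc → α → γ} {g : Orc → α × β → γ}
    (hf : PTf 𝒜 f) (hg : PTf 𝒜 g) :
    PTf 𝒜 (fun A x => match o A x with
      | none => f A x
      | some y => g A (x, y)) := by
  classical
  by_cases hne : Nonempty β
  · obtain ⟨d⟩ := hne
    have h := ho.isSome.ite (hg.comp (PTf.id.pair (ho.getD (PTf.const d)))) hf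
    refine h.congr fun A _ x => ?_
    rcases h : o A x with _ | y <;> simp
  · refine hf.congr fun A _ x => ?_
    rcases h : o A x with _ | y
    · rfl
    · exact absurd ⟨y⟩ hne

variable {N K r f g k j q e : Orc → α → ℕ} {P : Orc → α → Option (ℕ × ℕ)}

theorem PTf_Bk (hr : PTf 𝒜 r) :
    PTf 𝒜 (fun A x => Inst.Bk (r A x)) := by
  unfold Inst.Bk
  repeat' first
    | with_reducible assumption
    | with_reducible exact PTf.id
    | with_reducible exact PTf.const _
    | with_reducible apply PTf_mod
    | with_reducible apply PTf_div
    | with_reducible apply PTf.snd
    | with_reducible apply PTf.fst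
    | with_reducible apply PTf.ite
    | with_reducible apply PTf.ifP
    | with_reducible apply PTf.decide_eq_true'
    | with_reducible apply PTf.decide_eq
    | with_reducible apply PTf.decide_lt
    | with_reducible apply PTf.decide_le
    | with_reducible apply PTf.decide_not
    | with_reducible apply PTf.decide_or
    | with_reducible apply PTf.decide_and
    | with_reducible apply PTf.beq
    | with_reducible apply PTf.bor
    | with_reducible apply PTf.band
    | with_reducible apply PTf.bnot
    | with_reducible apply PTf.add
    | with_reducible apply PTf.sub
    | with_reducible apply PTf.mul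

theorem PTf_R (hN : PTf 𝒜 N) (hr : PTf 𝒜 r) :
    PTf 𝒜 (fun A x => Inst.R (N A x) (r A x)) := by
  unfold Inst.R
  repeat' first
    | with_reducible assumption
    | with_reducible exact PTf.id
    | with_reducible exact PTf.const _
    | with_reducible apply PTf_Bk
    | with_reducible apply PTf_mod
    | with_reducible apply PTf_div
    | with_reducible apply PTf.snd
    | with_reducible apply PTf.fst
    | with_reducible apply PTf.ite
    | with_reducible apply PTf.ifP
    | with_reducible apply PTf.decide_eq_true'
    | with_reducible apply PTf.decide_eq
    | with_reducible apply PTf.decide_lt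
    | with_reducible apply PTf.decide_le
    | with_reducible apply PTf.decide_not
    | with_reducible apply PTf.decide_or
    | with_reducible apply PTf.decide_and
    | with_reducible apply PTf.beq
    | with_reducible apply PTf.bor
    | with_reducible apply PTf.band
    | with_reducible apply PTf.bnot
    | with_reducible apply PTf.add
    | with_reducible apply PTf.sub
    | with_reducible apply PTf.mul

theorem PTf_F (hN : PTf 𝒜 N) (hK : PTf 𝒜 K) (hr : PTf 𝒜 r) :
    PTf 𝒜 (fun A x => Inst.F (N A x) (K A x) (r A x)) := by
  unfold Inst.F
  repeat' first
    | with_reducible assumption
    | with_reducible exact PTf.id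
    | with_reducible exact PTf.const _
    | with_reducible apply PTf_R
    | with_reducible apply PTf_Bk
    | with_reducible apply PTf_mod
    | with_reducible apply PTf_div
    | with_reducible apply PTf.snd
    | with_reducible apply PTf.fst
    | with_reducible apply PTf.ite
    | with_reducible apply PTf.ifP
    | with_reducible apply PTf.decide_eq_true'
    | with_reducible apply PTf.decide_eq
    | with_reducible apply PTf.decide_lt
    | with_reducible apply PTf.decide_le
    | with_reducible apply PTf.decide_not
    | with_reducible apply PTf.decide_or
    | with_reducible apply PTf.decide_and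
    | with_reducible apply PTf.beq
    | with_reducible apply PTf.bor
    | with_reducible apply PTf.band
    | with_reducible apply PTf.bnot
    | with_reducible apply PTf.add
    | with_reducible apply PTf.sub
    | with_reducible apply PTf.mul

theorem PTf_W (hK : PTf 𝒜 K) :
    PTf 𝒜 (fun A x => Inst.W (K A x)) := by
  unfold Inst.W
  repeat' first
    | with_reducible assumption
    | with_reducible exact PTf.id
    | with_reducible exact PTf.const _
    | with_reducible apply PTf_F
    | with_reducible apply PTf_R
    | with_reducible apply PTf_Bk
    | with_reducible apply PTf_mod
    | with_reducible apply PTf_div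
    | with_reducible apply PTf.snd
    | with_reducible apply PTf.fst
    | with_reducible apply PTf.ite
    | with_reducible apply PTf.ifP
    | with_reducible apply PTf.decide_eq_true'
    | with_reducible apply PTf.decide_eq
    | with_reducible apply PTf.decide_lt
    | with_reducible apply PTf.decide_le
    | with_reducible apply PTf.decide_not
    | with_reducible apply PTf.decide_or
    | with_reducible apply PTf.decide_and
    | with_reducible apply PTf.beq
    | with_reducible apply PTf.bor
    | with_reducible apply PTf.band
    | with_reducible apply PTf.bnot
    | with_reducible apply PTf.add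

theorem PTf_rho (hr : PTf 𝒜 r) (hj : PTf 𝒜 j) :
    PTf 𝒜 (fun A x => Inst.rho (r A x) (j A x)) := by
  unfold Inst.rho
  repeat' first
    | with_reducible assumption
    | with_reducible exact PTf.id
    | with_reducible exact PTf.const _
    | with_reducible apply PTf_W
    | with_reducible apply PTf_F
    | with_reducible apply PTf_R
    | with_reducible apply PTf_Bk
    | with_reducible apply PTf_mod
    | with_reducible apply PTf_div
    | with_reducible apply PTf.snd
    | with_reducible apply PTf.fst
    | with_reducible apply PTf.ite
    | with_reducible apply PTf.ifP
    | with_reducible apply PTf.decide_eq_true'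
    | with_reducible apply PTf.decide_eq
    | with_reducible apply PTf.decide_lt
    | with_reducible apply PTf.decide_le
    | with_reducible apply PTf.decide_not
    | with_reducible apply PTf.decide_or
    | with_reducible apply PTf.decide_and
    | with_reducible apply PTf.beq
    | with_reducible apply PTf.bor
    | with_reducible apply PTf.band
    | with_reducible apply PTf.bnot
    | with_reducible apply PTf.add
    | with_reducible apply PTf.sub

theorem PTf_iL (hr : PTf 𝒜 r) (hj : PTf 𝒜 j) :
    PTf 𝒜 (fun A x => Inst.iL (r A x) (j A x)) := by
  unfold Inst.iL
  repeat' first
    | with_reducible assumption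
    | with_reducible exact PTf.id
    | with_reducible exact PTf.const _
    | with_reducible apply PTf_rho
    | with_reducible apply PTf_W
    | with_reducible apply PTf_F
    | with_reducible apply PTf_R
    | with_reducible apply PTf_Bk
    | with_reducible apply PTf_mod
    | with_reducible apply PTf_div
    | with_reducible apply PTf.snd
    | with_reducible apply PTf.fst
    | with_reducible apply PTf.ite
    | with_reducible apply PTf.ifP
    | with_reducible apply PTf.decide_eq_true'
    | with_reducible apply PTf.decide_eq
    | with_reducible apply PTf.decide_lt
    | with_reducible apply PTf.decide_le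
    | with_reducible apply PTf.decide_not
    | with_reducible apply PTf.decide_or
    | with_reducible apply PTf.decide_and
    | with_reducible apply PTf.beq
    | with_reducible apply PTf.bor
    | with_reducible apply PTf.band
    | with_reducible apply PTf.bnot
    | with_reducible apply PTf.add
    | with_reducible apply PTf.sub

theorem PTf_iR (hr : PTf 𝒜 r) (hj : PTf 𝒜 j) :
    PTf 𝒜 (fun A x => Inst.iR (r A x) (j A x)) := by
  unfold Inst.iR
  repeat' first
    | with_reducible assumption
    | with_reducible exact PTf.id
    | with_reducible exact PTf.const _
    | with_reducible apply PTf_iL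
    | with_reducible apply PTf_rho
    | with_reducible apply PTf_W
    | with_reducible apply PTf_F
    | with_reducible apply PTf_R
    | with_reducible apply PTf_Bk
    | with_reducible apply PTf_mod
    | with_reducible apply PTf_div
    | with_reducible apply PTf.snd
    | with_reducible apply PTf.fst
    | with_reducible apply PTf.ite
    | with_reducible apply PTf.ifP
    | with_reducible apply PTf.decide_eq_true'
    | with_reducible apply PTf.decide_eq
    | with_reducible apply PTf.decide_lt
    | with_reducible apply PTf.decide_le
    | with_reducible apply PTf.decide_not
    | with_reducible apply PTf.decide_or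
    | with_reducible apply PTf.decide_and
    | with_reducible apply PTf.beq
    | with_reducible apply PTf.bor
    | with_reducible apply PTf.band
    | with_reducible apply PTf.bnot
    | with_reducible apply PTf.add

theorem PTf_isH (hr : PTf 𝒜 r) (hj : PTf 𝒜 j) :
    PTf 𝒜 (fun A x => Inst.isH (r A x) (j A x)) := by
  unfold Inst.isH
  repeat' first
    | with_reducible assumption
    | with_reducible exact PTf.id
    | with_reducible exact PTf.const _
    | with_reducible apply PTf_iR
    | with_reducible apply PTf_iL
    | with_reducible apply PTf_rho
    | with_reducible apply PTf_W
    | with_reducible apply PTf_F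
    | with_reducible apply PTf_R
    | with_reducible apply PTf_Bk
    | with_reducible apply PTf_mod
    | with_reducible apply PTf_div
    | with_reducible apply PTf.snd
    | with_reducible apply PTf.fst
    | with_reducible apply PTf.ite
    | with_reducible apply PTf.ifP
    | with_reducible apply PTf.decide_eq_true'
    | with_reducible apply PTf.decide_eq
    | with_reducible apply PTf.decide_lt
    | with_reducible apply PTf.decide_le

theorem PTf_isY (hr : PTf 𝒜 r) (hj : PTf 𝒜 j) :
    PTf 𝒜 (fun A x => Inst.isY (r A x) (j A x)) := by
  unfold Inst.isY
  repeat' first
    | with_reducible assumption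
    | with_reducible exact PTf.id
    | with_reducible exact PTf.const _
    | with_reducible apply PTf_isH
    | with_reducible apply PTf_iR
    | with_reducible apply PTf_iL
    | with_reducible apply PTf_rho
    | with_reducible apply PTf_W
    | with_reducible apply PTf_F
    | with_reducible apply PTf_R
    | with_reducible apply PTf_Bk
    | with_reducible apply PTf_mod
    | with_reducible apply PTf_div
    | with_reducible apply PTf.snd
    | with_reducible apply PTf.fst
    | with_reducible apply PTf.ite
    | with_reducible apply PTf.ifP
    | with_reducible apply PTf.decide_eq_true'
    | with_reducible apply PTf.decide_eq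
    | with_reducible apply PTf.decide_lt
    | with_reducible apply PTf.decide_le
    | with_reducible apply PTf.decide_not
    | with_reducible apply PTf.decide_or
    | with_reducible apply PTf.decide_and
    | with_reducible apply PTf.beq
    | with_reducible apply PTf.bor
    | with_reducible apply PTf.band
    | with_reducible apply PTf.bnot
    | with_reducible apply PTf.add

theorem PTf_isD (hr : PTf 𝒜 r) (hj : PTf 𝒜 j) :
    PTf 𝒜 (fun A x => Inst.isD (r A x) (j A x)) := by
  unfold Inst.isD
  repeat' first
    | with_reducible assumption
    | with_reducible exact PTf.id
    | with_reducible exact PTf.const _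
    | with_reducible apply PTf_isY
    | with_reducible apply PTf_isH
    | with_reducible apply PTf_iR
    | with_reducible apply PTf_iL
    | with_reducible apply PTf_rho
    | with_reducible apply PTf_W
    | with_reducible apply PTf_F
    | with_reducible apply PTf_R
    | with_reducible apply PTf_Bk
    | with_reducible apply PTf_mod
    | with_reducible apply PTf_div
    | with_reducible apply PTf.snd
    | with_reducible apply PTf.fst
    | with_reducible apply PTf.ite
    | with_reducible apply PTf.ifP
    | with_reducible apply PTf.decide_eq_true'
    | with_reducible apply PTf.decide_eq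
    | with_reducible apply PTf.decide_lt
    | with_reducible apply PTf.decide_le
    | with_reducible apply PTf.decide_not
    | with_reducible apply PTf.decide_or
    | with_reducible apply PTf.decide_and
    | with_reducible apply PTf.beq
    | with_reducible apply PTf.bor
    | with_reducible apply PTf.band
    | with_reducible apply PTf.bnot
    | with_reducible apply PTf.add
    | with_reducible apply PTf.sub
    | with_reducible apply PTf.mul

theorem PTf_isX (hr : PTf 𝒜 r) (hj : PTf 𝒜 j) :
    PTf 𝒜 (fun A x => Inst.isX (r A x) (j A x)) := by
  unfold Inst.isX
  repeat' first
    | with_reducible assumption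
    | with_reducible exact PTf.id
    | with_reducible exact PTf.const _
    | with_reducible apply PTf_isD
    | with_reducible apply PTf_isY
    | with_reducible apply PTf_isH
    | with_reducible apply PTf_iR
    | with_reducible apply PTf_iL
    | with_reducible apply PTf_rho
    | with_reducible apply PTf_W
    | with_reducible apply PTf_F
    | with_reducible apply PTf_R
    | with_reducible apply PTf_Bk
    | with_reducible apply PTf_mod
    | with_reducible apply PTf_div
    | with_reducible apply PTf.snd
    | with_reducible apply PTf.fst
    | with_reducible apply PTf.ite
    | with_reducible apply PTf.ifP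
    | with_reducible apply PTf.decide_eq_true'
    | with_reducible apply PTf.decide_eq
    | with_reducible apply PTf.decide_lt
    | with_reducible apply PTf.decide_le
    | with_reducible apply PTf.decide_not
    | with_reducible apply PTf.decide_or
    | with_reducible apply PTf.decide_and
    | with_reducible apply PTf.beq
    | with_reducible apply PTf.bor
    | with_reducible apply PTf.band
    | with_reducible apply PTf.bnot
    | with_reducible apply PTf.add
    | with_reducible apply PTf.sub
    | with_reducible apply PTf.mul

theorem PTf_fk (hN : PTf 𝒜 N) (hr : PTf 𝒜 r) (hf : PTf 𝒜 f) :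
    PTf 𝒜 (fun A x => Inst.fk (N A x) (r A x) (f A x)) := by
  unfold Inst.fk
  repeat' first
    | with_reducible assumption
    | with_reducible exact PTf.id
    | with_reducible exact PTf.const _
    | with_reducible apply PTf_isX
    | with_reducible apply PTf_isD
    | with_reducible apply PTf_isY
    | with_reducible apply PTf_isH
    | with_reducible apply PTf_iR
    | with_reducible apply PTf_iL
    | with_reducible apply PTf_rho
    | with_reducible apply PTf_W
    | with_reducible apply PTf_F
    | with_reducible apply PTf_R
    | with_reducible apply PTf_Bk
    | with_reducible apply PTf_mod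
    | with_reducible apply PTf_div
    | with_reducible apply PTf.snd
    | with_reducible apply PTf.fst
    | with_reducible apply PTf.ite
    | with_reducible apply PTf.ifP
    | with_reducible apply PTf.decide_eq_true'
    | with_reducible apply PTf.decide_eq
    | with_reducible apply PTf.decide_lt
    | with_reducible apply PTf.decide_le
    | with_reducible apply PTf.decide_not
    | with_reducible apply PTf.decide_or
    | with_reducible apply PTf.decide_and
    | with_reducible apply PTf.beq
    | with_reducible apply PTf.bor
    | with_reducible apply PTf.band
    | with_reducible apply PTf.bnot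
    | with_reducible apply PTf.add
    | with_reducible apply PTf.sub
    | with_reducible apply PTf.mul

theorem PTf_fm (hN : PTf 𝒜 N) (hr : PTf 𝒜 r) (hf : PTf 𝒜 f) :
    PTf 𝒜 (fun A x => Inst.fm (N A x) (r A x) (f A x)) := by
  unfold Inst.fm
  repeat' first
    | with_reducible assumption
    | with_reducible exact PTf.id
    | with_reducible exact PTf.const _
    | with_reducible apply PTf_fk
    | with_reducible apply PTf_isX
    | with_reducible apply PTf_isD
    | with_reducible apply PTf_isY
    | with_reducible apply PTf_isH
    | with_reducible apply PTf_iR
    | with_reducible apply PTf_iL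
    | with_reducible apply PTf_rho
    | with_reducible apply PTf_W
    | with_reducible apply PTf_F
    | with_reducible apply PTf_R
    | with_reducible apply PTf_Bk
    | with_reducible apply PTf_mod
    | with_reducible apply PTf_div
    | with_reducible apply PTf.snd
    | with_reducible apply PTf.fst
    | with_reducible apply PTf.ite
    | with_reducible apply PTf.ifP
    | with_reducible apply PTf.decide_eq_true'
    | with_reducible apply PTf.decide_eq
    | with_reducible apply PTf.decide_lt
    | with_reducible apply PTf.decide_le
    | with_reducible apply PTf.decide_not
    | with_reducible apply PTf.decide_or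
    | with_reducible apply PTf.decide_and
    | with_reducible apply PTf.beq
    | with_reducible apply PTf.bor
    | with_reducible apply PTf.band
    | with_reducible apply PTf.bnot
    | with_reducible apply PTf.add
    | with_reducible apply PTf.sub
    | with_reducible apply PTf.mul

theorem PTf_isLeft (hN : PTf 𝒜 N) (hr : PTf 𝒜 r) (hf : PTf 𝒜 f) :
    PTf 𝒜 (fun A x => Inst.isLeft (N A x) (r A x) (f A x)) := by
  unfold Inst.isLeft
  repeat' first
    | with_reducible assumption
    | with_reducible exact PTf.id
    | with_reducible exact PTf.const _
    | with_reducible apply PTf_fm
    | with_reducible apply PTf_fk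
    | with_reducible apply PTf_isX
    | with_reducible apply PTf_isD
    | with_reducible apply PTf_isY
    | with_reducible apply PTf_isH
    | with_reducible apply PTf_iR
    | with_reducible apply PTf_iL
    | with_reducible apply PTf_rho
    | with_reducible apply PTf_W
    | with_reducible apply PTf_F
    | with_reducible apply PTf_R
    | with_reducible apply PTf_Bk
    | with_reducible apply PTf_mod
    | with_reducible apply PTf_div
    | with_reducible apply PTf.snd
    | with_reducible apply PTf.fst
    | with_reducible apply PTf.ite
    | with_reducible apply PTf.ifP
    | with_reducible apply PTf.decide_eq_true'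
    | with_reducible apply PTf.decide_eq
    | with_reducible apply PTf.decide_lt
    | with_reducible apply PTf.decide_le
    | with_reducible apply PTf.decide_not
    | with_reducible apply PTf.decide_or
    | with_reducible apply PTf.decide_and
    | with_reducible apply PTf.beq
    | with_reducible apply PTf.bor
    | with_reducible apply PTf.band
    | with_reducible apply PTf.bnot
    | with_reducible apply PTf.add
    | with_reducible apply PTf.sub
    | with_reducible apply PTf.mul

theorem PTf_fj (hN : PTf 𝒜 N) (hr : PTf 𝒜 r) (hf : PTf 𝒜 f) :
    PTf 𝒜 (fun A x => Inst.fj (N A x) (r A x) (f A x)) := by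
  unfold Inst.fj
  repeat' first
    | with_reducible assumption
    | with_reducible exact PTf.id
    | with_reducible exact PTf.const _
    | with_reducible apply PTf_isLeft
    | with_reducible apply PTf_fm
    | with_reducible apply PTf_fk
    | with_reducible apply PTf_isX
    | with_reducible apply PTf_isD
    | with_reducible apply PTf_isY
    | with_reducible apply PTf_isH
    | with_reducible apply PTf_iR
    | with_reducible apply PTf_iL
    | with_reducible apply PTf_rho
    | with_reducible apply PTf_W
    | with_reducible apply PTf_F
    | with_reducible apply PTf_R
    | with_reducible apply PTf_Bk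
    | with_reducible apply PTf_mod
    | with_reducible apply PTf_div
    | with_reducible apply PTf.snd
    | with_reducible apply PTf.fst
    | with_reducible apply PTf.ite
    | with_reducible apply PTf.ifP
    | with_reducible apply PTf.decide_eq_true'
    | with_reducible apply PTf.decide_eq
    | with_reducible apply PTf.decide_lt
    | with_reducible apply PTf.decide_le
    | with_reducible apply PTf.decide_not
    | with_reducible apply PTf.decide_or
    | with_reducible apply PTf.decide_and
    | with_reducible apply PTf.beq
    | with_reducible apply PTf.bor
    | with_reducible apply PTf.band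
    | with_reducible apply PTf.bnot
    | with_reducible apply PTf.add
    | with_reducible apply PTf.sub
    | with_reducible apply PTf.mul

theorem PTf_fq (hN : PTf 𝒜 N) (hr : PTf 𝒜 r) (hf : PTf 𝒜 f) :
    PTf 𝒜 (fun A x => Inst.fq (N A x) (r A x) (f A x)) := by
  unfold Inst.fq
  repeat' first
    | with_reducible assumption
    | with_reducible exact PTf.id
    | with_reducible exact PTf.const _
    | with_reducible apply PTf_fj
    | with_reducible apply PTf_isLeft
    | with_reducible apply PTf_fm
    | with_reducible apply PTf_fk
    | with_reducible apply PTf_isX
    | with_reducible apply PTf_isD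
    | with_reducible apply PTf_isY
    | with_reducible apply PTf_isH
    | with_reducible apply PTf_iR
    | with_reducible apply PTf_iL
    | with_reducible apply PTf_rho
    | with_reducible apply PTf_W
    | with_reducible apply PTf_F
    | with_reducible apply PTf_R
    | with_reducible apply PTf_Bk
    | with_reducible apply PTf_mod
    | with_reducible apply PTf_div
    | with_reducible apply PTf.snd
    | with_reducible apply PTf.fst
    | with_reducible apply PTf.ite
    | with_reducible apply PTf.ifP
    | with_reducible apply PTf.decide_eq_true'
    | with_reducible apply PTf.decide_eq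
    | with_reducible apply PTf.decide_lt
    | with_reducible apply PTf.decide_le
    | with_reducible apply PTf.decide_not
    | with_reducible apply PTf.decide_or
    | with_reducible apply PTf.decide_and
    | with_reducible apply PTf.beq
    | with_reducible apply PTf.bor
    | with_reducible apply PTf.band
    | with_reducible apply PTf.bnot
    | with_reducible apply PTf.add
    | with_reducible apply PTf.sub
    | with_reducible apply PTf.mul

theorem PTf_ftL (hN : PTf 𝒜 N) (hr : PTf 𝒜 r) (hk : PTf 𝒜 k) (hj : PTf 𝒜 j) (hq : PTf 𝒜 q) :
    PTf 𝒜 (fun A x => Inst.ftL (N A x) (r A x) (k A x) (j A x) (q A x)) := by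
  unfold Inst.ftL
  repeat' first
    | with_reducible assumption
    | with_reducible exact PTf.id
    | with_reducible exact PTf.const _
    | with_reducible apply PTf_fq
    | with_reducible apply PTf_fj
    | with_reducible apply PTf_isLeft
    | with_reducible apply PTf_fm
    | with_reducible apply PTf_fk
    | with_reducible apply PTf_isX
    | with_reducible apply PTf_isD
    | with_reducible apply PTf_isY
    | with_reducible apply PTf_isH
    | with_reducible apply PTf_iR
    | with_reducible apply PTf_iL
    | with_reducible apply PTf_rho
    | with_reducible apply PTf_W
    | with_reducible apply PTf_F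
    | with_reducible apply PTf_R
    | with_reducible apply PTf_Bk
    | with_reducible apply PTf_mod
    | with_reducible apply PTf_div
    | with_reducible apply PTf.snd
    | with_reducible apply PTf.fst
    | with_reducible apply PTf.ite
    | with_reducible apply PTf.ifP
    | with_reducible apply PTf.decide_eq_true'
    | with_reducible apply PTf.decide_eq
    | with_reducible apply PTf.decide_lt
    | with_reducible apply PTf.decide_le
    | with_reducible apply PTf.decide_not
    | with_reducible apply PTf.decide_or
    | with_reducible apply PTf.decide_and
    | with_reducible apply PTf.beq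
    | with_reducible apply PTf.bor
    | with_reducible apply PTf.band
    | with_reducible apply PTf.bnot
    | with_reducible apply PTf.add
    | with_reducible apply PTf.sub
    | with_reducible apply PTf.mul

theorem PTf_ftR (hN : PTf 𝒜 N) (hr : PTf 𝒜 r) (hk : PTf 𝒜 k) (hj : PTf 𝒜 j) (hq : PTf 𝒜 q) :
    PTf 𝒜 (fun A x => Inst.ftR (N A x) (r A x) (k A x) (j A x) (q A x)) := by
  unfold Inst.ftR
  repeat' first
    | with_reducible assumption
    | with_reducible exact PTf.id
    | with_reducible exact PTf.const _
    | with_reducible apply PTf_ftL
    | with_reducible apply PTf_fq
    | with_reducible apply PTf_fj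
    | with_reducible apply PTf_isLeft
    | with_reducible apply PTf_fm
    | with_reducible apply PTf_fk
    | with_reducible apply PTf_isX
    | with_reducible apply PTf_isD
    | with_reducible apply PTf_isY
    | with_reducible apply PTf_isH
    | with_reducible apply PTf_iR
    | with_reducible apply PTf_iL
    | with_reducible apply PTf_rho
    | with_reducible apply PTf_W
    | with_reducible apply PTf_F
    | with_reducible apply PTf_R
    | with_reducible apply PTf_Bk
    | with_reducible apply PTf_mod
    | with_reducible apply PTf_div
    | with_reducible apply PTf.snd
    | with_reducible apply PTf.fst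
    | with_reducible apply PTf.ite
    | with_reducible apply PTf.ifP
    | with_reducible apply PTf.decide_eq_true'
    | with_reducible apply PTf.decide_eq
    | with_reducible apply PTf.decide_lt
    | with_reducible apply PTf.decide_le
    | with_reducible apply PTf.decide_not
    | with_reducible apply PTf.decide_or
    | with_reducible apply PTf.decide_and
    | with_reducible apply PTf.beq
    | with_reducible apply PTf.bor
    | with_reducible apply PTf.band
    | with_reducible apply PTf.bnot
    | with_reducible apply PTf.add
    | with_reducible apply PTf.sub
    | with_reducible apply PTf.mul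

theorem PTf_ex (hN : PTf 𝒜 N) (hK : PTf 𝒜 K) (hr : PTf 𝒜 r) (hf : PTf 𝒜 f) :
    PTf 𝒜 (fun A x => Inst.ex (N A x) (K A x) (r A x) (f A x)) := by
  unfold Inst.ex
  repeat' first
    | with_reducible assumption
    | with_reducible exact PTf.id
    | with_reducible exact PTf.const _
    | with_reducible apply PTf_ftR
    | with_reducible apply PTf_ftL
    | with_reducible apply PTf_fq
    | with_reducible apply PTf_fj
    | with_reducible apply PTf_isLeft
    | with_reducible apply PTf_fm
    | with_reducible apply PTf_fk
    | with_reducible apply PTf_isX
    | with_reducible apply PTf_isD
    | with_reducible apply PTf_isY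
    | with_reducible apply PTf_isH
    | with_reducible apply PTf_iR
    | with_reducible apply PTf_iL
    | with_reducible apply PTf_rho
    | with_reducible apply PTf_W
    | with_reducible apply PTf_F
    | with_reducible apply PTf_R
    | with_reducible apply PTf_Bk
    | with_reducible apply PTf_mod
    | with_reducible apply PTf_div
    | with_reducible apply PTf.snd
    | with_reducible apply PTf.fst
    | with_reducible apply PTf.ite
    | with_reducible apply PTf.ifP
    | with_reducible apply PTf.decide_eq_true'
    | with_reducible apply PTf.decide_eq
    | with_reducible apply PTf.decide_lt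
    | with_reducible apply PTf.decide_le
    | with_reducible apply PTf.decide_not
    | with_reducible apply PTf.decide_or
    | with_reducible apply PTf.decide_and
    | with_reducible apply PTf.beq
    | with_reducible apply PTf.bor
    | with_reducible apply PTf.band

theorem PTf_isSpin (hN : PTf 𝒜 N) (hK : PTf 𝒜 K) (hr : PTf 𝒜 r) (hk : PTf 𝒜 k) (hj : PTf 𝒜 j) :
    PTf 𝒜 (fun A x => Inst.isSpin (N A x) (K A x) (r A x) (k A x) (j A x)) := by
  unfold Inst.isSpin
  repeat' first
    | with_reducible assumption
    | with_reducible exact PTf.id
    | with_reducible exact PTf.const _
    | with_reducible apply PTf_ex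
    | with_reducible apply PTf_ftR
    | with_reducible apply PTf_ftL
    | with_reducible apply PTf_fq
    | with_reducible apply PTf_fj
    | with_reducible apply PTf_isLeft
    | with_reducible apply PTf_fm
    | with_reducible apply PTf_fk
    | with_reducible apply PTf_isX
    | with_reducible apply PTf_isD
    | with_reducible apply PTf_isY
    | with_reducible apply PTf_isH
    | with_reducible apply PTf_iR
    | with_reducible apply PTf_iL
    | with_reducible apply PTf_rho
    | with_reducible apply PTf_W
    | with_reducible apply PTf_F
    | with_reducible apply PTf_R
    | with_reducible apply PTf_Bk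
    | with_reducible apply PTf_mod
    | with_reducible apply PTf_div
    | with_reducible apply PTf.snd
    | with_reducible apply PTf.fst
    | with_reducible apply PTf.ite
    | with_reducible apply PTf.ifP
    | with_reducible apply PTf.decide_eq_true'
    | with_reducible apply PTf.decide_eq
    | with_reducible apply PTf.decide_lt
    | with_reducible apply PTf.decide_le
    | with_reducible apply PTf.decide_not
    | with_reducible apply PTf.decide_or
    | with_reducible apply PTf.decide_and
    | with_reducible apply PTf.beq
    | with_reducible apply PTf.bor
    | with_reducible apply PTf.band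
    | with_reducible apply PTf.bnot
    | with_reducible apply PTf.add

theorem PTf_G (hN : PTf 𝒜 N) (hK : PTf 𝒜 K) (hr : PTf 𝒜 r) :
    PTf 𝒜 (fun A x => Inst.G (N A x) (K A x) (r A x)) := by
  unfold Inst.G
  repeat' first
    | with_reducible assumption
    | with_reducible exact PTf.id
    | with_reducible exact PTf.const _
    | with_reducible apply PTf_isSpin
    | with_reducible apply PTf_ex
    | with_reducible apply PTf_ftR
    | with_reducible apply PTf_ftL
    | with_reducible apply PTf_fq
    | with_reducible apply PTf_fj
    | with_reducible apply PTf_isLeft
    | with_reducible apply PTf_fm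
    | with_reducible apply PTf_fk
    | with_reducible apply PTf_isX
    | with_reducible apply PTf_isD
    | with_reducible apply PTf_isY
    | with_reducible apply PTf_isH
    | with_reducible apply PTf_iR
    | with_reducible apply PTf_iL
    | with_reducible apply PTf_rho
    | with_reducible apply PTf_W
    | with_reducible apply PTf_F
    | with_reducible apply PTf_R
    | with_reducible apply PTf_Bk
    | with_reducible apply PTf_mod
    | with_reducible apply PTf_div
    | with_reducible apply PTf.snd
    | with_reducible apply PTf.fst
    | with_reducible apply PTf.ite
    | with_reducible apply PTf.ifP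
    | with_reducible apply PTf.decide_eq_true'
    | with_reducible apply PTf.decide_eq
    | with_reducible apply PTf.decide_lt
    | with_reducible apply PTf.decide_le
    | with_reducible apply PTf.decide_not
    | with_reducible apply PTf.decide_or
    | with_reducible apply PTf.decide_and
    | with_reducible apply PTf.beq
    | with_reducible apply PTf.bor
    | with_reducible apply PTf.band
    | with_reducible apply PTf.bnot
    | with_reducible apply PTf.add
    | with_reducible apply PTf.sub
    | with_reducible apply PTf.mul

theorem PTf_isWin (hN : PTf 𝒜 N) (hK : PTf 𝒜 K) (hr : PTf 𝒜 r) (hf : PTf 𝒜 f) :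
    PTf 𝒜 (fun A x => decide (f A x ∈ Inst.win (N A x) (K A x) (r A x))) := by
  have h : PTf 𝒜 (fun A x => decide (1 ≤ f A x ∧ f A x < Inst.F (N A x) (K A x) (r A x)) &&
      (Inst.isSpin (N A x) (K A x) (r A x) (Inst.fk (N A x) (r A x) (f A x))
        (Inst.fj (N A x) (r A x) (f A x)) &&
      ((Inst.isLeft (N A x) (r A x) (f A x) && Inst.fq (N A x) (r A x) (f A x) == 2) ||
        (!Inst.isLeft (N A x) (r A x) (f A x) && Inst.fq (N A x) (r A x) (f A x) == 0)))) := by
    repeat' first
      | with_reducible assumption
      | with_reducible exact PTf.id
      | with_reducible exact PTf.const _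
      | with_reducible apply PTf_G
      | with_reducible apply PTf_isSpin
      | with_reducible apply PTf_ex
      | with_reducible apply PTf_ftR
      | with_reducible apply PTf_ftL
      | with_reducible apply PTf_fq
      | with_reducible apply PTf_fj
      | with_reducible apply PTf_isLeft
      | with_reducible apply PTf_fm
      | with_reducible apply PTf_fk
      | with_reducible apply PTf_isX
      | with_reducible apply PTf_isD
      | with_reducible apply PTf_isY
      | with_reducible apply PTf_isH
      | with_reducible apply PTf_iR
      | with_reducible apply PTf_iL
      | with_reducible apply PTf_rho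
      | with_reducible apply PTf_W
      | with_reducible apply PTf_F
      | with_reducible apply PTf_R
      | with_reducible apply PTf_Bk
      | with_reducible apply PTf_mod
      | with_reducible apply PTf_div
      | with_reducible apply PTf.snd
      | with_reducible apply PTf.fst
      | with_reducible apply PTf.ite
      | with_reducible apply PTf.ifP
      | with_reducible apply PTf.decide_eq_true'
      | with_reducible apply PTf.decide_eq
      | with_reducible apply PTf.decide_lt
      | with_reducible apply PTf.decide_le
      | with_reducible apply PTf.decide_not
      | with_reducible apply PTf.decide_or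
      | with_reducible apply PTf.decide_and
      | with_reducible apply PTf.beq
      | with_reducible apply PTf.bor
      | with_reducible apply PTf.band
      | with_reducible apply PTf.bnot

  refine h.congr fun A _ x => ?_
  rw [Bool.eq_iff_iff, decide_eq_true_eq]
  unfold Inst.win
  simp only [Finset.mem_filter, Finset.mem_Ico, Bool.and_eq_true, Bool.or_eq_true,
    decide_eq_true_eq, beq_iff_eq, Bool.not_eq_eq_eq_not, Bool.not_true]

theorem PTf_KUown (hN : PTf 𝒜 N) (hK : PTf 𝒜 K) (hr : PTf 𝒜 r) (hf : PTf 𝒜 f) :
    PTf 𝒜 (fun A x => (Inst.KU (N A x) (K A x) (r A x)).own (f A x)) := by
  unfold Inst.KU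
  dsimp only
  repeat' first
    | with_reducible assumption
    | with_reducible exact PTf.id
    | with_reducible exact PTf.const _
    | with_reducible apply PTf_G
    | with_reducible apply PTf_isSpin
    | with_reducible apply PTf_ex
    | with_reducible apply PTf_ftR
    | with_reducible apply PTf_ftL
    | with_reducible apply PTf_fq
    | with_reducible apply PTf_fj
    | with_reducible apply PTf_isLeft
    | with_reducible apply PTf_fm
    | with_reducible apply PTf_fk
    | with_reducible apply PTf_isX
    | with_reducible apply PTf_isD
    | with_reducible apply PTf_isY
    | with_reducible apply PTf_isH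
    | with_reducible apply PTf_iR
    | with_reducible apply PTf_iL
    | with_reducible apply PTf_rho
    | with_reducible apply PTf_W
    | with_reducible apply PTf_F
    | with_reducible apply PTf_R
    | with_reducible apply PTf_Bk
    | with_reducible apply PTf_mod
    | with_reducible apply PTf_div
    | with_reducible apply PTf.snd
    | with_reducible apply PTf.fst
    | with_reducible apply PTf.ite
    | with_reducible apply PTf.ifP
    | with_reducible apply PTf.decide_eq_true'
    | with_reducible apply PTf.decide_eq
    | with_reducible apply PTf.decide_lt
    | with_reducible apply PTf.decide_le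
    | with_reducible apply PTf.decide_not
    | with_reducible apply PTf.decide_or
    | with_reducible apply PTf.decide_and
    | with_reducible apply PTf.beq
    | with_reducible apply PTf.bor
    | with_reducible apply PTf.band
    | with_reducible apply PTf.bnot
    | with_reducible apply PTf.add
    | with_reducible apply PTf.sub
    | with_reducible apply PTf.mul
    | with_reducible apply PTf.filter
    | with_reducible apply PTf.range
    | with_reducible apply PTf.isSome
    | with_reducible apply PTf.getD
    | with_reducible apply PTf.some
    | with_reducible apply PTf.length
    | with_reducible apply PTf.cons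
    | with_reducible apply PTf.pair

theorem PTf_KLown (hN : PTf 𝒜 N) (hK : PTf 𝒜 K) (hr : PTf 𝒜 r) (hf : PTf 𝒜 f) :
    PTf 𝒜 (fun A x => (Inst.KL (N A x) (K A x) (r A x)).own (f A x)) := by
  unfold Inst.KL
  dsimp only
  repeat' first
    | with_reducible assumption
    | with_reducible exact PTf.id
    | with_reducible exact PTf.const _
    | with_reducible apply PTf_G
    | with_reducible apply PTf_isSpin
    | with_reducible apply PTf_ex
    | with_reducible apply PTf_ftR
    | with_reducible apply PTf_ftL
    | with_reducible apply PTf_fq
    | with_reducible apply PTf_fj
    | with_reducible apply PTf_isLeft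
    | with_reducible apply PTf_fm
    | with_reducible apply PTf_fk
    | with_reducible apply PTf_isX
    | with_reducible apply PTf_isD
    | with_reducible apply PTf_isY
    | with_reducible apply PTf_isH
    | with_reducible apply PTf_iR
    | with_reducible apply PTf_iL
    | with_reducible apply PTf_rho
    | with_reducible apply PTf_W
    | with_reducible apply PTf_F
    | with_reducible apply PTf_R
    | with_reducible apply PTf_Bk
    | with_reducible apply PTf_mod
    | with_reducible apply PTf_div
    | with_reducible apply PTf.snd
    | with_reducible apply PTf.fst
    | with_reducible apply PTf.ite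
    | with_reducible apply PTf.ifP
    | with_reducible apply PTf.decide_eq_true'
    | with_reducible apply PTf.decide_eq
    | with_reducible apply PTf.decide_lt
    | with_reducible apply PTf.decide_le
    | with_reducible apply PTf.decide_not
    | with_reducible apply PTf.decide_or
    | with_reducible apply PTf.decide_and
    | with_reducible apply PTf.beq
    | with_reducible apply PTf.bor
    | with_reducible apply PTf.band
    | with_reducible apply PTf.bnot
    | with_reducible apply PTf.add
    | with_reducible apply PTf.sub
    | with_reducible apply PTf.mul
    | with_reducible apply PTf.filter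
    | with_reducible apply PTf.range
    | with_reducible apply PTf.isSome
    | with_reducible apply PTf.getD
    | with_reducible apply PTf.some
    | with_reducible apply PTf.length
    | with_reducible apply PTf.cons
    | with_reducible apply PTf.pair

theorem PTf_KUa (hN : PTf 𝒜 N) (hK : PTf 𝒜 K) (hr : PTf 𝒜 r) (hP : PTf 𝒜 P) :
    PTf 𝒜 (fun A x => (Inst.KU (N A x) (K A x) (r A x)).a (P A x)) := by
  have hN' : PTf 𝒜 (fun A (p : α × (ℕ × ℕ)) => N A p.1) := hN.comp PTf.id.fst
  have hK' : PTf 𝒜 (fun A (p : α × (ℕ × ℕ)) => K A p.1) := hK.comp PTf.id.fst
  have hr' : PTf 𝒜 (fun A (p : α × (ℕ × ℕ)) => r A p.1) := hr.comp PTf.id.fst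
  have h1 : PTf 𝒜 (fun A (p : α × (ℕ × ℕ)) => Inst.ftR (N A p.1) (r A p.1) (p.2.1 - 1)
      ((p.2.2 - 1) * Inst.Bk (r A p.1) + r A p.1 + 1) 0) := by
    repeat' first
      | with_reducible assumption
      | with_reducible exact PTf.id
      | with_reducible exact PTf.const _
      | with_reducible apply PTf_G
      | with_reducible apply PTf_isSpin
      | with_reducible apply PTf_ex
      | with_reducible apply PTf_ftR
      | with_reducible apply PTf_ftL
      | with_reducible apply PTf_fq
      | with_reducible apply PTf_fj
      | with_reducible apply PTf_isLeft
      | with_reducible apply PTf_fm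
      | with_reducible apply PTf_fk
      | with_reducible apply PTf_isX
      | with_reducible apply PTf_isD
      | with_reducible apply PTf_isY
      | with_reducible apply PTf_isH
      | with_reducible apply PTf_iR
      | with_reducible apply PTf_iL
      | with_reducible apply PTf_rho
      | with_reducible apply PTf_W
      | with_reducible apply PTf_F
      | with_reducible apply PTf_R
      | with_reducible apply PTf_Bk
      | with_reducible apply PTf_mod
      | with_reducible apply PTf_div
      | with_reducible apply PTf.snd
      | with_reducible apply PTf.fst
      | with_reducible apply PTf.ite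
      | with_reducible apply PTf.ifP
      | with_reducible apply PTf.decide_eq_true'
      | with_reducible apply PTf.decide_eq
      | with_reducible apply PTf.decide_lt
      | with_reducible apply PTf.decide_le
      | with_reducible apply PTf.decide_not
      | with_reducible apply PTf.decide_or
      | with_reducible apply PTf.decide_and
      | with_reducible apply PTf.beq
      | with_reducible apply PTf.bor
      | with_reducible apply PTf.band
      | with_reducible apply PTf.bnot
      | with_reducible apply PTf.add
      | with_reducible apply PTf.sub
      | with_reducible apply PTf.mul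
  have h := PTf_opt hP (f := fun A x => 0) (PTf.const _) h1
  refine h.congr fun A _ x => ?_
  rcases h : P A x with _ | ⟨k, i⟩ <;> rfl

theorem PTf_KUs (hN : PTf 𝒜 N) (hK : PTf 𝒜 K) (hr : PTf 𝒜 r) (hP : PTf 𝒜 P) :
    PTf 𝒜 (fun A x => (Inst.KU (N A x) (K A x) (r A x)).s (P A x)) := by
  have hN' : PTf 𝒜 (fun A (p : α × (ℕ × ℕ)) => N A p.1) := hN.comp PTf.id.fst
  have hK' : PTf 𝒜 (fun A (p : α × (ℕ × ℕ)) => K A p.1) := hK.comp PTf.id.fst
  have hr' : PTf 𝒜 (fun A (p : α × (ℕ × ℕ)) => r A p.1) := hr.comp PTf.id.fst
  have h1 : PTf 𝒜 (fun A (p : α × (ℕ × ℕ)) => 3) := by
    repeat' first
      | with_reducible assumption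
      | with_reducible exact PTf.id
      | with_reducible exact PTf.const _
  have h := PTf_opt hP (f := fun A x => 0) (PTf.const _) h1
  refine h.congr fun A _ x => ?_
  rcases h : P A x with _ | ⟨k, i⟩ <;> rfl

theorem PTf_KUpar (hN : PTf 𝒜 N) (hK : PTf 𝒜 K) (hr : PTf 𝒜 r) (hP : PTf 𝒜 P) :
    PTf 𝒜 (fun A x => (Inst.KU (N A x) (K A x) (r A x)).par (P A x)) := by
  have hN' : PTf 𝒜 (fun A (p : α × (ℕ × ℕ)) => N A p.1) := hN.comp PTf.id.fst
  have hK' : PTf 𝒜 (fun A (p : α × (ℕ × ℕ)) => K A p.1) := hK.comp PTf.id.fst
  have hr' : PTf 𝒜 (fun A (p : α × (ℕ × ℕ)) => r A p.1) := hr.comp PTf.id.fst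
  have h1 : PTf 𝒜 (fun A (p : α × (ℕ × ℕ)) => if p.2.2 < N A p.1 then some (p.2.1, p.2.2 + 1) else none) := by
    repeat' first
      | with_reducible assumption
      | with_reducible exact PTf.id
      | with_reducible exact PTf.const _
      | with_reducible apply PTf_G
      | with_reducible apply PTf_isSpin
      | with_reducible apply PTf_ex
      | with_reducible apply PTf_ftR
      | with_reducible apply PTf_ftL
      | with_reducible apply PTf_fq
      | with_reducible apply PTf_fj
      | with_reducible apply PTf_isLeft
      | with_reducible apply PTf_fm
      | with_reducible apply PTf_fk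
      | with_reducible apply PTf_isX
      | with_reducible apply PTf_isD
      | with_reducible apply PTf_isY
      | with_reducible apply PTf_isH
      | with_reducible apply PTf_iR
      | with_reducible apply PTf_iL
      | with_reducible apply PTf_rho
      | with_reducible apply PTf_W
      | with_reducible apply PTf_F
      | with_reducible apply PTf_R
      | with_reducible apply PTf_Bk
      | with_reducible apply PTf_mod
      | with_reducible apply PTf_div
      | with_reducible apply PTf.snd
      | with_reducible apply PTf.fst
      | with_reducible apply PTf.ite
      | with_reducible apply PTf.ifP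
      | with_reducible apply PTf.decide_eq_true'
      | with_reducible apply PTf.decide_eq
      | with_reducible apply PTf.decide_lt
      | with_reducible apply PTf.decide_le
      | with_reducible apply PTf.decide_not
      | with_reducible apply PTf.decide_or
      | with_reducible apply PTf.decide_and
      | with_reducible apply PTf.beq
      | with_reducible apply PTf.bor
      | with_reducible apply PTf.band
      | with_reducible apply PTf.bnot
      | with_reducible apply PTf.add
      | with_reducible apply PTf.sub
      | with_reducible apply PTf.mul
      | with_reducible apply PTf.filter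
      | with_reducible apply PTf.range
      | with_reducible apply PTf.isSome
      | with_reducible apply PTf.getD
      | with_reducible apply PTf.some
      | with_reducible apply PTf.length
      | with_reducible apply PTf.cons
      | with_reducible apply PTf.pair
  have h := PTf_opt hP (f := fun A x => none) (PTf.const _) h1
  refine h.congr fun A _ x => ?_
  rcases h : P A x with _ | ⟨k, i⟩ <;> rfl

theorem PTf_KLa (hN : PTf 𝒜 N) (hK : PTf 𝒜 K) (hr : PTf 𝒜 r) (hP : PTf 𝒜 P) :
    PTf 𝒜 (fun A x => (Inst.KL (N A x) (K A x) (r A x)).a (P A x)) := by
  have hN' : PTf 𝒜 (fun A (p : α × (ℕ × ℕ)) => N A p.1) := hN.comp PTf.id.fst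
  have hK' : PTf 𝒜 (fun A (p : α × (ℕ × ℕ)) => K A p.1) := hK.comp PTf.id.fst
  have hr' : PTf 𝒜 (fun A (p : α × (ℕ × ℕ)) => r A p.1) := hr.comp PTf.id.fst
  have h1 : PTf 𝒜 (fun A (p : α × (ℕ × ℕ)) => Inst.ftL (N A p.1) (r A p.1) p.2.1 p.2.2 0) := by
    repeat' first
      | with_reducible assumption
      | with_reducible exact PTf.id
      | with_reducible exact PTf.const _
      | with_reducible apply PTf_G
      | with_reducible apply PTf_isSpin
      | with_reducible apply PTf_ex
      | with_reducible apply PTf_ftR
      | with_reducible apply PTf_ftL
      | with_reducible apply PTf_fq
      | with_reducible apply PTf_fj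
      | with_reducible apply PTf_isLeft
      | with_reducible apply PTf_fm
      | with_reducible apply PTf_fk
      | with_reducible apply PTf_isX
      | with_reducible apply PTf_isD
      | with_reducible apply PTf_isY
      | with_reducible apply PTf_isH
      | with_reducible apply PTf_iR
      | with_reducible apply PTf_iL
      | with_reducible apply PTf_rho
      | with_reducible apply PTf_W
      | with_reducible apply PTf_F
      | with_reducible apply PTf_R
      | with_reducible apply PTf_Bk
      | with_reducible apply PTf_mod
      | with_reducible apply PTf_div
      | with_reducible apply PTf.snd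
      | with_reducible apply PTf.fst
  have h := PTf_opt hP (f := fun A x => 0) (PTf.const _) h1
  refine h.congr fun A _ x => ?_
  rcases h : P A x with _ | ⟨k, i⟩ <;> rfl

theorem PTf_KLs (hN : PTf 𝒜 N) (hK : PTf 𝒜 K) (hr : PTf 𝒜 r) (hP : PTf 𝒜 P) :
    PTf 𝒜 (fun A x => (Inst.KL (N A x) (K A x) (r A x)).s (P A x)) := by
  have hN' : PTf 𝒜 (fun A (p : α × (ℕ × ℕ)) => N A p.1) := hN.comp PTf.id.fst
  have hK' : PTf 𝒜 (fun A (p : α × (ℕ × ℕ)) => K A p.1) := hK.comp PTf.id.fst
  have hr' : PTf 𝒜 (fun A (p : α × (ℕ × ℕ)) => r A p.1) := hr.comp PTf.id.fst
  have h1 : PTf 𝒜 (fun A (p : α × (ℕ × ℕ)) => if Inst.isSpin (N A p.1) (K A p.1) (r A p.1) p.2.1 p.2.2 then 1 else 0) := by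
    repeat' first
      | with_reducible assumption
      | with_reducible exact PTf.id
      | with_reducible exact PTf.const _
      | with_reducible apply PTf_G
      | with_reducible apply PTf_isSpin
      | with_reducible apply PTf_ex
      | with_reducible apply PTf_ftR
      | with_reducible apply PTf_ftL
      | with_reducible apply PTf_fq
      | with_reducible apply PTf_fj
      | with_reducible apply PTf_isLeft
      | with_reducible apply PTf_fm
      | with_reducible apply PTf_fk
      | with_reducible apply PTf_isX
      | with_reducible apply PTf_isD
      | with_reducible apply PTf_isY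
      | with_reducible apply PTf_isH
      | with_reducible apply PTf_iR
      | with_reducible apply PTf_iL
      | with_reducible apply PTf_rho
      | with_reducible apply PTf_W
      | with_reducible apply PTf_F
      | with_reducible apply PTf_R
      | with_reducible apply PTf_Bk
      | with_reducible apply PTf_mod
      | with_reducible apply PTf_div
      | with_reducible apply PTf.snd
      | with_reducible apply PTf.fst
      | with_reducible apply PTf.ite
  have h := PTf_opt hP (f := fun A x => 0) (PTf.const _) h1
  refine h.congr fun A _ x => ?_
  rcases h : P A x with _ | ⟨k, i⟩ <;> rfl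

theorem PTf_KLpar (hN : PTf 𝒜 N) (hK : PTf 𝒜 K) (hr : PTf 𝒜 r) (hP : PTf 𝒜 P) :
    PTf 𝒜 (fun A x => (Inst.KL (N A x) (K A x) (r A x)).par (P A x)) := by
  have hN' : PTf 𝒜 (fun A (p : α × (ℕ × ℕ)) => N A p.1) := hN.comp PTf.id.fst
  have hK' : PTf 𝒜 (fun A (p : α × (ℕ × ℕ)) => K A p.1) := hK.comp PTf.id.fst
  have hr' : PTf 𝒜 (fun A (p : α × (ℕ × ℕ)) => r A p.1) := hr.comp PTf.id.fst
  have h1 : PTf 𝒜 (fun A (p : α × (ℕ × ℕ)) => if 1 < p.2.2 then some (p.2.1, p.2.2 - 1) else none) := by
    repeat' first
      | with_reducible assumption
      | with_reducible exact PTf.id
      | with_reducible exact PTf.const _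
      | with_reducible apply PTf_G
      | with_reducible apply PTf_isSpin
      | with_reducible apply PTf_ex
      | with_reducible apply PTf_ftR
      | with_reducible apply PTf_ftL
      | with_reducible apply PTf_fq
      | with_reducible apply PTf_fj
      | with_reducible apply PTf_isLeft
      | with_reducible apply PTf_fm
      | with_reducible apply PTf_fk
      | with_reducible apply PTf_isX
      | with_reducible apply PTf_isD
      | with_reducible apply PTf_isY
      | with_reducible apply PTf_isH
      | with_reducible apply PTf_iR
      | with_reducible apply PTf_iL
      | with_reducible apply PTf_rho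
      | with_reducible apply PTf_W
      | with_reducible apply PTf_F
      | with_reducible apply PTf_R
      | with_reducible apply PTf_Bk
      | with_reducible apply PTf_mod
      | with_reducible apply PTf_div
      | with_reducible apply PTf.snd
      | with_reducible apply PTf.fst
      | with_reducible apply PTf.ite
      | with_reducible apply PTf.ifP
      | with_reducible apply PTf.decide_eq_true'
      | with_reducible apply PTf.decide_eq
      | with_reducible apply PTf.decide_lt
      | with_reducible apply PTf.decide_le
      | with_reducible apply PTf.decide_not
      | with_reducible apply PTf.decide_or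
      | with_reducible apply PTf.decide_and
      | with_reducible apply PTf.beq
      | with_reducible apply PTf.bor
      | with_reducible apply PTf.band
      | with_reducible apply PTf.bnot
      | with_reducible apply PTf.add
      | with_reducible apply PTf.sub
      | with_reducible apply PTf.mul
      | with_reducible apply PTf.filter
      | with_reducible apply PTf.range
      | with_reducible apply PTf.isSome
      | with_reducible apply PTf.getD
      | with_reducible apply PTf.some
      | with_reducible apply PTf.length
      | with_reducible apply PTf.cons
      | with_reducible apply PTf.pair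
  have h := PTf_opt hP (f := fun A x => none) (PTf.const _) h1
  refine h.congr fun A _ x => ?_
  rcases h : P A x with _ | ⟨k, i⟩ <;> rfl

end Bin

end Pool.Agent.TRI
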