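import Pool.Agent.TRI.T_Set
import Pool.Agent.TRI.T_Idx

/-!
The coordinates of the instance are computable in polynomial time.
-/

namespace Pool.Agent.TRI

namespace Bin

open Pool.Agent.LibComplexity Function

variable {𝒜 : Set Orc} {α β γ τ : Type} [Enc α] [Enc β] [Enc γ] [Enc τ]
variable {N K r f k j q e : Orc → α → ℕ} {P : Orc → α → Option (ℕ × ℕ)}

theorem RTf_pw (he : PTf 𝒜 e) : RTf 𝒜 (fun A x => Inst.pw (e A x)) := by
  unfold Inst.pw
  apply_rules [RTf.ofU, RTf.pow, RTf.div, RTf.mul, RTf.sub, RTf.add, RTf.ifP, RTf.one,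
      RTf.zero, RTf.ofNat, PTf.decide_le, PTf.decide_eq, PTf.decide_lt, PTf.decide_and,
      PTf.decide_eq_true', PTf.add, PTf.mul, PTf.fst, PTf.snd, PTf.const]

theorem RTf_cL (hq : PTf 𝒜 q) : RTf 𝒜 (fun A x => Inst.cL (q A x)) := by
  unfold Inst.cL
  apply_rules [RTf.ofU, RTf.pow, RTf.div, RTf.mul, RTf.sub, RTf.add, RTf.ifP, RTf.one,
      RTf.zero, RTf.ofNat, PTf.decide_le, PTf.decide_eq, PTf.decide_lt, PTf.decide_and,
      PTf.decide_eq_true', PTf.add, PTf.mul, PTf.fst, PTf.snd, PTf.const]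

theorem RTf_cR (hq : PTf 𝒜 q) : RTf 𝒜 (fun A x => Inst.cR (q A x)) := by
  unfold Inst.cR
  apply_rules [RTf.ofU, RTf.pow, RTf.div, RTf.mul, RTf.sub, RTf.add, RTf.ifP, RTf.one,
      RTf.zero, RTf.ofNat, PTf.decide_le, PTf.decide_eq, PTf.decide_lt, PTf.decide_and,
      PTf.decide_eq_true', PTf.add, PTf.mul, PTf.fst, PTf.snd, PTf.const]

theorem RTf_pos (hN : PTf 𝒜 N) (hK : PTf 𝒜 K) (hr : PTf 𝒜 r) (hf : PTf 𝒜 f) :
    RTf 𝒜 (fun A x => Inst.pos (N A x) (K A x) (r A x) (f A x)) := by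
  have hF := PTf_F hN hK hr
  have hfk := PTf_fk hN hr hf
  have hfq := PTf_fq hN hr hf
  have hfj := PTf_fj hN hr hf
  have hW := PTf_W hK
  have h1 := RTf_pw (hW.mul ((PTf_iL hr hfj).add hfj))
  have h2 := RTf_pw (hW.mul ((PTf_iR hr hfj).add hfj))
  have h3 := RTf_cL hfq
  have h4 := RTf_cR hfq
  have h5 := PTf_isLeft hN hr hf
  unfold Inst.pos
  apply_rules [RTf.ofU, RTf.pow, RTf.div, RTf.mul, RTf.sub, RTf.add, RTf.ifP, RTf.one,
      RTf.zero, RTf.ofNat, PTf.decide_le, PTf.decide_eq, PTf.decide_lt, PTf.decide_and,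
      PTf.decide_eq_true', PTf.add, PTf.mul, PTf.fst, PTf.snd, PTf.const]

theorem RTf_x (hN : PTf 𝒜 N) (hK : PTf 𝒜 K) (hr : PTf 𝒜 r) (hf : PTf 𝒜 f) :
    RTf 𝒜 (fun A x => Inst.x (N A x) (K A x) (r A x) (f A x)) := by
  have hF := PTf_F hN hK hr
  have h1 := RTf_pw ((PTf.const 22).mul (PTf_G hN hK hr))
  have h2 := RTf_pos hN hK hr hf
  exact RTf.ifP (((PTf.const 1).decide_le hf).decide_and (hf.decide_lt hF)) (h2.add h1) h2

theorem RTf_mid (hN : PTf 𝒜 N) (hK : PTf 𝒜 K) (hr : PTf 𝒜 r) (hf : PTf 𝒜 f) :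
    RTf 𝒜 (fun A x => Inst.mid (N A x) (K A x) (r A x) (f A x)) := by
  have h1 := RTf_pos hN hK hr hf
  have h2 := RTf_pos hN hK hr hf.succ
  unfold Inst.mid
  apply_rules [RTf.ofU, RTf.pow, RTf.div, RTf.mul, RTf.sub, RTf.add, RTf.ifP, RTf.one,
      RTf.zero, RTf.ofNat, PTf.decide_le, PTf.decide_eq, PTf.decide_lt, PTf.decide_and,
      PTf.decide_eq_true', PTf.add, PTf.mul, PTf.fst, PTf.snd, PTf.const]

theorem RTf_kap (hN : PTf 𝒜 N) (hK : PTf 𝒜 K) (hr : PTf 𝒜 r) :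
    RTf 𝒜 (fun A x => Inst.kap (N A x) (K A x) (r A x)) :=
  RTf_pw ((PTf.const 50).mul (PTf_G hN hK hr))

theorem RTf_baseU (hN : PTf 𝒜 N) (hK : PTf 𝒜 K) (hP : PTf 𝒜 P) :
    RTf 𝒜 (fun A x => (Inst.baseU (N A x) (K A x) (P A x)).1) ∧
      RTf 𝒜 (fun A x => (Inst.baseU (N A x) (K A x) (P A x)).2) := by
  have hg : PTf 𝒜 (fun A x => (P A x).getD (0, 0)) := hP.getD (PTf.const (0, 0))
  have hs := hP.isSome
  have hW := PTf_W hK
  constructor
  · refine RTf.congr (f := fun A x => if (P A x).isSome = true then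
      2 * (((P A x).getD (0, 0)).1 : ℝ) else 2) ?_ ?_
    · apply RTf.ite hs
      · apply_rules [RTf.ofU, RTf.pow, RTf.div, RTf.mul, RTf.sub, RTf.add, RTf.ifP, RTf.one,
      RTf.zero, RTf.ofNat, PTf.decide_le, PTf.decide_eq, PTf.decide_lt, PTf.decide_and,
      PTf.decide_eq_true', PTf.add, PTf.mul, PTf.fst, PTf.snd, PTf.const]
      · apply_rules [RTf.ofU, RTf.pow, RTf.div, RTf.mul, RTf.sub, RTf.add, RTf.ifP, RTf.one,
      RTf.zero, RTf.ofNat, PTf.decide_le, PTf.decide_eq, PTf.decide_lt, PTf.decide_and,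
      PTf.decide_eq_true', PTf.add, PTf.mul, PTf.fst, PTf.snd, PTf.const]
    · intro A _ x
      cases P A x with
      | none => simp [Inst.baseU]
      | some p => simp [Inst.baseU]
  · refine RTf.congr (f := fun A x => if (P A x).isSome = true then
      2 ^ (Inst.W (K A x) * ((P A x).getD (0, 0)).2) else
      2 ^ (Inst.W (K A x) * (N A x + 1))) ?_ ?_
    · apply RTf.ite hs
      · apply_rules [RTf.ofU, RTf.pow, RTf.div, RTf.mul, RTf.sub, RTf.add, RTf.ifP, RTf.one,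
      RTf.zero, RTf.ofNat, PTf.decide_le, PTf.decide_eq, PTf.decide_lt, PTf.decide_and,
      PTf.decide_eq_true', PTf.add, PTf.mul, PTf.fst, PTf.snd, PTf.const]
      · apply_rules [RTf.ofU, RTf.pow, RTf.div, RTf.mul, RTf.sub, RTf.add, RTf.ifP, RTf.one,
      RTf.zero, RTf.ofNat, PTf.decide_le, PTf.decide_eq, PTf.decide_lt, PTf.decide_and,
      PTf.decide_eq_true', PTf.add, PTf.mul, PTf.fst, PTf.snd, PTf.const]
    · intro A _ x
      cases P A x with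
      | none => simp [Inst.baseU]
      | some p => simp [Inst.baseU]

theorem RTf_baseL (hN : PTf 𝒜 N) (hK : PTf 𝒜 K) (hr : PTf 𝒜 r) (hP : PTf 𝒜 P) :
    RTf 𝒜 (fun A x => (Inst.baseL (N A x) (K A x) (r A x) (P A x)).1) ∧
      RTf 𝒜 (fun A x => (Inst.baseL (N A x) (K A x) (r A x) (P A x)).2) := by
  have hg : PTf 𝒜 (fun A x => (P A x).getD (0, 0)) := hP.getD (PTf.const (0, 0))
  have hs := hP.isSome
  have hW := PTf_W hK
  have hR := PTf_R hN hr
  constructor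
  · refine RTf.congr (f := fun A x => if (P A x).isSome = true then
      2 * (((P A x).getD (0, 0)).1 : ℝ) + 1 else 2) ?_ ?_
    · apply RTf.ite hs
      · apply_rules [RTf.ofU, RTf.pow, RTf.div, RTf.mul, RTf.sub, RTf.add, RTf.ifP, RTf.one,
      RTf.zero, RTf.ofNat, PTf.decide_le, PTf.decide_eq, PTf.decide_lt, PTf.decide_and,
      PTf.decide_eq_true', PTf.add, PTf.mul, PTf.fst, PTf.snd, PTf.const]
      · apply_rules [RTf.ofU, RTf.pow, RTf.div, RTf.mul, RTf.sub, RTf.add, RTf.ifP, RTf.one,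
      RTf.zero, RTf.ofNat, PTf.decide_le, PTf.decide_eq, PTf.decide_lt, PTf.decide_and,
      PTf.decide_eq_true', PTf.add, PTf.mul, PTf.fst, PTf.snd, PTf.const]
    · intro A _ x
      cases P A x with
      | none => simp [Inst.baseL]
      | some p => simp [Inst.baseL]
  · refine RTf.congr (f := fun A x => if (P A x).isSome = true then
      Inst.pw (Inst.W (K A x) * ((P A x).getD (0, 0)).2) else
      2 ^ (Inst.W (K A x) * (N A x + Inst.R (N A x) (r A x) + 2))) ?_ ?_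
    · apply RTf.ite hs
      · exact RTf_pw (hW.mul hg.snd)
      · apply_rules [RTf.ofU, RTf.pow, RTf.div, RTf.mul, RTf.sub, RTf.add, RTf.ifP, RTf.one,
      RTf.zero, RTf.ofNat, PTf.decide_le, PTf.decide_eq, PTf.decide_lt, PTf.decide_and,
      PTf.decide_eq_true', PTf.add, PTf.mul, PTf.fst, PTf.snd, PTf.const]
    · intro A _ x
      cases P A x with
      | none => simp [Inst.baseL]
      | some p => simp [Inst.baseL]

theorem RTf_toward {O : Orc → α → Pt} {t e : Orc → α → ℝ} (h1 : RTf 𝒜 (fun A x => (O A x).1))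
    (h2 : RTf 𝒜 (fun A x => (O A x).2)) (ht : RTf 𝒜 t) (he : RTf 𝒜 e) :
    RTf 𝒜 (fun A x => (Inst.toward (O A x) (t A x) (e A x)).1) ∧
      RTf 𝒜 (fun A x => (Inst.toward (O A x) (t A x) (e A x)).2) := by
  unfold Inst.toward
  constructor
  · apply_rules [RTf.ofU, RTf.pow, RTf.div, RTf.mul, RTf.sub, RTf.add, RTf.ifP, RTf.one,
      RTf.zero, RTf.ofNat, PTf.decide_le, PTf.decide_eq, PTf.decide_lt, PTf.decide_and,
      PTf.decide_eq_true', PTf.add, PTf.mul, PTf.fst, PTf.snd, PTf.const]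
  · apply_rules [RTf.ofU, RTf.pow, RTf.div, RTf.mul, RTf.sub, RTf.add, RTf.ifP, RTf.one,
      RTf.zero, RTf.ofNat, PTf.decide_le, PTf.decide_eq, PTf.decide_lt, PTf.decide_and,
      PTf.decide_eq_true', PTf.add, PTf.mul, PTf.fst, PTf.snd, PTf.const]

/-- the three kinds of points of the upper side -/
theorem RTf_ptU (hN : PTf 𝒜 N) (hK : PTf 𝒜 K) (hr : PTf 𝒜 r) (hP : PTf 𝒜 P) (hf : PTf 𝒜 f) :
    (RTf 𝒜 (fun A x => ((Inst.DU (N A x) (K A x) (r A x)).pt (.z (P A x) (f A x))).1) ∧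
      RTf 𝒜 (fun A x => ((Inst.DU (N A x) (K A x) (r A x)).pt (.z (P A x) (f A x))).2)) ∧
    (RTf 𝒜 (fun A x => ((Inst.DU (N A x) (K A x) (r A x)).pt (.q (f A x))).1) ∧
      RTf 𝒜 (fun A x => ((Inst.DU (N A x) (K A x) (r A x)).pt (.q (f A x))).2)) ∧
    (RTf 𝒜 (fun A x => ((Inst.DU (N A x) (K A x) (r A x)).pt (.cap (P A x))).1) ∧
      RTf 𝒜 (fun A x => ((Inst.DU (N A x) (K A x) (r A x)).pt (.cap (P A x))).2)) := by
  have hG := PTf_G hN hK hr
  have ha := PTf_KUa hN hK hr hP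
  have ho := PTf_KUown hN hK hr hf
  have hp := PTf_KUpar hN hK hr hP
  refine ⟨?_, ?_, ?_⟩
  · have hb := RTf_baseU hN hK hP
    exact RTf_toward hb.1 hb.2 (RTf_mid hN hK hr ha)
      ((RTf.ofU hf).mul (RTf_pw ((PTf.const 8).mul hG)))
  · have hb := RTf_baseU hN hK ho
    exact RTf_toward hb.1 hb.2 (RTf_mid hN hK hr hf) (RTf_pw hG)
  · have hb := RTf_baseU hN hK hp
    exact RTf_toward hb.1 hb.2 (RTf_mid hN hK hr ha) (RTf_pw hG)

/-- the three kinds of points of the lower side -/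
theorem RTf_ptL (hN : PTf 𝒜 N) (hK : PTf 𝒜 K) (hr : PTf 𝒜 r) (hP : PTf 𝒜 P) (hf : PTf 𝒜 f) :
    (RTf 𝒜 (fun A x => ((Inst.DL (N A x) (K A x) (r A x)).pt (.z (P A x) (f A x))).1) ∧
      RTf 𝒜 (fun A x => ((Inst.DL (N A x) (K A x) (r A x)).pt (.z (P A x) (f A x))).2)) ∧
    (RTf 𝒜 (fun A x => ((Inst.DL (N A x) (K A x) (r A x)).pt (.q (f A x))).1) ∧
      RTf 𝒜 (fun A x => ((Inst.DL (N A x) (K A x) (r A x)).pt (.q (f A x))).2)) ∧
    (RTf 𝒜 (fun A x => ((Inst.DL (N A x) (K A x) (r A x)).pt (.cap (P A x))).1) ∧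
      RTf 𝒜 (fun A x => ((Inst.DL (N A x) (K A x) (r A x)).pt (.cap (P A x))).2)) := by
  have hG := PTf_G hN hK hr
  have ha := PTf_KLa hN hK hr hP
  have ho := PTf_KLown hN hK hr hf
  have hp := PTf_KLpar hN hK hr hP
  refine ⟨?_, ?_, ?_⟩
  · have hb := RTf_baseL hN hK hr hP
    exact RTf_toward hb.1 hb.2 (RTf_mid hN hK hr ha)
      ((RTf.ofU hf).mul (RTf_pw ((PTf.const 6).mul hG)))
  · have hb := RTf_baseL hN hK hr ho
    exact RTf_toward hb.1 hb.2 (RTf_mid hN hK hr hf) (RTf_pw ((PTf.const 3).mul hG))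
  · have hb := RTf_baseL hN hK hr hp
    exact RTf_toward hb.1 hb.2 (RTf_mid hN hK hr ha) (RTf_pw ((PTf.const 3).mul hG))

/-- the blockers -/
theorem RTf_cr {u l : Orc → α → Pt} (h1 : RTf 𝒜 (fun A x => (u A x).1))
    (h2 : RTf 𝒜 (fun A x => (u A x).2)) (h3 : RTf 𝒜 (fun A x => (l A x).1))
    (h4 : RTf 𝒜 (fun A x => (l A x).2)) : RTf 𝒜 (fun A x => cr (u A x) (l A x)) := by
  unfold cr
  apply_rules [RTf.ofU, RTf.pow, RTf.div, RTf.mul, RTf.sub, RTf.add, RTf.ifP, RTf.one,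
      RTf.zero, RTf.ofNat, PTf.decide_le, PTf.decide_eq, PTf.decide_lt, PTf.decide_and,
      PTf.decide_eq_true', PTf.add, PTf.mul, PTf.fst, PTf.snd, PTf.const]

end Bin

end Pool.Agent.TRI
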