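import Pool.Agent.TRI.Bin4
import Pool.Agent.TRI.F_Defs

/-!
Finite sets of rational points in the calculus of polynomial-time functions.
-/

namespace Pool.Agent.TRI

namespace Bin

open Pool.Agent.LibComplexity Function

variable {𝒜 : Set Orc} {α β γ τ : Type} [Enc α] [Enc β] [Enc γ] [Enc τ]

theorem binVal_eq (w : List Bool) : binVal w = bv w := by
  induction w with
  | nil => rfl
  | cons b w ih => rw [binVal, bv, ih]

theorem coordVal_eq (c : Coord) : coordVal c =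
    (if c.1 then -1 else 1) * (bv c.2.1 : ℝ) / (bv c.2.2 : ℝ) := by
  unfold coordVal
  rw [binVal_eq, binVal_eq]

/-- coordinates of a rational value -/
theorem RTf.coord {h : Orc → α → ℝ} (hh : RTf 𝒜 h) :
    ∃ c : Orc → α → Coord, PTf 𝒜 c ∧ ∀ A ∈ 𝒜, ∀ x, coordVal (c A x) = h A x := by
  obtain ⟨c, hc, h1⟩ := hh.toCoord
  exact ⟨c, hc, fun A hA x => by rw [coordVal_eq, h1 A hA x]⟩

/-- the value of a coordinate -/
theorem RTf.coordVal {c : Orc → α → Coord} (hc : PTf 𝒜 c) :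
    RTf 𝒜 (fun A x => TRI.coordVal (c A x)) :=
  (RTf.ofCoord hc).congr fun _ _ _ => (coordVal_eq _).symm

theorem mem_ptSet {l : List (Coord × Coord)} {z : Pt} :
    z ∈ ptSet l ↔ ∃ p ∈ l, z = (TRI.coordVal p.1, TRI.coordVal p.2) := by
  unfold ptSet
  rw [List.mem_toFinset, List.mem_map]
  constructor
  · rintro ⟨p, hp, rfl⟩; exact ⟨p, hp, rfl⟩
  · rintro ⟨p, hp, rfl⟩; exact ⟨p, hp, rfl⟩

/-- finite sets of rational points, given by a list that is computable in polynomial time -/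
def PLf (𝒜 : Set Orc) (S : Orc → α → Finset Pt) : Prop :=
  ∃ L : Orc → α → List (Coord × Coord), PTf 𝒜 L ∧ ∀ A ∈ 𝒜, ∀ x, ptSet (L A x) = S A x

namespace PLf

theorem congr {S T : Orc → α → Finset Pt} (hS : PLf 𝒜 S)
    (h : ∀ A ∈ 𝒜, ∀ x, ∀ z, z ∈ S A x ↔ z ∈ T A x) : PLf 𝒜 T := by
  obtain ⟨L, hL, hh⟩ := hS
  refine ⟨L, hL, fun A hA x => ?_⟩
  rw [hh A hA x]
  exact Finset.ext (h A hA x)

theorem comp {S : Orc → β → Finset Pt} {f : Orc → α → β} (hS : PLf 𝒜 S) (hf : PTf 𝒜 f) :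
    PLf 𝒜 (fun A x => S A (f A x)) := by
  obtain ⟨L, hL, hh⟩ := hS
  exact ⟨_, hL.comp hf, fun A hA x => hh A hA (f A x)⟩

open Classical in
theorem union {S T : Orc → α → Finset Pt} (hS : PLf 𝒜 S) (hT : PLf 𝒜 T) :
    PLf 𝒜 (fun A x => S A x ∪ T A x) := by
  obtain ⟨L, hL, hh⟩ := hS
  obtain ⟨L', hL', hh'⟩ := hT
  refine ⟨_, hL.append hL', fun A hA x => ?_⟩
  beta_reduce
  rw [← hh A hA x, ← hh' A hA x]
  ext z
  simp only [mem_ptSet, Finset.mem_union, List.mem_append]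
  constructor
  · rintro ⟨p, hp | hp, hz⟩
    · exact Or.inl ⟨p, hp, hz⟩
    · exact Or.inr ⟨p, hp, hz⟩
  · rintro (⟨p, hp, hz⟩ | ⟨p, hp, hz⟩)
    · exact ⟨p, Or.inl hp, hz⟩
    · exact ⟨p, Or.inr hp, hz⟩

/-- a set given by its elements: image of a list -/
theorem ofList {l : Orc → α → List β} {u v : Orc → α → β → ℝ} {S : Orc → α → Finset Pt}
    (hl : PTf 𝒜 l) (hu : RTf 𝒜 (fun A (p : α × β) => u A p.1 p.2))
    (hv : RTf 𝒜 (fun A (p : α × β) => v A p.1 p.2))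
    (hS : ∀ A ∈ 𝒜, ∀ x, ∀ z, z ∈ S A x ↔ ∃ y ∈ l A x, z = (u A x y, v A x y)) : PLf 𝒜 S := by
  obtain ⟨c, hc, h1⟩ := hu.coord
  obtain ⟨d, hd, h2⟩ := hv.coord
  refine ⟨fun A x => (l A x).map (fun y => (c A (x, y), d A (x, y))),
    hl.map (g := fun A x y => (c A (x, y), d A (x, y))) (hc.pair hd), fun A hA x => ?_⟩
  ext z
  rw [hS A hA x, mem_ptSet]
  constructor
  · rintro ⟨p, hp, hz⟩
    obtain ⟨y, hy, rfl⟩ := List.mem_map.1 hp
    refine ⟨y, hy, ?_⟩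
    rw [hz]
    simp only
    rw [h1 A hA (x, y), h2 A hA (x, y)]
  · rintro ⟨y, hy, hz⟩
    refine ⟨_, List.mem_map.2 ⟨y, hy, rfl⟩, ?_⟩
    rw [hz]
    simp only
    rw [h1 A hA (x, y), h2 A hA (x, y)]

/-- a union over a list -/
theorem bUnion {l : Orc → α → List β} {T : Orc → α → β → Finset Pt} {S : Orc → α → Finset Pt}
    (hl : PTf 𝒜 l) (hT : PLf 𝒜 (fun A (p : α × β) => T A p.1 p.2))
    (hS : ∀ A ∈ 𝒜, ∀ x, ∀ z, z ∈ S A x ↔ ∃ y ∈ l A x, z ∈ T A x y) : PLf 𝒜 S := by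
  obtain ⟨L, hL, hh⟩ := hT
  refine ⟨fun A x => (l A x).flatMap (fun y => L A (x, y)),
    hl.flatMap (g := fun A x y => L A (x, y)) hL, fun A hA x => ?_⟩
  ext z
  rw [hS A hA x, mem_ptSet]
  constructor
  · rintro ⟨p, hp, hz⟩
    obtain ⟨y, hy, hp⟩ := List.mem_flatMap.1 hp
    have e1 : ptSet (L A (x, y)) = T A x y := hh A hA (x, y)
    refine ⟨y, hy, ?_⟩
    rw [← e1, mem_ptSet]
    exact ⟨p, hp, hz⟩
  · rintro ⟨y, hy, hz⟩
    have e1 : ptSet (L A (x, y)) = T A x y := hh A hA (x, y)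
    rw [← e1, mem_ptSet] at hz
    obtain ⟨p, hp, hz⟩ := hz
    exact ⟨p, List.mem_flatMap.2 ⟨y, hy, hp⟩, hz⟩

end PLf

end Bin

end Pool.Agent.TRI
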